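import Pool.Agent.P.MP_b4265e_pr.R.ApprGAux

/-!
Harmonic functions of the graph are close to lattice harmonic functions.
-/

namespace Pool.Agent.P.MP_b4265e_pr.R

open Finset
open scoped Classical

lemma apG_num {d Ct η s lam M W E L L' D B N P n : ℝ} (hd : 0 ≤ d) (hCt : 0 ≤ Ct) (hη : 0 ≤ η)
    (hs : 0 < s) (hlam : 0 < lam) (hM : 0 ≤ M) (hW : 0 ≤ W) (hL : 0 ≤ L)
    (hD : 0 ≤ D) (hN : 0 ≤ N) (hP : 0 ≤ P) (hn : 0 ≤ n) (hE0 : 0 ≤ E)
    (hL0 : 0 ≤ L')
    (h1 : s ≤ 2 * N * lam) (h2 : E ≤ 4 * D * L / s) (h3 : L' ≤ L) (h4 : B ≤ η * s)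
    (h5 : M * W * L ≤ P * n / lam) (h6 : D * D = d) (h7 : D ≤ d) :
    d * (Ct * η * (s / lam) * M * W * (E + L' / lam)) + D * W * (d * (B * (M / lam))) * E ≤
      η * n / s ^ 2 * (d * (2 * N) ^ 2 * P * (Ct * (4 * d + 2 * N) + 4 * d)) := by
  have q1 : s / lam ≤ 2 * N := by rw [div_le_iff₀ hlam]; exact h1
  have q2 : 1 / lam ≤ 2 * N / s := by
    rw [div_le_div_iff₀ hlam hs]; linarith
  have q3 : E + L' / lam ≤ (4 * d + 2 * N) * L / s := by
    have a1 : L' / lam ≤ L * (2 * N / s) := by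
      rw [div_eq_mul_one_div]
      exact mul_le_mul h3 q2 (by positivity) hL
    have a2 : 4 * D * L / s ≤ 4 * d * L / s := by gcongr
    have a3 : (4 * d + 2 * N) * L / s = 4 * d * L / s + L * (2 * N / s) := by ring
    linarith
  have q4 : M * W * L ≤ P * n * (2 * N / s) := by
    refine h5.trans ?_
    rw [div_eq_mul_one_div]
    exact mul_le_mul_of_nonneg_left q2 (by positivity)
  have q5 : B * (M / lam) ≤ η * (2 * N) * M := by
    have a1 : B / lam ≤ η * (2 * N) := by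
      calc B / lam ≤ η * s / lam := by gcongr
        _ = η * (s / lam) := by ring
        _ ≤ η * (2 * N) := by gcongr
    calc B * (M / lam) = B / lam * M := by ring
      _ ≤ η * (2 * N) * M := by gcongr
  have t1 : d * (Ct * η * (s / lam) * M * W * (E + L' / lam)) ≤
      d * Ct * η * (2 * N) * ((4 * d + 2 * N) / s) * (M * W * L) := by
    calc d * (Ct * η * (s / lam) * M * W * (E + L' / lam))
        ≤ d * (Ct * η * (2 * N) * M * W * ((4 * d + 2 * N) * L / s)) := by gcongr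
      _ = _ := by ring
  have t2 : D * W * (d * (B * (M / lam))) * E ≤
      d * η * (2 * N) * (4 * d / s) * (M * W * L) := by
    calc D * W * (d * (B * (M / lam))) * E
        ≤ D * W * (d * (η * (2 * N) * M)) * (4 * D * L / s) := by gcongr
      _ = d * η * (2 * N) * (4 * (D * D) / s) * (M * W * L) := by ring
      _ = _ := by rw [h6]
  calc _ ≤ d * Ct * η * (2 * N) * ((4 * d + 2 * N) / s) * (M * W * L) +
        d * η * (2 * N) * (4 * d / s) * (M * W * L) := add_le_add t1 t2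
    _ = d * η * (2 * N) * ((Ct * (4 * d + 2 * N) + 4 * d) / s) * (M * W * L) := by ring
    _ ≤ d * η * (2 * N) * ((Ct * (4 * d + 2 * N) + 4 * d) / s) * (P * n * (2 * N / s)) := by
        gcongr
    _ = _ := by field_simp

lemma apG_sqrt_vol (d : ℕ) {r R : ℕ} (h : 2 * R + 1 ≤ 3 * (2 * r + 1)) :
    √(vol d R) ≤ 3 ^ d * √(vol d r) := by
  have h1 : vol d R ≤ 3 ^ d * vol d r := vol_le_mul d (by exact_mod_cast h)
  have h2 : (1 : ℝ) ≤ 3 ^ d := one_le_pow₀ (by norm_num)
  have h3 := vol_pos d r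
  rw [Real.sqrt_le_left (by positivity), mul_pow, Real.sq_sqrt h3.le]
  refine h1.trans (mul_le_mul_of_nonneg_right ?_ h3.le)
  nlinarith

/-- The Laplacian of the doubly smoothed function is small. -/
lemma apG_lap_small {d : ℕ} (hd : 1 ≤ d) {θ K σ Ct : ℝ} (hσ : 0 < σ) (hCt : 1 ≤ Ct)
    {η B : ℝ} {G : Set (E d)} {C : Set (V d)} {φ : Fin d → V d → ℝ} {x : V d} {s m m1 N : ℕ}
    (hM : Meso θ K σ η B G C φ x s m m1)
    (hts : ∀ (r : ℕ), r + 20 * m ≤ 2 * s →
      ∀ (v ψ : V d → ℝ) (M l : ℝ), 0 < l → l ≤ s →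
      (∀ y ∈ box x (2 * s), |ψ y| ≤ M ∧ ∀ j, |dif j ψ y| ≤ M / l ∧
        ∀ k, |dif k (dif j ψ) y| ≤ M / l ^ 2) →
      (∀ y, y ∉ box x r → ψ y = 0 ∨ ∀ z ∈ box y (6 * m), z ∈ C → v z = 0) → ∀ i,
        |∑ e ∈ boxE x r, flx G (φ i) i e * grad v e * ψ e.1 -
          σ * ∑ y ∈ box x r, dif i (sm C m v) y * ψ y| ≤
          Ct * η * (s / l) * M * √(vol d (2 * s)) *
            (en G x (r + 20 * m) v + l2 (cap C (box x (r + 20 * m))) v / l))
    (hη : 0 ≤ η) (hm : 1 ≤ m) (hN : 64 ≤ N) (hNs : N ≤ s) (hms : 200 * m ≤ s)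
    {h : V d → ℝ} (H : Harm G x s h)
    (hE : en G x (s / 2 + 4 * (s / N) + 2 + 20 * m) h ≤ 4 * √d * l2 (cap C (box x s)) h / s)
    {y : V d} (hy : y ∈ box x (s / 2)) :
    |lapG Set.univ ((Av (s / N))^[4] (sm C m h)) y| ≤ η * nrm C x s h / (s : ℝ) ^ 2 *
      (d * (2 * (N : ℝ)) ^ 2 * (5 * (N : ℝ)) ^ d * (Ct * (4 * d + 2 * N) + 4 * d)) / σ := by
  set l := s / N with hl
  have hN0 : 0 < N := by omega
  have l1 : N * l ≤ s := Nat.mul_div_le s N
  have l2' : s < N * (l + 1) := Nat.lt_mul_div_succ s hN0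
  have l3 : 64 * l ≤ s := le_trans (Nat.mul_le_mul_right l hN) l1
  have l4 : 1 ≤ l := by rw [hl]; exact (Nat.one_le_div_iff hN0).2 hNs
  set a := s / 2 + 4 * l with ha
  have hsub : box y (4 * l) ⊆ box x a := box_subset (by rw [mem_box_nd] at hy; omega)
  have hψ : ∀ z, z ∉ box x a → ker l 4 y z = 0 := fun z hz =>
    ker_supp l 4 y z fun h' => hz (hsub h')
  set lam : ℝ := (2 * (l : ℝ) + 1) / 2 with hlam
  have hlam0 : 0 < lam := by positivity
  have hv := vol_pos d l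
  set M : ℝ := 1 / (lam * vol d l) with hMdef
  have hM0 : 0 ≤ M := by positivity
  have e0 : (2 : ℝ) / (2 * l + 1) = 1 / lam := by rw [hlam]; field_simp
  have k1 : ∀ i z, |dif i (ker l 4 y) z| ≤ M := fun i z => by
    have := abs_difs_ker_le l 4 [i] (by simp) y z
    simp only [difs, List.length_cons, List.length_nil, e0, zero_add] at this
    refine this.trans (le_of_eq ?_)
    rw [hMdef]; field_simp
  have k2 : ∀ i j z, |dif j (dif i (ker l 4 y)) z| ≤ M / lam := fun i j z => by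
    have := abs_difs_ker_le l 4 [j, i] (by simp) y z
    simp only [difs, List.length_cons, List.length_nil, e0, zero_add, Nat.reduceAdd] at this
    refine this.trans (le_of_eq ?_)
    rw [hMdef]; field_simp
  have k3 : ∀ i j k z, |dif k (dif j (dif i (ker l 4 y))) z| ≤ M / lam ^ 2 := fun i j k z => by
    have := abs_difs_ker_le l 4 [k, j, i] (by simp) y z
    simp only [difs, List.length_cons, List.length_nil, e0, zero_add, Nat.reduceAdd] at this
    refine this.trans (le_of_eq ?_)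
    rw [hMdef]; field_simp
  have hs0 : (0 : ℝ) < s := by exact_mod_cast (by omega : 0 < s)
  have hlams : lam ≤ s := by
    have : (2 * l + 1 : ℝ) ≤ 2 * s := by exact_mod_cast (by omega : 2 * l + 1 ≤ 2 * s)
    rw [hlam]; linarith
  have hB0 : 0 ≤ B := le_trans zero_le_one hM.one_le
  have main := apG_lap_bound (Ct := Ct) (σ := σ) (η := η) (s := s) (m := m) hM.wf.sub hM.bdd hB0
    hM0 hlam0 (by omega) hψ (H.mono (box_mono x (by omega))) k2 (fun i =>
      hts (a + 2) (by omega) h (dif i (ker l 4 y)) M lam hlam0 hlams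
        (fun z _ => ⟨k1 i z, fun j => ⟨k2 i j z, fun k => k3 i j k z⟩⟩)
        (fun z hz => Or.inl (apG_dif_supp hψ i z fun h' => hz (box_mono x (by omega) h'))) i)
  rw [apG_lap_iter, iterate_Av_eq l 4 _ y (box x a) hsub, le_div_iff₀ hσ]
  rw [abs_mul, abs_of_pos hσ, mul_comm σ] at main
  refine main.trans ?_
  have hd1 : (1 : ℝ) ≤ d := by exact_mod_cast hd
  have hN1 : (1 : ℝ) ≤ N := by exact_mod_cast hN0
  have hsl : (s : ℝ) ≤ N * (2 * l + 1) := by
    have : s ≤ N * (2 * l + 1) := by nlinarith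
    exact_mod_cast this
  refine apG_num (Nat.cast_nonneg _) (by linarith) hη hs0 hlam0 hM0 (Real.sqrt_nonneg _)
    (l2_nonneg (cap C (box x s)) h) (Real.sqrt_nonneg _) (Nat.cast_nonneg _) (by positivity)
    (nrm_nonneg _ _ _ _) (en_nonneg _ _ _ _) (l2_nonneg _ _) ?_ hE
    (l2_mono (cap_mono C (box_mono x (by omega))) h) ?_ ?_ (Real.mul_self_sqrt (by positivity)) ?_
  · rw [hlam]; linarith
  · have h1 := hM.sep2
    have h2 : (1 : ℝ) ≤ m := by exact_mod_cast hm
    nlinarith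
  · rw [l2_eq_nrm]
    have v1 : vol d (2 * s) ≤ (5 * (N : ℝ)) ^ d * vol d l := by
      refine vol_le_mul d ?_
      have : (1 : ℝ) ≤ s := by exact_mod_cast (by omega : 1 ≤ s)
      push_cast
      linarith
    have v2 : √(vol d (2 * s)) * √(vol d s) ≤ vol d (2 * s) := by
      calc √(vol d (2 * s)) * √(vol d s) ≤ √(vol d (2 * s)) * √(vol d (2 * s)) :=
            mul_le_mul_of_nonneg_left (Real.sqrt_le_sqrt (vol_mono d (by omega)))
              (Real.sqrt_nonneg _)
        _ = _ := Real.mul_self_sqrt (vol_pos _ _).le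
    have hn := nrm_nonneg C x s h
    calc M * √(vol d (2 * s)) * (√(vol d s) * nrm C x s h)
        = M * (√(vol d (2 * s)) * √(vol d s)) * nrm C x s h := by ring
      _ ≤ M * ((5 * (N : ℝ)) ^ d * vol d l) * nrm C x s h :=
          mul_le_mul_of_nonneg_right (mul_le_mul_of_nonneg_left (v2.trans v1) hM0) hn
      _ = _ := by rw [hMdef]; field_simp
  · rw [Real.sqrt_le_left (by positivity)]
    nlinarith

lemma apG_pos {η m : ℝ} (h : 1 ≤ η * m) (hm : 0 ≤ m) : 0 < η := by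
  by_contra hc
  nlinarith

theorem appr_of_meso {d : ℕ} (hd : 1 ≤ d) {θ K σ : ℝ} (hθ : 0 < θ) (hK : 0 < K) (hσ : 0 < σ) :
    ∃ K' : ℝ, 0 < K' ∧ ∀ δ : ℝ, 0 < δ → ∃ η0 : ℝ, 0 < η0 ∧ ∀ η ≤ η0,
    ∀ {B : ℝ} {G : Set (E d)} {C : Set (V d)} {φ : Fin d → V d → ℝ} {x : V d} {s m m1 : ℕ},
    1 ≤ m → Meso θ K σ η B G C φ x s m m1 → Appr K' δ G C x s := by
  obtain ⟨Ct, hCt, hts⟩ := two_scale d hθ hK
  obtain ⟨Cs, hCs, hsm⟩ := smoothing d hθ hK
  obtain ⟨Cb, hCb, hsup⟩ := sup_le_l2 d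
  have hd1 : (1 : ℝ) ≤ d := by exact_mod_cast hd
  refine ⟨Cb * (1 + Cs * 3 ^ d), by positivity, fun δ hδ => ?_⟩
  obtain ⟨N0, hN0⟩ := exists_nat_ge (3 * (16 * (d : ℝ) ^ 2 * Cs * 3 ^ d) / δ)
  set N := max N0 64 with hNdef
  have hN64 : 64 ≤ N := le_max_right _ _
  have hNr : (64 : ℝ) ≤ N := by exact_mod_cast hN64
  have hNδ : 16 * (d : ℝ) ^ 2 * Cs * 3 ^ d / N ≤ δ / 3 := by
    have : (N0 : ℝ) ≤ N := by exact_mod_cast le_max_left _ _
    rw [div_le_iff₀ hδ] at hN0
    rw [div_le_iff₀ (by linarith)]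
    nlinarith
  set c3 : ℝ := d * (2 * (N : ℝ)) ^ 2 * (5 * (N : ℝ)) ^ d * (Ct * (4 * d + 2 * N) + 4 * d)
    with hc3
  have hc30 : 0 < c3 := by positivity
  set c1 : ℝ := Cs * (4 * d) * 3 ^ d with hc1
  have hc10 : 0 < c1 := by positivity
  refine ⟨min (min (1 / 200) (1 / N)) (min (δ / 3 / c1) (min (δ / 3) 1 * σ / c3)),
    by positivity, fun η hη B G C φ x s m m1 hm hM h H => ?_⟩
  have η1 : η ≤ 1 / 200 := hη.trans ((min_le_left _ _).trans (min_le_left _ _))
  have η2 : η ≤ 1 / N := hη.trans ((min_le_left _ _).trans (min_le_right _ _))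
  have η3 : η ≤ δ / 3 / c1 := hη.trans ((min_le_right _ _).trans (min_le_left _ _))
  have η4 : η ≤ min (δ / 3) 1 * σ / c3 := hη.trans ((min_le_right _ _).trans (min_le_right _ _))
  have hB := hM.one_le
  have hm1 : (1 : ℝ) ≤ m1 := by exact_mod_cast hM.m1_pos
  have hmr : (1 : ℝ) ≤ m := by exact_mod_cast hm
  have hs0' : (0 : ℝ) ≤ s := Nat.cast_nonneg _
  have a1 : 1 ≤ η * m := le_trans (one_le_mul_of_one_le_of_one_le hB hm1) hM.sep1
  have a2 : (m : ℝ) ≤ η * s := le_trans (le_mul_of_one_le_left (by linarith) hB) hM.sep2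
  have hη0 : 0 < η := apG_pos a1 (by linarith)
  have hm200 : 200 ≤ m := by
    have h1 : η * m ≤ 1 / 200 * m := mul_le_mul_of_nonneg_right η1 (by linarith)
    have : (200 : ℝ) ≤ m := by linarith
    exact_mod_cast this
  have hms : 200 * m ≤ s := by
    have h1 : η * s ≤ 1 / 200 * s := mul_le_mul_of_nonneg_right η1 hs0'
    have : (200 : ℝ) * m ≤ s := by linarith
    exact_mod_cast this
  have hNs : N ≤ s := by
    have h1 : η * s ≤ 1 / N * s := mul_le_mul_of_nonneg_right η2 hs0'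
    have h2 : (1 : ℝ) ≤ s / N := by
      have : 1 / (N : ℝ) * s = s / N := by ring
      linarith
    rw [le_div_iff₀ (by linarith), one_mul] at h2
    exact_mod_cast h2
  set l := s / N with hl
  have hNpos : 0 < N := by omega
  have l1 : N * l ≤ s := Nat.mul_div_le s N
  have l3 : 64 * l ≤ s := le_trans (Nat.mul_le_mul_right l hN64) l1
  have hs0 : (0 : ℝ) < s := by exact_mod_cast (by omega : 0 < s)
  set L := l2 (cap C (box x s)) h with hL
  set n := nrm C x s h with hn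
  have hn0 : 0 ≤ n := nrm_nonneg _ _ _ _
  have hL0 : 0 ≤ L := l2_nonneg _ _
  have hLn : L = √(vol d s) * n := l2_eq_nrm C x s h
  have hDd : √(d : ℝ) ≤ d := by
    rw [Real.sqrt_le_left (by positivity), sq]
    exact le_mul_of_one_le_left (by linarith) hd1
  have hE : en G x (s / 2 + 4 * l + 2 + 20 * m) h ≤ 4 * √d * L / s := by
    refine (cacc_box hM.wf.sub (by omega) H).trans ?_
    have b1 : (s : ℝ) / 4 ≤ (s : ℝ) - (s / 2 + 4 * l + 2 + 20 * m : ℕ) - 1 := by
      have : 4 * (s / 2 + 4 * l + 2 + 20 * m) + 4 ≤ 3 * s := by omega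
      have : (4 : ℝ) * (s / 2 + 4 * l + 2 + 20 * m : ℕ) + 4 ≤ 3 * s := by exact_mod_cast this
      linarith
    calc √d / ((s : ℝ) - (s / 2 + 4 * l + 2 + 20 * m : ℕ) - 1) * L ≤ √d / ((s : ℝ) / 4) * L := by
          gcongr
      _ = _ := by field_simp
  have hE' : ∀ r, r ≤ s / 2 + 4 * l + 2 + 20 * m → en G x r h ≤ 4 * d * L / s := fun r hr => by
    refine (en_mono G (by rw [nd_self]; omega) h).trans (hE.trans ?_)
    gcongr
  have hLoc : ∀ r, r ≤ s → LocP θ K G C x (r + 3 * m) m := fun r hr z hz r' h1 h2 =>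
    ⟨hM.dens z (box_mono x (by omega) hz) r' h1 (by omega),
      hM.poin z (box_mono x (by omega) hz) r' h1 (by omega)⟩
  set F := sm C m h with hF
  set ht := (Av l)^[4] F with hht
  set γ : ℝ := η * n / (s : ℝ) ^ 2 * c3 / σ with hγ
  have hγ0 : 0 ≤ γ := by positivity
  have hlap : ∀ y ∈ box x (s / 2), |lapG Set.univ ht y| ≤ γ := fun y hy =>
    apG_lap_small hd hσ hCt hM (hts hσ.le (by linarith) hM) hη0.le hm hN64 hNs hms H hE hy
  obtain ⟨Hh, hH1, hH2⟩ := exists_dirichlet (wf_univ hd) (box x (s / 2)) (fun _ => 0) ht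
  rw [cap_univ] at hH1 hH2
  have hbar : ∀ y, |Hh y - ht y| ≤ min (δ / 3) 1 * n := by
    intro y
    have := barrier hd (u := fun y => Hh y - ht y) (x := x) (r := s / 2) hγ0
      (fun y hy => by rw [hH2 y hy, sub_self])
      (fun y hy => by rw [lapG_sub, hH1 y hy, zero_sub, abs_neg]; exact hlap y hy) y
    refine this.trans ?_
    have b1 : ((s / 2 : ℕ) : ℝ) + 1 ≤ s := by exact_mod_cast (by omega : s / 2 + 1 ≤ s)
    have b2 : η * c3 / σ ≤ min (δ / 3) 1 := by
      rw [le_div_iff₀ hc30] at η4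
      rw [div_le_iff₀ hσ]; exact η4
    calc γ * (((s / 2 : ℕ) : ℝ) + 1) ^ 2 / 2 ≤ γ * (s : ℝ) ^ 2 / 1 := by gcongr; norm_num
      _ = η * c3 / σ * n := by rw [hγ]; field_simp
      _ ≤ _ := by gcongr
  refine ⟨Hh, hH1, ?_, ?_⟩
  · have hv := vol_pos d (s / 2)
    have hsv : 0 < √(vol d (s / 2)) := Real.sqrt_pos.2 hv
    have hvv : √(vol d s) ≤ 3 ^ d * √(vol d (s / 2)) := apG_sqrt_vol d (by omega)
    have hLv : L ≤ 3 ^ d * √(vol d (s / 2)) * n := by rw [hLn]; gcongr
    have p1 : nrm C x (s / 2) (fun y => h y - F y) ≤ δ / 3 * n := by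
      have b1 := (hsm G C x (s / 2) m (by omega) (hLoc _ (by omega)) h).2.1
      have b2 := hE' (s / 2 + 12 * m) (by omega)
      have b3 : η * c1 ≤ δ / 3 := by rwa [le_div_iff₀ hc10] at η3
      rw [nrm, div_le_iff₀ hsv]
      calc _ ≤ Cs * m * en G x (s / 2 + 12 * m) h := b1
        _ ≤ Cs * (η * s) * (4 * d * (3 ^ d * √(vol d (s / 2)) * n) / s) := by
            gcongr
            · exact en_nonneg _ _ _ _
            · refine b2.trans ?_
              gcongr
        _ = η * c1 * n * √(vol d (s / 2)) := by rw [hc1]; field_simp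
        _ ≤ _ := by gcongr
    have p2 : nrm C x (s / 2) (fun y => F y - ht y) ≤ δ / 3 * n := by
      have b1 := apG_l2_sub_iter l 4 F x (s / 2)
      have b2 := (hsm G C x (s / 2 + 4 * l) m (by omega) (hLoc _ (by omega)) h).2.2.1
      have b3 := hE' (s / 2 + 4 * l + 12 * m) (by omega)
      have b4 : ∑ i, l2 (box x (s / 2 + 4 * l)) (dif i F) ≤ d * (Cs * (4 * d * L / s)) := by
        refine (sum_le_card_nsmul _ _ (Cs * (4 * d * L / s)) fun i _ => ?_).trans (by simp)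
        refine (b2 i).trans ?_
        gcongr
      have b5 : (l : ℝ) ≤ s / N := by
        rw [le_div_iff₀ (by linarith)]
        have : (N : ℝ) * l ≤ s := by exact_mod_cast l1
        linarith
      rw [nrm, div_le_iff₀ hsv]
      calc _ ≤ l2 (box x (s / 2)) (fun y => F y - ht y) := l2_mono (cap_subset _ _) _
        _ ≤ (4 : ℕ) * (l * ∑ i, l2 (box x (s / 2 + 4 * l)) (dif i F)) := b1
        _ ≤ (4 : ℕ) * (s / N * (d * (Cs * (4 * d * (3 ^ d * √(vol d (s / 2)) * n) / s)))) := by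
            gcongr
            · exact sum_nonneg fun i _ => l2_nonneg _ _
            · refine b4.trans ?_
              gcongr
        _ = 16 * (d : ℝ) ^ 2 * Cs * 3 ^ d / N * n * √(vol d (s / 2)) := by
            push_cast; field_simp; ring
        _ ≤ _ := by gcongr
    have p3 : nrm C x (s / 2) (fun y => ht y - Hh y) ≤ δ / 3 * n := by
      refine nrm_le_sup (by positivity) fun y _ _ => ?_
      rw [abs_sub_comm]
      refine (hbar y).trans ?_
      gcongr
      exact min_le_left _ _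
    have e1 : (fun y => h y - Hh y) =
        fun y => ((h y - F y) + (F y - ht y)) + (ht y - Hh y) := by funext y; ring
    rw [e1]
    have q1 := nrm_add_le C x (s / 2) (fun y => (h y - F y) + (F y - ht y)) (fun y => ht y - Hh y)
    have q2 := nrm_add_le C x (s / 2) (fun y => h y - F y) (fun y => F y - ht y)
    linarith
  · intro y hy
    have b1 := hsup Hh x (s / 4) (Harm.mono hH1 (box_mono x (by omega))) y hy
    have hv := vol_pos d (2 * (s / 4))
    have hsv : 0 < √(vol d (2 * (s / 4))) := Real.sqrt_pos.2 hv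
    have hvv : √(vol d s) ≤ 3 ^ d * √(vol d (2 * (s / 4))) := apG_sqrt_vol d (by omega)
    have p1 : nrm Set.univ x (2 * (s / 4)) (fun y => Hh y - ht y) ≤ n := by
      refine nrm_le_sup hn0 fun y _ _ => (hbar y).trans ?_
      exact mul_le_of_le_one_left hn0 (min_le_right (δ / 3) 1)
    have p2 : nrm Set.univ x (2 * (s / 4)) ht ≤ Cs * 3 ^ d * n := by
      have c1 := apG_l2_iter_le l 4 F x (2 * (s / 4))
      have c2 := (hsm G C x (2 * (s / 4) + 4 * l) m (by omega) (hLoc _ (by omega)) h).2.2.2.2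
      have c3 : l2 (cap C (box x (2 * (s / 4) + 4 * l + 5 * m))) h ≤ L :=
        l2_mono (cap_mono C (box_mono x (by omega))) h
      rw [nrm, div_le_iff₀ hsv, cap_univ]
      calc _ ≤ Cs * L := c1.trans (c2.trans (by gcongr))
        _ ≤ Cs * (3 ^ d * √(vol d (2 * (s / 4))) * n) := by rw [hLn]; gcongr
        _ = _ := by ring
    have e1 : Hh = fun y => (Hh y - ht y) + ht y := by funext y; ring
    have q1 := nrm_add_le Set.univ x (2 * (s / 4)) (fun y => Hh y - ht y) ht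
    rw [← e1] at q1
    calc |Hh y| ≤ Cb * nrm Set.univ x (2 * (s / 4)) Hh := b1
      _ ≤ Cb * (n + Cs * 3 ^ d * n) := by gcongr; linarith
      _ = _ := by ring

end Pool.Agent.P.MP_b4265e_pr.R
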