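import Pool.Agent.P.MP_b4265e_pr.R.Avg

/-!
Harmonic functions on the lattice: barrier, gradient estimate, local boundedness.
-/

namespace Pool.Agent.P.MP_b4265e_pr.R

open Finset
open scoped Classical

variable {d : ℕ}

/-- The Laplacian of a function of one coordinate. -/
lemma zh_lap_coord (f : ℤ → ℝ) (j : Fin d) (y : V d) :
    lapG Set.univ (fun z : V d => f (z j)) y = f (y j + 1) - 2 * f (y j) + f (y j - 1) := by
  rw [lapG_univ, Finset.sum_eq_single j]
  · simp
  · intro k _ hk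
    have h : ee k j = (0 : ℤ) := ee_ne (Ne.symm hk)
    simp only [Pi.add_apply, Pi.sub_apply, h, add_zero, sub_zero]
    ring
  · intro h
    exact absurd (Finset.mem_univ j) h

lemma zh_inf (hd : 1 ≤ d) (y : V d) : (comp (Set.univ : Set (E d)) y).Infinite :=
  (wf_univ hd).inf y trivial

lemma zh_barrier_le (hd : 1 ≤ d) {u : V d → ℝ} {x : V d} {r : ℕ} {γ : ℝ} (hγ : 0 ≤ γ)
    (h0 : ∀ y, y ∉ box x r → u y = 0) (h1 : ∀ y ∈ box x r, -γ ≤ lapG Set.univ u y) :
    ∀ y, u y ≤ γ * ((r : ℝ) + 1) ^ 2 / 2 := by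
  intro y
  by_cases hy : y ∈ box x r
  swap
  · rw [h0 y hy]; positivity
  set i0 : Fin d := ⟨0, hd⟩ with hi0
  set f : ℤ → ℝ := fun s => γ * (((r : ℝ) + 1) ^ 2 - ((s : ℝ) - x i0) ^ 2) / 2 with hf
  have key := max_prin (G := Set.univ) (box x r) (fun z _ => zh_inf hd z)
    (fun z => u z - f (z i0)) (b := 0) ?_ ?_ y hy
  · have h2 : f (y i0) ≤ γ * ((r : ℝ) + 1) ^ 2 / 2 := by
      simp only [hf]
      have : 0 ≤ γ * ((y i0 : ℝ) - x i0) ^ 2 := by positivity
      linarith
    have key' : u y - f (y i0) ≤ 0 := key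
    linarith
  · intro z hz
    rw [lapG_sub, zh_lap_coord f i0 z]
    have h3 := h1 z hz
    have h4 : f (z i0 + 1) - 2 * f (z i0) + f (z i0 - 1) = -γ := by
      simp only [hf]
      push_cast
      ring
    linarith
  · intro z hz w hzw hw
    have h5 : nd x w ≤ r + 1 := by
      have := nd_triangle x z w
      have h6 := nd_of_adj hzw
      have h7 := mem_box_nd.1 hz
      omega
    have h8 : |w i0 - x i0| ≤ (r : ℤ) + 1 := by
      have := abs_le_nd x w i0
      have h9 : (nd x w : ℤ) ≤ (r : ℤ) + 1 := by exact_mod_cast h5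
      linarith
    have h10 : |(w i0 : ℝ) - x i0| ≤ (r : ℝ) + 1 := by exact_mod_cast h8
    have h11 : ((w i0 : ℝ) - x i0) ^ 2 ≤ ((r : ℝ) + 1) ^ 2 := by
      rw [← sq_abs ((w i0 : ℝ) - x i0)]
      exact pow_le_pow_left₀ (abs_nonneg _) h10 2
    have h12 : 0 ≤ f (w i0) := by
      simp only [hf]
      have : 0 ≤ γ * (((r : ℝ) + 1) ^ 2 - ((w i0 : ℝ) - x i0) ^ 2) :=
        mul_nonneg hγ (by linarith)
      linarith
    show u w - f (w i0) ≤ 0
    rw [h0 w hw]
    linarith

/-- Barrier estimate. -/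
lemma barrier (hd : 1 ≤ d) {u : V d → ℝ} {x : V d} {r : ℕ} {γ : ℝ} (hγ : 0 ≤ γ)
    (h0 : ∀ y, y ∉ box x r → u y = 0) (h1 : ∀ y ∈ box x r, |lapG Set.univ u y| ≤ γ) :
    ∀ y, |u y| ≤ γ * ((r : ℝ) + 1) ^ 2 / 2 := by
  intro y
  rw [abs_le]
  constructor
  · have := zh_barrier_le hd (u := fun z => - u z) (x := x) (r := r) hγ
      (fun z hz => by simp [h0 z hz])
      (fun z hz => by
        rw [lapG_neg]
        have := (abs_le.1 (h1 z hz)).2
        linarith) y
    have h2 : - u y ≤ γ * ((r : ℝ) + 1) ^ 2 / 2 := this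
    linarith
  · exact zh_barrier_le hd hγ h0 (fun z hz => (abs_le.1 (h1 z hz)).1) y

/-- Reflection exchanging `x` and `x + ee i`. -/
def zhRefl (x : V d) (i : Fin d) (y : V d) : V d := Function.update y i (2 * x i + 1 - y i)

lemma zhRefl_self (x : V d) (i : Fin d) (y : V d) : zhRefl x i y i = 2 * x i + 1 - y i := by
  simp [zhRefl]

lemma zhRefl_ne (x : V d) {i j : Fin d} (h : j ≠ i) (y : V d) : zhRefl x i y j = y j := by
  simp [zhRefl, h]

lemma zh_lap_refl (x : V d) (i : Fin d) (H : V d → ℝ) (y : V d) :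
    lapG Set.univ (fun z => H (zhRefl x i z)) y = lapG Set.univ H (zhRefl x i y) := by
  rw [lapG_univ, lapG_univ]
  refine Finset.sum_congr rfl fun j _ => ?_
  by_cases hj : j = i
  · subst hj
    have h1 : zhRefl x j (y + ee j) = zhRefl x j y - ee j := by
      funext k
      by_cases hk : k = j
      · subst hk
        simp only [zhRefl_self, Pi.add_apply, Pi.sub_apply, ee_self]
        ring
      · simp only [zhRefl_ne x hk, Pi.add_apply, Pi.sub_apply, ee_ne hk]
        ring
    have h2 : zhRefl x j (y - ee j) = zhRefl x j y + ee j := by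
      funext k
      by_cases hk : k = j
      · subst hk
        simp only [zhRefl_self, Pi.add_apply, Pi.sub_apply, ee_self]
        ring
      · simp only [zhRefl_ne x hk, Pi.add_apply, Pi.sub_apply, ee_ne hk]
        ring
    rw [h1, h2]
    ring
  · have hj' : i ≠ j := fun h => hj h.symm
    have h1 : zhRefl x i (y + ee j) = zhRefl x i y + ee j := by
      funext k
      by_cases hk : k = i
      · subst hk
        simp only [zhRefl_self, Pi.add_apply, ee_ne hj']
        ring
      · simp only [zhRefl_ne x hk, Pi.add_apply]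
    have h2 : zhRefl x i (y - ee j) = zhRefl x i y - ee j := by
      funext k
      by_cases hk : k = i
      · subst hk
        simp only [zhRefl_self, Pi.sub_apply, ee_ne hj']
        ring
      · simp only [zhRefl_ne x hk, Pi.sub_apply]
    rw [h1, h2]

/-- The transverse part of the comparison function. -/
noncomputable def zhQ (x : V d) (i : Fin d) (y : V d) : ℝ :=
  ∑ j ∈ univ.erase i, ((y j : ℝ) - x j) ^ 2

lemma zhQ_nonneg (x : V d) (i : Fin d) (y : V d) : 0 ≤ zhQ x i y :=
  Finset.sum_nonneg fun _ _ => sq_nonneg _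

lemma zhQ_ge (x : V d) {i j : Fin d} (h : j ≠ i) (y : V d) :
    ((y j : ℝ) - x j) ^ 2 ≤ zhQ x i y :=
  Finset.single_le_sum (f := fun j => ((y j : ℝ) - x j) ^ 2) (fun _ _ => sq_nonneg _)
    (Finset.mem_erase.2 ⟨h, Finset.mem_univ j⟩)

lemma zh_lap_Q (x : V d) (i : Fin d) (y : V d) :
    lapG Set.univ (zhQ x i) y = 2 * ((d : ℝ) - 1) := by
  have h1 : lapG Set.univ (zhQ x i) y =
      ∑ j ∈ univ.erase i, lapG Set.univ (fun z : V d => ((z j : ℝ) - x j) ^ 2) y :=
    lapG_sum (univ.erase i) Set.univ (fun j (z : V d) => ((z j : ℝ) - x j) ^ 2) y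
  rw [h1]
  have h2 : ∀ j ∈ univ.erase i,
      lapG Set.univ (fun z : V d => ((z j : ℝ) - x j) ^ 2) y = 2 := by
    intro j _
    rw [zh_lap_coord (fun s : ℤ => ((s : ℝ) - x j) ^ 2) j y]
    push_cast
    ring
  rw [Finset.sum_congr rfl h2, Finset.sum_const, Finset.card_erase_of_mem (Finset.mem_univ i),
    Finset.card_univ, Fintype.card_fin, nsmul_eq_mul]
  have hd : 1 ≤ d := by have := i.2; omega
  rw [Nat.cast_sub hd]
  push_cast
  ring

/-- The longitudinal part of the comparison function. -/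
noncomputable def zhP (d : ℕ) (a c : ℝ) (s : ℤ) : ℝ :=
  -((d : ℝ) - 1) * (((s : ℝ) - c) ^ 2 - ((s : ℝ) - c)) + d * a * ((s : ℝ) - c - 1 / 2)

lemma zh_grad_le {H : V d → ℝ} {x : V d} {r : ℕ} {M : ℝ} (hr : 1 ≤ r)
    (hH : Harm Set.univ x r H) (hM : ∀ y ∈ box x (r + 1), |H y| ≤ M) (i : Fin d) :
    dif i H x ≤ d * M / r := by
  have hd : 1 ≤ d := by have := i.2; omega
  have hd' : (1 : ℝ) ≤ d := by exact_mod_cast hd
  have hr' : (1 : ℝ) ≤ r := by exact_mod_cast hr
  have hM0 : 0 ≤ M := (abs_nonneg _).trans (hM x (mem_box_self x _))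
  set a : ℝ := (r : ℝ) + 1 / 2 with ha
  have ha0 : 0 < a := by positivity
  set c : ℝ := 2 * M / a ^ 2 with hc
  have hc0 : 0 ≤ c := by positivity
  have hca : c * a ^ 2 = 2 * M := by rw [hc]; field_simp
  set v : V d → ℝ := fun y => c * (zhQ x i y + zhP d a (x i) (y i)) with hv
  set φ : V d → ℝ := fun y => (H y - H (zhRefl x i y)) - v y with hφ
  set D : Finset (V d) := (box x r).filter fun y => x i + 1 ≤ y i with hD
  set ψ : V d → ℝ := fun y => if y ∈ D then max (φ y) 0 else 0 with hψ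
  have hψ0 : ∀ y, 0 ≤ ψ y := by
    intro y
    simp only [hψ]
    split_ifs
    · exact le_max_right _ _
    · exact le_rfl
  have hlapv : ∀ y, lapG Set.univ v y = 0 := by
    intro y
    rw [hv, lapG_mul, lapG_add, zh_lap_Q, zh_lap_coord (zhP d a (x i)) i y]
    simp only [zhP]
    push_cast
    ring
  have hlapφ : ∀ y ∈ D, lapG Set.univ φ y = 0 := by
    intro y hy
    obtain ⟨hy1, hy2⟩ := Finset.mem_filter.1 hy
    have hy3 : zhRefl x i y ∈ box x r := by
      rw [mem_box] at hy1 ⊢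
      intro k
      by_cases hk : k = i
      · subst hk
        have := abs_le.1 (hy1 k)
        rw [zhRefl_self, abs_le]
        constructor <;> omega
      · rw [zhRefl_ne x hk]
        exact hy1 k
    rw [hφ, lapG_sub, lapG_sub, zh_lap_refl, hH y hy1, hH _ hy3, hlapv]
    ring
  -- the faces other than the bottom one
  have hface : ∀ z : V d, z ∈ box x (r + 1) → x i + 1 ≤ z i → z ∉ D → φ z ≤ 0 := by
    intro z hz hzi hzD
    have hz' := mem_box.1 hz
    have hz3 : zhRefl x i z ∈ box x (r + 1) := by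
      rw [mem_box]
      intro k
      by_cases hk : k = i
      · subst hk
        have := abs_le.1 (hz' k)
        rw [zhRefl_self, abs_le]
        push_cast at this ⊢
        constructor <;> omega
      · rw [zhRefl_ne x hk]
        exact hz' k
    have hw : H z - H (zhRefl x i z) ≤ 2 * M := by
      have h1 := (abs_le.1 (hM z hz)).2
      have h2 := (abs_le.1 (hM _ hz3)).1
      linarith
    have hnb : z ∉ box x r := fun h => hzD (Finset.mem_filter.2 ⟨h, hzi⟩)
    rw [mem_box] at hnb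
    push Not at hnb
    obtain ⟨k, hk⟩ := hnb
    set t : ℝ := (z i : ℝ) - x i - 1 / 2 with ht
    have ht0 : 1 / 2 ≤ t := by
      have : ((x i : ℝ)) + 1 ≤ z i := by exact_mod_cast hzi
      linarith
    have hta : t ≤ a := by
      have h1 := (abs_le.1 (hz' i)).2
      have : (z i : ℝ) - x i ≤ (r : ℝ) + 1 := by exact_mod_cast h1
      linarith
    have hP : zhP d a (x i) (z i) = -((d : ℝ) - 1) * (t ^ 2 - 1 / 4) + d * a * t := by
      simp only [zhP, ht]
      ring
    have hge : a ^ 2 ≤ zhQ x i z + zhP d a (x i) (z i) := by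
      by_cases hki : k = i
      · subst hki
        have h1 := (abs_le.1 (hz' k)).2
        have h2 : z k - x k = r + 1 := by
          rw [abs_of_nonneg (by omega)] at hk
          push_cast at h1
          omega
        have h3 : (z k : ℝ) - x k = (r : ℝ) + 1 := by exact_mod_cast h2
        have h4 : t = a := by rw [ht, ha]; linarith
        have h5 := zhQ_nonneg x k z
        rw [hP, h4]
        nlinarith
      · have h1 := zhQ_ge x hki z
        have h2 : (r : ℤ) + 1 ≤ |z k - x k| := by omega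
        have h3 : (r : ℝ) + 1 ≤ |(z k : ℝ) - x k| := by exact_mod_cast h2
        have h4 : a ^ 2 ≤ ((z k : ℝ) - x k) ^ 2 := by
          rw [← sq_abs ((z k : ℝ) - x k)]
          exact pow_le_pow_left₀ ha0.le (by linarith) 2
        have h5 : 0 ≤ (d : ℝ) * (t * (a - t)) :=
          mul_nonneg (by linarith) (mul_nonneg (by linarith) (by linarith))
        rw [hP]
        nlinarith
    have hvz : 2 * M ≤ v z := by
      rw [← hca]
      exact mul_le_mul_of_nonneg_left hge hc0
    show H z - H (zhRefl x i z) - v z ≤ 0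
    linarith
  -- the bottom layer
  have hbot : ∀ y : V d, y i = x i + 1 → φ (y - ee i) ≤ - φ y := by
    intro y hy
    have h1 : zhRefl x i (y - ee i) = y := by
      funext k
      by_cases hk : k = i
      · subst hk
        simp only [zhRefl_self, Pi.sub_apply, ee_self]
        omega
      · simp only [zhRefl_ne x hk, Pi.sub_apply, ee_ne hk]
        ring
    have h2 : zhRefl x i y = y - ee i := by
      funext k
      by_cases hk : k = i
      · subst hk
        simp only [zhRefl_self, Pi.sub_apply, ee_self]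
        omega
      · simp only [zhRefl_ne x hk, Pi.sub_apply, ee_ne hk]
        ring
    have h3 : zhP d a (x i) ((y - ee i) i) + zhP d a (x i) (y i) = 0 := by
      simp only [zhP, Pi.sub_apply, ee_self, hy]
      push_cast
      ring
    have h4 : 0 ≤ v (y - ee i) + v y := by
      have h5 := zhQ_nonneg x i y
      have h6 := zhQ_nonneg x i (y - ee i)
      have h7 : v (y - ee i) + v y = c * (zhQ x i (y - ee i) + zhQ x i y +
          (zhP d a (x i) ((y - ee i) i) + zhP d a (x i) (y i))) := by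
        simp only [hv]
        ring
      rw [h7, h3]
      exact mul_nonneg hc0 (by linarith)
    show H (y - ee i) - H (zhRefl x i (y - ee i)) - v (y - ee i) ≤
      -(H y - H (zhRefl x i y) - v y)
    rw [h1, h2]
    linarith
  have hle : ∀ z : V d, z ∈ box x (r + 1) → x i + 1 ≤ z i → φ z ≤ ψ z := by
    intro z hz hzi
    by_cases hzD : z ∈ D
    · simp only [hψ, if_pos hzD]
      exact le_max_left _ _
    · exact (hface z hz hzi hzD).trans (hψ0 z)
  have key := max_prin (G := Set.univ) D (fun z _ => zh_inf hd z) ψ (b := 0) ?_ ?_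
  · have hx : x + ee i ∈ D := by
      refine Finset.mem_filter.2 ⟨?_, by simp⟩
      rw [mem_box_nd, nd_add_ee]
      exact hr
    have h1 := key _ hx
    have h2 : φ (x + ee i) ≤ 0 := by
      simp only [hψ, if_pos hx] at h1
      exact (le_max_left _ _).trans h1
    have h3 : zhRefl x i (x + ee i) = x := by
      funext k
      by_cases hk : k = i
      · subst hk
        simp only [zhRefl_self, Pi.add_apply, ee_self]
        omega
      · simp only [zhRefl_ne x hk, Pi.add_apply, ee_ne hk]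
        ring
    have h4 : zhQ x i (x + ee i) = 0 := by
      refine Finset.sum_eq_zero fun j hj => ?_
      simp [ee_ne (Finset.mem_erase.1 hj).1]
    have h5 : v (x + ee i) = d * M / a := by
      simp only [hv, h4, zhP, Pi.add_apply, ee_self, hc]
      push_cast
      field_simp
      ring
    have h6 : H (x + ee i) - H (zhRefl x i (x + ee i)) - v (x + ee i) ≤ 0 := h2
    rw [h3, h5] at h6
    have h7 : d * M / a ≤ d * M / r :=
      div_le_div_of_nonneg_left (by positivity) (by linarith) (by rw [ha]; linarith)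
    unfold dif
    linarith
  · intro y hy
    obtain ⟨hy1, hy2⟩ := Finset.mem_filter.1 hy
    by_cases hpos : φ y ≤ 0
    · have h1 : ψ y = 0 := by simp only [hψ, if_pos hy, max_eq_right hpos]
      rw [lapG_univ]
      refine Finset.sum_nonneg fun j _ => ?_
      have h2 := hψ0 (y + ee j)
      have h3 := hψ0 (y - ee j)
      rw [h1]
      linarith
    · push Not at hpos
      have h1 : ψ y = φ y := by simp only [hψ, if_pos hy, max_eq_left hpos.le]
      rw [← hlapφ y hy, lapG_univ, lapG_univ]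
      refine Finset.sum_le_sum fun j _ => ?_
      have hy4 := mem_box_nd.1 hy1
      have h2 : φ (y + ee j) ≤ ψ (y + ee j) := by
        refine hle _ ?_ ?_
        · rw [mem_box_nd]
          have := nd_triangle x y (y + ee j)
          rw [nd_add_ee] at this
          omega
        · simp only [Pi.add_apply, ee_apply]
          split_ifs <;> omega
      have h3 : φ (y - ee j) ≤ ψ (y - ee j) := by
        by_cases hb : x i + 1 ≤ (y - ee j) i
        · refine hle _ ?_ hb
          rw [mem_box_nd]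
          have := nd_triangle x y (y - ee j)
          rw [nd_sub_ee] at this
          omega
        · have hji : i = j := by
            by_contra hne
            apply hb
            simp only [Pi.sub_apply, ee_ne hne]
            omega
          subst hji
          have h4 : y i = x i + 1 := by
            simp only [Pi.sub_apply, ee_self] at hb
            omega
          have h5 := hbot y h4
          have h6 := hψ0 (y - ee i)
          linarith
      rw [h1]
      linarith
  · intro y _ z _ hz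
    simp only [hψ, if_neg hz]
    exact le_rfl

/-- Gradient estimate. -/
theorem grad_est (d : ℕ) : ∃ Cg : ℝ, 1 ≤ Cg ∧ ∀ (H : V d → ℝ) (x : V d) (r : ℕ) (M : ℝ), 1 ≤ r →
    Harm Set.univ x r H → (∀ y ∈ box x (r + 1), |H y| ≤ M) → ∀ i, |dif i H x| ≤ Cg * M / r := by
  refine ⟨(d : ℝ) + 1, by linarith [Nat.cast_nonneg (α := ℝ) d], ?_⟩
  intro H x r M hr hH hM i
  have hM0 : 0 ≤ M := (abs_nonneg _).trans (hM x (mem_box_self x _))
  have h1 := zh_grad_le hr hH hM i
  have h2 := zh_grad_le (H := fun y => - H y) (M := M) hr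
    (fun y hy => by rw [lapG_neg, hH y hy, neg_zero])
    (fun y hy => by rw [abs_neg]; exact hM y hy) i
  have h3 : dif i (fun y => - H y) x = - dif i H x := by
    unfold dif
    ring
  have h4 : (d : ℝ) * M / r ≤ ((d : ℝ) + 1) * M / r :=
    div_le_div_of_nonneg_right (by linarith) (Nat.cast_nonneg r)
  rw [h3] at h2
  rw [abs_le]
  constructor <;> linarith

lemma zh_difs_aux {Cg : ℝ}
    (hg : ∀ (H : V d → ℝ) (x : V d) (r : ℕ) (M : ℝ), 1 ≤ r →
      Harm Set.univ x r H → (∀ y ∈ box x (r + 1), |H y| ≤ M) → ∀ i, |dif i H x| ≤ Cg * M / r)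
    {H : V d → ℝ} {x : V d} {ρ : ℕ} (hρ : 1 ≤ ρ) {M : ℝ} (l : List (Fin d)) :
    ∀ R : ℕ, Harm Set.univ x (R + l.length * (ρ + 1)) H →
      (∀ y ∈ box x (R + l.length * (ρ + 1)), |H y| ≤ M) →
      Harm Set.univ x R (difs l H) ∧
        ∀ y ∈ box x R, |difs l H y| ≤ (Cg / ρ) ^ l.length * M := by
  induction l with
  | nil =>
    intro R h1 h2
    simp only [List.length_nil, zero_mul, add_zero] at h1 h2
    exact ⟨h1, fun y hy => by simpa [difs] using h2 y hy⟩
  | cons i l ih =>
    intro R h1 h2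
    have he : R + (i :: l).length * (ρ + 1) = (R + (ρ + 1)) + l.length * (ρ + 1) := by
      rw [List.length_cons]
      ring
    rw [he] at h1 h2
    obtain ⟨h3, h4⟩ := ih (R + (ρ + 1)) h1 h2
    constructor
    · intro y hy
      have hy' := mem_box_nd.1 hy
      show lapG Set.univ (dif i (difs l H)) y = 0
      rw [lapG_univ_dif_comm]
      unfold dif
      rw [h3 y (mem_box_nd.2 (by omega)), h3 (y + ee i), sub_zero]
      rw [mem_box_nd]
      have := nd_triangle x y (y + ee i)
      rw [nd_add_ee] at this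
      omega
    · intro y hy
      have hy' := mem_box_nd.1 hy
      have h5 := hg (difs l H) y ρ _ hρ (h3.mono (box_subset (by omega)))
        (fun z hz => h4 z (box_subset (x := y) (r := ρ + 1) (by omega) hz)) i
      show |dif i (difs l H) y| ≤ _
      refine h5.trans (le_of_eq ?_)
      rw [List.length_cons, pow_succ]
      ring

/-- Estimates for higher differences. -/
theorem difs_est (d k : ℕ) : ∃ (Ck : ℝ) (s0 : ℕ), 1 ≤ Ck ∧
    ∀ (H : V d → ℝ) (x : V d) (s : ℕ) (M : ℝ), s0 ≤ s → Harm Set.univ x s H →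
    (∀ y ∈ box x s, |H y| ≤ M) → ∀ l : List (Fin d), l.length ≤ k →
    ∀ y ∈ box x (s / 2 + k), |difs l H y| ≤ Ck * M / (s : ℝ) ^ l.length := by
  obtain ⟨Cg, hCg, hg⟩ := grad_est d
  have hk0 : (0 : ℝ) ≤ k := Nat.cast_nonneg k
  have hB : 1 ≤ 8 * ((k : ℝ) + 1) * Cg := by nlinarith
  refine ⟨(8 * ((k : ℝ) + 1) * Cg) ^ k, 8 * (k + 1), one_le_pow₀ hB, ?_⟩
  intro H x s M hs hH hM l hl y hy
  have hM0 : 0 ≤ M := (abs_nonneg _).trans (hM x (mem_box_self x _))
  set ρ : ℕ := s / (4 * (k + 1)) with hρ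
  have h1 : 4 * (k + 1) * ρ ≤ s := Nat.mul_div_le s _
  have h2 : s < 4 * (k + 1) * (ρ + 1) := Nat.lt_mul_div_succ s (by omega)
  have hρ1 : 1 ≤ ρ := by
    refine Nat.pos_of_ne_zero fun h => ?_
    rw [h] at h2
    omega
  have h3 : s / 2 + k + l.length * (ρ + 1) ≤ s := by
    have h4 : l.length * (ρ + 1) ≤ k * (ρ + 1) := Nat.mul_le_mul_right _ hl
    have h5 : k * (ρ + 1) = k * ρ + k := by ring
    have h6 : 4 * (k + 1) * ρ = 4 * (k * ρ) + 4 * ρ := by ring
    omega
  have h7 := (zh_difs_aux hg hρ1 l (s / 2 + k) (hH.mono (box_mono x h3))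
    (fun z hz => hM z (box_mono x h3 hz))).2 y hy
  refine h7.trans ?_
  have hs0 : (0 : ℝ) < s := by
    have : 0 < s := by omega
    exact_mod_cast this
  have hρ0 : (1 : ℝ) ≤ ρ := by exact_mod_cast hρ1
  have h8 : (s : ℝ) ≤ 8 * ((k : ℝ) + 1) * ρ := by
    have h9 : (s : ℝ) ≤ 4 * ((k : ℝ) + 1) * (ρ + 1) := by exact_mod_cast h2.le
    nlinarith
  have h10 : Cg / ρ ≤ 8 * ((k : ℝ) + 1) * Cg / s := by
    rw [div_le_div_iff₀ (by linarith) hs0]
    nlinarith
  have h11 : (Cg / ρ) ^ l.length ≤ (8 * ((k : ℝ) + 1) * Cg) ^ k / (s : ℝ) ^ l.length := by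
    refine (pow_le_pow_left₀ (by positivity) h10 _).trans ?_
    rw [div_pow]
    exact div_le_div_of_nonneg_right (pow_le_pow_right₀ hB hl) (by positivity)
  calc (Cg / ρ) ^ l.length * M
      ≤ (8 * ((k : ℝ) + 1) * Cg) ^ k / (s : ℝ) ^ l.length * M :=
        mul_le_mul_of_nonneg_right h11 hM0
    _ = _ := by ring

/-- Local boundedness. -/
theorem sup_le_l2 (d : ℕ) : ∃ Cb : ℝ, 1 ≤ Cb ∧ ∀ (H : V d → ℝ) (x : V d) (r : ℕ),
    Harm Set.univ x (2 * r) H → ∀ y ∈ box x r, |H y| ≤ Cb * nrm Set.univ x (2 * r) H := by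
  obtain ⟨Cg, hCg, hg⟩ := grad_est d
  obtain ⟨N, hN⟩ := exists_nat_ge (2 * (d : ℝ) * Cg * 2 ^ d + 1)
  have hN0 : (0 : ℝ) ≤ 2 * (d : ℝ) * Cg * 2 ^ d := by positivity
  have hN1' : (1 : ℝ) ≤ N := by linarith
  have hN1 : 1 ≤ N := by exact_mod_cast hN1'
  have hB : (1 : ℝ) ≤ (32 * (N : ℝ)) ^ d := one_le_pow₀ (by linarith)
  refine ⟨2 * (32 * (N : ℝ)) ^ d, by linarith, ?_⟩
  intro H x r hH y hy
  obtain ⟨y0, hy0, hmax⟩ := Finset.exists_max_image (box x (2 * r))
    (fun z => (((2 * r + 1 - nd x z : ℕ) : ℝ)) ^ d * H z ^ 2) ⟨x, mem_box_self x _⟩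
  have hy0' := mem_box_nd.1 hy0
  set ρ : ℕ := 2 * r + 1 - nd x y0 with hρ
  have hρ1 : 1 ≤ ρ := by omega
  have hρ0 : (0 : ℝ) < ρ := by exact_mod_cast hρ1
  have hsub : box y0 (ρ / 2) ⊆ box x (2 * r) := box_subset (by omega)
  -- doubling bound
  have hdbl : ∀ z ∈ box y0 (ρ / 2), |H z| ≤ 2 ^ d * |H y0| := by
    intro z hz
    have h1 := hmax z (hsub hz)
    have h2 : ρ ≤ 2 * (2 * r + 1 - nd x z) := by
      have h3 := mem_box_nd.1 hz
      have h4 := nd_triangle x y0 z
      omega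
    have h5 : (ρ : ℝ) ≤ 2 * ((2 * r + 1 - nd x z : ℕ) : ℝ) := by exact_mod_cast h2
    have h6 : (ρ : ℝ) ^ d ≤ 2 ^ d * ((2 * r + 1 - nd x z : ℕ) : ℝ) ^ d := by
      rw [← mul_pow]
      exact pow_le_pow_left₀ hρ0.le h5 d
    have h7 : (ρ : ℝ) ^ d * H z ^ 2 ≤ (ρ : ℝ) ^ d * (2 ^ d * H y0 ^ 2) := by
      calc (ρ : ℝ) ^ d * H z ^ 2
          ≤ 2 ^ d * ((2 * r + 1 - nd x z : ℕ) : ℝ) ^ d * H z ^ 2 :=
            mul_le_mul_of_nonneg_right h6 (sq_nonneg _)
        _ = 2 ^ d * (((2 * r + 1 - nd x z : ℕ) : ℝ) ^ d * H z ^ 2) := by ring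
        _ ≤ 2 ^ d * ((ρ : ℝ) ^ d * H y0 ^ 2) :=
            mul_le_mul_of_nonneg_left h1 (by positivity)
        _ = _ := by ring
    have h8 : H z ^ 2 ≤ 2 ^ d * H y0 ^ 2 := le_of_mul_le_mul_left h7 (by positivity)
    have h9 : (1 : ℝ) ≤ 2 ^ d := one_le_pow₀ (by norm_num)
    refine abs_le_of_sq_le_sq' ?_ (by positivity) |> abs_le.2
    rw [mul_pow, sq_abs]
    refine h8.trans (mul_le_mul_of_nonneg_right ?_ (sq_nonneg _))
    nlinarith
  set σ : ℕ := ρ / (8 * N) with hσ
  have h1 : 8 * N * σ ≤ ρ := Nat.mul_div_le ρ _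
  have h2 : ρ < 8 * N * (σ + 1) := Nat.lt_mul_div_succ ρ (by omega)
  have hσN : σ ≤ N * σ := Nat.le_mul_of_pos_left σ hN1
  have h1' : 8 * (N * σ) ≤ ρ := by rw [← mul_assoc]; exact h1
  have hlow : ∀ z ∈ box y0 σ, H y0 ^ 2 / 4 ≤ H z ^ 2 := by
    intro z hz
    have h3 : |H z - H y0| ≤ |H y0| / 2 := by
      by_cases hσ0 : σ = 0
      · have : z = y0 := by
          funext k
          have h4 := mem_box.1 hz k
          rw [hσ0] at h4
          have h5 := abs_le.1 h4
          push_cast at h5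
          omega
        rw [this, sub_self, abs_zero]
        positivity
      · have hσ1 : 1 ≤ σ := Nat.pos_of_ne_zero hσ0
        have hσ1' : (1 : ℝ) ≤ σ := by exact_mod_cast hσ1
        have h4 := abs_sub_le_of_dif (f := H) (x := y0) (r := σ)
          (M := Cg * (2 ^ d * |H y0|) / ((N * σ : ℕ) : ℝ)) (fun i w hw _ => by
            have hw' := mem_box_nd.1 hw
            have h5 : box w (N * σ + 1) ⊆ box y0 (ρ / 2) := box_subset (by omega)
            refine hg H w (N * σ) _ (by omega) (hH.mono ?_) (fun u hu => hdbl u (h5 hu)) i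
            exact (box_mono w (Nat.le_succ _)).trans (h5.trans hsub)) z hz
        refine h4.trans ?_
        have h6 : (d : ℝ) * σ * (Cg * (2 ^ d * |H y0|) / ((N * σ : ℕ) : ℝ)) =
            (d * Cg * 2 ^ d / N) * |H y0| := by
          push_cast
          field_simp
        rw [h6]
        have h7 : (d : ℝ) * Cg * 2 ^ d / N ≤ 1 / 2 := by
          rw [div_le_iff₀ (by linarith)]
          linarith
        have := abs_nonneg (H y0)
        nlinarith
    have h8 : |H y0| / 2 ≤ |H z| := by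
      have := abs_sub_abs_le_abs_sub (H y0) (H z)
      rw [abs_sub_comm] at this
      linarith
    have h9 := pow_le_pow_left₀ (by positivity) h8 2
    rw [div_pow, sq_abs, sq_abs] at h9
    linarith
  have hsum : vol d σ * (H y0 ^ 2 / 4) ≤ ∑ z ∈ box x (2 * r), H z ^ 2 := by
    calc vol d σ * (H y0 ^ 2 / 4) = ∑ _z ∈ box y0 σ, H y0 ^ 2 / 4 := by
          rw [Finset.sum_const, nsmul_eq_mul, card_box_vol]
      _ ≤ ∑ z ∈ box y0 σ, H z ^ 2 := Finset.sum_le_sum hlow
      _ ≤ _ := Finset.sum_le_sum_of_subset_of_nonneg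
          ((box_mono y0 (by omega)).trans hsub) fun _ _ _ => sq_nonneg _
  have hS : ∑ z ∈ box x (2 * r), H z ^ 2 = vol d (2 * r) * nrm Set.univ x (2 * r) H ^ 2 := by
    rw [← l2_sq, ← cap_univ (box x (2 * r)), l2_eq_nrm, mul_pow,
      Real.sq_sqrt (vol_pos d _).le]
  have hρv : (ρ : ℝ) ^ d ≤ (8 * (N : ℝ)) ^ d * vol d σ := by
    unfold vol
    rw [← mul_pow]
    refine pow_le_pow_left₀ hρ0.le ?_ d
    have h3 : (ρ : ℝ) ≤ 8 * N * (σ + 1) := by exact_mod_cast h2.le
    have h4 : (0 : ℝ) ≤ σ := Nat.cast_nonneg σ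
    nlinarith
  have hy' := mem_box_nd.1 hy
  have hvol : vol d (2 * r) ≤ 4 ^ d * ((2 * r + 1 - nd x y : ℕ) : ℝ) ^ d := by
    unfold vol
    rw [← mul_pow]
    refine pow_le_pow_left₀ (by positivity) ?_ d
    have h3 : 2 * (2 * r) + 1 ≤ 4 * (2 * r + 1 - nd x y) := by omega
    exact_mod_cast h3
  have h3 := hmax y (box_mono x (by omega) hy)
  have hfin : vol d (2 * r) * H y ^ 2 ≤
      vol d (2 * r) * (4 * (32 * (N : ℝ)) ^ d * nrm Set.univ x (2 * r) H ^ 2) := by
    calc vol d (2 * r) * H y ^ 2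
        ≤ 4 ^ d * ((2 * r + 1 - nd x y : ℕ) : ℝ) ^ d * H y ^ 2 :=
          mul_le_mul_of_nonneg_right hvol (sq_nonneg _)
      _ = 4 ^ d * (((2 * r + 1 - nd x y : ℕ) : ℝ) ^ d * H y ^ 2) := by ring
      _ ≤ 4 ^ d * ((ρ : ℝ) ^ d * H y0 ^ 2) := mul_le_mul_of_nonneg_left h3 (by positivity)
      _ ≤ 4 ^ d * ((8 * (N : ℝ)) ^ d * vol d σ * H y0 ^ 2) :=
          mul_le_mul_of_nonneg_left (mul_le_mul_of_nonneg_right hρv (sq_nonneg _))
            (by positivity)
      _ = 4 * (4 ^ d * (8 * (N : ℝ)) ^ d) * (vol d σ * (H y0 ^ 2 / 4)) := by ring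
      _ ≤ 4 * (4 ^ d * (8 * (N : ℝ)) ^ d) * ∑ z ∈ box x (2 * r), H z ^ 2 :=
          mul_le_mul_of_nonneg_left hsum (by positivity)
      _ = _ := by
          rw [hS, ← mul_pow, show (4 : ℝ) * (8 * (N : ℝ)) = 32 * N by ring]
          ring
  have h4 : H y ^ 2 ≤ 4 * (32 * (N : ℝ)) ^ d * nrm Set.univ x (2 * r) H ^ 2 :=
    le_of_mul_le_mul_left hfin (vol_pos d _)
  have h5 := nrm_nonneg (Set.univ : Set (V d)) x (2 * r) H
  refine abs_le_of_sq_le_sq' ?_ (by positivity) |> abs_le.2
  refine h4.trans ?_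
  rw [mul_pow (2 * (32 * (N : ℝ)) ^ d)]
  refine mul_le_mul_of_nonneg_right ?_ (sq_nonneg _)
  nlinarith

end Pool.Agent.P.MP_b4265e_pr.R
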