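import Pool.Agent.P.MP_b4265e_pr.R.TwoScale
import Pool.Agent.P.MP_b4265e_pr.R.ZHarm

/-!
Auxiliary identities for the approximation of graph harmonic functions.
-/

namespace Pool.Agent.P.MP_b4265e_pr.R

open Finset
open scoped Classical

variable {d : ℕ}

lemma apG_lap_iter (l k : ℕ) (f : V d → ℝ) :
    lapG Set.univ ((Av l)^[k] f) = (Av l)^[k] (lapG Set.univ f) := by
  induction k with
  | zero => rfl
  | succ k ih => rw [Function.iterate_succ_apply', Function.iterate_succ_apply', lapG_univ_Av, ih]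

lemma apG_l2_iter_le (l k : ℕ) (f : V d → ℝ) (x : V d) (r : ℕ) :
    l2 (box x r) ((Av l)^[k] f) ≤ l2 (box x (r + k * l)) f := by
  induction k generalizing r with
  | zero => simp
  | succ k ih =>
    rw [Function.iterate_succ_apply']
    refine (l2_Av_le l r _ x).trans ((ih (r + l)).trans (le_of_eq ?_))
    congr 2
    ring

lemma apG_l2_sub_iter (l k : ℕ) (f : V d → ℝ) (x : V d) (r : ℕ) :
    l2 (box x r) (fun y => f y - (Av l)^[k] f y) ≤
      k * (l * ∑ i, l2 (box x (r + k * l)) (dif i f)) := by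
  induction k generalizing r with
  | zero =>
    simp only [Function.iterate_zero, id_eq, sub_self, Nat.cast_zero, zero_mul]
    rw [l2_const]; simp
  | succ k ih =>
    have e1 : (fun y => f y - (Av l)^[k + 1] f y) =
        fun y => (f y - Av l f y) + Av l (fun z => f z - (Av l)^[k] f z) y := by
      funext y
      rw [Function.iterate_succ_apply', Av_sub]
      ring
    rw [e1]
    have h1 := l2_sub_Av_le l r f x
    have h2 := (l2_Av_le l r (fun z => f z - (Av l)^[k] f z) x).trans (ih (r + l))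
    have e2 : r + l + k * l = r + (k + 1) * l := by ring
    rw [e2] at h2
    have h3 : ∑ i, l2 (box x (r + l)) (dif i f) ≤ ∑ i, l2 (box x (r + (k + 1) * l)) (dif i f) :=
      sum_le_sum fun i _ => l2_mono (box_mono x (by nlinarith)) _
    have h4 : (l : ℝ) * ∑ i, l2 (box x (r + l)) (dif i f) ≤
        l * ∑ i, l2 (box x (r + (k + 1) * l)) (dif i f) :=
      mul_le_mul_of_nonneg_left h3 (Nat.cast_nonneg _)
    refine (l2_add_le _ _ _).trans ?_
    push_cast
    linarith

lemma apG_dif_supp {ψ : V d → ℝ} {x : V d} {a : ℕ} (h : ∀ z, z ∉ box x a → ψ z = 0) (i : Fin d)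
    (z : V d) (hz : z ∉ box x (a + 1)) : dif i ψ z = 0 := by
  have h1 : z ∉ box x a := fun h' => hz (box_mono x (by omega) h')
  have h2 : z + ee i ∉ box x a := by
    intro h'
    apply hz
    rw [mem_box_nd] at h' ⊢
    have := nd_triangle x (z + ee i) z
    have h3 : nd (z + ee i) z = 1 := by rw [nd_comm]; exact nd_add_ee z i
    omega
  simp [dif, h z h1, h _ h2]

lemma apG_univ_sub : (Set.univ : Set (E d)) ⊆ ins (Set.univ : Set (V d)) := by
  intro e _
  exact ⟨trivial, trivial⟩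

/-- Weak form of the lattice Laplacian. -/
lemma apG_lap_weak {ψ : V d → ℝ} {x : V d} {a : ℕ} (h : ∀ z, z ∉ box x a → ψ z = 0)
    (F : V d → ℝ) :
    ∑ z ∈ box x a, ψ z * lapG Set.univ F z =
      - ∑ i, ∑ z ∈ box x (a + 2), dif i F z * dif i ψ z := by
  rw [sbp_box (C := Set.univ) apG_univ_sub ψ F (R := a + 2) (by omega) (fun y _ hy => h y hy),
    sum_boxE, sum_comm]
  congr 1
  refine sum_congr rfl fun i _ => sum_congr rfl fun z _ => ?_
  rw [wt_univ, grad_eq_dif, grad_eq_dif]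
  ring

/-- Testing the equation with the corrected test function. -/
lemma apG_test {G : Set (E d)} {C : Set (V d)} (hG : G ⊆ ins C) (φ : Fin d → V d → ℝ)
    {ψ h : V d → ℝ} {x : V d} {a : ℕ} (hψ : ∀ z, z ∉ box x a → ψ z = 0)
    (H : Harm G x (a + 1) h) :
    ∑ i, ∑ e ∈ boxE x (a + 2), flx G (φ i) i e * grad h e * dif i ψ e.1 =
      - ∑ e ∈ boxE x (a + 2), wt G e *
        ((∑ i, φ i (e.1 + ee e.2) * dif e.2 (dif i ψ) e.1) * grad h e) := by
  set w : V d → ℝ := fun z => ψ z + ∑ i, dif i ψ z * φ i z with hw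
  have hw0 : ∀ y ∈ C, y ∉ box x (a + 1) → w y = 0 := by
    intro y _ hy
    have h1 : ψ y = 0 := hψ y fun h' => hy (box_mono x (by omega) h')
    simp only [hw, h1, zero_add]
    exact sum_eq_zero fun i _ => by rw [apG_dif_supp hψ i y hy, zero_mul]
  have h1 := sbp_box hG w h (x := x) (r := a + 1) (R := a + 2) (by omega) hw0
  have h2 : ∑ y ∈ box x (a + 1), w y * lapG G h y = 0 :=
    sum_eq_zero fun y hy => by rw [H y hy, mul_zero]
  rw [h2] at h1
  have h3 : ∑ e ∈ boxE x (a + 2), wt G e * (grad w e * grad h e) = 0 := by linarith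
  rw [sum_comm, eq_neg_iff_add_eq_zero, ← sum_add_distrib, ← h3]
  refine sum_congr rfl fun e _ => ?_
  obtain ⟨z, j⟩ := e
  have e1 : grad w (z, j) = dif j ψ z +
      ∑ i, (dif i ψ z * dif j (φ i) z + φ i (z + ee j) * dif j (dif i ψ) z) := by
    have : ∀ i, dif i ψ z * dif j (φ i) z + φ i (z + ee j) * dif j (dif i ψ) z =
        dif i ψ (z + ee j) * φ i (z + ee j) - dif i ψ z * φ i z := by
      intro i
      rw [← dif_mul j (dif i ψ) (φ i) z]
      rfl
    simp only [this, sum_sub_distrib]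
    simp only [grad, hw]
    rw [dif]
    ring
  have e2 : ∑ i, flx G (φ i) i (z, j) * grad h (z, j) * dif i ψ z =
      wt G (z, j) * grad h (z, j) * (dif j ψ z + ∑ i, dif i ψ z * dif j (φ i) z) := by
    have : ∀ i, flx G (φ i) i (z, j) * grad h (z, j) * dif i ψ z =
        wt G (z, j) * grad h (z, j) *
          ((if j = i then dif i ψ z else 0) + dif i ψ z * dif j (φ i) z) := by
      intro i
      simp only [flx, grad_eq_dif]
      split_ifs <;> ring
    simp only [this]
    rw [← mul_sum, sum_add_distrib, sum_ite_eq]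
    simp
  simp only at e2 ⊢
  rw [e2, e1, sum_add_distrib]
  ring

lemma apG_rem {G : Set (E d)} {R : E d → ℝ} {M : ℝ} (hM : 0 ≤ M) (hR : ∀ e, |R e| ≤ M)
    (h : V d → ℝ) (x : V d) (r : ℕ) :
    |∑ e ∈ boxE x r, wt G e * (R e * grad h e)| ≤ √(d * vol d r) * M * en G x r h := by
  rw [← sum_cap_eq_wt]
  refine (abs_sum_mul_le _ _ _).trans ?_
  have h1 : l2 (cap G (boxE x r)) R ≤ √(d * vol d r) * M := by
    refine (l2_mono (cap_subset G _) R).trans ?_
    have := l2_le_sup (S := boxE x r) hM (fun e _ => hR e)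
    rwa [card_boxE_vol] at this
  exact mul_le_mul_of_nonneg_right h1 (en_nonneg G x r h)

/-- The Laplacian of the smoothed function at one point. -/
lemma apG_lap_bound {Ct σ η B lam M : ℝ} {G : Set (E d)} {C : Set (V d)}
    {φ : Fin d → V d → ℝ} {x : V d} {s m a : ℕ} (hG : G ⊆ ins C) (hB : ∀ i y, |φ i y| ≤ B)
    (hB0 : 0 ≤ B) (hM : 0 ≤ M) (hlam : 0 < lam) (ha : a + 2 ≤ 2 * s)
    {ψ h : V d → ℝ} (hψ : ∀ z, z ∉ box x a → ψ z = 0) (H : Harm G x (a + 1) h)
    (h2 : ∀ i j z, |dif j (dif i ψ) z| ≤ M / lam)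
    (hts : ∀ i, |∑ e ∈ boxE x (a + 2), flx G (φ i) i e * grad h e * dif i ψ e.1 -
        σ * ∑ y ∈ box x (a + 2), dif i (sm C m h) y * dif i ψ y| ≤
        Ct * η * (s / lam) * M * √(vol d (2 * s)) *
          (en G x (a + 2 + 20 * m) h + l2 (cap C (box x (a + 2 + 20 * m))) h / lam)) :
    |σ * ∑ z ∈ box x a, ψ z * lapG Set.univ (sm C m h) z| ≤
      d * (Ct * η * (s / lam) * M * √(vol d (2 * s)) *
          (en G x (a + 2 + 20 * m) h + l2 (cap C (box x (a + 2 + 20 * m))) h / lam)) +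
      √d * √(vol d (2 * s)) * (d * (B * (M / lam))) * en G x (a + 2 + 20 * m) h := by
  rw [apG_lap_weak hψ]
  have t1 := apG_test hG φ hψ H
  have hMl : 0 ≤ M / lam := by positivity
  have t2 := apG_rem (G := G) (R := fun e : E d => ∑ i, φ i (e.1 + ee e.2) * dif e.2 (dif i ψ) e.1)
    (M := d * (B * (M / lam))) (by positivity) (fun e => by
      refine (abs_sum_le_sum_abs _ _).trans ?_
      have : ∀ i ∈ (univ : Finset (Fin d)), |φ i (e.1 + ee e.2) * dif e.2 (dif i ψ) e.1| ≤
          B * (M / lam) := fun i _ => by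
        rw [abs_mul]
        exact mul_le_mul (hB _ _) (h2 _ _ _) (abs_nonneg _) hB0
      refine (sum_le_card_nsmul _ _ _ this).trans ?_
      simp) h x (a + 2)
  have t3 : √(d * vol d (a + 2)) ≤ √d * √(vol d (2 * s)) := by
    rw [← Real.sqrt_mul (Nat.cast_nonneg _)]
    exact Real.sqrt_le_sqrt (mul_le_mul_of_nonneg_left (vol_mono d ha) (Nat.cast_nonneg _))
  have t4 : en G x (a + 2) h ≤ en G x (a + 2 + 20 * m) h :=
    en_mono G (by rw [nd_self]; omega) h
  have t5 : √(d * vol d (a + 2)) * (d * (B * (M / lam))) * en G x (a + 2) h ≤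
      √d * √(vol d (2 * s)) * (d * (B * (M / lam))) * en G x (a + 2 + 20 * m) h :=
    mul_le_mul (mul_le_mul_of_nonneg_right t3 (by positivity)) t4 (en_nonneg _ _ _ _)
      (by positivity)
  have t6 : |∑ i, (∑ e ∈ boxE x (a + 2), flx G (φ i) i e * grad h e * dif i ψ e.1 -
        σ * ∑ y ∈ box x (a + 2), dif i (sm C m h) y * dif i ψ y)| ≤
      d * (Ct * η * (s / lam) * M * √(vol d (2 * s)) *
          (en G x (a + 2 + 20 * m) h + l2 (cap C (box x (a + 2 + 20 * m))) h / lam)) := by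
    refine (abs_sum_le_sum_abs _ _).trans ?_
    refine (sum_le_card_nsmul _ _ _ fun i _ => hts i).trans ?_
    simp
  rw [sum_sub_distrib, t1, ← mul_sum] at t6
  have t7 := t2.trans t5
  rw [abs_le] at t6 t7 ⊢
  constructor <;> linarith [t6.1, t6.2, t7.1, t7.2]

end Pool.Agent.P.MP_b4265e_pr.R
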