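import Pool.Agent.P.MP_b4265e_pr.R.Chg

/-!
Differences, box averages and the smoothing operator.
-/

namespace Pool.Agent.P.MP_b4265e_pr.R

open Finset
open scoped Classical

variable {d : ℕ}

lemma grad_eq_dif (u : V d → ℝ) (y : V d) (i : Fin d) : grad u (y, i) = dif i u y := rfl
lemma dif_comm (i j : Fin d) (f : V d → ℝ) : dif i (dif j f) = dif j (dif i f) := by
  funext y
  simp only [dif, add_right_comm y (ee i) (ee j)]
  ring
lemma dif_mul (i : Fin d) (f g : V d → ℝ) (y : V d) :
    dif i (fun z => f z * g z) y = f y * dif i g y + g (y + ee i) * dif i f y := by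
  simp only [dif]
  ring
lemma lapG_univ_dif (u : V d → ℝ) (y : V d) :
    lapG Set.univ u y = ∑ i, dif i (dif i u) (y - ee i) := by
  refine sum_congr rfl fun i _ => ?_
  simp only [wt, Set.mem_univ, if_true, grad, dif, sub_add_cancel, one_mul]
lemma lapG_univ_dif_comm (i : Fin d) (u : V d → ℝ) (y : V d) :
    lapG Set.univ (dif i u) y = dif i (lapG Set.univ u) y := by
  have h : dif i (lapG Set.univ u) y = lapG Set.univ u (y + ee i) - lapG Set.univ u y := rfl
  rw [h, lapG_univ_dif, lapG_univ_dif, lapG_univ_dif, ← sum_sub_distrib]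
  refine sum_congr rfl fun j _ => ?_
  rw [dif_comm j i u, dif_comm j i (dif j u), add_sub_right_comm]
  rfl

/-- Induction along monotone lattice paths from the origin. -/
lemma path_induction {P : V d → Prop} (h0 : P 0)
    (hp : ∀ w i, 0 ≤ w i → P w → P (w + ee i)) (hm : ∀ w i, w i ≤ 0 → P w → P (w - ee i))
    (w : V d) : P w := by
  generalize hn : ∑ j, (w j).natAbs = n
  induction n generalizing w with
  | zero =>
    have : w = 0 := funext fun j =>
      Int.natAbs_eq_zero.1 (sum_eq_zero_iff.1 hn j (mem_univ j))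
    exact this ▸ h0
  | succ n ih =>
    obtain ⟨i, -, hi⟩ : ∃ i ∈ (univ : Finset (Fin d)), (w i).natAbs ≠ 0 :=
      exists_ne_zero_of_sum_ne_zero (by omega)
    have key : ∀ w' : V d, (∀ j, j ≠ i → w' j = w j) → (w' i).natAbs + 1 = (w i).natAbs →
        ∑ j, (w' j).natAbs = n := by
      intro w' h1 h2
      rw [← add_sum_erase _ _ (mem_univ i)] at hn ⊢
      have : ∑ j ∈ univ.erase i, (w' j).natAbs = ∑ j ∈ univ.erase i, (w j).natAbs :=
        sum_congr rfl fun j hj => by rw [h1 j (ne_of_mem_erase hj)]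
      omega
    rcases le_or_gt 0 (w i) with h | h
    · have h1 := hp (w - ee i) i (by simp only [Pi.sub_apply, ee_self]; omega)
        (ih _ (key _ (fun j hj => by simp [ee_ne hj])
          (by simp only [Pi.sub_apply, ee_self]; omega)))
      rwa [sub_add_cancel] at h1
    · have h1 := hm (w + ee i) i (by simp only [Pi.add_apply, ee_self]; omega)
        (ih _ (key _ (fun j hj => by simp [ee_ne hj])
          (by simp only [Pi.add_apply, ee_self]; omega)))
      rwa [add_sub_cancel_right] at h1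

lemma mem_box_zero {w : V d} {r : ℕ} : w ∈ box (0 : V d) r ↔ ∀ k, |w k| ≤ r := by
  simp [mem_box]

lemma add_mem_box {x w : V d} {r : ℕ} : x + w ∈ box x r ↔ w ∈ box (0 : V d) r := by
  simp [mem_box]

lemma box_zero_of_add {w : V d} {i : Fin d} {r : ℕ} (hi : 0 ≤ w i)
    (h : w + ee i ∈ box (0 : V d) r) : w ∈ box (0 : V d) r := by
  rw [mem_box_zero] at h ⊢
  intro k
  have h1 := h k
  by_cases hk : k = i
  · subst hk
    rw [Pi.add_apply, ee_self, abs_le] at h1
    rw [abs_le]
    omega
  · simpa [ee_ne hk] using h1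

lemma box_zero_of_sub {w : V d} {i : Fin d} {r : ℕ} (hi : w i ≤ 0)
    (h : w - ee i ∈ box (0 : V d) r) : w ∈ box (0 : V d) r := by
  rw [mem_box_zero] at h ⊢
  intro k
  have h1 := h k
  by_cases hk : k = i
  · subst hk
    rw [Pi.sub_apply, ee_self, abs_le] at h1
    rw [abs_le]
    omega
  · simpa [ee_ne hk] using h1

lemma wsum_step (a : Fin d → ℝ) {w w' : V d} {i : Fin d} (h1 : ∀ j, j ≠ i → w' j = w j)
    (h2 : |w' i| = |w i| + 1) :
    ∑ j, ((|w' j| : ℤ) : ℝ) * a j = ∑ j, ((|w j| : ℤ) : ℝ) * a j + a i := by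
  rw [← add_sum_erase _ _ (mem_univ i), ← add_sum_erase _ _ (mem_univ i), h2]
  have : ∑ j ∈ univ.erase i, ((|w' j| : ℤ) : ℝ) * a j =
      ∑ j ∈ univ.erase i, ((|w j| : ℤ) : ℝ) * a j :=
    sum_congr rfl fun j hj => by rw [h1 j (ne_of_mem_erase hj)]
  rw [this]
  push_cast
  ring

lemma wsum_add (a : Fin d → ℝ) {w : V d} {i : Fin d} (hi : 0 ≤ w i) :
    ∑ j, ((|(w + ee i) j| : ℤ) : ℝ) * a j = ∑ j, ((|w j| : ℤ) : ℝ) * a j + a i :=
  wsum_step a (fun j hj => by simp [ee_ne hj]) (by
    rw [Pi.add_apply, ee_self, abs_of_nonneg hi, abs_of_nonneg (by omega)])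

lemma wsum_sub (a : Fin d → ℝ) {w : V d} {i : Fin d} (hi : w i ≤ 0) :
    ∑ j, ((|(w - ee i) j| : ℤ) : ℝ) * a j = ∑ j, ((|w j| : ℤ) : ℝ) * a j + a i :=
  wsum_step a (fun j hj => by simp [ee_ne hj]) (by
    rw [Pi.sub_apply, ee_self, abs_of_nonpos hi, abs_of_nonpos (by omega)]; ring)

lemma wsum_le {a : Fin d → ℝ} (ha : ∀ j, 0 ≤ a j) {w : V d} {r : ℕ} (hw : w ∈ box (0 : V d) r) :
    ∑ j, ((|w j| : ℤ) : ℝ) * a j ≤ r * ∑ j, a j := by
  rw [mul_sum]
  refine sum_le_sum fun j _ => mul_le_mul_of_nonneg_right ?_ (ha j)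
  exact_mod_cast mem_box_zero.1 hw j

/-- Telescoping along coordinate lines inside a box. -/
lemma abs_sub_le_of_dif {f : V d → ℝ} {x : V d} {r : ℕ} {M : ℝ}
    (h : ∀ i, ∀ y ∈ box x r, y + ee i ∈ box x r → |dif i f y| ≤ M) :
    ∀ y ∈ box x r, |f y - f x| ≤ d * r * M := by
  have key : ∀ w : V d, w ∈ box (0 : V d) r →
      |f (x + w) - f x| ≤ ∑ j, ((|w j| : ℤ) : ℝ) * (fun _ => M) j := by
    refine path_induction (by simp) (fun w i hi ih hw => ?_) (fun w i hi ih hw => ?_)
    · have h1 := box_zero_of_add hi hw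
      have h2 := h i (x + w) (add_mem_box.2 h1) (by rw [add_assoc]; exact add_mem_box.2 hw)
      have h3 := ih h1
      rw [wsum_add _ hi, ← add_assoc]
      rw [dif] at h2
      have h4 := abs_sub_le (f (x + w + ee i)) (f (x + w)) (f x)
      linarith
    · have h1 := box_zero_of_sub hi hw
      have h2 := h i (x + (w - ee i)) (add_mem_box.2 hw)
        (by rw [add_assoc, sub_add_cancel]; exact add_mem_box.2 h1)
      have h3 := ih h1
      rw [wsum_sub _ hi]
      rw [dif, add_assoc, sub_add_cancel, abs_sub_comm] at h2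
      have h4 := abs_sub_le (f (x + (w - ee i))) (f (x + w)) (f x)
      linarith
  intro y hy
  obtain ⟨w, rfl⟩ : ∃ w, y = x + w := ⟨y - x, by abel⟩
  have hw := add_mem_box.1 hy
  by_cases hM : 0 ≤ M
  · refine (key w hw).trans ((wsum_le (fun _ => hM) hw).trans (le_of_eq ?_))
    simp only [sum_const, card_univ, Fintype.card_fin, nsmul_eq_mul]
    ring
  · have h0 : (d : ℝ) * r = 0 := by
      by_contra h0
      have hd : 0 < d := Nat.pos_of_ne_zero fun hd => h0 (by simp [hd])
      have hr : 0 < r := Nat.pos_of_ne_zero fun hr => h0 (by simp [hr])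
      refine hM ((abs_nonneg _).trans (h ⟨0, hd⟩ x (mem_box_self x r) ?_))
      rw [mem_box_nd, nd_add_ee]
      exact hr
    have h1 : w = 0 := by
      funext k
      have h2 := mem_box_zero.1 hw k
      rcases mul_eq_zero.1 h0 with h3 | h3
      · exact absurd k.isLt (by have : d = 0 := by exact_mod_cast h3
                                omega)
      · have h4 : r = 0 := by exact_mod_cast h3
        rw [h4] at h2
        exact abs_nonpos_iff.1 h2
    simp [h0, h1]

lemma Av_add (m : ℕ) (f g : V d → ℝ) (y : V d) :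
    Av m (fun z => f z + g z) y = Av m f y + Av m g y := by
  simp only [Av, sum_add_distrib, add_div]
lemma Av_sub (m : ℕ) (f g : V d → ℝ) (y : V d) :
    Av m (fun z => f z - g z) y = Av m f y - Av m g y := by
  simp only [Av, sum_sub_distrib, sub_div]
lemma Av_mul (m : ℕ) (c : ℝ) (f : V d → ℝ) (y : V d) :
    Av m (fun z => c * f z) y = c * Av m f y := by
  simp only [Av, ← mul_sum, mul_div_assoc]
lemma Av_const (m : ℕ) (c : ℝ) (y : V d) : Av m (fun _ => c) y = c := by
  rw [Av, sum_const, nsmul_eq_mul, card_box_vol, mul_div_cancel_left₀ _ (vol_pos d m).ne']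
lemma Av_sum {ι : Type*} (I : Finset ι) (m : ℕ) (F : ι → V d → ℝ) (y : V d) :
    Av m (fun z => ∑ i ∈ I, F i z) y = ∑ i ∈ I, Av m (F i) y := by
  simp only [Av]
  rw [sum_comm, sum_div]
lemma Av_congr {m : ℕ} {f g : V d → ℝ} {y : V d} (h : ∀ z ∈ box y m, f z = g z) :
    Av m f y = Av m g y := by
  rw [Av, Av, sum_congr rfl h]
lemma Av_shift (m : ℕ) (f : V d → ℝ) (y z : V d) :
    Av m f (y + z) = Av m (fun w => f (w + z)) y := by
  rw [Av, Av, sum_box_shift]
lemma Av_eq_zero {m : ℕ} {f : V d → ℝ} {y : V d} (h : ∀ z ∈ box y m, f z = 0) : Av m f y = 0 :=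
  (Av_congr h).trans (Av_const m 0 y)
lemma Av_supp {m r : ℕ} {f : V d → ℝ} {x : V d} (h : ∀ z, z ∉ box x r → f z = 0) :
    ∀ y, y ∉ box x (r + m) → Av m f y = 0 := by
  intro y hy
  refine Av_eq_zero fun z hz => h z fun hz' => hy ?_
  rw [mem_box_nd] at hz hz' ⊢
  have h1 := nd_triangle x z y
  rw [nd_comm z y] at h1
  omega
lemma dif_Av (i : Fin d) (m : ℕ) (f : V d → ℝ) : dif i (Av m f) = Av m (dif i f) := by
  funext y
  rw [dif, Av_shift, ← Av_sub]
  rfl
lemma lapG_univ_Av (m : ℕ) (f : V d → ℝ) :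
    lapG Set.univ (Av m f) = Av m (lapG Set.univ f) := by
  funext y
  rw [lapG_univ_dif, Av_congr (fun z _ => lapG_univ_dif f z), Av_sum]
  refine sum_congr rfl fun i _ => ?_
  rw [dif_Av, dif_Av, sub_eq_add_neg, Av_shift]
  simp only [sub_eq_add_neg]
lemma Av_mono {m : ℕ} {f g : V d → ℝ} {y : V d} (h : ∀ z ∈ box y m, f z ≤ g z) :
    Av m f y ≤ Av m g y :=
  div_le_div_of_nonneg_right (sum_le_sum h) (vol_pos d m).le
lemma Av_sub_const (m : ℕ) (f : V d → ℝ) (y : V d) (c : ℝ) :
    Av m f y - c = Av m (fun z => f z - c) y := by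
  rw [Av_sub, Av_const]
lemma abs_Av_sub_le {m : ℕ} {f : V d → ℝ} {y : V d} {c M : ℝ}
    (h : ∀ z ∈ box y m, |f z - c| ≤ M) : |Av m f y - c| ≤ M := by
  rw [Av_sub_const, abs_le]
  constructor
  · rw [← Av_const m (-M) y]
    exact Av_mono fun z hz => (abs_le.1 (h z hz)).1
  · conv_rhs => rw [← Av_const m M y]
    exact Av_mono fun z hz => (abs_le.1 (h z hz)).2

/-- A subset of a box with a fixed coordinate is small. -/
lemma card_face_le {x : V d} {m : ℕ} {T : Finset (V d)} (hT : T ⊆ box x m) {i : Fin d} {t : ℤ}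
    (ht : ∀ z ∈ T, z i = t) : (T.card : ℝ) * (2 * m + 1) ≤ vol d m := by
  have h1 : (T ×ˢ Icc (x i - m) (x i + m)).card ≤ (box x m).card := by
    refine card_le_card_of_injOn (fun p => Function.update p.1 i p.2) (fun p hp => ?_)
      (fun p hp p' hp' hpp => ?_)
    · obtain ⟨h1, h2⟩ := mem_product.1 (mem_coe.1 hp)
      refine mem_coe.2 (mem_box.2 fun k => ?_)
      by_cases hk : k = i
      · subst hk
        rw [mem_Icc] at h2
        simp only [Function.update_self, abs_le]
        omega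
      · simp only [Function.update_of_ne hk]
        exact mem_box.1 (hT h1) k
    · have h1 := (mem_product.1 (mem_coe.1 hp)).1
      have h2 := (mem_product.1 (mem_coe.1 hp')).1
      refine Prod.ext (funext fun k => ?_) ?_
      · by_cases hk : k = i
        · rw [hk, ht _ h1, ht _ h2]
        · simpa only [Function.update_of_ne hk] using congrFun hpp k
      · simpa only [Function.update_self] using congrFun hpp i
  rw [card_product, Int.card_Icc, show (x i + m + 1 - (x i - m)).toNat = 2 * m + 1 by omega] at h1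
  rw [← card_box_vol x m]
  exact_mod_cast h1

lemma abs_dif_Av_le {m : ℕ} {f : V d → ℝ} {y : V d} {c M : ℝ} (i : Fin d)
    (h : ∀ z ∈ box y (m + 1), |f z - c| ≤ M) : |dif i (Av m f) y| ≤ 2 / (2 * m + 1) * M := by
  have hM : 0 ≤ M := (abs_nonneg _).trans (h y (mem_box_self _ _))
  have hv := vol_pos d m
  have hm : (0 : ℝ) < 2 * m + 1 := by positivity
  have e : dif i (Av m f) y = (∑ z ∈ box (y + ee i) m \ box y m, (f z - c) -
      ∑ z ∈ box y m \ box (y + ee i) m, (f z - c)) / vol d m := by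
    rw [sum_sdiff_sub_sum_sdiff, sub_div]
    change _ = Av m (fun z => f z - c) _ - Av m (fun z => f z - c) _
    rw [← Av_sub_const, ← Av_sub_const, dif]
    ring
  have b : ∀ T : Finset (V d), T ⊆ box y (m + 1) → (T.card : ℝ) * (2 * m + 1) ≤ vol d m →
      |∑ z ∈ T, (f z - c)| ≤ vol d m / (2 * m + 1) * M := by
    intro T hT hc
    refine (abs_sum_le_sum_abs _ _).trans ((sum_le_card_nsmul _ _ M fun z hz =>
      h z (hT hz)).trans ?_)
    rw [nsmul_eq_mul]
    exact mul_le_mul_of_nonneg_right ((le_div_iff₀ hm).2 hc) hM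
  have b1 := b (box (y + ee i) m \ box y m)
    (sdiff_subset.trans (box_subset (by rw [nd_add_ee]; omega)))
    (card_face_le (i := i) (t := y i + 1 + m) sdiff_subset fun z hz => by
      obtain ⟨h1, h2⟩ := mem_sdiff.1 hz
      by_contra h3
      refine h2 (mem_box.2 fun k => ?_)
      have h4 := mem_box.1 h1 k
      by_cases hk : k = i
      · subst hk
        rw [Pi.add_apply, ee_self, abs_le] at h4
        rw [abs_le]
        omega
      · simpa [ee_ne hk] using h4)
  have b2 := b (box y m \ box (y + ee i) m)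
    (sdiff_subset.trans (box_mono _ (by omega)))
    (card_face_le (i := i) (t := y i - m) sdiff_subset fun z hz => by
      obtain ⟨h1, h2⟩ := mem_sdiff.1 hz
      by_contra h3
      refine h2 (mem_box.2 fun k => ?_)
      have h4 := mem_box.1 h1 k
      by_cases hk : k = i
      · subst hk
        rw [abs_le] at h4
        rw [Pi.add_apply, ee_self, abs_le]
        omega
      · simpa [ee_ne hk] using h4)
  rw [e, abs_div, abs_of_pos hv, div_le_iff₀ hv]
  refine (abs_sub _ _).trans ((add_le_add b1 b2).trans (le_of_eq ?_))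
  ring
/-- Jensen inequality. -/
lemma Av_sub_sq_le (m : ℕ) (f : V d → ℝ) (y : V d) (c : ℝ) :
    (Av m f y - c) ^ 2 ≤ Av m (fun z => (f z - c) ^ 2) y := by
  have hv := vol_pos d m
  have h1 := sq_sum_le_card_mul_sum_sq (s := box y m) (f := fun z => f z - c)
  rw [card_box_vol] at h1
  rw [Av_sub_const, Av, Av, div_pow, div_le_div_iff₀ (by positivity) hv]
  calc _ ≤ (vol d m * ∑ z ∈ box y m, (f z - c) ^ 2) * vol d m :=
        mul_le_mul_of_nonneg_right h1 hv.le
    _ = _ := by ring
lemma l2_Av_le (m r : ℕ) (f : V d → ℝ) (x : V d) :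
    l2 (box x r) (Av m f) ≤ l2 (box x (r + m)) f := by
  have hv := vol_pos d m
  refine l2_le_of_sq_le (l2_nonneg _ _) ?_
  have h1 := sum_sum_box_le Set.univ x r m (f := fun z => f z ^ 2) fun z => sq_nonneg _
  simp only [cap_univ] at h1
  rw [l2_sq]
  calc ∑ y ∈ box x r, Av m f y ^ 2 ≤ ∑ y ∈ box x r, (∑ z ∈ box y m, f z ^ 2) / vol d m :=
        sum_le_sum fun y _ => by simpa [Av] using Av_sub_sq_le m f y 0
    _ ≤ _ := by
        rw [← sum_div, div_le_iff₀ hv, mul_comm]
        exact h1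
/-- The average is self-adjoint. -/
lemma sum_mul_Av {m r R : ℕ} (hR : r + m ≤ R) {f : V d → ℝ} (g : V d → ℝ) {x : V d}
    (h : ∀ z, z ∉ box x r → f z = 0) :
    ∑ y ∈ box x R, f y * Av m g y = ∑ y ∈ box x R, Av m f y * g y := by
  have h1 : ∀ y ∈ box x R, f y * Av m g y =
      ∑ z ∈ box x R, if z ∈ box y m then f y * g z / vol d m else 0 := by
    intro y _
    by_cases hy : y ∈ box x r
    · have h2 : box y m ⊆ box x R := box_subset (by have := mem_box_nd.1 hy; omega)
      rw [← sum_filter, filter_mem_eq_inter, inter_eq_right.2 h2, Av, ← mul_div_assoc, mul_sum,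
        sum_div]
    · simp [h y hy]
  have h2 : ∀ z ∈ box x R, Av m f z * g z =
      ∑ y ∈ box x R, if z ∈ box y m then f y * g z / vol d m else 0 := by
    intro z _
    simp only [mem_box_comm (y := z)]
    rw [← sum_filter, filter_mem_eq_inter, Av, div_mul_eq_mul_div, sum_mul, sum_div]
    refine (sum_subset inter_subset_right fun y hy hy' => ?_).symm
    rw [h y fun h3 => hy' (mem_inter.2 ⟨box_mono x (by omega) h3, hy⟩)]
    simp
  rw [sum_congr rfl h1, sum_congr rfl h2, sum_comm]

lemma l2_shift_le {r m : ℕ} (g : V d → ℝ) (x : V d) {w : V d} (hw : w ∈ box (0 : V d) m) :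
    l2 (box x r) (fun y => g (y + w)) ≤ l2 (box x (r + m)) g := by
  have h1 : l2 (box x r) (fun y => g (y + w)) = l2 (box (x + w) r) g := by
    rw [l2, l2, sum_box_shift x w r fun y => g y ^ 2]
  rw [h1]
  refine l2_mono (box_subset ?_) g
  have := mem_box_nd.1 (add_mem_box (x := x).2 hw)
  omega

lemma l2_shift_sub_le (m r : ℕ) (f : V d → ℝ) (x w : V d) : w ∈ box (0 : V d) m →
    l2 (box x r) (fun y => f y - f (y + w)) ≤
      ∑ j, ((|w j| : ℤ) : ℝ) * l2 (box x (r + m)) (dif j f) := by
  refine path_induction (P := fun w => w ∈ box (0 : V d) m →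
    l2 (box x r) (fun y => f y - f (y + w)) ≤
      ∑ j, ((|w j| : ℤ) : ℝ) * l2 (box x (r + m)) (dif j f)) (fun _ => by simp [l2])
    (fun w i hi ih hw => ?_) (fun w i hi ih hw => ?_) w
  · have h1 := box_zero_of_add hi hw
    rw [wsum_add _ hi]
    refine le_trans (le_of_eq (l2_congr fun y _ => ?_)) ((l2_sub_le _ _ _).trans
      (add_le_add (ih h1) (l2_shift_le (dif i f) x h1)))
    simp only [dif, add_assoc]
    ring
  · have h1 := box_zero_of_sub hi hw
    rw [wsum_sub _ hi]
    refine le_trans (le_of_eq (l2_congr fun y _ => ?_)) ((l2_add_le _ _ _).trans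
      (add_le_add (ih h1) (l2_shift_le (dif i f) x hw)))
    simp only [dif, add_assoc, sub_add_cancel]
    ring

lemma l2_sub_Av_le (m r : ℕ) (f : V d → ℝ) (x : V d) :
    l2 (box x r) (fun y => f y - Av m f y) ≤ m * ∑ i, l2 (box x (r + m)) (dif i f) := by
  have hv := vol_pos d m
  have h1 : ∀ y ∈ box x r, f y - Av m f y =
      ∑ w ∈ box (0 : V d) m, (vol d m)⁻¹ * (f y - f (y + w)) := by
    intro y _
    have h2 := Av_shift m f 0 y
    rw [zero_add] at h2
    rw [h2, ← mul_sum, sum_sub_distrib, sum_const, nsmul_eq_mul, card_box_vol, Av]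
    simp only [add_comm y]
    field_simp
  rw [l2_congr h1]
  refine (l2_sum_le _ _ _).trans ((sum_le_card_nsmul _ _
    ((vol d m)⁻¹ * (m * ∑ i, l2 (box x (r + m)) (dif i f))) fun w hw => ?_).trans (le_of_eq ?_))
  · rw [l2_mul, abs_of_pos (inv_pos.2 hv)]
    exact mul_le_mul_of_nonneg_left ((l2_shift_sub_le m r f x w hw).trans
      (wsum_le (fun _ => l2_nonneg _ _) hw)) (inv_pos.2 hv).le
  · rw [nsmul_eq_mul, card_box_vol]
    field_simp
/-- Testing a bounded field with small averages against a slowly varying function. -/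
lemma abs_sum_mul_le_avg {m r : ℕ} {q F : V d → ℝ} {x : V d} {B : ℝ}
    (hq : ∀ y, |q y| ≤ B) (hF : ∀ z, z ∉ box x r → F z = 0) :
    |∑ y ∈ box x r, q y * F y| ≤ l2 (box x r) (Av m q) * l2 (box x r) F +
      B * √(vol d (r + m)) * (m * ∑ i, l2 (box x (r + 1)) (dif i F)) := by
  have hB : 0 ≤ B := (abs_nonneg _).trans (hq x)
  have hs : box x r ⊆ box x (r + m) := box_mono x (by omega)
  have e1 : ∀ g : V d → ℝ, ∑ y ∈ box x r, g y * F y = ∑ y ∈ box x (r + m), g y * F y :=
    fun g => sum_subset hs fun y _ hy => by rw [hF y hy, mul_zero]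
  have e2 := sum_mul_Av (le_refl (r + m)) q hF
  have e3 : ∑ y ∈ box x r, q y * F y = ∑ y ∈ box x r, Av m q y * F y +
      ∑ y ∈ box x (r + m), q y * (F y - Av m F y) := by
    rw [e1, e1, sum_congr rfl fun y _ => mul_comm (Av m q y) (F y), e2, ← sum_add_distrib]
    exact sum_congr rfl fun y _ => by ring
  have b1 : l2 (box x (r + m)) q ≤ B * √(vol d (r + m)) := by
    have := l2_le_sup (S := box x (r + m)) hB fun y _ => hq y
    rwa [card_box_vol, mul_comm] at this
  have b2 : l2 (box x (r + m)) (fun y => F y - Av m F y) ≤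
      m * ∑ i, l2 (box x (r + 1)) (dif i F) := by
    refine (l2_sub_Av_le m (r + m) F x).trans
      (mul_le_mul_of_nonneg_left (sum_le_sum fun i _ => ?_) (Nat.cast_nonneg m))
    refine (l2_mono (box_mono x (by omega : r + m + m ≤ r + m + m + 1)) _).trans
      (le_of_eq (l2_eq_of_zero (box_mono x (by omega)) fun y _ hy => ?_))
    rw [dif, hF y fun h => hy (box_mono x (by omega) h), hF (y + ee i) fun h => hy ?_, sub_zero]
    rw [mem_box_nd] at h ⊢
    have h1 := nd_triangle x (y + ee i) y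
    rw [nd_comm (y + ee i), nd_add_ee] at h1
    omega
  rw [e3]
  exact (abs_add_le _ _).trans (add_le_add (abs_sum_mul_le _ _ _) ((abs_sum_mul_le _ _ _).trans
    (mul_le_mul b1 b2 (l2_nonneg _ _) (by positivity))))

/-- The kernel of the `k`-fold average. -/
noncomputable def ker (m k : ℕ) (y : V d) : V d → ℝ :=
  (Av m)^[k] fun z => if z = y then 1 else 0

lemma ker_succ (m k : ℕ) (y : V d) : ker m (k + 1) y = Av m (ker m k y) :=
  Function.iterate_succ_apply' _ _ _

lemma delta_supp (y z : V d) (hz : z ∉ box y 0) : (if z = y then (1 : ℝ) else 0) = 0 :=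
  if_neg fun h : z = y => hz (h ▸ mem_box_self _ _)

lemma ker_supp (m k : ℕ) (y z : V d) (hz : z ∉ box y (k * m)) : ker m k y z = 0 := by
  induction k generalizing z with
  | zero => exact delta_supp y z (by simpa using hz)
  | succ k ih =>
    rw [ker_succ]
    exact Av_supp ih z (by rwa [Nat.succ_mul] at hz)
lemma ker_nonneg (m k : ℕ) (y z : V d) : 0 ≤ ker m k y z := by
  induction k generalizing z with
  | zero =>
    change 0 ≤ if z = y then (1 : ℝ) else 0
    split_ifs <;> norm_num
  | succ k ih =>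
    rw [ker_succ, ← Av_const m 0 z]
    exact Av_mono fun w _ => ih w

lemma sum_mul_iterate {m : ℕ} (k : ℕ) {r R : ℕ} (hR : r + k * m ≤ R) {f : V d → ℝ}
    (g : V d → ℝ) {x : V d} (h : ∀ z, z ∉ box x r → f z = 0) :
    ∑ y ∈ box x R, f y * (Av m)^[k] g y = ∑ y ∈ box x R, (Av m)^[k] f y * g y := by
  induction k generalizing f r with
  | zero => rfl
  | succ k ih =>
    rw [Nat.succ_mul] at hR
    rw [Function.iterate_succ_apply', sum_mul_Av (by omega) _ h,
      ih (r := r + m) (by omega) (Av_supp h), Function.iterate_succ_apply]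

lemma iterate_Av_eq (m k : ℕ) (f : V d → ℝ) (y : V d) (S : Finset (V d))
    (hS : box y (k * m) ⊆ S) : (Av m)^[k] f y = ∑ z ∈ S, ker m k y z * f z := by
  have h1 := sum_mul_iterate (m := m) k (r := 0) (R := k * m) (by omega) f (delta_supp y)
  simp only [ite_mul, one_mul, zero_mul, sum_ite_eq', mem_box_self, if_true] at h1
  rw [h1]
  exact sum_subset hS fun z _ hz => by
    rw [show (Av m)^[k] (fun z => if z = y then (1 : ℝ) else 0) z = 0 from ker_supp m k y z hz,
      zero_mul]
lemma ker_symm (m k : ℕ) (y z : V d) : ker m k y z = ker m k z y := by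
  have h1 := iterate_Av_eq m k (fun w => if w = y then 1 else 0) z (insert y (box z (k * m)))
    (subset_insert _ _)
  simp only [mul_ite, mul_one, mul_zero, sum_ite_eq', mem_insert_self, if_true] at h1
  exact h1

lemma difs_Av (l : List (Fin d)) (m : ℕ) (f : V d → ℝ) : difs l (Av m f) = Av m (difs l f) := by
  induction l with
  | nil => rfl
  | cons i l ih => rw [difs, ih, dif_Av, difs]

lemma abs_ker_le (m k : ℕ) (y z : V d) : |ker m (k + 1) y z| ≤ 1 / vol d m := by
  induction k generalizing z with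
  | zero =>
    have hv := vol_pos d m
    rw [abs_of_nonneg (ker_nonneg _ _ _ _)]
    change (∑ w ∈ box z m, if w = y then (1 : ℝ) else 0) / vol d m ≤ _
    refine div_le_div_of_nonneg_right ?_ hv.le
    rw [sum_ite_eq']
    split_ifs <;> norm_num
  | succ k ih =>
    have := abs_Av_sub_le (m := m) (y := z) (c := 0) (f := ker m (k + 1) y) fun w _ => by
      rw [sub_zero]; exact ih w
    rwa [sub_zero, ← ker_succ] at this

lemma abs_difs_ker_le (m k : ℕ) (l : List (Fin d)) (hl : l.length < k) (y z : V d) :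
    |difs l (ker m k y) z| ≤ (2 / (2 * m + 1)) ^ l.length / vol d m := by
  induction l generalizing k z with
  | nil =>
    obtain ⟨k, rfl⟩ : ∃ k', k = k' + 1 := ⟨k - 1, by simp at hl; omega⟩
    simpa [difs] using abs_ker_le m k y z
  | cons i l ih =>
    rw [List.length_cons] at hl ⊢
    obtain ⟨k, rfl⟩ : ∃ k', k = k' + 1 := ⟨k - 1, by omega⟩
    rw [difs, ker_succ, difs_Av]
    refine (abs_dif_Av_le (c := 0) i fun w _ => by
      rw [sub_zero]; exact ih k (by omega) w).trans (le_of_eq ?_)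
    rw [pow_succ]
    ring

end Pool.Agent.P.MP_b4265e_pr.R
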