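import Pool.Agent.P.MP_b4265e_pr.R.Lap

/-!
Charges and their dual norms.
-/

namespace Pool.Agent.P.MP_b4265e_pr.R

open Finset
open scoped Classical

variable {d : ℕ} {G : Set (E d)} {C : Set (V d)}

lemma pair_eq_sum {φ : V d →₀ ℝ} {S : Finset (V d)} (hS : φ.support ⊆ S) (h : V d → ℝ) :
    pair φ h = ∑ y ∈ S, φ y * h y :=
  Finsupp.sum_of_support_subset φ hS _ fun _ _ => zero_mul _

lemma pair_add_left (φ ψ : V d →₀ ℝ) (h : V d → ℝ) : pair (φ + ψ) h = pair φ h + pair ψ h :=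
  Finsupp.sum_add_index' (fun _ => zero_mul _) fun _ _ _ => add_mul _ _ _

lemma pair_sub_left (φ ψ : V d →₀ ℝ) (h : V d → ℝ) : pair (φ - ψ) h = pair φ h - pair ψ h :=
  Finsupp.sum_sub_index fun _ _ _ => sub_mul _ _ _

lemma pair_smul_left (c : ℝ) (φ : V d →₀ ℝ) (h : V d → ℝ) : pair (c • φ) h = c * pair φ h := by
  rw [pair_eq_sum (Finsupp.support_smul (b := c) (g := φ)), pair_eq_sum (Subset.refl _), mul_sum]
  exact sum_congr rfl fun y _ => by rw [Finsupp.smul_apply, smul_eq_mul, mul_assoc]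

lemma pair_sum_left {ι : Type*} (I : Finset ι) (φ : ι → V d →₀ ℝ) (h : V d → ℝ) :
    pair (∑ i ∈ I, φ i) h = ∑ i ∈ I, pair (φ i) h := by
  induction I using Finset.induction_on with
  | empty => simp [pair]
  | insert a s ha ih => rw [sum_insert ha, sum_insert ha, pair_add_left, ih]

lemma pair_single (y : V d) (c : ℝ) (h : V d → ℝ) : pair (Finsupp.single y c) h = c * h y :=
  Finsupp.sum_single_index (zero_mul _)

lemma pair_add_right (φ : V d →₀ ℝ) (h h' : V d → ℝ) :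
    pair φ (fun y => h y + h' y) = pair φ h + pair φ h' := by
  simp only [pair, Finsupp.sum, mul_add, sum_add_distrib]

lemma pair_sub_right (φ : V d →₀ ℝ) (h h' : V d → ℝ) :
    pair φ (fun y => h y - h' y) = pair φ h - pair φ h' := by
  simp only [pair, Finsupp.sum, mul_sub, sum_sub_distrib]

lemma pair_mul_right (φ : V d →₀ ℝ) (c : ℝ) (h : V d → ℝ) :
    pair φ (fun y => c * h y) = c * pair φ h := by
  simp only [pair, Finsupp.sum, mul_sum]
  exact sum_congr rfl fun y _ => by ring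

lemma pair_sum_right {ι : Type*} (I : Finset ι) (φ : V d →₀ ℝ) (F : ι → V d → ℝ) :
    pair φ (fun y => ∑ i ∈ I, F i y) = ∑ i ∈ I, pair φ (F i) := by
  simp only [pair, Finsupp.sum, mul_sum]
  exact sum_comm

lemma pair_congr {φ : V d →₀ ℝ} {h h' : V d → ℝ} (H : ∀ y ∈ φ.support, h y = h' y) :
    pair φ h = pair φ h' :=
  sum_congr rfl fun y hy => by simp only [H y hy]

lemma pair_sub_const {φ : V d →₀ ℝ} (h0 : pair φ (fun _ => 1) = 0) (h : V d → ℝ) (c : ℝ) :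
    pair φ (fun y => h y - c) = pair φ h := by
  have := pair_mul_right φ c fun _ => 1
  simp only [mul_one, h0, mul_zero] at this
  rw [pair_sub_right φ h fun _ => c, this, sub_zero]

lemma l1_nonneg (φ : V d →₀ ℝ) : 0 ≤ l1 φ := sum_nonneg fun _ _ => abs_nonneg _

lemma l1_eq_sum {φ : V d →₀ ℝ} {S : Finset (V d)} (hS : φ.support ⊆ S) :
    l1 φ = ∑ y ∈ S, |φ y| :=
  Finsupp.sum_of_support_subset φ hS _ fun _ _ => abs_zero

lemma l1_add_le (φ ψ : V d →₀ ℝ) : l1 (φ + ψ) ≤ l1 φ + l1 ψ := by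
  rw [l1_eq_sum (Finsupp.support_add (g₁ := φ) (g₂ := ψ)),
    l1_eq_sum (subset_union_left (s₁ := φ.support) (s₂ := ψ.support)),
    l1_eq_sum (subset_union_right (s₁ := φ.support) (s₂ := ψ.support)), ← sum_add_distrib]
  exact sum_le_sum fun y _ => abs_add_le _ _

lemma l1_sub_le (φ ψ : V d →₀ ℝ) : l1 (φ - ψ) ≤ l1 φ + l1 ψ := by
  rw [l1_eq_sum (Finsupp.support_sub (f := φ) (g := ψ)),
    l1_eq_sum (subset_union_left (s₁ := φ.support) (s₂ := ψ.support)),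
    l1_eq_sum (subset_union_right (s₁ := φ.support) (s₂ := ψ.support)), ← sum_add_distrib]
  exact sum_le_sum fun y _ => abs_sub _ _

lemma abs_pair_le_l1 {φ : V d →₀ ℝ} {h : V d → ℝ} {M : ℝ} (H : ∀ y ∈ φ.support, |h y| ≤ M) :
    |pair φ h| ≤ l1 φ * M := by
  rw [pair_eq_sum (Subset.refl _), l1_eq_sum (Subset.refl _), sum_mul]
  refine (abs_sum_le_sum_abs _ _).trans (sum_le_sum fun y hy => ?_)
  rw [abs_mul]
  exact mul_le_mul_of_nonneg_left (H y hy) (abs_nonneg _)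

lemma Supp.mono {x x' : V d} {r r' : ℕ} {φ : V d →₀ ℝ} (h : Supp C x r φ)
    (hb : box x r ⊆ box x' r') : Supp C x' r' φ := fun y hy => ⟨(h y hy).1, hb (h y hy).2⟩

lemma Supp.add {x : V d} {r : ℕ} {φ ψ : V d →₀ ℝ} (h : Supp C x r φ) (h' : Supp C x r ψ) :
    Supp C x r (φ + ψ) := fun y hy =>
  (mem_union.1 (Finsupp.support_add hy)).elim (h y) (h' y)

lemma Supp.sub {x : V d} {r : ℕ} {φ ψ : V d →₀ ℝ} (h : Supp C x r φ) (h' : Supp C x r ψ) :
    Supp C x r (φ - ψ) := fun y hy =>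
  (mem_union.1 (Finsupp.support_sub hy)).elim (h y) (h' y)

lemma Supp.smul {x : V d} {r : ℕ} {φ : V d →₀ ℝ} (h : Supp C x r φ) (c : ℝ) :
    Supp C x r (c • φ) := fun y hy => h y (Finsupp.support_smul hy)

lemma supp_sum {ι : Type*} (I : Finset ι) {x : V d} {r : ℕ} {φ : ι → V d →₀ ℝ}
    (h : ∀ i ∈ I, Supp C x r (φ i)) : Supp C x r (∑ i ∈ I, φ i) := by
  induction I using Finset.induction_on with
  | empty => intro y hy; simp at hy
  | insert a s ha ih =>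
    rw [sum_insert ha]
    exact (h a (mem_insert_self _ _)).add (ih fun i hi => h i (mem_insert_of_mem hi))

lemma chg_pair_le {x : V d} {r : ℕ} {φ : V d →₀ ℝ} (hφ : Supp C x r φ) (h : V d → ℝ) :
    |pair φ h| ≤ l1 φ * (√(vol d r) * nrm C x r h) :=
  abs_pair_le_l1 fun y hy => abs_le_nrm (hφ y hy).2 (hφ y hy).1 h

lemma chg_pair_le' {x : V d} {r : ℕ} {φ : V d →₀ ℝ} (hφ : Supp C x r φ) {h : V d → ℝ}
    (H : nrm C x r h ≤ 1) : pair φ h ≤ l1 φ * √(vol d r) :=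
  (le_of_abs_le (chg_pair_le hφ h)).trans (mul_le_mul_of_nonneg_left
    (mul_le_of_le_one_right (Real.sqrt_nonneg _) H) (l1_nonneg φ))

lemma chg_bdd {x : V d} {r : ℕ} {φ : V d →₀ ℝ} (hφ : Supp C x r φ) :
    BddAbove {t | ∃ h, Harm G x r h ∧ nrm C x r h ≤ 1 ∧ t = pair φ h} :=
  ⟨l1 φ * √(vol d r), by
    rintro t ⟨h, -, h2, rfl⟩
    exact chg_pair_le' hφ h2⟩

lemma chg_zero_mem (G : Set (E d)) (C : Set (V d)) (x : V d) (r : ℕ) (φ : V d →₀ ℝ) :
    (0 : ℝ) ∈ {t | ∃ h, Harm G x r h ∧ nrm C x r h ≤ 1 ∧ t = pair φ h} :=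
  ⟨fun _ => 0, harm_const G x r 0, nrm_le_sup zero_le_one fun _ _ _ => by simp, by simp [pair]⟩

lemma lam_nonneg {x : V d} {r : ℕ} {φ : V d →₀ ℝ} (h : Supp C x r φ) : 0 ≤ lam G C x r φ :=
  le_csSup (chg_bdd h) (chg_zero_mem G C x r φ)

lemma lam_zero (G : Set (E d)) (C : Set (V d)) (x : V d) (r : ℕ) : lam G C x r 0 = 0 := by
  refine le_antisymm (Real.sSup_le ?_ le_rfl) (lam_nonneg fun y hy => by simp at hy)
  rintro t ⟨h, -, -, rfl⟩
  simp [pair]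

lemma abs_pair_le {x : V d} {r : ℕ} {φ : V d →₀ ℝ} (hφ : Supp C x r φ) {h : V d → ℝ}
    (H : Harm G x r h) : |pair φ h| ≤ lam G C x r φ * nrm C x r h := by
  have key : ∀ g : V d → ℝ, Harm G x r g → pair φ g ≤ lam G C x r φ * nrm C x r g := fun g hg => by
    rcases (nrm_nonneg C x r g).eq_or_lt with h0 | h0
    · have := chg_pair_le hφ g
      rw [← h0, mul_zero, mul_zero] at this
      rw [← h0, mul_zero]
      exact le_of_abs_le this
    · have h1 : pair φ (fun y => (nrm C x r g)⁻¹ * g y) ≤ lam G C x r φ :=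
        le_csSup (chg_bdd hφ) ⟨_, hg.mul _, by
          rw [nrm_mul, abs_of_pos (inv_pos.2 h0), inv_mul_cancel₀ h0.ne'], rfl⟩
      rw [pair_mul_right, inv_mul_le_iff₀ h0] at h1
      rwa [mul_comm]
  have h1 := key h H
  have h2 := key _ (H.mul (-1))
  rw [pair_mul_right, nrm_mul, abs_neg, abs_one, one_mul] at h2
  rw [abs_le]
  constructor <;> linarith

lemma lam_le {x : V d} {r : ℕ} {φ : V d →₀ ℝ} {Λ : ℝ} (hΛ : 0 ≤ Λ)
    (H : ∀ h, Harm G x r h → nrm C x r h ≤ 1 → pair φ h ≤ Λ) : lam G C x r φ ≤ Λ := by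
  refine Real.sSup_le ?_ hΛ
  rintro t ⟨h, h1, h2, rfl⟩
  exact H h h1 h2

lemma exists_of_lt_lam {x : V d} {r : ℕ} {φ : V d →₀ ℝ} {a : ℝ} (ha : a < lam G C x r φ) :
    ∃ h, Harm G x r h ∧ nrm C x r h ≤ 1 ∧ a < pair φ h := by
  obtain ⟨t, ⟨h, h1, h2, rfl⟩, ht⟩ := exists_lt_of_lt_csSup ⟨0, chg_zero_mem G C x r φ⟩ ha
  exact ⟨h, h1, h2, ht⟩

lemma lam_le_l1 {x : V d} {r : ℕ} {φ : V d →₀ ℝ} (hφ : Supp C x r φ) :
    lam G C x r φ ≤ l1 φ * √(vol d r) :=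
  lam_le (mul_nonneg (l1_nonneg φ) (Real.sqrt_nonneg _)) fun _ _ h2 => chg_pair_le' hφ h2

lemma lam_smul {x : V d} {r : ℕ} {φ : V d →₀ ℝ} (hφ : Supp C x r φ) (c : ℝ) :
    lam G C x r (c • φ) = |c| * lam G C x r φ := by
  have key : ∀ (ψ : V d →₀ ℝ) (c : ℝ), Supp C x r ψ →
      lam G C x r (c • ψ) ≤ |c| * lam G C x r ψ := fun ψ c hψ => by
    have h0 := lam_nonneg (G := G) hψ
    refine lam_le (mul_nonneg (abs_nonneg _) h0) fun h h1 h2 => ?_
    rw [pair_smul_left]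
    refine (le_abs_self _).trans ?_
    rw [abs_mul]
    exact mul_le_mul_of_nonneg_left ((abs_pair_le hψ h1).trans (mul_le_of_le_one_right h0 h2))
      (abs_nonneg _)
  refine le_antisymm (key φ c hφ) ?_
  rcases eq_or_ne c 0 with rfl | hc
  · rw [abs_zero, zero_mul]
    exact lam_nonneg (hφ.smul _)
  · have h1 := key (c • φ) c⁻¹ (hφ.smul c)
    rw [smul_smul, inv_mul_cancel₀ hc, one_smul, abs_inv, le_inv_mul_iff₀ (abs_pos.2 hc)] at h1
    exact h1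

lemma lam_add_le {x : V d} {r : ℕ} {φ ψ : V d →₀ ℝ} (hφ : Supp C x r φ) (hψ : Supp C x r ψ) :
    lam G C x r (φ + ψ) ≤ lam G C x r φ + lam G C x r ψ := by
  refine lam_le (add_nonneg (lam_nonneg hφ) (lam_nonneg hψ)) fun h h1 h2 => ?_
  rw [pair_add_left]
  exact add_le_add (le_csSup (chg_bdd hφ) ⟨h, h1, h2, rfl⟩) (le_csSup (chg_bdd hψ) ⟨h, h1, h2, rfl⟩)

lemma lam_sum_le {ι : Type*} (I : Finset ι) {x : V d} {r : ℕ} {φ : ι → V d →₀ ℝ}
    (hφ : ∀ i ∈ I, Supp C x r (φ i)) :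
    lam G C x r (∑ i ∈ I, φ i) ≤ ∑ i ∈ I, lam G C x r (φ i) := by
  refine lam_le (sum_nonneg fun i hi => lam_nonneg (hφ i hi)) fun h h1 h2 => ?_
  rw [pair_sum_left]
  exact sum_le_sum fun i hi => le_csSup (chg_bdd (hφ i hi)) ⟨h, h1, h2, rfl⟩

lemma lam_le_of_subset {x x' : V d} {r r' : ℕ} {φ : V d →₀ ℝ} (hφ : Supp C x r φ)
    (hb : box x r ⊆ box x' r') {c : ℝ} (hc : 1 ≤ c) (hr : (r' : ℝ) ≤ c * r) :
    lam G C x' r' φ ≤ c ^ d * lam G C x r φ := by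
  have h0 := lam_nonneg (G := G) hφ
  have hc0 : 0 ≤ c ^ d := by positivity
  refine lam_le (mul_nonneg hc0 h0) fun h h1 h2 => ?_
  refine (le_of_abs_le (abs_pair_le hφ (h1.mono hb))).trans ?_
  rw [mul_comm (c ^ d)]
  exact mul_le_mul_of_nonneg_left
    ((nrm_le_of_subset' C hb hc hr h).trans (mul_le_of_le_one_right hc0 h2)) h0

lemma lam_congr {G' : Set (E d)} {C' : Set (V d)} {x : V d} {r : ℕ}
    (hG : ∀ e ∈ boxE x (r + 1), (e ∈ G ↔ e ∈ G')) (hC : ∀ y ∈ box x r, (y ∈ C ↔ y ∈ C'))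
    (φ : V d →₀ ℝ) : lam G C x r φ = lam G' C' x r φ := by
  have e1 : ∀ h : V d → ℝ, Harm G x r h ↔ Harm G' x r h := fun h =>
    forall₂_congr fun y hy => by
      have hy' := mem_box_nd.1 hy
      rw [lapG_congr_edges (G' := G') (fun i => hG _ (mem_boxE'.2 (mem_box_nd.2 (by
        simp only
        omega)))) (fun i => hG _ (mem_boxE'.2 (mem_box_nd.2 (by
        have h1 := nd_triangle x y (y - ee i)
        rw [nd_sub_ee] at h1
        simp only
        omega))))]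
  have e2 : cap C (box x r) = cap C' (box x r) := by
    ext y
    rw [mem_cap, mem_cap]
    exact and_congr_right fun hy => hC y hy
  simp only [lam, nrm, e1, e2]


/-- Slow decay persists. -/
lemma persist {a : ℕ → ℝ} {n0 n1 : ℕ} {Γ ε Λ : ℝ} (ha : ∀ n, n0 ≤ n → 0 ≤ a n) (hε : 0 ≤ ε)
    (h1 : ε * Λ ≤ 1 / 2) (h2 : 2 * Γ ≤ Λ)
    (h : ∀ n, n0 ≤ n → n + 2 ≤ n1 → a (n + 1) ≤ Γ * a (n + 2) + ε * a n)
    (h0 : a n0 ≤ Λ * a (n0 + 1)) :
    ∀ n, n0 ≤ n → n + 2 ≤ n1 → a n ≤ Λ * a (n + 1) ∧ a (n + 1) ≤ 2 * Γ * a (n + 2) := by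
  have step : ∀ n, n0 ≤ n → n + 2 ≤ n1 → a n ≤ Λ * a (n + 1) → a (n + 1) ≤ 2 * Γ * a (n + 2) :=
    fun n hn hn1 hi => by
      have t1 := h n hn hn1
      have t2 := mul_le_mul_of_nonneg_left hi hε
      have t3 := mul_le_mul_of_nonneg_right h1 (ha (n + 1) (by omega))
      nlinarith
  intro n hn
  induction n, hn using Nat.le_induction with
  | base => exact fun hn1 => ⟨h0, step _ le_rfl hn1 h0⟩
  | succ n hn ih =>
    intro hn1
    have t1 : a (n + 1) ≤ Λ * a (n + 1 + 1) :=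
      (ih (by omega)).2.trans (mul_le_mul_of_nonneg_right h2 (ha (n + 2) (by omega)))
    exact ⟨t1, step _ (by omega) hn1 t1⟩


lemma HGood.mono {θ K δ δ' : ℝ} {x : V d} {s : ℕ} (h : HGood θ K δ G C x s) (hδ : δ ≤ δ') :
    HGood θ K δ' G C x s := by
  refine ⟨fun z hz r h1 h2 => h.dens z hz r
    ((mul_le_mul_of_nonneg_right hδ (Nat.cast_nonneg s)).trans h1) h2, h.poin1, h.poin2,
    fun g hg => ?_, fun ψ M ε hε h1 h2 => ?_⟩
  · obtain ⟨H, t1, t2, t3⟩ := h.appr g hg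
    exact ⟨H, t1, t2.trans (mul_le_mul_of_nonneg_right hδ (nrm_nonneg _ _ _ _)), t3⟩
  · obtain ⟨H, t1, t2⟩ := h.lift ψ M ε hε h1 h2
    have hM : 0 ≤ M := by
      have := (abs_nonneg _).trans (h1 [] (by simp) x (mem_box_self _ _))
      simpa using this
    exact ⟨H, t1, t2.trans (mul_le_mul_of_nonneg_right (by linarith) hM)⟩


/-- Poincare inequality for functions vanishing off a box. -/
lemma poin_dirichlet {θ K : ℝ} (hθ : 0 < θ) (hK : 0 ≤ K) {x z : V d} {r R ρ : ℕ}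
    (hP : Poin2 K G C x R) (hD : Dens θ C z ρ) (hz : box z ρ ⊆ box x R)
    (hzr : r + ρ < nd x z) {v : V d → ℝ} (hv : ∀ y ∈ C, y ∉ box x r → v y = 0) :
    l2 (cap C (box x R)) v ≤ (1 + √(vol d R / (θ * vol d ρ))) * (K * R * en G x (2 * R) v) := by
  obtain ⟨c, hc⟩ := hP v
  set B := K * R * en G x (2 * R) v
  have hB : 0 ≤ B := (l2_nonneg _ _).trans hc
  have hv0 := vol_pos d ρ
  have hpos : 0 < √(θ * vol d ρ) := Real.sqrt_pos.2 (by positivity)
  have t1 : l2 (cap C (box z ρ)) (fun y => v y - c) = l2 (cap C (box z ρ)) fun _ => -c := by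
    refine l2_congr fun y hy => ?_
    obtain ⟨h1, h2⟩ := mem_cap.1 hy
    have h3 := mem_box_nd.1 h1
    have h4 := nd_triangle x y z
    rw [nd_comm y z] at h4
    rw [hv y h2 fun h5 => by have := mem_box_nd.1 h5; omega, zero_sub]
  have t2 : √(θ * vol d ρ) * |c| ≤ B := by
    refine le_trans ?_ ((l2_mono (cap_mono C hz) _).trans hc)
    rw [t1, l2_const, abs_neg]
    exact mul_le_mul_of_nonneg_right (Real.sqrt_le_sqrt hD) (abs_nonneg _)
  have t3 : |c| ≤ B / √(θ * vol d ρ) := by rw [le_div_iff₀ hpos, mul_comm]; exact t2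
  have t4 := l2_add_le (cap C (box x R)) (fun y => v y - c) fun _ => c
  simp only [sub_add_cancel] at t4
  rw [l2_const] at t4
  have t5 : √((cap C (box x R)).card : ℝ) ≤ √(vol d R) := by
    refine Real.sqrt_le_sqrt ?_
    rw [← card_box_vol x R]
    exact_mod_cast card_le_card (cap_subset C _)
  have t6 := mul_le_mul t5 t3 (abs_nonneg _) (Real.sqrt_nonneg _)
  rw [Real.sqrt_div (vol_pos d R).le, add_mul, one_mul, div_mul_eq_mul_div, mul_div_assoc]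
  exact t4.trans (add_le_add hc t6)


end Pool.Agent.P.MP_b4265e_pr.R
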