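import Pool.Agent.P.MP_b4265e_pr.R.Path

/-!
Geometry of high density bond configurations in a product of intervals.
-/

namespace Pool.Agent.P.MP_b4265e_pr.R

open Finset
open scoped Classical

variable {d : ℕ}

/-- The coordinatewise projection onto a product of intervals. -/
def coarseCl (lo hi x : V d) : V d := fun j => max (lo j) (min (hi j) (x j))

lemma coarseCl_mem {lo hi : V d} (hlh : ∀ j, lo j ≤ hi j) (x : V d) :
    coarseCl lo hi x ∈ rect lo hi := by
  intro j
  have := hlh j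
  simp only [coarseCl]
  omega

lemma coarseCl_of_mem {lo hi x : V d} (hx : x ∈ rect lo hi) : coarseCl lo hi x = x := by
  funext j
  have := hx j
  simp only [coarseCl]
  omega

lemma coarse_conn_rect (lo hi : V d) : Conn (rect lo hi) :=
  conn_pi (fun j => Set.Icc (lo j) (hi j)) fun _ => Set.ordConnected_Icc

lemma coarse_ins_mono {A B : Set (V d)} (h : A ⊆ B) : ins A ⊆ ins B :=
  fun _ ha => ⟨h ha.1, h ha.2⟩

lemma coarse_conn_preimage {lo hi : V d} (hlh : ∀ j, lo j ≤ hi j) {A : Set (V d)}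
    (hA : A ⊆ rect lo hi) (hc : Conn A) : Conn (coarseCl lo hi ⁻¹' A) := by
  intro S hS
  have key : ∀ x ∈ coarseCl lo hi ⁻¹' A, (x ∈ S ↔ coarseCl lo hi x ∈ S) := by
    intro x hx
    have hconn := conn_pi (d := d)
      (fun k => {t : ℤ | max (lo k) (min (hi k) t) = coarseCl lo hi x k}) (by
        intro k
        refine ⟨fun s hs t ht u hu => ?_⟩
        simp only [Set.mem_ofPred_eq, Set.mem_Icc] at hs ht hu ⊢
        omega)
    refine hconn S (hS.mono_right (coarse_ins_mono ?_)) x (fun k => rfl) _ ?_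
    · intro y hy
      have : coarseCl lo hi y = coarseCl lo hi x := funext hy
      show coarseCl lo hi y ∈ A
      rw [this]; exact hx
    · intro k
      exact congrFun (coarseCl_of_mem (coarseCl_mem hlh x)) k
  have hsub : A ⊆ coarseCl lo hi ⁻¹' A := by
    intro a ha
    show coarseCl lo hi a ∈ A
    rw [coarseCl_of_mem (hA ha)]; exact ha
  intro x hx y hy
  rw [key x hx, key y hy]
  exact hc S (hS.mono_right (coarse_ins_mono hsub)) _ hx _ hy

lemma coarseCl_add_ee {lo hi : V d} (hlh : ∀ j, lo j ≤ hi j) (x : V d) (i : Fin d) :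
    coarseCl lo hi (x + ee i) = coarseCl lo hi x ∨
      coarseCl lo hi (x + ee i) = coarseCl lo hi x + ee i := by
  have h := hlh i
  by_cases hx : lo i ≤ x i ∧ x i < hi i
  · right
    funext j
    by_cases hj : j = i
    · subst hj
      simp only [coarseCl, Pi.add_apply, ee_self]
      omega
    · simp only [coarseCl, Pi.add_apply, ee_ne hj, add_zero]
  · left
    funext j
    by_cases hj : j = i
    · subst hj
      simp only [coarseCl, Pi.add_apply, ee_self]
      omega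
    · simp only [coarseCl, Pi.add_apply, ee_ne hj, add_zero]

/-- The edge boundary, inside a product of intervals, of a connected set with connected
relative complement is star-connected. -/
lemma starConn_bd_rect {lo hi : V d} (hlh : ∀ j, lo j ≤ hi j) {K : Set (V d)}
    (hK : K ⊆ rect lo hi) (h1 : Conn K) (h2 : Conn (rect lo hi \ K)) :
    StarConn (bd K ∩ ins (rect lo hi)) := by
  have hcompl : (coarseCl lo hi ⁻¹' K)ᶜ = coarseCl lo hi ⁻¹' (rect lo hi \ K) := by
    ext x
    simp only [Set.mem_compl_iff, Set.mem_preimage, Set.mem_sdiff, coarseCl_mem hlh x, true_and]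
  have hstar : StarConn (bd (coarseCl lo hi ⁻¹' K)) :=
    starConn_bd (coarse_conn_preimage hlh hK h1)
      (hcompl ▸ coarse_conn_preimage hlh Set.sdiff_subset h2)
  have hmap : ∀ a ∈ bd (coarseCl lo hi ⁻¹' K),
      ((coarseCl lo hi a.1, a.2) : E d) ∈ bd K ∩ ins (rect lo hi) := by
    intro a ha
    have ha' : ¬ (coarseCl lo hi a.1 ∈ K ↔ coarseCl lo hi (a.1 + ee a.2) ∈ K) := ha
    rcases coarseCl_add_ee hlh a.1 a.2 with h | h
    · rw [h] at ha'; exact absurd Iff.rfl ha'
    · refine ⟨?_, coarseCl_mem hlh _, ?_⟩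
      · rw [h] at ha'; exact ha'
      · show coarseCl lo hi a.1 + ee a.2 ∈ rect lo hi
        rw [← h]; exact coarseCl_mem hlh _
  have hback : ∀ a ∈ bd K ∩ ins (rect lo hi), a ∈ bd (coarseCl lo hi ⁻¹' K) ∧
      ((coarseCl lo hi a.1, a.2) : E d) = a := by
    intro a ha
    refine ⟨?_, by rw [coarseCl_of_mem ha.2.1]⟩
    show ¬ (coarseCl lo hi a.1 ∈ K ↔ coarseCl lo hi (a.1 + ee a.2) ∈ K)
    rw [coarseCl_of_mem ha.2.1, coarseCl_of_mem ha.2.2]
    exact ha.1
  intro T hT hcl hne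
  have hall := hstar {a | a ∈ bd (coarseCl lo hi ⁻¹' K) ∧ ((coarseCl lo hi a.1, a.2) : E d) ∈ T}
    (fun a ha => ha.1) (by
      intro a ha b hb hab
      refine ⟨hb, hcl _ ha.2 _ (hmap b hb) fun k => ?_⟩
      have := hab k
      simp only [coarseCl]
      rw [abs_le] at this ⊢
      omega) (by
      obtain ⟨a, ha⟩ := hne
      obtain ⟨h3, h4⟩ := hback a (hT ha)
      exact ⟨a, h3, by rw [h4]; exact ha⟩)
  refine Set.Subset.antisymm hT fun b hb => ?_
  obtain ⟨h3, h4⟩ := hback b hb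
  rw [← hall] at h3
  rw [← h4]; exact h3.2

/-- Relative form of `conn_compl_comp`. -/
lemma coarse_conn_diff {R K : Set (V d)} (hR : Conn R) (hKR : K ⊆ R) (hK : Conn K) {k0 : V d}
    (hk0 : k0 ∈ K) {z : V d} (hz : z ∈ R \ K) : Conn (R \ comp (ins (R \ K)) z) := by
  intro S hS
  set U := comp (ins (R \ K)) z with hU
  have hUK : U ⊆ R \ K := comp_ins_subset hz
  have hKS : ∀ y ∈ K, (y ∈ S ↔ k0 ∈ S) := by
    intro y hy
    refine hK S (hS.mono_right (coarse_ins_mono ?_)) y hy k0 hk0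
    intro a ha
    exact ⟨hKR ha, fun h => (hUK h).2 ha⟩
  have hbd := disjoint_bd_comp (ins (R \ K)) z
  have hall := hR {x | x ∈ U ∨ (x ∈ S ↔ k0 ∈ S)} (by
    rw [Set.disjoint_left]
    intro a ha haR
    apply ha
    simp only [Set.mem_ofPred_eq]
    by_cases h1 : a.1 ∈ U <;> by_cases h2 : a.1 + ee a.2 ∈ U
    · simp [h1, h2]
    · have : a.1 + ee a.2 ∈ K := by
        by_contra hn
        exact dl hbd a (fun h => h2 (h.1 h1)) ⟨hUK h1, haR.2, hn⟩
      simp [h1, hKS _ this]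
    · have : a.1 ∈ K := by
        by_contra hn
        exact dl hbd a (fun h => h1 (h.2 h2)) ⟨⟨haR.1, hn⟩, hUK h2⟩
      simp [h2, hKS _ this]
    · have : a.1 ∈ S ↔ a.1 + ee a.2 ∈ S := by
        by_contra hn
        exact dl hS a hn ⟨⟨haR.1, h1⟩, haR.2, h2⟩
      simp [h1, h2, this])
  have key : ∀ x ∈ R \ U, (x ∈ S ↔ k0 ∈ S) := by
    intro x hx
    have := (hall z hz.1 x hx.1).1 (Or.inl (mem_comp_self _ _))
    rcases this with h | h
    · exact absurd h hx.2
    · exact h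
  intro x hx y hy
  exact (key x hx).trans (key y hy).symm

lemma coarse_finite_ins (lo hi : V d) : (ins (rect lo hi)).Finite := by
  have h1 : (rect lo hi).Finite := by
    refine (Set.finite_Icc lo hi).subset fun a ha => ⟨fun j => (ha j).1, fun j => (ha j).2⟩
  exact (h1.prod (Set.finite_univ (α := Fin d))).subset fun a ha => ⟨ha.1, trivial⟩

/-- The cut around a component of the complement of a closed connected set. -/
lemma coarse_cut {lo hi : V d} (hlh : ∀ j, lo j ≤ hi j) {O : Set (E d)} {K : Set (V d)}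
    (hKR : K ⊆ rect lo hi) (hK : Conn K) {k0 : V d} (hk0 : k0 ∈ K)
    (hcl : Disjoint (bd K) (O ∩ ins (rect lo hi))) {z : V d} (hz : z ∈ rect lo hi \ K) :
    ∃ T : Finset (E d), (T : Set (E d)) = bd (comp (ins (rect lo hi \ K)) z) ∩ ins (rect lo hi) ∧
      StarConn (T : Set (E d)) ∧ Disjoint (T : Set (E d)) O := by
  set D := comp (ins (rect lo hi \ K)) z with hD
  have hDK : D ⊆ rect lo hi \ K := comp_ins_subset hz
  have hfin : (bd D ∩ ins (rect lo hi)).Finite :=
    (coarse_finite_ins lo hi).subset Set.inter_subset_right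
  refine ⟨hfin.toFinset, hfin.coe_toFinset, ?_, ?_⟩
  · rw [hfin.coe_toFinset]
    exact starConn_bd_rect hlh (hDK.trans Set.sdiff_subset) (conn_comp _ _)
      (coarse_conn_diff (coarse_conn_rect lo hi) hKR hK hk0 hz)
  · rw [hfin.coe_toFinset, Set.disjoint_left]
    intro a ha hO
    have hiff : a.1 ∈ K ↔ a.1 + ee a.2 ∈ K := by
      by_contra hn
      exact dl hcl a hn ⟨hO, ha.2⟩
    refine dl (disjoint_bd_comp (ins (rect lo hi \ K)) z) a ha.1 ?_
    have hn : a.1 ∉ K := by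
      intro h
      exact ha.1 ⟨fun h' => absurd h (hDK h').2, fun h' => absurd (hiff.1 h) (hDK h').2⟩
    exact ⟨⟨ha.2.1, hn⟩, ha.2.2, fun h => hn (hiff.2 h)⟩

lemma coarse_comp_subset {lo hi : V d} (O : Set (E d)) {a : V d} (ha : a ∈ rect lo hi) :
    comp (O ∩ ins (rect lo hi)) a ⊆ rect lo hi :=
  (comp_mono Set.inter_subset_right a).trans (comp_ins_subset ha)

lemma coarse_conn_slice (lo hi : V d) (j : Fin d) (v : ℤ) :
    Conn {y | y ∈ rect lo hi ∧ y j = v} := by
  have h := conn_pi (d := d)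
    (fun k => {t : ℤ | (lo k ≤ t ∧ t ≤ hi k) ∧ (k = j → t = v)}) (by
      intro k
      refine ⟨fun s hs t ht u hu => ?_⟩
      simp only [Set.mem_ofPred_eq, Set.mem_Icc] at hs ht hu ⊢
      refine ⟨by omega, fun hk => ?_⟩
      have := hs.2 hk
      have := ht.2 hk
      omega)
  have e : {y | y ∈ rect lo hi ∧ y j = v} =
      {x : V d | ∀ k, x k ∈ {t : ℤ | (lo k ≤ t ∧ t ≤ hi k) ∧ (k = j → t = v)}} := by
    ext y
    exact ⟨fun hy k => ⟨hy.1 k, fun hk => hk ▸ hy.2⟩, fun hy => ⟨fun k => (hy k).1, (hy j).2 rfl⟩⟩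
  rw [e]; exact h

/-- Either an open crossing or a large closed star-connected cut. -/
theorem cross_or_cut {lo hi : V d} (hlh : ∀ j, lo j ≤ hi j) (i : Fin d) (hi' : lo i < hi i)
    (O : Set (E d)) :
    (∃ a ∈ rect lo hi, ∃ b ∈ rect lo hi, a i = lo i ∧ b i = hi i ∧
      b ∈ comp (O ∩ ins (rect lo hi)) a) ∨
    ∃ T : Finset (E d), (T : Set (E d)) ⊆ ins (rect lo hi) ∧ StarConn (T : Set (E d)) ∧
      Disjoint (T : Set (E d)) O ∧
      ∏ j ∈ univ.erase i, (hi j - lo j + 1) ≤ (T.card : ℤ) := by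
  by_cases hcross : ∃ a ∈ rect lo hi, ∃ b ∈ rect lo hi, a i = lo i ∧ b i = hi i ∧
      b ∈ comp (O ∩ ins (rect lo hi)) a
  · exact Or.inl hcross
  right
  set K : Set (V d) := {y | ∃ a ∈ rect lo hi, a i = lo i ∧ y ∈ comp (O ∩ ins (rect lo hi)) a}
    with hKdef
  have hKR : K ⊆ rect lo hi := fun y ⟨a, ha, _, hy⟩ => coarse_comp_subset O ha hy
  have hlo : lo ∈ rect lo hi := fun j => ⟨le_rfl, hlh j⟩
  have hhi : hi ∈ rect lo hi := fun j => ⟨hlh j, le_rfl⟩
  have hF0 : ∀ a ∈ rect lo hi, a i = lo i → a ∈ K := fun a ha h => ⟨a, ha, h, mem_comp_self _ _⟩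
  have hF1 : ∀ b ∈ rect lo hi, b i = hi i → b ∉ K :=
    fun b hb h ⟨a, ha, h1, h2⟩ => hcross ⟨a, ha, b, hb, h1, h, h2⟩
  have hK : Conn K := by
    intro S hS
    have key : ∀ y ∈ K, (y ∈ S ↔ lo ∈ S) := by
      rintro y ⟨a, ha, h1, hy⟩
      have e1 : y ∈ S ↔ a ∈ S :=
        conn_comp _ a S (hS.mono_right
          (coarse_ins_mono fun w hw => (⟨a, ha, h1, hw⟩ : w ∈ K))) y hy a
          (mem_comp_self _ _)
      have e2 : a ∈ S ↔ lo ∈ S :=
        coarse_conn_slice lo hi i (lo i) S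
          (hS.mono_right (coarse_ins_mono fun w hw => hF0 w hw.1 hw.2)) a ⟨ha, h1⟩ lo ⟨hlo, rfl⟩
      exact e1.trans e2
    intro x hx y hy
    exact (key x hx).trans (key y hy).symm
  have hcl : Disjoint (bd K) (O ∩ ins (rect lo hi)) := by
    rw [Set.disjoint_left]
    intro e he hO
    apply he
    constructor
    · rintro ⟨a, ha, h1, h2⟩
      exact ⟨a, ha, h1, comp_adj h2 ⟨e.2, Or.inl ⟨rfl, hO⟩⟩⟩
    · rintro ⟨a, ha, h1, h2⟩
      exact ⟨a, ha, h1, comp_adj h2 ⟨e.2, Or.inr ⟨rfl, hO⟩⟩⟩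
  have hz : hi ∈ rect lo hi \ K := ⟨hhi, hF1 hi hhi rfl⟩
  obtain ⟨T, hT, hstar, hdis⟩ := coarse_cut hlh hKR hK (hF0 lo hlo rfl) hcl hz
  set D := comp (ins (rect lo hi \ K)) hi with hD
  have hDK : D ⊆ rect lo hi \ K := comp_ins_subset hz
  have hF1D : {y | y ∈ rect lo hi ∧ y i = hi i} ⊆ D :=
    subset_comp_of_conn (coarse_conn_slice lo hi i (hi i))
      (fun w hw => (⟨hw.1, hF1 w hw.1 hw.2⟩ : w ∈ rect lo hi \ K)) (y := hi) ⟨hhi, rfl⟩ (mem_comp_self _ _)
  refine ⟨T, by rw [hT]; exact Set.inter_subset_right, hstar, hdis, ?_⟩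
  have hupd : ∀ y ∈ rect lo hi, ∀ t, lo i ≤ t → t ≤ hi i → Function.update y i t ∈ rect lo hi := by
    intro y hy t h1 h2 j
    by_cases hj : j = i
    · subst hj; simp [h1, h2]
    · simpa [hj] using hy j
  have hline : ∀ y ∈ rect lo hi, ∃ t, ((Function.update y i t, i) : E d) ∈ T := by
    intro y hy
    by_contra hcon
    push Not at hcon
    have hmove := line_move (S := D) y i (lo i) (hi i) hi'.le (by
      intro t h1 h2 hb
      apply hcon t
      rw [← Finset.mem_coe, hT]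
      refine ⟨hb, hupd y hy t h1 h2.le, ?_⟩
      have e : Function.update y i t + ee i = Function.update y i (t + 1) := by
        funext j
        by_cases hj : j = i
        · subst hj; simp
        · simp [hj, ee_ne hj]
      show Function.update y i t + ee i ∈ rect lo hi
      rw [e]; exact hupd y hy _ (by omega) (by omega))
    have h1 : Function.update y i (hi i) ∈ D :=
      hF1D ⟨hupd y hy _ hi'.le le_rfl, by simp⟩
    exact (hDK (hmove.2 h1)).2 (hF0 _ (hupd y hy _ le_rfl hi'.le) (by simp))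
  set F : Finset (V d) :=
    Fintype.piFinset fun j => if j = i then {lo i} else Finset.Icc (lo j) (hi j) with hF
  have hFc : (F.card : ℤ) = ∏ j ∈ univ.erase i, (hi j - lo j + 1) := by
    rw [hF, Fintype.card_piFinset, ← Finset.mul_prod_erase univ _ (Finset.mem_univ i)]
    simp only [if_true, Finset.card_singleton, one_mul]
    push_cast
    refine Finset.prod_congr rfl fun j hj => ?_
    rw [if_neg (Finset.ne_of_mem_erase hj), Int.card_Icc]
    have := hlh j
    omega
  rw [← hFc]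
  have hle : F.card ≤ T.card := by
    refine le_trans (Finset.card_le_card ?_)
      (Finset.card_image_le (s := T) (f := fun a : E d => Function.update a.1 i (lo i)))
    intro y hy
    rw [hF, Fintype.mem_piFinset] at hy
    have hyi : y i = lo i := by simpa using hy i
    have hyR : y ∈ rect lo hi := by
      intro j
      by_cases hj : j = i
      · subst hj; rw [hyi]; exact ⟨le_rfl, hlh j⟩
      · simpa [hj] using hy j
    obtain ⟨t, ht⟩ := hline y hyR
    refine Finset.mem_image.2 ⟨_, ht, ?_⟩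
    simp only [Function.update_idem]
    rw [← hyi]; exact Function.update_eq_self i y
  exact_mod_cast hle

/-- The base points of a star-connected set lie in a small cube. -/
lemma coarse_star_diam {T : Finset (E d)} (hT : StarConn (T : Set (E d))) {a b : E d}
    (ha : a ∈ T) (hb : b ∈ T) (j : Fin d) : b.1 j - a.1 j + 1 ≤ T.card := by
  have h : ∀ t : ℤ, a.1 j ≤ t → t ≤ b.1 j → ∃ c ∈ T, c.1 j = t := by
    intro t h1 h2
    by_contra hcon
    push Not at hcon
    have hat := hcon a ha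
    have hall := hT {c | c ∈ T ∧ c.1 j < t} (fun c hc => hc.1) (by
      intro c hc c' hc' hn
      refine ⟨hc', ?_⟩
      have h3 := hn j
      have h4 := hcon c' hc'
      have h5 := hc.2
      rw [abs_le] at h3
      omega) ⟨a, ha, by omega⟩
    have hb' : b ∈ {c : E d | c ∈ T ∧ c.1 j < t} := by rw [hall]; exact hb
    have := hb'.2
    omega
  have h1 : Finset.Icc (a.1 j) (b.1 j) ⊆ T.image fun c => c.1 j := by
    intro t ht
    rw [Finset.mem_Icc] at ht
    obtain ⟨c, hc, hc'⟩ := h t ht.1 ht.2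
    exact Finset.mem_image.2 ⟨c, hc, hc'⟩
  have h2 := (Finset.card_le_card h1).trans Finset.card_image_le
  rw [Int.card_Icc] at h2
  omega

lemma coarse_star_cube {T : Finset (E d)} (hT : StarConn (T : Set (E d))) :
    ∃ m : V d, ∀ a ∈ T, ∀ j, m j ≤ a.1 j ∧ a.1 j < m j + T.card := by
  rcases T.eq_empty_or_nonempty with h | h
  · exact ⟨0, by simp [h]⟩
  have hm : ∀ j, ∃ a ∈ T, ∀ b ∈ T, a.1 j ≤ b.1 j := fun j => T.exists_min_image (fun c => c.1 j) h
  choose f hf1 hf2 using hm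
  refine ⟨fun j => (f j).1 j, fun a ha j => ⟨hf2 j a ha, ?_⟩⟩
  have := coarse_star_diam hT (hf1 j) ha j
  show a.1 j < (f j).1 j + T.card
  omega

/-- A set whose boundary in the product lies in a small cube is constant off the cube. -/
lemma coarse_colour (hd : 2 ≤ d) {lo hi m : V d} {n : ℕ} (hlh : ∀ j, lo j + n ≤ hi j)
    {D : Set (V d)}
    (hD : ∀ a ∈ bd D ∩ ins (rect lo hi), ∀ j, m j ≤ a.1 j ∧ a.1 j < m j + n)
    {x y : V d} (hx : x ∈ rect lo hi) (hy : y ∈ rect lo hi) {j k : Fin d}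
    (hj : ¬ (m j ≤ x j ∧ x j < m j + n)) (hk : ¬ (m k ≤ y k ∧ y k < m k + n)) :
    x ∈ D ↔ y ∈ D := by
  have slice : ∀ (j : Fin d) (x y : V d), x ∈ rect lo hi → y ∈ rect lo hi → y j = x j →
      ¬ (m j ≤ x j ∧ x j < m j + n) → (x ∈ D ↔ y ∈ D) := by
    intro j x y hx hy hxy hj
    refine coarse_conn_slice lo hi j (x j) D ?_ x ⟨hx, rfl⟩ y ⟨hy, hxy⟩
    rw [Set.disjoint_left]
    intro a ha hb
    have := hD a ⟨ha, hb.1.1, hb.2.1⟩ j
    rw [hb.1.2] at this
    exact hj this
  have hupd : ∀ y ∈ rect lo hi, ∀ (i : Fin d) t, lo i ≤ t → t ≤ hi i →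
      Function.update y i t ∈ rect lo hi := by
    intro y hy i t h1 h2 j
    by_cases hj : j = i
    · subst hj; simp [h1, h2]
    · simpa [hj] using hy j
  have two : ∀ (j k : Fin d) (x y : V d), j ≠ k → x ∈ rect lo hi → y ∈ rect lo hi →
      ¬ (m j ≤ x j ∧ x j < m j + n) → ¬ (m k ≤ y k ∧ y k < m k + n) → (x ∈ D ↔ y ∈ D) := by
    intro j k x y hjk hx hy hj hk
    have hw := hupd x hx k (y k) (hy k).1 (hy k).2
    exact (slice j x _ hx hw (by simp [hjk]) hj).trans (slice k y _ hy hw (by simp) hk).symm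
  by_cases hjk : j = k
  · subst hjk
    have : Nontrivial (Fin d) := Fin.nontrivial_iff_two_le.2 hd
    obtain ⟨l, hl⟩ := exists_ne j
    obtain ⟨w, hw1, hw2, hw3⟩ : ∃ w, lo l ≤ w ∧ w ≤ hi l ∧ ¬ (m l ≤ w ∧ w < m l + n) := by
      have := hlh l
      by_cases h : lo l < m l
      · exact ⟨lo l, le_rfl, by omega, by omega⟩
      · exact ⟨hi l, by omega, le_rfl, by omega⟩
    have hz := hupd x hx l w hw1 hw2
    have hz' : ¬ (m l ≤ Function.update x l w l ∧ Function.update x l w l < m l + n) := by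
      simpa using hw3
    exact (two j l x _ hl.symm hx hz hj hz').trans (two j l y _ hl.symm hy hz hk hz').symm
  · exact two j k x y hjk hx hy hj hk

/-- If every large star-connected set contains an open edge, then any two long connected sets
are joined by a nontrivial open cluster. -/
theorem giant (hd : 2 ≤ d) {lo hi : V d} {τ : ℕ} (hτ : 1 ≤ τ) (hlh : ∀ j, lo j + 2 * τ ≤ hi j)
    {O : Set (E d)}
    (hO : ∀ T : Finset (E d), (T : Set (E d)) ⊆ ins (rect lo hi) → StarConn (T : Set (E d)) →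
      τ ≤ T.card → ¬ Disjoint (T : Set (E d)) O)
    {Γ Γ' : Set (V d)} (hΓ : Γ ⊆ rect lo hi) (hΓ' : Γ' ⊆ rect lo hi) (hc : Conn Γ) (hc' : Conn Γ')
    (hl : ∃ a ∈ Γ, ∃ b ∈ Γ, τ + 1 ≤ nd a b) (hl' : ∃ a ∈ Γ', ∃ b ∈ Γ', τ + 1 ≤ nd a b) :
    ∃ a ∈ Γ, ∃ a' ∈ Γ', a' ∈ comp (O ∩ ins (rect lo hi)) a ∧
      ∃ b, adj (O ∩ ins (rect lo hi)) a b := by
  have hlh' : ∀ j, lo j ≤ hi j := fun j => by have := hlh j; omega
  have : Nontrivial (Fin d) := Fin.nontrivial_iff_two_le.2 hd
  set i : Fin d := ⟨0, by omega⟩ with hi0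
  have hii : lo i < hi i := by have := hlh i; omega
  obtain ⟨a, ha, b, hb, hai, hbi, hab⟩ : ∃ a ∈ rect lo hi, ∃ b ∈ rect lo hi, a i = lo i ∧
      b i = hi i ∧ b ∈ comp (O ∩ ins (rect lo hi)) a := by
    rcases cross_or_cut hlh' i hii O with h | ⟨T, h1, h2, h3, h4⟩
    · exact h
    · exfalso
      refine hO T h1 h2 ?_ h3
      obtain ⟨l, hl⟩ := exists_ne i
      have hmem : l ∈ (univ : Finset (Fin d)).erase i := Finset.mem_erase.2 ⟨hl, mem_univ l⟩
      rw [← Finset.mul_prod_erase _ _ hmem] at h4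
      have h5 : (1 : ℤ) ≤ ∏ j ∈ ((univ : Finset (Fin d)).erase i).erase l, (hi j - lo j + 1) :=
        Finset.prod_induction _ (fun t : ℤ => 1 ≤ t) (fun _ _ h h' => one_le_mul_of_one_le_of_one_le h h')
          le_rfl fun j _ => by have := hlh' j; omega
      have h6 := hlh l
      have h7 : hi l - lo l + 1 ≤
          (hi l - lo l + 1) * ∏ j ∈ ((univ : Finset (Fin d)).erase i).erase l, (hi j - lo j + 1) :=
        le_mul_of_one_le_right (by omega) h5
      omega
  set K := comp (O ∩ ins (rect lo hi)) a with hK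
  have hKR : K ⊆ rect lo hi := coarse_comp_subset O ha
  have meet : ∀ Γ : Set (V d), Γ ⊆ rect lo hi → Conn Γ → (∃ a ∈ Γ, ∃ b ∈ Γ, τ + 1 ≤ nd a b) →
      ∃ g ∈ Γ, g ∈ K := by
    rintro Γ hΓ hc ⟨g, hg, g', hg', hgg⟩
    by_contra hcon
    push Not at hcon
    have hz : g ∈ rect lo hi \ K := ⟨hΓ hg, hcon g hg⟩
    obtain ⟨T, hT, hstar, hdis⟩ := coarse_cut hlh' hKR (conn_comp _ _) (mem_comp_self _ _)
      (disjoint_bd_comp _ _) hz
    set D := comp (ins (rect lo hi \ K)) g with hD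
    have hDK : D ⊆ rect lo hi \ K := comp_ins_subset hz
    have hΓD : Γ ⊆ D :=
      subset_comp_of_conn hc (fun w hw => (⟨hΓ hw, hcon w hw⟩ : w ∈ rect lo hi \ K)) hg
        (mem_comp_self _ _)
    have hcard : T.card < τ := by
      by_contra hn
      exact hO T (by rw [hT]; exact Set.inter_subset_right) hstar (by omega) hdis
    obtain ⟨m, hm⟩ := coarse_star_cube hstar
    have hDm : ∀ e ∈ bd D ∩ ins (rect lo hi), ∀ j, m j ≤ e.1 j ∧ e.1 j < m j + T.card := by
      intro e he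
      rw [← hT] at he
      exact hm e he
    obtain ⟨x, hx, j, hj⟩ : ∃ x ∈ Γ, ∃ j, ¬ (m j ≤ x j ∧ x j < m j + T.card) := by
      obtain ⟨j, hj⟩ := exists_nd_eq (by omega) g g'
      by_cases h : m j ≤ g j ∧ g j < m j + T.card
      · refine ⟨g', hg', j, fun h' => ?_⟩
        have : |g' j - g j| ≤ (τ : ℤ) := by rw [abs_le]; omega
        omega
      · exact ⟨g, hg, j, h⟩
    obtain ⟨y, hy, hk⟩ : ∃ y ∈ K, ¬ (m i ≤ y i ∧ y i < m i + T.card) := by
      have := hlh i
      by_cases h : m i ≤ a i ∧ a i < m i + T.card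
      · exact ⟨b, hab, by omega⟩
      · exact ⟨a, mem_comp_self _ _, h⟩
    have hcol := coarse_colour hd (n := T.card) (fun j => by have := hlh j; omega) hDm
      (hΓ hx) (hKR hy) hj hk
    exact (hDK (hcol.1 (hΓD hx))).2 hy
  obtain ⟨g, hg, hgK⟩ := meet Γ hΓ hc hl
  obtain ⟨g', hg', hgK'⟩ := meet Γ' hΓ' hc' hl'
  refine ⟨g, hg, g', hg', comp_trans (comp_symm hgK) hgK', ?_⟩
  have first : ∀ w ∈ comp (O ∩ ins (rect lo hi)) g, w = g ∨ ∃ b, adj (O ∩ ins (rect lo hi)) g b := by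
    intro w hw
    rcases Relation.ReflTransGen.cases_head hw with h | ⟨c, h, _⟩
    · exact Or.inl h.symm
    · exact Or.inr ⟨c, h⟩
  rcases first a (comp_symm hgK) with h1 | h1
  · rcases first b (comp_trans (comp_symm hgK) hab) with h2 | h2
    · exfalso
      rw [h1] at hai
      rw [h2] at hbi
      omega
    · exact h2
  · exact h1

end Pool.Agent.P.MP_b4265e_pr.R
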