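import Pool.Agent.P.MP_b4265e_pr.R.PShift
import Pool.Agent.P.MP_b4265e_pr.R.Avg

/-!
Concentration and variance bounds for sums of local variables.
-/

namespace Pool.Agent.P.MP_b4265e_pr.R

open Finset MeasureTheory ProbabilityTheory
open scoped Classical

variable {d : ℕ} {p : unitInterval}

/-- The residue class of a point modulo `2 R + 1`, represented in the box of radius `R`. -/
def concCls (R : ℕ) (y : V d) : V d := fun k => (y k + R) % (2 * R + 1) - R

lemma concCls_mem (R : ℕ) (y : V d) : concCls R y ∈ box (0 : V d) R := by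
  rw [mem_box]
  intro k
  have h1 : 0 ≤ (y k + R) % (2 * R + 1) := Int.emod_nonneg _ (by omega)
  have h2 : (y k + R) % (2 * R + 1) < 2 * R + 1 := Int.emod_lt_of_pos _ (by omega)
  simp only [concCls, Pi.zero_apply, sub_zero, abs_le]
  omega

lemma conc_far {R : ℕ} {y y' : V d} (h : concCls R y = concCls R y') (hne : y ≠ y') :
    R + R < nd y y' := by
  obtain ⟨k, hk⟩ := Function.ne_iff.1 hne
  have h1 : (y k + R) % (2 * R + 1) = (y' k + R) % (2 * R + 1) := by
    have := congrFun h k
    simp only [concCls] at this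
    omega
  have h2 : (2 * (R : ℤ) + 1) ∣ y' k - y k := by
    have := (Int.emod_emod_of_dvd (y k + R) (dvd_refl (2 * (R : ℤ) + 1)))
    have h3 : (2 * (R : ℤ) + 1) ∣ (y' k + R) - (y k + R) := Int.ModEq.dvd h1
    simpa using h3
  have h3 : 2 * (R : ℤ) + 1 ≤ |y' k - y k| :=
    Int.le_of_dvd (abs_pos.2 (sub_ne_zero.2 hk.symm)) ((dvd_abs _ _).2 h2)
  have h4 := abs_le_nd y y' k
  omega

lemma conc_card {R : ℕ} {c : V d} (hc : c ∈ box (0 : V d) R) (x : V d) (S : ℕ) :
    ((2 * S + 1) / (2 * R + 1)) ^ d ≤ ((box x S).filter fun y => concCls R y = c).card := by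
  set N : ℕ := (2 * S + 1) / (2 * R + 1) with hN
  have hq : (0 : ℤ) < 2 * R + 1 := by omega
  have hNq : (2 * (R : ℤ) + 1) * N ≤ 2 * S + 1 := by
    have := Nat.mul_div_le (2 * S + 1) (2 * R + 1)
    rw [← hN] at this
    exact_mod_cast this
  have hcard : (Fintype.piFinset fun _ : Fin d => range N).card = N ^ d := by
    simp [Fintype.card_piFinset]
  rw [← hcard]
  refine card_le_card_of_injOn
    (fun z k => x k - S + (c k - (x k - S)) % (2 * R + 1) + (2 * R + 1) * (z k : ℤ)) ?_ ?_
  · intro z hz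
    have hz' : ∀ k, z k < N := fun k => by
      have := Fintype.mem_piFinset.1 (mem_coe.1 hz) k
      simpa using this
    rw [mem_coe, mem_filter, mem_box]
    refine ⟨fun k => ?_, ?_⟩
    · have h1 : 0 ≤ (c k - (x k - S)) % (2 * R + 1) := Int.emod_nonneg _ hq.ne'
      have h2 : (c k - (x k - S)) % (2 * R + 1) < 2 * R + 1 := Int.emod_lt_of_pos _ hq
      have h3 : (z k : ℤ) + 1 ≤ N := by exact_mod_cast hz' k
      have h4 : (2 * (R : ℤ) + 1) * (z k + 1) ≤ (2 * (R : ℤ) + 1) * N :=
        mul_le_mul_of_nonneg_left h3 hq.le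
      have h5 : 0 ≤ (2 * (R : ℤ) + 1) * (z k : ℤ) := by positivity
      rw [abs_le]
      constructor <;> nlinarith
    · funext k
      have hck := mem_box.1 hc k
      simp only [Pi.zero_apply, sub_zero, abs_le] at hck
      have e1 : x k - S + (c k - (x k - S)) % (2 * R + 1) + (2 * R + 1) * (z k : ℤ) + R =
          (c k + R) + (2 * R + 1) * ((z k : ℤ) - (c k - (x k - S)) / (2 * R + 1)) := by
        have := Int.emod_add_mul_ediv (c k - (x k - S)) (2 * R + 1)
        linear_combination this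
      simp only [concCls]
      rw [e1, Int.add_mul_emod_self_left, Int.emod_eq_of_lt (by omega) (by omega)]
      ring
  · intro z _ z' _ h
    funext k
    have h1 := congrFun h k
    simp only [add_right_inj] at h1
    exact_mod_cast mul_left_cancel₀ hq.ne' h1

lemma conc_class {X : Set (E d) → ℝ} {R : ℕ} (hX : Dep (boxE (0 : V d) R) X) {B β γ : ℝ}
    (hB : 0 < B) (h0 : ∀ O, 0 ≤ X O) (h1 : ∀ O, X O ≤ B) (hβ : ∫ O, X O ∂μP d p ≤ β)
    (hγ : 0 < γ) (F : Finset (V d)) (hF : ∀ y ∈ F, ∀ y' ∈ F, y ≠ y' → R + R < nd y y') :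
    (μP d p).real {O | (β + γ) * F.card < ∑ y ∈ F, X (sh y O)} ≤
      Real.exp (-(2 * (γ / B) ^ 2 * (F.card : ℝ))) := by
  set m : ℝ := ∫ O, X O ∂μP d p with hm
  have hdep : ∀ y : F, Dep (boxE (0 + (y : V d)) R) fun O => X (sh y O) - m := by
    intro y O O' h
    have := hX.sh (y : V d) O O' h
    simp only at this ⊢
    rw [this]
  have hind : iIndepFun (fun (y : F) O => X (sh y O) - m) (μP d p) := by
    refine iIndepFun_of_dep hdep fun y y' hne => disjoint_boxE ?_
    rw [zero_add, zero_add]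
    exact hF y y.2 y' y'.2 fun h => hne (Subtype.ext h)
  have hsub : ∀ y ∈ (univ : Finset F), HasSubgaussianMGF (fun O => X (sh y O) - m)
      ((‖B - 0‖₊ / 2) ^ 2) (μP d p) := by
    intro y _
    have h := hasSubgaussianMGF_of_mem_Icc (μ := μP d p) (X := fun O => X (sh y O)) (a := 0)
      (b := B) (hX.sh (y : V d)).measurable.aemeasurable
      (ae_of_all _ fun O => ⟨h0 _, h1 _⟩)
    rwa [integral_sh] at h
  have hH := HasSubgaussianMGF.measure_sum_ge_le_of_iIndepFun hind hsub
    (ε := γ * F.card) (by positivity)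
  refine le_trans (measureReal_mono fun O hO => ?_) (hH.trans (le_of_eq ?_))
  · simp only [Set.mem_ofPred_eq] at hO ⊢
    rw [sum_coe_sort F fun y => X (sh y O) - m, sum_sub_distrib, sum_const, nsmul_eq_mul]
    have : (F.card : ℝ) * m ≤ F.card * β := mul_le_mul_of_nonneg_left hβ (Nat.cast_nonneg _)
    linarith
  · congr 1
    simp only [sum_const, card_univ, Fintype.card_coe, nsmul_eq_mul, sub_zero, NNReal.coe_mul,
      NNReal.coe_natCast, NNReal.coe_pow, NNReal.coe_div, coe_nnnorm, Real.norm_eq_abs,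
      abs_of_pos hB, NNReal.coe_ofNat]
    rcases Nat.eq_zero_or_pos F.card with h | h
    · simp [h]
    · have : (0 : ℝ) < F.card := by exact_mod_cast h
      field_simp

theorem conc {X : Set (E d) → ℝ} {R : ℕ} (hX : Dep (boxE (0 : V d) R) X) {B β γ : ℝ} (hB : 0 < B)
    (h0 : ∀ O, 0 ≤ X O) (h1 : ∀ O, X O ≤ B) (hβ : ∫ O, X O ∂μP d p ≤ β) (hγ : 0 < γ)
    (x : V d) (S : ℕ) :
    (μP d p).real {O | (β + γ) * vol d S < ∑ y ∈ box x S, X (sh y O)} ≤
      vol d R * Real.exp (-(2 * (γ / B) ^ 2 * (((2 * S + 1) / (2 * R + 1) : ℕ) : ℝ) ^ d)) := by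
  set F : V d → Finset (V d) := fun c => (box x S).filter fun y => concCls R y = c with hF
  have hsub : {O | (β + γ) * vol d S < ∑ y ∈ box x S, X (sh y O)} ⊆
      ⋃ c ∈ box (0 : V d) R, {O | (β + γ) * (F c).card < ∑ y ∈ F c, X (sh y O)} := by
    intro O hO
    simp only [Set.mem_ofPred_eq, Set.mem_iUnion, exists_prop] at hO ⊢
    by_contra hcon
    push Not at hcon
    have e1 : ∑ y ∈ box x S, X (sh y O) = ∑ c ∈ box (0 : V d) R, ∑ y ∈ F c, X (sh y O) :=
      (sum_fiberwise_of_maps_to (fun y _ => concCls_mem R y) _).symm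
    have e2 : vol d S = ∑ c ∈ box (0 : V d) R, ((F c).card : ℝ) := by
      rw [← card_box_vol x S, card_eq_sum_card_fiberwise (f := concCls R) (t := box (0 : V d) R)
        (fun y _ => mem_coe.2 (concCls_mem R y))]
      push_cast
      rfl
    rw [e1, e2, mul_sum] at hO
    exact absurd (sum_le_sum hcon) (not_le.2 hO)
  refine (measureReal_mono hsub (measure_ne_top _ _)).trans ((measureReal_biUnion_finset_le _ _).trans ?_)
  rw [← card_box_vol (0 : V d) R, ← nsmul_eq_mul]
  refine sum_le_card_nsmul _ _ _ fun c hc => ?_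
  refine (conc_class hX hB h0 h1 hβ hγ (F c) fun y hy y' hy' hne =>
    conc_far ((mem_filter.1 hy).2.trans (mem_filter.1 hy').2.symm) hne).trans ?_
  have h2 : (((2 * S + 1) / (2 * R + 1) : ℕ) : ℝ) ^ d ≤ (F c).card := by
    exact_mod_cast conc_card hc x S
  exact Real.exp_le_exp.2 (neg_le_neg (mul_le_mul_of_nonneg_left h2 (by positivity)))

theorem var_Av {Y : Set (E d) → ℝ} {R : ℕ} (hY : Dep (boxE (0 : V d) R) Y) {B : ℝ}
    (h1 : ∀ O, |Y O| ≤ B) (m : ℕ) :
    ∫ O, (Av m (fun y => Y (sh y O)) 0 - ∫ O', Y O' ∂μP d p) ^ 2 ∂μP d p ≤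
      4 * B ^ 2 * vol d (2 * R) / vol d m := by
  set μ0 : ℝ := ∫ O', Y O' ∂μP d p with hμ0
  set Z : V d → Set (E d) → ℝ := fun y O => Y (sh y O) - μ0 with hZ
  have hv := vol_pos d m
  have hμ0B : |μ0| ≤ B := by
    have := norm_integral_le_of_norm_le_const (μ := μP d p) (f := Y) (C := B)
      (ae_of_all _ fun O => h1 O)
    simpa using this
  have hZB : ∀ y O, |Z y O| ≤ 2 * B := fun y O =>
    (abs_sub _ _).trans (by linarith [h1 (sh y O)])
  have hdep : ∀ y, Dep (boxE (0 + y) R) (Z y) := by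
    intro y O O' h
    have := hY.sh y O O' h
    simp only [hZ] at this ⊢
    rw [this]
  have hZ0 : ∀ y, ∫ O, Z y O ∂μP d p = 0 := by
    intro y
    simp only [hZ]
    rw [integral_sub (hY.sh y).integrable (integrable_const _), integral_sh]
    simp [hμ0]
  have hint : ∀ y y', Integrable (fun O => Z y O * Z y' O) (μP d p) := by
    intro y y'
    have : Dep (boxE (0 + y) R ∪ boxE (0 + y') R) fun O => Z y O * Z y' O := by
      intro O O' h
      simp only
      rw [hdep y O O' (h.mono subset_union_left), hdep y' O O' (h.mono subset_union_right)]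
    exact this.integrable
  have hcov : ∀ y y', ∫ O, Z y O * Z y' O ∂μP d p ≤
      if y' ∈ box y (2 * R) then 4 * B ^ 2 else 0 := by
    intro y y'
    split_ifs with h
    · have := norm_integral_le_of_norm_le_const (μ := μP d p) (f := fun O => Z y O * Z y' O)
        (C := 4 * B ^ 2) (ae_of_all _ fun O => by
          rw [Real.norm_eq_abs, abs_mul]
          have := mul_le_mul (hZB y O) (hZB y' O) (abs_nonneg _)
            ((abs_nonneg _).trans (hZB y O))
          linarith)
      simp only [probReal_univ, mul_one, Real.norm_eq_abs] at this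
      exact (le_abs_self _).trans this
    · have hind : IndepFun (Z y) (Z y') (μP d p) := by
        refine (hdep y).indepFun (hdep y') (disjoint_boxE ?_)
        rw [zero_add, zero_add]
        rw [mem_box_nd] at h
        omega
      rw [hind.integral_fun_mul_eq_mul_integral (hdep y).measurable.aestronglyMeasurable
        (hdep y').measurable.aestronglyMeasurable, hZ0, zero_mul]
  have e1 : ∀ O, (Av m (fun y => Y (sh y O)) 0 - μ0) ^ 2 =
      (∑ y ∈ box (0 : V d) m, ∑ y' ∈ box (0 : V d) m, Z y O * Z y' O) / vol d m ^ 2 := by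
    intro O
    rw [← sum_mul_sum, ← sq, ← div_pow]
    congr 1
    simp only [Av, hZ]
    rw [sum_sub_distrib, sum_const, nsmul_eq_mul, card_box_vol]
    field_simp
  simp_rw [e1]
  rw [integral_div, integral_finsetSum _ fun y _ => integrable_finsetSum _ fun y' _ => hint y y']
  have hB2 : 0 ≤ 4 * B ^ 2 := by positivity
  have e2 : ∀ y ∈ box (0 : V d) m, ∫ O, ∑ y' ∈ box (0 : V d) m, Z y O * Z y' O ∂μP d p ≤
      4 * B ^ 2 * vol d (2 * R) := by
    intro y _
    rw [integral_finsetSum _ fun y' _ => hint y y']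
    refine (sum_le_sum fun y' _ => hcov y y').trans ?_
    rw [← sum_filter, sum_const, nsmul_eq_mul, mul_comm, ← card_box_vol y (2 * R)]
    refine mul_le_mul_of_nonneg_left ?_ hB2
    exact_mod_cast card_le_card fun z hz => (mem_filter.1 hz).2
  have e3 := sum_le_card_nsmul _ _ _ e2
  rw [nsmul_eq_mul, card_box_vol] at e3
  rw [div_le_div_iff₀ (by positivity) hv]
  nlinarith [mul_le_mul_of_nonneg_right e3 hv.le]

end Pool.Agent.P.MP_b4265e_pr.R
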