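import Pool.Agent.P.MP_b4265e_pr.R.CorAux

/-!
Existence of approximate correctors.
-/

namespace Pool.Agent.P.MP_b4265e_pr.R

open Finset MeasureTheory ProbabilityTheory
open scoped Classical

namespace CorAux

variable {d : ℕ} {p : unitInterval}

lemma exists_test {g : Set (E d) → ℝ} (hg : LocF g) (t : ℕ) (i : Fin d) (ρ : ℕ) {ε : ℝ}
    (hε : 0 < ε) : ∃ w : Set (E d) → V d → ℝ, (∀ y, LocF fun O => w O y) ∧
      (∀ O z, z ∉ box (0 : V d) ρ → w O z = 0) ∧
      ∀ O, defect (GLoc t O) (flx (GLoc t O) (fun y => g (sh y O)) i) 0 ρ - ε ≤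
        ∑ e ∈ boxE (0 : V d) (ρ + 1), (2 * (flx (GLoc t O) (fun y => g (sh y O)) i e *
          grad (w O) e) - wt (GLoc t O) e * grad (w O) e ^ 2) := by
  obtain ⟨r0, hr⟩ := hg
  have hex : ∀ O : Set (E d), ∃ w : V d → ℝ, (∀ z, z ∉ box (0 : V d) ρ → w z = 0) ∧
      defect (GLoc t O) (flx (GLoc t O) (fun y => g (sh y O)) i) 0 ρ - ε ≤
        ∑ e ∈ boxE (0 : V d) (ρ + 1), (2 * (flx (GLoc t O) (fun y => g (sh y O)) i e *
          grad w e) - wt (GLoc t O) e * grad w e ^ 2) := by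
    intro O
    obtain ⟨_, ⟨w, h1, rfl⟩, h2⟩ := exists_lt_of_lt_csSup
      (s := {a | ∃ w : V d → ℝ, (∀ z, z ∉ box (0 : V d) ρ → w z = 0) ∧
        a = ∑ e ∈ boxE (0 : V d) (ρ + 1), (2 * (flx (GLoc t O) (fun y => g (sh y O)) i e *
          grad w e) - wt (GLoc t O) e * grad w e ^ 2)})
      ⟨_, fun _ => 0, fun _ _ => rfl, rfl⟩ (sub_lt_self _ hε)
    exact ⟨w, h1, h2.le⟩
  choose w0 h1 h2 using hex
  refine ⟨fun O => w0 (O ∩ boxE (0 : V d) (ρ + t + r0 + 3)), fun y => ⟨ρ + t + r0 + 3,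
    fun O O' h => ?_⟩, fun O => h1 _, fun O => ?_⟩
  · simp only [inter_congr h Set.Subset.rfl]
  · have ha := agree_inter (boxE (0 : V d) (ρ + t + r0 + 3)) O
    have a1 := dep_defect t hr i 0 ρ _ _ ha
    simp only at a1
    rw [a1]
    refine (h2 _).trans (le_of_eq (sum_congr rfl fun e he => ?_))
    have he' := mem_box_nd.1 (mem_boxE'.1 he)
    have a2 := dep_flx t hr i e _ _ (ha.mono (boxE_subset (by omega)))
    have a3 := dep_gloc t e _ _ (ha.mono (boxE_subset (by omega)))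
    simp only at a2 a3
    simp only [a2, wt, a3]

lemma jensen_pt {ι : Type*} (I : Finset ι) (c : ι → ℝ) {a N : ℝ} (b : ℝ) (ha : 0 ≤ a) (hN : 0 < N)
    (hI : (I.card : ℝ) = N) :
    a * ((b - N⁻¹ * ∑ y ∈ I, c y) * (b - N⁻¹ * ∑ y ∈ I, c y)) ≤
      a * (b * b) - N⁻¹ * ∑ y ∈ I, (2 * (a * b * c y) - a * c y ^ 2) := by
  have h1 := sq_sum_le_card_mul_sum_sq (s := I) (f := c)
  rw [hI] at h1
  have h2 : N⁻¹ * (N⁻¹ * (∑ y ∈ I, c y) ^ 2) ≤ N⁻¹ * ∑ y ∈ I, c y ^ 2 := by
    refine mul_le_mul_of_nonneg_left ?_ (inv_nonneg.2 hN.le)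
    rw [inv_mul_le_iff₀ hN]
    exact h1
  have h3 := mul_le_mul_of_nonneg_left h2 ha
  rw [sum_sub_distrib, ← mul_sum, ← mul_sum, ← mul_sum]
  nlinarith

lemma defect_bound {g : Set (E d) → ℝ} (hg : LocF g) (t : ℕ) (i : Fin d) (ρ : ℕ) {ε : ℝ}
    (hε : 0 < ε) :
    ∫ O, defect (GLoc t O) (flx (GLoc t O) (fun y => g (sh y O)) i) 0 ρ ∂μP d p ≤
      vol d (ρ + 1) * (En p t (uv i) g - FF p (uv i)) + ε := by
  obtain ⟨w, hw, h1, h2⟩ := exists_test hg t i ρ hε
  have hN := vol_pos d (ρ + 1)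
  set N := vol d (ρ + 1) with hNdef
  let G : Set (E d) → ℝ := fun O => N⁻¹ * ∑ y ∈ box (0 : V d) ρ, w (sh (-y) O) y
  have hG : LocF G := (LocF.sum _ fun y _ => (hw y).sh (-y)).cmul _
  let F : E d → Set (E d) → ℝ := fun e O => 2 * (flx (GLoc t O) (fun y => g (sh y O)) i e *
    grad (w O) e) - wt (GLoc t O) e * grad (w O) e ^ 2
  have hgr : ∀ e, LocF fun O => grad (w O) e := fun e => (hw _).sub (hw _)
  have hF : ∀ e, LocF (F e) := fun e =>
    (((locF_flx hg t i e).mul (hgr e)).cmul 2).sub ((locF_wt t e).mul (hgr e).sq)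
  have e1 : ∀ j O, fld (uv i) (fun O => g O - G O) j O = fld (uv i) g j O -
      N⁻¹ * ∑ y ∈ box (0 : V d) (ρ + 1), grad (w (sh (-y) O)) (y, j) := by
    intro j O
    have a1 : ∑ y ∈ box (0 : V d) ρ, w (sh (-y) O) y =
        ∑ y ∈ box (0 : V d) (ρ + 1), w (sh (-y) O) y :=
      sum_subset (box_mono _ (Nat.le_succ _)) fun y _ hy => h1 _ y hy
    have a2 : ∑ y ∈ box (0 : V d) ρ, w (sh (-y) (sh (ee j) O)) y =
        ∑ y ∈ box (0 : V d) (ρ + 1), w (sh (-y) O) (y + ee j) := by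
      have b1 := sum_box_shift (0 - ee j) (ee j) ρ fun y => w (sh (-y) (sh (ee j) O)) y
      rw [sub_add_cancel] at b1
      rw [b1, ← sum_subset (s₁ := box (0 - ee j) ρ) (s₂ := box (0 : V d) (ρ + 1))
        (box_subset (by rw [nd_sub_ee]; omega))]
      · refine sum_congr rfl fun y _ => ?_
        rw [sh_sh]
        congr 2
        abel
      · intro y _ hy
        refine h1 _ _ fun h => hy ?_
        rw [mem_box_nd] at h ⊢
        rwa [← nd_add_right _ _ (ee j), sub_add_cancel]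
    simp only [fld, G, grad, a1, a2, sum_sub_distrib]
    ring
  have e2 : ∀ j y O, F (y, j) (sh (-y) O) =
      2 * (wt (GLoc t O) (0, j) * fld (uv i) g j O * grad (w (sh (-y) O)) (y, j)) -
        wt (GLoc t O) (0, j) * grad (w (sh (-y) O)) (y, j) ^ 2 := by
    intro j y O
    simp only [F, gloc_sh, wt_sh, add_neg_cancel]
    rw [← gloc_sh, flx_sh]
    simp only [add_neg_cancel, flx_zero]
  have e3 : ∀ j, ∫ O, wt (GLoc t O) (0, j) * (fld (uv i) (fun O => g O - G O) j O *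
      fld (uv i) (fun O => g O - G O) j O) ∂μP d p ≤
      ∫ O, wt (GLoc t O) (0, j) * (fld (uv i) g j O * fld (uv i) g j O) ∂μP d p -
        N⁻¹ * ∑ y ∈ box (0 : V d) (ρ + 1), ∫ O, F (y, j) O ∂μP d p := by
    intro j
    have a1 : ∑ y ∈ box (0 : V d) (ρ + 1), ∫ O, F (y, j) O ∂μP d p =
        ∫ O, ∑ y ∈ box (0 : V d) (ρ + 1), F (y, j) (sh (-y) O) ∂μP d p := by
      rw [integral_finsetSum _ fun y _ => ((hF _).sh (-y)).integrable]
      exact sum_congr rfl fun y _ => (integral_sh (-y) _).symm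
    have a2 : LocF fun O => N⁻¹ * ∑ y ∈ box (0 : V d) (ρ + 1), F (y, j) (sh (-y) O) :=
      (LocF.sum _ fun y _ => (hF _).sh (-y)).cmul _
    rw [a1, ← integral_const_mul, ← integral_sub (loc_ip hg hg t _ _ j).integrable a2.integrable]
    refine integral_mono (loc_ip (hg.sub hG) (hg.sub hG) t _ _ j).integrable
      ((loc_ip hg hg t _ _ j).sub a2).integrable fun O => ?_
    simp only [e1, e2]
    exact jensen_pt _ _ _ (wt_nn _ _) hN (card_box_vol _ _)
  have e4 : En p t (uv i) (fun O => g O - G O) ≤ En p t (uv i) g -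
      N⁻¹ * ∫ O, ∑ e ∈ boxE (0 : V d) (ρ + 1), F e O ∂μP d p := by
    rw [integral_finsetSum _ fun e _ => (hF e).integrable, sum_boxE, sum_comm, mul_sum]
    unfold En ip
    rw [← sum_sub_distrib]
    exact sum_le_sum fun j _ => e3 j
  have e5 := FF_le (p := p) (hg.sub hG) t (uv i)
  obtain ⟨r0, hr⟩ := id hg
  have hD := LocF.of_dep (dep_defect t hr i 0 ρ)
  have e6 : ∫ O, defect (GLoc t O) (flx (GLoc t O) (fun y => g (sh y O)) i) 0 ρ ∂μP d p - ε ≤
      ∫ O, ∑ e ∈ boxE (0 : V d) (ρ + 1), F e O ∂μP d p := by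
    have := integral_mono (μ := μP d p) (hD.sub (LocF.const ε)).integrable
      (LocF.sum (boxE (0 : V d) (ρ + 1)) fun e _ => hF e).integrable h2
    rw [integral_sub hD.integrable (integrable_const _)] at this
    simpa using this
  have e7 : N⁻¹ * ∫ O, ∑ e ∈ boxE (0 : V d) (ρ + 1), F e O ∂μP d p ≤
      En p t (uv i) g - FF p (uv i) := by linarith
  rw [inv_mul_le_iff₀ hN] at e7
  linarith

lemma flux_bound {g : Fin d → Set (E d) → ℝ} (hg : ∀ i, LocF (g i)) (t : ℕ) {σ η : ℝ}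
    (h0 : 0 < η) (h1 : η ≤ 1) (hσ : ∀ i : Fin d, FF p (uv i) = σ)
    (hE : ∀ i, En p t (uv i) (g i) ≤ σ + η ^ 2) (i j : Fin d) :
    |ip p t (uv i) (g i) (uv j) (fun _ => 0) - (if j = i then σ else 0)| ≤ 5 * η := by
  have lo : ∀ i, σ ≤ En p t (uv i) (g i) := fun i => hσ i ▸ FF_le (hg i) t _
  have s1 : σ ≤ 1 := hσ i ▸ (FF_le (LocF.const 0) 0 _).trans (en_uv_le 0 i)
  have q1 : η ^ 2 ≤ η := by nlinarith
  have a1 : |ip p t (uv i) (g i) (uv j) (g j) - (if j = i then σ else 0)| ≤ η ^ 2 := by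
    by_cases e : j = i
    · subst e
      have b1 := lo j
      have b2 := hE j
      simp only [if_true]
      unfold En at b1 b2
      rw [abs_le]
      constructor <;> nlinarith
    · obtain ⟨b1, b2⟩ := FF_pm (p := p) (Ne.symm e)
      have c1 := en_comb (p := p) (hg i) (hg j) t (uv i) (uv j) 1 1
      have c2 := en_comb (p := p) (hg i) (hg j) t (uv i) (uv j) 1 (-1)
      have d1 := FF_le (p := p) (((hg i).cmul 1).add ((hg j).cmul 1)) t
        (fun k => 1 * uv i k + 1 * uv j k)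
      have d2 := FF_le (p := p) (((hg i).cmul 1).add ((hg j).cmul (-1))) t
        (fun k => 1 * uv i k + -1 * uv j k)
      rw [c1] at d1
      rw [c2] at d2
      simp only [one_mul, neg_mul, ← sub_eq_add_neg] at d1 d2
      have := hE i
      have := hE j
      rw [hσ] at b1 b2
      simp only [e, if_false, sub_zero]
      rw [abs_le]
      constructor <;> linarith
  have a2 : En p t (fun _ => 0) (g j) ≤ 6 := by
    have c1 := en_comb (p := p) (hg j) (LocF.const 0) t (uv j) (uv j) 1 1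
    have c2 := en_comb (p := p) (hg j) (LocF.const 0) t (uv j) (uv j) 1 (-1)
    have c3 := en_nonneg (p := p) t (fun k => 1 * uv j k + 1 * uv j k)
      (fun O => 1 * g j O + 1 * 0)
    rw [c1] at c3
    simp only [one_mul, neg_mul, add_neg_cancel, mul_zero, add_zero] at c2
    have := en_uv_le (p := p) t j
    have := hE j
    rw [show (fun O => g j O) = g j from rfl] at c2
    linarith
  have a3 : ∀ τ : ℝ, 0 ≤ η ^ 2 + 2 * τ * ip p t (uv i) (g i) (fun _ => 0) (g j) + τ ^ 2 * 6 := by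
    intro τ
    have c1 := en_comb (p := p) (hg i) (hg j) t (uv i) (fun _ => 0) 1 τ
    have c2 := FF_le (p := p) (((hg i).cmul 1).add ((hg j).cmul τ)) t
      (fun k => 1 * uv i k + τ * 0)
    rw [c1] at c2
    simp only [one_mul, mul_zero, add_zero] at c2
    rw [show (fun k => uv i k) = uv i from rfl, hσ] at c2
    have := hE i
    have := mul_le_mul_of_nonneg_left a2 (sq_nonneg τ)
    linarith
  have a4 : |ip p t (uv i) (g i) (fun _ => 0) (g j)| ≤ 4 * η := by
    have b1 := a3 η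
    have b2 := a3 (-η)
    rw [abs_le]
    constructor
    · by_contra h
      nlinarith
    · by_contra h
      nlinarith
  rw [ip_split (hg i) (hg j)] at a1
  rw [abs_le] at a1 a4 ⊢
  constructor <;> linarith [a1.1, a1.2, a4.1, a4.2]

end CorAux

open CorAux in
theorem exists_cor {d : ℕ} (hd : 1 ≤ d) {p : unitInterval} {c : ℝ} (hc : 0 < c)
    (h : PIprob d p c) : ∃ σ : ℝ, 0 < σ ∧ Cor d p σ := by
  refine ⟨FF p (uv ⟨0, hd⟩), FF_pos hd hc h _, fun η hη => ?_⟩
  obtain ⟨η', h0, h1, h2⟩ : ∃ η' : ℝ, 0 < η' ∧ η' ≤ 1 ∧ 5 * η' ≤ η :=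
    ⟨min 1 (η / 5), by positivity, min_le_left _ _, by have := min_le_right 1 (η / 5); linarith⟩
  have hσ : ∀ i : Fin d, FF p (uv i) = FF p (uv ⟨0, hd⟩) := fun i => FF_uv _ _
  choose t g hg hE using fun i : Fin d => exists_near (p := p) (uv i) (pow_pos h0 2)
  choose r hr using id hg
  choose B hB using fun i => (hr i).exists_bound
  refine ⟨∑ i, B i, univ.sup r, univ.sup t, g,
    fun i => (hr i).mono (boxE_mono _ (le_sup (mem_univ i))), fun i O => ?_, fun s hs => ?_⟩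
  · exact (hB i O).trans (single_le_sum (fun j _ => (abs_nonneg _).trans (hB j O)) (mem_univ i))
  have hE' : ∀ i, En p s (uv i) (g i) ≤ FF p (uv ⟨0, hd⟩) + η' ^ 2 := fun i =>
    (en_anti (hg i) ((le_sup (mem_univ i)).trans hs) _).trans (hσ i ▸ hE i)
  refine ⟨fun i j => ?_, fun i ρ => ?_⟩
  · rw [← ip_uv]
    exact (flux_bound hg s h0 h1 hσ hE' i j).trans h2
  · refine (defect_bound (hg i) s i ρ (pow_pos h0 2)).trans ?_
    have a1 := one_le_vol d (ρ + 1)
    have a2 : En p s (uv i) (g i) - FF p (uv i) ≤ η' ^ 2 := by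
      rw [hσ]; linarith [hE' i]
    have a3 : 25 * η' ^ 2 ≤ η ^ 2 := by nlinarith
    have a4 := pow_pos h0 2
    nlinarith

end Pool.Agent.P.MP_b4265e_pr.R
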