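import Pool.Agent.P.MP_b4265e_pr.R.PShift

/-!
Signed permutations of the coordinates.
-/

namespace Pool.Agent.P.MP_b4265e_pr.R

open Finset MeasureTheory
open scoped Classical

variable {d : ℕ} {p : unitInterval}

/-- The signed permutation sending the unit vector `j` to `ε j` times the unit vector `π j`. -/
def sp (π : Equiv.Perm (Fin d)) (ε : Fin d → ℤˣ) (y : V d) : V d :=
  fun k => (ε (π.symm k) : ℤ) * y (π.symm k)

/-- The action on edges. -/
def spE (π : Equiv.Perm (Fin d)) (ε : Fin d → ℤˣ) (e : E d) : E d :=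
  (if ε e.2 = 1 then sp π ε e.1 else sp π ε e.1 - ee (π e.2), π e.2)

/-- The configuration seen through the symmetry. -/
def spO (π : Equiv.Perm (Fin d)) (ε : Fin d → ℤˣ) (O : Set (E d)) : Set (E d) := spE π ε ⁻¹' O

variable {π : Equiv.Perm (Fin d)} {ε : Fin d → ℤˣ}

lemma sp_add (a b : V d) : sp π ε (a + b) = sp π ε a + sp π ε b := by
  funext k; simp [sp, mul_add]
lemma sp_sub (a b : V d) : sp π ε (a - b) = sp π ε a - sp π ε b := by
  funext k; simp [sp, mul_sub]
lemma sp_zero : sp π ε (0 : V d) = 0 := by funext k; simp [sp]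
lemma sp_ee (j : Fin d) : sp π ε (ee j) = (ε j : ℤ) • ee (π j) := by
  funext k
  obtain ⟨k, rfl⟩ := π.surjective k
  by_cases h : k = j <;> simp [sp, ee_apply, h]
lemma sp_apply (y : V d) (j : Fin d) : sp π ε y (π j) = (ε j : ℤ) * y j := by simp [sp]
lemma sp_bijective : Function.Bijective (sp π ε) := by
  refine ⟨fun a b h => funext fun j => ?_, fun y => ⟨fun j => (ε j : ℤ) * y (π j), funext fun k => ?_⟩⟩
  · have := congrFun h (π j)
    rw [sp_apply, sp_apply] at this
    exact mul_left_cancel₀ (ε j).ne_zero this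
  · simp [sp, ← mul_assoc]
lemma spE_injective : Function.Injective (spE π ε) := by
  rintro ⟨a, i⟩ ⟨b, j⟩ h
  simp only [spE, Prod.mk.injEq] at h
  obtain rfl : i = j := π.injective h.2
  refine Prod.ext (sp_bijective (π := π) (ε := ε).1 ?_) rfl
  have h1 := h.1
  split_ifs at h1
  · exact h1
  · exact sub_left_injective h1
lemma nd_sp (a b : V d) : nd (sp π ε a) (sp π ε b) = nd a b := by
  have h : ∀ j, (sp π ε b (π j) - sp π ε a (π j)).natAbs = (b j - a j).natAbs := fun j => by
    rw [sp_apply, sp_apply, ← mul_sub, Int.natAbs_mul, Int.units_natAbs, one_mul]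
  unfold nd
  refine le_antisymm (Finset.sup_le fun k _ => ?_) (Finset.sup_le fun j _ => ?_)
  · obtain ⟨j, rfl⟩ := π.surjective k
    rw [h]
    exact Finset.le_sup (f := fun i => (b i - a i).natAbs) (mem_univ j)
  · rw [← h]
    exact Finset.le_sup (f := fun i => (sp π ε b i - sp π ε a i).natAbs) (mem_univ (π j))
lemma measurePreserving_spO : MeasurePreserving (spO π ε) (μP d p) (μP d p) :=
  measurePreserving_preimage spE_injective
lemma integral_spO {f : Set (E d) → ℝ} (hf : Measurable f) :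
    ∫ O, f (spO π ε O) ∂μP d p = ∫ O, f O ∂μP d p := by
  have h := measurePreserving_spO (π := π) (ε := ε) (p := p)
  rw [← integral_map h.measurable.aemeasurable hf.aestronglyMeasurable, h.map_eq]
lemma real_spO {f : Set (E d) → Prop} (hf : MeasurableSet {O | f O}) :
    (μP d p).real {O | f (spO π ε O)} = (μP d p).real {O | f O} :=
  congrArg ENNReal.toReal (measurePreserving_spO.measure_preimage hf.nullMeasurableSet)

lemma sym_fst_pos {e : E d} (h : ε e.2 = 1) :
    (spE π ε e).1 = sp π ε e.1 ∧ (spE π ε e).1 + ee (spE π ε e).2 = sp π ε (e.1 + ee e.2) := by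
  simp [spE, h, sp_add, sp_ee]

lemma sym_fst_neg {e : E d} (h : ε e.2 = -1) :
    (spE π ε e).1 = sp π ε (e.1 + ee e.2) ∧ (spE π ε e).1 + ee (spE π ε e).2 = sp π ε e.1 := by
  simp [spE, h, sp_add, sp_ee, sub_eq_add_neg]

/-- A symmetric property of the two endpoints is transported by `spE`. -/
lemma sym_ends (P : V d → Prop) (e : E d) :
    (P (spE π ε e).1 ∧ P ((spE π ε e).1 + ee (spE π ε e).2)) ↔
      (P (sp π ε e.1) ∧ P (sp π ε (e.1 + ee e.2))) := by
  rcases Int.units_eq_one_or (ε e.2) with h | h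
  · rw [(sym_fst_pos h).2, (sym_fst_pos h).1]
  · rw [(sym_fst_neg h).2, (sym_fst_neg h).1, and_comm]

lemma adj_spO {a b : V d} {O : Set (E d)} :
    adj (spO π ε O) a b ↔ adj O (sp π ε a) (sp π ε b) := by
  have inj := (sp_bijective (π := π) (ε := ε)).1
  have one : ∀ (a b : V d) (i : Fin d), b = a + ee i → (a, i) ∈ spO π ε O →
      adj O (sp π ε a) (sp π ε b) := by
    rintro a _ i rfl h
    rcases Int.units_eq_one_or (ε i) with h1 | h1
    · have := sym_fst_pos (π := π) (e := (a, i)) h1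
      refine ⟨π i, Or.inl ⟨by rw [← this.2, this.1]; rfl, ?_⟩⟩
      rw [← this.1]; exact h
    · have := sym_fst_neg (π := π) (e := (a, i)) h1
      refine ⟨π i, Or.inr ⟨by rw [← this.2, this.1]; rfl, ?_⟩⟩
      rw [← this.1]; exact h
  have two : ∀ (a b : V d) (i : Fin d), sp π ε b = sp π ε a + ee (π i) → (sp π ε a, π i) ∈ O →
      adj (spO π ε O) a b := by
    intro a b i h1 h2
    rcases Int.units_eq_one_or (ε i) with h | h
    · refine ⟨i, Or.inl ⟨inj (by rw [h1, sp_add, sp_ee, h]; simp), ?_⟩⟩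
      simpa [spO, spE, h] using h2
    · refine ⟨i, Or.inr ⟨inj (by rw [sp_add, sp_ee, h, h1]; simp), ?_⟩⟩
      simpa [spO, spE, h, h1] using h2
  constructor
  · rintro ⟨i, h | h⟩
    · exact one _ _ i h.1 h.2
    · exact adj_symm (one _ _ i h.1 h.2)
  · rintro ⟨k, h⟩
    obtain ⟨i, rfl⟩ := π.surjective k
    rcases h with h | h
    · exact two _ _ i h.1 h.2
    · exact adj_symm (two _ _ i h.1 h.2)
lemma comp_spO_ins {a b : V d} {S : Set (V d)} {O : Set (E d)} :
    b ∈ comp (spO π ε O ∩ ins (sp π ε ⁻¹' S)) a ↔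
      sp π ε b ∈ comp (O ∩ ins S) (sp π ε a) := by
  have : spO π ε O ∩ ins (sp π ε ⁻¹' S) = spO π ε (O ∩ ins S) := by
    ext e
    exact and_congr_right fun _ => (sym_ends (· ∈ S) e).symm
  rw [this]
  exact pshift_comp sp_bijective fun _ _ => adj_spO

lemma sym_mem_box {x y : V d} {r : ℕ} : sp π ε y ∈ box (sp π ε x) r ↔ y ∈ box x r := by
  rw [mem_box_nd, mem_box_nd, nd_sp]

lemma preimage_sp_box (x : V d) (r : ℕ) :
    sp π ε ⁻¹' (box (sp π ε x) r : Set (V d)) = box x r := by
  ext y; exact sym_mem_box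
lemma loc_spO {a : V d} {t : ℕ} {O : Set (E d)} :
    Loc (spO π ε O) t a ↔ Loc O t (sp π ε a) := by
  unfold Loc Arm
  rw [(sp_bijective (π := π) (ε := ε)).2.exists (p := fun w => w ∉ box (sp π ε a) t ∧ _)]
  refine exists_congr fun w => ?_
  rw [sym_mem_box, ← comp_spO_ins, preimage_sp_box]
lemma gloc_spO (t : ℕ) (O : Set (E d)) : GLoc t (spO π ε O) = spO π ε (GLoc t O) := by
  ext e
  simp only [GLoc, Set.mem_setOf_eq, loc_spO]
  exact and_congr_right fun _ => (sym_ends (Loc O t) e).symm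
lemma sh_spO (z : V d) (O : Set (E d)) : sh z (spO π ε O) = spO π ε (sh (sp π ε z) O) := by
  ext e
  simp only [sh, spO, spE, Set.mem_setOf_eq, Set.mem_preimage, sp_add]
  split_ifs
  · rfl
  · rw [add_sub_right_comm]
lemma Dep.spO {β : Type*} {r : ℕ} {f : Set (E d) → β} (h : Dep (boxE (0 : V d) r) f) :
    Dep (boxE (0 : V d) (r + 1)) fun O => f (R.spO π ε O) := fun _ _ H =>
  h _ _ fun e he => H (spE π ε e) (by
    rw [mem_boxE', mem_box_nd] at he ⊢
    rw [← sp_zero (π := π) (ε := ε)]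
    rcases Int.units_eq_one_or (ε e.2) with h1 | h1
    · rw [(sym_fst_pos h1).1, nd_sp]; omega
    · rw [(sym_fst_neg h1).1, nd_sp]
      have := nd_triangle 0 e.1 (e.1 + ee e.2)
      rw [nd_add_ee] at this; omega)

end Pool.Agent.P.MP_b4265e_pr.R
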