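import Pool.Agent.P.MP_b4265e_pr.R.Defect
import Pool.Agent.P.MP_b4265e_pr.R.Sym

/-!
The variational problem behind the approximate correctors.
-/

namespace Pool.Agent.P.MP_b4265e_pr.R.CorAux

open Finset MeasureTheory ProbabilityTheory
open scoped Classical

variable {d : ℕ} {p : unitInterval}

/-- A local function of the configuration. -/
def LocF (g : Set (E d) → ℝ) : Prop := ∃ r : ℕ, Dep (boxE (0 : V d) r) g

lemma LocF.of_dep {x : V d} {r : ℕ} {g : Set (E d) → ℝ} (h : Dep (boxE x r) g) : LocF g :=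
  ⟨nd 0 x + r, h.mono (boxE_subset le_rfl)⟩

lemma LocF.const (c : ℝ) : LocF (fun _ : Set (E d) => c) := ⟨0, fun _ _ _ => rfl⟩

lemma LocF.map₂ {f g : Set (E d) → ℝ} (hf : LocF f) (hg : LocF g) (F : ℝ → ℝ → ℝ) :
    LocF fun O => F (f O) (g O) := by
  obtain ⟨r, hr⟩ := hf
  obtain ⟨s, hs⟩ := hg
  refine ⟨max r s, fun O O' h => ?_⟩
  have h1 := hr O O' (h.mono (boxE_mono _ (le_max_left _ _)))
  have h2 := hs O O' (h.mono (boxE_mono _ (le_max_right _ _)))
  simp only [h1, h2]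

lemma LocF.add {f g : Set (E d) → ℝ} (hf : LocF f) (hg : LocF g) : LocF fun O => f O + g O :=
  hf.map₂ hg (· + ·)
lemma LocF.sub {f g : Set (E d) → ℝ} (hf : LocF f) (hg : LocF g) : LocF fun O => f O - g O :=
  hf.map₂ hg (· - ·)
lemma LocF.mul {f g : Set (E d) → ℝ} (hf : LocF f) (hg : LocF g) : LocF fun O => f O * g O :=
  hf.map₂ hg (· * ·)
lemma LocF.cmul {f : Set (E d) → ℝ} (hf : LocF f) (c : ℝ) : LocF fun O => c * f O :=
  (LocF.const c).mul hf
lemma LocF.sq {f : Set (E d) → ℝ} (hf : LocF f) : LocF fun O => f O ^ 2 :=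
  hf.map₂ hf fun a _ => a ^ 2

lemma LocF.sh {g : Set (E d) → ℝ} (hg : LocF g) (z : V d) : LocF fun O => g (sh z O) :=
  let ⟨_, hr⟩ := hg; LocF.of_dep (hr.sh z)

lemma LocF.spO {g : Set (E d) → ℝ} (hg : LocF g) (π : Equiv.Perm (Fin d)) (ε : Fin d → ℤˣ) :
    LocF fun O => g (spO π ε O) :=
  let ⟨_, hr⟩ := hg; ⟨_, hr.spO⟩

lemma LocF.sum {ι : Type*} (I : Finset ι) {F : ι → Set (E d) → ℝ} (h : ∀ i ∈ I, LocF (F i)) :
    LocF fun O => ∑ i ∈ I, F i O := by
  induction I using Finset.induction_on with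
  | empty => simpa using LocF.const 0
  | insert a s ha ih =>
    simp only [sum_insert ha]
    exact (h a (mem_insert_self _ _)).add (ih fun i hi => h i (mem_insert_of_mem hi))

lemma LocF.integrable {g : Set (E d) → ℝ} (hg : LocF g) : Integrable g (μP d p) :=
  let ⟨_, hr⟩ := hg; hr.integrable

lemma LocF.measurable {g : Set (E d) → ℝ} (hg : LocF g) : Measurable g :=
  let ⟨_, hr⟩ := hg; hr.measurable

lemma locF_wt (t : ℕ) (e : E d) : LocF fun O => wt (GLoc t O) e := by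
  refine LocF.of_dep (x := e.1) (r := t + 2) fun O O' h => ?_
  have := dep_gloc t e O O' h
  simp only at this
  simp only [wt, this]

/-- The gradient field of `ξ + g` at the origin. -/
def fld (ξ : Fin d → ℝ) (g : Set (E d) → ℝ) (j : Fin d) (O : Set (E d)) : ℝ :=
  ξ j + (g (sh (ee j) O) - g O)

lemma LocF.fld {g : Set (E d) → ℝ} (hg : LocF g) (ξ : Fin d → ℝ) (j : Fin d) :
    LocF (fld ξ g j) := (LocF.const _).add ((hg.sh _).sub hg)

/-- The bilinear form of the energy. -/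
noncomputable def ip (p : unitInterval) (t : ℕ) (ξ : Fin d → ℝ) (g : Set (E d) → ℝ)
    (ζ : Fin d → ℝ) (h : Set (E d) → ℝ) : ℝ :=
  ∑ j, ∫ O, wt (GLoc t O) (0, j) * (fld ξ g j O * fld ζ h j O) ∂μP d p

/-- The energy. -/
noncomputable def En (p : unitInterval) (t : ℕ) (ξ : Fin d → ℝ) (g : Set (E d) → ℝ) : ℝ :=
  ip p t ξ g ξ g

lemma wt_nn (G : Set (E d)) (e : E d) : 0 ≤ wt G e := by
  unfold wt; split_ifs <;> norm_num

lemma wt_le (G : Set (E d)) (e : E d) : wt G e ≤ 1 := by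
  unfold wt; split_ifs <;> norm_num

lemma wt_mul_self (G : Set (E d)) (e : E d) : wt G e * wt G e = wt G e := by
  unfold wt; split_ifs <;> norm_num

lemma en_nonneg (t : ℕ) (ξ : Fin d → ℝ) (g : Set (E d) → ℝ) : 0 ≤ En p t ξ g := by
  unfold En ip
  exact sum_nonneg fun _ _ => integral_nonneg fun _ => mul_nonneg (wt_nn _ _) (mul_self_nonneg _)

lemma loc_ip {g h : Set (E d) → ℝ} (hg : LocF g) (hh : LocF h) (t : ℕ) (ξ ζ : Fin d → ℝ)
    (j : Fin d) : LocF fun O => wt (GLoc t O) (0, j) * (fld ξ g j O * fld ζ h j O) :=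
  (locF_wt t _).mul ((hg.fld ξ j).mul (hh.fld ζ j))

lemma en_comb {g h : Set (E d) → ℝ} (hg : LocF g) (hh : LocF h) (t : ℕ) (ξ ζ : Fin d → ℝ)
    (a b : ℝ) : En p t (fun j => a * ξ j + b * ζ j) (fun O => a * g O + b * h O) =
      a ^ 2 * En p t ξ g + 2 * a * b * ip p t ξ g ζ h + b ^ 2 * En p t ζ h := by
  simp only [En, ip, mul_sum, ← sum_add_distrib]
  refine sum_congr rfl fun j _ => ?_
  rw [← integral_const_mul, ← integral_const_mul, ← integral_const_mul, ← integral_add,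
    ← integral_add]
  · refine integral_congr_ae (Filter.Eventually.of_forall fun O => ?_)
    simp only [fld]
    ring
  · exact (((loc_ip hg hg t ξ ξ j).cmul _).add ((loc_ip hg hh t ξ ζ j).cmul _)).integrable
  · exact ((loc_ip hh hh t ζ ζ j).cmul _).integrable
  · exact ((loc_ip hg hg t ξ ξ j).cmul _).integrable
  · exact ((loc_ip hg hh t ξ ζ j).cmul _).integrable

lemma ip_split {g h : Set (E d) → ℝ} (hg : LocF g) (hh : LocF h) (t : ℕ) (ξ ζ : Fin d → ℝ) :
    ip p t ξ g ζ h = ip p t ξ g ζ (fun _ => 0) + ip p t ξ g (fun _ => 0) h := by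
  simp only [ip, ← sum_add_distrib]
  refine sum_congr rfl fun j _ => ?_
  rw [← integral_add (loc_ip hg (LocF.const 0) t ξ ζ j).integrable
    (loc_ip hg hh t ξ _ j).integrable]
  refine integral_congr_ae (Filter.Eventually.of_forall fun O => ?_)
  simp only [fld]
  ring

lemma en_anti {g : Set (E d) → ℝ} (hg : LocF g) {t t' : ℕ} (h : t ≤ t') (ξ : Fin d → ℝ) :
    En p t' ξ g ≤ En p t ξ g := by
  unfold En ip
  refine sum_le_sum fun j _ => integral_mono (loc_ip hg hg _ ξ ξ j).integrable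
    (loc_ip hg hg _ ξ ξ j).integrable fun O => ?_
  refine mul_le_mul_of_nonneg_right ?_ (mul_self_nonneg _)
  unfold wt
  by_cases h1 : ((0 : V d), j) ∈ GLoc t' O
  · have h2 : ((0 : V d), j) ∈ GLoc t O := ⟨h1.1, h1.2.1.anti h, h1.2.2.anti h⟩
    simp [h1, h2]
  · simp only [h1, if_false]
    split_ifs <;> norm_num

/-- The unit vectors. -/
def uv (i : Fin d) (j : Fin d) : ℝ := if j = i then 1 else 0

lemma en_uv_le (t : ℕ) (i : Fin d) : En p t (uv i) (fun _ => 0) ≤ 1 := by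
  have : ∀ j, ∫ O, wt (GLoc t O) (0, j) * (fld (uv i) (fun _ => 0) j O *
      fld (uv i) (fun _ => 0) j O) ∂μP d p ≤ uv i j := by
    intro j
    have h1 : ∫ _O, uv i j ∂μP d p = uv i j := by simp
    rw [← h1]
    refine integral_mono (loc_ip (LocF.const 0) (LocF.const 0) t _ _ j).integrable
      (integrable_const _) fun O => ?_
    have := wt_le (GLoc t O) (0, j)
    simp only [fld, uv]
    split_ifs <;> simp [this]
  unfold En ip
  refine (sum_le_sum fun j _ => this j).trans ?_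
  simp [uv]

/-- The minimal energy. -/
noncomputable def FF (p : unitInterval) (ξ : Fin d → ℝ) : ℝ :=
  sInf {a | ∃ t g, LocF g ∧ a = En p t ξ g}

lemma FF_le {g : Set (E d) → ℝ} (hg : LocF g) (t : ℕ) (ξ : Fin d → ℝ) : FF p ξ ≤ En p t ξ g :=
  csInf_le ⟨0, by rintro _ ⟨t, g, _, rfl⟩; exact en_nonneg _ _ _⟩ ⟨t, g, hg, rfl⟩

lemma le_FF {ξ : Fin d → ℝ} {a : ℝ} (h : ∀ t g, LocF g → a ≤ En p t ξ g) : a ≤ FF p ξ :=
  le_csInf ⟨_, 0, _, LocF.const 0, rfl⟩ (by rintro _ ⟨t, g, hg, rfl⟩; exact h t g hg)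

lemma exists_near (ξ : Fin d → ℝ) {ε : ℝ} (hε : 0 < ε) :
    ∃ t g, LocF g ∧ En p t ξ g ≤ FF p ξ + ε := by
  obtain ⟨_, ⟨t, g, hg, rfl⟩, h⟩ := exists_lt_of_csInf_lt
    (s := {a | ∃ t g, LocF g ∧ a = En p t ξ g}) ⟨_, 0, _, LocF.const 0, rfl⟩
    (lt_add_of_pos_right _ hε)
  exact ⟨t, g, hg, h.le⟩

lemma FF_par (ξ ζ : Fin d → ℝ) : 2 * FF p ξ + 2 * FF p ζ ≤
    FF p (fun j => ξ j + ζ j) + FF p (fun j => ξ j - ζ j) := by
  refine le_of_forall_pos_le_add fun ε hε => ?_
  obtain ⟨t1, g1, h1, a1⟩ := exists_near (p := p) (fun j => ξ j + ζ j) (half_pos hε)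
  obtain ⟨t2, g2, h2, a2⟩ := exists_near (p := p) (fun j => ξ j - ζ j) (half_pos hε)
  have b1 := en_anti (p := p) h1 (le_max_left t1 t2) (fun j => ξ j + ζ j)
  have b2 := en_anti (p := p) h2 (le_max_right t1 t2) (fun j => ξ j - ζ j)
  have c1 := en_comb (p := p) h1 h2 (max t1 t2) (fun j => ξ j + ζ j) (fun j => ξ j - ζ j)
    (1 / 2) (1 / 2)
  have c2 := en_comb (p := p) h1 h2 (max t1 t2) (fun j => ξ j + ζ j) (fun j => ξ j - ζ j)
    (1 / 2) (-1 / 2)
  rw [show (fun j => 1 / 2 * (ξ j + ζ j) + 1 / 2 * (ξ j - ζ j)) = ξ by funext j; ring] at c1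
  rw [show (fun j => 1 / 2 * (ξ j + ζ j) + -1 / 2 * (ξ j - ζ j)) = ζ by funext j; ring] at c2
  have d1 := FF_le (p := p) ((h1.cmul (1 / 2)).add (h2.cmul (1 / 2))) (max t1 t2) ξ
  have d2 := FF_le (p := p) ((h1.cmul (1 / 2)).add (h2.cmul (-1 / 2))) (max t1 t2) ζ
  linarith

lemma wt_sh (G : Set (E d)) (z : V d) (e : E d) : wt (sh z G) e = wt G (e.1 + z, e.2) := rfl

lemma en_sym {g : Set (E d) → ℝ} (hg : LocF g) (t : ℕ) (π : Equiv.Perm (Fin d))
    (ε : Fin d → ℤˣ) {ξ ξ' : Fin d → ℝ} (hξ : ∀ j, ξ' (π j) = ((ε j : ℤ) : ℝ) * ξ j) :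
    En p t ξ' (fun O => g (spO π ε O)) = En p t ξ g := by
  unfold En ip
  rw [← Equiv.sum_comp π]
  refine sum_congr rfl fun j _ => ?_
  rw [← integral_spO (π := π) (ε := ε) (loc_ip hg hg t ξ ξ j).measurable]
  have hw : ∀ O, wt (GLoc t (spO π ε O)) (0, j) = wt (GLoc t O) (spE π ε (0, j)) := by
    intro O
    rw [gloc_spO]
    rfl
  rcases Int.units_eq_one_or (ε j) with h | h
  · refine integral_congr_ae (Filter.Eventually.of_forall fun O => ?_)
    have h1 : spE π ε (0, j) = (0, π j) := by simp [spE, h, sp_zero]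
    have h2 : sh (ee j) (spO π ε O) = spO π ε (sh (ee (π j)) O) := by
      rw [sh_spO, sp_ee, h]; simp
    simp only [hw, h1, fld, h2, hξ, h]
    simp
  · rw [← integral_sh (ee (π j)) (fun O => wt (GLoc t (spO π ε O)) (0, j) *
      (fld ξ g j (spO π ε O) * fld ξ g j (spO π ε O)))]
    refine integral_congr_ae (Filter.Eventually.of_forall fun O => ?_)
    have h0 : ε j ≠ 1 := by rw [h]; decide
    have h1 : spE π ε (0, j) = (- ee (π j), π j) := by simp [spE, h0, sp_zero]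
    have h2 : sh (ee j) (spO π ε (sh (ee (π j)) O)) = spO π ε O := by
      rw [sh_spO, sp_ee, h, sh_sh]; simp [sh_zero]
    simp only [hw, h1, fld, h2, hξ, h, gloc_sh, wt_sh]
    simp only [neg_add_cancel, Units.val_neg, Units.val_one, Int.cast_neg, Int.cast_one]
    ring

lemma FF_sym (π : Equiv.Perm (Fin d)) (ε : Fin d → ℤˣ) {ξ ξ' : Fin d → ℝ}
    (hξ : ∀ j, ξ' (π j) = ((ε j : ℤ) : ℝ) * ξ j) : FF p ξ' ≤ FF p ξ :=
  le_FF fun t _ hg => (FF_le (hg.spO π ε) t ξ').trans (en_sym hg t π ε hξ).le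

lemma FF_uv (i j : Fin d) : FF p (uv i) = FF p (uv j) := by
  have key : ∀ i j : Fin d, FF p (uv i) ≤ FF p (uv j) := by
    intro i j
    refine FF_sym (Equiv.swap i j) (fun _ => 1) fun k => ?_
    simp [uv, Equiv.swap_apply_eq_iff]
  exact le_antisymm (key i j) (key j i)

lemma FF_pm {i j : Fin d} (h : i ≠ j) :
    2 * FF p (uv i) ≤ FF p (fun k => uv i k + uv j k) ∧
      2 * FF p (uv i) ≤ FF p (fun k => uv i k - uv j k) := by
  have h1 := FF_par (p := p) (uv i) (uv j)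
  have h2 : FF p (fun k => uv i k + uv j k) ≤ FF p (fun k => uv i k - uv j k) := by
    refine FF_sym 1 (fun k => if k = j then -1 else 1) fun k => ?_
    by_cases e : k = j
    · simp [uv, e, h.symm]
    · simp [uv, e]
  have h3 : FF p (fun k => uv i k - uv j k) ≤ FF p (fun k => uv i k + uv j k) := by
    refine FF_sym 1 (fun k => if k = j then -1 else 1) fun k => ?_
    by_cases e : k = j
    · simp [uv, e, h.symm]
    · simp [uv, e]
  rw [FF_uv j i] at h1
  constructor <;> linarith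

lemma flx_zero (t : ℕ) (g : Set (E d) → ℝ) (i j : Fin d) (O : Set (E d)) :
    flx (GLoc t O) (fun y => g (sh y O)) i (0, j) = wt (GLoc t O) (0, j) * fld (uv i) g j O := by
  simp [flx, grad, fld, uv, sh_zero]

lemma ip_uv (t : ℕ) (g : Set (E d) → ℝ) (i j : Fin d) :
    ip p t (uv i) g (uv j) (fun _ => 0) =
      ∫ O, flx (GLoc t O) (fun y => g (sh y O)) i (0, j) ∂μP d p := by
  unfold ip
  rw [sum_eq_single j]
  · refine integral_congr_ae (Filter.Eventually.of_forall fun O => ?_)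
    simp only [flx_zero]
    simp [fld, uv]
  · intro k _ hk
    simp [fld, uv, hk]
  · simp

lemma locF_flx {g : Set (E d) → ℝ} (hg : LocF g) (t : ℕ) (i : Fin d) (e : E d) :
    LocF fun O => flx (GLoc t O) (fun y => g (sh y O)) i e :=
  let ⟨_, hr⟩ := hg; LocF.of_dep (dep_flx t hr i e)

lemma sum_flx_sq {g : Set (E d) → ℝ} (hg : LocF g) (t : ℕ) (i : Fin d) (R : ℕ) :
    ∫ O, ∑ e ∈ boxE (0 : V d) R, flx (GLoc t O) (fun y => g (sh y O)) i e ^ 2 ∂μP d p =
      vol d R * En p t (uv i) g := by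
  rw [integral_finsetSum _ fun e _ => (locF_flx hg t i e).sq.integrable, sum_boxE,
    ← card_box_vol (0 : V d) R, ← nsmul_eq_mul, ← sum_const]
  refine sum_congr rfl fun y _ => sum_congr rfl fun j _ => ?_
  rw [← integral_sh y fun O => wt (GLoc t O) (0, j) * (fld (uv i) g j O * fld (uv i) g j O)]
  refine integral_congr_ae (Filter.Eventually.of_forall fun O => ?_)
  have h1 := flx_sh t g i y O (0, j)
  simp only [zero_add] at h1
  simp only [← h1, flx_zero]
  rw [mul_pow, sq, wt_mul_self, sq]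

lemma cross_bound {c B : ℝ} {t : ℕ} (ht : 1 ≤ t) (hB : B ≤ t) {φ : V d → ℝ}
    (hφ : ∀ y, |φ y| ≤ B) (i : Fin d) {O : Set (E d)} (h : Cross c 0 i (10 * t) t O) :
    c * (t : ℝ) ^ (d - 1) * (6 * t) ≤ ∑ e ∈ boxE (0 : V d) (11 * t), |flx (GLoc t O) φ i e| := by
  let v : V d → ℝ := fun y => (y i : ℝ) + φ y
  have hv : ∀ e, flx (GLoc t O) φ i e = wt (GLoc t O) e * grad v e := by
    intro e
    simp only [flx, grad, v, Pi.add_apply, ee_apply]
    congr 1
    by_cases h : e.2 = i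
    · simp only [h, if_true]; push_cast; ring
    · simp only [h, Ne.symm h, if_false]; push_cast; ring
  have ht' : (1 : ℝ) ≤ t := by exact_mod_cast ht
  have h1 := coarea (cap (GLoc t O) (boxE (0 : V d) (11 * t))) (fun e => v e.1)
    (fun e => v (e.1 + ee e.2)) (α := 3 * t) (β := 9 * t) (N := c * (t : ℝ) ^ (d - 1))
    (by linarith) (by
      intro τ h1 h2
      by_contra hlt
      obtain ⟨y, _, y', _, a1, a2, a3⟩ := h _ (not_le.1 hlt).le
      simp only [Pi.zero_apply, zero_add] at a1 a2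
      have b1 : (y i : ℝ) ≤ 0 := by exact_mod_cast a1
      have b2 : (10 * t : ℝ) ≤ y' i := by exact_mod_cast a2
      obtain ⟨a, b, c1, c2, c3, c4⟩ := exists_bd_of_comp (S := {z | v z ≤ τ}) a3
        (by
          have := (abs_le.1 (hφ y)).2
          show (y i : ℝ) + φ y ≤ τ
          linarith)
        (by
          have := (abs_le.1 (hφ y')).1
          show ¬ (y' i : ℝ) + φ y' ≤ τ
          linarith)
      have c2' : v a ≤ τ := c2
      have c3' : τ < v b := not_le.1 c3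
      have d1 : a ∈ comp O y := comp_mono (fun e he => he.1.1.1) _ c1
      have d2 : b ∈ comp O y := comp_adj d1 (adj_mono (fun e he => he.1.1) c4)
      have d3 : (2 * t : ℝ) < b i := by
        have := (abs_le.1 (hφ b)).2
        simp only [v] at c3'
        linarith
      have d4 : 2 * (t : ℤ) < b i := by exact_mod_cast d3
      have d5 := abs_le_nd a b i
      rw [nd_of_adj c4] at d5
      have d6 := abs_le.1 d5
      have la : Loc O t a := loc_of_far (comp_symm d1) fun hy => by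
        have := abs_le.1 (mem_box.1 hy i)
        omega
      have lb : Loc O t b := loc_of_far (comp_symm d2) fun hy => by
        have := abs_le.1 (mem_box.1 hy i)
        omega
      have hcol : ∀ z ∈ col (0 : V d) i (10 * t) t, z ∈ box (0 : V d) (11 * t) := by
        intro z hz
        rw [mem_box]
        intro k
        obtain ⟨z1, z2, z3⟩ := hz
        simp only [Pi.zero_apply, sub_zero] at z1 z2 z3 ⊢
        by_cases e : k = i
        · rw [e, abs_le]; push_cast at z2 ⊢; omega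
        · have := z3 k e
          push_cast; omega
      obtain ⟨k, ⟨rfl, e1⟩ | ⟨rfl, e1⟩⟩ := c4
      · refine e1.1.2 (mem_coe.2 (mem_filter.2 ⟨mem_cap.2
          ⟨mem_boxE'.2 (hcol _ e1.2.1), e1.1.1, la, lb⟩, ?_, ?_⟩))
        · exact (min_le_left _ _).trans c2'
        · exact c3'.trans_le (le_max_right _ _)
      · refine e1.1.2 (mem_coe.2 (mem_filter.2 ⟨mem_cap.2
          ⟨mem_boxE'.2 (hcol _ e1.2.1), e1.1.1, lb, la⟩, ?_, ?_⟩))
        · exact (min_le_right _ _).trans c2'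
        · exact c3'.trans_le (le_max_left _ _))
  rw [sum_cap_eq_wt, show (9 * t - 3 * t : ℝ) = 6 * t by ring] at h1
  refine h1.trans (le_of_eq (sum_congr rfl fun e _ => ?_))
  rw [hv, abs_mul, abs_of_nonneg (wt_nn _ _)]
  rfl

lemma FF_pos (hd : 1 ≤ d) {c : ℝ} (hc : 0 < c) (h : PIprob d p c) (i : Fin d) :
    0 < FF p (uv i) := by
  have hd' : (0 : ℝ) < d := by exact_mod_cast hd
  refine lt_of_lt_of_le (b := 18 * c ^ 2 / (d * 23 ^ (2 * d))) (by positivity)
    (le_FF fun t g hg => ?_)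
  obtain ⟨t0, B', ρ, h0, h1, h2⟩ := h
  obtain ⟨r, hr⟩ := id hg
  obtain ⟨B, hB⟩ := hr.exists_bound
  have l1 := (tendsto_pow_const_mul_const_pow_of_abs_lt_one d
    (r := ρ) (by rwa [abs_of_pos h0])).const_mul (|B'| * 37 ^ d)
  rw [mul_zero] at l1
  obtain ⟨t1, l2⟩ := Filter.eventually_atTop.1 (l1.eventually (gt_mem_nhds one_half_pos))
  obtain ⟨s, s1, s2, s3, s4, s5⟩ : ∃ s : ℕ, t ≤ s ∧ t0 ≤ s ∧ t1 ≤ s ∧ 1 ≤ s ∧ B ≤ s := by
    refine ⟨t + t0 + t1 + 1 + ⌈B⌉₊, by omega, by omega, by omega, by omega, ?_⟩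
    refine (Nat.le_ceil B).trans ?_
    exact_mod_cast Nat.le_add_left _ _
  refine le_trans ?_ (en_anti hg s1 _)
  have hs : (1 : ℝ) ≤ s := by exact_mod_cast s4
  have v1 : vol d (10 * s + 8 * s) ≤ 37 ^ d * (s : ℝ) ^ d := by
    rw [vol, ← mul_pow]
    refine pow_le_pow_left₀ (by positivity) ?_ _
    push_cast; linarith
  have v2 : vol d (11 * s) ≤ 23 ^ d * (s : ℝ) ^ d := by
    rw [vol, ← mul_pow]
    refine pow_le_pow_left₀ (by positivity) ?_ _
    push_cast; linarith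
  have v3 := vol_pos d (11 * s)
  have p1 : (μP d p).real {O | ¬ PI c 0 (10 * s) s O} ≤ 1 / 2 := by
    refine (h2 s s2 0 (10 * s)).trans (le_trans ?_ (l2 s s3).le)
    have := vol_pos d (10 * s + 8 * s)
    calc B' * vol d (10 * s + 8 * s) * ρ ^ s ≤ |B'| * (37 ^ d * (s : ℝ) ^ d) * ρ ^ s := by
          gcongr
          exact le_abs_self _
      _ = _ := by ring
  let X : Set (E d) → ℝ := fun O =>
    ∑ e ∈ boxE (0 : V d) (11 * s), flx (GLoc s O) (fun y => g (sh y O)) i e ^ 2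
  have hX : LocF X := LocF.sum _ fun e _ => (locF_flx hg s i e).sq
  let K : ℝ := (6 * c * (s : ℝ) ^ d) ^ 2 / (d * vol d (11 * s))
  have p2 : {O | K ≤ X O}ᶜ ⊆ {O | ¬ PI c 0 (10 * s) s O} := by
    intro O hO hPI
    apply hO
    have a1 := cross_bound s4 s5 (φ := fun y => g (sh y O)) (fun y => hB _) i
      (hPI.2 0 (mem_box_self _ _) i (10 * s) (by omega) (by simp))
    have a2 := sq_sum_le_card_mul_sum_sq (s := boxE (0 : V d) (11 * s))
      (f := fun e => |flx (GLoc s O) (fun y => g (sh y O)) i e|)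
    simp only [sq_abs] at a2
    rw [card_boxE_vol] at a2
    have a3 : c * (s : ℝ) ^ (d - 1) * (6 * s) = 6 * c * (s : ℝ) ^ d := by
      obtain ⟨k, rfl⟩ : ∃ k, d = k + 1 := ⟨d - 1, by omega⟩
      simp only [Nat.add_sub_cancel]
      ring
    rw [a3] at a1
    show K ≤ X O
    rw [div_le_iff₀ (by positivity), mul_comm (X O)]
    exact (pow_le_pow_left₀ (by positivity) a1 2).trans a2
  have p3 : 1 / 2 ≤ (μP d p).real {O | K ≤ X O} := by
    have a1 := (measureReal_mono p2).trans p1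
    rw [probReal_compl_eq_one_sub (measurableSet_le measurable_const hX.measurable)] at a1
    linarith
  have p4 := mul_meas_ge_le_integral_of_nonneg (μ := μP d p) (f := X)
    (Filter.Eventually.of_forall fun O => sum_nonneg fun _ _ => sq_nonneg _) hX.integrable K
  rw [sum_flx_sq hg] at p4
  have hK : 0 ≤ K := by positivity
  have p5 : K / 2 ≤ vol d (11 * s) * En p s (uv i) g := by nlinarith
  have p6 := en_nonneg (p := p) s (uv i) g
  have p7 : 18 * c ^ 2 * ((s : ℝ) ^ d) ^ 2 ≤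
      d * (vol d (11 * s) * vol d (11 * s)) * En p s (uv i) g := by
    have : K / 2 = 18 * c ^ 2 * ((s : ℝ) ^ d) ^ 2 / (d * vol d (11 * s)) := by
      simp only [K]; ring
    rw [this, div_le_iff₀ (by positivity)] at p5
    linarith
  rw [div_le_iff₀ (by positivity)]
  have p8 : d * (vol d (11 * s) * vol d (11 * s)) * En p s (uv i) g ≤
      d * (23 ^ d * (s : ℝ) ^ d * (23 ^ d * (s : ℝ) ^ d)) * En p s (uv i) g := by gcongr
  have p9 : (0 : ℝ) < ((s : ℝ) ^ d) ^ 2 := by positivity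
  refine le_of_mul_le_mul_right ?_ p9
  calc _ ≤ _ := p7.trans p8
    _ = _ := by ring

end Pool.Agent.P.MP_b4265e_pr.R.CorAux
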