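import Pool.Agent.P.MP_b4265e_pr.R.Sep

/-!
Few points are screened.
-/

namespace Pool.Agent.P.MP_b4265e_pr.R

open Finset
open scoped Classical

lemma Count_sep (ρ : ℤ) (T : Finset ℤ) : ∃ I ⊆ T, (∀ a ∈ I, ∀ b ∈ I, a ≠ b → ρ ≤ |a - b|) ∧
    ∀ t ∈ T, ∃ a ∈ I, t = a ∨ |t - a| ≤ ρ := by
  induction T using Finset.induction_on with
  | empty => exact ⟨∅, subset_rfl, by simp, by simp⟩
  | insert t T _ ih =>
    obtain ⟨I, h1, h2, h3⟩ := ih
    by_cases h : ∃ a ∈ I, |t - a| ≤ ρ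
    · refine ⟨I, h1.trans (subset_insert _ _), h2, fun u hu => ?_⟩
      rcases mem_insert.1 hu with rfl | hu
      · obtain ⟨a, ha, h⟩ := h
        exact ⟨a, ha, Or.inr h⟩
      · exact h3 u hu
    · push Not at h
      refine ⟨insert t I, insert_subset_insert _ h1, fun a ha b hb hab => ?_, fun u hu => ?_⟩
      · rcases mem_insert.1 ha with ha | ha <;> rcases mem_insert.1 hb with hb | hb
        · exact absurd (ha.trans hb.symm) hab
        · rw [ha]; exact (h b hb).le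
        · rw [hb, abs_sub_comm]; exact (h a ha).le
        · exact h2 a ha b hb hab
      · rcases mem_insert.1 hu with rfl | hu
        · exact ⟨u, mem_insert_self _ _, Or.inl rfl⟩
        · obtain ⟨a, ha, h⟩ := h3 u hu
          exact ⟨a, mem_insert_of_mem ha, h⟩

lemma Count_step {d m B ρ n : ℕ} {S : Set (V d)} {z : V d}
    (h : ∀ (x : Fin m → V d) (c : Fin d), (∀ l, x l ∈ S ∧ x l ∈ box z (B * ρ)) →
      ¬ ∀ l l', l ≠ l' → ((B * ρ : ℕ) : ℤ) ≤ (B : ℕ) * |x l c - x l' c|)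
    (hn : ∀ a : V d, (cap S (box a ρ)).card ≤ n) :
    (cap S (box z (B * ρ))).card ≤ m ^ d * n := by
  choose I h1 h2 h3 using fun c : Fin d =>
    Count_sep ρ ((cap S (box z (B * ρ))).image fun y => y c)
  have hI : ∀ c, (I c).card ≤ m := fun c => by
    by_contra hc
    obtain ⟨J, hJ, hcard⟩ := exists_subset_card_eq (s := I c) (n := m) (by omega)
    let e := (J.equivFinOfCardEq hcard).symm
    have hx : ∀ l : Fin m, ∃ y ∈ cap S (box z (B * ρ)), y c = e l := fun l =>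
      mem_image.1 (h1 c (hJ (e l).2))
    choose x hx1 hx2 using hx
    refine h x c (fun l => ⟨(mem_filter.1 (hx1 l)).2, (mem_filter.1 (hx1 l)).1⟩) fun l l' hl => ?_
    rw [hx2, hx2]
    push_cast
    exact mul_le_mul_of_nonneg_left (h2 c _ (hJ (e l).2) _ (hJ (e l').2)
      fun he => hl (e.injective (Subtype.ext he))) (by positivity)
  have hsub : cap S (box z (B * ρ)) ⊆ (Fintype.piFinset I).biUnion fun a => cap S (box a ρ) :=
    fun y hy => by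
      choose a ha1 ha2 using fun c => h3 c (y c) (mem_image.2 ⟨y, hy, rfl⟩)
      refine mem_biUnion.2 ⟨a, Fintype.mem_piFinset.2 ha1, mem_filter.2 ⟨mem_box.2 fun c => ?_,
        (mem_filter.1 hy).2⟩⟩
      rcases ha2 c with h | h
      · rw [h, sub_self, abs_zero]; positivity
      · exact h
  refine (card_le_card hsub).trans ((card_biUnion_le_card_mul _ _ n fun a _ => hn a).trans
    (Nat.mul_le_mul_right _ ?_))
  rw [Fintype.card_piFinset]
  exact (prod_le_pow_card _ _ m fun c _ => hI c).trans (by simp)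

/-- A set without `m` points separated in one coordinate, at every scale, is small. -/
theorem cover_count {d m : ℕ} (hm : 1 ≤ m) (r0 : ℕ) (hr0 : 1 ≤ r0) : ∃ Bc : ℝ,
    ∀ S : Set (V d),
    (∀ r ≥ r0, ∀ (z : V d) (x : Fin m → V d) (c : Fin d), (∀ l, x l ∈ S ∧ x l ∈ box z r) →
      ¬ ∀ l l', l ≠ l' → (r : ℤ) ≤ (2 * m ^ (4 * d) : ℕ) * |x l c - x l' c|) →
    ∀ (z : V d) (R : ℕ), ((cap S (box z R)).card : ℝ) ^ 4 ≤ Bc * (R + 1) := by
  obtain ⟨B, hB⟩ : ∃ B : ℕ, B = 2 * m ^ (4 * d) := ⟨_, rfl⟩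
  rw [← hB]
  have hm' : 1 ≤ m ^ (4 * d) := Nat.one_le_pow _ _ hm
  have hB2 : 2 ≤ B := by omega
  refine ⟨((B * ((2 * r0 + 1) ^ d) ^ 4 : ℕ) : ℝ), fun S hS z R => ?_⟩
  have key : ∀ i : ℕ, ∀ a : V d,
      (cap S (box a (B ^ i * r0))).card ≤ (m ^ d) ^ i * (2 * r0 + 1) ^ d := fun i => by
    induction i with
    | zero =>
      intro a
      rw [pow_zero, pow_zero, one_mul, one_mul, ← card_box a]
      exact card_filter_le _ _
    | succ i ih =>
      intro a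
      have h1 := Nat.one_le_pow i B (by omega)
      have h2 : r0 ≤ B * (B ^ i * r0) := by
        calc r0 = 1 * (1 * r0) := by rw [one_mul, one_mul]
          _ ≤ B * (B ^ i * r0) := Nat.mul_le_mul (by omega) (Nat.mul_le_mul_right _ h1)
      have h3 := Count_step (B := B) (ρ := B ^ i * r0) (hS _ h2 a) ih
      rwa [← mul_assoc, ← mul_assoc, ← pow_succ', ← pow_succ'] at h3
  set i := Nat.log B (R + 1) with hi
  have h1 : R + 1 < B ^ (i + 1) := Nat.lt_pow_succ_log_self (by omega) _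
  have h2 : B ^ i ≤ R + 1 := Nat.pow_log_le_self _ (by omega)
  have h3 : (cap S (box z R)).card ≤ (m ^ d) ^ (i + 1) * (2 * r0 + 1) ^ d := by
    refine le_trans (card_le_card (filter_subset_filter _ (box_mono z ?_))) (key (i + 1) z)
    calc R ≤ B ^ (i + 1) * 1 := by omega
      _ ≤ B ^ (i + 1) * r0 := Nat.mul_le_mul_left _ hr0
  have h4 : ((m ^ d) ^ (i + 1)) ^ 4 ≤ B * (R + 1) := by
    calc ((m ^ d) ^ (i + 1)) ^ 4 = (m ^ (4 * d)) ^ (i + 1) := by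
          rw [← pow_mul, ← pow_mul, ← pow_mul]; congr 1; ring
      _ ≤ B ^ (i + 1) := Nat.pow_le_pow_left (by omega) _
      _ ≤ B * (R + 1) := by rw [pow_succ']; exact Nat.mul_le_mul_left _ h2
  have h5 : (cap S (box z R)).card ^ 4 ≤ B * ((2 * r0 + 1) ^ d) ^ 4 * (R + 1) := by
    refine (Nat.pow_le_pow_left h3 4).trans ?_
    rw [mul_pow, mul_right_comm]
    exact Nat.mul_le_mul_right _ h4
  exact_mod_cast h5

theorem count_scr {d : ℕ} (hd : 2 ≤ d) {θ K : ℝ} (hθ : 0 < θ) (hK : 0 < K) (R0 : ℕ) :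
    ∃ C0 : ℝ, ∀ C1 ≥ C0, ∃ A0 : ℕ, ∀ A ≥ A0, ∃ Λs δ0 : ℝ, 0 < Λs ∧ 0 < δ0 ∧
    ∀ δ : ℝ, 0 < δ → δ ≤ δ0 → ∃ L0 : ℕ, ∀ L ≥ L0, ∀ κ N : ℕ, 1 ≤ κ → ∃ Bc : ℝ,
    ∀ (O : Set (E d)) (z : V d) (R : ℕ),
      ((cap {x | Scr θ K δ (C1 * A) Λs L A κ N R0 x O} (box z R)).card : ℝ) ^ 4 ≤
        Bc * (R + 1) := by
  have hm : 1 ≤ (2 * R0 + 1) ^ d + 1 := by omega
  obtain ⟨C0, h⟩ := not_scr_sep hd hθ hK R0 (2 * ((2 * R0 + 1) ^ d + 1) ^ (4 * d))
    (by have := Nat.one_le_pow (4 * d) _ hm; omega)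
  refine ⟨C0, fun C1 hC1 => ?_⟩
  obtain ⟨A0, h⟩ := h C1 hC1
  refine ⟨A0, fun A hA => ?_⟩
  obtain ⟨Λs, δ0, h1, h2, h⟩ := h A hA
  refine ⟨Λs, δ0, h1, h2, fun δ hδ hδ0 => ?_⟩
  obtain ⟨L0, h⟩ := h δ hδ hδ0
  refine ⟨L0, fun L hL κ N hκ => ?_⟩
  obtain ⟨r0, hr0, h⟩ := h L hL κ N hκ
  obtain ⟨Bc, hBc⟩ := cover_count (d := d) hm r0 hr0
  exact ⟨Bc, fun O z R => hBc _ (fun r hr z x c hx => h O r hr z x c hx) z R⟩

end Pool.Agent.P.MP_b4265e_pr.R
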