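import Pool.Agent.P.MP_b4265e_pr.R.PBasic

/-!
Translations; measurability of the infinite clusters.
-/

namespace Pool.Agent.P.MP_b4265e_pr.R

open Finset MeasureTheory ProbabilityTheory Filter
open scoped Classical

variable {d : ℕ} {p : unitInterval}

/-! ### Translations -/

lemma sh_sh (a b : V d) (O : Set (E d)) : sh a (sh b O) = sh (a + b) O := by
  ext e; simp [sh, add_assoc]
lemma sh_zero (O : Set (E d)) : sh 0 O = O := by ext e; simp [sh]
lemma measurePreserving_sh (z : V d) : MeasurePreserving (sh z) (μP d p) (μP d p) :=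
  measurePreserving_preimage (σ := fun e : E d => (e.1 + z, e.2)) fun a b h => by
    simp only [Prod.mk.injEq, add_left_inj] at h
    exact Prod.ext h.1 h.2

/-- The translation as a measurable equivalence. -/
noncomputable def shEquiv (z : V d) : Set (E d) ≃ᵐ Set (E d) where
  toFun := sh z
  invFun := sh (-z)
  left_inv O := by rw [sh_sh, neg_add_cancel, sh_zero]
  right_inv O := by rw [sh_sh, add_neg_cancel, sh_zero]
  measurable_toFun := (measurePreserving_sh (p := 0) z).measurable
  measurable_invFun := (measurePreserving_sh (p := 0) (-z)).measurable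

lemma integral_sh (z : V d) (f : Set (E d) → ℝ) :
    ∫ O, f (sh z O) ∂μP d p = ∫ O, f O ∂μP d p :=
  MeasurePreserving.integral_comp' (f := shEquiv z) (measurePreserving_sh z) f
lemma real_sh (z : V d) (f : Set (E d) → Prop) :
    (μP d p).real {O | f (sh z O)} = (μP d p).real {O | f O} :=
  congrArg ENNReal.toReal
    (MeasurePreserving.measure_preimage_equiv (f := shEquiv z) (measurePreserving_sh z) {O | f O})

lemma pshift_mem_box {x y z : V d} {r : ℕ} : y + z ∈ box (x + z) r ↔ y ∈ box x r := by
  simp [mem_box]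

lemma Dep.sh {β : Type*} {x : V d} {r : ℕ} {f : Set (E d) → β} (h : Dep (boxE x r) f) (z : V d) :
    Dep (boxE (x + z) r) fun O => f (R.sh z O) := fun _ _ H =>
  h _ _ fun e he => H (e.1 + z, e.2) (by
    rw [mem_boxE] at he ⊢
    simpa using he)
lemma adj_sh {z a b : V d} {O : Set (E d)} : adj (sh z O) a b ↔ adj O (a + z) (b + z) := by
  refine exists_congr fun i => ?_
  simp only [sh, Set.mem_setOf_eq, add_right_comm _ z, add_left_inj]

/-- Transport of paths along a bijection of the sites. -/
lemma pshift_comp {O O' : Set (E d)} {f : V d → V d} (hf : Function.Bijective f)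
    (h : ∀ a b, adj O a b ↔ adj O' (f a) (f b)) {a b : V d} :
    b ∈ comp O a ↔ f b ∈ comp O' (f a) := by
  constructor
  · intro H
    induction H with
    | refl => exact mem_comp_self _ _
    | tail _ hbc ih => exact comp_adj ih ((h _ _).1 hbc)
  · have key : ∀ c, c ∈ comp O' (f a) → ∀ b, f b = c → b ∈ comp O a := by
      intro c H
      induction H with
      | refl => intro b hb; rw [hf.1 hb]; exact mem_comp_self _ _
      | @tail u v _ hbc ih =>
        intro b hb
        obtain ⟨w, rfl⟩ := hf.2 u
        exact comp_adj (ih w rfl) ((h _ _).2 (hb ▸ hbc))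
    exact fun H => key _ H b rfl

lemma comp_sh_ins_box {z a b x : V d} {r : ℕ} {O : Set (E d)} :
    b ∈ comp (sh z O ∩ ins (box x r : Set (V d))) a ↔
      b + z ∈ comp (O ∩ ins (box (x + z) r : Set (V d))) (a + z) := by
  have : sh z O ∩ ins (box x r : Set (V d)) = sh z (O ∩ ins (box (x + z) r : Set (V d))) := by
    ext e
    simp only [sh, ins, Set.mem_inter_iff, Set.mem_setOf_eq, Finset.mem_coe, add_right_comm _ z,
      pshift_mem_box]
  rw [this]
  exact pshift_comp (f := fun y => y + z) (Equiv.addRight z).bijective fun _ _ => adj_sh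
lemma arm_sh {z a x : V d} {r : ℕ} {O : Set (E d)} :
    Arm (sh z O) x r a ↔ Arm O (x + z) r (a + z) := by
  unfold Arm
  rw [(Equiv.addRight z).surjective.exists (p := fun w => w ∉ box (x + z) r ∧ _)]
  simp only [Equiv.coe_addRight, pshift_mem_box, comp_sh_ins_box]
lemma loc_sh {z a : V d} {t : ℕ} {O : Set (E d)} : Loc (sh z O) t a ↔ Loc O t (a + z) :=
  arm_sh
lemma goodN_sh {z x : V d} {n : ℕ} {O : Set (E d)} :
    GoodN n x (sh z O) ↔ GoodN n (x + z) O := by
  unfold GoodN
  refine and_congr ?_ ?_
  · rw [(Equiv.addRight z).surjective.exists (p := fun w => w ∈ box (x + z) n ∧ _)]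
    simp only [Equiv.coe_addRight, pshift_mem_box, arm_sh]
  · rw [(Equiv.addRight z).surjective.forall (p := fun w => w ∈ box (x + z) (2 * n) → _)]
    refine forall_congr' fun y => ?_
    rw [(Equiv.addRight z).surjective.forall (p := fun w => w ∈ box (x + z) (2 * n) → _)]
    simp only [Equiv.coe_addRight, pshift_mem_box, arm_sh, comp_sh_ins_box]
lemma gloc_sh (t : ℕ) (z : V d) (O : Set (E d)) : GLoc t (sh z O) = sh z (GLoc t O) := by
  ext e
  simp only [GLoc, Set.mem_setOf_eq, loc_sh, add_right_comm _ (ee e.2)]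
  rfl

/-! ### Measurability of the infinite clusters -/

lemma pshift_meas_mem (e : E d) : MeasurableSet {O : Set (E d) | e ∈ O} := measurableSet_mem e

lemma pshift_meas_adj (a b : V d) : MeasurableSet {O : Set (E d) | adj O a b} := by
  simp only [adj, Set.setOf_exists, Set.setOf_or, Set.setOf_and]
  exact MeasurableSet.iUnion fun i => ((MeasurableSet.const _).inter (pshift_meas_mem _)).union
    ((MeasurableSet.const _).inter (pshift_meas_mem _))

/-- Paths with a given number of steps. -/
def pshiftN (O : Set (E d)) (a : V d) : ℕ → V d → Prop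
  | 0, b => b = a
  | n + 1, b => ∃ c, pshiftN O a n c ∧ adj O c b

lemma measurableSet_comp (a b : V d) : MeasurableSet {O : Set (E d) | b ∈ comp O a} := by
  have h1 : ∀ n b, MeasurableSet {O : Set (E d) | pshiftN O a n b} := by
    intro n
    induction n with
    | zero => exact fun b => MeasurableSet.const _
    | succ n ih =>
      intro b
      simp only [pshiftN, Set.setOf_exists, Set.setOf_and]
      exact MeasurableSet.iUnion fun c => (ih c).inter (pshift_meas_adj c b)
  have h2 : {O : Set (E d) | b ∈ comp O a} = ⋃ n, {O | pshiftN O a n b} := by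
    ext O
    simp only [Set.mem_setOf_eq, Set.mem_iUnion]
    constructor
    · intro H
      induction H with
      | refl => exact ⟨0, rfl⟩
      | tail _ hbc ih => exact ih.elim fun n hn => ⟨n + 1, _, hn, hbc⟩
    · rintro ⟨n, hn⟩
      induction n generalizing b with
      | zero => rw [show b = a from hn]; exact mem_comp_self _ _
      | succ n ih => exact hn.elim fun c hc => comp_adj (ih c hc.1) hc.2
  rw [h2]
  exact MeasurableSet.iUnion fun n => h1 n b
lemma measurableSet_Cl (y : V d) : MeasurableSet {O : Set (E d) | y ∈ Cl O} := by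
  have : {O : Set (E d) | y ∈ Cl O} =
      ⋂ F : Finset (V d), ⋃ w : V d, {O | w ∉ F} ∩ {O | w ∈ comp O y} := by
    ext O
    simp only [Cl, Set.mem_setOf_eq, Set.mem_iInter, Set.mem_iUnion, Set.mem_inter_iff]
    constructor
    · intro H F
      obtain ⟨w, h1, h2⟩ := H.exists_notMem_finset F
      exact ⟨w, h2, h1⟩
    · intro H hf
      obtain ⟨w, h1, h2⟩ := H hf.toFinset
      exact h1 (hf.mem_toFinset.2 h2)
  rw [this]
  exact MeasurableSet.iInter fun F => MeasurableSet.iUnion fun w =>
    (MeasurableSet.const _).inter (measurableSet_comp y w)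
/-- Events that depend on finitely many edges and finitely many memberships in `Cl`. -/
lemma measurableSet_of_fin (S : Finset (V d)) (T : Finset (E d))
    (Φ : Set (E d) → Set (V d) → Prop)
    (h : ∀ G G' C C', (∀ e ∈ T, (e ∈ G ↔ e ∈ G')) → (∀ y ∈ S, (y ∈ C ↔ y ∈ C')) →
      Φ G C → Φ G' C') : MeasurableSet {O : Set (E d) | Φ (GC O) (Cl O)} := by
  have : {O : Set (E d) | Φ (GC O) (Cl O)} = ⋃ T' : Finset (E d), ⋃ S' : Finset (V d),
      {O | Φ T' S'} ∩ ((⋂ e ∈ T, {O | e ∈ GC O ↔ e ∈ T'}) ∩ ⋂ y ∈ S, {O | y ∈ Cl O ↔ y ∈ S'}) := by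
    ext O
    simp only [Set.mem_setOf_eq, Set.mem_iInter, Set.mem_iUnion, Set.mem_inter_iff]
    constructor
    · intro H
      have h1 : ∀ e ∈ T, (e ∈ GC O ↔ e ∈ cap (GC O) T) := fun e he => by simp [cap, he]
      have h2 : ∀ y ∈ S, (y ∈ Cl O ↔ y ∈ cap (Cl O) S) := fun y hy => by simp [cap, hy]
      exact ⟨cap (GC O) T, cap (Cl O) S, h _ _ _ _ h1 h2 H, h1, h2⟩
    · rintro ⟨T', S', H, h1, h2⟩
      exact h _ _ _ _ (fun e he => (h1 e he).symm) (fun y hy => (h2 y hy).symm) H
  rw [this]
  have key : ∀ (A : Set (Set (E d))) (q : Prop), MeasurableSet A →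
      MeasurableSet {O | O ∈ A ↔ q} := by
    intro A q hA
    by_cases hq : q
    · simpa [hq] using hA
    · simp only [hq, iff_false]; exact hA.compl
  refine MeasurableSet.iUnion fun T' => MeasurableSet.iUnion fun S' =>
    (MeasurableSet.const _).inter (MeasurableSet.inter ?_ ?_)
  · exact T.measurableSet_biInter fun e _ =>
      key _ _ ((pshift_meas_mem e).inter (measurableSet_Cl e.1))
  · exact S.measurableSet_biInter fun y _ => key _ _ (measurableSet_Cl y)

end Pool.Agent.P.MP_b4265e_pr.R
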