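import Pool.Agent.P.MP_b4265e_pr.R.Chg
import Pool.Agent.P.MP_b4265e_pr.R.PShift

/-!
Elementary properties of the fluxes and of their defect.
-/

namespace Pool.Agent.P.MP_b4265e_pr.R

open Finset
open scoped Classical

variable {d : ℕ} {G : Set (E d)}

lemma abs_flx_le {φ : V d → ℝ} {B : ℝ} (h : ∀ y, |φ y| ≤ B) (i : Fin d) (e : E d) :
    |flx G φ i e| ≤ 1 + 2 * B := by
  have h1 := abs_le.1 (h (e.1 + ee e.2))
  have h2 := abs_le.1 (h e.1)
  unfold flx wt grad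
  rw [abs_le]
  split_ifs <;> constructor <;> linarith [h1.1, h1.2, h2.1, h2.2]

lemma flx_of_not_mem (φ : V d → ℝ) (i : Fin d) {e : E d} (he : e ∉ G) : flx G φ i e = 0 := by
  simp [flx, wt, he]

lemma defect_term_le {q : E d → ℝ} (hq : ∀ e, e ∉ G → q e = 0) (w : V d → ℝ) (T : Finset (E d)) :
    ∑ e ∈ T, (2 * (q e * grad w e) - wt G e * grad w e ^ 2) ≤ ∑ e ∈ T, q e ^ 2 := by
  refine Finset.sum_le_sum fun e _ => ?_
  by_cases he : e ∈ G
  · simp only [wt, he, if_true]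
    nlinarith [sq_nonneg (q e - grad w e)]
  · simp [wt, he, hq e he]

lemma defect_bdd {q : E d → ℝ} (hq : ∀ e, e ∉ G → q e = 0) (y : V d) (ρ : ℕ) :
    BddAbove {a | ∃ w : V d → ℝ, (∀ z, z ∉ box y ρ → w z = 0) ∧
      a = ∑ e ∈ boxE y (ρ + 1), (2 * (q e * grad w e) - wt G e * grad w e ^ 2)} := by
  refine ⟨∑ e ∈ boxE y (ρ + 1), q e ^ 2, ?_⟩
  rintro a ⟨w, -, rfl⟩
  exact defect_term_le hq w _

lemma le_defect {q : E d → ℝ} (hq : ∀ e, e ∉ G → q e = 0) {y : V d} {ρ : ℕ} {w : V d → ℝ}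
    (hw : ∀ z, z ∉ box y ρ → w z = 0) :
    ∑ e ∈ boxE y (ρ + 1), (2 * (q e * grad w e) - wt G e * grad w e ^ 2) ≤ defect G q y ρ :=
  le_csSup (defect_bdd hq y ρ) ⟨w, hw, rfl⟩

lemma defect_nonneg {q : E d → ℝ} (hq : ∀ e, e ∉ G → q e = 0) (y : V d) (ρ : ℕ) :
    0 ≤ defect G q y ρ := by
  have h := le_defect hq (y := y) (ρ := ρ) (w := fun _ => 0) (fun _ _ => rfl)
  simpa [grad] using h

lemma defect_le {q : E d → ℝ} (hq : ∀ e, e ∉ G → q e = 0) {B : ℝ} (hB : ∀ e, |q e| ≤ B)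
    (y : V d) (ρ : ℕ) : defect G q y ρ ≤ B ^ 2 * (d * vol d (ρ + 1)) := by
  refine Real.sSup_le ?_ (mul_nonneg (sq_nonneg _)
    (mul_nonneg (Nat.cast_nonneg _) (vol_pos _ _).le))
  rintro a ⟨w, -, rfl⟩
  refine (defect_term_le hq w _).trans ?_
  rw [← card_boxE_vol y, mul_comm, ← nsmul_eq_mul]
  refine Finset.sum_le_card_nsmul _ _ _ fun e _ => ?_
  exact sq_le_sq' (abs_le.1 (hB e)).1 (abs_le.1 (hB e)).2

lemma abs_sum_le_defect {q : E d → ℝ} (hq : ∀ e, e ∉ G → q e = 0) {y : V d} {ρ : ℕ}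
    {w : V d → ℝ} (hw : ∀ z, z ∉ box y ρ → w z = 0) :
    |∑ e ∈ boxE y (ρ + 1), q e * grad w e| ≤ √(defect G q y ρ) * en G y (ρ + 1) w := by
  have key : ∀ t : ℝ, 0 ≤ en G y (ρ + 1) w ^ 2 * (t * t) +
      (-2 * ∑ e ∈ boxE y (ρ + 1), q e * grad w e) * t + defect G q y ρ := by
    intro t
    have h := le_defect hq (y := y) (ρ := ρ) (w := fun z => t * w z)
      (fun z hz => by simp [hw z hz])
    have e1 : ∑ e ∈ boxE y (ρ + 1), (2 * (q e * grad (fun z => t * w z) e) -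
        wt G e * grad (fun z => t * w z) e ^ 2) =
        2 * t * (∑ e ∈ boxE y (ρ + 1), q e * grad w e) - en G y (ρ + 1) w ^ 2 * (t * t) := by
      rw [en_sq, Finset.mul_sum, Finset.sum_mul, ← Finset.sum_sub_distrib]
      refine Finset.sum_congr rfl fun e _ => ?_
      simp only [grad]
      ring
    rw [e1] at h
    linarith
  have hd := discrim_le_zero key
  rw [discrim] at hd
  have h0 := defect_nonneg hq y ρ
  refine abs_le_of_sq_le_sq' ?_ (mul_nonneg (Real.sqrt_nonneg _) (en_nonneg _ _ _ _)) |> abs_le.2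
  rw [mul_pow, Real.sq_sqrt h0]
  nlinarith

lemma defect_congr {G' : Set (E d)} {q q' : E d → ℝ} {y : V d} {ρ : ℕ}
    (hG : ∀ e ∈ boxE y (ρ + 1), (e ∈ G ↔ e ∈ G')) (hq : ∀ e ∈ boxE y (ρ + 1), q e = q' e) :
    defect G q y ρ = defect G' q' y ρ := by
  have key : ∀ w : V d → ℝ,
      ∑ e ∈ boxE y (ρ + 1), (2 * (q e * grad w e) - wt G e * grad w e ^ 2) =
      ∑ e ∈ boxE y (ρ + 1), (2 * (q' e * grad w e) - wt G' e * grad w e ^ 2) := by
    intro w
    refine Finset.sum_congr rfl fun e he => ?_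
    simp only [wt, hG e he, hq e he]
  unfold defect
  simp only [key]

lemma defect_sum_shift (y : V d) (r : ℕ) (F : E d → ℝ) :
    ∑ e ∈ boxE y r, F e = ∑ e ∈ boxE (0 : V d) r, F (e.1 + y, e.2) := by
  rw [sum_boxE, sum_boxE]
  have h := sum_box_shift (0 : V d) y r fun z => ∑ i, F (z, i)
  rw [zero_add] at h
  exact h

lemma defect_mem_box_shift {y z : V d} {r : ℕ} : z + y ∈ box y r ↔ z ∈ box (0 : V d) r := by
  rw [mem_box_nd, mem_box_nd, ← nd_add_right 0 z y, zero_add]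

lemma defect_sh (G : Set (E d)) (q : E d → ℝ) (y : V d) (ρ : ℕ) :
    defect (sh y G) (fun e => q (e.1 + y, e.2)) 0 ρ = defect G q y ρ := by
  have key : ∀ w : V d → ℝ,
      ∑ e ∈ boxE y (ρ + 1), (2 * (q e * grad w e) - wt G e * grad w e ^ 2) =
      ∑ e ∈ boxE (0 : V d) (ρ + 1), (2 * (q (e.1 + y, e.2) * grad (fun z => w (z + y)) e) -
        wt (sh y G) e * grad (fun z => w (z + y)) e ^ 2) := by
    intro w
    rw [defect_sum_shift]
    refine Finset.sum_congr rfl fun e _ => ?_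
    have e1 : grad w (e.1 + y, e.2) = grad (fun z => w (z + y)) e := by
      simp only [grad]
      rw [add_right_comm]
    have e2 : wt G (e.1 + y, e.2) = wt (sh y G) e := rfl
    rw [e1, e2]
  unfold defect
  congr 1
  ext a
  constructor
  · rintro ⟨w, hw, rfl⟩
    refine ⟨fun z => w (z - y), fun z hz => hw _ fun h => hz ?_, ?_⟩
    · have h' := (defect_mem_box_shift (y := y)).2 h
      rwa [sub_add_cancel] at h'
    · rw [key]
      simp only [add_sub_cancel_right]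
  · rintro ⟨w, hw, rfl⟩
    exact ⟨fun z => w (z + y), fun z hz => hw _ fun h => hz (defect_mem_box_shift.1 h), key w⟩

lemma flx_sh (t : ℕ) (g : Set (E d) → ℝ) (i : Fin d) (z : V d) (O : Set (E d)) (e : E d) :
    flx (GLoc t (sh z O)) (fun y => g (sh y (sh z O))) i e =
      flx (GLoc t O) (fun y => g (sh y O)) i (e.1 + z, e.2) := by
  have e2 : wt (sh z (GLoc t O)) e = wt (GLoc t O) (e.1 + z, e.2) := rfl
  unfold flx
  rw [gloc_sh, e2]
  simp only [grad, sh_sh]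
  rw [add_right_comm e.1 z]

lemma dep_gloc (t : ℕ) (e : E d) : Dep (boxE e.1 (t + 2)) fun O => e ∈ GLoc t O := by
  intro O O' h
  have h0 : e ∈ O ↔ e ∈ O' := h e (mem_boxE'.2 (mem_box_self _ _))
  have h1 : Loc O t e.1 = Loc O' t e.1 :=
    dep_loc t e.1 O O' (h.mono (boxE_mono _ (by omega)))
  have h2 : Loc O t (e.1 + ee e.2) = Loc O' t (e.1 + ee e.2) :=
    dep_loc t _ O O' (h.mono (boxE_subset (by rw [nd_add_ee]; omega)))
  simp only [GLoc, Set.mem_ofPred_eq, h0, h1, h2]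

lemma dep_flx (t : ℕ) {g : Set (E d) → ℝ} {r0 : ℕ} (hg : Dep (boxE (0 : V d) r0) g) (i : Fin d)
    (e : E d) :
    Dep (boxE e.1 (t + r0 + 2)) fun O => flx (GLoc t O) (fun y => g (sh y O)) i e := by
  intro O O' h
  have h0 : (e ∈ GLoc t O) = (e ∈ GLoc t O') :=
    dep_gloc t e O O' (h.mono (boxE_mono _ (by omega)))
  have h1 : g (sh e.1 O) = g (sh e.1 O') :=
    hg.sh e.1 O O' (h.mono (boxE_subset (by rw [zero_add, nd_self]; omega)))
  have h2 : g (sh (e.1 + ee e.2) O) = g (sh (e.1 + ee e.2) O') :=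
    hg.sh _ O O' (h.mono (boxE_subset (by rw [zero_add, nd_add_ee]; omega)))
  simp only [flx, wt, grad, h0, h1, h2]

lemma dep_defect (t : ℕ) {g : Set (E d) → ℝ} {r0 : ℕ} (hg : Dep (boxE (0 : V d) r0) g)
    (i : Fin d) (y : V d) (ρ : ℕ) : Dep (boxE y (ρ + t + r0 + 3)) fun O =>
      defect (GLoc t O) (flx (GLoc t O) (fun y => g (sh y O)) i) y ρ := by
  intro O O' h
  refine defect_congr (fun e he => ?_) fun e he => ?_
  · have he' := mem_box_nd.1 (mem_boxE'.1 he)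
    exact Iff.of_eq (dep_gloc t e O O' (h.mono (boxE_subset (by omega))))
  · have he' := mem_box_nd.1 (mem_boxE'.1 he)
    exact dep_flx t hg i e O O' (h.mono (boxE_subset (by omega)))

end Pool.Agent.P.MP_b4265e_pr.R
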