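import Pool.Agent.P.MP_b4265e_pr.Prob

/-!
Definitions for the positive-density theorem on the supercritical cluster.
-/

namespace Pool.Agent.P.MP_b4265e_pr.R

open Finset MeasureTheory ProbabilityTheory Filter
open scoped Classical

variable {d : ℕ}

/-! ### Discrete analysis -/

/-- The elements of a finite set lying in `C`. -/
noncomputable def cap {α : Type*} (C : Set α) (S : Finset α) : Finset α := S.filter (· ∈ C)

/-- Euclidean norm over a finite set. -/
noncomputable def l2 {α : Type*} (S : Finset α) (f : α → ℝ) : ℝ := √(∑ a ∈ S, f a ^ 2)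

/-- Number of points of a box of radius `r`. -/
noncomputable def vol (d r : ℕ) : ℝ := (2 * (r : ℝ) + 1) ^ d

/-- Sup-norm distance. -/
def nd (x y : V d) : ℕ := univ.sup fun i => (y i - x i).natAbs

/-- Sup-norm sphere. -/
noncomputable def sph (z : V d) (ρ : ℕ) : Finset (V d) := (box z ρ).filter fun y => nd z y = ρ

/-- Sup-norm annulus. -/
noncomputable def ann (z : V d) (ρ1 ρ2 : ℕ) : Finset (V d) :=
  (box z ρ2).filter fun y => ρ1 ≤ nd z y

/-- Indicator weight of an edge. -/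
noncomputable def wt (G : Set (E d)) (e : E d) : ℝ := if e ∈ G then 1 else 0

/-- Gradient along an edge. -/
def grad (u : V d → ℝ) (e : E d) : ℝ := u (e.1 + ee e.2) - u e.1

/-- Graph Laplacian for the edge set `G`. -/
noncomputable def lapG (G : Set (E d)) (u : V d → ℝ) (y : V d) : ℝ :=
  ∑ i, (wt G (y, i) * grad u (y, i) - wt G (y - ee i, i) * grad u (y - ee i, i))

/-- Harmonic at every point of a box. -/
def Harm (G : Set (E d)) (x : V d) (r : ℕ) (h : V d → ℝ) : Prop :=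
  ∀ y ∈ box x r, lapG G h y = 0

/-- Normalised Euclidean norm over the points of `C` in a box. -/
noncomputable def nrm (C : Set (V d)) (x : V d) (r : ℕ) (v : V d → ℝ) : ℝ :=
  l2 (cap C (box x r)) v / √(vol d r)

/-- Square root of the Dirichlet energy over the edges of `G` based in a box. -/
noncomputable def en (G : Set (E d)) (x : V d) (r : ℕ) (v : V d → ℝ) : ℝ :=
  l2 (cap G (boxE x r)) (grad v)

/-- A graph on `C` all of whose components are infinite. -/
structure Wf (G : Set (E d)) (C : Set (V d)) : Prop where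
  sub : G ⊆ ins C
  inf : ∀ y ∈ C, (comp G y).Infinite

/-- Pairing of a charge with a function. -/
noncomputable def pair (φ : V d →₀ ℝ) (h : V d → ℝ) : ℝ := φ.sum fun y a => a * h y

/-- Total variation of a charge. -/
noncomputable def l1 (φ : V d →₀ ℝ) : ℝ := φ.sum fun _ a => |a|

/-- The charge lives on the points of `C` in a box. -/
def Supp (C : Set (V d)) (x : V d) (r : ℕ) (φ : V d →₀ ℝ) : Prop :=
  ∀ y ∈ φ.support, y ∈ C ∧ y ∈ box x r

/-- Norm of a charge as a functional on the harmonic functions of a box. -/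
noncomputable def lam (G : Set (E d)) (C : Set (V d)) (x : V d) (r : ℕ) (φ : V d →₀ ℝ) : ℝ :=
  sSup {t | ∃ h, Harm G x r h ∧ nrm C x r h ≤ 1 ∧ t = pair φ h}

/-- Forward difference. -/
def dif (i : Fin d) (f : V d → ℝ) (y : V d) : ℝ := f (y + ee i) - f y

/-- Iterated forward differences. -/
def difs : List (Fin d) → (V d → ℝ) → V d → ℝ
  | [], f => f
  | i :: l, f => dif i (difs l f)

/-- Bounds on the differences of order at most three, at scale `s`. -/
def Smooth (ψ : V d → ℝ) (x : V d) (R : ℕ) (M s : ℝ) : Prop :=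
  ∀ l : List (Fin d), l.length ≤ 3 → ∀ y ∈ box x R, |difs l ψ y| ≤ M / s ^ l.length

/-- Average over a box. -/
noncomputable def Av (m : ℕ) (f : V d → ℝ) (y : V d) : ℝ := (∑ z ∈ box y m, f z) / vol d m

/-- Average over the points of `C` in a box. -/
noncomputable def avC (C : Set (V d)) (r : ℕ) (v : V d → ℝ) (y : V d) : ℝ :=
  (∑ z ∈ cap C (box y r), v z) / (cap C (box y r)).card

/-- Smoothing of a function on `C` at scale `m`. -/
noncomputable def sm (C : Set (V d)) (m : ℕ) (v : V d → ℝ) : V d → ℝ :=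
  Av m (Av m (avC C (3 * m) v))

/-! ### Good boxes -/

/-- Lower density of `C` in a box. -/
def Dens (θ : ℝ) (C : Set (V d)) (z : V d) (r : ℕ) : Prop :=
  θ * vol d r ≤ (cap C (box z r)).card

/-- Poincare inequality in the sum norm. -/
def Poin1 (K : ℝ) (G : Set (E d)) (C : Set (V d)) (z : V d) (r : ℕ) : Prop :=
  ∀ v : V d → ℝ, ∃ c : ℝ, ∑ y ∈ cap C (box z r), |v y - c| ≤
    K * r * ∑ e ∈ cap G (boxE z (2 * r)), |grad v e|

/-- Poincare inequality in the Euclidean norm. -/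
def Poin2 (K : ℝ) (G : Set (E d)) (C : Set (V d)) (z : V d) (r : ℕ) : Prop :=
  ∀ v : V d → ℝ, ∃ c : ℝ, l2 (cap C (box z r)) (fun y => v y - c) ≤ K * r * en G z (2 * r) v

/-- Harmonic functions of `G` are close to lattice harmonic functions. -/
def Appr (K δ : ℝ) (G : Set (E d)) (C : Set (V d)) (x : V d) (s : ℕ) : Prop :=
  ∀ h : V d → ℝ, Harm G x s h → ∃ H : V d → ℝ, Harm Set.univ x (s / 2) H ∧
    nrm C x (s / 2) (fun y => h y - H y) ≤ δ * nrm C x s h ∧
    ∀ y ∈ box x (s / 4), |H y| ≤ K * nrm C x s h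

/-- Smooth, almost lattice harmonic functions are close to harmonic functions of `G`. -/
def Lift (K δ : ℝ) (G : Set (E d)) (C : Set (V d)) (x : V d) (s : ℕ) : Prop :=
  ∀ (ψ : V d → ℝ) (M ε : ℝ), 0 ≤ ε → Smooth ψ x (2 * s) M s →
    (∀ y ∈ box x (2 * s), |lapG Set.univ ψ y| ≤ ε * M / (s : ℝ) ^ 2) →
    ∃ h : V d → ℝ, Harm G x s h ∧ nrm C x s (fun y => h y - ψ y) ≤ (δ + K * ε) * M

/-- Density and Poincare inequality at the scales comparable to `m`. -/
def LocP (θ K : ℝ) (G : Set (E d)) (C : Set (V d)) (x : V d) (R m : ℕ) : Prop :=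
  ∀ z ∈ box x R, ∀ r : ℕ, m ≤ r → r ≤ 6 * m → Dens θ C z r ∧ Poin2 K G C z r

/-- The analytic properties of a good box. -/
structure HGood (θ K δ : ℝ) (G : Set (E d)) (C : Set (V d)) (x : V d) (s : ℕ) : Prop where
  dens : ∀ z ∈ box x (2 * s), ∀ r : ℕ, δ * s ≤ r → r ≤ s → Dens θ C z r
  poin1 : Poin1 K G C x s
  poin2 : Poin2 K G C x s
  appr : Appr K δ G C x s
  lift : Lift K δ G C x s

/-! ### Percolation -/

/-- The points in infinite clusters. -/
def Cl (O : Set (E d)) : Set (V d) := {y | (comp O y).Infinite}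

/-- The open edges of the infinite clusters. -/
def GC (O : Set (E d)) : Set (E d) := {e | e ∈ O ∧ e.1 ∈ Cl O}

/-- Long open paths starting near `x` belong to an infinite cluster. -/
def Lg (O : Set (E d)) (x : V d) (s : ℕ) : Prop :=
  ∀ b ∈ box x s, ∀ y ∈ comp O b, y ∉ box b (s / 2) → b ∈ Cl O

/-- A good box of the configuration `O`. -/
def Good (θ K δ : ℝ) (O : Set (E d)) (x : V d) (s : ℕ) : Prop :=
  HGood θ K δ (GC O) (Cl O) x s ∧ Lg O x s

/-- Two configurations agree on `S`. -/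
def Agree (S : Finset (E d)) (O O' : Set (E d)) : Prop := ∀ e ∈ S, (e ∈ O ↔ e ∈ O')

/-- A function of the configuration that depends only on the edges of `S`. -/
def Dep {β : Type*} (S : Finset (E d)) (f : Set (E d) → β) : Prop :=
  ∀ O O', Agree S O O' → f O = f O'

/-- The local event that forces a box to be good once an infinite cluster comes close. -/
def W (θ K δ : ℝ) (x : V d) (s : ℕ) (O : Set (E d)) : Prop :=
  ∀ O', Agree (boxE x (20 * s)) O O' → (∃ y ∈ Cl O', y ∈ box x (10 * s)) → Good θ K δ O' x s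

/-- Bernoulli bond percolation on the coded edges. -/
noncomputable def μP (d : ℕ) (p : unitInterval) : Measure (Set (E d)) := setBernoulli Set.univ p

instance (p : unitInterval) : IsProbabilityMeasure (μP d p) := by
  unfold μP; infer_instance

/-- The configuration seen from `z`. -/
def sh (z : V d) (O : Set (E d)) : Set (E d) := {e | (e.1 + z, e.2) ∈ O}

/-- An open path from `y` leaving the box of radius `r` around `z`, inside the next box. -/
def Arm (O : Set (E d)) (z : V d) (r : ℕ) (y : V d) : Prop :=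
  ∃ w, w ∉ box z r ∧ w ∈ comp (O ∩ ins (box z (r + 1) : Set (V d))) y

/-- An open path from `y` to distance more than `t`. -/
def Loc (O : Set (E d)) (t : ℕ) (y : V d) : Prop := Arm O y t y

/-- The renormalisation event. -/
def GoodN (n : ℕ) (z : V d) (O : Set (E d)) : Prop :=
  (∃ y ∈ box z n, Arm O z (4 * n) y) ∧
  ∀ y ∈ box z (2 * n), ∀ y' ∈ box z (2 * n), Arm O z (3 * n) y → Arm O z (3 * n) y' →
    y' ∈ comp (O ∩ ins (box z (3 * n + 1) : Set (V d))) y

/-- The renormalisation event has probability close to one at some scale. -/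
def RH (d : ℕ) (p : unitInterval) : Prop :=
  ∀ ε : ℝ, 0 < ε → ∃ n : ℕ, 1 ≤ n ∧ (μP d p).real {O | ¬ GoodN n (0 : V d) O} ≤ ε

/-- The renormalised bond configuration. -/
def coarse (n : ℕ) (O : Set (E d)) : Set (E d) :=
  {a | GoodN n ((n : ℤ) • a.1) O ∧ GoodN n ((n : ℤ) • (a.1 + ee a.2)) O}

/-- Every large star-connected set of edges in a box is at least half open. -/
def Half (x : V d) (R τ : ℕ) (O : Set (E d)) : Prop :=
  ∀ T : Finset (E d), (T : Set (E d)) ⊆ ins (box x R : Set (V d)) → StarConn (T : Set (E d)) →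
    τ ≤ T.card → T.card ≤ 2 * (cap O T).card

/-- A product of intervals. -/
def rect (lo hi : V d) : Set (V d) := {a | ∀ j, lo j ≤ a j ∧ a j ≤ hi j}

/-- A column in direction `i`. -/
def col (z : V d) (i : Fin d) (l t : ℕ) : Set (V d) :=
  {y | z i - t ≤ y i ∧ y i ≤ z i + l + t ∧ ∀ j, j ≠ i → |y j - z j| ≤ t}

/-- A column is crossed, even after removing few edges. -/
def Cross (c : ℝ) (z : V d) (i : Fin d) (l t : ℕ) (O : Set (E d)) : Prop :=
  ∀ Z : Finset (E d), (Z.card : ℝ) ≤ c * (t : ℝ) ^ (d - 1) →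
    ∃ y ∈ col z i l t, ∃ y' ∈ col z i l t, y i ≤ z i ∧ z i + l ≤ y' i ∧
      y' ∈ comp ((O \ Z) ∩ ins (col z i l t)) y

/-- Local uniqueness of long paths. -/
def Uq (z : V d) (t : ℕ) (O : Set (E d)) : Prop :=
  ∀ y ∈ box z (4 * t), ∀ y' ∈ box z (4 * t), Loc O t y → Loc O t y' →
    y' ∈ comp (O ∩ ins (box z (8 * t) : Set (V d))) y

/-- The percolation input in a box of radius `R` at scale `t`. -/
def PI (c : ℝ) (x : V d) (R t : ℕ) (O : Set (E d)) : Prop :=
  (∀ z ∈ box x R, Uq z t O) ∧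
  ∀ z ∈ box x R, ∀ (i : Fin d) (l : ℕ), 2 * t + 2 ≤ l → z i + l ≤ x i + R → Cross c z i l t O

/-- The percolation input for a graph `G` on `C`. -/
def PIC (c : ℝ) (G : Set (E d)) (C : Set (V d)) (x : V d) (R t : ℕ) : Prop :=
  (∀ z ∈ box x R, ∀ y ∈ box z (4 * t), ∀ y' ∈ box z (4 * t), y ∈ C → y' ∈ C →
    y' ∈ comp (G ∩ ins (box z (8 * t) : Set (V d))) y) ∧
  ∀ z ∈ box x R, ∀ (i : Fin d) (l : ℕ), 2 * t + 2 ≤ l → z i + l ≤ x i + R → Cross c z i l t G

/-- The percolation input fails with exponentially small probability. -/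
def PIprob (d : ℕ) (p : unitInterval) (c : ℝ) : Prop :=
  ∃ (t0 : ℕ) (B ρ : ℝ), 0 < ρ ∧ ρ < 1 ∧ ∀ t ≥ t0, ∀ (x : V d) (R : ℕ),
    (μP d p).real {O | ¬ PI c x R t O} ≤ B * vol d (R + 8 * t) * ρ ^ t

/-- Good boxes are overwhelmingly likely. -/
def Hom (d : ℕ) (p : unitInterval) (θ K : ℝ) : Prop :=
  ∀ δ : ℝ, 0 < δ → ∀ M : ℕ, ∃ s0 : ℕ, ∀ s ≥ s0, ∀ x : V d,
    (μP d p).real {O | ¬ W θ K δ x s O} ≤ 1 / (s : ℝ) ^ M

/-! ### Correctors -/

/-- Open edges both of whose endpoints have long open paths. -/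
def GLoc (t : ℕ) (O : Set (E d)) : Set (E d) :=
  {e | e ∈ O ∧ Loc O t e.1 ∧ Loc O t (e.1 + ee e.2)}

/-- The flux of the corrected coordinate function. -/
noncomputable def flx (G : Set (E d)) (φ : V d → ℝ) (i : Fin d) (e : E d) : ℝ :=
  wt G e * ((if e.2 = i then 1 else 0) + grad φ e)

/-- The squared negative Sobolev norm of the divergence of a flux in a box. -/
noncomputable def defect (G : Set (E d)) (q : E d → ℝ) (y : V d) (ρ : ℕ) : ℝ :=
  sSup {a | ∃ w : V d → ℝ, (∀ z, z ∉ box y ρ → w z = 0) ∧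
    a = ∑ e ∈ boxE y (ρ + 1), (2 * (q e * grad w e) - wt G e * grad w e ^ 2)}

/-- Approximate correctors exist. -/
def Cor (d : ℕ) (p : unitInterval) (σ : ℝ) : Prop :=
  ∀ η : ℝ, 0 < η → ∃ (B : ℝ) (r0 t0 : ℕ) (g : Fin d → Set (E d) → ℝ),
    (∀ i, Dep (boxE (0 : V d) r0) (g i)) ∧ (∀ i O, |g i O| ≤ B) ∧ ∀ t ≥ t0,
      (∀ i j, |∫ O, flx (GLoc t O) (fun y => g i (sh y O)) i (0, j) ∂μP d p -
        (if j = i then σ else 0)| ≤ η) ∧
      ∀ (i : Fin d) (ρ : ℕ), ∫ O, defect (GLoc t O) (flx (GLoc t O) (fun y => g i (sh y O)) i) 0 ρ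
        ∂μP d p ≤ η ^ 2 * vol d (ρ + 1)

/-- The deterministic data for two-scale expansions in the box of radius `s` around `x`. -/
structure Meso (θ K σ η B : ℝ) (G : Set (E d)) (C : Set (V d)) (φ : Fin d → V d → ℝ) (x : V d)
    (s m m1 : ℕ) : Prop where
  wf : Wf G C
  dens : ∀ z ∈ box x (3 * s), ∀ r : ℕ, m ≤ r → r ≤ 2 * s → Dens θ C z r
  poin : ∀ z ∈ box x (3 * s), ∀ r : ℕ, m ≤ r → r ≤ 2 * s → Poin2 K G C z r
  one_le : 1 ≤ B
  sig_le : σ ≤ B
  bdd : ∀ i y, |φ i y| ≤ B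
  div : ∀ i, ∑ y ∈ box x (2 * s), defect G (flx G (φ i) i) y (2 * m) ≤
    η ^ 2 * vol d (2 * m + 1) * vol d (2 * s)
  avg : ∀ i j, ∑ z ∈ box x (2 * s),
    (Av m1 (fun y => flx G (φ i) i (y, j)) z - (if j = i then σ else 0)) ^ 2 ≤
      η ^ 2 * vol d (2 * s)
  m1_pos : 1 ≤ m1
  sep1 : B * m1 ≤ η * m
  sep2 : B * m ≤ η * s

/-! ### Screening -/

/-- The scales. -/
def sc (L A j : ℕ) : ℕ := L * A ^ j

/-- The edges with an endpoint in a box. -/
noncomputable def EB (x : V d) (L : ℕ) : Finset (E d) :=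
  (boxE x (L + 1)).filter fun e => e.1 ∈ box x L ∨ e.1 + ee e.2 ∈ box x L

/-- The configuration rewired on `S`. -/
def rew (S η : Finset (E d)) (O : Set (E d)) : Set (E d) := (O \ S) ∪ η

/-- The function `u` is harmonic on `C` off a box around the origin. -/
def HarmOff (G : Set (E d)) (R0 : ℕ) (u : V d → ℝ) : Prop :=
  ∀ y, y ∉ box (0 : V d) R0 → lapG G u y = 0

/-- Decay at infinity along `C`. -/
def Dec (C : Set (V d)) (u : V d → ℝ) : Prop :=
  ∀ ε : ℝ, 0 < ε → ∃ R : ℕ, ∀ y ∈ C, y ∉ box (0 : V d) R → |u y| ≤ ε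

/-- Decay faster than every power along `C`. -/
def SD (C : Set (V d)) (u : V d → ℝ) : Prop :=
  ∀ M : ℕ, ∃ R : ℕ, ∀ y ∈ C, y ∉ box (0 : V d) R → |u y| * (nd 0 y : ℝ) ^ M ≤ 1

/-- The point `x` carries a robust dipole that is screened by a charge near the origin. -/
def Scr (θ K δ Λ1 Λs : ℝ) (L A κ N R0 : ℕ) (x : V d) (O : Set (E d)) : Prop :=
  (∀ j ≥ κ, W θ K δ x (sc L A j) O) ∧
  ∃ n0, κ ≤ n0 ∧ n0 < N ∧ ∃ n1, ∀ n ≥ n1, ∃ g f : V d →₀ ℝ,
    Supp (Cl O) x (L + 1) g ∧ pair g (fun _ => 1) = 0 ∧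
    lam (GC O) (Cl O) x (sc L A n0) g ≤ Λ1 * lam (GC O) (Cl O) x (sc L A (n0 + 1)) g ∧
    1 ≤ lam (GC O) (Cl O) x (sc L A (n0 + 1)) g ∧
    Supp (Cl O) 0 R0 f ∧ lam (GC O) (Cl O) 0 (sc L A n) (f + g) ≤ 1 / Λs ^ n

/-- Both a point of `S` and a point of `C` outside `S` lie in the box. -/
def Two (C S : Set (V d)) (z : V d) (r : ℕ) : Prop :=
  (∃ y ∈ box z r, y ∈ C ∧ y ∈ S) ∧ ∃ y ∈ box z r, y ∈ C ∧ y ∉ S

/-- The multiscale bad events built from the events `Bad`. -/
def MB (L A : ℕ) (Bad : ℕ → V d → Prop) : ℕ → V d → Prop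
  | 0, z => Bad 0 z
  | j + 1, z => (∃ x ∈ box z (9 * sc L A (j + 1)), Bad (j + 1) x) ∨
      ((∃ z' ∈ sph z (3 * sc L A (j + 1)), MB L A Bad j z') ∧
        ∃ z' ∈ sph z (7 * sc L A (j + 1)), MB L A Bad j z')

/-- All large boxes near the origin are good. -/
def AllGood (θ K : ℝ) (G : Set (E d)) (C : Set (V d)) : Prop :=
  ∀ A : ℕ, 2 ≤ A → ∀ δ : ℝ, 0 < δ → ∃ n0 : ℕ, ∀ n ≥ n0, ∀ z ∈ box (0 : V d) (A ^ (n + 3)),
    HGood θ K δ G C z (A ^ n)

/-- The edges of `G` inside the box of radius `N` along which `u` varies. -/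
noncomputable def act (G : Set (E d)) (u : V d → ℝ) (N : ℕ) : Finset (E d) :=
  (boxE (0 : V d) N).filter fun e => e ∈ G ∧ e.1 + ee e.2 ∈ box (0 : V d) N ∧ grad u e ≠ 0

end Pool.Agent.P.MP_b4265e_pr.R
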