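import Pool.Agent.P.MP_b4265e_pr.R.Smoothing
import Pool.Agent.P.MP_b4265e_pr.R.Defect

/-!
The fluxes are almost divergence free.
-/

namespace Pool.Agent.P.MP_b4265e_pr.R

open Finset
open scoped Classical

variable {d : ℕ} {G : Set (E d)} {C : Set (V d)}

lemma div_not_mem {x z : V d} {r : ℕ} (h : z ∉ box x (r + 1)) (j : Fin d) :
    z ∉ box x r ∧ z + ee j ∉ box x r := by
  rw [mem_box_nd] at h
  rw [mem_box_nd, mem_box_nd]
  have h1 := nd_triangle x (z + ee j) z
  rw [nd_comm (z + ee j) z, nd_add_ee] at h1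
  omega

/-- Enlarging the domain of summation. -/
lemma div_ext {q : E d → ℝ} (hq : ∀ e, e ∉ G → q e = 0) (hG : G ⊆ ins C) {u : V d → ℝ} {y x : V d}
    {ρ R : ℕ} (hu : ∀ z ∈ C, z ∉ box y ρ → u z = 0) (h : nd x y + (ρ + 1) ≤ R) :
    ∑ e ∈ boxE x R, q e * grad u e = ∑ e ∈ boxE y (ρ + 1), q e * grad u e := by
  refine (sum_subset (boxE_subset h) fun e _ he => ?_).symm
  by_cases hg : e ∈ G
  · rw [mem_boxE'] at he
    have h1 := div_not_mem he e.2
    rw [grad, hu _ (hG hg).1 h1.1, hu _ (hG hg).2 h1.2, sub_zero, mul_zero]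
  · rw [hq e hg, zero_mul]

lemma div_avC_zero {w : V d → ℝ} {x y : V d} {r ρ : ℕ} (hw : ∀ z ∈ C, z ∉ box x r → w z = 0)
    (hy : y ∉ box x (r + ρ)) : avC C ρ w y = 0 := by
  rw [avC, sum_eq_zero, zero_div]
  intro z hz
  rw [mem_cap] at hz
  refine hw z hz.2 fun hx => hy ?_
  have h1 := hz.1
  rw [mem_box_nd] at hx h1 ⊢
  have := nd_triangle x z y
  rw [nd_comm z y] at this
  omega

/-- Partition of unity. -/
lemma div_decomp {w : V d → ℝ} {x : V d} {r m : ℕ} (hw : ∀ z ∈ C, z ∉ box x r → w z = 0)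
    {z : V d} (hz : z ∈ C) :
    w z = ∑ y ∈ box x (r + 3 * m), ker m 2 y z * (w z - avC C (3 * m) w y) + sm C m w z := by
  have h1 := iterate_Av_eq m 2 (avC C (3 * m) w) z (box x (r + 3 * m) ∪ box z (2 * m))
    subset_union_right
  have h2 := iterate_Av_eq m 2 (fun _ => w z) z (box x (r + 3 * m) ∪ box z (2 * m))
    subset_union_right
  have e2 : (Av m)^[2] (fun _ : V d => w z) z = w z := by
    change Av m (Av m fun _ => w z) z = w z
    rw [show (Av m fun _ : V d => w z) = fun _ => w z from funext fun y => Av_const m _ y, Av_const]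
  have e1 : (Av m)^[2] (avC C (3 * m) w) z = sm C m w z := rfl
  rw [e2] at h2
  rw [e1] at h1
  have h3 : ∑ y ∈ box x (r + 3 * m), ker m 2 y z * (w z - avC C (3 * m) w y)
      = ∑ y ∈ box x (r + 3 * m) ∪ box z (2 * m), ker m 2 y z * (w z - avC C (3 * m) w y) := by
    refine sum_subset subset_union_left fun y _ hy => ?_
    rw [div_avC_zero hw hy, sub_zero]
    by_cases hb : z ∈ box y (2 * m)
    · rw [hw z hz fun hx => hy ?_, mul_zero]
      rw [mem_box_nd] at hx hb ⊢
      have := nd_triangle x z y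
      rw [nd_comm z y] at this
      omega
    · rw [ker_supp m 2 y z hb, zero_mul]
  rw [h3, h1]
  conv_lhs => rw [h2]
  rw [← sum_add_distrib]
  exact sum_congr rfl fun y _ => by rw [ker_symm m 2 y z]; ring

/-- The energy of one piece of the partition of unity. -/
lemma div_piece (hG : G ⊆ ins C) (w : V d → ℝ) (y : V d) (c : ℝ) {m : ℕ} (hm : 2 ≤ m) {A : ℝ}
    (hA : 0 ≤ A) (h : l2 (cap C (box y (3 * m))) (fun z => w z - c) ≤ A * m * en G y (6 * m) w) :
    en G y (2 * m + 1) (fun z => ker m 2 y z * (w z - c))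
      ≤ (1 + √d * A) / vol d m * en G y (6 * m) w := by
  have v0 := vol_pos d m
  have e0 := en_nonneg G y (6 * m) w
  have k0 : ∀ z, |ker m 2 y z| ≤ 1 / vol d m := fun z => by
    simpa [difs] using abs_difs_ker_le m 2 [] (by simp) y z
  have k1 : ∀ j z, |dif j (ker m 2 y) z| ≤ 2 / (2 * m + 1) / vol d m := fun j z => by
    simpa [difs] using abs_difs_ker_le m 2 [j] (by simp) y z
  set T := cap G (boxE y (2 * m + 1)) with hT
  have e : en G y (2 * m + 1) (fun z => ker m 2 y z * (w z - c)) = l2 T fun e =>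
      ker m 2 y e.1 * grad w e + (w (e.1 + ee e.2) - c) * dif e.2 (ker m 2 y) e.1 :=
    l2_congr fun e _ => by simp only [grad, dif]; ring
  have a1 : l2 T (fun e => ker m 2 y e.1 * grad w e) ≤ 1 / vol d m * en G y (6 * m) w := by
    refine (l2_le_of_abs_le (g := fun e => 1 / vol d m * grad w e) fun e _ => ?_).trans ?_
    · rw [abs_mul, abs_mul, abs_of_pos (one_div_pos.2 v0)]
      exact mul_le_mul_of_nonneg_right (k0 _) (abs_nonneg _)
    · rw [l2_mul, abs_of_pos (one_div_pos.2 v0)]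
      exact mul_le_mul_of_nonneg_left (en_mono G (by rw [nd_self]; omega) w) (one_div_pos.2 v0).le
  have a2 : l2 T (fun e => w (e.1 + ee e.2) - c) ≤ √d * (A * m * en G y (6 * m) w) := by
    refine le_trans ?_ (mul_le_mul_of_nonneg_left h (Real.sqrt_nonneg _))
    refine l2_le_of_sq_le (mul_nonneg (Real.sqrt_nonneg _) (l2_nonneg _ _)) ?_
    rw [mul_pow, Real.sq_sqrt (Nat.cast_nonneg d), l2_sq]
    refine sum_edge_snd_le hG _ _ (fun e he _ => ?_) (f := fun z => (w z - c) ^ 2)
      fun _ => sq_nonneg _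
    rw [mem_boxE', mem_box_nd] at he
    rw [mem_box_nd]
    have := nd_triangle y e.1 (e.1 + ee e.2)
    rw [nd_add_ee] at this
    omega
  have p0 : (0 : ℝ) < 2 / (2 * m + 1) / vol d m := by positivity
  have a3 : l2 T (fun e => (w (e.1 + ee e.2) - c) * dif e.2 (ker m 2 y) e.1)
      ≤ 2 / (2 * m + 1) / vol d m * (√d * (A * m * en G y (6 * m) w)) := by
    refine (l2_le_of_abs_le (g := fun e => 2 / (2 * m + 1) / vol d m * (w (e.1 + ee e.2) - c))
      fun e _ => ?_).trans ?_
    · rw [abs_mul, abs_mul, abs_of_pos p0, mul_comm]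
      exact mul_le_mul_of_nonneg_right (k1 _ _) (abs_nonneg _)
    · rw [l2_mul, abs_of_pos p0]
      exact mul_le_mul_of_nonneg_left a2 p0.le
  have a4 : 2 / (2 * m + 1) / vol d m * (√d * (A * m * en G y (6 * m) w))
      = 2 * m / (2 * m + 1) * (√d * A / vol d m * en G y (6 * m) w) := by
    field_simp
  have a5 : (2 * m / (2 * m + 1) : ℝ) ≤ 1 := by
    rw [div_le_one (by positivity)]
    linarith
  have a6 := mul_le_of_le_one_left (show 0 ≤ √d * A / vol d m * en G y (6 * m) w by positivity) a5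
  rw [e]
  refine (l2_add_le _ _ _).trans ?_
  rw [add_div, add_mul]
  linarith

theorem div_small (d : ℕ) {θ K : ℝ} (hθ : 0 < θ) (hK : 0 < K) : ∃ Cd : ℝ, 1 ≤ Cd ∧
    ∀ {σ η B : ℝ} {G : Set (E d)} {C : Set (V d)} {φ : Fin d → V d → ℝ} {x : V d} {s m m1 : ℕ},
    0 ≤ σ → η ≤ 1 / 100 → Meso θ K σ η B G C φ x s m m1 → ∀ (r : ℕ), r + 19 * m ≤ 2 * s →
    ∀ w : V d → ℝ, (∀ y ∈ C, y ∉ box x r → w y = 0) → ∀ i,
      |∑ e ∈ boxE x (r + 1), flx G (φ i) i e * grad w e| ≤
        Cd * η * √(vol d (2 * s)) * en G x (r + 1) w := by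
  obtain ⟨Cs, hCs, hS⟩ := smoothing d hθ hK
  have Cs0 : 0 ≤ Cs := by linarith
  refine ⟨(1 + √d * Cs) * 6 ^ d + d * ((1 + 4 * d) * Cs), ?_, ?_⟩
  · have h1 : (1 : ℝ) ≤ 6 ^ d := one_le_pow₀ (by norm_num)
    have h2 : 0 ≤ √d * Cs * 6 ^ d := by positivity
    have h3 : 0 ≤ d * ((1 + 4 * d) * Cs) := by positivity
    linarith
  intro σ η B G C φ x s m m1 hσ hη M r hr w hw i
  have hB := M.one_le
  have hm1 : (1 : ℝ) ≤ m1 := by exact_mod_cast M.m1_pos
  have hm0 : (0 : ℝ) ≤ m := m.cast_nonneg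
  have s1 := M.sep1
  have s1' : m1 ≤ η * m := by nlinarith
  have hm : (100 : ℝ) ≤ m := by nlinarith
  have hη0 : 0 < η := by
    by_contra hc
    push Not at hc
    nlinarith
  have hmn : 100 ≤ m := by exact_mod_cast hm
  have hm1m : m1 ≤ m := by
    have : (m1 : ℝ) ≤ m := by nlinarith
    exact_mod_cast this
  have hG := M.wf.sub
  set q := flx G (φ i) i with hq
  have q0 : ∀ e, e ∉ G → q e = 0 := fun e he => flx_of_not_mem _ _ he
  obtain ⟨S0, -, S2, S3, -⟩ := hS G C x (r + 5 * m + 2) m (by omega) (fun z hz ρ h1 h2 =>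
    have hz' : z ∈ box x (3 * s) := box_mono x (by omega) hz
    ⟨M.dens z hz' ρ h1 (by omega), M.poin z hz' ρ h1 (by omega)⟩) w
  set En := en G x (r + 1) w with hEn
  have En0 : 0 ≤ En := en_nonneg _ _ _ _
  have eR : ∀ x' R, en G x' R w ≤ En := en_le_of_supp hG hw
  set Vs := √(vol d (2 * s)) with hVs
  have Vs0 : 0 ≤ Vs := Real.sqrt_nonneg _
  have Vs2 : Vs ^ 2 = vol d (2 * s) := Real.sq_sqrt (vol_pos _ _).le
  set u : V d → V d → ℝ := fun y z => ker m 2 y z * (w z - avC C (3 * m) w y) with hu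
  have u0 : ∀ y z, z ∉ box y (2 * m) → u y z = 0 := fun y z hz => by
    simp only [hu, ker_supp m 2 y z hz, zero_mul]
  have split : ∑ e ∈ boxE x (r + 1), q e * grad w e
      = ∑ y ∈ box x (r + 3 * m), ∑ e ∈ boxE y (2 * m + 1), q e * grad (u y) e
        + ∑ e ∈ boxE x (r + 5 * m + 1), q e * grad (sm C m w) e := by
    rw [← div_ext q0 hG hw (x := x) (R := r + 5 * m + 1) (by rw [nd_self]; omega),
      ← sum_congr rfl fun y hy => div_ext q0 hG (fun z _ => u0 y z) (x := x) (R := r + 5 * m + 1)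
        (by rw [mem_box_nd] at hy; omega), sum_comm, ← sum_add_distrib]
    refine sum_congr rfl fun e _ => ?_
    by_cases hg : e ∈ G
    · rw [← mul_sum, ← mul_add]
      congr 1
      have h1 := div_decomp (m := m) hw (hG hg).1
      have h2 := div_decomp (m := m) hw (hG hg).2
      simp only [grad, sum_sub_distrib, hu]
      linarith
    · simp [q0 e hg]
  -- the local pieces
  have vm := vol_pos d m
  have t1 : |∑ y ∈ box x (r + 3 * m), ∑ e ∈ boxE y (2 * m + 1), q e * grad (u y) e|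
      ≤ (1 + √d * Cs) * 6 ^ d * η * Vs * En := by
    have a0 : 0 ≤ (1 + √d * Cs) / vol d m := by positivity
    have a1 : ∀ y ∈ box x (r + 3 * m), |∑ e ∈ boxE y (2 * m + 1), q e * grad (u y) e|
        ≤ (1 + √d * Cs) / vol d m * (√(defect G q y (2 * m)) * en G y (6 * m) w) := fun y hy => by
      refine (abs_sum_le_defect q0 (u0 y)).trans ?_
      rw [mul_left_comm]
      exact mul_le_mul_of_nonneg_left
        (div_piece hG w y _ (by omega) Cs0 (S0 y (box_mono x (by omega) hy))) (Real.sqrt_nonneg _)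
    have b1 : vol d (2 * m + 1) ≤ 6 ^ d * vol d m := vol_le_mul d (by push_cast; linarith)
    have b2 : vol d (6 * m) ≤ 6 ^ d * vol d m := vol_le_mul d (by push_cast; linarith)
    set W := √(6 ^ d * vol d m) with hW
    have W0 : 0 ≤ W := Real.sqrt_nonneg _
    have W2 : W ^ 2 = 6 ^ d * vol d m := Real.sq_sqrt (by positivity)
    have a2 : l2 (box x (r + 3 * m)) (fun y => √(defect G q y (2 * m))) ≤ η * W * Vs := by
      refine l2_le_of_sq_le (by positivity) ?_
      rw [sum_congr rfl fun y _ => Real.sq_sqrt (defect_nonneg q0 y (2 * m))]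
      refine (sum_le_sum_of_subset_of_nonneg (box_mono x (by omega : r + 3 * m ≤ 2 * s))
        fun y _ _ => defect_nonneg q0 y _).trans ((M.div i).trans ?_)
      rw [mul_pow, mul_pow, W2, Vs2]
      have := vol_pos d (2 * s)
      gcongr
    have a3 : l2 (box x (r + 3 * m)) (fun y => en G y (6 * m) w) ≤ W * En := by
      refine l2_le_of_sq_le (by positivity) ((sum_en_sq_le G x _ _ w).trans ?_)
      rw [mul_pow, W2]
      exact mul_le_mul b2 (pow_le_pow_left₀ (en_nonneg _ _ _ _) (eR _ _) 2) (sq_nonneg _)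
        (by positivity)
    refine (abs_sum_le_sum_abs _ _).trans ((sum_le_sum a1).trans ?_)
    rw [← mul_sum]
    have a4 := (le_abs_self _).trans ((abs_sum_mul_le _ _ _).trans
      (mul_le_mul a2 a3 (l2_nonneg _ _) (by positivity)))
    refine (mul_le_mul_of_nonneg_left a4 a0).trans (le_of_eq ?_)
    rw [show η * W * Vs * (W * En) = W ^ 2 * (η * Vs * En) by ring, W2]
    field_simp
  -- the smooth piece
  have w0 : ∀ z, z ∉ box x (r + 5 * m) → sm C m w z = 0 := fun z hz =>
    sm_eq_zero fun y hy hC => hw y hC fun hx => hz (by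
      rw [mem_box_nd] at hx hy ⊢
      have := nd_triangle x y z
      rw [nd_comm y z] at this
      omega)
  have t2 : ∀ j, |∑ z ∈ box x (r + 5 * m + 1), q (z, j) * dif j (sm C m w) z|
      ≤ (1 + 4 * d) * Cs * η * Vs * En := fun j => by
    set c : ℝ := if j = i then σ else 0 with hc
    have c0 : |c| ≤ B := by
      rw [hc]
      split_ifs
      · rw [abs_of_nonneg hσ]; exact M.sig_le
      · rw [abs_zero]; linarith
    have z0 : ∑ z ∈ box x (r + 5 * m + 1), c * dif j (sm C m w) z = 0 := by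
      have := sum_dif_mul (fun _ => c) (sm C m w) j (x := x) (r := r + 5 * m) le_rfl
        fun y hy => by rw [w0 y hy, mul_zero]
      simpa [dif] using this
    have e : ∑ z ∈ box x (r + 5 * m + 1), q (z, j) * dif j (sm C m w) z
        = ∑ z ∈ box x (r + 5 * m + 1), (q (z, j) - c) * dif j (sm C m w) z := by
      simp only [sub_mul, sum_sub_distrib, z0, sub_zero]
    have a1 := abs_sum_mul_le_avg (m := m1) (r := r + 5 * m + 1) (q := fun z => q (z, j) - c)
      (F := dif j (sm C m w)) (x := x) (B := 4 * B)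
      (fun z => (abs_sub _ _).trans (by linarith [abs_flx_le (G := G) (M.bdd i) i (z, j)]))
      (fun z hz => by
        have h1 := div_not_mem hz j
        rw [dif, w0 _ h1.1, w0 _ h1.2, sub_zero])
    have a2 : l2 (box x (r + 5 * m + 1)) (Av m1 fun z => q (z, j) - c) ≤ η * Vs := by
      refine (l2_mono (box_mono x (by omega : r + 5 * m + 1 ≤ 2 * s)) _).trans
        (l2_le_of_sq_le (by positivity) ?_)
      rw [mul_pow, Vs2, sum_congr rfl fun z _ => by rw [Av_sub, Av_const]]
      exact M.avg i j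
    have a3 : l2 (box x (r + 5 * m + 1)) (dif j (sm C m w)) ≤ Cs * En :=
      (l2_mono (box_mono x (by omega)) _).trans
        ((S2 j).trans (mul_le_mul_of_nonneg_left (eR _ _) Cs0))
    have a4 : ∑ l, l2 (box x (r + 5 * m + 1 + 1)) (dif l (dif j (sm C m w))) ≤ d * (Cs / m * En) := by
      have := sum_le_card_nsmul univ
        (fun l => l2 (box x (r + 5 * m + 1 + 1)) (dif l (dif j (sm C m w)))) (Cs / m * En)
        fun l _ => (S3 l j).trans (mul_le_mul_of_nonneg_left (eR _ _) (by positivity))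
      simpa using this
    have a5 : √(vol d (r + 5 * m + 1 + m1)) ≤ Vs := Real.sqrt_le_sqrt (vol_mono d (by omega))
    have a6 : 4 * B * √(vol d (r + 5 * m + 1 + m1)) *
        (m1 * ∑ l, l2 (box x (r + 5 * m + 1 + 1)) (dif l (dif j (sm C m w))))
        ≤ 4 * B * Vs * (m1 * (d * (Cs / m * En))) := by
      have : 0 ≤ ∑ l, l2 (box x (r + 5 * m + 1 + 1)) (dif l (dif j (sm C m w))) :=
        sum_nonneg fun _ _ => l2_nonneg _ _
      gcongr
    have a7 : 4 * B * Vs * (m1 * (d * (Cs / m * En))) = B * m1 / m * (4 * d * Cs * Vs * En) := by ring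
    have a8 : B * m1 / m ≤ η := by rwa [div_le_iff₀ (by linarith)]
    have a9 := mul_le_mul_of_nonneg_right a8 (show 0 ≤ 4 * d * Cs * Vs * En by positivity)
    have a10 := mul_le_mul a2 a3 (l2_nonneg _ _) (by positivity)
    rw [e]
    linarith
  have t3 : |∑ e ∈ boxE x (r + 5 * m + 1), q e * grad (sm C m w) e|
      ≤ d * ((1 + 4 * d) * Cs * η * Vs * En) := by
    rw [sum_boxE, sum_comm]
    refine (abs_sum_le_sum_abs _ _).trans ?_
    have := sum_le_card_nsmul univ _ _ fun j _ => t2 j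
    simpa [grad_eq_dif] using this
  rw [split]
  refine (abs_add_le _ _).trans ?_
  linarith

end Pool.Agent.P.MP_b4265e_pr.R
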