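import Pool.Agent.P.MP_b4265e_pr.R.Defs

/-!
Definitions for the renormalisation in the whole supercritical phase.
-/

namespace Pool.Agent.P.MP_b4265e_pr.R

open Finset MeasureTheory ProbabilityTheory
open scoped Classical

variable {d : ℕ} {ι : Type*}

/-- The Bernoulli law on propositions. -/
noncomputable def bernP (q : unitInterval) : Measure Prop :=
  unitInterval.toNNReal q • Measure.dirac True +
    unitInterval.toNNReal (unitInterval.symm q) • Measure.dirac False

instance (q : unitInterval) : IsProbabilityMeasure (bernP q) := by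
  unfold bernP; infer_instance

/-- The law of a random set containing each `i` independently with probability `q i`. -/
noncomputable def nu (q : ι → unitInterval) : Measure (Set ι) :=
  Measure.map (fun f : ι → Prop => {i | f i}) (Measure.infinitePi fun i => bernP (q i))

instance (q : ι → unitInterval) : IsProbabilityMeasure (nu q) := by
  unfold nu
  exact Measure.isProbabilityMeasure_map MeasurableEquiv.setOfPred.measurable.aemeasurable

/-- Two sets agree on `S`. -/
def AgI (S : Finset ι) (O O' : Set ι) : Prop := ∀ e ∈ S, (e ∈ O ↔ e ∈ O')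

/-- A function of a set that depends only on its trace on `S`. -/
def DpI {β : Type*} (S : Finset ι) (f : Set ι → β) : Prop := ∀ O O', AgI S O O' → f O = f O'

/-- An increasing event. -/
def Incr (A : Set ι → Prop) : Prop := ∀ O O', O ⊆ O' → A O → A O'

/-- One layer of a layered configuration. -/
def lay {τ : Type*} (s : τ) (O : Set (ι × τ)) : Set ι := {e | (e, s) ∈ O}

/-- The union of finitely many layers. -/
def unl {τ : Type*} (Q : Finset τ) (O : Set (ι × τ)) : Set ι := {e | ∃ s ∈ Q, (e, s) ∈ O}

/-- A quarter of a face of the box of radius `K` around `y`. -/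
def qf (y : V d) (K : ℕ) (i : Fin d) (ε : Fin d → ℤˣ) : Set (V d) :=
  {w | w i - y i = (ε i : ℤ) * K ∧ ∀ l, 0 ≤ (ε l : ℤ) * (w l - y l) ∧ (ε l : ℤ) * (w l - y l) ≤ K}

/-- Every large set near `y` is joined to every quarter face with high probability. -/
def Seed (d : ℕ) (p : unitInterval) (ε' : ℝ) (k K : ℕ) : Prop :=
  ∀ (y : V d) (i : Fin d) (ε : Fin d → ℤˣ) (A : Finset (V d)), A ⊆ box y k → k + 1 ≤ A.card →
    (μP d p).real {O | ¬ ∃ a ∈ A, ∃ w ∈ qf y K i ε,
      w ∈ comp (O ∩ ins (box y K : Set (V d))) a} ≤ ε'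

/-- One step of the exploration: one edge of `O1` out of `R`, then edges of `O0` off `R`. -/
noncomputable def grow (R : Finset (V d)) (y : V d) (K : ℕ) (O0 O1 : Set (E d)) : Finset (V d) :=
  R ∪ (box y K).filter fun w => w ∉ R ∧ ∃ r ∈ R, r ∈ box y K ∧ ∃ w0 ∈ box y K, w0 ∉ R ∧
    adj O1 r w0 ∧ w ∈ comp (O0 ∩ ins ((box y K \ R : Finset (V d)) : Set (V d))) w0

/-- Any two points of the set are joined inside it with probability at least `δ`. -/
def TwoPt (p : unitInterval) (δ : ℝ) (S : Set (V d)) : Prop :=
  ∀ b ∈ S, ∀ b' ∈ S, δ ≤ (μP d p).real {O | b' ∈ comp (O ∩ ins S) b}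

end Pool.Agent.P.MP_b4265e_pr.R
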