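import Pool.Agent.P.MP_b4265e_pr.R.GProd
import Pool.Agent.P.MP_b4265e_pr.R.Coarse

/-!
Adaptive explorations and the Peierls bound for two points in a cube.
-/

namespace Pool.Agent.P.MP_b4265e_pr.R

open Finset MeasureTheory ProbabilityTheory
open scoped Classical

/-- Conditioning on the outcome of one step. -/
lemma gexpl_cond {ι St : Type*} (q : ι → unitInterval) {S : Finset ι} (U : Finset ι)
    {f : Set ι → St} (hf : DpI S f) (rev : St → Finset ι)
    (hstop : ∀ O O', AgI (rev (f O)) O O' → f O' = f O) (A : St → Prop) (F : St → Set ι → Prop)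
    (hF : ∀ O, DpI (U \ rev (f O)) (F (f O))) {c : ℝ}
    (hc : ∀ O, A (f O) → (nu q).real {O' | F (f O) O'} ≤ c) :
    (nu q).real {O | A (f O) ∧ F (f O) O} ≤ c * (nu q).real {O | A (f O)} := by
  set R : Finset St := hf.finite_range.toFinset.filter A with hR
  have hd : ∀ s, DpI (rev s) fun O => f O = s := by
    intro s O O' h
    refine propext ⟨fun h1 => ?_, fun h1 => ?_⟩
    · exact (hstop O O' (h1 ▸ h)).trans h1
    · exact (hstop O' O (h1 ▸ fun e he => (h e he).symm)).trans h1
  have e1 : {O | A (f O) ∧ F (f O) O} ⊆ ⋃ s ∈ R, {O | f O = s ∧ F s O} := by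
    intro O hO
    simp only [Set.mem_iUnion]
    exact ⟨f O, by simp [hR, hO.1], rfl, hO.2⟩
  have e2 : {O | A (f O)} = f ⁻¹' (R : Set St) := by
    ext O
    simp [hR]
  rw [e2, ← sum_measureReal_preimage_singleton R (fun s _ => (hd s).measurableSet), mul_sum]
  refine (measureReal_mono e1 (measure_ne_top _ _)).trans ((measureReal_biUnion_finset_le _ _).trans
    (sum_le_sum fun s hs => ?_))
  obtain ⟨h1, h2⟩ := mem_filter.1 hs
  obtain ⟨O, rfl⟩ := hf.finite_range.mem_toFinset.1 h1
  rw [nu_inter (hd _) (hF O) disjoint_sdiff, mul_comm]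
  exact mul_le_mul_of_nonneg_right (hc O h2) measureReal_nonneg

/-- In an adaptive exploration every set of labels fails with exponentially small probability. -/
theorem explore {ι St τ : Type*} (q : ι → unitInterval) (U : Finset ι) (step : St → Set ι → St)
    (rev : St → Finset ι) (tried failed : St → Finset τ) (inv : St → Prop) {ε : ℝ} (hε : 0 ≤ ε)
    (hinv : ∀ s O, inv s → inv (step s O))
    (hsub : ∀ s, inv s → failed s ⊆ tried s)
    (hrev : ∀ s O, inv s → rev s ⊆ rev (step s O))
    (hdep : ∀ s, inv s → DpI (U \ rev s) (step s))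
    (hstop : ∀ s O O', inv s → AgI (rev (step s O)) O O' → step s O' = step s O)
    (hcase : ∀ s, inv s → (∀ O, step s O = s) ∨ ∃ c, c ∉ tried s ∧
      (∀ O, tried (step s O) = insert c (tried s) ∧
        (failed (step s O) = failed s ∨ failed (step s O) = insert c (failed s))) ∧
      (nu q).real {O | failed (step s O) ≠ failed s} ≤ ε)
    (n : ℕ) (s : St) (hs : inv s) (T : Finset τ) (hT : Disjoint T (tried s)) :
    (nu q).real {O | T ⊆ failed ((fun s' => step s' O)^[n] s)} ≤ ε ^ T.card := by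
  have hrun : ∀ n s, inv s → DpI (U \ rev s) fun O => (fun s' => step s' O)^[n] s := by
    intro n
    induction n with
    | zero => exact fun s _ O O' _ => rfl
    | succ n ih =>
      intro s hs O O' h
      simp only [Function.iterate_succ_apply]
      rw [← hdep s hs O O' h]
      exact ih _ (hinv s O hs) O O' fun e he =>
        h e (sdiff_subset_sdiff Subset.rfl (hrev s O hs) he)
  have hkeep : ∀ O c n s, inv s → c ∈ tried s → c ∉ failed s →
      c ∉ failed ((fun s' => step s' O)^[n] s) := by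
    intro O c n
    induction n with
    | zero => exact fun s _ _ h => h
    | succ n ih =>
      intro s hs h1 h2
      simp only [Function.iterate_succ_apply]
      rcases hcase s hs with h | ⟨c', hc', h, -⟩
      · rw [h O]; exact ih s hs h1 h2
      · refine ih _ (hinv s O hs) ?_ ?_
        · rw [(h O).1]; exact mem_insert_of_mem h1
        · rcases (h O).2 with h3 | h3 <;> rw [h3]
          · exact h2
          · rw [mem_insert, not_or]
            exact ⟨fun h4 => hc' (h4 ▸ h1), h2⟩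
  induction n generalizing s T with
  | zero =>
    rcases T.eq_empty_or_nonempty with rfl | ⟨c, hc⟩
    · simp
    · have : {O : Set ι | T ⊆ failed ((fun s' => step s' O)^[0] s)} = ∅ :=
        Set.eq_empty_of_forall_notMem fun O hO => disjoint_left.1 hT hc (hsub s hs (hO hc))
      rw [this, measureReal_empty]
      positivity
  | succ n ih =>
    simp only [Function.iterate_succ_apply]
    rcases hcase s hs with h | ⟨c, hc, h, hp⟩
    · simp only [h]
      exact ih s hs T hT
    have key : ∀ (A : St → Prop) (T' : Finset τ), Disjoint T' (insert c (tried s)) →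
        (nu q).real {O | A (step s O) ∧ T' ⊆ failed ((fun s' => step s' O)^[n] (step s O))} ≤
          ε ^ T'.card * (nu q).real {O | A (step s O)} := by
      intro A T' hT'
      refine gexpl_cond q U (hdep s hs) rev (fun O O' => hstop s O O' hs) A
        (fun s1 O => T' ⊆ failed ((fun s' => step s' O)^[n] s1)) (fun O O1 O2 h12 => ?_)
        fun O _ => ih _ (hinv s O hs) T' (by rw [(h O).1]; exact hT')
      have := hrun n _ (hinv s O hs) O1 O2 h12
      simp only at this ⊢
      rw [this]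
    by_cases hcT : c ∈ T
    · have h1 := key (fun s1 => failed s1 ≠ failed s) (T.erase c) (by
        rw [disjoint_insert_right]
        exact ⟨notMem_erase _ _, hT.mono_left (erase_subset _ _)⟩)
      refine (measureReal_mono ?_).trans (h1.trans ?_)
      · intro O hO
        refine ⟨fun h2 => ?_, (erase_subset _ _).trans hO⟩
        refine hkeep O c n _ (hinv s O hs) ?_ ?_ (hO hcT)
        · rw [(h O).1]; exact mem_insert_self _ _
        · rw [h2]; exact fun h3 => hc (hsub s hs h3)
      · rw [← card_erase_add_one hcT, pow_succ]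
        exact mul_le_mul_of_nonneg_left hp (pow_nonneg hε _)
    · have h1 := key (fun _ => True) T (by
        rw [disjoint_insert_right]
        exact ⟨hcT, hT⟩)
      simpa using h1

/-- A connected set containing `a0` but not `a1` has a star-connected cut close to one of them. -/
theorem anchored_cut {d : ℕ} (hd : 2 ≤ d) {lo hi : V d} {N : ℕ} (hN : ∀ j, hi j = lo j + N)
    {K : Set (V d)} (hK : K ⊆ rect lo hi) (hc : Conn K) {a0 a1 : V d} (h0 : a0 ∈ K)
    (h1 : a1 ∈ rect lo hi) (h1' : a1 ∉ K) :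
    ∃ T : Finset (E d), (T : Set (E d)) ⊆ bd K ∩ ins (rect lo hi) ∧ StarConn (T : Set (E d)) ∧
      ∃ e ∈ T, nd a0 e.1 ≤ 2 * T.card + 1 ∨ nd a1 e.1 ≤ 2 * T.card + 1 := by
  have hlh : ∀ j, lo j ≤ hi j := fun j => by have := hN j; omega
  have hz : a1 ∈ rect lo hi \ K := ⟨h1, h1'⟩
  obtain ⟨T, hT, hstar, hdis⟩ := coarse_cut hlh (O := (bd K)ᶜ) hK hc h0
    (disjoint_compl_right.mono_right Set.inter_subset_left) hz
  set D := comp (ins (rect lo hi \ K)) a1 with hD
  have hDK : D ⊆ rect lo hi \ K := comp_ins_subset hz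
  have hne : ¬ (a0 ∈ D ↔ a1 ∈ D) := fun h => (hDK (h.2 (mem_comp_self _ _))).2 h0
  have hin : ∀ e ∈ T, e ∈ ins (rect lo hi) := fun e he => by
    have : e ∈ (T : Set (E d)) := he
    rw [hT] at this
    exact this.2
  obtain ⟨e, he⟩ : T.Nonempty := by
    rw [nonempty_iff_ne_empty]
    rintro rfl
    refine hne (coarse_conn_rect lo hi D ?_ a0 (hK h0) a1 h1)
    rw [Set.disjoint_iff_inter_eq_empty, ← hT, coe_empty]
  refine ⟨T, fun a ha => ⟨?_, hin a ha⟩, hstar, e, he, ?_⟩
  · by_contra hn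
    exact dl hdis a ha hn
  obtain ⟨m, hm⟩ := coarse_star_cube hstar
  have hnd : ∀ a : V d, (∀ j, m j ≤ a j ∧ a j < m j + T.card) → nd a e.1 ≤ 2 * T.card + 1 := by
    intro a ha
    rw [← mem_box_nd, mem_box]
    intro j
    have := ha j
    have := hm e he j
    rw [abs_le]
    omega
  by_cases hn : T.card ≤ N
  · by_contra hcon
    rw [not_or] at hcon
    obtain ⟨j, hj⟩ := not_forall.1 fun h => hcon.1 (hnd a0 h)
    obtain ⟨k, hk⟩ := not_forall.1 fun h => hcon.2 (hnd a1 h)
    refine hne (coarse_colour hd (n := T.card) (fun j => by have := hN j; omega) (fun a ha => ?_)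
      (hK h0) h1 hj hk)
    rw [← hT] at ha
    exact hm a ha
  · left
    rw [← mem_box_nd, mem_box]
    intro j
    have := hK h0 j
    have := (hin e he).1 j
    have := hN j
    rw [abs_le]
    omega

theorem peierls_two (d : ℕ) : ∃ ε0 : ℝ, 0 < ε0 ∧
    ∀ {Ω : Type} [MeasurableSpace Ω] (μ : Measure Ω) [IsProbabilityMeasure μ]
      (Fl : Ω → Finset (E d)) (a0 a1 : V d),
    (∀ T : Finset (E d), μ.real {ω | T ⊆ Fl ω} ≤ ε0 ^ T.card) →
    μ.real {ω | ∃ T : Finset (E d), T ⊆ Fl ω ∧ StarConn (T : Set (E d)) ∧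
      ∃ e ∈ T, nd a0 e.1 ≤ 2 * T.card + 1 ∨ nd a1 e.1 ≤ 2 * T.card + 1} ≤ 1 / 2 := by
  have hA : (0 : ℝ) ≤ 7 ^ d * Ac d := by positivity
  set ε0 : ℝ := 1 / (8 * (d + 1) * (7 ^ d * Ac d + 1)) with hε0
  have hpos : 0 < ε0 := by positivity
  set r : ℝ := 7 ^ d * Ac d * ε0 with hr
  have hr0 : 0 ≤ r := by positivity
  have hr1 : 8 * (d + 1) * r ≤ 1 := by
    rw [hr, hε0, mul_one_div, ← mul_div_assoc, div_le_one (by positivity)]
    exact mul_le_mul_of_nonneg_left (by linarith) (by positivity)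
  have hd0 : (0 : ℝ) ≤ d := Nat.cast_nonneg d
  have hr2 : r ≤ 1 / 2 := by nlinarith
  refine ⟨ε0, hpos, fun {Ω} _ μ _ Fl a0 a1 hF => ?_⟩
  set C : ℕ → Finset (Finset (E d)) := fun n =>
    (boxE a0 (2 * (n + 1) + 1) ∪ boxE a1 (2 * (n + 1) + 1)).biUnion (animals n) with hC
  have hsub : {ω | ∃ T : Finset (E d), T ⊆ Fl ω ∧ StarConn (T : Set (E d)) ∧
      ∃ e ∈ T, nd a0 e.1 ≤ 2 * T.card + 1 ∨ nd a1 e.1 ≤ 2 * T.card + 1} ⊆
      ⋃ n : ℕ, ⋃ Q ∈ C n, {ω | Q ⊆ Fl ω} := by
    rintro ω ⟨T, h1, h2, e, he, h3⟩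
    obtain ⟨n, hn⟩ : ∃ n, T.card = n + 1 :=
      ⟨T.card - 1, by have := card_pos.2 ⟨e, he⟩; omega⟩
    obtain ⟨Q, hQ, hQT⟩ := exists_animal h2 (a := e) he n (by
      rw [Set.encard_coe_eq_coe_finsetCard, hn])
    simp only [Set.mem_iUnion]
    refine ⟨n, Q, mem_biUnion.2 ⟨e, ?_, hQ⟩, (coe_subset.1 hQT).trans h1⟩
    rw [mem_union, mem_boxE', mem_boxE', mem_box_nd, mem_box_nd, ← hn]
    exact h3
  have h7 : ∀ n : ℕ, 2 * (2 * (n + 1) + 1) + 1 ≤ 7 ^ (n + 1) := by
    intro n
    induction n with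
    | zero => norm_num
    | succ n ih => rw [pow_succ]; omega
  have hcard : ∀ n, ((C n).card : ℝ) ≤ 2 * d * (7 ^ d * Ac d) ^ (n + 1) := by
    intro n
    have hv : vol d (2 * (n + 1) + 1) ≤ (7 ^ d) ^ (n + 1) := by
      rw [← pow_mul, mul_comm d, pow_mul, vol]
      refine pow_le_pow_left₀ (by positivity) ?_ d
      exact_mod_cast h7 n
    have h1 : (C n).card ≤ ((boxE a0 (2 * (n + 1) + 1)).card +
        (boxE a1 (2 * (n + 1) + 1)).card) * Ac d ^ (n + 1) :=
      (card_biUnion_le_card_mul _ _ _ fun a _ => card_animals_le a n).trans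
        (Nat.mul_le_mul_right _ (card_union_le _ _))
    have h2 : ((C n).card : ℝ) ≤ (((boxE a0 (2 * (n + 1) + 1)).card : ℝ) +
        (boxE a1 (2 * (n + 1) + 1)).card) * (Ac d : ℝ) ^ (n + 1) := by exact_mod_cast h1
    rw [card_boxE_vol, card_boxE_vol] at h2
    refine h2.trans ?_
    rw [mul_pow, ← mul_assoc]
    refine mul_le_mul_of_nonneg_right ?_ (by positivity)
    nlinarith [mul_le_mul_of_nonneg_left hv hd0]
  refine (measureReal_mono hsub).trans ?_
  refine (real_iUnion_le (f := fun n => 2 * d * r * (1 / 2) ^ n)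
    (summable_geometric_two.mul_left _) fun n => ?_).trans ?_
  · refine (measureReal_biUnion_finset_le _ _).trans ?_
    refine (sum_le_card_nsmul _ _ (ε0 ^ (n + 1)) fun Q hQ => ?_).trans ?_
    · obtain ⟨a, -, ha⟩ := mem_biUnion.1 hQ
      rw [← card_of_mem_animals ha]
      exact hF Q
    · rw [nsmul_eq_mul]
      refine (mul_le_mul_of_nonneg_right (hcard n) (by positivity)).trans ?_
      rw [mul_assoc, ← mul_pow, ← hr, pow_succ', ← mul_assoc]
      exact mul_le_mul_of_nonneg_left (pow_le_pow_left₀ hr0 hr2 n) (by positivity)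
  · rw [tsum_mul_left, tsum_geometric_two]
    nlinarith

end Pool.Agent.P.MP_b4265e_pr.R
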