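import Pool.Agent.P.MP_b4265e_pr.R.GDefs

/-!
Product Bernoulli measures: independence, conditioning, Harris inequality, domination.
-/

namespace Pool.Agent.P.MP_b4265e_pr.R

open Finset MeasureTheory ProbabilityTheory
open scoped Classical

variable {d : ℕ} {ι : Type*} {q : ι → unitInterval}

lemma μP_eq_nu (d : ℕ) (p : unitInterval) : μP d p = nu fun _ : E d => p := by
  unfold μP nu bernP
  rw [setBernoulli_eq_map]
  simp only [Set.mem_univ]

lemma dep_iff_dpI {β : Type*} {S : Finset (E d)} {f : Set (E d) → β} : Dep S f ↔ DpI S f :=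
  Iff.rfl

lemma DpI.mono {β : Type*} {S T : Finset ι} {f : Set ι → β} (h : DpI S f) (hS : S ⊆ T) :
    DpI T f := fun O O' ha => h O O' fun e he => ha e (hS he)

/-- The set coded by a pattern on `S`. -/
def gpExt (S : Finset ι) (g : S → Prop) : Set ι := {i | ∃ h : i ∈ S, g ⟨i, h⟩}

lemma gp_factor {β : Type*} {S : Finset ι} {f : Set ι → β} (h : DpI S f) (O : Set ι) :
    f O = f (gpExt S fun i => i.1 ∈ O) :=
  h _ _ fun _ he => ⟨fun ho => ⟨he, ho⟩, fun ⟨_, ho⟩ => ho⟩

lemma gp_preimage {S : Finset ι} {A : Set ι → Prop} (h : DpI S A) :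
    {O | A O} = (fun (O : Set ι) (i : S) => i.1 ∈ O) ⁻¹' {g | A (gpExt S g)} := by
  ext O
  exact iff_of_eq (gp_factor h O)

lemma DpI.measurableSet {S : Finset ι} {A : Set ι → Prop} (h : DpI S A) :
    MeasurableSet {O | A O} := by
  rw [gp_preimage h]
  exact (measurable_pi_iff.2 fun i : S => measurable_set_mem i.1) MeasurableSet.of_discrete

lemma DpI.finite_range {β : Type*} {S : Finset ι} {f : Set ι → β} (h : DpI S f) :
    (Set.range f).Finite := by
  refine (Set.finite_range fun g : S → Prop => f (gpExt S g)).subset ?_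
  rintro _ ⟨O, rfl⟩
  exact ⟨_, (gp_factor h O).symm⟩

lemma gp_meas : Measurable fun f : ι → Prop => {i | f i} :=
  MeasurableEquiv.setOfPred.measurable

lemma nu_preimage {κ : Type*} {j : κ → ι} (hj : Function.Injective j) :
    MeasurePreserving (fun O : Set ι => j ⁻¹' O) (nu q) (nu (q ∘ j)) := by
  have hm : Measurable fun O : Set ι => j ⁻¹' O :=
    measurable_set_iff.2 fun k => measurable_set_mem (j k)
  refine ⟨hm, ?_⟩
  unfold nu
  have h := Measure.map_infinitePi_infinitePi_of_inj (P := fun i => bernP (q i)) hj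
  rw [Measure.map_map hm gp_meas]
  simp only [Function.comp_apply]
  rw [← h, Measure.map_map gp_meas (by fun_prop)]
  rfl

lemma gp_apply {A : Set (Set ι)} (hA : MeasurableSet A) :
    nu q A = Measure.infinitePi (fun i => bernP (q i)) ((fun f : ι → Prop => {i | f i}) ⁻¹' A) := by
  unfold nu
  rw [Measure.map_apply gp_meas hA]

lemma nu_inter {S T : Finset ι} {A B : Set ι → Prop} (hA : DpI S A) (hB : DpI T B)
    (h : Disjoint S T) :
    (nu q).real {O | A O ∧ B O} = (nu q).real {O | A O} * (nu q).real {O | B O} := by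
  have h1 := (iIndepFun_infinitePi (P := fun i => bernP (q i)) (X := fun _ ω => ω)
    (fun _ => measurable_id)).indepFun_finset S T h (fun i => measurable_pi_apply i)
  have h2 := h1.measure_inter_preimage_eq_mul {g | A (gpExt S g)} {g | B (gpExt T g)}
    MeasurableSet.of_discrete MeasurableSet.of_discrete
  have h3 : nu q {O | A O ∧ B O} = nu q {O | A O} * nu q {O | B O} := by
    rw [Set.ofPred_and, gp_apply (hA.measurableSet.inter hB.measurableSet),
      gp_apply hA.measurableSet, gp_apply hB.measurableSet, gp_preimage hA, gp_preimage hB]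
    exact h2
  simp only [Measure.real, h3, ENNReal.toReal_mul]

lemma gp_dp_mem (e : ι) : DpI {e} fun O : Set ι => e ∈ O :=
  fun _ _ h => propext (h e (mem_singleton_self e))

lemma gp_dp_not {S : Finset ι} {A : Set ι → Prop} (h : DpI S A) : DpI S fun O => ¬ A O :=
  fun O O' ha => by simp only [h O O' ha]

lemma gp_dp_and {S : Finset ι} {A B : Set ι → Prop} (h : DpI S A) (h' : DpI S B) :
    DpI S fun O => A O ∧ B O :=
  fun O O' ha => by simp only [h O O' ha, h' O O' ha]

lemma gp_not {S : Finset ι} {A : Set ι → Prop} (h : DpI S A) :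
    (nu q).real {O | ¬ A O} = 1 - (nu q).real {O | A O} := by
  rw [← probReal_compl_eq_one_sub h.measurableSet]
  rfl

lemma gp_mem (e : ι) : (nu q).real {O | e ∈ O} = q e := by
  have h1 : nu q {O | e ∈ O} = bernP (q e) {True} := by
    rw [gp_apply (gp_dp_mem e).measurableSet,
      ← Measure.infinitePi_map_eval (fun i => bernP (q i)) e,
      Measure.map_apply (measurable_pi_apply e) MeasurableSet.of_discrete]
    congr 1
    ext f
    simp
  rw [Measure.real, h1]
  simp [bernP]

/-- Splitting along a local event. -/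
lemma gp_cut {S T : Finset ι} {A B : Set ι → Prop} (hA : DpI S A) (hB : DpI T B) :
    (nu q).real {O | A O} =
      (nu q).real {O | B O ∧ A O} + (nu q).real {O | ¬ B O ∧ A O} := by
  rw [← measureReal_inter_add_sdiff (s := {O | A O}) hB.measurableSet]
  congr 2 <;> ext O <;> simp [and_comm]

lemma gp_dp_ins {β : Type*} {S : Finset ι} {e : ι} {f : Set ι → β} (h : DpI (insert e S) f) :
    DpI S fun O => f (insert e O) := fun O O' ha => h _ _ fun x hx => by
  rcases mem_insert.1 hx with rfl | hx
  · simp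
  · simp [ha x hx]

lemma gp_dp_del {β : Type*} {S : Finset ι} {e : ι} {f : Set ι → β} (h : DpI (insert e S) f) :
    DpI S fun O => f (O \ {e}) := fun O O' ha => h _ _ fun x hx => by
  rcases mem_insert.1 hx with rfl | hx
  · simp
  · simp [ha x hx]

lemma gp_ins_eq {β : Type*} {S : Finset ι} {e : ι} {f : Set ι → β} (h : DpI S f) (he : e ∉ S)
    (O : Set ι) : f (insert e O) = f O := h _ _ fun x hx => by
  have : x ≠ e := fun h' => he (h' ▸ hx)
  simp [this]

lemma gp_del_eq {β : Type*} {S : Finset ι} {e : ι} {f : Set ι → β} (h : DpI S f) (he : e ∉ S)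
    (O : Set ι) : f (O \ {e}) = f O := h _ _ fun x hx => by
  have : x ≠ e := fun h' => he (h' ▸ hx)
  simp [this]

/-- Conditioning on one coordinate. -/
lemma gp_split {S : Finset ι} {e : ι} (he : e ∉ S) {A : Set ι → Prop}
    (hA : DpI (insert e S) A) :
    (nu q).real {O | A O} = q e * (nu q).real {O | A (insert e O)} +
      (1 - q e) * (nu q).real {O | A (O \ {e})} := by
  have hd : Disjoint {e} S := disjoint_singleton_left.2 he
  rw [gp_cut hA (gp_dp_mem e), ← gp_mem (q := q) e, ← gp_not (gp_dp_mem e),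
    ← nu_inter (gp_dp_mem e) (gp_dp_ins hA) hd,
    ← nu_inter (gp_dp_not (gp_dp_mem e)) (gp_dp_del hA) hd]
  congr 2 <;> ext O <;> refine and_congr_right fun h => ?_
  · rw [Set.insert_eq_of_mem h]
  · rw [Set.sdiff_singleton_eq_self h]

lemma gp_empty {A : Set ι → Prop} (hA : DpI ∅ A) :
    (nu q).real {O | A O} = if A ∅ then 1 else 0 := by
  have h : ∀ O, A O = A ∅ := fun O => hA _ _ fun _ h => absurd h (notMem_empty _)
  simp only [h]
  split_ifs with h' <;> simp [h']

lemma nu_closed (S : Finset ι) :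
    (nu q).real {O | ∀ e ∈ S, e ∉ O} = ∏ e ∈ S, (1 - (q e : ℝ)) := by
  induction S using Finset.induction_on with
  | empty => simp
  | insert e S he ih =>
    have h1 : DpI S fun O : Set ι => ∀ x ∈ S, x ∉ O := fun O O' ha =>
      propext (forall₂_congr fun x hx => not_congr (ha x hx))
    simp only [forall_mem_insert]
    rw [nu_inter (gp_dp_not (gp_dp_mem e)) h1 (disjoint_singleton_left.2 he), prod_insert he, ih,
      gp_not (gp_dp_mem e), gp_mem]

lemma nu_open (S : Finset ι) : (nu q).real {O | ∀ e ∈ S, e ∈ O} = ∏ e ∈ S, (q e : ℝ) := by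
  induction S using Finset.induction_on with
  | empty => simp
  | insert e S he ih =>
    have h1 : DpI S fun O : Set ι => ∀ x ∈ S, x ∈ O := fun O O' ha =>
      propext (forall₂_congr fun x hx => ha x hx)
    simp only [forall_mem_insert]
    rw [nu_inter (gp_dp_mem e) h1 (disjoint_singleton_left.2 he), prod_insert he, ih, gp_mem]

lemma gp_dp_diag {S T : Finset ι} {F : Set ι → Set ι → Prop}
    (h1 : ∀ O', DpI S fun O => F O O') (h2 : ∀ O, DpI T (F O)) :
    DpI (S ∪ T) fun O => F O O := fun O O' ha =>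
  (h1 O O O' fun e he => ha e (mem_union_left _ he)).trans
    (h2 O' O O' fun e he => ha e (mem_union_right _ he))

/-- Conditioning on the edges of `S`, with a sign. -/
lemma gp_cond (s : ℝ) {S T : Finset ι} (h : Disjoint S T) {A : Set ι → Prop} (hA : DpI S A)
    {F : Set ι → Set ι → Prop} (h1 : ∀ O', DpI S fun O => F O O') (h2 : ∀ O, DpI T (F O)) {c : ℝ}
    (hc : ∀ O, A O → s * (nu q).real {O' | F O O'} ≤ c) :
    s * (nu q).real {O | A O ∧ F O O} ≤ c * (nu q).real {O | A O} := by
  induction S using Finset.induction_on generalizing A F with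
  | empty =>
    have e1 : ∀ O, A O = A ∅ := fun O => hA _ _ fun _ h => absurd h (notMem_empty _)
    have e2 : ∀ O, F O O = F ∅ O := fun O => h1 O _ _ fun _ h => absurd h (notMem_empty _)
    simp only [e1, e2]
    by_cases ha : A ∅
    · simpa [ha] using hc ∅ ha
    · simp [ha]
  | insert e S he ih =>
    have heT : e ∉ T := disjoint_left.1 h (mem_insert_self _ _)
    have hST : Disjoint S T := h.mono_left (subset_insert _ _)
    have hd : DpI (insert e (S ∪ T)) fun O => A O ∧ F O O := by
      rw [← insert_union]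
      exact gp_dp_and (hA.mono subset_union_left) (gp_dp_diag h1 h2)
    have a1 := ih hST (gp_dp_ins hA) (F := fun O O' => F (insert e O) O')
      (fun O' => gp_dp_ins (h1 O')) (fun O => h2 _) fun O hO => hc _ hO
    have a0 := ih hST (gp_dp_del hA) (F := fun O O' => F (O \ {e}) O')
      (fun O' => gp_dp_del (h1 O')) (fun O => h2 _) fun O hO => hc _ hO
    rw [gp_split (by simp [he, heT]) hd, gp_split he hA]
    simp only [gp_ins_eq (h2 _) heT, gp_del_eq (h2 _) heT]
    have q0 := (q e).2.1
    have q1 := sub_nonneg.2 (q e).2.2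
    have b1 := mul_le_mul_of_nonneg_left a1 q0
    have b0 := mul_le_mul_of_nonneg_left a0 q1
    linarith

/-- Conditioning on the edges of `S`, upper bound. -/
lemma nu_cond_le {S T : Finset ι} (h : Disjoint S T) {A : Set ι → Prop} (hA : DpI S A)
    {F : Set ι → Set ι → Prop} (h1 : ∀ O', DpI S fun O => F O O') (h2 : ∀ O, DpI T (F O)) {c : ℝ}
    (hc : ∀ O, A O → (nu q).real {O' | F O O'} ≤ c) :
    (nu q).real {O | A O ∧ F O O} ≤ c * (nu q).real {O | A O} := by
  simpa using gp_cond (q := q) 1 h hA h1 h2 (c := c) (by simpa using hc)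

/-- Conditioning on the edges of `S`, lower bound. -/
lemma nu_cond_ge {S T : Finset ι} (h : Disjoint S T) {A : Set ι → Prop} (hA : DpI S A)
    {F : Set ι → Set ι → Prop} (h1 : ∀ O', DpI S fun O => F O O') (h2 : ∀ O, DpI T (F O)) {c : ℝ}
    (hc : ∀ O, A O → c ≤ (nu q).real {O' | F O O'}) :
    c * (nu q).real {O | A O} ≤ (nu q).real {O | A O ∧ F O O} := by
  simpa using gp_cond (q := q) (-1) h hA h1 h2 (c := -c) (by simpa using hc)

lemma gp_incr_ins {A : Set ι → Prop} (h : Incr A) (e : ι) : Incr fun O => A (insert e O) :=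
  fun _ _ hO => h _ _ (Set.insert_subset_insert hO)

lemma gp_incr_del {A : Set ι → Prop} (h : Incr A) (e : ι) : Incr fun O => A (O \ {e}) :=
  fun _ _ hO => h _ _ (Set.sdiff_subset_sdiff_left hO)

lemma gp_del_le_ins {A : Set ι → Prop} (h : Incr A) (e : ι) :
    (nu q).real {O | A (O \ {e})} ≤ (nu q).real {O | A (insert e O)} :=
  measureReal_mono fun O hO => h _ _ (Set.sdiff_subset.trans (Set.subset_insert _ _)) hO

/-- Harris inequality. -/
theorem harris {S : Finset ι} {A B : Set ι → Prop} (hA : DpI S A) (hB : DpI S B) (iA : Incr A)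
    (iB : Incr B) :
    (nu q).real {O | A O} * (nu q).real {O | B O} ≤ (nu q).real {O | A O ∧ B O} := by
  induction S using Finset.induction_on generalizing A B with
  | empty => exact (nu_inter hA hB (disjoint_empty_left _)).ge
  | insert e S he ih =>
    have a1 := ih (gp_dp_ins hA) (gp_dp_ins hB) (gp_incr_ins iA e) (gp_incr_ins iB e)
    have a0 := ih (gp_dp_del hA) (gp_dp_del hB) (gp_incr_del iA e) (gp_incr_del iB e)
    have c1 := sub_nonneg.2 (gp_del_le_ins (q := q) iA e)
    have c2 := sub_nonneg.2 (gp_del_le_ins (q := q) iB e)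
    rw [gp_split he (gp_dp_and hA hB), gp_split he hA, gp_split he hB]
    have q0 := (q e).2.1
    have q1 := sub_nonneg.2 (q e).2.2
    have b1 := mul_le_mul_of_nonneg_left a1 q0
    have b0 := mul_le_mul_of_nonneg_left a0 q1
    have b2 := mul_nonneg (mul_nonneg q0 q1) (mul_nonneg c1 c2)
    linarith

theorem harris_not {κ : Type*} (I : Finset κ) {S : Finset ι} {A : κ → Set ι → Prop}
    (hA : ∀ k ∈ I, DpI S (A k)) (iA : ∀ k ∈ I, Incr (A k)) :
    ∏ k ∈ I, (nu q).real {O | ¬ A k O} ≤ (nu q).real {O | ∀ k ∈ I, ¬ A k O} := by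
  induction I using Finset.induction_on with
  | empty => simp
  | insert k I hk ih =>
    have ih' := ih (fun j hj => hA j (mem_insert_of_mem hj)) fun j hj => iA j (mem_insert_of_mem hj)
    have hk1 := hA k (mem_insert_self _ _)
    have hB : DpI S fun O => ∃ j ∈ I, A j O := fun O O' ha =>
      propext (exists_congr fun j => and_congr_right fun hj =>
        iff_of_eq (hA j (mem_insert_of_mem hj) O O' ha))
    have iB : Incr fun O => ∃ j ∈ I, A j O := fun O O' hO ⟨j, hj, h⟩ =>
      ⟨j, hj, iA j (mem_insert_of_mem hj) O O' hO h⟩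
    have h1 := harris (q := q) hk1 hB (iA k (mem_insert_self _ _)) iB
    have h2 := gp_cut (q := q) hB hk1
    have h3 := gp_cut (q := q) (gp_dp_not hk1) hB
    have h4 := gp_not (q := q) hk1
    have h5 := gp_not (q := q) hB
    have e1 : {O | ¬ ∃ j ∈ I, A j O} = {O | ∀ j ∈ I, ¬ A j O} := by ext O; simp
    have e2 : {O | (¬ ∃ j ∈ I, A j O) ∧ ¬ A k O} = {O | ∀ j ∈ insert k I, ¬ A j O} := by
      ext O
      simp only [Set.mem_ofPred_eq, forall_mem_insert, not_exists, not_and]
      exact and_comm
    have e3 : {O | (∃ j ∈ I, A j O) ∧ ¬ A k O} = {O | ¬ A k O ∧ ∃ j ∈ I, A j O} := by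
      ext O; simp only [Set.mem_ofPred_eq, and_comm]
    rw [e1] at h5
    rw [e2, e3] at h3
    rw [prod_insert hk]
    refine (mul_le_mul_of_nonneg_left ih' measureReal_nonneg).trans ?_
    rw [h5, h4]
    linarith

/-- Monotonicity in the parameters. -/
theorem nu_mono {q' : ι → unitInterval} (hq : ∀ e, q e ≤ q' e) {S : Finset ι} {A : Set ι → Prop}
    (hA : DpI S A) (iA : Incr A) : (nu q).real {O | A O} ≤ (nu q').real {O | A O} := by
  induction S using Finset.induction_on generalizing A with
  | empty => rw [gp_empty hA, gp_empty hA]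
  | insert e S he ih =>
    have a1 := ih (gp_dp_ins hA) (gp_incr_ins iA e)
    have a0 := ih (gp_dp_del hA) (gp_incr_del iA e)
    have c1 := sub_nonneg.2 (gp_del_le_ins (q := q') iA e)
    rw [gp_split (q := q) he hA, gp_split (q := q') he hA]
    have q0 := (q e).2.1
    have q1 := sub_nonneg.2 (q e).2.2
    have q2 : 0 ≤ (q' e : ℝ) - q e := sub_nonneg.2 (hq e)
    have b1 := mul_le_mul_of_nonneg_left a1 q0
    have b0 := mul_le_mul_of_nonneg_left a0 q1
    have b2 := mul_nonneg q2 c1
    linarith

lemma gp_dp_unl {τ β : Type*} (Q : Finset τ) {S : Finset ι} {f : Set ι → β} (h : DpI S f) :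
    DpI (S ×ˢ Q) fun O : Set (ι × τ) => f (unl Q O) := fun _ _ ha => h _ _ fun e he =>
  exists_congr fun s => and_congr_right fun hs => ha (e, s) (mem_product.2 ⟨he, hs⟩)

/-- The union of independent layers is dominated. -/
theorem nu_unl_le {τ : Type*} (Q : Finset τ) {q : ι × τ → unitInterval} {q' : ι → unitInterval}
    (hq : ∀ e, 1 - (q' e : ℝ) ≤ ∏ s ∈ Q, (1 - (q (e, s) : ℝ))) {S : Finset ι} {A : Set ι → Prop}
    (hA : DpI S A) (iA : Incr A) :
    (nu q).real {O | A (unl Q O)} ≤ (nu q').real {O | A O} := by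
  induction S using Finset.induction_on generalizing A with
  | empty =>
    have e1 : ∀ O, A O = A ∅ := fun O => hA _ _ fun _ h => absurd h (notMem_empty _)
    simp only [e1]
    by_cases ha : A ∅ <;> simp [ha]
  | insert e S he ih =>
    have a1 := ih (gp_dp_ins hA) (gp_incr_ins iA e)
    have a0 := ih (gp_dp_del hA) (gp_incr_del iA e)
    have c1 := sub_nonneg.2 (gp_del_le_ins (q := q') iA e)
    have hm := gp_dp_unl Q (gp_dp_mem e)
    have hd : Disjoint ({e} ×ˢ Q) (S ×ˢ Q) :=
      disjoint_product.2 (Or.inl (disjoint_singleton_left.2 he))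
    have r0 : (nu q).real {O | e ∉ unl Q O} = ∏ s ∈ Q, (1 - (q (e, s) : ℝ)) := by
      have h1 := nu_closed (q := q) ({e} ×ˢ Q)
      rw [prod_product, prod_singleton] at h1
      rw [← h1]
      congr 1
      ext O
      simp [unl]
    have r1 := gp_not (q := q) hm
    have s1 : (nu q).real {O | e ∈ unl Q O ∧ A (unl Q O)} =
        (nu q).real {O | e ∈ unl Q O} * (nu q).real {O | A (insert e (unl Q O))} := by
      rw [← nu_inter hm (gp_dp_unl Q (gp_dp_ins hA)) hd]
      congr 1
      ext O
      exact and_congr_right fun h => by rw [Set.insert_eq_of_mem h]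
    have s0 : (nu q).real {O | e ∉ unl Q O ∧ A (unl Q O)} =
        (nu q).real {O | e ∉ unl Q O} * (nu q).real {O | A (unl Q O \ {e})} := by
      rw [← nu_inter (gp_dp_not hm) (gp_dp_unl Q (gp_dp_del hA)) hd]
      congr 1
      ext O
      exact and_congr_right fun h => by rw [Set.sdiff_singleton_eq_self h]
    rw [gp_cut (gp_dp_unl Q hA) hm, s1, s0, gp_split (q := q') he hA]
    have q2 : 0 ≤ (q' e : ℝ) - (nu q).real {O | e ∈ unl Q O} := by
      have := hq e
      linarith
    have b1 := mul_le_mul_of_nonneg_left a1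
      (measureReal_nonneg (μ := nu q) (s := {O | e ∈ unl Q O}))
    have b0 := mul_le_mul_of_nonneg_left a0
      (measureReal_nonneg (μ := nu q) (s := {O | e ∉ unl Q O}))
    have b2 := mul_nonneg q2 c1
    rw [r1] at b0 ⊢
    linarith

end Pool.Agent.P.MP_b4265e_pr.R
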