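import Pool.Agent.P.MP_b4265e_pr.R.GUniq
import Pool.Agent.P.MP_b4265e_pr.R.GProd
import Pool.Agent.P.MP_b4265e_pr.R.Sym

/-!
Connections to quarter faces without seeds.
-/

namespace Pool.Agent.P.MP_b4265e_pr.R

open Finset MeasureTheory ProbabilityTheory Filter
open scoped Classical

variable {d : ℕ} {p : unitInterval}

/-- The small box is joined to a quarter face of the large box. -/
def gseedEv (y : V d) (k K : ℕ) (i : Fin d) (σ : Fin d → ℤˣ) (O : Set (E d)) : Prop :=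
  ∃ a ∈ box y k, ∃ w ∈ qf y K i σ, w ∈ comp (O ∩ ins (box y K : Set (V d))) a

lemma gseed_dep (y : V d) (k K : ℕ) (i : Fin d) (σ : Fin d → ℤˣ) :
    DpI (boxE y K) (gseedEv y k K i σ) := fun O O' h => by
  unfold gseedEv
  rw [inter_congr (S := boxE y K) h (ins_box_subset y K)]

lemma gseed_incr (y : V d) (k K : ℕ) (i : Fin d) (σ : Fin d → ℤˣ) :
    Incr (gseedEv y k K i σ) := fun _ _ h ⟨a, ha, w, hw, hc⟩ =>
  ⟨a, ha, w, hw, comp_mono (Set.inter_subset_inter_left _ h) a hc⟩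

lemma gseed_sh (y : V d) (k K : ℕ) (i : Fin d) (σ : Fin d → ℤˣ) (O : Set (E d)) :
    gseedEv 0 k K i σ (sh y O) ↔ gseedEv y k K i σ O := by
  have hq : ∀ w, w ∈ qf 0 K i σ ↔ w + y ∈ qf y K i σ := fun w => by simp [qf]
  have hb : ∀ a, a ∈ box 0 k ↔ a + y ∈ box y k := fun a => by simp [mem_box]
  simp only [gseedEv, comp_sh_ins_box, zero_add, hq, hb]
  constructor
  · rintro ⟨a, ha, w, hw, h⟩
    exact ⟨_, ha, _, hw, h⟩
  · rintro ⟨a, ha, w, hw, h⟩
    exact ⟨a - y, by simpa using ha, w - y, by simpa using hw, by simpa using h⟩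

lemma gseed_sp (π : Equiv.Perm (Fin d)) (k K : ℕ) (i : Fin d) (σ : Fin d → ℤˣ) (O : Set (E d)) :
    gseedEv 0 k K i 1 (spO π (σ ∘ π) O) ↔ gseedEv 0 k K (π i) σ O := by
  have hq : ∀ w, w ∈ qf 0 K i 1 ↔ sp π (σ ∘ π) w ∈ qf 0 K (π i) σ := fun w => by
    simp only [qf, Set.mem_ofPred_eq]
    rw [π.surjective.forall (p := fun l => 0 ≤ (σ l : ℤ) * _ ∧ _)]
    simp [sp_apply, ← mul_assoc]
  have hb : ∀ (a : V d) (r : ℕ), a ∈ box 0 r ↔ sp π (σ ∘ π) a ∈ box 0 r := fun a r => by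
    rw [← sym_mem_box (π := π) (ε := σ ∘ π), sp_zero]
  have hc : ∀ a w : V d, w ∈ comp (spO π (σ ∘ π) O ∩ ins (box (0 : V d) K : Set (V d))) a ↔
      sp π (σ ∘ π) w ∈ comp (O ∩ ins (box (0 : V d) K : Set (V d))) (sp π (σ ∘ π) a) := by
    intro a w
    rw [← comp_spO_ins]
    have := preimage_sp_box (π := π) (ε := σ ∘ π) 0 K
    rw [sp_zero] at this
    rw [this]
  constructor
  · rintro ⟨a, ha, w, hw, h⟩
    exact ⟨_, (hb a k).1 ha, _, (hq w).1 hw, (hc a w).1 h⟩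
  · rintro ⟨a, ha, w, hw, h⟩
    obtain ⟨a, rfl⟩ := (sp_bijective (π := π) (ε := σ ∘ π)).2 a
    obtain ⟨w, rfl⟩ := (sp_bijective (π := π) (ε := σ ∘ π)).2 w
    exact ⟨a, (hb a k).2 ha, w, (hq w).2 hw, (hc a w).2 h⟩

lemma gseed_prob (y : V d) (k K : ℕ) (i i0 : Fin d) (σ : Fin d → ℤˣ) :
    (μP d p).real {O | ¬ gseedEv y k K i σ O} = (μP d p).real {O | ¬ gseedEv 0 k K i0 1 O} := by
  have h1 := real_sh (p := p) y fun O => ¬ gseedEv 0 k K i σ O
  have h2 := real_spO (p := p) (π := Equiv.swap i0 i) (ε := σ ∘ Equiv.swap i0 i)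
    (f := fun O => ¬ gseedEv 0 k K i0 1 O) (gseed_dep 0 k K i0 1).measurableSet.compl
  simp only [gseed_sh] at h1
  simp only [gseed_sp, Equiv.swap_apply_left] at h2
  exact h1.trans h2

lemma gseed_arm {O : Set (E d)} {y a : V d} {k K : ℕ} (hk : k ≤ K) (ha : a ∈ box y k)
    (hC : a ∈ Cl O) : Arm O y K a := by
  obtain ⟨w, h1, h2⟩ := Set.Infinite.exists_notMem_finset hC (box y K)
  exact arm_of_far (box_mono y hk ha) h1 h2

lemma gseed_cover {O : Set (E d)} {y a : V d} {k K : ℕ} (hk : k ≤ K) (ha : a ∈ box y k)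
    (hC : a ∈ Cl O) : ∃ i σ, gseedEv y k (K + 1) i σ O := by
  obtain ⟨w, h1, h2⟩ := gseed_arm hk ha hC
  have h3 : w ∈ box y (K + 1) :=
    mem_of_comp Set.inter_subset_right (mem_coe.2 (box_mono y (by omega) ha)) h2
  rw [mem_box] at h1 h3
  obtain ⟨i, hi⟩ := not_forall.1 h1
  refine ⟨i, fun l => if 0 ≤ w l - y l then 1 else -1, a, ha, w, ⟨?_, fun l => ?_⟩, h2⟩
  · have := abs_le.1 (h3 i)
    rw [abs_le] at hi
    beta_reduce
    split_ifs <;> push_cast at * <;> omega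
  · have := abs_le.1 (h3 l)
    beta_reduce
    split_ifs <;> push_cast at * <;> omega

theorem exists_seed (hd : 1 ≤ d) (hθ : 0 < (μP d p).real {O | (0 : V d) ∈ Cl O}) {ε' : ℝ}
    (hε : 0 < ε') : ∃ k K : ℕ, k + 1 ≤ K ∧ Seed d p ε' k K := by
  have h3 : 0 < ε' / 3 := by linarith
  let i0 : Fin d := ⟨0, hd⟩
  set M := Fintype.card (Fin d × (Fin d → ℤˣ)) with hM
  have hM0 : M ≠ 0 := (Fintype.card_pos_iff.2 ⟨(i0, 1)⟩).ne'
  obtain ⟨N, hN⟩ := hit_Cl hθ h3
  obtain ⟨N', hN'⟩ := hit_Cl hθ (pow_pos h3 M)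
  obtain ⟨K, hK, hkK⟩ := ((uniq_zone hd (pos_of_theta hθ) (N + N') h3).and
    (eventually_ge_atTop (N + N'))).exists
  refine ⟨N + N', K + 1, by omega, fun y i σ A hA hc => ?_⟩
  have b1 := hN A (by omega)
  have b2 : (μP d p).real {O | ¬ gseedEv y (N + N') (K + 1) i σ O} ≤ ε' / 3 := by
    have a1 := harris_not (q := fun _ : E d => p) (univ : Finset (Fin d × (Fin d → ℤˣ)))
      (A := fun c => gseedEv y (N + N') (K + 1) c.1 c.2)
      (fun c _ => gseed_dep y _ _ c.1 c.2) fun c _ => gseed_incr y _ _ c.1 c.2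
    rw [← μP_eq_nu] at a1
    simp only [fun i σ => gseed_prob (p := p) y (N + N') (K + 1) i i0 σ, prod_const,
      card_univ] at a1
    have a2 := hN' (box y (N + N')) (by
      rw [card_box]
      exact le_trans (by omega) (Nat.le_self_pow (by omega) _))
    rw [gseed_prob y _ _ i i0]
    refine le_of_pow_le_pow_left₀ hM0 h3.le (a1.trans ((measureReal_mono ?_).trans a2))
    rintro O hO ⟨a, ha, hC⟩
    obtain ⟨j, τ, h⟩ := gseed_cover hkK ha hC
    exact hO (j, τ) (mem_univ _) h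
  refine le_trans ((measureReal_mono ?_).trans ((measureReal_union_le _ _).trans
    (add_le_add ((measureReal_union_le _ _).trans (add_le_add b1 b2)) (hK y)))) (by linarith)
  intro O hO
  by_contra hn
  simp only [Set.mem_union, Set.mem_ofPred_eq, not_or, not_not] at hn
  obtain ⟨⟨⟨a, ha, hC⟩, a', ha', w, hw, hc'⟩, hu⟩ := hn
  have h1 : a' ∈ comp (O ∩ ins (box y (K + 1) : Set (V d))) a := by
    by_contra h
    refine hu ⟨a, hA ha, a', ha', gseed_arm hkK (hA ha) hC, ⟨w, fun hb => ?_, hc'⟩, h⟩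
    have h2 := mem_box.1 hb i
    rw [hw.1, abs_mul] at h2
    rcases Int.units_eq_one_or (σ i) with e | e <;> rw [e] at h2 <;> simp at h2 <;>
      rw [abs_le] at h2 <;> omega
  exact hO ⟨a, ha, w, hw, comp_trans h1 hc'⟩

end Pool.Agent.P.MP_b4265e_pr.R
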