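import Pool.Agent.P.MP_b4265e_pr.R.GSlab

/-!
Two-point connectivity in shells, peeling, and the renormalisation event.
-/

namespace Pool.Agent.P.MP_b4265e_pr.R

open Finset MeasureTheory ProbabilityTheory Filter
open scoped Classical

variable {d : ℕ} {p : unitInterval}

lemma gsh_inter {T : Finset (E d)} {U O O' : Set (E d)} (hU : U ⊆ T) (h : AgI T O O') :
    O ∩ U = O' ∩ U := by
  ext e
  exact ⟨fun he => ⟨(h e (hU he.2)).1 he.1, he.2⟩, fun he => ⟨(h e (hU he.2)).2 he.1, he.2⟩⟩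

lemma gsh_dp {T : Finset (E d)} {U : Set (E d)} (hU : U ⊆ T) (a b : V d) :
    DpI T fun O => b ∈ comp (O ∩ U) a := fun O O' h => by
  simp only [gsh_inter hU h]

lemma gsh_incr (U : Set (E d)) (a b : V d) : Incr fun O => b ∈ comp (O ∩ U) a :=
  fun _ _ h hb => comp_mono (Set.inter_subset_inter_left U h) a hb

lemma gsh_ins_mono {S S' : Set (V d)} (h : S ⊆ S') : ins S ⊆ ins S' :=
  fun _ he => ⟨h he.1, h he.2⟩

lemma conn_chain {S1 S2 S : Set (V d)} (hS : S.Finite) (h1 : S1 ⊆ S) (h2 : S2 ⊆ S) {a b c : V d}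
    {δ1 δ2 : ℝ} (hδ1 : 0 ≤ δ1) (hδ2 : 0 ≤ δ2)
    (hab : δ1 ≤ (μP d p).real {O | b ∈ comp (O ∩ ins S1) a})
    (hbc : δ2 ≤ (μP d p).real {O | c ∈ comp (O ∩ ins S2) b}) :
    δ1 * δ2 ≤ (μP d p).real {O | c ∈ comp (O ∩ ins S) a} := by
  have hT : ins S ⊆ ((hS.toFinset ×ˢ (univ : Finset (Fin d)) : Finset (E d)) : Set (E d)) := by
    intro e he
    simp only [Finset.coe_product, Set.Finite.coe_toFinset, coe_univ, Set.mem_prod, Set.mem_univ,
      and_true]
    exact he.1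
  have h := harris (q := fun _ : E d => p) (gsh_dp ((gsh_ins_mono h1).trans hT) a b)
    (gsh_dp ((gsh_ins_mono h2).trans hT) b c) (gsh_incr _ a b) (gsh_incr _ b c)
  rw [← μP_eq_nu] at h
  refine (mul_le_mul hab hbc hδ2 (hδ1.trans hab)).trans (h.trans (measureReal_mono ?_))
  rintro O ⟨h3, h4⟩
  exact comp_trans (comp_mono (Set.inter_subset_inter_right O (gsh_ins_mono h1)) a h3)
    (comp_mono (Set.inter_subset_inter_right O (gsh_ins_mono h2)) b h4)

/-- A face of a shell. -/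
def gshF (r K : ℕ) (i : Fin d) (a : ℤ) : Set (V d) :=
  {y | a ≤ y i ∧ y i ≤ a + 4 * K ∧ ∀ l, |y l| ≤ r + 4 * K + 1}

lemma gshF_sub {r K : ℕ} {i : Fin d} {a : ℤ} (ha : a = r + 1 ∨ a = -(r + 4 * K + 1)) :
    gshF r K i a ⊆ (ann (0 : V d) (r + 1) (r + 4 * K + 1) : Set (V d)) := by
  rintro y ⟨h1, h2, h3⟩
  rw [Finset.mem_coe, mem_ann]
  constructor
  · have h4 := abs_le_nd 0 y i
    simp only [Pi.zero_apply, sub_zero] at h4
    have h5 := le_abs_self (y i)
    have h6 := neg_abs_le (y i)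
    rcases ha with rfl | rfl <;> omega
  · rw [← mem_box_nd, mem_box]
    intro l
    simpa using h3 l

lemma gsh_exists_face (hd : 1 ≤ d) {r K : ℕ} {y : V d}
    (hy : y ∈ (ann (0 : V d) (r + 1) (r + 4 * K + 1) : Set (V d))) :
    ∃ i a, (a = (r : ℤ) + 1 ∨ a = -((r : ℤ) + 4 * K + 1)) ∧ y ∈ gshF r K i a := by
  rw [Finset.mem_coe, mem_ann] at hy
  obtain ⟨i, hi⟩ := exists_nd_eq hd 0 y
  have h3 : ∀ l, |y l| ≤ r + 4 * K + 1 := by
    intro l
    have h4 := abs_le_nd 0 y l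
    simp only [Pi.zero_apply, sub_zero] at h4
    omega
  simp only [Pi.zero_apply, sub_zero] at hi
  have h4 := h3 i
  rcases abs_cases (y i) with h5 | h5
  · exact ⟨i, _, Or.inl rfl, by omega, by omega, h3⟩
  · exact ⟨i, _, Or.inr rfl, by omega, by omega, h3⟩

lemma gsh_third (hd : 3 ≤ d) (i j : Fin d) : ∃ k : Fin d, k ≠ i ∧ k ≠ j := by
  by_contra h
  push Not at h
  have h1 : (univ : Finset (Fin d)) ⊆ {i, j} := by
    intro k _
    by_cases e : k = i
    · simp [e]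
    · simp [h k e]
  have h2 := (card_le_card h1).trans card_le_two
  simp only [card_univ, Fintype.card_fin] at h2
  omega

lemma gsh_one (hd : 3 ≤ d) {K : ℕ} {δ : ℝ}
    (h : ∀ (i j : Fin d) (lo hi : V d), i ≠ j → lo i + 8 * K ≤ hi i → hi j - lo j = hi i - lo i →
      (∀ l, l ≠ i → l ≠ j → hi l = lo l + 4 * K) → TwoPt p δ (rect lo hi)) {r : ℕ} {i : Fin d}
    {a : ℤ} (ha : a = r + 1 ∨ a = -(r + 4 * K + 1)) {b b' : V d} (hb : b ∈ gshF r K i a)
    (hb' : b' ∈ gshF r K i a) (j : Fin d) (hj : ∀ l, l ≠ j → b' l = b l) :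
    δ ≤ (μP d p).real {O | b' ∈ comp (O ∩ ins (gshF r K i a)) b} := by
  obtain ⟨j1, j2, e1, e2, e3, e4⟩ : ∃ j1 j2 : Fin d, j1 ≠ i ∧ j2 ≠ i ∧ j1 ≠ j2 ∧
      (j = i ∨ j = j1) := by
    by_cases e : j = i
    · obtain ⟨j1, h1, _⟩ := gsh_third hd i i
      obtain ⟨j2, h2, h3⟩ := gsh_third hd i j1
      exact ⟨j1, j2, h1, h2, h3.symm, Or.inl e⟩
    · obtain ⟨j2, h2, h3⟩ := gsh_third hd i j
      exact ⟨j, j2, e, h2, h3.symm, Or.inr rfl⟩
  set lo : V d := fun l => if l = j1 ∨ l = j2 then -((r : ℤ) + 4 * K + 1) else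
    if l = i then a else min (b l) (r + 1) with hlo
  set hi : V d := fun l => if l = j1 ∨ l = j2 then (r : ℤ) + 4 * K + 1 else
    if l = i then a + 4 * K else min (b l) (r + 1) + 4 * K with hhi
  have hmem : ∀ c ∈ gshF r K i a, (∀ l, l ≠ j → c l = b l) → c ∈ rect lo hi := by
    rintro c ⟨h1, h2, h3⟩ h4 l
    have h5 := abs_le.1 (h3 l)
    simp only [hlo, hhi]
    split_ifs with c1 c2
    · omega
    · subst c2; omega
    · have : l ≠ j := by
        rintro rfl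
        rcases e4 with e | e
        · exact c2 e
        · exact c1 (Or.inl e)
      rw [← h4 l this]
      omega
  have hsub : rect lo hi ⊆ gshF r K i a := by
    intro c hc
    have hi' := hc i
    simp only [hlo, hhi, e1.symm, e2.symm, or_self, if_false, if_true] at hi'
    refine ⟨hi'.1, hi'.2, fun l => ?_⟩
    have h5 := hc l
    have h6 := abs_le.1 (hb.2.2 l)
    rw [abs_le]
    simp only [hlo, hhi] at h5
    split_ifs at h5 with c1 c2
    · omega
    · rcases ha with rfl | rfl <;> omega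
    · omega
  have h1 := h j1 j2 lo hi e3 (by simp only [hlo, hhi, true_or, if_true]; omega)
    (by simp only [hlo, hhi, true_or, or_true, if_true])
    (fun l c1 c2 => by
      simp only [hlo, hhi, c1, c2, or_self, if_false]
      split_ifs <;> rfl) b (hmem b hb fun _ _ => rfl) b' (hmem b' hb' hj)
  refine h1.trans (measureReal_mono fun O hO => ?_)
  exact comp_mono (Set.inter_subset_inter_right O (gsh_ins_mono hsub)) b hO

lemma gsh_face (hd : 3 ≤ d) {K : ℕ} {δ : ℝ} (hδ : 0 < δ)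
    (h : ∀ (i j : Fin d) (lo hi : V d), i ≠ j → lo i + 8 * K ≤ hi i → hi j - lo j = hi i - lo i →
      (∀ l, l ≠ i → l ≠ j → hi l = lo l + 4 * K) → TwoPt p δ (rect lo hi)) {r : ℕ} {i : Fin d}
    {a : ℤ} (ha : a = r + 1 ∨ a = -(r + 4 * K + 1)) : TwoPt p (δ ^ d) (gshF r K i a) := by
  intro b hb b' hb'
  have hfin : (gshF r K i a).Finite := (Finset.finite_toSet _).subset (gshF_sub ha)
  have hm : ∀ T : Finset (Fin d), (fun l => if l ∈ T then b' l else b l) ∈ gshF r K i a := by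
    intro T
    refine ⟨?_, ?_, fun l => ?_⟩
    · simp only; split_ifs; exacts [hb'.1, hb.1]
    · simp only; split_ifs; exacts [hb'.2.1, hb.2.1]
    · simp only; split_ifs; exacts [hb'.2.2 l, hb.2.2 l]
  have key : ∀ T : Finset (Fin d), δ ^ T.card ≤ (μP d p).real
      {O | (fun l => if l ∈ T then b' l else b l) ∈ comp (O ∩ ins (gshF r K i a)) b} := by
    intro T
    induction T using Finset.induction_on with
    | empty =>
      have : {O : Set (E d) | (fun l => if l ∈ (∅ : Finset (Fin d)) then b' l else b l) ∈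
          comp (O ∩ ins (gshF r K i a)) b} = Set.univ := by
        refine Set.eq_univ_of_forall fun O => ?_
        simpa using mem_comp_self _ b
      rw [this]
      simp
    | insert j T hj ih =>
      rw [card_insert_of_notMem hj, pow_succ]
      refine conn_chain hfin Set.Subset.rfl Set.Subset.rfl (by positivity) hδ.le ih
        (gsh_one hd h ha (hm T) (hm _) j fun l hl => ?_)
      simp only [mem_insert, hl, false_or]
  simpa using key univ

theorem shell_twoPt (hd : 3 ≤ d) {K : ℕ} {δ : ℝ} (hδ : 0 < δ)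
    (h : ∀ (i j : Fin d) (lo hi : V d), i ≠ j → lo i + 8 * K ≤ hi i → hi j - lo j = hi i - lo i →
      (∀ l, l ≠ i → l ≠ j → hi l = lo l + 4 * K) → TwoPt p δ (rect lo hi)) (r : ℕ) :
    TwoPt p (δ ^ (3 * d)) (ann (0 : V d) (r + 1) (r + 4 * K + 1) : Set (V d)) := by
  intro b hb b' hb'
  obtain ⟨i, a, ha, h1⟩ := gsh_exists_face (by omega) hb
  obtain ⟨i', a', ha', h2⟩ := gsh_exists_face (by omega) hb'
  obtain ⟨k, hk, hk'⟩ := gsh_third hd i i'
  have hup : ∀ {c : V d} {j : Fin d} {s : ℤ}, k ≠ j → c ∈ gshF r K j s →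
      Function.update c k ((r : ℤ) + 1) ∈ gshF r K j s ∧
      Function.update c k ((r : ℤ) + 1) ∈ gshF r K k (r + 1) := by
    rintro c j s e ⟨c1, c2, c3⟩
    have c4 : ∀ l, |Function.update c k ((r : ℤ) + 1) l| ≤ r + 4 * K + 1 := by
      intro l
      by_cases e' : l = k
      · subst e'
        rw [Function.update_self, abs_of_nonneg (by omega)]
        omega
      · rw [Function.update_of_ne e']
        exact c3 l
    refine ⟨⟨?_, ?_, c4⟩, ?_, ?_, c4⟩
    · rwa [Function.update_of_ne e.symm]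
    · rwa [Function.update_of_ne e.symm]
    · rw [Function.update_self]
    · rw [Function.update_self]; omega
  have hfin : ((ann (0 : V d) (r + 1) (r + 4 * K + 1) : Finset (V d)) : Set (V d)).Finite :=
    Finset.finite_toSet _
  have s1 := gsh_face hd hδ h ha b h1 _ (hup hk h1).1
  have s2 := gsh_face hd hδ h (Or.inl rfl) _ (hup hk h1).2 _ (hup hk' h2).2
  have s3 := gsh_face hd hδ h ha' _ (hup hk' h2).1 b' h2
  have s4 := conn_chain hfin (gshF_sub ha) (gshF_sub (Or.inl rfl)) (by positivity) (by positivity)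
    s1 s2
  have s5 := conn_chain hfin Set.Subset.rfl (gshF_sub ha') (by positivity) (by positivity) s4 s3
  rwa [show δ ^ (3 * d) = δ ^ d * δ ^ d * δ ^ d by ring]

lemma gsh_mem_EB {x : V d} {r : ℕ} {e : E d} :
    e ∈ EB x r ↔ e.1 ∈ box x r ∨ e.1 + ee e.2 ∈ box x r := by
  unfold EB
  rw [mem_filter, mem_boxE']
  refine ⟨fun h => h.2, fun h => ⟨?_, h⟩⟩
  rcases h with h | h
  · exact box_mono x (by omega) h
  · rw [mem_box_nd] at h ⊢
    have h1 := nd_triangle x (e.1 + ee e.2) e.1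
    rw [nd_comm (e.1 + ee e.2), nd_add_ee] at h1
    omega

lemma gsh_EB_ins (x : V d) (r : ℕ) :
    ((EB x r : Finset (E d)) : Set (E d)) ⊆ ins (box x (r + 1) : Set (V d)) := by
  intro e he
  have h1 := nd_triangle x (e.1 + ee e.2) e.1
  have h2 := nd_triangle x e.1 (e.1 + ee e.2)
  rw [nd_comm (e.1 + ee e.2), nd_add_ee] at h1
  rw [nd_add_ee] at h2
  have h3 := gsh_mem_EB.1 (Finset.mem_coe.1 he)
  simp only [mem_box_nd] at h3
  constructor <;> rw [Finset.mem_coe, mem_box_nd] <;> omega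

lemma gsh_EB_mono (x : V d) {r r' : ℕ} (h : r ≤ r') :
    ((EB x r : Finset (E d)) : Set (E d)) ⊆ EB x r' := by
  intro e he
  rw [Finset.mem_coe, gsh_mem_EB] at he ⊢
  exact he.imp (fun h' => box_mono x h h') fun h' => box_mono x h h'

lemma gsh_exit {O : Set (E d)} {x y w : V d} {r : ℕ} (hy : y ∈ box x r) (hw : w ∈ comp O y)
    (hw' : w ∉ box x r) : ∃ b, b ∉ box x r ∧ b ∈ comp (O ∩ EB x r) y := by
  obtain ⟨a, b, h1, h2, h3, h4⟩ := exists_bd_of_comp (S := (box x r : Set (V d))) hw hy hw'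
  refine ⟨b, h3, comp_adj (comp_mono (Set.inter_subset_inter_right O fun e he => ?_) y h1) ?_⟩
  · exact Finset.mem_coe.2 (gsh_mem_EB.2 (Or.inl he.1))
  · obtain ⟨i, ⟨e1, e2⟩ | ⟨e1, e2⟩⟩ := h4
    · exact ⟨i, Or.inl ⟨e1, e2, Finset.mem_coe.2 (gsh_mem_EB.2 (Or.inl h2))⟩⟩
    · exact ⟨i, Or.inr ⟨e1, e2, Finset.mem_coe.2 (gsh_mem_EB.2 (Or.inr (e1 ▸ h2)))⟩⟩

/-- Both points leave the box and are not joined, using only edges that touch the box. -/
def gshA (y y' : V d) (r : ℕ) (O : Set (E d)) : Prop :=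
  (∃ w, w ∉ box (0 : V d) r ∧ w ∈ comp (O ∩ EB (0 : V d) r) y) ∧
  (∃ w, w ∉ box (0 : V d) r ∧ w ∈ comp (O ∩ EB (0 : V d) r) y') ∧
  y' ∉ comp (O ∩ EB (0 : V d) r) y

lemma gsh_step {L : ℕ} (hL : 1 ≤ L) {δ : ℝ} {r : ℕ}
    (h : TwoPt p δ (ann (0 : V d) (r + 1) (r + L) : Set (V d))) {y y' : V d}
    (hy : y ∈ box (0 : V d) r) (hy' : y' ∈ box (0 : V d) r) :
    (μP d p).real {O | gshA y y' (r + L) O} ≤ (1 - δ) * (μP d p).real {O | gshA y y' r O} := by
  set U : Set (E d) := ins (ann (0 : V d) (r + 1) (r + L) : Set (V d)) with hU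
  set T : Finset (E d) := (boxE (0 : V d) (r + L)).filter (· ∈ U) with hT
  have hUT : U ⊆ T := by
    intro e he
    rw [hT, Finset.mem_coe, mem_filter, mem_boxE', mem_box_nd]
    exact ⟨(mem_ann.1 (Finset.mem_coe.1 he.1)).2, he⟩
  have hdisj : Disjoint (EB (0 : V d) r) T := by
    rw [Finset.disjoint_left]
    intro e h1 h2
    obtain ⟨h3, h4⟩ := (mem_filter.1 h2).2
    have h5 := (mem_ann.1 (Finset.mem_coe.1 h3)).1
    have h6 := (mem_ann.1 (Finset.mem_coe.1 h4)).1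
    have h7 := gsh_mem_EB.1 h1
    simp only [mem_box_nd] at h7
    omega
  have hann : ∀ {O : Set (E d)} {z w : V d}, z ∈ box (0 : V d) r → w ∉ box (0 : V d) r →
      w ∈ comp (O ∩ EB (0 : V d) r) z → w ∈ (ann (0 : V d) (r + 1) (r + L) : Set (V d)) := by
    intro O z w hz hw hc
    have h1 := mem_of_comp (Set.inter_subset_right.trans (gsh_EB_ins 0 r))
      (Finset.mem_coe.2 (box_mono 0 (by omega) hz)) hc
    rw [Finset.mem_coe, mem_box_nd] at h1
    rw [mem_box_nd] at hw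
    rw [Finset.mem_coe, mem_ann]
    omega
  have key := nu_cond_le (q := fun _ : E d => p) hdisj (A := gshA y y' r)
    (F := fun O O' => ∀ w w', w ∉ box (0 : V d) r → w ∈ comp (O ∩ EB (0 : V d) r) y →
      w' ∉ box (0 : V d) r → w' ∈ comp (O ∩ EB (0 : V d) r) y' → w' ∉ comp (O' ∩ U) w)
    (c := 1 - δ)
    (fun O O' hag => by simp only [gshA, gsh_inter Set.Subset.rfl hag])
    (fun O'' O O' hag => by simp only [gsh_inter Set.Subset.rfl hag])
    (fun O O' O'' hag => by simp only [gsh_inter hUT hag]) (by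
      rintro O ⟨⟨w, a1, a2⟩, ⟨w', a3, a4⟩, _⟩
      have h1 := h w (hann hy a1 a2) w' (hann hy' a3 a4)
      rw [μP_eq_nu] at h1
      have h2 := probReal_compl_eq_one_sub (μ := nu fun _ : E d => p)
        (gsh_dp hUT w w').measurableSet
      refine le_trans (measureReal_mono ?_) (h2.le.trans (by linarith))
      intro O' hO'
      exact hO' w w' a1 a2 a3 a4)
  rw [← μP_eq_nu] at key
  refine le_trans (measureReal_mono ?_) key
  rintro O ⟨⟨w, a1, a2⟩, ⟨w', a3, a4⟩, a5⟩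
  have hm := Set.inter_subset_inter_right O (gsh_EB_mono (0 : V d) (r := r) (r' := r + L) (by omega))
  refine ⟨⟨gsh_exit hy (comp_mono Set.inter_subset_left y a2)
    fun h' => a1 (box_mono 0 (by omega) h'), gsh_exit hy' (comp_mono Set.inter_subset_left y' a4)
    fun h' => a3 (box_mono 0 (by omega) h'), fun h' => a5 (comp_mono hm y h')⟩,
    fun b b' _ b2 _ b4 b5 => a5 ?_⟩
  have hU' : O ∩ U ⊆ O ∩ EB (0 : V d) (r + L) := by
    refine Set.inter_subset_inter_right O fun e he => ?_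
    exact Finset.mem_coe.2 (gsh_mem_EB.2 (Or.inl (mem_box_nd.2
      (mem_ann.1 (Finset.mem_coe.1 he.1)).2)))
  exact comp_trans (comp_trans (comp_mono hm y b2) (comp_mono hU' b b5))
    (comp_symm (comp_mono hm y' b4))

theorem peel {L : ℕ} (hL : 1 ≤ L) {δ : ℝ} (hδ : δ ≤ 1)
    (h : ∀ r : ℕ, TwoPt p δ (ann (0 : V d) (r + 1) (r + L) : Set (V d))) (r0 m : ℕ) {R : ℕ}
    (hR : r0 + m * L ≤ R) {y y' : V d} (hy : y ∈ box (0 : V d) r0) (hy' : y' ∈ box (0 : V d) r0) :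
    (μP d p).real {O | Arm O 0 R y ∧ Arm O 0 R y' ∧
      y' ∉ comp (O ∩ ins (box (0 : V d) (R + 1) : Set (V d))) y} ≤ (1 - δ) ^ m := by
  have key : ∀ k : ℕ, (μP d p).real {O | gshA y y' (r0 + k * L) O} ≤ (1 - δ) ^ k := by
    intro k
    induction k with
    | zero => simp
    | succ k ih =>
      rw [show r0 + (k + 1) * L = r0 + k * L + L by ring, pow_succ']
      exact (gsh_step hL (h _) (box_mono 0 (by omega) hy) (box_mono 0 (by omega) hy')).trans
        (mul_le_mul_of_nonneg_left ih (by linarith))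
  refine le_trans (measureReal_mono ?_) (key m)
  rintro O ⟨⟨w, a1, a2⟩, ⟨w', a3, a4⟩, a5⟩
  refine ⟨gsh_exit (box_mono 0 (by omega) hy) (comp_mono Set.inter_subset_left y a2)
    fun h' => a1 (box_mono 0 hR h'), gsh_exit (box_mono 0 (by omega) hy')
    (comp_mono Set.inter_subset_left y' a4) fun h' => a3 (box_mono 0 hR h'), fun h' => a5 ?_⟩
  refine comp_mono (Set.inter_subset_inter_right O ((gsh_EB_ins 0 _).trans (gsh_ins_mono ?_))) y h'
  exact Finset.coe_subset.2 (box_mono 0 (by omega))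

lemma gsh_exist {p0 : unitInterval} (hp : p0 ≤ p)
    (hθ : 0 < (μP d p0).real {O | (0 : V d) ∈ Cl O}) (hd : 1 ≤ d) {ε : ℝ} (hε : 0 < ε) :
    ∃ N : ℕ, ∀ n ≥ N,
      (μP d p).real {O | ¬ ∃ y ∈ box (0 : V d) n, Arm O 0 (4 * n) y} ≤ ε := by
  obtain ⟨N, hN⟩ := hit_Cl hθ hε
  refine ⟨N, fun n hn => ?_⟩
  have h1 := hN (box 0 n) (by
    rw [card_box]
    exact le_trans (by omega) (Nat.le_self_pow (by omega) _))
  have hdp : DpI (boxE (0 : V d) (4 * n + 1))
      fun O => ∃ y ∈ box (0 : V d) n, Arm O 0 (4 * n) y := by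
    intro O O' hag
    have : ∀ y, Arm O 0 (4 * n) y = Arm O' 0 (4 * n) y := fun y => dep_arm 0 (4 * n) y O O' hag
    simp only [this]
  have hin : Incr fun O : Set (E d) => ∃ y ∈ box (0 : V d) n, Arm O 0 (4 * n) y := by
    rintro O O' hO ⟨y, h2, w, h3, h4⟩
    exact ⟨y, h2, w, h3, gsh_incr _ y w O O' hO h4⟩
  have h2 := nu_mono (q := fun _ : E d => p0) (q' := fun _ : E d => p) (fun _ => hp) hdp hin
  rw [← μP_eq_nu, ← μP_eq_nu] at h2
  have h3 := probReal_compl_eq_one_sub (μ := μP d p) hdp.measurableSet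
  have h4 := probReal_compl_eq_one_sub (μ := μP d p0) hdp.measurableSet
  have h5 : (μP d p0).real {O | ∃ y ∈ box (0 : V d) n, Arm O 0 (4 * n) y}ᶜ ≤ ε := by
    refine le_trans (measureReal_mono ?_) h1
    rintro O hO ⟨a, ha, ha'⟩
    obtain ⟨w, hw, hw'⟩ := Set.Infinite.exists_notMem_finset ha' (box 0 (4 * n))
    exact hO ⟨a, ha, arm_of_far (box_mono 0 (by omega) ha) hw hw'⟩
  exact h3.le.trans (by linarith)

theorem RH_of_theta (hd : 3 ≤ d) {p0 : unitInterval} (hp : p0 < p)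
    (hθ : 0 < (μP d p0).real {O | (0 : V d) ∈ Cl O}) : RH d p := by
  intro ε hε
  obtain ⟨K, δ0, _, hδ0, hK⟩ := slab_twoPt (by omega) hp hθ
  obtain ⟨δ, hδ, hδ1, hT⟩ : ∃ δ : ℝ, 0 < δ ∧ δ ≤ 1 ∧
      ∀ r : ℕ, TwoPt p δ (ann (0 : V d) (r + 1) (r + (4 * K + 1)) : Set (V d)) :=
    ⟨min (δ0 ^ (3 * d)) 1, lt_min (by positivity) one_pos, min_le_right _ _,
      fun r b hb b' hb' => (min_le_left _ _).trans (shell_twoPt hd hδ0 hK r b hb b' hb')⟩
  set L := 4 * K + 1 with hL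
  obtain ⟨N, hN⟩ := gsh_exist hp.le hθ (by omega) (half_pos hε)
  have hlim := (tendsto_pow_const_mul_const_pow_of_abs_lt_one (2 * d) (r := 1 - δ)
    (by rw [abs_of_nonneg (by linarith)]; linarith)).const_mul ((5 * (L : ℝ)) ^ (2 * d))
  rw [mul_zero] at hlim
  obtain ⟨m0, hm0⟩ := eventually_atTop.1 (hlim.eventually (ge_mem_nhds (half_pos hε)))
  obtain ⟨m, hm1, hm2, hm3⟩ : ∃ m : ℕ, 1 ≤ m ∧ m0 ≤ m ∧ N ≤ m :=
    ⟨m0 + N + 1, by omega, by omega, by omega⟩
  have hmL : m ≤ m * L := Nat.le_mul_of_pos_right _ (by omega)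
  obtain ⟨n, hn⟩ : ∃ n, n = m * L := ⟨_, rfl⟩
  refine ⟨n, by omega, ?_⟩
  have hsub : {O : Set (E d) | ¬ GoodN n (0 : V d) O} ⊆
      {O | ¬ ∃ y ∈ box (0 : V d) n, Arm O 0 (4 * n) y} ∪
      ⋃ a ∈ box (0 : V d) (2 * n) ×ˢ box (0 : V d) (2 * n),
        {O | Arm O 0 (3 * n) a.1 ∧ Arm O 0 (3 * n) a.2 ∧
          a.2 ∉ comp (O ∩ ins (box (0 : V d) (3 * n + 1) : Set (V d))) a.1} := by
    intro O hO
    by_contra h
    rw [Set.mem_union, not_or] at h
    refine hO ⟨not_not.1 h.1, fun y hy y' hy' a1 a2 => ?_⟩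
    by_contra a3
    exact h.2 (Set.mem_biUnion (x := (y, y')) (mem_product.2 ⟨hy, hy'⟩) ⟨a1, a2, a3⟩)
  have h1 := (measureReal_biUnion_finset_le (μ := μP d p) _ _).trans (sum_le_card_nsmul
    (box (0 : V d) (2 * n) ×ˢ box (0 : V d) (2 * n)) _ _ fun a ha =>
      peel (by omega) hδ1 hT (2 * n) m (R := 3 * n) (by omega) (mem_product.1 ha).1
        (mem_product.1 ha).2)
  rw [card_product, card_box, nsmul_eq_mul] at h1
  have h2 : (((2 * (2 * n) + 1) ^ d * (2 * (2 * n) + 1) ^ d : ℕ) : ℝ) ≤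
      (5 * (L : ℝ)) ^ (2 * d) * (m : ℝ) ^ (2 * d) := by
    have : (2 * (2 * n) + 1) ^ d * (2 * (2 * n) + 1) ^ d ≤ (5 * L) ^ (2 * d) * m ^ (2 * d) := by
      rw [← pow_add, ← two_mul, ← mul_pow]
      refine Nat.pow_le_pow_left ?_ _
      rw [show 5 * L * m = 5 * (m * L) by ring]
      omega
    exact_mod_cast this
  have h3 := hm0 m hm2
  have h4 : (0 : ℝ) ≤ (1 - δ) ^ m := pow_nonneg (by linarith) _
  have h5 := mul_le_mul_of_nonneg_right h2 h4
  have h6 := hN n (by omega)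
  refine (measureReal_mono hsub).trans ((measureReal_union_le _ _).trans ?_)
  rw [mul_assoc] at h5
  linarith

end Pool.Agent.P.MP_b4265e_pr.R
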