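import Pool.Agent.P.MP_b4265e_pr.R.Path

/-!
Basic facts on Bernoulli bond percolation: locality, independence, invariance, finite energy.
-/

namespace Pool.Agent.P.MP_b4265e_pr.R

open Finset MeasureTheory ProbabilityTheory Filter
open scoped Classical

variable {d : ℕ} {p : unitInterval}

lemma bern_μP (d : ℕ) (p : unitInterval) :
    Bern (μP d p) (fun (e : E d) (O : Set (E d)) => e ∈ O) p := by
  refine ⟨fun a => measurable_set_mem a, ?_, fun a => ?_⟩
  · have h1 := iIndepFun_infinitePi (P := fun e : E d =>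
      unitInterval.toNNReal p • Measure.dirac (e ∈ (Set.univ : Set (E d))) +
        unitInterval.toNNReal (unitInterval.symm p) • Measure.dirac False)
      (X := fun _ P => P) (fun _ => measurable_id)
    rw [iIndepFun_iff_measure_inter_preimage_eq_mul] at h1 ⊢
    intro S sets H
    simp only [μP, setBernoulli_apply', Set.preimage_iInter]
    exact h1 S H
  · have : μP d p {O | a ∈ O} = unitInterval.toNNReal p := by
      calc μP d p {O | a ∈ O} = Measure.infinitePi (fun e : E d =>
            unitInterval.toNNReal p • Measure.dirac (e ∈ (Set.univ : Set (E d))) +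
              unitInterval.toNNReal (unitInterval.symm p) • Measure.dirac False)
            (cylinder {a} {fun _ => True}) := by
            rw [μP, setBernoulli_apply']; congr!; ext; simp [funext_iff]
        _ = _ := by simp [Measure.infinitePi_cylinder]
    rw [measureReal_def, this]; rfl

lemma pb_marg {Ω : Type*} [MeasurableSpace Ω] {μ : Measure Ω}
    [IsProbabilityMeasure μ] {X : E d → Ω → Prop} {q : ℝ} (h : Bern μ X q) (a : E d) (P : Prop) :
    (μ.map (X a)).real {P} = if P then q else 1 - q := by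
  have h1 := h.pattern {a} fun _ => P
  rw [prod_singleton] at h1
  rw [map_measureReal_apply (h.meas a) (measurableSet_singleton _), ← h1]
  congr 1
  ext ω
  simp

/-- Independent edge variables have the law `μP`. -/
lemma measurePreserving_opn {Ω : Type*} [MeasurableSpace Ω] {μ : Measure Ω}
    [IsProbabilityMeasure μ] {X : E d → Ω → Prop} (h : Bern μ X p) :
    MeasurePreserving (opn X) μ (μP d p) := by
  have h0 := bern_μP d p
  have hm : Measurable (opn X) := measurable_set_iff.2 h.meas
  refine ⟨hm, ?_⟩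
  have e1 := h.indep.map_fun_eq_infinitePi_map h.meas
  have e2 := h0.indep.map_fun_eq_infinitePi_map h0.meas
  have e3 : (fun a => μ.map (X a)) = fun a : E d => (μP d p).map fun O : Set (E d) => a ∈ O := by
    funext a
    rw [ext_iff_measureReal_singleton]
    intro P
    rw [pb_marg h, pb_marg h0]
  have e4 : μ.map (fun ω a => X a ω) = (μP d p).map fun (O : Set (E d)) a => a ∈ O := by
    rw [e1, e2]
    congr 1
  have hs : Measurable fun f : E d → Prop => {a | f a} :=
    measurable_set_iff.2 fun a => measurable_pi_apply a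
  have e5 := congrArg (Measure.map fun f : E d → Prop => {a | f a}) e4
  rw [Measure.map_map hs (measurable_pi_iff.2 h.meas),
    Measure.map_map hs (measurable_pi_iff.2 h0.meas)] at e5
  refine e5.trans ?_
  exact Measure.map_id

/-- Invariance under injective relabelling of the edges. -/
lemma measurePreserving_preimage {σ : E d → E d} (hσ : Function.Injective σ) :
    MeasurePreserving (fun O : Set (E d) => σ ⁻¹' O) (μP d p) (μP d p) := by
  have h0 := bern_μP d p
  exact measurePreserving_opn (X := fun e (O : Set (E d)) => σ e ∈ O)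
    ⟨fun a => h0.meas _, h0.indep.precomp hσ, fun a => h0.prob _⟩

lemma Agree.mono {S T : Finset (E d)} {O O' : Set (E d)} (h : Agree T O O') (hS : S ⊆ T) :
    Agree S O O' := fun e he => h e (hS he)
lemma Agree.symm {S : Finset (E d)} {O O' : Set (E d)} (h : Agree S O O') : Agree S O' O :=
  fun e he => (h e he).symm
lemma Agree.trans {S : Finset (E d)} {O O' O'' : Set (E d)} (h : Agree S O O')
    (h' : Agree S O' O'') : Agree S O O'' := fun e he => (h e he).trans (h' e he)
lemma agree_refl (S : Finset (E d)) (O : Set (E d)) : Agree S O O := fun _ _ => Iff.rfl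
lemma agree_inter (S : Finset (E d)) (O : Set (E d)) : Agree S O (O ∩ S) :=
  fun _ he => ⟨fun h => ⟨h, he⟩, fun h => h.1⟩
lemma Agree.rew {S : Finset (E d)} {O O' : Set (E d)} (h : Agree S O O') (T η : Finset (E d)) :
    Agree S (rew T η O) (rew T η O') := by
  intro e he
  simp only [R.rew, Set.mem_union, Set.mem_sdiff, h e he]
lemma Dep.mono {β : Type*} {S T : Finset (E d)} {f : Set (E d) → β} (h : Dep S f) (hS : S ⊆ T) :
    Dep T f := fun O O' hO => h O O' (hO.mono hS)

lemma pb_factor {β : Type*} {S : Finset (E d)} {f : Set (E d) → β} (h : Dep S f) :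
    f = (fun g : S → Prop => f {a | ∃ ha : a ∈ S, g ⟨a, ha⟩}) ∘
      fun (O : Set (E d)) (a : S) => a.1 ∈ O := by
  funext O
  exact h _ _ fun e he => ⟨fun hO => ⟨he, hO⟩, fun hO => hO.2⟩

lemma Dep.measurable {β : Type*} [MeasurableSpace β] {S : Finset (E d)} {f : Set (E d) → β}
    (h : Dep S f) : Measurable f := by
  rw [pb_factor h]
  exact Measurable.of_discrete.comp (measurable_pi_iff.2 fun a => measurable_set_mem _)
lemma Dep.measurableSet {S : Finset (E d)} {f : Set (E d) → Prop} (h : Dep S f) :
    MeasurableSet {O | f O} := measurableSet_setOfPred.2 h.measurable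
lemma Dep.not {S : Finset (E d)} {f : Set (E d) → Prop} (h : Dep S f) : Dep S fun O => ¬ f O :=
  fun O O' hO => congrArg Not (h O O' hO)
lemma Dep.exists_bound {S : Finset (E d)} {f : Set (E d) → ℝ} (h : Dep S f) :
    ∃ B : ℝ, ∀ O, |f O| ≤ B := by
  obtain ⟨B, hB⟩ := Finite.bddAbove_range
    fun g : S → Prop => |f {a | ∃ ha : a ∈ S, g ⟨a, ha⟩}|
  refine ⟨B, fun O => ?_⟩
  rw [congrFun (pb_factor h) O]
  exact hB ⟨fun a => a.1 ∈ O, rfl⟩
lemma Dep.integrable {S : Finset (E d)} {f : Set (E d) → ℝ} (h : Dep S f) :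
    Integrable f (μP d p) := by
  obtain ⟨B, hB⟩ := h.exists_bound
  exact Integrable.of_bound h.measurable.aestronglyMeasurable B (ae_of_all _ hB)
lemma Dep.indepFun {β γ : Type*} [MeasurableSpace β] [MeasurableSpace γ] {S T : Finset (E d)}
    {f : Set (E d) → β} {g : Set (E d) → γ} (hf : Dep S f) (hg : Dep T g) (h : Disjoint S T) :
    IndepFun f g (μP d p) := by
  have h0 := bern_μP d p
  rw [pb_factor hf, pb_factor hg]
  exact (h0.indep.indepFun_finset S T h h0.meas).comp Measurable.of_discrete
    Measurable.of_discrete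
lemma Dep.real_inter {S T : Finset (E d)} {f g : Set (E d) → Prop} (hf : Dep S f) (hg : Dep T g)
    (h : Disjoint S T) :
    (μP d p).real {O | f O ∧ g O} = (μP d p).real {O | f O} * (μP d p).real {O | g O} := by
  have h1 := (hf.indepFun (p := p) hg h).measure_inter_preimage_eq_mul {P | P} {P | P}
    MeasurableSet.of_discrete MeasurableSet.of_discrete
  simp only [measureReal_def]
  rw [← ENNReal.toReal_mul]
  exact congrArg ENNReal.toReal h1

lemma pb_forall {ι : Type*} (I : Finset ι) {S : ι → Finset (E d)}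
    {f : ι → Set (E d) → Prop} (hf : ∀ i ∈ I, Dep (S i) (f i))
    (h : ∀ i ∈ I, ∀ j ∈ I, i ≠ j → Disjoint (S i) (S j)) :
    (μP d p).real {O | ∀ i ∈ I, f i O} = ∏ i ∈ I, (μP d p).real {O | f i O} := by
  induction I using Finset.induction_on with
  | empty => simp
  | insert a I ha ih =>
    have hI : Dep (I.biUnion S) fun O => ∀ i ∈ I, f i O := by
      intro O O' hO
      refine propext (forall₂_congr fun i hi => ?_)
      rw [hf i (mem_insert_of_mem hi) O O' (hO.mono (subset_biUnion_of_mem S hi))]
    have hd : Disjoint (S a) (I.biUnion S) := by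
      rw [disjoint_biUnion_right]
      exact fun i hi => h a (mem_insert_self _ _) i (mem_insert_of_mem hi)
        fun e => ha (e ▸ hi)
    rw [prod_insert ha, ← ih (fun i hi => hf i (mem_insert_of_mem hi))
      fun i hi j hj => h i (mem_insert_of_mem hi) j (mem_insert_of_mem hj),
      ← (hf a (mem_insert_self _ _)).real_inter hI hd]
    simp only [forall_mem_insert]

lemma iIndepFun_of_dep {ι β : Type*} [MeasurableSpace β] {S : ι → Finset (E d)}
    {f : ι → Set (E d) → β} (hf : ∀ i, Dep (S i) (f i))
    (h : Pairwise fun i j => Disjoint (S i) (S j)) : iIndepFun f (μP d p) := by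
  rw [iIndepFun_iff_measure_inter_preimage_eq_mul]
  intro I sets _
  have h1 := pb_forall (p := p) I (S := S) (f := fun i O => f i O ∈ sets i)
    (fun i _ O O' hO => by simp only [hf i O O' hO]) fun i _ j _ hij => h hij
  have e : (⋂ i ∈ I, f i ⁻¹' sets i) = {O | ∀ i ∈ I, f i O ∈ sets i} := by
    ext O; simp
  rw [← ENNReal.toReal_eq_toReal_iff' (measure_ne_top _ _)
    (ENNReal.prod_ne_top fun _ _ => measure_ne_top _ _), ENNReal.toReal_prod, e]
  exact h1
lemma real_forall_of_dep {ι : Type*} (I : Finset ι) {S : ι → Finset (E d)}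
    {f : ι → Set (E d) → Prop} (hf : ∀ i ∈ I, Dep (S i) (f i))
    (h : ∀ i ∈ I, ∀ j ∈ I, i ≠ j → Disjoint (S i) (S j)) :
    (μP d p).real {O | ∀ i ∈ I, f i O} = ∏ i ∈ I, (μP d p).real {O | f i O} := pb_forall I hf h
lemma disjoint_boxE {x y : V d} {r r' : ℕ} (h : r + r' < nd x y) :
    Disjoint (boxE x r) (boxE y r') := by
  rw [Finset.disjoint_left]
  intro e h1 h2
  rw [mem_boxE', mem_box_nd] at h1 h2
  have := nd_triangle x e.1 y
  rw [nd_comm e.1 y] at this
  omega
lemma dep_W (θ K δ : ℝ) (x : V d) (s : ℕ) : Dep (boxE x (20 * s)) (W θ K δ x s) :=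
  fun _ _ h => propext ⟨fun H O'' hO => H O'' (h.trans hO), fun H O'' hO => H O'' (h.symm.trans hO)⟩
lemma pb_dep_arm (z : V d) (r : ℕ) (y : V d) : Dep (boxE z (r + 1)) fun O => Arm O z r y := by
  intro O O' h
  simp only [Arm, inter_congr h (ins_box_subset z (r + 1))]
lemma dep_loc (t : ℕ) (y : V d) : Dep (boxE y (t + 1)) fun O => Loc O t y := pb_dep_arm y t y
lemma dep_arm (z : V d) (r : ℕ) (y : V d) : Dep (boxE z (r + 1)) fun O => Arm O z r y :=
  pb_dep_arm z r y

/-! ### Finite energy -/

lemma measurable_rew (S η : Finset (E d)) : Measurable (rew S η) := by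
  refine measurable_set_iff.2 fun a => ?_
  simp only [rew, Set.mem_union, Set.mem_sdiff]
  exact ((measurable_set_mem a).and measurable_const).or measurable_const

lemma pb_indep (S η : Finset (E d)) {A : Set (Set (E d))} (hA : MeasurableSet A) :
    (μP d p).real ({O | ∀ a ∈ S, (a ∈ O ↔ a ∈ η)} ∩ {O | rew S η O ∈ A}) =
      (μP d p).real {O | ∀ a ∈ S, (a ∈ O ↔ a ∈ η)} * (μP d p).real {O | rew S η O ∈ A} := by
  have h0 := bern_μP d p
  have h1 := indep_iSup_of_disjoint (fun a => (h0.meas a).comap_le) h0.indep.iIndep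
    (S := (S : Set (E d))) (T := (S : Set (E d))ᶜ) disjoint_compl_right
  rw [Indep_iff] at h1
  have key : ∀ (U : Set (E d)) (a : E d), a ∈ U → @Measurable _ _
      (⨆ i ∈ U, MeasurableSpace.comap (fun O : Set (E d) => i ∈ O) inferInstance) _
      fun O : Set (E d) => a ∈ O := fun U a ha =>
    Measurable.of_comap_le (le_iSup₂ (f := fun i (_ : i ∈ U) =>
      MeasurableSpace.comap (fun O : Set (E d) => i ∈ O) inferInstance) a ha)
  simp only [measureReal_def]
  rw [← ENNReal.toReal_mul]
  refine congrArg ENNReal.toReal (h1 _ _ ?_ ?_)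
  · have e : {O : Set (E d) | ∀ a ∈ S, (a ∈ O ↔ a ∈ η)} =
        ⋂ a ∈ S, (fun O : Set (E d) => a ∈ O) ⁻¹' {P | P ↔ a ∈ η} := by
      ext O; simp
    rw [e]
    exact Finset.measurableSet_biInter S fun a ha => key _ a ha MeasurableSet.of_discrete
  · have hm : @Measurable _ _
        (⨆ i ∈ (S : Set (E d))ᶜ, MeasurableSpace.comap (fun O : Set (E d) => i ∈ O) inferInstance)
        _ (rew S η) := by
      refine (@measurable_set_iff _ _ (_) _).2 fun a => ?_
      by_cases ha : a ∈ S
      · have : (fun O => a ∈ rew S η O) = fun _ => a ∈ η := by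
          funext O; simp [rew, ha]
        rw [this]
        exact measurable_const
      · have : (fun O => a ∈ rew S η O) = (fun P => P ∨ a ∈ η) ∘ fun O => a ∈ O := by
          funext O; simp [rew, ha]
        rw [this]
        exact Measurable.of_discrete.comp (key _ a ha)
    exact hm hA

lemma finite_energy (S η : Finset (E d)) (hη : η ⊆ S) {A : Set (Set (E d))}
    (hA : MeasurableSet A) :
    min (p : ℝ) (1 - p) ^ S.card * (μP d p).real {O | rew S η O ∈ A} ≤ (μP d p).real A := by
  have h1 := (bern_μP d p).pattern S fun a => a ∈ η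
  have h2 : min (p : ℝ) (1 - p) ^ S.card ≤ (μP d p).real {O | ∀ a ∈ S, (a ∈ O ↔ a ∈ η)} := by
    rw [h1, ← prod_const]
    refine prod_le_prod (fun _ _ => le_min p.2.1 (sub_nonneg.2 p.2.2)) fun a _ => ?_
    split_ifs
    · exact min_le_left _ _
    · exact min_le_right _ _
  refine (mul_le_mul_of_nonneg_right h2 measureReal_nonneg).trans ?_
  rw [← pb_indep S η hA]
  refine measureReal_mono ?_
  rintro O ⟨hO, hO'⟩
  have e : rew S η O = O := by
    ext a
    by_cases ha : a ∈ S
    · simp [rew, ha, hO a ha]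
    · have : a ∉ η := fun h => ha (hη h)
      simp [rew, ha, this]
  exact e ▸ hO'
lemma finite_energy_exists (S : Finset (E d)) {A : Set (Set (E d))} (hA : MeasurableSet A) :
    min (p : ℝ) (1 - p) ^ S.card * (μP d p).real {O | ∃ η ⊆ S, rew S η O ∈ A} ≤
      2 ^ S.card * (μP d p).real A := by
  have e : {O | ∃ η ⊆ S, rew S η O ∈ A} = ⋃ η ∈ S.powerset, {O | rew S η O ∈ A} := by
    ext O; simp
  have h0 : 0 ≤ min (p : ℝ) (1 - p) ^ S.card := pow_nonneg (le_min p.2.1 (sub_nonneg.2 p.2.2)) _
  rw [e]
  refine (mul_le_mul_of_nonneg_left (measureReal_biUnion_finset_le _ _) h0).trans ?_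
  rw [mul_sum]
  refine (sum_le_sum fun η hη => finite_energy S η (mem_powerset.1 hη) hA).trans ?_
  rw [sum_const, card_powerset, nsmul_eq_mul]
  push_cast
  exact le_rfl

end Pool.Agent.P.MP_b4265e_pr.R
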