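import Pool.Agent.P.MP_b4265e_pr.R.GProd
import Pool.Agent.P.MP_b4265e_pr.R.PBasic

/-!
The sprinkling step.
-/

namespace Pool.Agent.P.MP_b4265e_pr.R

open Finset MeasureTheory ProbabilityTheory Filter
open scoped Classical

variable {d : ℕ} {p : unitInterval}

lemma subset_grow (R : Finset (V d)) (y : V d) (K : ℕ) (O0 O1 : Set (E d)) :
    R ⊆ grow R y K O0 O1 := subset_union_left
lemma grow_subset (R : Finset (V d)) (y : V d) (K : ℕ) (O0 O1 : Set (E d)) :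
    grow R y K O0 O1 ⊆ R ∪ box y K := union_subset_union_right (filter_subset _ _)

lemma gstep_mem {R : Finset (V d)} {y : V d} {K : ℕ} {O0 O1 : Set (E d)} {w : V d} :
    w ∈ grow R y K O0 O1 ↔ w ∈ R ∨ ∃ r ∈ R, r ∈ box y K ∧ ∃ w0 ∈ box y K, w0 ∉ R ∧
      adj O1 r w0 ∧ w ∈ comp (O0 ∩ ins ((box y K \ R : Finset (V d)) : Set (V d))) w0 := by
  rw [grow, mem_union, mem_filter]
  refine or_congr_right ⟨fun h => h.2.2, fun h => ?_⟩
  obtain ⟨r, -, -, w0, h1, h2, -, h3⟩ := id h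
  have := mem_sdiff.1 (mem_coe.1 (mem_of_comp Set.inter_subset_right
    (mem_coe.2 (mem_sdiff.2 ⟨h1, h2⟩)) h3))
  exact ⟨this.1, this.2, h⟩

/-- New points are joined to old points by open edges of the box. -/
lemma grow_conn {R : Finset (V d)} {y : V d} {K : ℕ} {O0 O1 : Set (E d)} {w : V d}
    (hw : w ∈ grow R y K O0 O1) : ∃ r ∈ R,
      w ∈ comp ((O0 ∪ O1) ∩ ins (box y K : Set (V d)) ∩ ins (grow R y K O0 O1 : Set (V d))) r := by
  rcases gstep_mem.1 hw with h | ⟨r, h1, h2, w0, h3, h4, h5, h6⟩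
  · exact ⟨w, h, mem_comp_self _ _⟩
  have hg : ∀ z ∈ comp (O0 ∩ ins ((box y K \ R : Finset (V d)) : Set (V d))) w0,
      z ∈ (grow R y K O0 O1 : Set (V d)) := fun z hz =>
    mem_coe.2 (gstep_mem.2 (Or.inr ⟨r, h1, h2, w0, h3, h4, h5, hz⟩))
  refine ⟨r, h1, ?_⟩
  clear hw
  induction h6 with
  | refl =>
    exact comp_adj (mem_comp_self _ _) (path_adj_inter (path_adj_inter
      (adj_mono Set.subset_union_right h5) h2 h3) (subset_grow R y K O0 O1 h1)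
      (hg _ (mem_comp_self _ _)))
  | @tail b c hb hbc ih =>
    refine comp_adj ih (path_adj_inter (adj_mono (Set.inter_subset_inter Set.subset_union_left
      (path_ins_mono (coe_subset.2 sdiff_subset))) hbc) (hg b hb) (hg c (comp_adj hb hbc)))

lemma gstep_adj {y : V d} {K : ℕ} {O O' : Set (E d)} {a b : V d} (ha : a ∈ box y K)
    (hb : b ∈ box y K)
    (h : ∀ e ∈ boxE y K, (e.1 = a ∨ e.1 + ee e.2 = a) → e ∈ O → e ∈ O') (hab : adj O a b) :
    adj O' a b := by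
  obtain ⟨i, h1 | h1⟩ := hab
  · exact ⟨i, Or.inl ⟨h1.1, h _ (mem_boxE'.2 ha) (Or.inl rfl) h1.2⟩⟩
  · exact ⟨i, Or.inr ⟨h1.1, h _ (mem_boxE'.2 hb) (Or.inr h1.1.symm) h1.2⟩⟩

lemma gstep_fresh {R : Finset (V d)} {y : V d} {K : ℕ} {O0 O0' : Set (E d)}
    (h0 : ∀ e ∈ boxE y K, e.1 ∉ R → e.1 + ee e.2 ∉ R → (e ∈ O0 ↔ e ∈ O0')) :
    O0 ∩ ins ((box y K \ R : Finset (V d)) : Set (V d)) =
      O0' ∩ ins ((box y K \ R : Finset (V d)) : Set (V d)) := by
  ext e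
  refine and_congr_left fun he => ?_
  have h1 := mem_sdiff.1 (mem_coe.1 he.1)
  exact h0 e (mem_boxE'.2 h1.1) h1.2 (mem_sdiff.1 (mem_coe.1 he.2)).2

/-- The step only reads fresh edges of the first layer. -/
lemma grow_congr {R : Finset (V d)} {y : V d} {K : ℕ} {O0 O1 O0' O1' : Set (E d)}
    (h0 : ∀ e ∈ boxE y K, e.1 ∉ R → e.1 + ee e.2 ∉ R → (e ∈ O0 ↔ e ∈ O0'))
    (h1 : ∀ e ∈ boxE y K, (e ∈ O1 ↔ e ∈ O1')) : grow R y K O0 O1 = grow R y K O0' O1' := by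
  ext w
  rw [gstep_mem, gstep_mem, gstep_fresh h0]
  refine or_congr_right ⟨?_, ?_⟩ <;> rintro ⟨r, a1, a2, w0, a3, a4, a5, a6⟩
  · exact ⟨r, a1, a2, w0, a3, a4, gstep_adj a2 a3 (fun e he _ => (h1 e he).1) a5, a6⟩
  · exact ⟨r, a1, a2, w0, a3, a4, gstep_adj a2 a3 (fun e he _ => (h1 e he).2) a5, a6⟩

/-- The step only reveals edges of the first layer that touch the new set. -/
lemma grow_stop {R : Finset (V d)} {y : V d} {K : ℕ} {O0 O1 O0' O1' : Set (E d)}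
    (h0 : ∀ e ∈ boxE y K, (e.1 ∈ grow R y K O0 O1 ∨ e.1 + ee e.2 ∈ grow R y K O0 O1) →
      (e ∈ O0 ↔ e ∈ O0'))
    (h1 : ∀ e ∈ boxE y K, (e ∈ O1 ↔ e ∈ O1')) : grow R y K O0' O1' = grow R y K O0 O1 := by
  have key : ∀ r ∈ R, r ∈ box y K → ∀ w0 ∈ box y K, w0 ∉ R → adj O1 r w0 → ∀ w,
      w ∈ comp (O0' ∩ ins ((box y K \ R : Finset (V d)) : Set (V d))) w0 ↔
        w ∈ comp (O0 ∩ ins ((box y K \ R : Finset (V d)) : Set (V d))) w0 := by
    intro r a1 a2 w0 a3 a4 a5 w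
    have hg : ∀ z ∈ comp (O0 ∩ ins ((box y K \ R : Finset (V d)) : Set (V d))) w0,
        ∀ e ∈ boxE y K, (e.1 = z ∨ e.1 + ee e.2 = z) → (e ∈ O0 ↔ e ∈ O0') := fun z hz e he h => by
      have : z ∈ grow R y K O0 O1 := gstep_mem.2 (Or.inr ⟨r, a1, a2, w0, a3, a4, a5, hz⟩)
      exact h0 e he (h.imp (fun h => by rwa [h]) fun h => by rwa [h])
    have hb : ∀ {O : Set (E d)} {b c : V d},
        adj (O ∩ ins ((box y K \ R : Finset (V d)) : Set (V d))) b c →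
        b ∈ box y K ∧ c ∈ box y K := fun h =>
      (path_adj_mem (Set.inter_subset_right.trans (path_ins_mono (coe_subset.2 sdiff_subset))) h)
    constructor <;> intro h
    · induction h with
      | refl => exact mem_comp_self _ _
      | @tail b c _ hbc ih =>
        exact comp_adj ih (gstep_adj (hb hbc).1 (hb hbc).2
          (fun e he h x => ⟨(hg b ih e he h).2 x.1, x.2⟩) hbc)
    · induction h with
      | refl => exact mem_comp_self _ _
      | @tail b c hb' hbc ih =>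
        exact comp_adj ih (gstep_adj (hb hbc).1 (hb hbc).2
          (fun e he h x => ⟨(hg b hb' e he h).1 x.1, x.2⟩) hbc)
  ext w
  rw [gstep_mem, gstep_mem]
  refine or_congr_right ⟨?_, ?_⟩ <;> rintro ⟨r, a1, a2, w0, a3, a4, a5, a6⟩
  · have a7 := gstep_adj a2 a3 (fun e he _ => (h1 e he).2) a5
    exact ⟨r, a1, a2, w0, a3, a4, a7, (key r a1 a2 w0 a3 a4 a7 w).1 a6⟩
  · exact ⟨r, a1, a2, w0, a3, a4, gstep_adj a2 a3 (fun e he _ => (h1 e he).1) a5,
      (key r a1 a2 w0 a3 a4 a5 w).2 a6⟩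

/-- The points of the box off `R` that are joined to `Q` off `R`. -/
def gstepJ (R : Finset (V d)) (y : V d) (K : ℕ) (Q : Set (V d)) (O : Set (E d)) (w0 : V d) : Prop :=
  w0 ∈ box y K ∧ w0 ∉ R ∧
    ∃ w ∈ Q, w ∈ comp (O ∩ ins ((box y K \ R : Finset (V d)) : Set (V d))) w0

/-- The edges out of `R` that lead to `Q`. -/
noncomputable def gstepU (R : Finset (V d)) (y : V d) (K : ℕ) (Q : Set (V d)) (O : Set (E d)) :
    Finset (E d) :=
  (boxE y K).filter fun e => (e.1 ∈ R ∧ gstepJ R y K Q O (e.1 + ee e.2)) ∨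
    (e.1 + ee e.2 ∈ R ∧ e.1 + ee e.2 ∈ box y K ∧ gstepJ R y K Q O e.1)

/-- The fresh edges. -/
noncomputable def gstepS (R : Finset (V d)) (y : V d) (K : ℕ) : Finset (E d) :=
  (boxE y K).filter fun e => e.1 ∉ R ∧ e.1 + ee e.2 ∉ R

section
variable {R : Finset (V d)} {y : V d} {K : ℕ} {Q : Set (V d)} {O O1 : Set (E d)}

lemma gstepU_dep : DpI (gstepS R y K) (gstepU R y K Q) := fun O O' h => by
  unfold gstepU gstepJ
  rw [gstep_fresh fun e h1 h2 h3 => h e (mem_filter.2 ⟨h1, h2, h3⟩)]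

lemma gstepU_sub : gstepU R y K Q O ⊆ boxE y K \ gstepS R y K := fun e he => by
  obtain ⟨h1, h2⟩ := mem_filter.1 he
  refine mem_sdiff.2 ⟨h1, fun h => ?_⟩
  obtain ⟨-, h3, h4⟩ := mem_filter.1 h
  exact h2.elim (fun a => h3 a.1) fun a => h4 a.1

lemma gstepU_grow {e : E d} (he : e ∈ gstepU R y K Q O) (h : e ∈ O1) :
    ∃ w ∈ Q, w ∈ grow R y K O O1 := by
  obtain ⟨h1, ⟨h2, h3, h4, w, h5, h6⟩ | ⟨h2, h2', h3, h4, w, h5, h6⟩⟩ := mem_filter.1 he
  · exact ⟨w, h5, gstep_mem.2 (Or.inr ⟨_, h2, mem_boxE'.1 h1, _, h3, h4,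
      ⟨e.2, Or.inl ⟨rfl, h⟩⟩, h6⟩)⟩
  · exact ⟨w, h5, gstep_mem.2 (Or.inr ⟨_, h2, h2', _, h3, h4, ⟨e.2, Or.inr ⟨rfl, h⟩⟩, h6⟩)⟩

/-- Last exit from `R`. -/
lemma gstepU_open {a w : V d} (ha : a ∈ R) (hw : w ∈ Q) (hwR : w ∉ R)
    (h : w ∈ comp (O ∩ ins (box y K : Set (V d))) a) : ∃ e ∈ gstepU R y K Q O, e ∈ O := by
  have hwb : w ∈ box y K :=
    mem_of_comp_ne Set.inter_subset_right (comp_symm h) fun e => hwR (e ▸ ha)
  obtain ⟨u, v, h1, h2, h3, h4⟩ := exists_bd_of_comp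
    (S := ((box y K \ R : Finset (V d)) : Set (V d))) (comp_symm h)
    (mem_coe.2 (mem_sdiff.2 ⟨hwb, hwR⟩)) fun x => (mem_sdiff.1 (mem_coe.1 x)).2 ha
  have hv : v ∈ box y K := (path_adj_mem Set.inter_subset_right h4).2
  have hvR : v ∈ R := by_contra fun x => h3 (mem_coe.2 (mem_sdiff.2 ⟨hv, x⟩))
  have hu := mem_sdiff.1 (mem_coe.1 h2)
  have hJ : gstepJ R y K Q O u := ⟨hu.1, hu.2, w, hw, comp_symm
    (comp_mono (Set.inter_subset_inter_left _ Set.inter_subset_left) w h1)⟩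
  obtain ⟨i, ⟨rfl, h5⟩ | ⟨rfl, h5⟩⟩ := h4
  · exact ⟨(u, i), mem_filter.2 ⟨mem_boxE'.2 hu.1, Or.inr ⟨hvR, hv, hJ⟩⟩, h5.1⟩
  · exact ⟨(v, i), mem_filter.2 ⟨mem_boxE'.2 hv, Or.inl ⟨hvR, hJ⟩⟩, h5.1⟩

end

/-- The sprinkling step fails with small probability. -/
theorem step_fail (hp : (p : ℝ) < 1) {η : unitInterval} (hη : 0 < (η : ℝ)) {ε : ℝ} (hε : 0 < ε) :
    ∃ ε' : ℝ, 0 < ε' ∧ ∀ k K : ℕ, Seed d p ε' k K →
    ∀ {τ : Type} (q : E d × τ → unitInterval) (s0 s1 : τ) (y : V d) (i : Fin d) (σ : Fin d → ℤˣ)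
      (R : Finset (V d)), s0 ≠ s1 → (∀ e, q (e, s0) = p) → (∀ e ∈ boxE y K, q (e, s1) = η) →
      k + 1 ≤ (R ∩ box y k).card →
      (nu q).real {O | ¬ ∃ w ∈ qf y K i σ, w ∈ grow R y K (lay s0 O) (lay s1 O)} ≤ ε := by
  obtain ⟨t, ht⟩ := exists_pow_lt_of_lt_one (half_pos hε) (show 1 - (η : ℝ) < 1 by linarith)
  have hp0 : 0 < 1 - (p : ℝ) := by linarith
  have hpt := pow_pos hp0 t
  refine ⟨(1 - p) ^ t * (ε / 2), by positivity,
    fun k K hS τ q s0 s1 y i σ R hs hq0 hq1 hc => ?_⟩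
  by_cases hR : ∃ w ∈ qf y K i σ, w ∈ R
  · obtain ⟨w, h1, h2⟩ := hR
    refine (measureReal_mono (s₂ := ∅) fun O hO => ?_).trans (by simpa using hε.le)
    exact hO ⟨w, h1, subset_grow _ _ _ _ _ h2⟩
  set U := gstepU R y K (qf y K i σ) with hU
  have hUd : DpI (gstepS R y K) U := gstepU_dep
  have hA : DpI (gstepS R y K) fun O => (U O).card ≤ t := fun O O' h => by
    simp only [hUd O O' h]
  have b1 : (nu fun _ : E d => p).real {O | (U O).card ≤ t} ≤ ε / 2 := by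
    refine le_of_mul_le_mul_left ((nu_cond_ge (T := boxE y K \ gstepS R y K) disjoint_sdiff hA
      (F := fun O O' => ∀ e ∈ U O, e ∉ O') (fun O' O1 O2 h => by simp only [hUd O1 O2 h])
      (fun O O1 O2 h => propext (forall₂_congr fun e he => not_congr (h e (gstepU_sub he))))
      fun O hO => ?_).trans ?_) hpt
    · rw [nu_closed, prod_const]
      exact pow_le_pow_of_le_one hp0.le (by linarith [p.2.1]) hO
    · rw [← μP_eq_nu]
      refine (measureReal_mono ?_).trans (hS y i σ (R ∩ box y k) inter_subset_right hc)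
      rintro O ⟨-, hO⟩ ⟨a, ha, w, hw, h⟩
      obtain ⟨e, h1, h2⟩ := gstepU_open (mem_inter.1 ha).1 hw (fun x => hR ⟨w, hw, x⟩) h
      exact hO e h1 h2
  have b2 : (nu q).real {O | (U (lay s0 O)).card ≤ t} ≤ ε / 2 := by
    have h1 := (nu_preimage (q := q) (j := fun e : E d => (e, s0))
      fun a b h => (Prod.mk.inj h).1).measure_preimage hA.measurableSet.nullMeasurableSet
    rw [show (q ∘ fun e : E d => (e, s0)) = fun _ => p from funext hq0] at h1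
    exact (congrArg ENNReal.toReal h1).trans_le b1
  have hUl : DpI (gstepS R y K ×ˢ {s0}) fun O : Set (E d × τ) => U (lay s0 O) := fun O O' h =>
    hUd _ _ fun e he => h (e, s0) (mem_product.2 ⟨he, mem_singleton_self _⟩)
  have hsub : ∀ O, U (lay s0 O) ×ˢ ({s1} : Finset τ) ⊆ boxE y K ×ˢ {s1} := fun O =>
    product_subset_product_left (gstepU_sub.trans sdiff_subset)
  have b3 := nu_cond_le (q := q) (S := gstepS R y K ×ˢ {s0}) (T := boxE y K ×ˢ {s1})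
    (disjoint_product.2 (Or.inr (disjoint_singleton.2 hs)))
    (A := fun O => ¬ (U (lay s0 O)).card ≤ t) (fun O O' h => by simp only [hUl O O' h])
    (F := fun O O' => ∀ e ∈ U (lay s0 O) ×ˢ {s1}, e ∉ O')
    (fun O' O1 O2 h => by simp only [hUl O1 O2 h])
    (fun O O1 O2 h => propext (forall₂_congr fun e he => not_congr (h e (hsub O he))))
    (c := ε / 2) fun O hO => by
      rw [nu_closed, prod_product, prod_congr rfl (g := fun _ => 1 - (η : ℝ)) fun e he => by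
        rw [prod_singleton, hq1 e (mem_sdiff.1 (gstepU_sub he)).1], prod_const]
      exact (pow_le_pow_of_le_one (by linarith [η.2.2]) (by linarith) (not_le.1 hO).le).trans ht.le
  have b4 := b3.trans (mul_le_of_le_one_right (half_pos hε).le measureReal_le_one)
  refine le_trans ((measureReal_mono ?_).trans ((measureReal_union_le _ _).trans
    (add_le_add b2 b4))) (by linarith)
  intro O hO
  refine or_iff_not_imp_left.2 fun h => ⟨h, fun e he x => hO ?_⟩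
  obtain ⟨h1, h2⟩ := mem_product.1 he
  refine gstepU_grow h1 ?_
  change (e.1, s1) ∈ O
  rw [← mem_singleton.1 h2]
  exact x

end Pool.Agent.P.MP_b4265e_pr.R
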