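import Pool.Agent.P.MP_b4265e_pr.R.GSeed
import Pool.Agent.P.MP_b4265e_pr.R.GStep
import Pool.Agent.P.MP_b4265e_pr.R.GExpl

/-!
Two-point connectivity in finite two-dimensional slabs.
-/

namespace Pool.Agent.P.MP_b4265e_pr.R

open Finset MeasureTheory ProbabilityTheory Filter
open scoped Classical

variable {d : ℕ}

/-- A state of the exploration of a slab. -/
structure SlSt (d : ℕ) where
  reg : Finset (V d)
  rch : Finset (V 2)
  pos : V 2 → V d
  tried : Finset (E 2)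
  failed : Finset (E 2)

/-- A move of the exploration. -/
structure SlMv (d : ℕ) where
  c : E 2
  a : V 2
  a' : V 2
  i : Fin d
  σ : Fin d → ℤˣ

/-- Admissible moves. -/
structure SlOk (z : V 2 → V d) (K : ℕ) (CE : Finset (E 2)) (s : SlSt d) (m : SlMv d) : Prop where
  mem : m.c ∈ CE
  new : m.c ∉ s.tried
  src : m.a ∈ s.rch
  tgt : m.a' ∉ s.rch
  ends : (m.a = m.c.1 ∧ m.a' = m.c.1 + ee m.c.2) ∨ (m.a' = m.c.1 ∧ m.a = m.c.1 + ee m.c.2)
  face : qf (s.pos m.a) K m.i m.σ ⊆ box (z m.a') K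

noncomputable def slUpd (K : ℕ) (s : SlSt d) (m : SlMv d) (R' : Finset (V d)) : SlSt d :=
  if h : ∃ w ∈ qf (s.pos m.a) K m.i m.σ, w ∈ R' then
    ⟨R', insert m.a' s.rch, Function.update s.pos m.a' h.choose, insert m.c s.tried, s.failed⟩
  else ⟨R', s.rch, s.pos, insert m.c s.tried, insert m.c s.failed⟩

noncomputable def slGrow (K : ℕ) (s : SlSt d) (m : SlMv d) (O : Set (E d × Option (E 2))) :
    Finset (V d) :=
  grow s.reg (s.pos m.a) K (lay none O) (lay (some m.c) O)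

noncomputable def slStep (z : V 2 → V d) (K : ℕ) (CE : Finset (E 2)) (s : SlSt d)
    (O : Set (E d × Option (E 2))) : SlSt d :=
  if h : ∃ m, SlOk z K CE s m then slUpd K s h.choose (slGrow K s h.choose O) else s

/-- The geometry of the coarse lattice. -/
structure SlGeo (z : V 2 → V d) (K : ℕ) (C2 : Set (V 2)) (CE : Finset (E 2))
    (RF : Finset (V d)) : Prop where
  ce : ∀ c, c ∈ CE ↔ c ∈ ins C2
  inside : ∀ a ∈ C2, box (z a) (2 * K) ⊆ RF
  adjz : ∀ a k, nd (z a) (z (a + ee k)) ≤ K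
  face : ∀ a k, ∀ y ∈ box (z a) K, ∃ i σ, qf y K i σ ⊆ box (z (a + ee k)) K
  face' : ∀ a k, ∀ y ∈ box (z (a + ee k)) K, ∃ i σ, qf y K i σ ⊆ box (z a) K
  sep : ∀ a a', nd (z a) (z a') ≤ 6 * K → nd a a' ≤ 6

/-- The invariant of the exploration. -/
structure SlInv (z : V 2 → V d) (K : ℕ) (C2 : Set (V 2)) (CE : Finset (E 2)) (a0 : V 2)
    (s : SlSt d) : Prop where
  sub : s.failed ⊆ s.tried
  tr : s.tried ⊆ CE
  pos : ∀ a ∈ s.rch, s.pos a ∈ s.reg ∧ s.pos a ∈ box (z a) K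
  rch : (s.rch : Set (V 2)) ⊆ C2
  start : a0 ∈ s.rch
  lk2 : ∀ a ∈ s.rch, a ∈ comp (ins (s.rch : Set (V 2))) a0
  big : box (z a0) K ⊆ s.reg
  lk : ∀ w ∈ s.reg, w ∈ comp (ins (s.reg : Set (V d))) (z a0)
  both : ∀ c ∈ s.tried, c ∉ s.failed → c.1 ∈ s.rch ∧ c.1 + ee c.2 ∈ s.rch

lemma slUpd_R (K : ℕ) (s : SlSt d) (m : SlMv d) (R' : Finset (V d)) : (slUpd K s m R').reg = R' := by
  unfold slUpd
  split_ifs <;> rfl

lemma slUpd_tried (K : ℕ) (s : SlSt d) (m : SlMv d) (R' : Finset (V d)) :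
    (slUpd K s m R').tried = insert m.c s.tried := by
  unfold slUpd
  split_ifs <;> rfl

lemma slStep_cases (z : V 2 → V d) (K : ℕ) (CE : Finset (E 2)) (s : SlSt d) :
    ((¬ ∃ m, SlOk z K CE s m) ∧ ∀ O, slStep z K CE s O = s) ∨
      ∃ m, SlOk z K CE s m ∧ ∀ O, slStep z K CE s O = slUpd K s m (slGrow K s m O) := by
  by_cases h : ∃ m, SlOk z K CE s m
  · exact Or.inr ⟨h.choose, h.choose_spec, fun O => dif_pos h⟩
  · exact Or.inl ⟨h, fun O => dif_neg h⟩

section core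

variable {z : V 2 → V d} {K : ℕ} {C2 : Set (V 2)} {CE : Finset (E 2)} {RF : Finset (V d)}
  {a0 : V 2} {s : SlSt d} {m : SlMv d}

lemma SlInv.upd (hG : SlGeo z K C2 CE RF) (hs : SlInv z K C2 CE a0 s) (hm : SlOk z K CE s m)
    (O : Set (E d × Option (E 2))) : SlInv z K C2 CE a0 (slUpd K s m (slGrow K s m O)) := by
  have hR : s.reg ⊆ slGrow K s m O := subset_grow _ _ _ _ _
  have hlk : ∀ w ∈ slGrow K s m O, w ∈ comp (ins (slGrow K s m O : Set (V d))) (z a0) := by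
    intro w hw
    obtain ⟨r, hr, h⟩ := grow_conn hw
    exact comp_trans (comp_mono (path_ins_mono (coe_subset.2 hR)) _ (hs.lk r hr))
      (comp_mono Set.inter_subset_right _ h)
  have htr : insert m.c s.tried ⊆ CE := insert_subset hm.mem hs.tr
  have hc := (hG.ce _).1 hm.mem
  unfold slUpd
  split_ifs with h
  · have hsub : (s.rch : Set (V 2)) ⊆ (insert m.a' s.rch : Finset (V 2)) :=
      coe_subset.2 (subset_insert _ _)
    refine ⟨hs.sub.trans (subset_insert _ _), htr, fun a ha => ?_, fun a ha => ?_,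
      mem_insert_of_mem hs.start, fun a ha => ?_, hs.big.trans hR, hlk, fun c hc hc' => ?_⟩
    · by_cases e : a = m.a'
      · subst e
        simp only [Function.update_self]
        exact ⟨h.choose_spec.2, hm.face h.choose_spec.1⟩
      · simp only [Function.update_of_ne e]
        have := hs.pos a ((mem_insert.1 ha).resolve_left e)
        exact ⟨hR this.1, this.2⟩
    · rcases mem_insert.1 (mem_coe.1 ha) with rfl | ha
      · rcases hm.ends with e | e
        · exact e.2 ▸ hc.2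
        · exact e.1 ▸ hc.1
      · exact hs.rch ha
    · rcases mem_insert.1 ha with rfl | ha
      · refine comp_adj (comp_mono (path_ins_mono hsub) _ (hs.lk2 _ hm.src)) ?_
        have h1 : m.a ∈ ((insert m.a' s.rch : Finset (V 2)) : Set (V 2)) := hsub hm.src
        have h2 : m.a' ∈ ((insert m.a' s.rch : Finset (V 2)) : Set (V 2)) :=
          mem_coe.2 (mem_insert_self _ _)
        rcases hm.ends with e | e
        · have e' : m.a' = m.a + ee m.c.2 := by rw [e.2, e.1]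
          exact ⟨m.c.2, Or.inl ⟨e', h1, e' ▸ h2⟩⟩
        · have e' : m.a = m.a' + ee m.c.2 := by rw [e.2, e.1]
          exact ⟨m.c.2, Or.inr ⟨e', h2, e' ▸ h1⟩⟩
      · exact comp_mono (path_ins_mono hsub) _ (hs.lk2 a ha)
    · rcases mem_insert.1 hc with rfl | hc
      · rcases hm.ends with e | e
        · exact ⟨e.1 ▸ mem_insert_of_mem hm.src, e.2 ▸ mem_insert_self _ _⟩
        · exact ⟨e.1 ▸ mem_insert_self _ _, e.2 ▸ mem_insert_of_mem hm.src⟩
      · exact ⟨mem_insert_of_mem (hs.both c hc hc').1, mem_insert_of_mem (hs.both c hc hc').2⟩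
  · refine ⟨insert_subset_insert _ hs.sub, htr, fun a ha => ⟨hR (hs.pos a ha).1, (hs.pos a ha).2⟩,
      hs.rch, hs.start, hs.lk2, hs.big.trans hR, hlk, fun c hc hc' => ?_⟩
    have hc'' : ¬ (c = m.c ∨ c ∈ s.failed) := fun h' => hc' (mem_insert.2 h')
    rw [not_or] at hc''
    exact hs.both c ((mem_insert.1 hc).resolve_left hc''.1) hc''.2

lemma SlInv.step (hG : SlGeo z K C2 CE RF) (hs : SlInv z K C2 CE a0 s)
    (O : Set (E d × Option (E 2))) : SlInv z K C2 CE a0 (slStep z K CE s O) := by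
  rcases slStep_cases z K CE s with h | ⟨m, hm, h⟩
  · rw [h.2]
    exact hs
  · rw [h]
    exact hs.upd hG hm O

lemma SlInv.box_sub (hG : SlGeo z K C2 CE RF) (hs : SlInv z K C2 CE a0 s) (hm : SlOk z K CE s m) :
    box (s.pos m.a) K ⊆ RF := by
  refine (box_subset ?_).trans (hG.inside _ (hs.rch hm.src))
  have := mem_box_nd.1 (hs.pos _ hm.src).2
  omega

lemma SlInv.boxE_sub (hG : SlGeo z K C2 CE RF) (hs : SlInv z K C2 CE a0 s)
    (hm : SlOk z K CE s m) : boxE (s.pos m.a) K ⊆ boxE (z m.c.1) (3 * K) := by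
  refine boxE_subset ?_
  have h1 := mem_box_nd.1 (hs.pos _ hm.src).2
  rcases hm.ends with e | e
  · rw [← e.1]
    omega
  · have h2 := hG.adjz m.c.1 m.c.2
    rw [← e.2] at h2
    have := nd_triangle (z m.c.1) (z m.a) (s.pos m.a)
    omega

lemma SlInv.card_le (hd : 1 ≤ d) (hs : SlInv z K C2 CE a0 s) {k : ℕ} (hk : k ≤ K) {y : V d}
    (hy : y ∈ s.reg) : k + 1 ≤ (s.reg ∩ box y k).card := by
  obtain ⟨w, hw, hwy⟩ : ∃ w ∈ s.reg, K ≤ nd y w := by
    set i : Fin d := ⟨0, hd⟩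
    have hmem : ∀ t : ℤ, |t| ≤ K → Function.update (z a0) i (z a0 i + t) ∈ s.reg := by
      intro t ht
      refine hs.big (mem_box.2 fun l => ?_)
      by_cases hl : l = i
      · subst hl
        simpa using ht
      · simp [Function.update_of_ne hl]
    rcases le_total (y i) (z a0 i) with h | h
    · refine ⟨_, hmem K (by simp), ?_⟩
      have := abs_le_nd y (Function.update (z a0) i (z a0 i + K)) i
      rw [Function.update_self] at this
      have h2 := le_abs_self (z a0 i + K - y i)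
      omega
    · refine ⟨_, hmem (-K) (by simp), ?_⟩
      have := abs_le_nd y (Function.update (z a0) i (z a0 i + -K)) i
      rw [Function.update_self] at this
      have h2 := neg_abs_le (z a0 i + -K - y i)
      omega
  have hc : w ∈ comp (ins (s.reg : Set (V d))) y := comp_trans (comp_symm (hs.lk y hy)) (hs.lk w hw)
  have key : range (k + 1) ⊆ (s.reg ∩ box y k).image (nd y) := by
    intro ρ hρ
    have hρ' : ρ ≤ k := by simpa [Nat.lt_succ_iff] using hρ
    obtain ⟨a, ha, h⟩ := exists_sph_of_comp (z := y) (ρ := ρ) hc (by rw [nd_self]; omega)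
      (by omega)
    exact mem_image.2 ⟨a, mem_inter.2 ⟨mem_coe.1 (comp_ins_subset (mem_coe.2 hy) ha),
      mem_box_nd.2 (by omega)⟩, h⟩
  have := (card_le_card key).trans card_image_le
  simpa using this

/-- The variables used by the exploration. -/
noncomputable def slU (CE : Finset (E 2)) (RF : Finset (V d)) : Finset (E d × Option (E 2)) :=
  (RF ×ˢ univ) ×ˢ insertNone CE

/-- The variables revealed so far. -/
noncomputable def slRev (CE : Finset (E 2)) (RF : Finset (V d)) (s : SlSt d) :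
    Finset (E d × Option (E 2)) :=
  (slU CE RF).filter fun x =>
    (x.2 = none ∧ (x.1.1 ∈ s.reg ∨ x.1.1 + ee x.1.2 ∈ s.reg)) ∨ ∃ c ∈ s.tried, x.2 = some c

/-- The parameters of the layers. -/
noncomputable def slQ (z : V 2 → V d) (K : ℕ) (p0 η : unitInterval)
    (x : E d × Option (E 2)) : unitInterval :=
  x.2.elim p0 fun c => if x.1 ∈ boxE (z c.1) (3 * K) then η else 0

lemma mem_slU_none {e : E d} (h : e.1 ∈ RF) : (e, none) ∈ slU CE RF := by
  simp [slU, h]

lemma mem_slU_some {e : E d} (h : e.1 ∈ RF) {c : E 2} (hc : c ∈ CE) :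
    (e, some c) ∈ slU CE RF := by
  simp [slU, h, hc]

lemma sl_explore (hd : 1 ≤ d) (hG : SlGeo z K C2 CE RF) {p0 η : unitInterval} {k : ℕ}
    (hk : k ≤ K) {ε : ℝ} (hε : 0 ≤ ε)
    (hstep : ∀ (q : E d × Option (E 2) → unitInterval) (s0 s1 : Option (E 2)) (y : V d) (i : Fin d)
      (σ : Fin d → ℤˣ) (R : Finset (V d)), s0 ≠ s1 → (∀ e, q (e, s0) = p0) →
      (∀ e ∈ boxE y K, q (e, s1) = η) → k + 1 ≤ (R ∩ box y k).card →
      (nu q).real {O | ¬ ∃ w ∈ qf y K i σ, w ∈ grow R y K (lay s0 O) (lay s1 O)} ≤ ε)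
    (hs : SlInv z K C2 CE a0 s) (h0 : s.tried = ∅) (n : ℕ) (T : Finset (E 2)) :
    (nu (slQ z K p0 η)).real
      {O | T ⊆ ((fun s' => slStep z K CE s' O)^[n] s).failed} ≤ ε ^ T.card := by
  refine explore (slQ z K p0 η) (slU CE RF) (slStep z K CE) (slRev CE RF) SlSt.tried SlSt.failed
    (SlInv z K C2 CE a0) hε (fun s O hs => hs.step hG O) (fun s hs => hs.sub) ?_ ?_ ?_ ?_ n s hs T
    (by simp [h0])
  · intro s O _ x hx
    rcases slStep_cases z K CE s with h | ⟨m, _, h⟩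
    · rwa [h.2]
    · rw [h]
      have hR : s.reg ⊆ slGrow K s m O := subset_grow _ _ _ _ _
      simp only [slRev, mem_filter, slUpd_R, slUpd_tried] at hx ⊢
      refine ⟨hx.1, hx.2.imp (fun h => ⟨h.1, h.2.imp (fun h => hR h) fun h => hR h⟩) ?_⟩
      rintro ⟨c, h1, h2⟩
      exact ⟨c, mem_insert_of_mem h1, h2⟩
  · intro s hs O O' hO
    rcases slStep_cases z K CE s with h | ⟨m, hm, h⟩
    · rw [h.2, h.2]
    · rw [h, h]
      congr 1
      refine grow_congr (fun e he h1 h2 => hO (e, none) ?_) fun e he => hO (e, some m.c) ?_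
      · have := mem_slU_none (CE := CE) (hs.box_sub hG hm (mem_boxE'.1 he))
        simp [slRev, this, h1, h2]
      · have := mem_slU_some (hs.box_sub hG hm (mem_boxE'.1 he)) hm.mem
        simp only [Finset.mem_sdiff, slRev, Finset.mem_filter, this, true_and]
        rintro (⟨h1, _⟩ | ⟨c, h1, h2⟩)
        · exact absurd h1 (by simp)
        · exact hm.new (Option.some_injective _ h2 ▸ h1)
  · intro s O O' hs hO
    rcases slStep_cases z K CE s with h | ⟨m, hm, h⟩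
    · rw [h.2, h.2]
    · rw [h] at hO
      rw [h, h]
      congr 1
      refine grow_stop (fun e he h1 => hO (e, none) ?_) fun e he => hO (e, some m.c) ?_
      · refine mem_filter.2 ⟨mem_slU_none (hs.box_sub hG hm (mem_boxE'.1 he)), Or.inl ⟨rfl, ?_⟩⟩
        rw [slUpd_R]
        exact h1
      · refine mem_filter.2 ⟨mem_slU_some (hs.box_sub hG hm (mem_boxE'.1 he)) hm.mem,
          Or.inr ⟨m.c, ?_, rfl⟩⟩
        rw [slUpd_tried]
        exact mem_insert_self _ _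
  · intro s hs
    rcases slStep_cases z K CE s with h | ⟨m, hm, h⟩
    · exact Or.inl h.2
    refine Or.inr ⟨m.c, hm.new, fun O => ⟨?_, ?_⟩, ?_⟩
    · rw [h, slUpd_tried]
      ext c
      simp
    · rw [h]
      unfold slUpd
      split_ifs
      · exact Or.inl rfl
      · refine Or.inr ?_
        ext c
        simp
    · refine le_trans (measureReal_mono ?_) (hstep (slQ z K p0 η) none (some m.c) (s.pos m.a) m.i
        m.σ s.reg (by simp) (fun e => rfl) (fun e he => if_pos (hs.boxE_sub hG hm he))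
        (hs.card_le hd hk (hs.pos _ hm.src).1))
      intro O hO hw
      apply hO
      rw [h]
      unfold slUpd
      rw [dif_pos (show ∃ w ∈ qf (s.pos m.a) K m.i m.σ, w ∈ slGrow K s m O from hw)]

lemma sl_run (hG : SlGeo z K C2 CE RF) (hs : SlInv z K C2 CE a0 s) (hR : s.reg = box (z a0) K)
    (O : Set (E d × Option (E 2))) (n : ℕ) :
    SlInv z K C2 CE a0 ((fun s' => slStep z K CE s' O)^[n] s) ∧
    (∀ w ∈ ((fun s' => slStep z K CE s' O)^[n] s).reg, ∃ r ∈ box (z a0) K,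
      w ∈ comp (unl (insertNone CE) O ∩ ins (RF : Set (V d))) r) ∧
    ((¬ ∃ m, SlOk z K CE ((fun s' => slStep z K CE s' O)^[n] s) m) ∨
      n ≤ ((fun s' => slStep z K CE s' O)^[n] s).tried.card) := by
  induction n with
  | zero => exact ⟨hs, fun w hw => ⟨w, hR ▸ hw, mem_comp_self _ _⟩, Or.inr (Nat.zero_le _)⟩
  | succ n ih =>
    rw [Function.iterate_succ_apply']
    set t := (fun s' => slStep z K CE s' O)^[n] s
    obtain ⟨h1, h2, h3⟩ := ih
    refine ⟨h1.step hG O, ?_⟩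
    rcases slStep_cases z K CE t with h | ⟨m, hm, h⟩
    · rw [h.2]
      exact ⟨h2, Or.inl h.1⟩
    rw [h, slUpd_R, slUpd_tried]
    refine ⟨fun w hw => ?_, Or.inr ?_⟩
    · obtain ⟨r, hr, hw'⟩ := grow_conn hw
      obtain ⟨r0, hr0, hr'⟩ := h2 r hr
      refine ⟨r0, hr0, comp_trans hr' (comp_mono ?_ _ hw')⟩
      rintro e ⟨⟨he, he'⟩, _⟩
      refine ⟨?_, path_ins_mono (coe_subset.2 (h1.box_sub hG hm)) he'⟩
      rcases he with he | he
      · exact ⟨none, by simp, he⟩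
      · exact ⟨some m.c, by simpa using hm.mem, he⟩
    · rw [card_insert_of_notMem hm.new]
      have := h3.resolve_left (not_not.2 ⟨m, hm⟩)
      omega

lemma sl_cut (hG : SlGeo z K C2 CE RF) (hs : SlInv z K C2 CE a0 s)
    (hno : ¬ ∃ m, SlOk z K CE s m) {c : E 2} (hc : c ∈ bd (s.rch : Set (V 2)) ∩ ins C2) :
    c ∈ s.failed := by
  by_contra hf
  have hb : ¬ (c.1 ∈ s.rch ↔ c.1 + ee c.2 ∈ s.rch) := hc.1
  by_cases ht : c ∈ s.tried
  · have := hs.both c ht hf
    exact hb ⟨fun _ => this.2, fun _ => this.1⟩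
  apply hno
  by_cases h1 : c.1 ∈ s.rch
  · obtain ⟨i, σ, h⟩ := hG.face c.1 c.2 _ (hs.pos _ h1).2
    exact ⟨⟨c, c.1, c.1 + ee c.2, i, σ⟩, (hG.ce c).2 hc.2, ht, h1,
      fun h2 => hb ⟨fun _ => h2, fun _ => h1⟩, Or.inl ⟨rfl, rfl⟩, h⟩
  · have h2 : c.1 + ee c.2 ∈ s.rch := by
      by_contra h2
      exact hb ⟨fun h => absurd h h1, fun h => absurd h h2⟩
    obtain ⟨i, σ, h⟩ := hG.face' c.1 c.2 _ (hs.pos _ h2).2
    exact ⟨⟨c, c.1 + ee c.2, c.1, i, σ⟩, (hG.ce c).2 hc.2, ht, h2, h1, Or.inr ⟨rfl, rfl⟩, h⟩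

lemma sl_prod (hG : SlGeo z K C2 CE RF) (p0 η : unitInterval) (e : E d) :
    (1 - (p0 : ℝ)) * (1 - η) ^ 338 ≤ ∏ t ∈ insertNone CE, (1 - (slQ z K p0 η (e, t) : ℝ)) := by
  rw [prod_insertNone]
  refine mul_le_mul_of_nonneg_left ?_ (sub_nonneg.2 p0.2.2)
  have h1 : ∏ c ∈ CE, (1 - (slQ z K p0 η (e, some c) : ℝ)) =
      (1 - η) ^ (CE.filter fun c => e ∈ boxE (z c.1) (3 * K)).card := by
    rw [← prod_const, prod_filter]
    refine prod_congr rfl fun c _ => ?_
    simp only [slQ, Option.elim]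
    split_ifs <;> simp
  rw [h1]
  refine pow_le_pow_of_le_one (sub_nonneg.2 η.2.2) (sub_le_self _ η.2.1) ?_
  rcases (CE.filter fun c => e ∈ boxE (z c.1) (3 * K)).eq_empty_or_nonempty with h | ⟨c0, h⟩
  · simp [h]
  have hsub : (CE.filter fun c => e ∈ boxE (z c.1) (3 * K)) ⊆ boxE c0.1 6 := by
    intro c hc
    have e1 := mem_box_nd.1 (mem_boxE'.1 (mem_filter.1 hc).2)
    have e2 := mem_box_nd.1 (mem_boxE'.1 (mem_filter.1 h).2)
    have e3 := nd_triangle (z c0.1) e.1 (z c.1)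
    rw [nd_comm e.1] at e3
    exact mem_boxE'.2 (mem_box_nd.2 (hG.sep _ _ (by omega)))
  refine (card_le_card hsub).trans (le_of_eq ?_)
  simp [boxE, card_box]

lemma sl_dpI (RF : Finset (V d)) (A B : Finset (V d)) : DpI (RF ×ˢ (univ : Finset (Fin d)))
    fun O : Set (E d) => ∃ r ∈ A, ∃ w ∈ B, w ∈ comp (O ∩ ins (RF : Set (V d))) r := by
  intro O O' h
  have : O ∩ ins (RF : Set (V d)) = O' ∩ ins (RF : Set (V d)) :=
    inter_congr (S := RF ×ˢ univ) h fun e he => by simpa using he.1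
  simp only [this]

lemma sl_incr (RF : Finset (V d)) (A B : Finset (V d)) :
    Incr fun O : Set (E d) => ∃ r ∈ A, ∃ w ∈ B, w ∈ comp (O ∩ ins (RF : Set (V d))) r := by
  rintro O O' h ⟨r, hr, w, hw, h'⟩
  exact ⟨r, hr, w, hw, comp_mono (Set.inter_subset_inter_left _ h) _ h'⟩

lemma sl_core (hd : 1 ≤ d) {lo2 hi2 : V 2} {N : ℕ} (hN : ∀ j, hi2 j = lo2 j + N)
    (hG : SlGeo z K (rect lo2 hi2) CE RF) {p0 p η : unitInterval}
    (hη : 1 - (p : ℝ) ≤ (1 - p0) * (1 - η) ^ 338) {k : ℕ} (hk : k ≤ K) {ε : ℝ} (hε : 0 ≤ ε)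
    (hstep : ∀ (q : E d × Option (E 2) → unitInterval) (s0 s1 : Option (E 2)) (y : V d) (i : Fin d)
      (σ : Fin d → ℤˣ) (R : Finset (V d)), s0 ≠ s1 → (∀ e, q (e, s0) = p0) →
      (∀ e ∈ boxE y K, q (e, s1) = η) → k + 1 ≤ (R ∩ box y k).card →
      (nu q).real {O | ¬ ∃ w ∈ qf y K i σ, w ∈ grow R y K (lay s0 O) (lay s1 O)} ≤ ε)
    (hP : ∀ (μ : Measure (Set (E d × Option (E 2)))) [IsProbabilityMeasure μ]
      (Fl : Set (E d × Option (E 2)) → Finset (E 2)) (a0 a1 : V 2),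
      (∀ T : Finset (E 2), μ.real {ω | T ⊆ Fl ω} ≤ ε ^ T.card) →
      μ.real {ω | ∃ T : Finset (E 2), T ⊆ Fl ω ∧ StarConn (T : Set (E 2)) ∧
        ∃ e ∈ T, nd a0 e.1 ≤ 2 * T.card + 1 ∨ nd a1 e.1 ≤ 2 * T.card + 1} ≤ 1 / 2)
    {a0 a1 : V 2} (h0 : a0 ∈ rect lo2 hi2) (h1 : a1 ∈ rect lo2 hi2) :
    1 / 2 ≤ (μP d p).real {O | ∃ r ∈ box (z a0) K, ∃ w ∈ box (z a1) K,
      w ∈ comp (O ∩ ins (RF : Set (V d))) r} := by
  set s : SlSt d := ⟨box (z a0) K, {a0}, z, ∅, ∅⟩ with hsdef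
  have hs : SlInv z K (rect lo2 hi2) CE a0 s := by
    refine ⟨subset_rfl, empty_subset _, fun a ha => ?_, fun a ha => ?_, mem_singleton_self _,
      fun a ha => ?_, subset_rfl, fun w hw => comp_ins_box (mem_box_self _ _) hw,
      fun c hc => absurd hc (notMem_empty _)⟩
    · rw [mem_singleton.1 ha]
      exact ⟨mem_box_self _ _, mem_box_self _ _⟩
    · rw [mem_singleton.1 (mem_coe.1 ha)]
      exact h0
    · rw [mem_singleton.1 ha]
      exact mem_comp_self _ _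
  have e1 := hP (nu (slQ z K p0 η))
    (fun O => ((fun s' => slStep z K CE s' O)^[CE.card + 1] s).failed) a0 a1
    (sl_explore hd hG hk hε hstep hs rfl _)
  have e2 := nu_unl_le (insertNone CE) (q := slQ z K p0 η) (q' := fun _ => p)
    (fun e => hη.trans (sl_prod hG p0 η e)) (sl_dpI RF (box (z a0) K) (box (z a1) K))
    (sl_incr RF _ _)
  rw [μP_eq_nu]
  refine le_trans ?_ e2
  have e3 := measureReal_union_le (μ := nu (slQ z K p0 η))
    {O | ∃ r ∈ box (z a0) K, ∃ w ∈ box (z a1) K,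
      w ∈ comp (unl (insertNone CE) O ∩ ins (RF : Set (V d))) r}
    {ω | ∃ T : Finset (E 2), T ⊆ ((fun s' => slStep z K CE s' ω)^[CE.card + 1] s).failed ∧
      StarConn (T : Set (E 2)) ∧
        ∃ e ∈ T, nd a0 e.1 ≤ 2 * T.card + 1 ∨ nd a1 e.1 ≤ 2 * T.card + 1}
  rw [Set.eq_univ_of_forall (s := _ ∪ _), probReal_univ] at e3
  · linarith
  intro O
  obtain ⟨h2, h3, h4⟩ := sl_run hG hs rfl O (CE.card + 1)
  set t := (fun s' => slStep z K CE s' O)^[CE.card + 1] s
  have hno := h4.resolve_right (by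
    have := card_le_card h2.tr
    omega)
  by_cases ha : a1 ∈ t.rch
  · obtain ⟨r, hr, h⟩ := h3 _ (h2.pos a1 ha).1
    exact Or.inl ⟨r, hr, _, (h2.pos a1 ha).2, h⟩
  have hconn : Conn (t.rch : Set (V 2)) := by
    have : (t.rch : Set (V 2)) = comp (ins (t.rch : Set (V 2))) a0 :=
      Set.Subset.antisymm h2.lk2 (comp_ins_subset (mem_coe.2 h2.start))
    rw [this]
    exact conn_comp _ _
  obtain ⟨T, hT1, hT2, hT3⟩ := anchored_cut le_rfl hN h2.rch hconn (mem_coe.2 h2.start) h1 ha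
  exact Or.inr ⟨T, fun c hc => sl_cut hG h2 hno (hT1 hc), hT2, hT3⟩

end core

lemma sl_face {y c c' : V d} {K : ℕ} (hy : y ∈ box c K) (i : Fin d) (u : ℤˣ)
    (h1 : c' i = c i + (u : ℤ) * K) (h2 : ∀ l, l ≠ i → c' l = c l) :
    ∃ σ, qf y K i σ ⊆ box c' K := by
  refine ⟨fun l => if l = i then u else if c l ≤ y l then -1 else 1, fun w hw => ?_⟩
  refine mem_coe.2 (mem_box.2 fun l => ?_)
  have hl := abs_le.1 (mem_box.1 hy l)
  by_cases e : l = i
  · subst e
    have := hw.1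
    simp only [if_true] at this
    rw [abs_le]
    constructor <;> linarith [hl.1, hl.2]
  · have := hw.2 l
    simp only [if_neg e] at this
    rw [h2 l e, abs_le]
    split_ifs at this with h
    · simp only [Units.val_neg, Units.val_one] at this
      constructor <;> linarith [hl.1, hl.2, this.1, this.2]
    · simp only [Units.val_one] at this
      constructor <;> linarith [hl.1, hl.2, this.1, this.2]

/-- The centres of the coarse sites. -/
def slZ (lo : V d) (K : ℕ) (i j : Fin d) (a : V 2) : V d := fun l =>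
  lo l + 2 * K + K * (if l = i then a 0 else if l = j then a 1 else 0)

lemma slZ_add (lo : V d) (K : ℕ) {i j : Fin d} (hij : i ≠ j) (a : V 2) (k : Fin 2) :
    ∃ i', slZ lo K i j (a + ee k) i' = slZ lo K i j a i' + K ∧
      ∀ l, l ≠ i' → slZ lo K i j (a + ee k) l = slZ lo K i j a l := by
  fin_cases k
  · refine ⟨i, ?_, fun l hl => ?_⟩
    · simp [slZ, ee]
      ring
    · simp [slZ, ee, hl]
  · refine ⟨j, ?_, fun l hl => ?_⟩
    · simp [slZ, ee, hij.symm]
      ring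
    · simp [slZ, ee, hl]

lemma sl_geo {K N : ℕ} (hK : 1 ≤ K) {i j : Fin d} {lo hi : V d} (hij : i ≠ j)
    (h1 : lo i + 4 * K + K * N ≤ hi i) (h2 : hi j - lo j = hi i - lo i)
    (h3 : ∀ l, l ≠ i → l ≠ j → hi l = lo l + 4 * K) :
    SlGeo (slZ lo K i j) K (rect 0 fun _ => N) (coarse_finite_ins (0 : V 2) fun _ => N).toFinset
      (Fintype.piFinset fun l => Icc (lo l) (hi l)) := by
  have hK' : (0 : ℤ) < K := by exact_mod_cast hK
  refine ⟨fun c => Set.Finite.mem_toFinset _, fun a ha w hw => ?_, fun a k => ?_,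
    fun a k y hy => ?_, fun a k y hy => ?_, fun a a' h => ?_⟩
  · refine Fintype.mem_piFinset.2 fun l => mem_Icc.2 ?_
    have hl := abs_le.1 (mem_box.1 hw l)
    have a0 : (0 : ℤ) ≤ a 0 ∧ a 0 ≤ N := ha 0
    have a1 : (0 : ℤ) ≤ a 1 ∧ a 1 ≤ N := ha 1
    simp only [slZ] at hl
    push_cast at hl
    split_ifs at hl with e e'
    · subst e
      constructor <;> nlinarith [hl.1, hl.2, a0.1, a0.2]
    · subst e'
      constructor <;> nlinarith [hl.1, hl.2, a1.1, a1.2]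
    · rw [h3 l e e']
      constructor <;> linarith [hl.1, hl.2]
  · obtain ⟨i', e1, e2⟩ := slZ_add lo K hij a k
    refine path_nd_le.2 fun l => ?_
    by_cases e : l = i'
    · subst e
      simp [e1]
    · simp [e2 l e]
  · obtain ⟨i', e1, e2⟩ := slZ_add lo K hij a k
    exact ⟨i', sl_face hy i' 1 (by simpa using e1) e2⟩
  · obtain ⟨i', e1, e2⟩ := slZ_add lo K hij a k
    exact ⟨i', sl_face hy i' (-1) (by simp [e1]) fun l hl => (e2 l hl).symm⟩
  · have e1 := abs_le.1 (path_nd_le.1 h i)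
    have e2 := abs_le.1 (path_nd_le.1 h j)
    simp only [slZ, if_true, if_neg hij.symm] at e1 e2
    push_cast at e1 e2
    refine path_nd_le.2 fun l => abs_le.2 ?_
    fin_cases l
    · constructor <;> simp <;> nlinarith [e1.1, e1.2]
    · constructor <;> simp <;> nlinarith [e2.1, e2.2]

lemma sl_round {K N : ℕ} (hK : 1 ≤ K) {t : ℤ} (h0 : 0 ≤ t) (h1 : t ≤ 5 * K + K * N) :
    ∃ a : ℤ, 0 ≤ a ∧ a ≤ N ∧ |t - (2 * K + K * a)| ≤ 3 * K := by
  induction N with
  | zero =>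
    have : (0 : ℤ) ≤ K := Nat.cast_nonneg _
    push_cast at h1
    exact ⟨0, le_rfl, le_rfl, abs_le.2 ⟨by linarith, by linarith⟩⟩
  | succ N ih =>
    by_cases h : t ≤ 5 * K + K * N
    · obtain ⟨a, e1, e2, e3⟩ := ih h
      exact ⟨a, e1, by push_cast; linarith, e3⟩
    · refine ⟨N + 1, by positivity, by push_cast; linarith, abs_le.2 ⟨?_, ?_⟩⟩
      · have : (0 : ℤ) ≤ K := Nat.cast_nonneg _
        linarith
      · push_cast at h1
        linarith

lemma sl_near {K N : ℕ} (hK : 1 ≤ K) {i j : Fin d} {lo hi : V d} (hij : i ≠ j)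
    (h1 : hi i ≤ lo i + 5 * K + K * N) (h2 : hi j - lo j = hi i - lo i)
    (h3 : ∀ l, l ≠ i → l ≠ j → hi l = lo l + 4 * K) {b : V d} (hb : b ∈ rect lo hi) :
    ∃ a ∈ rect (0 : V 2) fun _ => N, b ∈ box (slZ lo K i j a) (3 * K) := by
  obtain ⟨a0, e1, e2, e3⟩ := sl_round (N := N) hK (t := b i - lo i) (by linarith [(hb i).1])
    (by linarith [(hb i).2])
  obtain ⟨a1, f1, f2, f3⟩ := sl_round (N := N) hK (t := b j - lo j) (by linarith [(hb j).1])
    (by linarith [(hb j).2])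
  refine ⟨![a0, a1], fun l => ?_, mem_box.2 fun l => ?_⟩
  · fin_cases l
    · exact ⟨e1, e2⟩
    · exact ⟨f1, f2⟩
  · simp only [slZ]
    push_cast
    split_ifs with e e'
    · subst e
      have : b l - (lo l + 2 * K + K * a0) = b l - lo l - (2 * K + K * a0) := by ring
      exact this ▸ e3
    · subst e'
      have : b l - (lo l + 2 * K + K * a1) = b l - lo l - (2 * K + K * a1) := by ring
      exact this ▸ f3
    · have := hb l
      rw [h3 l e e'] at this
      have hK' : (0 : ℤ) ≤ K := Nat.cast_nonneg _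
      rw [abs_le]
      constructor <;> linarith [this.1, this.2]

lemma sl_join {lo hi x b r : V d} {ρ : ℕ} {O : Set (E d)} (hO : ∀ e ∈ boxE x ρ, e ∈ O)
    (hb : b ∈ rect lo hi) (hb' : b ∈ box x ρ) (hr : r ∈ rect lo hi) (hr' : r ∈ box x ρ) :
    r ∈ comp (O ∩ ins (rect lo hi)) b := by
  have hc : Conn (rect lo hi ∩ (box x ρ : Set (V d))) := by
    have := conn_pi (d := d) (fun k => Set.Icc (lo k) (hi k) ∩ Set.Icc (x k - ρ) (x k + ρ))
      fun _ => Set.ordConnected_Icc.inter Set.ordConnected_Icc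
    convert this using 1
    ext y
    simp only [rect, box, mem_coe, Fintype.mem_piFinset, mem_Icc, Set.mem_Icc, Set.mem_ofPred_eq,
      Set.mem_inter_iff, forall_and]
  refine comp_mono ?_ _ (subset_comp_of_conn hc subset_rfl ⟨hb, hb'⟩ (mem_comp_self _ _) ⟨hr, hr'⟩)
  intro e he
  exact ⟨hO e (mem_boxE'.2 he.1.2), he.1.1, he.2.1⟩

lemma sl_eta {p0 p : unitInterval} (hp : p0 < p) :
    ∃ η : unitInterval, 0 < (η : ℝ) ∧ 1 - (p : ℝ) ≤ (1 - p0) * (1 - η) ^ 338 := by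
  have hp' : (p0 : ℝ) < p := hp
  have h0 := p0.2.1
  have h1 := p.2.2
  refine ⟨⟨(p - p0) / 338, by positivity, by linarith⟩, by positivity, ?_⟩
  have := one_add_mul_le_pow (a := -((p - p0 : ℝ) / 338)) (by linarith) 338
  rw [← sub_eq_add_neg] at this
  refine le_trans ?_ (mul_le_mul_of_nonneg_left this (by linarith : (0 : ℝ) ≤ 1 - p0))
  have h3 : (0 : ℝ) ≤ p0 * (p - p0) := mul_nonneg h0 (by linarith)
  have h4 : (1 - p0 : ℝ) * (1 + (338 : ℕ) * -((p - p0 : ℝ) / 338)) =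
      1 - p + p0 * (p - p0) := by
    push_cast
    ring
  rw [h4]
  exact le_add_of_nonneg_right h3

theorem slab_twoPt {d : ℕ} (hd : 2 ≤ d) {p0 p : unitInterval} (hp : p0 < p)
    (hθ : 0 < (μP d p0).real {O | (0 : V d) ∈ Cl O}) : ∃ (K : ℕ) (δ : ℝ), 1 ≤ K ∧ 0 < δ ∧
    ∀ (i j : Fin d) (lo hi : V d), i ≠ j → lo i + 8 * K ≤ hi i → hi j - lo j = hi i - lo i →
      (∀ l, l ≠ i → l ≠ j → hi l = lo l + 4 * K) → TwoPt p δ (rect lo hi) := by
  have hp' : (p0 : ℝ) < p := hp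
  have hp0 : (0 : ℝ) < p := p0.2.1.trans_lt hp'
  obtain ⟨ε, hε, hP⟩ := peierls_two 2
  obtain ⟨η, hη0, hη⟩ := sl_eta hp
  obtain ⟨ε', hε', hstep⟩ := step_fail (d := d) (hp'.trans_le p.2.2) hη0 hε
  obtain ⟨k, K, hk, hseed⟩ := exists_seed (by omega) hθ hε'
  have hK : 1 ≤ K := by omega
  refine ⟨K, 1 / 2 * (p : ℝ) ^ (2 * (boxE (0 : V d) (3 * K)).card), hK, by positivity,
    fun i j lo hi hij h1 h2 h3 b hb b' hb' => ?_⟩
  have hK' : (0 : ℤ) < K := by exact_mod_cast hK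
  obtain ⟨N, hN1, hN2⟩ : ∃ N : ℕ, lo i + 4 * K + K * N ≤ hi i ∧ hi i ≤ lo i + 5 * K + K * N := by
    have e0 : 0 ≤ (hi i - lo i - 4 * K) / K := Int.ediv_nonneg (by linarith) hK'.le
    have e1 := Int.mul_ediv_self_le (x := hi i - lo i - 4 * K) hK'.ne'
    have e2 := Int.lt_mul_ediv_self_add (x := hi i - lo i - 4 * K) hK'
    refine ⟨((hi i - lo i - 4 * K) / K).toNat, ?_, ?_⟩ <;> rw [Int.toNat_of_nonneg e0] <;> linarith
  have hG := sl_geo hK hij hN1 h2 h3
  obtain ⟨a0, ha0, hb0⟩ := sl_near hK hij hN2 h2 h3 hb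
  obtain ⟨a1, ha1, hb1⟩ := sl_near hK hij hN2 h2 h3 hb'
  set z := slZ lo K i j
  set RF : Finset (V d) := Fintype.piFinset fun l => Icc (lo l) (hi l) with hRFdef
  have hRF : (RF : Set (V d)) = rect lo hi := by
    ext y
    simp only [rect, hRFdef, mem_coe, Fintype.mem_piFinset, mem_Icc, Set.mem_ofPred_eq]
  have e1 := sl_core (by omega) (N := N) (fun _ => by simp) hG hη (by omega : k ≤ K) hε.le
    (hstep k K hseed) (fun μ _ => hP μ) ha0 ha1
  set S := boxE (z a0) (3 * K) ∪ boxE (z a1) (3 * K) with hS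
  have e2 := harris (q := fun _ : E d => p) (S := RF ×ˢ univ ∪ S)
    ((sl_dpI RF (box (z a0) K) (box (z a1) K)).mono fun e he => by simp [he])
    (B := fun O => ∀ e ∈ S, e ∈ O)
    (fun O O' h => propext (forall₂_congr fun e he => h e (by simp [he]))) (sl_incr RF _ _)
    fun O O' h hO e he => h (hO e he)
  rw [nu_open, prod_const, ← μP_eq_nu] at e2
  have e3 : (p : ℝ) ^ (2 * (boxE (0 : V d) (3 * K)).card) ≤ (p : ℝ) ^ S.card := by
    refine pow_le_pow_of_le_one hp0.le p.2.2 ((card_union_le _ _).trans (le_of_eq ?_))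
    simp [boxE, card_box, two_mul]
  refine (mul_le_mul e1 e3 (by positivity) measureReal_nonneg).trans
    (e2.trans (measureReal_mono ?_))
  rintro O ⟨⟨r, hr, w, hw, h⟩, hO⟩
  rw [hRF] at h
  have hin : ∀ a ∈ rect (0 : V 2) fun _ => N, ∀ y ∈ box (z a) K,
      y ∈ rect lo hi ∧ y ∈ box (z a) (3 * K) := fun a ha y hy =>
    ⟨hRF ▸ mem_coe.2 (hG.inside a ha (box_mono _ (by omega) hy)), box_mono _ (by omega) hy⟩
  exact comp_trans (sl_join (fun e he => hO e (mem_union_left _ he)) hb hb0 (hin a0 ha0 r hr).1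
    (hin a0 ha0 r hr).2) (comp_trans h (sl_join (fun e he => hO e (mem_union_right _ he))
      (hin a1 ha1 w hw).1 (hin a1 ha1 w hw).2 hb' hb1))

end Pool.Agent.P.MP_b4265e_pr.R
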