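import Pool.Agent.P.MP_b4265e_pr.R.PShift
import Pool.Agent.P.MP_d95e10_pr.BK

/-!
Uniqueness of the infinite cluster and its finite-volume consequences.
-/

namespace Pool.Agent.P.MP_b4265e_pr.R

open Finset MeasureTheory ProbabilityTheory Filter
open scoped Classical symmDiff

variable {d : ℕ} {p : unitInterval}

/-- The events that depend on the edges of some box. -/
def guLoc (d : ℕ) : Set (Set (Set (E d))) := {B | ∃ r : ℕ, Dep (boxE (0 : V d) r) fun O => O ∈ B}

lemma gu_ring : IsSetRing (guLoc d) := by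
  refine ⟨⟨0, fun _ _ _ => rfl⟩, ?_, ?_⟩
  · rintro s t ⟨r, hr⟩ ⟨r', hr'⟩
    refine ⟨max r r', fun O O' h => ?_⟩
    have h1 := hr.mono (boxE_mono _ (le_max_left r r')) O O' h
    have h2 := hr'.mono (boxE_mono _ (le_max_right r r')) O O' h
    simp only [Set.mem_union] at h1 h2 ⊢
    rw [h1, h2]
  · rintro s t ⟨r, hr⟩ ⟨r', hr'⟩
    refine ⟨max r r', fun O O' h => ?_⟩
    have h1 := hr.mono (boxE_mono _ (le_max_left r r')) O O' h
    have h2 := hr'.mono (boxE_mono _ (le_max_right r r')) O O' h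
    simp only [Set.mem_sdiff] at h1 h2 ⊢
    rw [h1, h2]

lemma gu_gen : (Set.instMeasurableSpace : MeasurableSpace (Set (E d))) =
    MeasurableSpace.generateFrom (guLoc d) := by
  refine le_antisymm ?_ (MeasurableSpace.generateFrom_le fun B hB => hB.elim fun _ h =>
    h.measurableSet)
  have : @Measurable _ _ (MeasurableSpace.generateFrom (guLoc d)) Set.instMeasurableSpace id := by
    refine (@measurable_set_iff _ _ (MeasurableSpace.generateFrom (guLoc d)) _).2 fun e => ?_
    refine (@measurableSet_setOfPred _ (MeasurableSpace.generateFrom (guLoc d)) _).1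
      (MeasurableSpace.measurableSet_generateFrom ⟨nd 0 e.1, fun O O' h => ?_⟩)
    exact propext (h e (mem_boxE'.2 (mem_box_nd.2 le_rfl)))
  exact fun s hs => this hs

theorem zero_one_sh (hd : 1 ≤ d) {A : Set (Set (E d))} (hA : MeasurableSet A)
    (h : ∀ z, sh z ⁻¹' A = A) : μP d p A = 0 ∨ μP d p A = 1 := by
  set μ := μP d p with hμ
  have key : ∀ ε : ℝ, 0 < ε → μ.real A * (1 - μ.real A) ≤ 4 * ε := by
    intro ε hε
    obtain ⟨B, ⟨r, hB⟩, hAB⟩ := exists_measure_symmDiff_lt_of_generateFrom_isSetRing (μ := μ)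
      (C := guLoc d) gu_ring ⟨{Set.univ}, Set.countable_singleton _,
        Set.singleton_subset_iff.2 ⟨0, fun _ _ _ => rfl⟩, by simp⟩
      gu_gen hA (ε := ENNReal.ofReal ε) (by simpa using hε)
    have hBm : MeasurableSet B := hB.measurableSet
    set z : V d := fun _ => 2 * r + 1 with hz
    have hmp := measurePreserving_sh (p := p) z
    set B' := sh z ⁻¹' B with hB'
    have hB'm : MeasurableSet B' := hmp.measurable hBm
    have h1 : μ.real (B ∆ A) ≤ ε := ENNReal.toReal_le_of_le_ofReal hε.le hAB.le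
    have h2 : μ.real (B' ∆ A) ≤ ε := by
      have : B' ∆ A = sh z ⁻¹' (B ∆ A) := by rw [Set.preimage_symmDiff, h]
      rw [this, measureReal_def, hmp.measure_preimage (hBm.symmDiff hA).nullMeasurableSet]
      exact h1
    have h3 : μ.real B' = μ.real B := by
      rw [measureReal_def, hmp.measure_preimage hBm.nullMeasurableSet, measureReal_def]
    have hnd : r + r < nd (0 : V d) (0 + z) := by
      have := abs_le_nd (0 : V d) (0 + z) ⟨0, hd⟩
      simp only [hz, zero_add, Pi.zero_apply, sub_zero] at this ⊢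
      have h0 := le_abs_self (2 * (r : ℤ) + 1)
      omega
    have h5 : μ.real (B ∩ B'ᶜ) = μ.real B * (1 - μ.real B) := by
      have := Dep.real_inter (p := p) hB (hB.sh z).not (disjoint_boxE hnd)
      rw [← h3, ← probReal_compl_eq_one_sub hB'm, h3]
      exact this
    have h6 : μ.real (B ∩ B'ᶜ) ≤ μ.real (B ∆ A) + μ.real (B' ∆ A) := by
      refine (measureReal_mono ?_).trans (measureReal_union_le _ _)
      rintro x ⟨hx, hx'⟩
      by_cases hxA : x ∈ A
      · exact Or.inr (Or.inr ⟨hxA, hx'⟩)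
      · exact Or.inl (Or.inl ⟨hx, hxA⟩)
    have h7 : |μ.real B - μ.real A| ≤ μ.real (B ∆ A) :=
      abs_measureReal_sub_le_measureReal_symmDiff hBm.nullMeasurableSet hA.nullMeasurableSet
    have h8 := abs_le.1 (h7.trans h1)
    have a0 : 0 ≤ μ.real A := measureReal_nonneg
    have a1 : μ.real A ≤ 1 := measureReal_le_one
    have b0 : 0 ≤ μ.real B := measureReal_nonneg
    have b1 : μ.real B ≤ 1 := measureReal_le_one
    nlinarith [h8.1, h8.2]
  have a0 : 0 ≤ μ.real A := measureReal_nonneg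
  have a1 : μ.real A ≤ 1 := measureReal_le_one
  have h0 : μ.real A * (1 - μ.real A) = 0 := by
    refine le_antisymm (le_of_forall_pos_le_add fun ε hε => ?_) (mul_nonneg a0 (by linarith))
    have := key (ε / 4) (by positivity)
    linarith
  rcases mul_eq_zero.1 h0 with h | h
  · exact Or.inl ((measureReal_eq_zero_iff (measure_ne_top _ _)).1 h)
  · right
    have : μ.real A = 1 := by linarith
    rw [measureReal_def, ENNReal.toReal_eq_one_iff] at this
    exact this

lemma gu_conn {O : Set (E d)} {a b : V d} : MP_d95e10_pr.Conn O a b ↔ b ∈ comp O a := by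
  constructor
  · refine MP_d95e10_pr.Conn.induction (P := fun b => b ∈ comp O a) (mem_comp_self _ _) ?_
    rintro b c e he (⟨rfl, rfl⟩ | ⟨rfl, rfl⟩) - h
    · exact comp_adj h ⟨e.2, Or.inl ⟨rfl, he⟩⟩
    · exact comp_adj h ⟨e.2, Or.inr ⟨rfl, he⟩⟩
  · intro h
    induction h with
    | refl => exact SimpleGraph.Reachable.refl _
    | tail _ hbc ih =>
      obtain ⟨i, h | h⟩ := hbc
      · exact ih.trans (MP_d95e10_pr.Conn.of_joins h.2 (Or.inl ⟨rfl, h.1.symm⟩))
      · exact ih.trans (MP_d95e10_pr.Conn.of_joins h.2 (Or.inr ⟨rfl, h.1.symm⟩))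

lemma gu_infAt {O : Set (E d)} {a : V d} : MP_d95e10_pr.InfAt O a ↔ a ∈ Cl O := by
  have : MP_d95e10_pr.cluster O a = comp O a := Set.ext fun _ => gu_conn
  rw [MP_d95e10_pr.InfAt, this]
  rfl

lemma gu_insert (hp : 0 < (p : ℝ)) (e : E d) : (μP d p).map (insert e) ≪ μP d p := by
  have hm : Measurable (insert e : Set (E d) → Set (E d)) :=
    measurable_set_iff.2 fun a => measurable_const.or (measurable_set_mem a)
  rcases eq_or_lt_of_le p.2.2 with h1 | h1
  · have h2 : ∀ᵐ O ∂μP d p, e ∈ O := by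
      have h3 := (bern_μP d p).prob e
      rw [h1, measureReal_def, ENNReal.toReal_eq_one_iff] at h3
      exact (prob_compl_eq_zero_iff (pshift_meas_mem e)).2 h3
    have h4 : (insert e : Set (E d) → Set (E d)) =ᵐ[μP d p] id :=
      h2.mono fun O hO => Set.insert_eq_of_mem hO
    rw [Measure.map_congr h4, Measure.map_id]
  · refine Measure.AbsolutelyContinuous.mk fun A hA h0 => ?_
    have h2 := finite_energy (p := p) {e} {e} subset_rfl hA
    have h3 : {O : Set (E d) | rew {e} {e} O ∈ A} = insert e ⁻¹' A := by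
      ext O
      have : rew {e} {e} O = insert e O := by
        ext a
        by_cases ha : a = e <;> simp [rew, ha]
      simp only [Set.mem_ofPred_eq, this, Set.mem_preimage]
    have h4 : 0 < min (p : ℝ) (1 - p) ^ ({e} : Finset (E d)).card :=
      pow_pos (lt_min hp (by linarith)) _
    rw [h3, measureReal_def _ A, h0, ENNReal.toReal_zero] at h2
    rw [Measure.map_apply hm hA, ← measureReal_eq_zero_iff]
    exact le_antisymm (nonpos_of_mul_nonpos_right h2 h4) measureReal_nonneg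

theorem ae_unique_Cl (hd : 1 ≤ d) (hp : 0 < (p : ℝ)) :
    ∀ᵐ O ∂μP d p, ∀ y ∈ Cl O, ∀ z ∈ Cl O, z ∈ comp O y := by
  filter_upwards [MP_d95e10_pr.burton_keane (μP d p) measurePreserving_sh
    (fun A hA h => zero_one_sh hd hA h) (gu_insert hp)] with O hO y hy z hz
  exact gu_conn.1 (hO y z (gu_infAt.2 hy) (gu_infAt.2 hz))

lemma gu_small {B : ℕ → Set (Set (E d))} (hB : ∀ n, MeasurableSet (B n))
    (h : ∀ᵐ O ∂μP d p, ∀ᶠ n in atTop, O ∉ B n) {ε : ℝ} (hε : 0 < ε) :
    ∀ᶠ n in atTop, (μP d p).real (B n) ≤ ε := by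
  have h1 := tendsto_measure_of_ae_tendsto_indicator_of_isFiniteMeasure atTop
    (μ := μP d p) MeasurableSet.empty hB (by simpa using h)
  rw [measure_empty] at h1
  filter_upwards [h1.eventually (ge_mem_nhds (ENNReal.ofReal_pos.2 hε))] with n hn
  exact ENNReal.toReal_le_of_le_ofReal hε.le hn

lemma gu_not_arm {O : Set (E d)} {a : V d} (ha : a ∉ Cl O) (z : V d) :
    ∀ᶠ K : ℕ in atTop, ¬Arm O z K a := by
  obtain ⟨R, hR⟩ := exists_box (Set.not_infinite.1 ha)
  filter_upwards [eventually_ge_atTop (nd z 0 + R)] with K hK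
  rintro ⟨w, h1, h2⟩
  exact h1 (box_subset hK (hR (comp_mono Set.inter_subset_left a h2)))

lemma gu_comp_box {O : Set (E d)} {a b : V d} (h : b ∈ comp O a) (z : V d) :
    ∀ᶠ K : ℕ in atTop, b ∈ comp (O ∩ ins (box z (K + 1) : Set (V d))) a := by
  induction h with
  | refl => exact Eventually.of_forall fun _ => mem_comp_self _ _
  | @tail u v _ hbc ih =>
    filter_upwards [ih, eventually_ge_atTop (nd z u), eventually_ge_atTop (nd z v)] with K h1 h2 h3
    exact comp_adj h1 (path_adj_inter hbc (mem_coe.2 (mem_box_nd.2 (by omega)))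
      (mem_coe.2 (mem_box_nd.2 (by omega))))

/-- Local uniqueness with an unspecified ratio of the scales. -/
theorem uniq_zone (hd : 1 ≤ d) (hp : 0 < (p : ℝ)) (k : ℕ) {ε : ℝ} (hε : 0 < ε) :
    ∀ᶠ K : ℕ in atTop, ∀ y : V d, (μP d p).real {O | ∃ a ∈ box y k, ∃ a' ∈ box y k,
      Arm O y K a ∧ Arm O y K a' ∧ a' ∉ comp (O ∩ ins (box y (K + 1) : Set (V d))) a} ≤ ε := by
  have h1 := gu_small (d := d) (p := p) (B := fun K => {O | ∃ a ∈ box (0 : V d) k,
      ∃ a' ∈ box (0 : V d) k, Arm O 0 K a ∧ Arm O 0 K a' ∧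
        a' ∉ comp (O ∩ ins (box (0 : V d) (K + 1) : Set (V d))) a}) (fun K => ?_) ?_ hε
  · filter_upwards [h1] with K hK y
    refine le_trans (le_of_eq ?_) ((real_sh y _).trans_le hK)
    congr 1
    ext O
    simp only [Set.mem_ofPred_eq, arm_sh, comp_sh_ins_box, zero_add]
    rw [(Equiv.addRight y).surjective.exists (p := fun w => w ∈ box y k ∧ _)]
    refine exists_congr fun a => and_congr ?_ ?_
    · simpa using pshift_mem_box (x := 0) (y := a) (z := y) (r := k)
    rw [(Equiv.addRight y).surjective.exists (p := fun w => w ∈ box y k ∧ _)]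
    refine exists_congr fun a' => and_congr ?_ Iff.rfl
    simpa using pshift_mem_box (x := 0) (y := a') (z := y) (r := k)
  · refine Dep.measurableSet (S := boxE 0 (K + 1)) fun O O' h => ?_
    simp only [Arm, inter_congr h (ins_box_subset 0 (K + 1))]
  · filter_upwards [ae_unique_Cl hd hp] with O hO
    have key : ∀ᶠ K : ℕ in atTop, ∀ a ∈ box (0 : V d) k, ∀ a' ∈ box (0 : V d) k,
        Arm O 0 K a → Arm O 0 K a' → a' ∈ comp (O ∩ ins (box (0 : V d) (K + 1) : Set (V d))) a := by
      refine (eventually_all_finset _).2 fun a _ => (eventually_all_finset _).2 fun a' _ => ?_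
      by_cases ha : a ∈ Cl O
      · by_cases ha' : a' ∈ Cl O
        · exact (gu_comp_box (hO a ha a' ha') 0).mono fun K hK _ _ => hK
        · exact (gu_not_arm ha' 0).mono fun K hK _ h => absurd h hK
      · exact (gu_not_arm ha 0).mono fun K hK h _ => absurd h hK
    filter_upwards [key] with K hK
    rintro ⟨a, ha, a', ha', h1, h2, h3⟩
    exact h3 (hK a ha a' ha' h1 h2)

lemma gu_mem_Cl {O : Set (E d)} {y : V d} : y ∈ Cl O ↔ ∀ t, Loc O t y := by
  refine ⟨loc_of_mem_Cl, fun h => by_contra fun hy => ?_⟩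
  obtain ⟨K, hK⟩ := (gu_not_arm hy y).exists
  exact hK (h K)

lemma gu_sep (ρ M : ℕ) (A : Finset (V d)) (hA : M * (2 * ρ + 1) ^ d ≤ A.card) :
    ∃ I ⊆ A, I.card = M ∧ ∀ i ∈ I, ∀ j ∈ I, i ≠ j → ρ < nd i j := by
  induction M generalizing A with
  | zero => exact ⟨∅, empty_subset _, rfl, by simp⟩
  | succ M ih =>
    have h0 : 0 < (2 * ρ + 1) ^ d := by positivity
    rw [add_mul, one_mul] at hA
    obtain ⟨a, ha⟩ := card_pos.1 (show 0 < A.card by omega)
    have h1 := le_card_sdiff (box a ρ) A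
    rw [card_box] at h1
    obtain ⟨I, hI, hc, hs⟩ := ih (A \ box a ρ) (by omega)
    have h2 : ∀ j ∈ I, ρ < nd a j := fun j hj =>
      not_le.1 fun h => (mem_sdiff.1 (hI hj)).2 (mem_box_nd.2 h)
    have h3 : a ∉ I := fun h => by simpa [nd_self] using h2 a h
    refine ⟨insert a I, insert_subset ha (hI.trans sdiff_subset), by rw [card_insert_of_notMem h3, hc],
      fun i hi j hj hij => ?_⟩
    rcases mem_insert.1 hi with rfl | hi' <;> rcases mem_insert.1 hj with rfl | hj'
    · exact absurd rfl hij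
    · exact h2 j hj'
    · rw [nd_comm]; exact h2 i hi'
    · exact hs i hi' j hj' hij

/-- Large sets meet the infinite cluster, uniformly. -/
theorem hit_Cl (hθ : 0 < (μP d p).real {O | (0 : V d) ∈ Cl O}) {ε : ℝ} (hε : 0 < ε) :
    ∃ N : ℕ, ∀ A : Finset (V d), N ≤ A.card →
      (μP d p).real {O | ¬ ∃ a ∈ A, a ∈ Cl O} ≤ ε := by
  set θ := (μP d p).real {O | (0 : V d) ∈ Cl O} with hθd
  obtain ⟨M, hM⟩ := exists_pow_lt_of_lt_one (half_pos hε) (show 1 - θ < 1 by linarith)
  obtain ⟨r, hr⟩ := (gu_small (d := d) (p := p) (B := fun r => {O | Loc O r 0 ∧ (0 : V d) ∉ Cl O})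
    (fun r => (dep_loc r 0).measurableSet.inter (measurableSet_Cl 0).compl)
    (Eventually.of_forall fun O => by
      by_cases h : (0 : V d) ∈ Cl O
      · exact Eventually.of_forall fun r hr => hr.2 h
      · exact (gu_not_arm h 0).mono fun r hr h' => hr h'.1)
    (show 0 < ε / 2 / (M + 1) by positivity)).exists
  refine ⟨M * (2 * (r + 1 + (r + 1)) + 1) ^ d, fun A hA => ?_⟩
  obtain ⟨I, hI, hc, hs⟩ := gu_sep _ M A hA
  have h1 : (μP d p).real {O | ∀ a ∈ I, ¬Loc O r a} ≤ (1 - θ) ^ M := by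
    rw [real_forall_of_dep I (fun a _ => (dep_loc r a).not)
      fun i hi j hj hij => disjoint_boxE (hs i hi j hj hij), ← hc, ← prod_const]
    refine prod_le_prod (fun _ _ => measureReal_nonneg) fun a _ => ?_
    have e := real_sh (p := p) a fun O => ¬Loc O r 0
    simp only [loc_sh, zero_add] at e
    rw [e, hθd, ← probReal_compl_eq_one_sub (measurableSet_Cl 0)]
    exact measureReal_mono fun O hO h => hO (loc_of_mem_Cl h r)
  have h2 : (μP d p).real (⋃ a ∈ I, {O | Loc O r a ∧ a ∉ Cl O}) ≤ M * (ε / 2 / (M + 1)) := by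
    refine (measureReal_biUnion_finset_le _ _).trans ?_
    rw [← hc, ← nsmul_eq_mul]
    refine sum_le_card_nsmul _ _ _ fun a _ => ?_
    have e := real_sh (p := p) a fun O => Loc O r 0 ∧ (0 : V d) ∉ Cl O
    simp only [gu_mem_Cl, loc_sh, zero_add] at e hr ⊢
    rw [e, hc]
    exact hr
  have h3 : (M : ℝ) * (ε / 2 / (M + 1)) ≤ ε / 2 := by
    rw [← mul_div_assoc, div_le_iff₀ (by positivity)]
    nlinarith
  refine (measureReal_mono (s₂ := {O | ∀ a ∈ I, ¬Loc O r a} ∪ ⋃ a ∈ I, {O | Loc O r a ∧ a ∉ Cl O})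
    fun O hO => ?_).trans ((measureReal_union_le _ _).trans (by linarith))
  by_cases h : ∀ a ∈ I, ¬Loc O r a
  · exact Or.inl h
  · push Not at h
    obtain ⟨a, ha, h⟩ := h
    exact Or.inr (Set.mem_biUnion ha ⟨h, fun h' => hO ⟨a, hI ha, h'⟩⟩)

lemma pos_of_theta (hθ : 0 < (μP d p).real {O | (0 : V d) ∈ Cl O}) : 0 < (p : ℝ) := by
  refine lt_of_le_of_ne p.2.1 fun h0 => hθ.ne' ?_
  rw [measureReal_eq_zero_iff]
  refine measure_mono_null (t := ⋃ e : E d, {O | e ∈ O}) (fun O hO => ?_)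
    (measure_iUnion_null fun e => ?_)
  · obtain ⟨w, h1, h2⟩ := Set.Infinite.exists_notMem_finset hO {0}
    rcases Relation.ReflTransGen.cases_head h1 with h | ⟨c, ⟨i, h | h⟩, _⟩
    · exact absurd (mem_singleton.2 h.symm) h2
    · exact Set.mem_iUnion.2 ⟨_, h.2⟩
    · exact Set.mem_iUnion.2 ⟨_, h.2⟩
  · rw [← measureReal_eq_zero_iff, (bern_μP d p).prob e, ← h0]

end Pool.Agent.P.MP_b4265e_pr.R
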