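import Pool.Agent.P.MP_b4265e_pr.R.Defs

/-!
Boxes, Euclidean norms, paths.
-/

namespace Pool.Agent.P.MP_b4265e_pr.R

open Finset
open scoped Classical

variable {d : ℕ}

/-! ### Distance and boxes -/

lemma mem_box_nd {x y : V d} {r : ℕ} : y ∈ box x r ↔ nd x y ≤ r := by
  rw [mem_box, nd, Finset.sup_le_iff]
  refine forall_congr' fun k => ?_
  simp only [mem_univ, forall_true_left]
  rw [abs_le]
  omega

lemma abs_le_nd (x y : V d) (i : Fin d) : |y i - x i| ≤ nd x y := mem_box.1 (mem_box_nd.2 le_rfl) i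

lemma exists_nd_eq (hd : 1 ≤ d) (x y : V d) : ∃ i, |y i - x i| = nd x y := by
  have : Nonempty (Fin d) := ⟨⟨0, hd⟩⟩
  obtain ⟨i, _, hi⟩ := Finset.exists_mem_eq_sup (univ : Finset (Fin d)) univ_nonempty
    fun i => (y i - x i).natAbs
  exact ⟨i, by rw [nd, hi, Int.natCast_natAbs]⟩

lemma nd_comm (x y : V d) : nd x y = nd y x := by
  unfold nd
  congr 1
  funext i
  omega

lemma nd_self (x : V d) : nd x x = 0 := by simp [nd]

lemma nd_triangle (x y z : V d) : nd x z ≤ nd x y + nd y z := by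
  rw [← mem_box_nd, mem_box]
  intro k
  have h1 := abs_le.1 (abs_le_nd x y k)
  have h2 := abs_le.1 (abs_le_nd y z k)
  rw [abs_le]
  push_cast
  omega

lemma nd_add_ee (y : V d) (i : Fin d) : nd y (y + ee i) = 1 := by
  apply le_antisymm
  · rw [← mem_box_nd, mem_box]
    intro k
    simp only [Pi.add_apply, ee_apply]
    split_ifs <;> simp
  · have := abs_le_nd y (y + ee i) i
    simp only [Pi.add_apply, ee_self, add_sub_cancel_left, abs_one] at this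
    omega

lemma nd_sub_ee (y : V d) (i : Fin d) : nd y (y - ee i) = 1 := by
  rw [nd_comm]
  simpa using nd_add_ee (y - ee i) i

lemma nd_add_right (x y z : V d) : nd (x + z) (y + z) = nd x y := by
  simp [nd]

lemma nd_of_adj {O : Set (E d)} {x y : V d} (h : adj O x y) : nd x y = 1 := by
  obtain ⟨i, h | h⟩ := h
  · rw [h.1, nd_add_ee]
  · rw [h.1, nd_comm, nd_add_ee]

lemma mem_box_self (x : V d) (r : ℕ) : x ∈ box x r := mem_box_nd.2 (by simp [nd_self])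

lemma mem_box_comm {x y : V d} {r : ℕ} : y ∈ box x r ↔ x ∈ box y r := by
  rw [mem_box_nd, mem_box_nd, nd_comm]

lemma box_subset {x x' : V d} {r r' : ℕ} (h : nd x' x + r ≤ r') : box x r ⊆ box x' r' := by
  intro y hy
  rw [mem_box_nd] at hy ⊢
  have := nd_triangle x' x y
  omega

lemma box_mono (x : V d) {r r' : ℕ} (h : r ≤ r') : box x r ⊆ box x r' :=
  box_subset (by rw [nd_self]; omega)

lemma mem_boxE' {x : V d} {r : ℕ} {e : E d} : e ∈ boxE x r ↔ e.1 ∈ box x r := by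
  simp [boxE]

lemma boxE_subset {x x' : V d} {r r' : ℕ} (h : nd x' x + r ≤ r') : boxE x r ⊆ boxE x' r' :=
  fun _ he => mem_boxE'.2 (box_subset h (mem_boxE'.1 he))

lemma boxE_mono (x : V d) {r r' : ℕ} (h : r ≤ r') : boxE x r ⊆ boxE x r' :=
  fun _ he => mem_boxE'.2 (box_mono x h (mem_boxE'.1 he))

lemma mem_sph {z y : V d} {ρ : ℕ} : y ∈ sph z ρ ↔ nd z y = ρ := by
  rw [sph, mem_filter, mem_box_nd]
  omega

lemma mem_ann {z y : V d} {ρ1 ρ2 : ℕ} : y ∈ ann z ρ1 ρ2 ↔ ρ1 ≤ nd z y ∧ nd z y ≤ ρ2 := by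
  rw [ann, mem_filter, mem_box_nd, and_comm]

lemma sum_box_shift (x z : V d) (r : ℕ) (f : V d → ℝ) :
    ∑ y ∈ box (x + z) r, f y = ∑ y ∈ box x r, f (y + z) := by
  symm
  refine Finset.sum_equiv (Equiv.addRight z) (fun y => ?_) fun _ _ => rfl
  rw [mem_box_nd, mem_box_nd, Equiv.coe_addRight, nd_add_right]

lemma sum_boxE (x : V d) (r : ℕ) (f : E d → ℝ) :
    ∑ e ∈ boxE x r, f e = ∑ y ∈ box x r, ∑ i, f (y, i) := by
  rw [boxE, sum_product]

lemma vol_pos (d r : ℕ) : 0 < vol d r := by unfold vol; positivity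

lemma one_le_vol (d r : ℕ) : 1 ≤ vol d r :=
  one_le_pow₀ (by have : (0 : ℝ) ≤ r := Nat.cast_nonneg r; linarith)

lemma vol_mono (d : ℕ) {r r' : ℕ} (h : r ≤ r') : vol d r ≤ vol d r' := by
  have : (r : ℝ) ≤ r' := by exact_mod_cast h
  exact pow_le_pow_left₀ (by positivity) (by linarith) d

lemma vol_le_mul (d : ℕ) {r R : ℕ} {c : ℝ} (h : 2 * (R : ℝ) + 1 ≤ c * (2 * r + 1)) :
    vol d R ≤ c ^ d * vol d r := by
  unfold vol
  rw [← mul_pow]
  exact pow_le_pow_left₀ (by positivity) h d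

lemma vol_le_of_le_mul (d : ℕ) {r R : ℕ} {c : ℝ} (hc : 1 ≤ c) (h : (R : ℝ) ≤ c * r) :
    vol d R ≤ c ^ d * vol d r := vol_le_mul d (by linarith)

lemma card_box_vol (x : V d) (r : ℕ) : ((box x r).card : ℝ) = vol d r := by
  rw [card_box, vol]; push_cast; rfl

lemma card_boxE_vol (x : V d) (r : ℕ) : ((boxE x r).card : ℝ) = d * vol d r := by
  rw [boxE, card_product, ← card_box_vol x r]
  simp [mul_comm]

/-! ### Euclidean norms -/

section norms
variable {α : Type*} {S T : Finset α} {f g : α → ℝ}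

lemma mem_cap {C : Set α} {a : α} : a ∈ cap C S ↔ a ∈ S ∧ a ∈ C := by simp [cap]

lemma cap_subset (C : Set α) (S : Finset α) : cap C S ⊆ S := fun _ h => (mem_cap.1 h).1

lemma cap_mono (C : Set α) (h : S ⊆ T) : cap C S ⊆ cap C T :=
  fun _ ha => mem_cap.2 ⟨h (mem_cap.1 ha).1, (mem_cap.1 ha).2⟩

lemma cap_univ (S : Finset α) : cap Set.univ S = S := by simp [cap]

lemma l2_nonneg (S : Finset α) (f : α → ℝ) : 0 ≤ l2 S f := Real.sqrt_nonneg _

lemma l2_sq (S : Finset α) (f : α → ℝ) : l2 S f ^ 2 = ∑ a ∈ S, f a ^ 2 :=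
  Real.sq_sqrt (sum_nonneg fun _ _ => sq_nonneg _)

lemma l2_le_of_sq_le {M : ℝ} (hM : 0 ≤ M) (h : ∑ a ∈ S, f a ^ 2 ≤ M ^ 2) : l2 S f ≤ M :=
  Real.sqrt_le_iff.2 ⟨hM, h⟩

lemma l2_congr (h : ∀ a ∈ S, f a = g a) : l2 S f = l2 S g := by
  unfold l2
  rw [sum_congr rfl fun a ha => by rw [h a ha]]

lemma l2_add_le (S : Finset α) (f g : α → ℝ) :
    l2 S (fun a => f a + g a) ≤ l2 S f + l2 S g := by
  refine l2_le_of_sq_le (add_nonneg (l2_nonneg _ _) (l2_nonneg _ _)) ?_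
  have h := Real.sum_mul_le_sqrt_mul_sqrt S f g
  have e : ∑ a ∈ S, (f a + g a) ^ 2 =
      ∑ a ∈ S, f a ^ 2 + 2 * ∑ a ∈ S, f a * g a + ∑ a ∈ S, g a ^ 2 := by
    rw [mul_sum, ← sum_add_distrib, ← sum_add_distrib]
    exact sum_congr rfl fun a _ => by ring
  rw [e, add_sq, l2_sq, l2_sq]
  unfold l2
  linarith

lemma l2_sub_le (S : Finset α) (f g : α → ℝ) :
    l2 S (fun a => f a - g a) ≤ l2 S f + l2 S g := by
  have h := l2_add_le S f (fun a => - g a)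
  have e : l2 S (fun a => - g a) = l2 S g := by simp [l2]
  simpa [e, sub_eq_add_neg] using h

lemma l2_neg (S : Finset α) (f : α → ℝ) : l2 S (fun a => - f a) = l2 S f := by simp [l2]

lemma l2_mul (S : Finset α) (c : ℝ) (f : α → ℝ) : l2 S (fun a => c * f a) = |c| * l2 S f := by
  unfold l2
  simp only [mul_pow]
  rw [← mul_sum, Real.sqrt_mul (sq_nonneg c), Real.sqrt_sq_eq_abs]

lemma l2_sum_le {ι : Type*} (I : Finset ι) (S : Finset α) (F : ι → α → ℝ) :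
    l2 S (fun a => ∑ i ∈ I, F i a) ≤ ∑ i ∈ I, l2 S (F i) := by
  induction I using Finset.induction_on with
  | empty => simp [l2]
  | insert i I hi ih =>
    simp only [sum_insert hi]
    exact (l2_add_le S _ _).trans (by linarith)

lemma l2_mono (h : S ⊆ T) (f : α → ℝ) : l2 S f ≤ l2 T f :=
  Real.sqrt_le_sqrt (sum_le_sum_of_subset_of_nonneg h fun _ _ _ => sq_nonneg _)

lemma l2_le_of_abs_le (h : ∀ a ∈ S, |f a| ≤ |g a|) : l2 S f ≤ l2 S g :=
  Real.sqrt_le_sqrt (sum_le_sum fun a ha => sq_le_sq.2 (h a ha))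

lemma l2_eq_of_zero (h : S ⊆ T) (h0 : ∀ a ∈ T, a ∉ S → f a = 0) : l2 T f = l2 S f := by
  unfold l2
  rw [sum_subset h fun a ha hn => by rw [h0 a ha hn]; simp]

lemma l2_le_sup {M : ℝ} (hM : 0 ≤ M) (h : ∀ a ∈ S, |f a| ≤ M) : l2 S f ≤ √(S.card) * M := by
  refine l2_le_of_sq_le (by positivity) ?_
  rw [mul_pow, Real.sq_sqrt (Nat.cast_nonneg _), ← nsmul_eq_mul]
  exact sum_le_card_nsmul _ _ _ fun a ha => by
    rw [← sq_abs]; exact pow_le_pow_left₀ (abs_nonneg _) (h a ha) 2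

lemma l2_const (S : Finset α) (c : ℝ) : l2 S (fun _ => c) = √(S.card) * |c| := by
  unfold l2
  rw [sum_const, nsmul_eq_mul, Real.sqrt_mul (Nat.cast_nonneg _), Real.sqrt_sq_eq_abs]

lemma abs_le_l2 {a : α} (ha : a ∈ S) (f : α → ℝ) : |f a| ≤ l2 S f :=
  Real.abs_le_sqrt (single_le_sum (f := fun a => f a ^ 2) (fun _ _ => sq_nonneg _) ha)

lemma abs_sum_mul_le (S : Finset α) (f g : α → ℝ) :
    |∑ a ∈ S, f a * g a| ≤ l2 S f * l2 S g := by
  refine abs_le.2 ⟨?_, Real.sum_mul_le_sqrt_mul_sqrt S f g⟩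
  have h := Real.sum_mul_le_sqrt_mul_sqrt S (fun a => - f a) g
  simp only [neg_mul, sum_neg_distrib, even_two, Even.neg_pow] at h
  unfold l2
  linarith

lemma sum_abs_mul_le (S : Finset α) (f g : α → ℝ) :
    ∑ a ∈ S, |f a| * |g a| ≤ l2 S f * l2 S g := by
  simpa [l2] using Real.sum_mul_le_sqrt_mul_sqrt S (fun a => |f a|) fun a => |g a|

lemma sum_abs_le_l2 (S : Finset α) (f : α → ℝ) : ∑ a ∈ S, |f a| ≤ √(S.card) * l2 S f := by
  simpa [l2_const] using sum_abs_mul_le S (fun _ => 1) f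

/-- The mean minimises the Euclidean distance to the constants. -/
lemma l2_sub_mean_le (S : Finset α) (f : α → ℝ) (c : ℝ) :
    l2 S (fun a => f a - (∑ b ∈ S, f b) / S.card) ≤ l2 S (fun a => f a - c) := by
  rcases S.eq_empty_or_nonempty with rfl | hS
  · simp [l2]
  have hn : (S.card : ℝ) ≠ 0 := by exact_mod_cast hS.card_pos.ne'
  obtain ⟨m, hm⟩ : ∃ m, m = (∑ b ∈ S, f b) / S.card := ⟨_, rfl⟩
  rw [← hm]
  have h0 : ∑ a ∈ S, (f a - m) = 0 := by
    rw [sum_sub_distrib, sum_const, nsmul_eq_mul, hm]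
    field_simp
    ring
  have e : ∑ a ∈ S, (f a - c) ^ 2 =
      ∑ a ∈ S, (f a - m) ^ 2 + 2 * (m - c) * ∑ a ∈ S, (f a - m) + ∑ _a ∈ S, (m - c) ^ 2 := by
    rw [mul_sum, ← sum_add_distrib, ← sum_add_distrib]
    exact sum_congr rfl fun a _ => by ring
  refine Real.sqrt_le_sqrt ?_
  have : 0 ≤ ∑ _a ∈ S, (m - c) ^ 2 := sum_nonneg fun _ _ => sq_nonneg _
  rw [e, h0]
  linarith

lemma abs_mean_sub_le (hS : S.Nonempty) (f : α → ℝ) (c : ℝ) :
    |(∑ b ∈ S, f b) / S.card - c| ≤ l2 S (fun a => f a - c) / √(S.card) := by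
  have hn : (0 : ℝ) < S.card := by exact_mod_cast hS.card_pos
  have hs : 0 < √(S.card : ℝ) := Real.sqrt_pos.2 hn
  have e : (∑ b ∈ S, f b) / S.card - c = (∑ b ∈ S, (f b - c)) / S.card := by
    rw [sum_sub_distrib, sum_const, nsmul_eq_mul]
    field_simp
  have h := (abs_sum_le_sum_abs _ _).trans (sum_abs_le_l2 S fun a => f a - c)
  rw [e, abs_div, abs_of_pos hn, div_le_div_iff₀ hn hs]
  calc _ ≤ √(S.card : ℝ) * l2 S (fun a => f a - c) * √(S.card : ℝ) :=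
        mul_le_mul_of_nonneg_right h hs.le
    _ = l2 S (fun a => f a - c) * (√(S.card : ℝ) * √(S.card : ℝ)) := by ring
    _ = _ := by rw [Real.mul_self_sqrt hn.le]

end norms

/-- Double counting for a family of finite sets. -/
lemma geo_count {α β : Type*} (S : Finset β) (T : β → Finset α) (U : Finset α) (f : α → ℝ) :
    ∑ y ∈ S, ∑ z ∈ U.filter (· ∈ T y), f z =
      ∑ z ∈ U, ((S.filter fun y => z ∈ T y).card : ℝ) * f z := by
  simp only [sum_filter]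
  rw [sum_comm]
  refine sum_congr rfl fun z _ => ?_
  rw [← sum_filter, sum_const, nsmul_eq_mul]

lemma geo_count_le {α β : Type*} (S : Finset β) (T : β → Finset α) (U : Finset α) (N : ℝ)
    {f : α → ℝ} (hf : ∀ z, 0 ≤ f z) (hT : ∀ y ∈ S, T y ⊆ U)
    (hN : ∀ z ∈ U, ∃ B : Finset β, (B.card : ℝ) ≤ N ∧ ∀ y ∈ S, z ∈ T y → y ∈ B) :
    ∑ y ∈ S, ∑ z ∈ T y, f z ≤ N * ∑ z ∈ U, f z := by
  calc ∑ y ∈ S, ∑ z ∈ T y, f z = ∑ y ∈ S, ∑ z ∈ U.filter (· ∈ T y), f z := by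
        refine sum_congr rfl fun y hy => sum_congr ?_ fun _ _ => rfl
        ext z
        exact ⟨fun h => mem_filter.2 ⟨hT y hy h, h⟩, fun h => (mem_filter.1 h).2⟩
    _ = _ := geo_count S T U f
    _ ≤ ∑ z ∈ U, N * f z := by
        refine sum_le_sum fun z hz => mul_le_mul_of_nonneg_right ?_ (hf z)
        obtain ⟨B, h1, h2⟩ := hN z hz
        exact (Nat.cast_le.2 (card_le_card fun y hy =>
          h2 y (mem_filter.1 hy).1 (mem_filter.1 hy).2)).trans h1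
    _ = _ := (mul_sum _ _ _).symm

lemma geo_count_ge {α β : Type*} (S : Finset β) (T : β → Finset α) (U : Finset α) (N : ℝ)
    {f : α → ℝ} (hf : ∀ z, 0 ≤ f z)
    (hN : ∀ z ∈ U, ∃ B : Finset β, N ≤ (B.card : ℝ) ∧ ∀ y ∈ B, y ∈ S ∧ z ∈ T y) :
    N * ∑ z ∈ U, f z ≤ ∑ y ∈ S, ∑ z ∈ T y, f z := by
  calc N * ∑ z ∈ U, f z = ∑ z ∈ U, N * f z := mul_sum _ _ _
    _ ≤ ∑ z ∈ U, ((S.filter fun y => z ∈ T y).card : ℝ) * f z := by
        refine sum_le_sum fun z hz => mul_le_mul_of_nonneg_right ?_ (hf z)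
        obtain ⟨B, h1, h2⟩ := hN z hz
        exact h1.trans (Nat.cast_le.2 (card_le_card fun y hy => mem_filter.2 (h2 y hy)))
    _ = _ := (geo_count S T U f).symm
    _ ≤ _ := sum_le_sum fun y _ => sum_le_sum_of_subset_of_nonneg
        (fun z hz => (mem_filter.1 hz).2) fun z _ _ => hf z

/-- Double counting over overlapping boxes. -/
lemma sum_sum_box_le (C : Set (V d)) (x : V d) (r m : ℕ) {f : V d → ℝ} (hf : ∀ y, 0 ≤ f y) :
    ∑ y ∈ box x r, ∑ z ∈ cap C (box y m), f z ≤ vol d m * ∑ z ∈ cap C (box x (r + m)), f z := by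
  refine geo_count_le _ _ _ _ hf (fun y hy => cap_mono C (box_subset ?_)) fun z _ => ?_
  · have := mem_box_nd.1 hy
    omega
  · exact ⟨box z m, (card_box_vol z m).le, fun y _ h => mem_box_comm.1 (mem_cap.1 h).1⟩

lemma sum_sum_boxE_le (G : Set (E d)) (x : V d) (r m : ℕ) {f : E d → ℝ} (hf : ∀ e, 0 ≤ f e) :
    ∑ y ∈ box x r, ∑ e ∈ cap G (boxE y m), f e ≤
      vol d m * ∑ e ∈ cap G (boxE x (r + m)), f e := by
  refine geo_count_le _ _ _ _ hf (fun y hy => cap_mono G (boxE_subset ?_)) fun e _ => ?_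
  · have := mem_box_nd.1 hy
    omega
  · exact ⟨box e.1 m, (card_box_vol e.1 m).le, fun y _ h =>
      mem_box_comm.1 (mem_boxE'.1 (mem_cap.1 h).1)⟩

/-- Double counting, lower bound. -/
lemma vol_mul_sum_le (C : Set (V d)) (S T : Finset (V d)) (m : ℕ) (hT : ∀ z ∈ S, box z m ⊆ T)
    {f : V d → ℝ} (hf : ∀ y, 0 ≤ f y) :
    vol d m * ∑ z ∈ cap C S, f z ≤ ∑ y ∈ T, ∑ z ∈ cap C (box y m), f z := by
  refine geo_count_ge _ _ _ _ hf fun z hz => ?_
  obtain ⟨h1, h2⟩ := mem_cap.1 hz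
  exact ⟨box z m, (card_box_vol z m).ge, fun y hy =>
    ⟨hT z h1 hy, mem_cap.2 ⟨mem_box_comm.1 hy, h2⟩⟩⟩

/-- Sums over edges of a function of the lower or the upper endpoint. -/
lemma sum_edge_fst_le {G : Set (E d)} {C : Set (V d)} (hG : G ⊆ ins C) (T : Finset (E d))
    (S : Finset (V d)) (hS : ∀ e ∈ T, e ∈ G → e.1 ∈ S) {f : V d → ℝ} (hf : ∀ y, 0 ≤ f y) :
    ∑ e ∈ cap G T, f e.1 ≤ d * ∑ y ∈ cap C S, f y := by
  calc ∑ e ∈ cap G T, f e.1 ≤ ∑ e ∈ cap C S ×ˢ (univ : Finset (Fin d)), f e.1 := by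
        refine sum_le_sum_of_subset_of_nonneg (fun e he => ?_) fun e _ _ => hf e.1
        obtain ⟨h1, h2⟩ := mem_cap.1 he
        exact mem_product.2 ⟨mem_cap.2 ⟨hS e h1 h2, (hG h2).1⟩, mem_univ _⟩
    _ = d * ∑ y ∈ cap C S, f y := by
        rw [sum_product, mul_sum]
        simp

lemma sum_edge_snd_le {G : Set (E d)} {C : Set (V d)} (hG : G ⊆ ins C) (T : Finset (E d))
    (S : Finset (V d)) (hS : ∀ e ∈ T, e ∈ G → e.1 + ee e.2 ∈ S) {f : V d → ℝ} (hf : ∀ y, 0 ≤ f y) :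
    ∑ e ∈ cap G T, f (e.1 + ee e.2) ≤ d * ∑ y ∈ cap C S, f y := by
  have hi : Function.Injective fun e : E d => ((e.1 + ee e.2, e.2) : E d) := by
    rintro ⟨a, i⟩ ⟨b, j⟩ h
    simp only [Prod.mk.injEq] at h
    obtain ⟨h1, rfl⟩ := h
    rw [add_right_cancel h1]
  calc ∑ e ∈ cap G T, f (e.1 + ee e.2)
      = ∑ e ∈ (cap G T).image fun e : E d => ((e.1 + ee e.2, e.2) : E d), f e.1 := by
        rw [sum_image fun a _ b _ h => hi h]
    _ ≤ ∑ e ∈ cap C S ×ˢ (univ : Finset (Fin d)), f e.1 := by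
        refine sum_le_sum_of_subset_of_nonneg (fun e he => ?_) fun e _ _ => hf e.1
        obtain ⟨e', he', rfl⟩ := mem_image.1 he
        obtain ⟨h1, h2⟩ := mem_cap.1 he'
        exact mem_product.2 ⟨mem_cap.2 ⟨hS e' h1 h2, (hG h2).2⟩, mem_univ _⟩
    _ = d * ∑ y ∈ cap C S, f y := by
        rw [sum_product, mul_sum]
        simp

lemma nrm_nonneg (C : Set (V d)) (x : V d) (r : ℕ) (v : V d → ℝ) : 0 ≤ nrm C x r v :=
  div_nonneg (l2_nonneg _ _) (Real.sqrt_nonneg _)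

lemma l2_eq_nrm (C : Set (V d)) (x : V d) (r : ℕ) (v : V d → ℝ) :
    l2 (cap C (box x r)) v = √(vol d r) * nrm C x r v := by
  have := Real.sqrt_pos.2 (vol_pos d r)
  unfold nrm
  field_simp

lemma nrm_congr {C : Set (V d)} {x : V d} {r : ℕ} {v w : V d → ℝ}
    (h : ∀ y ∈ box x r, y ∈ C → v y = w y) : nrm C x r v = nrm C x r w := by
  unfold nrm
  rw [l2_congr fun y hy => h y (mem_cap.1 hy).1 (mem_cap.1 hy).2]

lemma nrm_add_le (C : Set (V d)) (x : V d) (r : ℕ) (v w : V d → ℝ) :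
    nrm C x r (fun y => v y + w y) ≤ nrm C x r v + nrm C x r w := by
  unfold nrm
  rw [← add_div]
  exact div_le_div_of_nonneg_right (l2_add_le _ _ _) (Real.sqrt_nonneg _)

lemma nrm_sub_le (C : Set (V d)) (x : V d) (r : ℕ) (v w : V d → ℝ) :
    nrm C x r (fun y => v y - w y) ≤ nrm C x r v + nrm C x r w := by
  unfold nrm
  rw [← add_div]
  exact div_le_div_of_nonneg_right (l2_sub_le _ _ _) (Real.sqrt_nonneg _)

lemma nrm_mul (C : Set (V d)) (x : V d) (r : ℕ) (c : ℝ) (v : V d → ℝ) :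
    nrm C x r (fun y => c * v y) = |c| * nrm C x r v := by
  unfold nrm
  rw [l2_mul, mul_div_assoc]

lemma nrm_sum_le {ι : Type*} (I : Finset ι) (C : Set (V d)) (x : V d) (r : ℕ)
    (F : ι → V d → ℝ) : nrm C x r (fun y => ∑ i ∈ I, F i y) ≤ ∑ i ∈ I, nrm C x r (F i) := by
  unfold nrm
  rw [← sum_div]
  exact div_le_div_of_nonneg_right (l2_sum_le _ _ _) (Real.sqrt_nonneg _)

lemma nrm_le_sup {C : Set (V d)} {x : V d} {r : ℕ} {v : V d → ℝ} {M : ℝ} (hM : 0 ≤ M)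
    (h : ∀ y ∈ box x r, y ∈ C → |v y| ≤ M) : nrm C x r v ≤ M := by
  have hs := Real.sqrt_pos.2 (vol_pos d r)
  unfold nrm
  rw [div_le_iff₀ hs, mul_comm]
  refine (l2_le_sup hM fun y hy => h y (mem_cap.1 hy).1 (mem_cap.1 hy).2).trans
    (mul_le_mul_of_nonneg_right (Real.sqrt_le_sqrt ?_) hM)
  rw [← card_box_vol x r]
  exact_mod_cast card_le_card (cap_subset _ _)

lemma nrm_le_of_subset (C : Set (V d)) {x x' : V d} {r r' : ℕ} (h : box x r ⊆ box x' r')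
    (v : V d → ℝ) : nrm C x r v ≤ √(vol d r' / vol d r) * nrm C x' r' v := by
  have hs := Real.sqrt_pos.2 (vol_pos d r)
  have h1 := l2_mono (cap_mono C h) v
  rw [l2_eq_nrm C x' r'] at h1
  rw [Real.sqrt_div (vol_pos d r').le, div_mul_eq_mul_div]
  exact div_le_div_of_nonneg_right h1 hs.le

/-- A cruder but more convenient form of `nrm_le_of_subset`. -/
lemma nrm_le_of_subset' (C : Set (V d)) {x x' : V d} {r r' : ℕ} (h : box x r ⊆ box x' r')
    {c : ℝ} (hc : 1 ≤ c) (hr : (r' : ℝ) ≤ c * r) (v : V d → ℝ) :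
    nrm C x r v ≤ c ^ d * nrm C x' r' v := by
  refine (nrm_le_of_subset C h v).trans (mul_le_mul_of_nonneg_right ?_ (nrm_nonneg _ _ _ _))
  have h1 : 1 ≤ c ^ d := one_le_pow₀ hc
  refine Real.sqrt_le_iff.2 ⟨by linarith, ?_⟩
  rw [div_le_iff₀ (vol_pos d r)]
  refine (vol_le_of_le_mul d hc hr).trans (mul_le_mul_of_nonneg_right ?_ (vol_pos d r).le)
  nlinarith

lemma abs_le_nrm {C : Set (V d)} {x y : V d} {r : ℕ} (hy : y ∈ box x r) (hC : y ∈ C)
    (v : V d → ℝ) : |v y| ≤ √(vol d r) * nrm C x r v := by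
  rw [← l2_eq_nrm]
  exact abs_le_l2 (mem_cap.2 ⟨hy, hC⟩) v

lemma en_nonneg (G : Set (E d)) (x : V d) (r : ℕ) (v : V d → ℝ) : 0 ≤ en G x r v := l2_nonneg _ _

lemma en_sq (G : Set (E d)) (x : V d) (r : ℕ) (v : V d → ℝ) :
    en G x r v ^ 2 = ∑ e ∈ boxE x r, wt G e * grad v e ^ 2 := by
  rw [en, l2_sq, cap, sum_filter]
  refine sum_congr rfl fun e _ => ?_
  unfold wt
  split_ifs <;> simp

lemma en_mono (G : Set (E d)) {x x' : V d} {r r' : ℕ} (h : nd x' x + r ≤ r') (v : V d → ℝ) :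
    en G x r v ≤ en G x' r' v := l2_mono (cap_mono G (boxE_subset h)) _

lemma sum_en_sq_le (G : Set (E d)) (x : V d) (r m : ℕ) (v : V d → ℝ) :
    ∑ y ∈ box x r, en G y m v ^ 2 ≤ vol d m * en G x (r + m) v ^ 2 := by
  simp only [en, l2_sq]
  exact sum_sum_boxE_le G x r m fun _ => sq_nonneg _

lemma sum_cap_eq_wt (G : Set (E d)) (T : Finset (E d)) (f : E d → ℝ) :
    ∑ e ∈ cap G T, f e = ∑ e ∈ T, wt G e * f e := by
  rw [cap, sum_filter]
  refine sum_congr rfl fun e _ => ?_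
  unfold wt
  split_ifs <;> simp

end Pool.Agent.P.MP_b4265e_pr.R
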