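import Pool.Agent.P.MP_b4265e_pr.R.Inside

/-!
The two rewirings of a box: all edges closed, and a connection between two ports.
-/

namespace Pool.Agent.P.MP_b4265e_pr.R

open Finset
open scoped Classical

variable {d : ℕ}

/-- The points of `C0` next to the box. -/
noncomputable def ports (C0 : Set (V d)) (x : V d) (L : ℕ) : Finset (V d) :=
  (cap C0 (box x (L + 1))).filter fun y => y ∉ box x L ∧ ∃ z ∈ box x L, adj Set.univ y z

lemma card_EB_le (x : V d) (L : ℕ) : ((EB x L).card : ℝ) ≤ d * vol d (L + 1) := by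
  rw [← card_boxE_vol x]
  exact_mod_cast card_le_card (filter_subset _ _)

lemma mem_box_succ_of_adj_rw {O : Set (E d)} {x y z : V d} {L : ℕ} (hz : z ∈ box x L)
    (h : adj O y z) : y ∈ box x (L + 1) := by
  have h1 := nd_triangle x z y
  rw [nd_of_adj (adj_symm h)] at h1
  rw [mem_box_nd] at hz ⊢
  omega

lemma adj_edge_rw {O : Set (E d)} {e : E d} (he : e ∈ O) : adj O e.1 (e.1 + ee e.2) :=
  ⟨e.2, Or.inl ⟨rfl, he⟩⟩

lemma mem_EB_rw {x : V d} {L : ℕ} {e : E d} :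
    e ∈ EB x L ↔ e.1 ∈ box x L ∨ e.1 + ee e.2 ∈ box x L := by
  rw [EB, mem_filter, mem_boxE']
  refine ⟨fun h => h.2, fun h => ⟨?_, h⟩⟩
  rcases h with h | h
  · exact box_mono x (Nat.le_succ L) h
  · exact mem_box_succ_of_adj_rw h (adj_edge_rw (Set.mem_univ e))

lemma mem_rew_rw {S η : Finset (E d)} {O : Set (E d)} {e : E d} :
    e ∈ rew S η O ↔ (e ∈ O ∧ e ∉ S) ∨ e ∈ η := Iff.rfl

lemma mem_rew_empty_rw {S : Finset (E d)} {O : Set (E d)} {e : E d} :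
    e ∈ rew S ∅ O ↔ e ∈ O ∧ e ∉ S := by simp [mem_rew_rw]

lemma rew_empty_subset_rw (S : Finset (E d)) (O : Set (E d)) : rew S ∅ O ⊆ O :=
  fun _ he => (mem_rew_empty_rw.1 he).1

lemma rew_empty_subset_rew_rw (S η : Finset (E d)) (O : Set (E d)) : rew S ∅ O ⊆ rew S η O :=
  fun _ he => mem_rew_rw.2 (Or.inl (mem_rew_empty_rw.1 he))

lemma GC_mono_rw {O O' : Set (E d)} (h : O ⊆ O') : GC O ⊆ GC O' :=
  fun _ he => ⟨h he.1, Cl_mono h he.2⟩

lemma not_mem_Cl_of_not_GC_rw {O : Set (E d)} {e : E d} (he : e ∈ O) (hn : e ∉ GC O) :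
    e.1 ∉ Cl O ∧ e.1 + ee e.2 ∉ Cl O :=
  ⟨fun h => hn ⟨he, h⟩, fun h => hn ⟨he, mem_Cl_of_comp h
    (comp_adj (mem_comp_self _ _) (adj_symm (adj_edge_rw he)))⟩⟩

lemma eq_of_comp_rew_rw {O : Set (E d)} {x y z : V d} {L : ℕ} (hy : y ∈ box x L)
    (hz : z ∈ comp (rew (EB x L) ∅ O) y) : z = y := by
  rcases Relation.ReflTransGen.cases_head hz with h | ⟨w, ⟨i, ⟨-, h⟩ | ⟨h1, h⟩⟩, -⟩
  · exact h.symm
  · exact absurd (mem_EB_rw.2 (Or.inl hy)) (mem_rew_empty_rw.1 h).2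
  · exact absurd (mem_EB_rw.2 (Or.inr (h1 ▸ hy))) (mem_rew_empty_rw.1 h).2

lemma adj_rew_of_rw {O : Set (E d)} {x z w : V d} {L : ℕ} (h : adj O z w) (hz : z ∉ box x L)
    (hw : w ∉ box x L) : adj (rew (EB x L) ∅ O) z w := by
  obtain ⟨i, ⟨rfl, he⟩ | ⟨rfl, he⟩⟩ := h
  · exact ⟨i, Or.inl ⟨rfl, mem_rew_empty_rw.2 ⟨he, fun h => (mem_EB_rw.1 h).elim hz hw⟩⟩⟩
  · exact ⟨i, Or.inr ⟨rfl, mem_rew_empty_rw.2 ⟨he, fun h => (mem_EB_rw.1 h).elim hw hz⟩⟩⟩

/-- The last visit of a path to the box. -/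
lemma comp_split_rw {O : Set (E d)} (x : V d) (L : ℕ) {y w : V d} (hw : w ∈ comp O y) :
    w ∈ box x L ∨ (y ∉ box x L ∧ w ∈ comp (rew (EB x L) ∅ O) y) ∨
      ∃ p ∈ ports Set.univ x L, w ∈ comp (rew (EB x L) ∅ O) p := by
  induction hw with
  | refl =>
    by_cases hy : y ∈ box x L
    · exact Or.inl hy
    · exact Or.inr (Or.inl ⟨hy, mem_comp_self _ _⟩)
  | @tail z w _ hzw ih =>
    by_cases hw : w ∈ box x L
    · exact Or.inl hw
    by_cases hz : z ∈ box x L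
    · refine Or.inr (Or.inr ⟨w, mem_filter.2 ⟨mem_cap.2 ⟨?_, trivial⟩, hw, z, hz, ?_⟩,
        mem_comp_self _ _⟩)
      · exact mem_box_succ_of_adj_rw hz (adj_symm hzw)
      · exact adj_mono (Set.subset_univ _) (adj_symm hzw)
    rcases ih with h | ⟨h, h'⟩ | ⟨p, hp, h⟩
    · exact absurd h hz
    · exact Or.inr (Or.inl ⟨h, comp_adj h' (adj_rew_of_rw hzw hz hw)⟩)
    · exact Or.inr (Or.inr ⟨p, hp, comp_adj h (adj_rew_of_rw hzw hz hw)⟩)

lemma mem_ports_rw {C0 : Set (V d)} {x y : V d} {L : ℕ} : y ∈ ports C0 x L ↔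
    y ∈ C0 ∧ y ∉ box x L ∧ ∃ z ∈ box x L, adj Set.univ y z := by
  rw [ports, mem_filter, mem_cap]
  exact ⟨fun h => ⟨h.1.2, h.2⟩, fun ⟨h1, h2, z, hz, h⟩ =>
    ⟨⟨mem_box_succ_of_adj_rw hz h, h1⟩, h2, z, hz, h⟩⟩

lemma mem_box_of_ports_rw {C0 : Set (V d)} {x y : V d} {L : ℕ} (h : y ∈ ports C0 x L) :
    y ∈ box x (L + 1) := (mem_cap.1 (mem_filter.1 h).1).1

/-- After closing the edges at the box an infinite cluster still comes close. -/
lemma ports_nonempty {O : Set (E d)} {x : V d} {L : ℕ} (h : ∃ y ∈ box x L, y ∈ Cl O) :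
    (ports (Cl (rew (EB x L) ∅ O)) x L).Nonempty := by
  obtain ⟨y, hy, hC⟩ := h
  by_contra hn
  refine hC (Set.Finite.subset ((box x L).finite_toSet.union
    ((ports Set.univ x L).finite_toSet.biUnion (t := fun p => comp (rew (EB x L) ∅ O) p)
      fun p hp => ?_)) fun w hw => ?_)
  · by_contra hp'
    exact hn ⟨p, mem_ports_rw.2 ⟨hp', (mem_ports_rw.1 hp).2⟩⟩
  · rcases comp_split_rw x L hw with h | h | ⟨p, hp, h⟩
    · exact Or.inl h
    · exact absurd hy h.1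
    · exact Or.inr (Set.mem_biUnion hp h)

lemma not_mem_Cl_rew {O : Set (E d)} {x y : V d} {L : ℕ} (hy : y ∈ box x L) :
    y ∉ Cl (rew (EB x L) ∅ O) := fun h =>
  h ((Set.finite_singleton y).subset fun _ hz => eq_of_comp_rew_rw hy hz)

lemma cut_closed {O : Set (E d)} {x : V d} {L ρ : ℕ} (hρ : 2 * L + 2 ≤ ρ)
    (hL : Lg (rew (EB x L) ∅ O) x ρ) :
    Cut (GC O) (GC (rew (EB x L) ∅ O)) (Cl O) (Cl (rew (EB x L) ∅ O)) x ρ
      (ports (Cl (rew (EB x L) ∅ O)) x L) (EB x L) := by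
  refine ⟨wf_GC _, wf_GC _, GC_mono_rw (rew_empty_subset_rw _ _), Cl_mono (rew_empty_subset_rw _ _),
    fun y hy hy0 => ?_, fun y hy => ⟨(mem_ports_rw.1 hy).1,
      box_mono x (by omega) (mem_box_of_ports_rw hy)⟩, fun e he he0 => ?_⟩
  · obtain ⟨w, hw, hw0⟩ := Set.Infinite.exists_notMem_finite hy (Set.not_infinite.1 hy0)
    rcases comp_split_rw x L (comp_symm hw) with h | h | ⟨p, hp, h⟩
    · exact box_mono x (by omega) h
    · exact absurd (comp_symm h.2) hw0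
    · have h1 := mem_box_of_ports_rw hp
      have h2 : y ∈ box p (ρ / 2) := by
        by_contra h2
        exact hy0 (mem_Cl_of_comp (hL p (box_mono x (by omega) h1) y h h2) h)
      have h3 := nd_triangle x p y
      rw [mem_box_nd] at h1 h2 ⊢
      omega
  · by_cases hE : e ∈ EB x L
    · have ha := adj_edge_rw (Set.mem_univ e)
      refine ⟨fun h => (mem_EB_rw.1 hE).elim (fun h1 => not_mem_Cl_rew h1 h.1)
        fun h1 => not_mem_Cl_rew h1 h.2, fun h => ⟨?_, hE⟩, fun h => ⟨?_, hE⟩⟩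
      · have h1 : e.1 ∉ box x L := fun h1 => not_mem_Cl_rew h1 h
        exact mem_ports_rw.2 ⟨h, h1, _, (mem_EB_rw.1 hE).resolve_left h1, ha⟩
      · have h1 : e.1 + ee e.2 ∉ box x L := fun h1 => not_mem_Cl_rew h1 h
        exact mem_ports_rw.2 ⟨h, h1, _, (mem_EB_rw.1 hE).resolve_right h1, adj_symm ha⟩
    · have h := not_mem_Cl_of_not_GC_rw (mem_rew_empty_rw.2 ⟨he.1, hE⟩) he0
      exact ⟨fun h1 => h.1 h1.1, fun h1 => absurd h1 h.1, fun h1 => absurd h1 h.2⟩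

/-- The rewiring that joins the ports `a` and `b` through the box. -/
lemma exists_wire {O : Set (E d)} {x : V d} {L ρ : ℕ} (hρ : L + 1 ≤ ρ) {a b : V d}
    (ha : a ∈ ports (Cl (rew (EB x L) ∅ O)) x L) (hb : b ∈ ports (Cl (rew (EB x L) ∅ O)) x L) :
    ∃ η ⊆ EB x L,
      Cl (rew (EB x L) η O) = Cl (rew (EB x L) ∅ O) ∪ box x L ∧
      Cut (GC (rew (EB x L) η O)) (GC (rew (EB x L) ∅ O)) (Cl (rew (EB x L) η O))
        (Cl (rew (EB x L) ∅ O)) x ρ {a, b} (EB x L) ∧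
      ∀ v : V d → ℝ, |v a - v b| ≤
        √((EB x L).card) * en (GC (rew (EB x L) η O) \ GC (rew (EB x L) ∅ O)) x (ρ + 1) v := by
  set B : Set (V d) := {y | y ∈ box x L ∨ y = a ∨ y = b} with hB
  set η : Finset (E d) := cap (ins B) (EB x L) with hη
  have hηE : η ⊆ EB x L := cap_subset _ _
  have hη1 : (η : Set (E d)) ⊆ rew (EB x L) η O := fun e he => mem_rew_rw.2 (Or.inr he)
  have h01 := rew_empty_subset_rew_rw (EB x L) η O
  have hadj : ∀ y ∈ B, ∀ z ∈ box x L, adj Set.univ y z → adj (η : Set (E d)) y z := by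
    rintro y hy z hz ⟨i, ⟨rfl, -⟩ | ⟨rfl, -⟩⟩
    · exact ⟨i, Or.inl ⟨rfl, mem_coe.2 (mem_cap.2 ⟨mem_EB_rw.2 (Or.inr hz), hy, Or.inl hz⟩)⟩⟩
    · exact ⟨i, Or.inr ⟨rfl, mem_coe.2 (mem_cap.2 ⟨mem_EB_rw.2 (Or.inl hz), Or.inl hz, hy⟩)⟩⟩
  obtain ⟨ha0, -, za, hza, haz⟩ := mem_ports_rw.1 ha
  obtain ⟨hb0, -, zb, hzb, hbz⟩ := mem_ports_rw.1 hb
  have hin : ins (box x L : Set (V d)) ⊆ η := fun e he =>
    mem_coe.2 (mem_cap.2 ⟨mem_EB_rw.2 (Or.inl he.1), Or.inl he.1, Or.inl he.2⟩)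
  have hbox : ∀ y ∈ box x L, y ∈ comp (η : Set (E d)) a := fun y hy =>
    comp_trans (comp_adj (mem_comp_self _ _) (hadj a (Or.inr (Or.inl rfl)) za hza haz))
      (comp_mono hin _ (comp_ins_box hza hy))
  have hba : b ∈ comp (η : Set (E d)) a :=
    comp_adj (hbox zb hzb) (adj_symm (hadj b (Or.inr (Or.inr rfl)) zb hzb hbz))
  have hsup : ∀ y ∈ box x L, y ∈ Cl (rew (EB x L) η O) := fun y hy =>
    mem_Cl_of_comp (Cl_mono h01 ha0) (comp_mono hη1 _ (hbox y hy))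
  have hB0 : ∀ y ∈ B, y ∉ box x L → y ∈ Cl (rew (EB x L) ∅ O) := by
    rintro y (h | rfl | rfl) hy
    · exact absurd h hy
    · exact ha0
    · exact hb0
  have hsub : ∀ y ∈ Cl (rew (EB x L) η O), y ∉ Cl (rew (EB x L) ∅ O) → y ∈ box x L := by
    intro y hy hy0
    by_contra hyb
    refine hy ((Set.not_infinite.1 hy0).subset fun w hw => ?_)
    induction hw with
    | refl => exact mem_comp_self _ _
    | @tail z w _ hzw ih =>
      have hz : z ∉ B := fun hz => by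
        by_cases h : z ∈ box x L
        · exact hyb (eq_of_comp_rew_rw h (comp_symm ih) ▸ h)
        · exact hy0 (mem_Cl_of_comp (hB0 z hz h) (comp_symm ih))
      refine comp_adj ih ?_
      obtain ⟨i, ⟨rfl, he⟩ | ⟨rfl, he⟩⟩ := hzw
      · rcases mem_rew_rw.1 he with h | h
        · exact ⟨i, Or.inl ⟨rfl, mem_rew_empty_rw.2 h⟩⟩
        · exact absurd (mem_cap.1 h).2.1 hz
      · rcases mem_rew_rw.1 he with h | h
        · exact ⟨i, Or.inr ⟨rfl, mem_rew_empty_rw.2 h⟩⟩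
        · exact absurd (mem_cap.1 h).2.2 hz
  have hP : ∀ y ∈ B, y ∈ Cl (rew (EB x L) ∅ O) → y ∈ ({a, b} : Finset (V d)) := by
    rintro y (h | rfl | rfl) hy
    · exact absurd hy (not_mem_Cl_rew h)
    · simp
    · simp
  refine ⟨η, hηE, ?_, ⟨wf_GC _, wf_GC _, GC_mono_rw h01, Cl_mono h01,
    fun y hy hy0 => box_mono x (by omega) (hsub y hy hy0), fun y hy => ?_, fun e he he0 => ?_⟩,
    fun v => ?_⟩
  · refine Set.Subset.antisymm (fun y hy => ?_) (Set.union_subset (Cl_mono h01) hsup)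
    by_cases hy0 : y ∈ Cl (rew (EB x L) ∅ O)
    · exact Or.inl hy0
    · exact Or.inr (hsub y hy hy0)
  · rcases mem_insert.1 hy with rfl | hy
    · exact ⟨ha0, box_mono x hρ (mem_box_of_ports_rw ha)⟩
    · rw [mem_singleton.1 hy]
      exact ⟨hb0, box_mono x hρ (mem_box_of_ports_rw hb)⟩
  · rcases mem_rew_rw.1 he.1 with h | h
    · have h := not_mem_Cl_of_not_GC_rw (mem_rew_empty_rw.2 h) he0
      exact ⟨fun h1 => h.1 h1.1, fun h1 => absurd h1 h.1, fun h1 => absurd h1 h.2⟩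
    · obtain ⟨hE, h1, h2⟩ := mem_cap.1 h
      exact ⟨fun h => (mem_EB_rw.1 hE).elim (fun h1 => not_mem_Cl_rew h1 h.1)
        fun h1 => not_mem_Cl_rew h1 h.2, fun h => ⟨hP _ h1 h, hE⟩, fun h => ⟨hP _ h2 h, hE⟩⟩
  · rw [abs_sub_comm]
    refine (abs_sub_le_of_comp (EB x L) (coe_subset.2 hηE) hba v).trans
      ((sum_abs_le_l2 _ _).trans (mul_le_mul (Real.sqrt_le_sqrt ?_) (l2_mono (fun e he => ?_) _)
        (l2_nonneg _ _) (Real.sqrt_nonneg _)))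
    · exact_mod_cast card_le_card (cap_subset _ _)
    · obtain ⟨hE, he⟩ := mem_cap.1 he
      refine mem_cap.2 ⟨boxE_mono x (by omega) (mem_filter.1 hE).1, ⟨hη1 he, ?_⟩,
        fun h => (mem_rew_empty_rw.1 h.1).2 hE⟩
      by_cases h : e.1 ∈ box x L
      · exact hsup _ h
      · exact Cl_mono h01 (hB0 _ (mem_cap.1 (mem_coe.1 he)).2.1 h)

end Pool.Agent.P.MP_b4265e_pr.R
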