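import Pool.Agent.P.MP_b4265e_pr.R.GrIso
import Pool.Agent.P.MP_b4265e_pr.R.Conc
import Pool.Agent.P.MP_b4265e_pr.R.Rewire

/-!
The points of degree one have positive density in the infinite cluster.
-/

namespace Pool.Agent.P.MP_b4265e_pr.R

open Finset MeasureTheory ProbabilityTheory Filter
open scoped Classical

variable {d : ℕ}

lemma grDang_Cl_sh {z y : V d} {O : Set (E d)} : y ∈ Cl (sh z O) ↔ y + z ∈ Cl O := by
  have e : comp (sh z O) y = (fun b => b + z) ⁻¹' comp O (y + z) := Set.ext fun _ =>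
    pshift_comp (f := fun y => y + z) (Equiv.addRight z).bijective fun _ _ => adj_sh
  show (comp (sh z O) y).Infinite ↔ (comp O (y + z)).Infinite
  rw [e]
  exact not_congr ⟨fun h => h.of_preimage (Equiv.addRight z).surjective,
    fun h => h.preimage (Equiv.addRight z).injective.injOn⟩

lemma grDang_nbO_sh (z y : V d) (O : Set (E d)) :
    (nbO (sh z O) y).card = (nbO O (y + z)).card :=
  card_equiv (Equiv.addRight z) fun a => by
    rw [mem_nbO, mem_nbO, adj_sh]; rfl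

lemma grDang_dep_nbO : Dep (boxE (0 : V d) 1) fun O => nbO O 0 := by
  have key : ∀ O O' : Set (E d), Agree (boxE (0 : V d) 1) O O' → ∀ y, adj O 0 y → adj O' 0 y := by
    intro O O' h y hy
    have h1 : nd 0 y = 1 := nd_of_adj hy
    obtain ⟨i, ⟨h2, h3⟩ | ⟨h2, h3⟩⟩ := hy
    · exact ⟨i, Or.inl ⟨h2, (h (0, i) (mem_boxE'.2 (mem_box_self (0 : V d) 1))).1 h3⟩⟩
    · have h4 : y ∈ box (0 : V d) 1 := mem_box_nd.2 h1.le
      exact ⟨i, Or.inr ⟨h2, (h (y, i) (mem_boxE'.2 h4)).1 h3⟩⟩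
  intro O O' h
  show nbO O 0 = nbO O' 0
  ext y
  rw [mem_nbO, mem_nbO]
  exact ⟨key O O' h y, key O' O h.symm y⟩

lemma grDang_origin_pos {p : unitInterval} (hne : ∀ᵐ O ∂μP d p, (Cl O).Nonempty) :
    0 < (μP d p).real {O | (0 : V d) ∈ Cl O} := by
  refine lt_of_le_of_ne measureReal_nonneg fun h0 => ?_
  have h1 : ∀ y : V d, ∀ᵐ O ∂μP d p, y ∉ Cl O := by
    intro y
    have h2 := real_sh (d := d) (p := p) y fun O => (0 : V d) ∈ Cl O
    simp only [grDang_Cl_sh, zero_add] at h2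
    rw [← h0, measureReal_eq_zero_iff] at h2
    exact measure_eq_zero_iff_ae_notMem.1 h2
  obtain ⟨O, ⟨y, hy⟩, hO⟩ := (hne.and (ae_all_iff.2 h1)).exists
  exact hO y hy

/-- Rewiring the edges at the origin makes it a leaf of an infinite cluster. -/
lemma grDang_rewire {O : Set (E d)} (h : (0 : V d) ∈ Cl O) : ∃ η ⊆ EB (0 : V d) 0,
    (0 : V d) ∈ Cl (rew (EB 0 0) η O) ∧ (nbO (rew (EB 0 0) η O) 0).card = 1 := by
  obtain ⟨q, hq⟩ := ports_nonempty (x := 0) (L := 0) ⟨0, mem_box_self _ _, h⟩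
  obtain ⟨hq1, hq2, z, hz, hqz⟩ := mem_ports_rw.1 hq
  have h00 : (0 : V d) ∈ box (0 : V d) 0 := mem_box_self _ _
  obtain rfl : z = 0 := by
    funext k
    simpa using mem_box.1 hz k
  have hq0 : q ≠ 0 := fun h => hq2 (h ▸ h00)
  have main : ∀ e ∈ EB (0 : V d) 0, (∀ y, adj {e} 0 y ↔ y = q) → ∃ η ⊆ EB (0 : V d) 0,
      (0 : V d) ∈ Cl (rew (EB 0 0) η O) ∧ (nbO (rew (EB 0 0) η O) 0).card = 1 := by
    intro e he hy
    have hsub : ({e} : Set (E d)) ⊆ rew (EB 0 0) {e} O := by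
      rintro _ rfl
      exact mem_rew_rw.2 (Or.inr (mem_singleton_self _))
    have hadj : ∀ y, adj (rew (EB 0 0) {e} O) 0 y ↔ y = q := by
      intro y
      refine ⟨fun H => (hy y).1 ?_, fun H => adj_mono hsub ((hy y).2 H)⟩
      obtain ⟨i, ⟨h2, h3⟩ | ⟨h2, h3⟩⟩ := H
      · refine ⟨i, Or.inl ⟨h2, ?_⟩⟩
        rcases mem_rew_rw.1 h3 with h4 | h4
        · exact absurd (mem_EB_rw.2 (Or.inl h00)) h4.2
        · exact mem_singleton.1 h4
      · refine ⟨i, Or.inr ⟨h2, ?_⟩⟩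
        rcases mem_rew_rw.1 h3 with h4 | h4
        · exact absurd (mem_EB_rw.2 (Or.inr (h2 ▸ h00))) h4.2
        · exact mem_singleton.1 h4
    refine ⟨{e}, singleton_subset_iff.2 he, ?_, card_eq_one.2 ⟨q, ?_⟩⟩
    · exact mem_Cl_of_comp (Cl_mono (rew_empty_subset_rew_rw _ _ _) hq1)
        (comp_adj (mem_comp_self _ _) (adj_symm ((hadj q).2 rfl)))
    · ext y
      rw [mem_nbO, mem_singleton, hadj]
  obtain ⟨j, ⟨h2, -⟩ | ⟨h2, -⟩⟩ := hqz
  · refine main (q, j) (mem_EB_rw.2 (Or.inr (h2 ▸ h00))) fun y => ⟨?_, ?_⟩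
    · rintro ⟨i, ⟨-, h3⟩ | ⟨-, h3⟩⟩
      · exact absurd (congrArg Prod.fst h3).symm hq0
      · exact congrArg Prod.fst h3
    · rintro rfl
      exact ⟨j, Or.inr ⟨h2, rfl⟩⟩
  · refine main (0, j) (mem_EB_rw.2 (Or.inl h00)) fun y => ⟨?_, ?_⟩
    · rintro ⟨i, ⟨h4, h3⟩ | ⟨h4, h3⟩⟩
      · obtain rfl : i = j := congrArg Prod.snd h3
        rw [h4, h2]
      · obtain rfl : y = 0 := congrArg Prod.fst h3
        have := congrFun h4 i
        simp at this
    · rintro rfl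
      exact ⟨j, Or.inl ⟨h2, rfl⟩⟩

theorem leaf_pos {p : unitInterval} (hp0 : 0 < (p : ℝ)) (hp1 : (p : ℝ) < 1)
    (hne : ∀ᵐ O ∂μP d p, (Cl O).Nonempty) :
    0 < (μP d p).real {O | (0 : V d) ∈ Cl O ∧ (nbO O 0).card = 1} := by
  have hA : MeasurableSet {O : Set (E d) | (0 : V d) ∈ Cl O ∧ (nbO O 0).card = 1} :=
    (measurableSet_Cl 0).inter (Dep.measurableSet (S := boxE (0 : V d) 1)
      (f := fun O => (nbO O 0).card = 1) fun O O' h => by
        simp only [show nbO O 0 = nbO O' 0 from grDang_dep_nbO O O' h])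
  have h1 := finite_energy_exists (p := p) (EB (0 : V d) 0) hA
  have h2 := (grDang_origin_pos hne).trans_le (measureReal_mono (μ := μP d p)
    (s₂ := {O | ∃ η ⊆ EB (0 : V d) 0, rew (EB 0 0) η O ∈
      {O : Set (E d) | (0 : V d) ∈ Cl O ∧ (nbO O 0).card = 1}}) fun O hO => grDang_rewire hO)
  have h3 : 0 < min (p : ℝ) (1 - p) ^ (EB (0 : V d) 0).card :=
    pow_pos (lt_min hp0 (by linarith)) _
  exact (mul_pos_iff_of_pos_left (by positivity)).1 ((mul_pos h3 h2).trans_le h1)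

/-- Goodness propagates from the origin, so long paths lie in infinite clusters. -/
lemma grDang_loc {θ K : ℝ} (hθ : 0 < θ) {O : Set (E d)} {s N : ℕ} (hs : 1 ≤ s) {y0 : V d}
    (hy0 : y0 ∈ Cl O) (hs0 : nd 0 y0 ≤ s) (h : ∀ z ∈ box (0 : V d) N, W θ K 1 z s O) {x : V d}
    (hx : x ∈ box (0 : V d) N) (hl : Loc O s x) : x ∈ Cl O := by
  have key : ∀ n ≤ N, ∀ z ∈ box (0 : V d) n, Good θ K 1 O z s := by
    intro n
    induction n with
    | zero =>
      intro hn z hz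
      refine h z (box_mono _ hn hz) O (agree_refl _ _) ⟨y0, hy0, mem_box_nd.2 ?_⟩
      have h1 := nd_triangle z 0 y0
      have h2 := mem_box_nd.1 hz
      rw [nd_comm] at h2
      omega
    | succ n ih =>
      intro hn z hz
      have h1 : (fun k => z k - (z k).sign) ∈ box (0 : V d) n := by
        refine mem_box.2 fun k => ?_
        have h2 := abs_le.1 (mem_box.1 hz k)
        simp only [Pi.zero_apply, sub_zero, abs_le] at h2 ⊢
        rcases lt_trichotomy (z k) 0 with h3 | h3 | h3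
        · rw [Int.sign_eq_neg_one_of_neg h3]; push_cast at h2; omega
        · rw [h3]; simp
        · rw [Int.sign_eq_one_of_pos h3]; push_cast at h2; omega
      have h2 : z ∈ box (fun k => z k - (z k).sign) (2 * s) := by
        refine mem_box.2 fun k => ?_
        rw [abs_le]
        rcases lt_trichotomy (z k) 0 with h3 | h3 | h3
        · rw [Int.sign_eq_neg_one_of_neg h3]; omega
        · rw [h3]; simp
        · rw [Int.sign_eq_one_of_pos h3]; omega
      have hD := (ih (by omega) _ h1).1.dens z h2 s (by simp) le_rfl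
      obtain ⟨y, hy⟩ : (cap (Cl O) (box z s)).Nonempty := by
        rw [← card_pos]
        have : (0 : ℝ) < (cap (Cl O) (box z s)).card := (mul_pos hθ (vol_pos _ _)).trans_le hD
        exact_mod_cast this
      obtain ⟨hy1, hy2⟩ := mem_cap.1 hy
      exact h z (box_mono _ hn hz) O (agree_refl _ _) ⟨y, hy2, box_mono _ (by omega) hy1⟩
  obtain ⟨w, h1, h2⟩ := hl
  exact (key N le_rfl x hx).2 x (mem_box_self _ _) w (comp_mono Set.inter_subset_left _ h2)
    fun hw => h1 (box_mono _ (Nat.div_le_self _ _) hw)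

/-- The local version of the event fails. -/
noncomputable def grDangX (t : ℕ) (O : Set (E d)) : ℝ :=
  if Loc O t 0 ∧ (nbO O 0).card = 1 then 0 else 1

lemma grDang_dep (t : ℕ) :
    Dep (boxE (0 : V d) (t + 1)) fun O => Loc O t 0 ∧ (nbO O 0).card = 1 := by
  intro O O' h
  have h1 : Loc O t 0 = Loc O' t 0 := dep_loc t 0 O O' h
  have h2 : nbO O 0 = nbO O' 0 :=
    grDang_dep_nbO O O' (h.mono (boxE_subset (by rw [nd_self]; omega)))
  simp only [h1, h2]

lemma grDang_integral (p : unitInterval) (t : ℕ) : ∫ O, grDangX t O ∂μP d p ≤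
    1 - (μP d p).real {O | (0 : V d) ∈ Cl O ∧ (nbO O 0).card = 1} := by
  have hm := (grDang_dep (d := d) t).measurableSet
  have e : grDangX (d := d) t =
      Set.indicator {O | Loc O t 0 ∧ (nbO O 0).card = 1}ᶜ 1 := by
    funext O
    by_cases h : Loc O t 0 ∧ (nbO O 0).card = 1
    · rw [grDangX, if_pos h, Set.indicator_of_notMem (not_not.2 h)]
    · rw [grDangX, if_neg h, Set.indicator_of_mem (s := {O | Loc O t 0 ∧ (nbO O 0).card = 1}ᶜ) h]
      rfl
  rw [e, integral_indicator_one hm.compl, probReal_compl_eq_one_sub hm]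
  refine sub_le_sub_left (measureReal_mono fun O hO => ?_) _
  exact ⟨loc_of_mem_Cl hO.1 t, hO.2⟩

lemma grDang_small (d : ℕ) {ρ : ℝ} (h0 : 0 ≤ ρ) (h1 : ρ < 1) :
    ∃ m0 : ℕ, ∀ N : ℕ, m0 ≤ N.sqrt →
      vol d (N.sqrt + 1 + 1) * ρ ^ (N.sqrt - 3) ≤ 1 / (N : ℝ) ^ 2 := by
  have h := (tendsto_pow_const_mul_const_pow_of_abs_lt_one (4 + d) (r := ρ)
    (by rwa [abs_of_nonneg h0])).const_mul (5 ^ 4 * 13 ^ d)
  rw [mul_zero] at h
  obtain ⟨T0, hT⟩ := eventually_atTop.1 (h.eventually (ge_mem_nhds one_pos))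
  refine ⟨T0 + 4, fun N hN => ?_⟩
  obtain ⟨j, hj⟩ : ∃ j, N.sqrt = j + 3 := ⟨N.sqrt - 3, by omega⟩
  have h2 := Nat.lt_succ_sqrt' N
  have h3 := Nat.sqrt_le_self N
  have h4 := hT j (by omega)
  rw [hj] at h2 ⊢
  have hj1 : (1 : ℝ) ≤ j := by exact_mod_cast (by omega : 1 ≤ j)
  have hN0 : (0 : ℝ) < N := by exact_mod_cast (by omega : 0 < N)
  have hN1 : (N : ℝ) ≤ (5 * j) ^ 2 := by
    have : (N : ℝ) ≤ (j + 3 + 1) ^ 2 := by exact_mod_cast h2.le
    nlinarith
  have hN2 : (N : ℝ) ^ 2 ≤ ((5 * j) ^ 2) ^ 2 := pow_le_pow_left₀ hN0.le hN1 2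
  have hv : vol d (j + 3 + 1 + 1) ≤ (13 * j) ^ d := by
    unfold vol
    refine pow_le_pow_left₀ (by positivity) ?_ d
    push_cast
    linarith
  rw [Nat.add_sub_cancel, le_div_iff₀ (by positivity)]
  calc vol d (j + 3 + 1 + 1) * ρ ^ j * (N : ℝ) ^ 2
      ≤ (13 * j) ^ d * ρ ^ j * ((5 * j) ^ 2) ^ 2 := by gcongr
    _ = 5 ^ 4 * 13 ^ d * ((j : ℝ) ^ (4 + d) * ρ ^ j) := by rw [mul_pow]; ring
    _ ≤ 1 := h4

lemma grDang_ae (hd : 1 ≤ d) (p : unitInterval) {β γ : ℝ} (hγ : 0 < γ)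
    (hβ : ∀ t, ∫ O, grDangX t O ∂μP d p ≤ β) : ∀ᵐ O ∂μP d p, ∀ᶠ N : ℕ in atTop,
      ∑ y ∈ box (0 : V d) N, grDangX (N.sqrt + 1) (sh y O) ≤ (β + γ) * vol d N := by
  obtain ⟨m0, hm0⟩ := grDang_small d (ρ := Real.exp (-(2 * γ ^ 2))) (Real.exp_pos _).le
    (Real.exp_lt_one_iff.2 (by have := pow_pos hγ 2; linarith))
  have := ae_eventually_of_summable (μ := μP d p) (s := fun N : ℕ => {O | m0 ≤ N.sqrt ∧
      (β + γ) * vol d N < ∑ y ∈ box (0 : V d) N, grDangX (N.sqrt + 1) (sh y O)})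
      (Real.summable_one_div_nat_pow.2 one_lt_two) (by
    intro N
    by_cases hN : m0 ≤ N.sqrt
    · simp only [hN, true_and]
      refine (conc (X := grDangX (N.sqrt + 1)) (R := N.sqrt + 1 + 1) (B := 1)
        (fun O O' h => by simp only [grDangX, grDang_dep _ O O' h]) one_pos
        (fun O => by unfold grDangX; split_ifs <;> norm_num)
        (fun O => by unfold grDangX; split_ifs <;> norm_num) (hβ _) hγ 0 N).trans
        (le_trans ?_ (hm0 N hN))
      rw [div_one, ← Real.exp_nat_mul]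
      have h2 : N.sqrt - 3 ≤ (2 * N + 1) / (2 * (N.sqrt + 1 + 1) + 1) := by
        refine (Nat.le_div_iff_mul_le (by omega)).2 ?_
        have h3 := Nat.sqrt_le' N
        rcases le_or_gt N.sqrt 3 with h4 | h4
        · rw [Nat.sub_eq_zero_of_le h4]; omega
        · obtain ⟨j, hj⟩ : ∃ j, N.sqrt = j + 3 := ⟨N.sqrt - 3, by omega⟩
          rw [hj] at h3 ⊢
          rw [Nat.add_sub_cancel]
          nlinarith
      have h3 := h2.trans (Nat.le_self_pow (n := d) (by omega) _)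
      have h4 : ((N.sqrt - 3 : ℕ) : ℝ) ≤
          (((2 * N + 1) / (2 * (N.sqrt + 1 + 1) + 1) : ℕ) : ℝ) ^ d := by exact_mod_cast h3
      refine mul_le_mul_of_nonneg_left (Real.exp_le_exp.2 ?_) (vol_pos _ _).le
      nlinarith [sq_nonneg γ]
    · simp only [hN, false_and, Set.ofPred_false, measureReal_empty]
      positivity)
  filter_upwards [this] with O hO
  filter_upwards [hO, eventually_ge_atTop (m0 ^ 2)] with N hN hN'
  by_contra hc
  exact hN ⟨Nat.le_sqrt'.2 hN', not_le.1 hc⟩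

theorem ae_leaves (hd : 1 ≤ d) {p : unitInterval} (hp0 : 0 < (p : ℝ)) (hp1 : (p : ℝ) < 1) {θ K : ℝ}
    (hθ : 0 < θ) (h : Hom d p θ K) (hne : ∀ᵐ O ∂μP d p, (Cl O).Nonempty) :
    ∃ c : ℝ, 0 < c ∧ ∀ᵐ O ∂μP d p, ∀ᶠ N : ℕ in atTop,
      c * vol d N ≤ ((box (0 : V d) N).filter fun x => x ∈ Cl O ∧ (nbO O x).card = 1).card := by
  have hc := leaf_pos hp0 hp1 hne
  have hI := grDang_integral (d := d) p
  generalize (μP d p).real {O | (0 : V d) ∈ Cl O ∧ (nbO O 0).card = 1} = c0 at hc hI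
  refine ⟨c0 / 2, by positivity, ?_⟩
  filter_upwards [hne, ae_W_poly h, grDang_ae hd p (γ := c0 / 2) (by positivity) hI] with O
    ⟨y0, hy0⟩ hW hX
  obtain ⟨s0, hs0⟩ := eventually_atTop.1 hW
  filter_upwards [hX, eventually_ge_atTop ((s0 + nd 0 y0) ^ 2)] with N hN hN'
  have h1 : s0 + nd 0 y0 ≤ N.sqrt := Nat.le_sqrt'.2 hN'
  have h2 : N ≤ (N.sqrt + 1) ^ 4 :=
    (Nat.lt_succ_sqrt' N).le.trans (Nat.pow_le_pow_right (by omega) (by omega))
  have h3 : ∀ x ∈ box (0 : V d) N, Loc O (N.sqrt + 1) x → x ∈ Cl O := fun x hx =>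
    grDang_loc hθ (by omega) hy0 (by omega)
      (fun z hz => hs0 _ (by omega) z (box_mono _ h2 hz)) hx
  have h4 : ∑ y ∈ box (0 : V d) N,
      (1 - if y ∈ Cl O ∧ (nbO O y).card = 1 then (1 : ℝ) else 0) ≤
      ∑ y ∈ box (0 : V d) N, grDangX (N.sqrt + 1) (sh y O) := by
    refine sum_le_sum fun y hy => ?_
    rw [grDangX, loc_sh, grDang_nbO_sh, zero_add]
    by_cases h5 : Loc O (N.sqrt + 1) y ∧ (nbO O y).card = 1
    · rw [if_pos h5, if_pos ⟨h3 y hy h5.1, h5.2⟩, sub_self]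
    · rw [if_neg h5]
      split_ifs <;> norm_num
  rw [sum_sub_distrib, sum_boole, sum_const, nsmul_eq_mul, card_box_vol] at h4
  linarith

end Pool.Agent.P.MP_b4265e_pr.R
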