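import Pool.Agent.P.MP_b4265e_pr.R.ThmB

/-!
The Green function of the infinite cluster tends to zero.
-/

namespace Pool.Agent.P.MP_b4265e_pr.R

open Finset MeasureTheory ProbabilityTheory Filter
open scoped Classical

variable {d : ℕ}

theorem ae_W_poly {p : unitInterval} {θ K : ℝ} (h : Hom d p θ K) :
    ∀ᵐ O ∂μP d p, ∀ᶠ s : ℕ in atTop, ∀ z ∈ box (0 : V d) (s ^ 4), W θ K 1 z s O := by
  obtain ⟨s0, hs0⟩ := h 1 one_pos (4 * d + 2)
  have hsum : Summable fun n : ℕ => (3 : ℝ) ^ d * (1 / (n : ℝ) ^ 2) :=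
    (Real.summable_one_div_nat_pow.2 (by norm_num)).mul_left _
  have := ae_eventually_of_summable (μ := μP d p) (s := fun n => {O | s0 + 1 ≤ n ∧
      ∃ z ∈ box (0 : V d) (n ^ 4), ¬ W θ K 1 z n O}) hsum (by
    intro n
    by_cases hn : s0 + 1 ≤ n
    · have e : {O : Set (E d) | s0 + 1 ≤ n ∧ ∃ z ∈ box (0 : V d) (n ^ 4), ¬ W θ K 1 z n O} =
          ⋃ z ∈ box (0 : V d) (n ^ 4), {O | ¬ W θ K 1 z n O} := by
        ext O; simp [hn]
      rw [e]
      refine (measureReal_biUnion_finset_le _ _).trans ?_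
      refine (sum_le_card_nsmul _ _ _ fun z _ => hs0 n (by omega) z).trans ?_
      rw [nsmul_eq_mul, card_box_vol]
      have hn1 : (1 : ℝ) ≤ n := by exact_mod_cast (by omega : 1 ≤ n)
      have v1 : vol d (n ^ 4) ≤ (3 * (n : ℝ) ^ 4) ^ d := by
        unfold vol
        refine pow_le_pow_left₀ (by positivity) ?_ d
        have : (1 : ℝ) ≤ (n : ℝ) ^ 4 := one_le_pow₀ hn1
        push_cast
        linarith
      calc vol d (n ^ 4) * (1 / (n : ℝ) ^ (4 * d + 2))
          ≤ (3 * (n : ℝ) ^ 4) ^ d * (1 / (n : ℝ) ^ (4 * d + 2)) :=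
            mul_le_mul_of_nonneg_right v1 (by positivity)
        _ = (3 : ℝ) ^ d * (1 / (n : ℝ) ^ 2) := by
            rw [mul_pow, ← pow_mul, pow_add]
            field_simp
    · simp only [hn, false_and, Set.ofPred_false, measureReal_empty]
      positivity)
  filter_upwards [this] with O hO
  filter_upwards [hO, eventually_ge_atTop (s0 + 1)] with n hn hn' z hz
  by_contra hc
  exact hn ⟨hn', z, hz, hc⟩

/-- The indicator function of a finite set. -/
noncomputable def grIso_ind (A : Finset (V d)) (y : V d) : ℝ := if y ∈ A then 1 else 0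

lemma grIso_ind_nonneg (A : Finset (V d)) (y : V d) : 0 ≤ grIso_ind A y := by
  unfold grIso_ind; split_ifs <;> norm_num

lemma grIso_half (A S : Finset (V d)) (h : 2 * (A.card : ℝ) ≤ S.card) (c : ℝ) :
    ∑ y ∈ S, grIso_ind A y ≤ ∑ y ∈ S, |grIso_ind A y - c| := by
  have e1 : ∑ y ∈ S, grIso_ind A y = ((S.filter (· ∈ A)).card : ℝ) := by
    unfold grIso_ind
    rw [sum_boole]
  have e2 : ∑ y ∈ S, |grIso_ind A y - c| = ((S.filter (· ∈ A)).card : ℝ) * |1 - c| +
      ((S.filter (· ∉ A)).card : ℝ) * |c| := by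
    rw [← sum_filter_add_sum_filter_not S (· ∈ A)]
    congr 1
    · rw [sum_congr rfl (g := fun _ => |1 - c|) fun y hy => by
        simp [grIso_ind, (mem_filter.1 hy).2]]
      simp
    · rw [sum_congr rfl (g := fun _ => |c|) fun y hy => by
        simp [grIso_ind, (mem_filter.1 hy).2]]
      simp
  have e3 : ((S.filter (· ∈ A)).card : ℝ) + ((S.filter (· ∉ A)).card : ℝ) = S.card := by
    exact_mod_cast card_filter_add_card_filter_not (s := S) (· ∈ A)
  have e4 : ((S.filter (· ∈ A)).card : ℝ) ≤ A.card := by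
    exact_mod_cast card_le_card fun y hy => (mem_filter.1 hy).2
  have e5 : 1 ≤ |1 - c| + |c| := by
    have := abs_add_le (1 - c) c
    simpa using this
  rw [e1, e2]
  have e6 : (0 : ℝ) ≤ (S.filter (· ∈ A)).card := Nat.cast_nonneg _
  generalize ((S.filter (· ∈ A)).card : ℝ) = a at *
  generalize ((S.filter (· ∉ A)).card : ℝ) = b at *
  nlinarith [abs_nonneg c, mul_le_mul_of_nonneg_left e5 e6]

lemma grIso_edges {O : Set (E d)} (A : Finset (V d)) (T : Finset (E d)) :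
    ∑ e ∈ cap (GC O) T, |grad (grIso_ind A) e| ≤ (bp (nbO O) A).card := by
  have h1 := card_open_le (O := O) (K := A) (Q := T.filter (· ∈ bd (A : Set (V d))))
    fun e he => (mem_filter.1 (mem_coe.1 he)).2
  calc ∑ e ∈ cap (GC O) T, |grad (grIso_ind A) e|
      ≤ ∑ e ∈ cap (GC O) T, (if e ∈ bd (A : Set (V d)) then (1 : ℝ) else 0) := by
        refine sum_le_sum fun e _ => ?_
        simp only [grad, grIso_ind, bd, Set.mem_ofPred_eq, mem_coe]
        by_cases a1 : e.1 ∈ A <;> by_cases a2 : e.1 + ee e.2 ∈ A <;> simp [a1, a2]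
    _ = (((cap (GC O) T).filter (· ∈ bd (A : Set (V d)))).card : ℝ) := by simp
    _ ≤ _ := by
        refine Nat.cast_le.2 (le_trans (card_le_card fun e he => ?_) h1)
        obtain ⟨h2, h3⟩ := mem_filter.1 he
        obtain ⟨h4, h5⟩ := mem_cap.1 h2
        exact mem_filter.2 ⟨mem_filter.2 ⟨h4, h3⟩, h5.1⟩

/-- The isoperimetric inequality at one scale. -/
lemma grIso_scale {θ K : ℝ} (hK : 0 < K) {O : Set (E d)} {s R : ℕ}
    (h : ∀ z ∈ box (0 : V d) R, W θ K 1 z s O) (A : Finset (V d)) (hA : ∀ y ∈ A, y ∈ Cl O)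
    (hR : ∀ y ∈ A, nd 0 y + s ≤ R) (hv : 2 * (A.card : ℝ) ≤ θ * vol d s) :
    (A.card : ℝ) ≤ K * s * 2 ^ d * (bp (nbO O) A).card := by
  have h1 := vol_mul_sum_le (Cl O) A (box (0 : V d) R) s (fun y hy => box_subset (hR y hy))
    (grIso_ind_nonneg A)
  have h2 : ∑ y ∈ cap (Cl O) A, grIso_ind A y = A.card := by
    have : cap (Cl O) A = A := filter_true_of_mem hA
    rw [this, sum_congr rfl (g := fun _ => (1 : ℝ)) fun y hy => by simp [grIso_ind, hy]]
    simp
  have h3 : ∀ z ∈ box (0 : V d) R, ∑ y ∈ cap (Cl O) (box z s), grIso_ind A y ≤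
      K * s * ∑ e ∈ cap (GC O) (boxE z (2 * s)), |grad (grIso_ind A) e| := by
    intro z hz
    by_cases hex : ∃ y ∈ A, y ∈ box z s
    · obtain ⟨y, hy, hy'⟩ := hex
      have g := (h z hz O (agree_refl _ _) ⟨y, hA y hy, box_mono _ (by omega) hy'⟩).1
      have hD := g.dens z (mem_box_self _ _) s (by simp) le_rfl
      obtain ⟨c, hc⟩ := g.poin1 (grIso_ind A)
      exact (grIso_half A _ (hv.trans hD) c).trans hc
    · push Not at hex
      rw [sum_eq_zero (f := grIso_ind A) fun y hy =>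
        if_neg fun hyA => hex y hyA (mem_cap.1 hy).1]
      exact mul_nonneg (by positivity) (sum_nonneg fun _ _ => abs_nonneg _)
  have h4 := sum_sum_boxE_le (GC O) 0 R (2 * s) (f := fun e => |grad (grIso_ind A) e|)
    fun _ => abs_nonneg _
  have h5 := grIso_edges (O := O) A (boxE 0 (R + 2 * s))
  have h6 : vol d (2 * s) ≤ 2 ^ d * vol d s := vol_le_of_le_mul d one_le_two (by push_cast; rfl)
  have hKs : 0 ≤ K * s := by positivity
  have h7 : vol d s * A.card ≤ vol d s * (K * s * 2 ^ d * (bp (nbO O) A).card) := by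
    calc vol d s * A.card = vol d s * ∑ y ∈ cap (Cl O) A, grIso_ind A y := by rw [h2]
      _ ≤ _ := h1
      _ ≤ _ := sum_le_sum h3
      _ = K * s * ∑ z ∈ box (0 : V d) R, ∑ e ∈ cap (GC O) (boxE z (2 * s)),
          |grad (grIso_ind A) e| := by rw [mul_sum]
      _ ≤ K * s * (2 ^ d * vol d s * (bp (nbO O) A).card) :=
          mul_le_mul_of_nonneg_left (h4.trans (mul_le_mul h6 h5
            (sum_nonneg fun _ _ => abs_nonneg _) (mul_pos (by positivity) (vol_pos d s)).le)) hKs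
      _ = _ := by ring
  exact le_of_mul_le_mul_left h7 (vol_pos d s)

lemma grIso_choose (m : ℕ) (hm : 8 ≤ m) : ∃ s : ℕ, m ≤ s ^ 3 ∧ s ^ 3 ≤ 8 * m := by
  have hex : ∃ s : ℕ, m ≤ s ^ 3 := ⟨m, Nat.le_self_pow (by norm_num) m⟩
  have h1 := Nat.find_spec hex
  obtain ⟨t, ht⟩ : ∃ t, Nat.find hex = t + 1 := by
    refine Nat.exists_eq_succ_of_ne_zero fun h0 => ?_
    rw [h0] at h1
    omega
  have h2 : ¬ m ≤ t ^ 3 := Nat.find_min hex (by omega)
  rw [ht] at h1
  refine ⟨t + 1, h1, ?_⟩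
  have h3 : 1 ≤ t := by
    by_contra h0
    have : t = 0 := by omega
    subst this
    omega
  calc (t + 1) ^ 3 ≤ (2 * t) ^ 3 := Nat.pow_le_pow_left (by omega) 3
    _ = 8 * t ^ 3 := by ring
    _ ≤ 8 * m := by omega

theorem green_of_W (hd : 3 ≤ d) {θ K : ℝ} (hθ : 0 < θ) (hK : 0 < K) {O : Set (E d)}
    (h : ∀ᶠ s : ℕ in atTop, ∀ z ∈ box (0 : V d) (s ^ 4), W θ K 1 z s O) {o : V d} (ho : o ∈ Cl O) :
    ∃ g : V d → ℝ, (∀ x ∈ comp O o, x ≠ o → lap (nbO O) g x = 0) ∧ (∀ x ∈ comp O o, 0 < g x) ∧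
      ∀ t : ℝ, 0 < t → {x | t ≤ |g x|}.Finite := by
  obtain ⟨s0, hs0⟩ := eventually_atTop.1 h
  obtain ⟨T, hT1, hT⟩ : ∃ T : ℕ, 1 ≤ T ∧ 2 ≤ θ * T := by
    refine ⟨⌈2 / θ⌉₊ + 1, by omega, ?_⟩
    have h1 := Nat.le_ceil (2 / θ)
    rw [div_le_iff₀ hθ] at h1
    push_cast
    nlinarith
  obtain ⟨s1, hs1, hs1', hs1''⟩ : ∃ s1 : ℕ, s0 ≤ s1 ∧ 3 ≤ s1 ∧ nd 0 o ≤ s1 :=
    ⟨s0 + 3 + nd 0 o, by omega, by omega, by omega⟩
  obtain ⟨M, hM1, hM2⟩ : ∃ M : ℕ, s1 ^ 2 ≤ M ∧ K * 2 ^ d * (2 * T) ≤ M := by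
    refine ⟨s1 ^ 2 + ⌈K * 2 ^ d * (2 * T)⌉₊, by omega, (Nat.le_ceil _).trans ?_⟩
    exact_mod_cast Nat.le_add_left _ _
  have ho' : (reach (nbO O) o).Infinite := by rw [reach_nbO]; exact ho
  rw [← reach_nbO]
  refine exists_green (D := 3 ^ d) (M := M) (fun x y h => mem_nbO.2 (adj_symm (mem_nbO.1 h)))
    ho' (Nat.one_le_pow _ _ (by norm_num)) (le_trans (Nat.one_le_pow _ _ (by omega)) hM1)
    (card_nbO O) ?_
  intro A hoA hA
  have hconn : Conn (A : Set (V d)) := by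
    refine conn_of_reach (mem_coe.2 hoA) fun y hy => ?_
    have := hA y hy
    clear hy
    induction this with
    | refl => exact Relation.ReflTransGen.refl
    | tail _ hbc ih =>
      exact ih.tail ⟨adj_mono (Set.subset_univ _) (mem_nbO.1 hbc.1), hbc.2.1, hbc.2.2⟩
  have hCl : ∀ y ∈ A, y ∈ Cl O := fun y hy => by
    refine mem_Cl_of_comp ho ?_
    have := hA y hy
    clear hy
    induction this with
    | refl => exact mem_comp_self _ _
    | tail _ hbc ih => exact comp_adj ih (mem_nbO.1 hbc.1)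
  have hnd : ∀ y ∈ A, nd o y ≤ A.card := fun y hy => by
    obtain ⟨k, hk⟩ := exists_nd_eq (by omega) o y
    rw [← Set.ncard_coe_finset]
    rcases le_abs.1 hk.ge with h' | h'
    · exact le_ncard_of_conn A.finite_toSet hconn (mem_coe.2 hoA) (mem_coe.2 hy) k (by omega)
    · exact le_ncard_of_conn A.finite_toSet hconn (mem_coe.2 hy) (mem_coe.2 hoA) k (by omega)
  have hκ : 1 ≤ (bp (nbO O) A).card := by
    rw [Nat.one_le_iff_ne_zero, Ne, card_eq_zero]
    intro hE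
    refine ho' (A.finite_toSet.subset fun y hy => ?_)
    induction hy with
    | refl => exact hoA
    | @tail b c _ hbc ih =>
      by_contra hn
      have : (⟨b, c⟩ : Σ _ : V d, V d) ∈ bp (nbO O) A := mem_sigma.2 ⟨ih, mem_sdiff.2 ⟨hbc, hn⟩⟩
      rw [hE] at this
      simp at this
  rcases le_or_gt (s1 ^ 3) A.card with hn | hn
  · have hTn : A.card ≤ T * A.card := Nat.le_mul_of_pos_left _ hT1
    have h27 : 3 ^ 3 ≤ s1 ^ 3 := Nat.pow_le_pow_left hs1' 3
    obtain ⟨s, hs, hs'⟩ := grIso_choose (T * A.card) (by omega)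
    have hss : s1 ≤ s := (Nat.pow_le_pow_iff_left (n := 3) (by norm_num)).1 (by omega)
    have hs3 : s ≤ s ^ 3 := Nat.le_self_pow (by norm_num) s
    have hs4 : 3 * s ^ 3 ≤ s ^ 4 := by
      rw [pow_succ' s 3]
      exact Nat.mul_le_mul_right _ (by omega)
    have hv : 2 * (A.card : ℝ) ≤ θ * vol d s := by
      have v1 : (s : ℝ) ^ 3 ≤ vol d s := by
        have s0' : (0 : ℝ) ≤ s := Nat.cast_nonneg s
        exact (pow_le_pow_left₀ s0' (by linarith : (s : ℝ) ≤ 2 * s + 1) 3).trans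
          (pow_le_pow_right₀ (by linarith) hd)
      have v2 : (T : ℝ) * A.card ≤ (s : ℝ) ^ 3 := by exact_mod_cast hs
      calc 2 * (A.card : ℝ) ≤ θ * T * A.card :=
            mul_le_mul_of_nonneg_right hT (Nat.cast_nonneg _)
        _ = θ * (T * A.card) := by ring
        _ ≤ _ := mul_le_mul_of_nonneg_left (v2.trans v1) hθ.le
    have key := grIso_scale hK (hs0 s (by omega)) A hCl (fun y hy => by
      have := nd_triangle 0 o y
      have := hnd y hy
      omega) hv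
    have hn0 : (0 : ℝ) < A.card := by exact_mod_cast (by omega : 0 < A.card)
    have hT1' : (1 : ℝ) ≤ T := by exact_mod_cast hT1
    have v3 : (s : ℝ) ^ 3 ≤ (2 * T) ^ 3 * A.card := by
      have v4 : (s : ℝ) ^ 3 ≤ 8 * (T * A.card) := by exact_mod_cast hs'
      have v5 : (T : ℝ) ≤ (T : ℝ) ^ 3 := le_self_pow₀ hT1' (by norm_num)
      calc (s : ℝ) ^ 3 ≤ 8 * (T * A.card) := v4
        _ ≤ 8 * ((T : ℝ) ^ 3 * A.card) := by gcongr
        _ = _ := by ring
    have fin : (A.card : ℝ) ^ 2 * A.card ≤ ((M : ℝ) * (bp (nbO O) A).card) ^ 3 * A.card := by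
      calc (A.card : ℝ) ^ 2 * A.card = (A.card : ℝ) ^ 3 := by ring
        _ ≤ (K * s * 2 ^ d * (bp (nbO O) A).card) ^ 3 := pow_le_pow_left₀ hn0.le key 3
        _ = (K * 2 ^ d * (bp (nbO O) A).card) ^ 3 * (s : ℝ) ^ 3 := by ring
        _ ≤ (K * 2 ^ d * (bp (nbO O) A).card) ^ 3 * ((2 * T) ^ 3 * A.card) :=
            mul_le_mul_of_nonneg_left v3 (by positivity)
        _ = (K * 2 ^ d * (2 * T) * (bp (nbO O) A).card) ^ 3 * A.card := by ring
        _ ≤ _ := by gcongr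
    exact_mod_cast le_of_mul_le_mul_right fin hn0
  · calc A.card ^ 2 ≤ (s1 ^ 3) ^ 2 := Nat.pow_le_pow_left hn.le 2
      _ = (s1 ^ 2) ^ 3 := by ring
      _ ≤ _ := Nat.pow_le_pow_left (hM1.trans (Nat.le_mul_of_pos_right _ hκ)) 3

end Pool.Agent.P.MP_b4265e_pr.R
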