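import Pool.Agent.P.MP_b4265e_pr.R.Chg

/-!
Hardy inequality and the size of the potential on shells.
-/

namespace Pool.Agent.P.MP_b4265e_pr.R

open Finset
open scoped Classical

lemma hardy_vol {d A : ℕ} (hd : 3 ≤ d) (hA : 14 ≤ A) (j : ℕ) :
    2 * A * √(vol d (A ^ j)) ≤ √(vol d (A ^ (j + 1))) := by
  have hA' : (14 : ℝ) ≤ A := by exact_mod_cast hA
  have h1 : (1 : ℝ) ≤ (A : ℝ) ^ j := one_le_pow₀ (by linarith)
  refine Real.le_sqrt_of_sq_le ?_
  rw [mul_pow, Real.sq_sqrt (vol_pos _ _).le]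
  have a : (2 * (A : ℝ)) ^ 2 ≤ (2 * A / 3) ^ d := by
    calc (2 * (A : ℝ)) ^ 2 ≤ (2 * A / 3) ^ 3 := by nlinarith [sq_nonneg (A : ℝ)]
      _ ≤ _ := pow_le_pow_right₀ (by linarith) hd
  calc _ ≤ (2 * (A : ℝ) / 3) ^ d * vol d (A ^ j) := mul_le_mul_of_nonneg_right a (vol_pos _ _).le
    _ ≤ _ := by
        rw [vol, vol, ← mul_pow]
        push_cast
        refine pow_le_pow_left₀ (by positivity) ?_ d
        rw [pow_succ]
        nlinarith

lemma hardy_const {α : Type*} (S : Finset α) (w : α → ℝ) (c c' : ℝ) :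
    √(S.card) * |c - c'| ≤ l2 S (fun y => w y - c') + l2 S (fun y => w y - c) := by
  rw [← l2_const]
  refine le_trans (le_of_eq (l2_congr fun a _ => ?_)) (l2_sub_le S _ _)
  ring

theorem hardy {d : ℕ} (hd : 3 ≤ d) {θ K : ℝ} (hθ : 0 < θ) (hK : 0 < K) : ∃ CH : ℝ, 1 ≤ CH ∧
    ∃ A0 : ℕ, ∀ A ≥ A0, ∀ (G : Set (E d)) (C : Set (V d)) (n : ℕ), G ⊆ ins C →
    (∀ j ≥ n, Dens θ C 0 (A ^ j) ∧ Poin2 K G C 0 (A ^ j)) →
    ∀ (w : V d → ℝ) (R : ℕ), (∀ y ∈ C, y ∉ box (0 : V d) R → w y = 0) →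
      l2 (cap C (box 0 (A ^ n))) w ≤ CH * (A : ℝ) ^ (n + 1) * en G 0 (R + 1) w := by
  have hθ' : 0 < √θ := Real.sqrt_pos.2 hθ
  refine ⟨1 + K + 4 * K / √θ, by
    have : 0 < 4 * K / √θ := by positivity
    linarith, 14, fun A hA G C n hG h w R hw => ?_⟩
  have hA' : (14 : ℝ) ≤ A := by exact_mod_cast hA
  set e := en G 0 (R + 1) w with he
  have e0 : 0 ≤ e := en_nonneg _ _ _ _
  have hc : ∀ j, ∃ c : ℝ, n ≤ j →
      l2 (cap C (box 0 (A ^ j))) (fun y => w y - c) ≤ K * (A : ℝ) ^ j * e := fun j => by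
    by_cases hj : n ≤ j
    · obtain ⟨c, hc⟩ := (h j hj).2 w
      refine ⟨c, fun _ => hc.trans ?_⟩
      push_cast
      exact mul_le_mul_of_nonneg_left (en_le_of_supp hG hw _ _) (by positivity)
    · exact ⟨0, fun h' => absurd h' hj⟩
  choose c hc using hc
  have v0 : ∀ j, 0 < √(vol d (A ^ j)) := fun j => Real.sqrt_pos.2 (vol_pos _ _)
  set a : ℕ → ℝ := fun j => (A : ℝ) ^ (j + 1) / √(vol d (A ^ j)) with ha
  have a0 : ∀ j, 0 ≤ a j := fun j => div_nonneg (by positivity) (v0 j).le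
  have a1 : ∀ j, a (j + 1) ≤ a j / 2 := fun j => by
    simp only [ha]
    rw [div_div, div_le_div_iff₀ (v0 _) (mul_pos (v0 _) two_pos)]
    calc _ = (A : ℝ) ^ (j + 1) * (2 * A * √(vol d (A ^ j))) := by ring
      _ ≤ _ := mul_le_mul_of_nonneg_left (hardy_vol hd hA j) (by positivity)
  have hN : ∀ j, n ≤ j → ∀ t B : ℝ, 0 ≤ t →
      √((cap C (box (0 : V d) (A ^ j))).card) * t ≤ B * (A : ℝ) ^ (j + 1) →
      t ≤ B / √θ * a j := fun j hj t B ht hB => by
    have b : √θ * √(vol d (A ^ j)) ≤ √((cap C (box (0 : V d) (A ^ j))).card) := by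
      rw [← Real.sqrt_mul hθ.le]
      exact Real.sqrt_le_sqrt (h j hj).1
    simp only [ha]
    rw [div_mul_div_comm, le_div_iff₀ (mul_pos hθ' (v0 j)), mul_comm]
    exact (mul_le_mul_of_nonneg_right b ht).trans hB
  have pw : ∀ j, (A : ℝ) ^ j ≤ (A : ℝ) ^ (j + 1) := fun j =>
    pow_le_pow_right₀ (by linarith) (Nat.le_succ j)
  have Ke : 0 ≤ K * e := by positivity
  have step : ∀ j, n ≤ j → |c j - c (j + 1)| ≤ 2 * (K * e) / √θ * a j := fun j hj => by
    refine hN j hj _ _ (abs_nonneg _) ((hardy_const _ w _ _).trans ?_)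
    have b1 := (l2_mono (cap_mono C (box_mono (0 : V d)
      (Nat.pow_le_pow_right (by omega) (Nat.le_succ j)))) fun y => w y - c (j + 1)).trans
      (hc (j + 1) (by omega))
    have b2 := hc j hj
    have b3 := mul_le_mul_of_nonneg_left (pw j) Ke
    linarith
  set W := l2 (cap C (box (0 : V d) R)) w with hW
  have W0 : 0 ≤ W := l2_nonneg _ _
  have far : ∀ j, n ≤ j → |c j| ≤ (K * e + W) / √θ * a j := fun j hj => by
    refine hN j hj _ _ (abs_nonneg _) ?_
    have b0 := hardy_const (cap C (box (0 : V d) (A ^ j))) w (c j) 0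
    simp only [sub_zero] at b0
    have b1 : l2 (cap C (box (0 : V d) (A ^ j))) w ≤ W := by
      refine (l2_mono (cap_mono C (box_mono (0 : V d) (le_max_left _ R))) w).trans (le_of_eq ?_)
      refine l2_eq_of_zero (cap_mono C (box_mono (0 : V d) (le_max_right _ _))) fun y hy hy' => ?_
      exact hw y (mem_cap.1 hy).2 fun hb => hy' (mem_cap.2 ⟨hb, (mem_cap.1 hy).2⟩)
    have b2 := hc j hj
    have b3 := mul_le_mul_of_nonneg_left (pw j) Ke
    have b4 : W ≤ W * (A : ℝ) ^ (j + 1) := le_mul_of_one_le_right W0 (one_le_pow₀ (by linarith))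
    linarith
  set κ := 2 * (K * e) / √θ with hκ
  have κ0 : 0 ≤ κ := by positivity
  have mono : ∀ k, |c n| - 2 * κ * a n ≤ |c (n + k)| - 2 * κ * a (n + k) ∧
      a (n + k) ≤ a n * (1 / 2) ^ k := fun k => by
    induction k with
    | zero => simp
    | succ k ih =>
      have b1 := step (n + k) (by omega)
      have b2 := a1 (n + k)
      have b3 := abs_sub_abs_le_abs_sub (c (n + k)) (c (n + k + 1))
      have b4 := mul_le_mul_of_nonneg_left b2 κ0
      rw [← add_assoc, pow_succ]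
      constructor <;> linarith [ih.1, ih.2]
  have cn : |c n| - 2 * κ * a n ≤ 0 := by
    have t := (tendsto_pow_atTop_nhds_zero_of_lt_one (r := (1 / 2 : ℝ)) (by norm_num)
      (by norm_num)).const_mul ((K * e + W) / √θ * a n)
    rw [mul_zero] at t
    refine ge_of_tendsto' t fun k => (mono k).1.trans ?_
    have b1 := far (n + k) (by omega)
    have b2 := mul_le_mul_of_nonneg_left (mono k).2 (show 0 ≤ (K * e + W) / √θ by positivity)
    have b3 := mul_nonneg κ0 (a0 (n + k))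
    linarith
  have b1 : l2 (cap C (box 0 (A ^ n))) w ≤ l2 (cap C (box 0 (A ^ n))) (fun y => w y - c n) +
      l2 (cap C (box (0 : V d) (A ^ n))) (fun _ => c n) :=
    le_trans (le_of_eq (l2_congr fun y _ => by ring)) (l2_add_le _ _ _)
  have b2 : √((cap C (box (0 : V d) (A ^ n))).card) ≤ √(vol d (A ^ n)) := by
    refine Real.sqrt_le_sqrt ?_
    rw [← card_box_vol (0 : V d)]
    exact_mod_cast card_le_card (cap_subset _ _)
  have b3 : √(vol d (A ^ n)) * (2 * κ * a n) = 4 * K / √θ * (A : ℝ) ^ (n + 1) * e := by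
    have := (v0 n).ne'
    simp only [ha, hκ]
    field_simp
    ring
  have b4 : √((cap C (box (0 : V d) (A ^ n))).card) * |c n| ≤
      √(vol d (A ^ n)) * (2 * κ * a n) :=
    mul_le_mul b2 (by linarith) (abs_nonneg _) (v0 n).le
  rw [l2_const] at b1
  have b5 := hc n le_rfl
  have b6 := mul_le_mul_of_nonneg_left (pw n) Ke
  have b7 : 0 ≤ (A : ℝ) ^ (n + 1) * e := by positivity
  linarith

lemma hardy_cancel {l B : ℝ} (hB : 0 ≤ B) (h : l ^ 2 ≤ B * l) : l ≤ B := by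
  by_contra hc
  nlinarith [not_le.1 hc]

theorem shell_le_lam {d : ℕ} (hd : 3 ≤ d) {θ K : ℝ} (hθ : 0 < θ) (hK : 0 < K) :
    ∃ CH : ℝ, 1 ≤ CH ∧
    ∃ A0 : ℕ, ∀ A ≥ A0, ∀ (G : Set (E d)) (C : Set (V d)) (n : ℕ), Wf G C →
    (∀ j ≥ n, Dens θ C 0 (A ^ j) ∧ Poin2 K G C 0 (A ^ j)) →
    ∀ (u : V d → ℝ) (f : V d →₀ ℝ), (∀ y, lapG G u y = f y) → Supp C 0 (A ^ n) f → Dec C u →
      l2 (cap C (ann 0 (A ^ n + 1) (A ^ (n + 2)))) u ≤
        CH * (A : ℝ) ^ (2 * n + 4) * lam G C 0 (A ^ n) f / √(vol d (A ^ n)) := by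
  obtain ⟨CH, CH1, A0, hH⟩ := hardy hd hθ hK
  refine ⟨CH ^ 2, one_le_pow₀ CH1, max A0 1, fun A hA G C n hw h u f hf sf hu => ?_⟩
  have hH := hH A ((le_max_left _ _).trans hA) G C
  have A1 : 1 ≤ A := (le_max_right _ _).trans hA
  set S := cap C (ann (0 : V d) (A ^ n + 1) (A ^ (n + 2))) with hS
  set l := l2 S u with hl
  have l0 : 0 ≤ l := l2_nonneg _ _
  have lam0 : 0 ≤ lam G C 0 (A ^ n) f := lam_nonneg sf
  have v0 : 0 < √(vol d (A ^ n)) := Real.sqrt_pos.2 (vol_pos _ _)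
  have mS : ∀ y ∈ S, y ∈ C ∧ A ^ n + 1 ≤ nd 0 y ∧ nd 0 y ≤ A ^ (n + 2) := fun y hy =>
    ⟨(mem_cap.1 hy).2, mem_ann.1 (mem_cap.1 hy).1⟩
  refine le_of_forall_pos_le_add fun ε hε => ?_
  obtain ⟨R, hR⟩ := hu (ε / (√S.card + 1)) (by positivity)
  set N := max R (A ^ (n + 2)) with hN
  have SN : S ⊆ box 0 N := fun y hy => mem_box_nd.2 ((mS y hy).2.2.trans (le_max_right _ _))
  have nN : A ^ n ≤ N := (Nat.pow_le_pow_right A1 (by omega)).trans (le_max_right _ _)
  obtain ⟨w, w1, w2⟩ := exists_dirichlet hw (box 0 N) (fun y => if y ∈ S then u y else 0) fun _ => 0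
  obtain ⟨U, U1, U2⟩ := exists_dirichlet hw (box 0 N) (fun _ => 0) u
  have w0 : ∀ y ∈ C, y ∉ box (0 : V d) N → w y = 0 := fun y _ hy =>
    w2 y fun hc => hy (mem_cap.1 hc).1
  have lw : ∀ y ∈ box (0 : V d) N, lapG G w y = if y ∈ S then u y else 0 := fun y hy => by
    by_cases hc : y ∈ C
    · exact w1 y (mem_cap.2 ⟨hy, hc⟩)
    · rw [lapG_of_not_mem hw.sub w hc, if_neg fun hs => hc (mS y hs).1]
  have lU : ∀ y ∈ box (0 : V d) N, lapG G U y = 0 := fun y hy => by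
    by_cases hc : y ∈ C
    · exact U1 y (mem_cap.2 ⟨hy, hc⟩)
    · exact lapG_of_not_mem hw.sub U hc
  have sw : ∀ v : V d → ℝ, ∑ y ∈ box (0 : V d) N, v y * lapG G w y = ∑ y ∈ S, v y * u y :=
    fun v => by
      rw [sum_congr rfl fun y hy => by rw [lw y hy]]
      simp only [mul_ite, mul_zero, sum_ite_mem, inter_eq_right.2 SN]
  have bU : ∀ y ∈ C, |U y| ≤ ε / (√S.card + 1) :=
    abs_max_prin hw (box 0 N) U lU fun z hz hz' => by
      rw [U2 z fun hc => hz' (mem_cap.1 hc).1]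
      exact hR z hz fun hb => hz' (box_mono _ (le_max_left _ _) hb)
  set e := en G 0 (N + 1) w with he
  have e0 : 0 ≤ e := en_nonneg _ _ _ _
  have e1 : e ≤ CH * (A : ℝ) ^ (n + 3) * l := by
    refine hardy_cancel (by positivity) ?_
    have a := sbp_box hw.sub w w (le_refl (N + 1)) w0
    rw [sw] at a
    have b : e ^ 2 = -∑ y ∈ S, w y * u y := by
      rw [a, neg_neg, he, en_sq]
      exact sum_congr rfl fun _ _ => by ring
    have c := hH (n + 2) hw.sub (fun j hj => h j (by omega)) w N w0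
    have c' : l2 S w ≤ CH * (A : ℝ) ^ (n + 3) * e :=
      (l2_mono (fun y hy => mem_cap.2 ⟨mem_box_nd.2 (mS y hy).2.2, (mS y hy).1⟩) w).trans c
    calc e ^ 2 ≤ l2 S w * l := by
          rw [b]
          exact (neg_le_abs _).trans (abs_sum_mul_le S w u)
      _ ≤ CH * (A : ℝ) ^ (n + 3) * e * l := mul_le_mul_of_nonneg_right c' l0
      _ = _ := by ring
  have g := green_symm hw.sub (fun y => u y - U y) w (x := 0) (r := N)
    (fun y _ hy => by rw [U2 y fun hc => hy (mem_cap.1 hc).1, sub_self]) w0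
  have p1 : ∑ y ∈ box (0 : V d) N, w y * lapG G (fun y => u y - U y) y = pair f w := by
    rw [pair_eq_sum (S := box 0 N) fun y hy => box_mono _ nN (sf y hy).2]
    refine sum_congr rfl fun y hy => ?_
    rw [lapG_sub, hf, lU y hy]
    ring
  rw [sw, p1] at g
  have hw0 : Harm G 0 (A ^ n) w := fun y hy => by
    rw [lw y (box_mono _ nN hy), if_neg fun hs => ?_]
    have := mem_box_nd.1 hy
    have := (mS y hs).2.1
    omega
  have p2 : nrm C 0 (A ^ n) w ≤ CH ^ 2 * (A : ℝ) ^ (2 * n + 4) * l / √(vol d (A ^ n)) := by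
    rw [nrm]
    refine div_le_div_of_nonneg_right ((hH n hw.sub h w N w0).trans ?_) v0.le
    calc _ ≤ CH * (A : ℝ) ^ (n + 1) * (CH * (A : ℝ) ^ (n + 3) * l) :=
          mul_le_mul_of_nonneg_left e1 (by positivity)
      _ = _ := by ring
  have p3 := (abs_pair_le sf hw0).trans (mul_le_mul_of_nonneg_left p2 lam0)
  have p4 : l2 S U ≤ ε := by
    refine (l2_le_sup (by positivity) fun y hy => bU y (mS y hy).1).trans ?_
    rw [← mul_div_assoc, div_le_iff₀ (by positivity)]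
    linarith
  have p5 := (abs_sum_mul_le S U u).trans (mul_le_mul_of_nonneg_right p4 l0)
  have p6 : l ^ 2 = pair f w + ∑ y ∈ S, U y * u y := by
    rw [hl, l2_sq, ← g, ← sum_add_distrib]
    exact sum_congr rfl fun _ _ => by ring
  refine hardy_cancel (by positivity) ?_
  rw [p6]
  refine (add_le_add ((le_abs_self _).trans p3) ((le_abs_self _).trans p5)).trans (le_of_eq ?_)
  ring

end Pool.Agent.P.MP_b4265e_pr.R
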