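import Pool.Agent.P.MP_b4265e_pr.R.Coarse
import Pool.Agent.P.MP_b4265e_pr.R.PBasic

/-!
From the renormalised configuration to crossings and local uniqueness.
-/

namespace Pool.Agent.P.MP_b4265e_pr.R

open Finset
open scoped Classical

variable {d : ℕ}

/-! ### Locality -/

lemma PIdet_ins_mono {A B : Set (V d)} (h : A ⊆ B) : ins A ⊆ ins B :=
  fun _ ha => ⟨h ha.1, h ha.2⟩

lemma PIdet_comp_mono {O : Set (E d)} {A B : Set (V d)} (h : A ⊆ B) (y : V d) :
    comp (O ∩ ins A) y ⊆ comp (O ∩ ins B) y :=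
  comp_mono (Set.inter_subset_inter_right _ (PIdet_ins_mono h)) y

lemma PIdet_inter_set {x : V d} {R : ℕ} {O O' : Set (E d)} (h : Agree (boxE x R) O O')
    {A : Set (V d)} (hA : A ⊆ (box x R : Set (V d))) : O ∩ ins A = O' ∩ ins A :=
  inter_congr h ((PIdet_ins_mono hA).trans (ins_box_subset x R))

lemma PIdet_inter_box {x z : V d} {r R : ℕ} {O O' : Set (E d)} (h : Agree (boxE x R) O O')
    (hr : nd x z + r ≤ R) :
    O ∩ ins (box z r : Set (V d)) = O' ∩ ins (box z r : Set (V d)) :=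
  PIdet_inter_set h (Finset.coe_subset.2 (box_subset hr))

lemma PIdet_arm_congr {x z : V d} {r R : ℕ} {O O' : Set (E d)} (h : Agree (boxE x R) O O')
    (hr : nd x z + (r + 1) ≤ R) (y : V d) : Arm O z r y ↔ Arm O' z r y := by
  unfold Arm
  rw [PIdet_inter_box h hr]

lemma dep_goodN (n : ℕ) (z : V d) : Dep (boxE z (4 * n + 1)) (GoodN n z) := by
  intro O O' h
  have h4 : ∀ y, Arm O z (4 * n) y ↔ Arm O' z (4 * n) y :=
    PIdet_arm_congr h (by rw [nd_self]; omega)
  have h3 : ∀ y, Arm O z (3 * n) y ↔ Arm O' z (3 * n) y :=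
    PIdet_arm_congr h (by rw [nd_self]; omega)
  have h5 := PIdet_inter_box (z := z) (r := 3 * n + 1) h (by rw [nd_self]; omega)
  unfold GoodN
  simp only [h4, h3, h5]

lemma PIdet_col_subset {x z : V d} {R l t : ℕ} {i : Fin d} (hz : z ∈ box x R)
    (hl : z i + l ≤ x i + R) : col z i l t ⊆ (box x (R + t) : Set (V d)) := by
  intro y hy
  obtain ⟨h1, h2, h3⟩ := hy
  rw [Finset.mem_coe, mem_box]
  rw [mem_box] at hz
  intro k
  have hk := abs_le.1 (hz k)
  by_cases hki : k = i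
  · subst hki
    rw [abs_le]; push_cast; constructor <;> omega
  · have := abs_le.1 (h3 k hki)
    rw [abs_le]; push_cast; constructor <;> omega

lemma PIdet_PI_of_agree {c : ℝ} {x : V d} {R t : ℕ} (ht : 1 ≤ t) {O O' : Set (E d)}
    (h : Agree (boxE x (R + 8 * t)) O O') (hP : PI c x R t O) : PI c x R t O' := by
  have hloc : ∀ z ∈ box x R, ∀ y ∈ box z (4 * t), (Loc O t y ↔ Loc O' t y) := by
    intro z hz y hy
    refine PIdet_arm_congr h ?_ y
    have h1 := mem_box_nd.1 hz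
    have h2 := mem_box_nd.1 hy
    have h3 := nd_triangle x z y
    omega
  refine ⟨fun z hz y hy y' hy' h1 h2 => ?_, fun z hz i l hl hl' Z hZ => ?_⟩
  · have := hP.1 z hz y hy y' hy' ((hloc z hz y hy).2 h1) ((hloc z hz y' hy').2 h2)
    rwa [PIdet_inter_box h (by have := mem_box_nd.1 hz; omega)] at this
  · obtain ⟨y, hy, y', hy', h1, h2, h3⟩ := hP.2 z hz i l hl hl' Z hZ
    refine ⟨y, hy, y', hy', h1, h2, ?_⟩
    have e1 : O ∩ ins (col z i l t) = O' ∩ ins (col z i l t) :=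
      PIdet_inter_set h ((PIdet_col_subset hz hl').trans
        (Finset.coe_subset.2 (box_mono x (by omega))))
    have e2 : ∀ W : Set (E d), (W \ Z) ∩ ins (col z i l t) = (W ∩ ins (col z i l t)) \ Z := by
      intro W; ext e; simp only [Set.mem_inter_iff, Set.mem_sdiff]; tauto
    rwa [e2, e1, ← e2] at h3

lemma dep_PI (c : ℝ) (x : V d) (R : ℕ) {t : ℕ} (ht : 1 ≤ t) :
    Dep (boxE x (R + 8 * t)) (PI c x R t) := fun _ _ h =>
  propext ⟨PIdet_PI_of_agree ht h, PIdet_PI_of_agree ht fun e he => (h e he).symm⟩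

/-! ### Integer division -/

lemma PIdet_dle {n : ℤ} (hn : 0 < n) {a b r : ℤ} (h : a ≤ b + r * n) : a / n ≤ b / n + r := by
  have := Int.ediv_le_ediv hn h
  rwa [Int.add_mul_ediv_right _ _ hn.ne'] at this

lemma PIdet_dge {n : ℤ} (hn : 0 < n) {a b r : ℤ} (h : b + r * n ≤ a) : b / n + r ≤ a / n := by
  have := Int.ediv_le_ediv hn h
  rwa [Int.add_mul_ediv_right _ _ hn.ne'] at this

lemma PIdet_nlo {n : ℤ} (hn : 0 < n) (a : ℤ) : n * (a / n) ≤ a := by
  have := Int.mul_ediv_add_emod a n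
  have := Int.emod_nonneg a hn.ne'
  omega

lemma PIdet_nhi {n : ℤ} (hn : 0 < n) (a : ℤ) : a < n * (a / n) + n := by
  have := Int.mul_ediv_add_emod a n
  have := Int.emod_lt_of_pos a hn
  omega

/-- The shadow of a site on the renormalised lattice. -/
def shd (n : ℕ) (y : V d) : V d := fun j => y j / n

lemma PIdet_shd_step {n : ℕ} (hn : 1 ≤ n) (y : V d) (i : Fin d) :
    shd n (y + ee i) = shd n y ∨ shd n (y + ee i) = shd n y + ee i := by
  have hn' : (0 : ℤ) < n := by exact_mod_cast hn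
  have h1 : (y i + 1) / n ≤ y i / n + 1 := PIdet_dle hn' (by omega)
  have h2 : y i / n ≤ (y i + 1) / n := Int.ediv_le_ediv hn' (by omega)
  by_cases h : (y i + 1) / n = y i / n
  · left
    funext k
    by_cases hk : k = i
    · subst hk; simpa [shd] using h
    · simp [shd, ee_ne hk]
  · right
    funext k
    by_cases hk : k = i
    · subst hk
      simp only [shd, Pi.add_apply, ee_self]
      omega
    · simp [shd, ee_ne hk]

lemma PIdet_conn_shd {n : ℕ} (hn : 1 ≤ n) (O : Set (E d)) (y : V d) :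
    Conn (shd n '' comp O y) := by
  refine conn_of_reach (z := shd n y) (Set.mem_image_of_mem _ (mem_comp_self O y)) ?_
  rintro _ ⟨w, hw, rfl⟩
  induction hw with
  | refl => exact Relation.ReflTransGen.refl
  | @tail b c hb hbc ih =>
    have hc : c ∈ comp O y := comp_adj hb hbc
    obtain ⟨i, h | h⟩ := hbc
    · rcases PIdet_shd_step hn b i with h' | h'
      · rw [h.1, h']; exact ih
      · refine Relation.ReflTransGen.tail ih ⟨⟨i, Or.inl ⟨?_, Set.mem_univ _⟩⟩,
          ⟨b, hb, rfl⟩, ⟨c, hc, rfl⟩⟩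
        rw [h.1, h']
    · rcases PIdet_shd_step hn c i with h' | h'
      · rw [← h', ← h.1]; exact ih
      · refine Relation.ReflTransGen.tail ih ⟨⟨i, Or.inr ⟨?_, Set.mem_univ _⟩⟩,
          ⟨b, hb, rfl⟩, ⟨c, hc, rfl⟩⟩
        rw [h.1, h']

lemma PIdet_mem_box_shd {n : ℕ} (hn : 1 ≤ n) (y : V d) : y ∈ box ((n : ℤ) • shd n y) n := by
  have hn' : (0 : ℤ) < n := by exact_mod_cast hn
  rw [mem_box]
  intro k
  have h1 := PIdet_nlo hn' (y k)
  have h2 := PIdet_nhi hn' (y k)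
  simp only [Pi.smul_apply, smul_eq_mul, shd]
  rw [abs_le]; constructor <;> omega

/-! ### Hubs -/

/-- A point near the block `a` with a long arm. -/
def Nr (n : ℕ) (O : Set (E d)) (a y : V d) : Prop :=
  y ∈ box ((n : ℤ) • a) (2 * n) ∧ Arm O ((n : ℤ) • a) (3 * n) y

lemma PIdet_nd_smul (n : ℕ) (a : V d) (i : Fin d) :
    nd ((n : ℤ) • a) ((n : ℤ) • (a + ee i)) ≤ n := by
  rw [← mem_box_nd, mem_box]
  intro k
  simp only [Pi.smul_apply, smul_eq_mul, Pi.add_apply, ee_apply]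
  have : (0 : ℤ) ≤ n := by positivity
  split_ifs
  · rw [abs_le]; constructor <;> linarith
  · rw [abs_le]; constructor <;> linarith

lemma PIdet_nr_of_hub {n : ℕ} {O : Set (E d)} {a b y : V d}
    (hab : nd ((n : ℤ) • a) ((n : ℤ) • b) ≤ n) (hy : y ∈ box ((n : ℤ) • a) n)
    (harm : Arm O ((n : ℤ) • a) (4 * n) y) : Nr n O b y := by
  have hba : nd ((n : ℤ) • b) ((n : ℤ) • a) ≤ n := by rwa [nd_comm]
  obtain ⟨w, hw, hw'⟩ := harm
  refine ⟨box_subset (by omega) hy, arm_of_far (box_subset (by omega) hy)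
    (comp_mono Set.inter_subset_left _ hw') fun h => hw (box_subset (by omega) h)⟩

lemma PIdet_join {n : ℕ} {O : Set (E d)} {A U : Set (V d)}
    (hU : ∀ a ∈ A, (box ((n : ℤ) • a) (3 * n + 1) : Set (V d)) ⊆ U) {a b : V d} (ha : a ∈ A)
    (hg : GoodN n ((n : ℤ) • a) O) (hb : b ∈ comp (coarse n O ∩ ins A) a) :
    GoodN n ((n : ℤ) • b) O ∧ ∀ y y', Nr n O a y → Nr n O b y' → y' ∈ comp (O ∩ ins U) y := by
  have base : ∀ c ∈ A, GoodN n ((n : ℤ) • c) O → ∀ y y', Nr n O c y → Nr n O c y' →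
      y' ∈ comp (O ∩ ins U) y := fun c hc hgc y y' h1 h2 =>
    PIdet_comp_mono (hU c hc) y (hgc.2 y h1.1 y' h2.1 h1.2 h2.2)
  induction hb with
  | refl => exact ⟨hg, base a ha hg⟩
  | @tail b c _ hbc ih =>
    obtain ⟨i, h | h⟩ := hbc
    · obtain ⟨rfl, hco, hin⟩ := h
      refine ⟨hco.2, fun y y' h1 h2 => ?_⟩
      obtain ⟨w, hw, harm⟩ := ih.1.1
      exact comp_trans (ih.2 y w h1 (PIdet_nr_of_hub (by rw [nd_self]; omega) hw harm))
        (base _ hin.2 hco.2 w y' (PIdet_nr_of_hub (PIdet_nd_smul n b i) hw harm) h2)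
    · obtain ⟨rfl, hco, hin⟩ := h
      refine ⟨hco.1, fun y y' h1 h2 => ?_⟩
      obtain ⟨w, hw, harm⟩ := hco.1.1
      exact comp_trans (ih.2 y w h1 (PIdet_nr_of_hub (PIdet_nd_smul n c i) hw harm))
        (base _ hin.1 hco.1 w y' (PIdet_nr_of_hub (by rw [nd_self]; omega) hw harm) h2)

lemma PIdet_good_of_adj {n : ℕ} {O : Set (E d)} {A : Set (V d)} {a b : V d}
    (h : adj (coarse n O ∩ ins A) a b) : GoodN n ((n : ℤ) • a) O := by
  obtain ⟨i, h | h⟩ := h
  · exact h.2.1.1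
  · obtain ⟨rfl, hco, -⟩ := h
    exact hco.2

/-! ### Local uniqueness -/

lemma PIdet_loc_data {n t : ℕ} (hn : 1 ≤ n) (ht : 10 * n ≤ t) {O : Set (E d)} {z y : V d}
    (hy : y ∈ box z (4 * t)) (hl : Loc O t y) :
    ∃ Γ : Set (V d), Γ ⊆ rect (fun j => (z j - (5 * t + 1)) / n) (fun j => (z j + (5 * t + 1)) / n) ∧
      Conn Γ ∧ (∃ a ∈ Γ, ∃ b ∈ Γ, t / (4 * n) + 1 ≤ nd a b) ∧
      ∀ a ∈ Γ, ∃ w, Nr n O a w ∧ w ∈ comp (O ∩ ins (box z (8 * t) : Set (V d))) y := by
  have hn' : (0 : ℤ) < n := by exact_mod_cast hn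
  obtain ⟨w, hw, hw'⟩ := hl
  have hsub : ∀ v ∈ comp (O ∩ ins (box y (t + 1) : Set (V d))) y, v ∈ box y (t + 1) :=
    fun v hv => mem_of_comp (C := (box y (t + 1) : Set (V d))) Set.inter_subset_right
      (mem_box_self y _) hv
  have hy' := mem_box_nd.1 hy
  refine ⟨shd n '' comp (O ∩ ins (box y (t + 1) : Set (V d))) y, ?_, PIdet_conn_shd hn _ _, ?_, ?_⟩
  · rintro _ ⟨v, hv, rfl⟩ j
    have h1 : v ∈ box z (5 * t + 1) := box_subset (by omega) (hsub v hv)
    have h2 := abs_le.1 (mem_box.1 h1 j)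
    push_cast at h2
    exact ⟨Int.ediv_le_ediv hn' (by omega), Int.ediv_le_ediv hn' (by omega)⟩
  · refine ⟨_, ⟨y, mem_comp_self _ _, rfl⟩, _, ⟨w, hw', rfl⟩, ?_⟩
    rw [mem_box] at hw
    push Not at hw
    obtain ⟨k, hk⟩ := hw
    have h1 := abs_le_nd (shd n y) (shd n w) k
    have h2 : (t / (4 * n) + 1) * n ≤ t := by
      have h3 : t / (4 * n) * (4 * n) ≤ t := Nat.div_mul_le_self _ _
      nlinarith
    have h2' : ((t / (4 * n) + 1 : ℕ) : ℤ) * n ≤ t := by exact_mod_cast h2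
    have h4 : ((t / (4 * n) + 1 : ℕ) : ℤ) ≤ |shd n w k - shd n y k| := by
      rcases lt_abs.1 hk with h | h
      · have := PIdet_dge hn' (a := w k) (b := y k) (r := ((t / (4 * n) + 1 : ℕ) : ℤ)) (by omega)
        exact le_abs.2 (Or.inl (by simp only [shd]; omega))
      · have := PIdet_dge hn' (a := y k) (b := w k) (r := ((t / (4 * n) + 1 : ℕ) : ℤ)) (by omega)
        exact le_abs.2 (Or.inr (by simp only [shd]; omega))
    exact_mod_cast h4.trans h1
  · rintro _ ⟨v, hv, rfl⟩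
    have hb := PIdet_mem_box_shd hn v
    refine ⟨v, ⟨box_mono _ (by omega) hb, ?_⟩,
      PIdet_comp_mono (Finset.coe_subset.2 (box_subset (by omega))) y hv⟩
    have hvy : y ∈ comp O v := comp_symm (comp_mono Set.inter_subset_left _ hv)
    have hvw : w ∈ comp O v := comp_trans hvy (comp_mono Set.inter_subset_left _ hw')
    by_cases hyb : y ∈ box ((n : ℤ) • shd n v) (3 * n)
    · refine arm_of_far (box_mono _ (by omega) hb) hvw fun hwb => hw ?_
      have h1 := mem_box_nd.1 hyb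
      have h2 := mem_box_nd.1 hwb
      have h3 := nd_triangle y ((n : ℤ) • shd n v) w
      rw [nd_comm] at h1
      exact mem_box_nd.2 (by omega)
    · exact arm_of_far (box_mono _ (by omega) hb) hvy hyb

lemma PIdet_not_disjoint {x : V d} {R τ : ℕ} (hτ : 1 ≤ τ) {O : Set (E d)} (h : Half x R τ O)
    {A : Set (V d)} (hA : A ⊆ (box x R : Set (V d))) (T : Finset (E d))
    (hT : (T : Set (E d)) ⊆ ins A) (hs : StarConn (T : Set (E d))) (hc : τ ≤ T.card) :
    ¬ Disjoint (T : Set (E d)) O := by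
  intro hd
  have h1 := h T (hT.trans (PIdet_ins_mono hA)) hs hc
  have h2 : 0 < (cap O T).card := by omega
  obtain ⟨e, he⟩ := Finset.card_pos.1 h2
  rw [mem_cap] at he
  exact dl hd e he.1 he.2

lemma PIdet_uq (hd : 2 ≤ d) {n t : ℕ} (hn : 1 ≤ n) (ht : 10 * n ≤ t) {x z : V d} {R : ℕ}
    {O : Set (E d)} (h : Half (fun j => x j / n) (R + 8 * t) (t / (4 * n)) (coarse n O))
    (hz : z ∈ box x R) : Uq z t O := by
  have hn' : (0 : ℤ) < n := by exact_mod_cast hn
  have hn1 : (1 : ℤ) ≤ n := hn'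
  have ht' : (10 : ℤ) * n ≤ t := by exact_mod_cast ht
  intro y hy y' hy' hl hl'
  obtain ⟨Γ, h1, h2, h3, h4⟩ := PIdet_loc_data hn ht hy hl
  obtain ⟨Γ', h1', h2', h3', h4'⟩ := PIdet_loc_data hn ht hy' hl'
  have hτ : 1 ≤ t / (4 * n) := (Nat.le_div_iff_mul_le (by omega)).2 (by omega)
  have hq : t / (4 * n) * (4 * n) ≤ t := Nat.div_mul_le_self _ _
  have hq' : ((t / (4 * n) : ℕ) : ℤ) * (4 * n) ≤ t := by exact_mod_cast hq
  have hrect : rect (fun j => (z j - (5 * t + 1)) / n) (fun j => (z j + (5 * t + 1)) / n) ⊆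
      (box (fun j => x j / n) (R + 8 * t) : Set (V d)) := by
    intro a ha
    rw [Finset.mem_coe, mem_box]
    intro k
    have e1 := abs_le.1 (mem_box.1 hz k)
    have e2 := ha k
    have e3 : ((R : ℤ) + 8 * t) ≤ ((R : ℤ) + 8 * t) * n := le_mul_of_one_le_right (by positivity) hn1
    have e4 := PIdet_dle hn' (a := z k + (5 * t + 1)) (b := x k) (r := (R : ℤ) + 8 * t) (by omega)
    have e5 := PIdet_dle hn' (a := x k) (b := z k - (5 * t + 1)) (r := (R : ℤ) + 8 * t) (by omega)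
    simp only at e2
    rw [abs_le]; push_cast; constructor <;> omega
  obtain ⟨a, ha, a', ha', hc, b, hb⟩ := giant hd (O := coarse n O) hτ
    (fun j => PIdet_dge hn' (r := 2 * ((t / (4 * n) : ℕ) : ℤ)) (by nlinarith))
    (PIdet_not_disjoint hτ h hrect) h1 h1' h2 h2' h3 h3'
  obtain ⟨w, hw, hw'⟩ := h4 a ha
  obtain ⟨v, hv, hv'⟩ := h4' a' ha'
  have hU : ∀ a ∈ rect (fun j => (z j - (5 * t + 1)) / n) (fun j => (z j + (5 * t + 1)) / n),
      (box ((n : ℤ) • a) (3 * n + 1) : Set (V d)) ⊆ (box z (8 * t) : Set (V d)) := by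
    intro a ha u hu
    rw [Finset.mem_coe, mem_box] at hu ⊢
    intro k
    have e1 := abs_le.1 (hu k)
    have e2 := ha k
    simp only [Pi.smul_apply, smul_eq_mul] at e1 e2
    have e3 := mul_le_mul_of_nonneg_left e2.1 hn'.le
    have e4 := mul_le_mul_of_nonneg_left e2.2 hn'.le
    have e5 := PIdet_nhi hn' (z k - (5 * t + 1))
    have e6 := PIdet_nlo hn' (z k + (5 * t + 1))
    push_cast at e1
    rw [abs_le]; push_cast; constructor <;> omega
  have := (PIdet_join hU (h1 ha) (PIdet_good_of_adj hb) hc).2 w v hw hv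
  exact comp_trans (comp_trans hw' this) (comp_symm hv')

/-! ### Robust crossings -/

lemma PIdet_spoil {n : ℕ} (hn : 1 ≤ n) {O : Set (E d)} (Z T : Finset (E d))
    (hT : Disjoint (T : Set (E d)) (coarse n (O \ Z))) :
    (cap (coarse n O) T).card ≤ Z.card * (13 ^ d * d) := by
  have hn' : (0 : ℤ) < n := by exact_mod_cast hn
  have key : ∀ a : V d, GoodN n ((n : ℤ) • a) O → ¬ GoodN n ((n : ℤ) • a) (O \ Z) →
      ∃ f ∈ Z, f.1 ∈ box ((n : ℤ) • a) (4 * n + 1) := by
    intro a h1 h2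
    by_contra hne
    push Not at hne
    apply h2
    rw [← dep_goodN n _ O (O \ Z)]
    · exact h1
    · intro e he
      exact ⟨fun h => ⟨h, fun hZ => hne e hZ (mem_boxE'.1 he)⟩, fun h => h.1⟩
  have hsub : cap (coarse n O) T ⊆ Z.biUnion fun f => boxE (shd n f.1) 6 := by
    intro e he
    rw [mem_cap] at he
    have h1 : e ∉ coarse n (O \ Z) := fun h => dl hT e he.1 h
    have h2 : ∃ f ∈ Z, f.1 ∈ box ((n : ℤ) • e.1) (5 * n + 1) := by
      by_cases h3 : GoodN n ((n : ℤ) • e.1) (O \ Z)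
      · obtain ⟨f, hf, hf'⟩ := key _ he.2.2 fun h => h1 ⟨h3, h⟩
        exact ⟨f, hf, box_subset (by have := PIdet_nd_smul n e.1 e.2; omega) hf'⟩
      · obtain ⟨f, hf, hf'⟩ := key _ he.2.1 h3
        exact ⟨f, hf, box_mono _ (by omega) hf'⟩
    obtain ⟨f, hf, hf'⟩ := h2
    refine Finset.mem_biUnion.2 ⟨f, hf, mem_boxE.2 fun k => ?_⟩
    have e1 := abs_le.1 (mem_box.1 hf' k)
    simp only [Pi.smul_apply, smul_eq_mul] at e1
    push_cast at e1
    have e2 := PIdet_dle hn' (a := f.1 k) (b := 0) (r := e.1 k + 6) (by nlinarith)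
    have e3 := PIdet_dge hn' (a := f.1 k) (b := 0) (r := e.1 k - 6) (by nlinarith)
    rw [Int.zero_ediv] at e2 e3
    simp only [shd]
    rw [abs_le]; push_cast; constructor <;> omega
  refine (Finset.card_le_card hsub).trans (Finset.card_biUnion_le_card_mul _ _ _ fun f _ => ?_)
  simp [boxE, card_box]

lemma PIdet_cross (hd : 2 ≤ d) {n t : ℕ} (hn : 1 ≤ n) (ht : 10 * n ≤ t) {x z : V d} {R : ℕ}
    {O : Set (E d)} (h : Half (fun j => x j / n) (R + 8 * t) (t / (4 * n)) (coarse n O))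
    (hz : z ∈ box x R) (i : Fin d) (l : ℕ) (hl : z i + l ≤ x i + R) :
    Cross (1 / (4 * (13 ^ d * d) * (2 * n) ^ (d - 1))) z i l t O := by
  have hn' : (0 : ℤ) < n := by exact_mod_cast hn
  have hn1 : (1 : ℤ) ≤ n := hn'
  have ht' : (10 : ℤ) * n ≤ t := by exact_mod_cast ht
  intro Z hZ
  obtain ⟨k, hk⟩ : ∃ k, k = t / (2 * n) := ⟨_, rfl⟩
  have hk1 : k * (2 * n) ≤ t := hk ▸ Nat.div_mul_le_self _ _
  have hk2 : t < (k + 1) * (2 * n) := by
    rw [hk]; exact (Nat.div_lt_iff_lt_mul (by omega)).1 (Nat.lt_succ_self _)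
  have hk1' : (k : ℤ) * (2 * n) ≤ t := by exact_mod_cast hk1
  have hkt : k ≤ t := hk ▸ Nat.div_le_self _ _
  set lo : V d := fun j => if j = i then z i / n - 2 else z j / n - k with hlo
  set hi : V d := fun j => if j = i then (z i + l) / n + 2 else z j / n + k with hhi
  have hmono : z i / n ≤ (z i + l) / n := Int.ediv_le_ediv hn' (by omega)
  have hlh : ∀ j, lo j ≤ hi j := by
    intro j
    simp only [hlo, hhi]
    split_ifs <;> omega
  have hi' : lo i < hi i := by simp only [hlo, hhi, if_true]; omega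
  have hU : ∀ a ∈ rect lo hi, (box ((n : ℤ) • a) (3 * n + 1) : Set (V d)) ⊆ col z i l t := by
    intro a ha u hu
    rw [Finset.mem_coe, mem_box] at hu
    have gen : ∀ j, n * lo j - (3 * n + 1) ≤ u j ∧ u j ≤ n * hi j + (3 * n + 1) := by
      intro j
      have e1 := abs_le.1 (hu j)
      simp only [Pi.smul_apply, smul_eq_mul] at e1
      have e3 := mul_le_mul_of_nonneg_left (ha j).1 hn'.le
      have e4 := mul_le_mul_of_nonneg_left (ha j).2 hn'.le
      push_cast at e1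
      constructor <;> omega
    refine ⟨?_, ?_, fun j hj => ?_⟩
    · have e1 := (gen i).1
      simp only [hlo, if_true, mul_sub] at e1
      have e2 := PIdet_nhi hn' (z i)
      omega
    · have e1 := (gen i).2
      simp only [hhi, if_true, mul_add] at e1
      have e2 := PIdet_nlo hn' (z i + l)
      omega
    · have e1 := gen j
      simp only [hlo, hhi, if_neg hj, mul_sub, mul_add] at e1
      have e2 := PIdet_nhi hn' (z j)
      have e3 := PIdet_nlo hn' (z j)
      have e4 : 2 * ((n : ℤ) * k) ≤ t := by linarith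
      rw [abs_le]; constructor <;> omega
  rcases cross_or_cut hlh i hi' (coarse n (O \ Z)) with ⟨a, ha, b, hb, hai, hbi, hab⟩ |
    ⟨T, hT, hs, hdis, hcard⟩
  · have hga : GoodN n ((n : ℤ) • a) (O \ Z) := by
      rcases Relation.ReflTransGen.cases_head hab with h' | ⟨c, hc, -⟩
      · exfalso; rw [h'] at hai; omega
      · exact PIdet_good_of_adj hc
    obtain ⟨hgb, hj⟩ := PIdet_join hU ha hga hab
    obtain ⟨y, hy, harm⟩ := hga.1
    obtain ⟨y', hy', harm'⟩ := hgb.1
    refine ⟨y, hU a ha (Finset.mem_coe.2 (box_mono _ (by omega) hy)), y',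
      hU b hb (Finset.mem_coe.2 (box_mono _ (by omega) hy')), ?_, ?_,
      hj y y' (PIdet_nr_of_hub (by rw [nd_self]; omega) hy harm)
        (PIdet_nr_of_hub (by rw [nd_self]; omega) hy' harm')⟩
    · have e1 := abs_le.1 (mem_box.1 hy i)
      simp only [Pi.smul_apply, smul_eq_mul, hai, hlo, if_true, mul_sub] at e1
      have e3 := PIdet_nlo hn' (z i)
      omega
    · have e1 := abs_le.1 (mem_box.1 hy' i)
      simp only [Pi.smul_apply, smul_eq_mul, hbi, hhi, if_true, mul_add] at e1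
      have e3 := PIdet_nhi hn' (z i + l)
      omega
  · exfalso
    have hrect : rect lo hi ⊆ (box (fun j => x j / n) (R + 8 * t) : Set (V d)) := by
      intro a ha
      rw [Finset.mem_coe, mem_box]
      intro j
      have e1 := abs_le.1 (mem_box.1 hz j)
      have e2 := ha j
      have e3 : (R : ℤ) ≤ (R : ℤ) * n := le_mul_of_one_le_right (by positivity) hn1
      have e5 := PIdet_dle hn' (a := x j) (b := z j) (r := (R : ℤ)) (by omega)
      by_cases hj : j = i
      · subst hj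
        have e4 := PIdet_dle hn' (a := z j + l) (b := x j) (r := (R : ℤ)) (by omega)
        simp only [hlo, hhi, if_true] at e2
        rw [abs_le]; push_cast; constructor <;> omega
      · have e4 := PIdet_dle hn' (a := z j) (b := x j) (r := (R : ℤ)) (by omega)
        simp only [hlo, hhi, if_neg hj] at e2
        rw [abs_le]; push_cast; constructor <;> omega
    have hprod : ∏ j ∈ univ.erase i, (hi j - lo j + 1) = ((2 * k + 1 : ℕ) : ℤ) ^ (d - 1) := by
      rw [Finset.prod_congr rfl (g := fun _ => ((2 * k + 1 : ℕ) : ℤ)), Finset.prod_const,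
        Finset.card_erase_of_mem (Finset.mem_univ _), Finset.card_univ, Fintype.card_fin]
      intro j hj
      have hj' := Finset.ne_of_mem_erase hj
      simp only [hlo, hhi, if_neg hj']
      push_cast; ring
    rw [hprod] at hcard
    have hcard' : (2 * k + 1) ^ (d - 1) ≤ T.card := by exact_mod_cast hcard
    have hτ : t / (4 * n) ≤ T.card := by
      have e1 : t / (4 * n) ≤ k := hk ▸ Nat.div_le_div_left (by omega) (by omega)
      have e2 : 2 * k + 1 ≤ (2 * k + 1) ^ (d - 1) := Nat.le_self_pow (by omega) _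
      omega
    have h1 := h T (hT.trans (PIdet_ins_mono hrect)) hs hτ
    have h2 := PIdet_spoil hn Z T hdis
    have h3 : t ^ (d - 1) ≤ (2 * k + 1) ^ (d - 1) * (2 * n) ^ (d - 1) := by
      rw [← mul_pow]
      exact Nat.pow_le_pow_left (by nlinarith) _
    have h4 : t ^ (d - 1) ≤ 2 * (Z.card * (13 ^ d * d)) * (2 * n) ^ (d - 1) :=
      h3.trans (Nat.mul_le_mul_right _ (by omega))
    have h5 : (t : ℝ) ^ (d - 1) ≤ 2 * (Z.card * (13 ^ d * d)) * (2 * n) ^ (d - 1) := by
      exact_mod_cast h4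
    have hd0 : (0 : ℝ) < d := by exact_mod_cast (by omega : 0 < d)
    have hn0 : (0 : ℝ) < n := by exact_mod_cast hn
    have ht0 : (0 : ℝ) < t := by exact_mod_cast (by omega : 0 < t)
    have hD : (0 : ℝ) < 4 * (13 ^ d * d) * (2 * n) ^ (d - 1) := by positivity
    rw [one_div, inv_mul_eq_div, le_div_iff₀ hD] at hZ
    have h6 : (0 : ℝ) < (t : ℝ) ^ (d - 1) := by positivity
    nlinarith

theorem PI_of_half (hd : 2 ≤ d) (n : ℕ) (hn : 1 ≤ n) : ∃ (c : ℝ) (t0 : ℕ), 0 < c ∧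
    ∀ t ≥ t0, ∀ (x : V d) (R : ℕ) (O : Set (E d)),
      Half (fun j => x j / n) (R + 8 * t) (t / (4 * n)) (coarse n O) → PI c x R t O := by
  have hd0 : (0 : ℝ) < d := by exact_mod_cast (by omega : 0 < d)
  have hn0 : (0 : ℝ) < n := by exact_mod_cast hn
  exact ⟨1 / (4 * (13 ^ d * d) * (2 * n) ^ (d - 1)), 10 * n, by positivity, fun t ht x R O h =>
    ⟨fun z hz => PIdet_uq hd hn ht h hz, fun z hz i l _ hl => PIdet_cross hd hn ht h hz i l hl⟩⟩

/-! ### Linking to the infinite cluster -/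

lemma PIdet_mem_box_of_col {z y z' : V d} {i : Fin d} {l t : ℕ} (hy : y ∈ col z i l t)
    (h1 : ∀ j, j ≠ i → z' j = z j) (h2 : |y i - z' i| ≤ t) : y ∈ box z' t := by
  rw [mem_box]
  intro k
  by_cases hk : k = i
  · rw [hk]; exact h2
  · rw [h1 k hk]; exact hy.2.2 k hk

lemma PIdet_not_mem_box {y y' : V d} {i : Fin d} {t : ℕ} (h : (t : ℤ) < |y' i - y i|) :
    y' ∉ box y t := fun hy => absurd (mem_box.1 hy i) (not_le.2 h)

lemma PIdet_exists_loc {c : ℝ} (hc : 0 ≤ c) {x : V d} {R t : ℕ} (hR : 2 * t + 2 ≤ R)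
    {O : Set (E d)} (h : PI c x R t O) (i : Fin d) {z : V d} (hz : z ∈ box x R) :
    ∃ y ∈ box z t, Loc O t y := by
  have hZ : (((∅ : Finset (E d)).card : ℕ) : ℝ) ≤ c * (t : ℝ) ^ (d - 1) := by
    rw [Finset.card_empty, Nat.cast_zero]; positivity
  have hsub : ∀ U : Set (E d), (O \ ((∅ : Finset (E d)) : Set (E d))) ∩ U ⊆ O :=
    fun U e he => he.1.1
  by_cases hl : z i + (2 * t + 2 : ℕ) ≤ x i + R
  · obtain ⟨y, hy, y', hy', h1, h2, h3⟩ := h.2 z hz i (2 * t + 2) le_rfl hl ∅ hZ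
    have := hy.1
    push_cast at h2
    exact ⟨y, PIdet_mem_box_of_col hy (fun _ _ => rfl) (by rw [abs_le]; constructor <;> omega),
      loc_of_far (comp_mono (hsub _) _ h3)
        (PIdet_not_mem_box (i := i) (lt_abs.2 (Or.inl (by omega))))⟩
  · have hzi := abs_le.1 (mem_box.1 hz i)
    have hz' : Function.update z i (z i - (2 * t + 2)) ∈ box x R := by
      rw [mem_box]
      intro k
      by_cases hk : k = i
      · subst hk
        rw [Function.update_self, abs_le]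
        push_cast at hl
        constructor <;> omega
      · rw [Function.update_of_ne hk]; exact mem_box.1 hz k
    obtain ⟨y, hy, y', hy', h1, h2, h3⟩ := h.2 _ hz' i (2 * t + 2) le_rfl
      (by rw [Function.update_self]; push_cast; omega) ∅ hZ
    have e1 := hy'.2.1
    rw [Function.update_self] at h1 h2 e1
    push_cast at h2 e1
    exact ⟨y', PIdet_mem_box_of_col hy' (fun j hj => (Function.update_of_ne hj _ _).symm)
      (by rw [abs_le]; constructor <;> omega),
      loc_of_far (comp_symm (comp_mono (hsub _) _ h3))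
        (PIdet_not_mem_box (i := i) (lt_abs.2 (Or.inr (by omega))))⟩

/-- Long paths belong to the infinite cluster. -/
theorem link {c : ℝ} (hc : 0 ≤ c) {x : V d} {R t : ℕ} (ht : 1 ≤ t) (hR : 2 * t + 2 ≤ R)
    {O : Set (E d)} (h : PI c x R t O) (hne : ∃ y ∈ Cl O, y ∈ box x R) :
    (∀ z ∈ box x R, ∀ y ∈ box z (4 * t), Loc O t y → y ∈ Cl O) ∧
      PIC c (GC O) (Cl O) x R t := by
  obtain ⟨y0, hy0, hy0'⟩ := hne
  have step : ∀ z ∈ box x R, (∃ y ∈ box z t, y ∈ Cl O) → ∀ y ∈ box z (4 * t), Loc O t y →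
      y ∈ Cl O := by
    rintro z hz ⟨w, hw, hw'⟩ y hy hl
    exact mem_Cl_of_comp hw' (comp_mono Set.inter_subset_left _
      (h.1 z hz w (box_mono _ (by omega) hw) y hy (loc_of_mem_Cl hw' t) hl))
  have linked : ∀ z ∈ box x R, ∃ y ∈ box z t, y ∈ Cl O := by
    intro z hz
    have hp := comp_ins_box hy0' hz
    clear hz
    induction hp with
    | refl => exact ⟨y0, mem_box_self _ _, hy0⟩
    | @tail a b _ hab ih =>
      have hnd := nd_of_adj hab
      have hmem : a ∈ box x R ∧ b ∈ box x R ∧ Nonempty (Fin d) := by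
        obtain ⟨i, h' | h'⟩ := hab
        · exact ⟨h'.2.1, h'.1 ▸ h'.2.2, ⟨i⟩⟩
        · exact ⟨h'.1 ▸ h'.2.2, h'.2.1, ⟨i⟩⟩
      obtain ⟨ha, hb, ⟨i⟩⟩ := hmem
      obtain ⟨y, hy, hl⟩ := PIdet_exists_loc hc hR h i hb
      exact ⟨y, hy, step a ha ih y (box_subset (by omega) hy) hl⟩
  have main : ∀ z ∈ box x R, ∀ y ∈ box z (4 * t), Loc O t y → y ∈ Cl O :=
    fun z hz => step z hz (linked z hz)
  refine ⟨main, fun z hz y hy y' hy' h1 h2 => comp_GC h1
    (h.1 z hz y hy y' hy' (loc_of_mem_Cl h1 t) (loc_of_mem_Cl h2 t)),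
    fun z hz i l hl hl' Z hZ => ?_⟩
  obtain ⟨y, hy, y', hy', h1, h2, h3⟩ := h.2 z hz i l hl hl' Z hZ
  refine ⟨y, hy, y', hy', h1, h2, ?_⟩
  have e1 := hy.1
  have hb : y ∈ box z t :=
    PIdet_mem_box_of_col hy (fun _ _ => rfl) (by rw [abs_le]; constructor <;> omega)
  have hC : y ∈ Cl O := main z hz y (box_mono _ (by omega) hb)
    (loc_of_far (comp_mono (fun e he => he.1.1) _ h3)
      (PIdet_not_mem_box (i := i) (lt_abs.2 (Or.inl (by omega)))))
  have e2 : ∀ W : Set (E d), (W \ Z) ∩ ins (col z i l t) =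
      W ∩ ((Z : Set (E d))ᶜ ∩ ins (col z i l t)) := by
    intro W; ext e; simp only [Set.mem_inter_iff, Set.mem_sdiff, Set.mem_compl_iff]; tauto
  rw [e2] at h3 ⊢
  exact comp_GC hC h3

end Pool.Agent.P.MP_b4265e_pr.R
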