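import Pool.Agent.P.MP_b4265e_pr.R.Path

/-!
Density and Poincare inequalities from crossings and local uniqueness.
-/

namespace Pool.Agent.P.MP_b4265e_pr.R

open Finset
open scoped Classical

namespace PoincAux

variable {d : ℕ}

/-- Average over the `i`-th coordinate. -/
noncomputable def Ai (z : V d) (r : ℕ) (i : Fin d) (f : V d → ℝ) (a : V d) : ℝ :=
  (∑ s ∈ Icc (z i - r) (z i + r), f (Function.update a i s)) / (2 * r + 1)

lemma card_Icc' (p : ℤ) (r : ℕ) : (Icc (p - r) (p + r)).card = 2 * r + 1 := by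
  rw [Int.card_Icc]; omega

lemma update_mem_box {z a : V d} {r : ℕ} (ha : a ∈ box z r) (i : Fin d) {s : ℤ}
    (hs : s ∈ Icc (z i - r) (z i + r)) : Function.update a i s ∈ box z r := by
  rw [mem_box] at ha ⊢
  intro k
  by_cases h : k = i
  · subst h
    rw [Function.update_self, abs_le]
    have := mem_Icc.1 hs
    omega
  · rw [Function.update_of_ne h]; exact ha k

lemma mem_Icc_of_box {z a : V d} {r : ℕ} (ha : a ∈ box z r) (i : Fin d) :
    a i ∈ Icc (z i - r) (z i + r) := by
  have := abs_le.1 (mem_box.1 ha i)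
  rw [mem_Icc]; omega

lemma sum_update (z : V d) (r : ℕ) (i : Fin d) (F : V d → ℝ) :
    ∑ a ∈ box z r, ∑ s ∈ Icc (z i - r) (z i + r), F (Function.update a i s) =
      (2 * r + 1) * ∑ a ∈ box z r, F a := by
  have h : ∑ a ∈ box z r, ∑ s ∈ Icc (z i - r) (z i + r), F (Function.update a i s) =
      ∑ a ∈ box z r, ∑ _s ∈ Icc (z i - r) (z i + r), F a := by
    rw [← sum_product', ← sum_product']
    refine sum_nbij' (fun q => (Function.update q.1 i q.2, q.1 i))
      (fun q => (Function.update q.1 i q.2, q.1 i)) (fun q hq => ?_) (fun q hq => ?_)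
      (fun q _ => ?_) (fun q _ => ?_) (fun q _ => rfl)
    · obtain ⟨h1, h2⟩ := mem_product.1 hq
      exact mem_product.2 ⟨update_mem_box h1 i h2, mem_Icc_of_box h1 i⟩
    · obtain ⟨h1, h2⟩ := mem_product.1 hq
      exact mem_product.2 ⟨update_mem_box h1 i h2, mem_Icc_of_box h1 i⟩
    · simp
    · simp
  rw [h, mul_sum]
  refine sum_congr rfl fun a _ => ?_
  rw [sum_const, card_Icc', nsmul_eq_mul]; push_cast; ring

lemma sum_abs_Ai_le (z : V d) (r : ℕ) (i : Fin d) (f : V d → ℝ) :
    ∑ a ∈ box z r, |Ai z r i f a| ≤ ∑ a ∈ box z r, |f a| := by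
  have h0 : (0 : ℝ) < 2 * r + 1 := by positivity
  calc ∑ a ∈ box z r, |Ai z r i f a|
      ≤ ∑ a ∈ box z r, (∑ s ∈ Icc (z i - r) (z i + r), |f (Function.update a i s)|) /
          (2 * r + 1) := sum_le_sum fun a _ => by
        rw [Ai, abs_div, abs_of_pos h0]
        exact div_le_div_of_nonneg_right (abs_sum_le_sum_abs _ _) h0.le
    _ = _ := by
        rw [← sum_div, sum_update z r i fun a => |f a|]; field_simp

lemma l2_Ai_le (z : V d) (r : ℕ) (i : Fin d) (f : V d → ℝ) :
    l2 (box z r) (Ai z r i f) ≤ l2 (box z r) f := by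
  have h0 : (0 : ℝ) < 2 * r + 1 := by positivity
  refine l2_le_of_sq_le (l2_nonneg _ _) ?_
  rw [l2_sq]
  calc ∑ a ∈ box z r, Ai z r i f a ^ 2
      ≤ ∑ a ∈ box z r, (∑ s ∈ Icc (z i - r) (z i + r), f (Function.update a i s) ^ 2) /
          (2 * r + 1) := sum_le_sum fun a _ => by
        have h := sq_sum_le_card_mul_sum_sq (s := Icc (z i - r) (z i + r))
          (f := fun s => f (Function.update a i s))
        rw [card_Icc'] at h
        push_cast at h
        rw [Ai, div_pow, div_le_div_iff₀ (by positivity) h0]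
        nlinarith
    _ = _ := by
        rw [← sum_div, sum_update z r i fun a => f a ^ 2]; field_simp

/-- The properties of a norm on the functions on a box that are used below. -/
structure IsN (z : V d) (r : ℕ) (N : (V d → ℝ) → ℝ) : Prop where
  add : ∀ f g, N (fun a => f a + g a) ≤ N f + N g
  mono : ∀ f g, (∀ a ∈ box z r, |f a| ≤ |g a|) → N f ≤ N g
  avg : ∀ i f, N (Ai z r i f) ≤ N f
  mul : ∀ (k : ℝ) f, N (fun a => k * f a) = |k| * N f

lemma isN_one (z : V d) (r : ℕ) : IsN z r fun f => ∑ a ∈ box z r, |f a| where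
  add f g := by rw [← sum_add_distrib]; exact sum_le_sum fun a _ => abs_add_le _ _
  mono f g h := sum_le_sum h
  avg := sum_abs_Ai_le z r
  mul k f := by rw [mul_sum]; exact sum_congr rfl fun a _ => abs_mul _ _

lemma isN_two (z : V d) (r : ℕ) : IsN z r (l2 (box z r)) where
  add := l2_add_le _
  mono _ _ h := l2_le_of_abs_le h
  avg := l2_Ai_le z r
  mul := l2_mul _

/-- Tensorisation of the Poincare inequality. -/
lemma IsN.tensor {z : V d} {r : ℕ} {N : (V d → ℝ) → ℝ} (h : IsN z r N) (f : V d → ℝ) :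
    ∃ c : ℝ, N (fun a => f a - c) ≤ ∑ i, N fun a => f a - Ai z r i f a := by
  have key : ∀ S : Finset (Fin d), ∃ g : V d → ℝ,
      N (fun a => f a - g a) ≤ ∑ i ∈ S, N (fun a => f a - Ai z r i f a) ∧
      ∀ i ∈ S, ∀ a s, g (Function.update a i s) = g a := by
    intro S
    induction S using Finset.induction_on with
    | empty =>
      refine ⟨f, ?_, by simp⟩
      have := h.mul 0 f
      simp only [zero_mul, abs_zero] at this
      simp [this]
    | insert i S hi ih =>
      obtain ⟨g, hg1, hg2⟩ := ih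
      refine ⟨Ai z r i g, ?_, fun j hj a s => ?_⟩
      · rw [sum_insert hi]
        have e : (fun a => f a - Ai z r i g a) =
            fun a => (f a - Ai z r i f a) + Ai z r i (fun b => f b - g b) a := by
          funext a
          simp only [Ai, sum_sub_distrib]; ring
        rw [e]
        exact (h.add _ _).trans (add_le_add le_rfl ((h.avg _ _).trans hg1))
      · by_cases hji : j = i
        · subst hji; simp [Ai]
        · have hj' : j ∈ S := (mem_insert.1 hj).resolve_left hji
          simp only [Ai]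
          congr 1
          exact sum_congr rfl fun u _ => by rw [Function.update_comm hji, hg2 j hj']
  obtain ⟨g, hg1, hg2⟩ := key univ
  have hc : ∀ T : Finset (Fin d), ∀ a : V d, (∀ j, j ∉ T → a j = z j) → g a = g z := by
    intro T
    induction T using Finset.induction_on with
    | empty => intro a ha; congr 1; funext j; exact ha j (by simp)
    | insert i T hi ih =>
      intro a ha
      rw [← hg2 i (mem_univ _) a (z i)]
      refine ih _ fun j hj => ?_
      by_cases hji : j = i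
      · subst hji; simp
      · rw [Function.update_of_ne hji]; exact ha j (by simp [hji, hj])
  refine ⟨g z, ?_⟩
  have : (fun a => f a - g z) = fun a => f a - g a :=
    funext fun a => by rw [hc univ a (by simp)]
  rw [this]; exact hg1

/-- Counting points near a line. -/
lemma card_tube_le {S : Finset (V d)} {i : Fin d} {q : ℤ} {p : V d} {ρ t : ℕ}
    (h : ∀ a ∈ S, |a i - q| ≤ ρ ∧ ∀ j, j ≠ i → |a j - p j| ≤ t) :
    (S.card : ℝ) ≤ (2 * ρ + 1) * (2 * t + 1) ^ (d - 1) := by
  have h1 : S ⊆ Fintype.piFinset fun j =>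
      if j = i then Icc (q - ρ) (q + ρ) else Icc (p j - t) (p j + t) := fun a ha => by
    rw [Fintype.mem_piFinset]
    intro j
    obtain ⟨h1, h2⟩ := h a ha
    split_ifs with hj
    · subst hj; have := abs_le.1 h1; rw [mem_Icc]; omega
    · have := abs_le.1 (h2 j hj); rw [mem_Icc]; omega
  have h2 := card_le_card h1
  rw [Fintype.card_piFinset, ← mul_prod_erase univ _ (mem_univ i), if_pos rfl, card_Icc',
    prod_congr rfl (g := fun _ => 2 * t + 1) (fun j hj => by
      rw [if_neg (ne_of_mem_erase hj), card_Icc']), prod_const, card_erase_of_mem (mem_univ i),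
    card_univ, Fintype.card_fin] at h2
  exact_mod_cast h2

lemma ends {G : Set (E d)} {C : Set (V d)} (hG : G ⊆ ins C) {U : Set (E d)} (hU : U ⊆ G)
    {a : V d} {i : Fin d} {l t : ℕ} (hl : 1 ≤ l) {y y' : V d} (hy : y ∈ col a i l t)
    (hy' : y' ∈ col a i l t) (h1 : y i ≤ a i) (h2 : a i + l ≤ y' i) (h : y' ∈ comp U y) :
    (y ∈ box a t ∧ y ∈ C) ∧ y' ∈ box (Function.update a i (a i + l)) t ∧ y' ∈ C := by
  have hne : y' ≠ y := by rintro rfl; omega
  have hC := mem_of_comp_ne (hU.trans hG) h hne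
  refine ⟨⟨mem_box.2 fun k => ?_, hC⟩, mem_box.2 fun k => ?_, mem_of_comp (hU.trans hG) hC h⟩
  · by_cases hk : k = i
    · subst hk; have := hy.1; rw [abs_le]; omega
    · exact hy.2.2 k hk
  · by_cases hk : k = i
    · subst hk; have := hy'.2.1; rw [Function.update_self, abs_le]; omega
    · rw [Function.update_of_ne hk]; exact hy'.2.2 k hk

/-- Robust crossings and the co-area inequality. -/
lemma cross_coarea {G : Set (E d)} {C : Set (V d)} (hG : G ⊆ ins C) {c : ℝ} (hc : 0 < c)
    {a : V d} {i : Fin d} {l t : ℕ} (hl : 1 ≤ l) (hX : Cross c a i l t G) {I : Finset (E d)}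
    (hI : ins (col a i l t) ⊆ I) (v : V d → ℝ) {α β : ℝ}
    (hα : ∀ y ∈ box a t, y ∈ C → y i ≤ a i → v y ≤ α)
    (hβ : ∀ y ∈ box (Function.update a i (a i + l)) t, y ∈ C → a i + l ≤ y i → β ≤ v y) :
    c * (t : ℝ) ^ (d - 1) * (β - α) ≤ ∑ e ∈ cap G I, |grad v e| := by
  rcases le_or_gt β α with hαβ | hαβ
  · exact (mul_nonpos_of_nonneg_of_nonpos (by positivity) (by linarith)).trans
      (sum_nonneg fun _ _ => abs_nonneg _)
  refine coarea (cap G I) (fun e => v e.1) (fun e => v (e.1 + ee e.2)) hαβ.le fun τ h1 h2 => ?_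
  by_contra hcon
  obtain ⟨y, hy, y', hy', b1, b2, b3⟩ := hX _ (not_le.1 hcon).le
  obtain ⟨⟨c1, c2⟩, c3, c4⟩ := ends hG (fun e he => he.1.1) hl hy hy' b1 b2 b3
  have d1 := hα y c1 c2 b1
  have d2 := hβ y' c3 c4 b2
  obtain ⟨p, q, -, hp, hq, j, hj⟩ := exists_bd_of_comp (S := {w | v w ≤ τ}) b3
    (show v y ≤ τ by linarith) (show ¬ v y' ≤ τ by linarith)
  have hp' : v p ≤ τ := hp
  have hq' : τ < v q := not_le.1 hq
  rcases hj with ⟨rfl, he⟩ | ⟨rfl, he⟩
  · refine he.1.2 (mem_coe.2 (mem_filter.2 ⟨mem_cap.2 ⟨hI he.2, he.1.1⟩, ?_, ?_⟩))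
    · exact (min_le_left _ _).trans hp'
    · exact hq'.trans_le (le_max_right _ _)
  · refine he.1.2 (mem_coe.2 (mem_filter.2 ⟨mem_cap.2 ⟨hI he.2, he.1.1⟩, ?_, ?_⟩))
    · exact (min_le_right _ _).trans hp'
    · exact hq'.trans_le (le_max_left _ _)

/-- A point of `C` near `a`. -/
noncomputable def rep (C : Set (V d)) (t : ℕ) (a : V d) : V d :=
  if h : ∃ y ∈ box a t, y ∈ C then h.choose else a

/-- Local total variation. -/
noncomputable def osc (G : Set (E d)) (t : ℕ) (v : V d → ℝ) (a : V d) : ℝ :=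
  ∑ e ∈ cap G (boxE a (8 * t)), |grad v e|

/-- The edges near the line through `a` in direction `i`. -/
noncomputable def tube (z : V d) (r t : ℕ) (i : Fin d) (a : V d) : Finset (E d) :=
  (boxE z (2 * r)).filter fun e => ∀ j, j ≠ i → |e.1 j - a j| ≤ t

/-- Total variation near a line. -/
noncomputable def Ln (G : Set (E d)) (z : V d) (r t : ℕ) (v : V d → ℝ) (i : Fin d) (a : V d) : ℝ :=
  ∑ e ∈ cap G (tube z r t i a), |grad v e|

lemma osc_nonneg (G : Set (E d)) (t : ℕ) (v : V d → ℝ) (a : V d) : 0 ≤ osc G t v a :=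
  sum_nonneg fun _ _ => abs_nonneg _

lemma Ln_nonneg (G : Set (E d)) (z : V d) (r t : ℕ) (v : V d → ℝ) (i : Fin d) (a : V d) :
    0 ≤ Ln G z r t v i a := sum_nonneg fun _ _ => abs_nonneg _

lemma tube_update (z : V d) (r t : ℕ) (i : Fin d) (a : V d) (s : ℤ) :
    tube z r t i (Function.update a i s) = tube z r t i a := by
  refine filter_congr fun e _ => forall_congr' fun j => forall_congr' fun hj => ?_
  rw [Function.update_of_ne hj]

lemma abs_grad_neg (v : V d → ℝ) (e : E d) : |grad (fun y => - v y) e| = |grad v e| := by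
  rw [← abs_neg]; congr 1; simp only [grad]; ring

/-- The standing assumptions. -/
structure St (c : ℝ) (G : Set (E d)) (C : Set (V d)) (x : V d) (R t : ℕ) (z : V d) (r : ℕ) :
    Prop where
  hd : 2 ≤ d
  hc : 0 < c
  hG : G ⊆ ins C
  ht : 1 ≤ t
  pic : PIC c G C x R t
  hr : (16 * t + 1) ^ d ≤ r
  hz : nd x z + 2 * r ≤ R

section
variable {c : ℝ} {G : Set (E d)} {C : Set (V d)} {x z : V d} {R t r : ℕ}
  (h : St c G C x R t z r)
include h

lemma St.big : 16 * t + 1 ≤ r :=
  (Nat.le_self_pow (by have := h.hd; omega) _).trans h.hr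

lemma St.mem {a : V d} (ha : a ∈ box z r) : a ∈ box x R :=
  box_subset (by have := h.hz; omega) ha

lemma St.cross {a : V d} (ha : a ∈ box z r) (i : Fin d) {l : ℕ} (h1 : 2 * t + 2 ≤ l)
    (h2 : a i + l ≤ z i + 2 * r) : Cross c a i l t G := by
  refine h.pic.2 a (h.mem ha) i l h1 ?_
  have a1 := abs_le.1 (abs_le_nd x z i)
  have a2 : ((nd x z + 2 * r : ℕ) : ℤ) ≤ R := by exact_mod_cast h.hz
  push_cast at a2
  omega

lemma St.rep_spec {a : V d} (ha : a ∈ box z r) : rep C t a ∈ box a t ∧ rep C t a ∈ C := by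
  have hex : ∃ y ∈ box a t, y ∈ C := by
    have hb := h.big
    have ht := h.ht
    set i : Fin d := ⟨0, by have := h.hd; omega⟩
    have a1 := abs_le.1 (mem_box.1 ha i)
    obtain ⟨y, hy, y', hy', b1, b2, b3⟩ := h.cross ha i (l := 2 * t + 2) le_rfl
      (by push_cast; omega) ∅ (by have := h.hc; simp only [card_empty, Nat.cast_zero]; positivity)
    exact ⟨y, (ends h.hG (fun e he => he.1.1) (by omega) hy hy' b1 b2 b3).1⟩
  rw [rep, dif_pos hex]
  exact hex.choose_spec

lemma St.abs_sub_le {a y y' : V d} (ha : a ∈ box z r) (hy : y ∈ box a (4 * t))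
    (hy' : y' ∈ box a (4 * t)) (hC : y ∈ C) (hC' : y' ∈ C) (v : V d → ℝ) :
    |v y' - v y| ≤ osc G t v a := by
  refine (abs_sub_le_of_comp (boxE a (8 * t)) (fun e he => ins_box_subset _ _ he.2)
    (h.pic.1 a (h.mem ha) y hy y' hy' hC hC') v).trans ?_
  exact sum_le_sum_of_subset_of_nonneg
    (fun e he => mem_cap.2 ⟨(mem_cap.1 he).1, (mem_cap.1 he).2.1⟩) fun _ _ _ => abs_nonneg _

lemma St.near {a y : V d} (ha : a ∈ box z r) (hy : y ∈ box a t) (hC : y ∈ C) (v : V d → ℝ) :
    |v y - v (rep C t a)| ≤ osc G t v a :=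
  h.abs_sub_le ha (box_mono _ (by omega) (h.rep_spec ha).1) (box_mono _ (by omega) hy)
    (h.rep_spec ha).2 hC v

lemma St.line_up {a : V d} (ha : a ∈ box z r) (i : Fin d) (l : ℕ)
    (ha' : Function.update a i (a i + l) ∈ box z r) (v : V d → ℝ) :
    |v (rep C t a) - v (rep C t (Function.update a i (a i + l)))| ≤
      osc G t v a + osc G t v (Function.update a i (a i + l)) +
        (c * (t : ℝ) ^ (d - 1))⁻¹ * Ln G z r t v i a := by
  have hc := h.hc
  have ht := h.ht
  have hb := h.big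
  have hN : 0 < c * (t : ℝ) ^ (d - 1) := by
    have : (0 : ℝ) < t := by exact_mod_cast ht
    positivity
  set a' := Function.update a i (a i + l) with ha'def
  have o1 := osc_nonneg G t v a'
  have o2 : 0 ≤ (c * (t : ℝ) ^ (d - 1))⁻¹ * Ln G z r t v i a :=
    mul_nonneg (inv_nonneg.2 hN.le) (Ln_nonneg _ _ _ _ _ _ _)
  rcases le_or_gt l (3 * t) with hl | hl
  · have h1 : rep C t a' ∈ box a (4 * t) := by
      refine box_subset (r := t) (x := a') ?_ (h.rep_spec ha').1
      have : a' ∈ box a (3 * t) := mem_box.2 fun k => by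
        by_cases hk : k = i
        · subst hk; rw [ha'def, Function.update_self, abs_le]; push_cast; omega
        · rw [ha'def, Function.update_of_ne hk]; simp
      have := mem_box_nd.1 this
      omega
    have := h.abs_sub_le ha h1 (box_mono _ (by omega) (h.rep_spec ha).1) (h.rep_spec ha').2
      (h.rep_spec ha).2 v
    linarith
  · have a1 := abs_le.1 (mem_box.1 ha i)
    have a2 := abs_le.1 (mem_box.1 ha' i)
    rw [ha'def, Function.update_self] at a2
    have hX := h.cross ha i (l := l) (by omega) (by omega)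
    have hI : ins (col a i l t) ⊆ (tube z r t i a : Set (E d)) := fun e he => by
      obtain ⟨b1, b2, b3⟩ := he.1
      refine mem_coe.2 (mem_filter.2 ⟨mem_boxE.2 fun k => ?_, b3⟩)
      by_cases hk : k = i
      · subst hk; rw [abs_le]; push_cast; omega
      · have c1 := abs_le.1 (b3 k hk)
        have c2 := abs_le.1 (mem_box.1 ha k)
        rw [abs_le]; push_cast; omega
    have k1 := cross_coarea h.hG hc (by omega) hX hI v
      (α := v (rep C t a) + osc G t v a) (β := v (rep C t a') - osc G t v a')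
      (fun y hy hC _ => by have := abs_le.1 (h.near ha hy hC v); linarith)
      (fun y hy hC _ => by have := abs_le.1 (h.near ha' hy hC v); linarith)
    have k2 := cross_coarea h.hG hc (by omega) hX hI (fun y => - v y)
      (α := - v (rep C t a) + osc G t v a) (β := - v (rep C t a') - osc G t v a')
      (fun y hy hC _ => by have := abs_le.1 (h.near ha hy hC v); linarith)
      (fun y hy hC _ => by have := abs_le.1 (h.near ha' hy hC v); linarith)
    simp only [abs_grad_neg] at k2
    rw [← le_inv_mul_iff₀ hN] at k1 k2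
    rw [abs_le, Ln]
    constructor <;> linarith

lemma St.line {a : V d} (ha : a ∈ box z r) (i : Fin d) {s : ℤ}
    (hs : s ∈ Icc (z i - r) (z i + r)) (v : V d → ℝ) :
    |v (rep C t a) - v (rep C t (Function.update a i s))| ≤
      osc G t v a + osc G t v (Function.update a i s) +
        (c * (t : ℝ) ^ (d - 1))⁻¹ * Ln G z r t v i a := by
  have ha' := update_mem_box ha i hs
  rcases le_total (a i) s with h1 | h1
  · obtain ⟨l, rfl⟩ := Int.le.dest h1
    exact h.line_up ha i l ha' v
  · obtain ⟨l, hl⟩ := Int.le.dest h1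
    have e : Function.update (Function.update a i s) i (Function.update a i s i + l) = a := by
      simp [hl]
    have := h.line_up ha' i l (by rwa [e]) v
    rw [e, Ln, tube_update, abs_sub_comm] at this
    rw [Ln]; linarith

/-- The Poincare inequality for an abstract norm. -/
lemma St.abstract {N : (V d → ℝ) → ℝ} (hN : IsN z r N) (v : V d → ℝ) :
    ∃ c0 : ℝ, N (fun a => if a ∈ C then v a - c0 else 0) ≤
      (2 * d + 1) * N (osc G t v) +
        (c * (t : ℝ) ^ (d - 1))⁻¹ * ∑ i, N (Ln G z r t v i) := by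
  have hκ : 0 ≤ (c * (t : ℝ) ^ (d - 1))⁻¹ := by have := h.hc; positivity
  have hl := fun a ha i s hs => h.line (a := a) ha i (s := s) hs v
  generalize (c * (t : ℝ) ^ (d - 1))⁻¹ = κ at hκ hl ⊢
  obtain ⟨c0, hc0⟩ := hN.tensor fun a => v (rep C t a)
  refine ⟨c0, ?_⟩
  have h0 : (0 : ℝ) < 2 * r + 1 := by positivity
  have h1 : ∀ i, N (fun a => v (rep C t a) - Ai z r i (fun a => v (rep C t a)) a) ≤
      2 * N (osc G t v) + κ * N (Ln G z r t v i) := fun i => by
    have e1 : N (fun a => v (rep C t a) - Ai z r i (fun a => v (rep C t a)) a) ≤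
        N fun a => (osc G t v a + Ai z r i (osc G t v) a) + κ * Ln G z r t v i a := by
      refine hN.mono _ _ fun a ha => le_trans ?_ (le_abs_self _)
      have e : v (rep C t a) - Ai z r i (fun a => v (rep C t a)) a =
          (∑ s ∈ Icc (z i - r) (z i + r),
            (v (rep C t a) - v (rep C t (Function.update a i s)))) / (2 * r + 1) := by
        rw [sum_sub_distrib, sum_const, card_Icc', nsmul_eq_mul, Ai]; push_cast; field_simp
      rw [e, abs_div, abs_of_pos h0, div_le_iff₀ h0]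
      refine (abs_sum_le_sum_abs _ _).trans ((sum_le_sum fun s hs => hl a ha i s hs).trans
        (le_of_eq ?_))
      rw [sum_add_distrib, sum_add_distrib, sum_const, sum_const, card_Icc', nsmul_eq_mul,
        nsmul_eq_mul, Ai]
      push_cast; field_simp
    have e2 := hN.add (fun a => osc G t v a + Ai z r i (osc G t v) a)
      (fun a => κ * Ln G z r t v i a)
    have e3 := hN.add (osc G t v) (Ai z r i (osc G t v))
    have e4 := hN.avg i (osc G t v)
    rw [hN.mul, abs_of_nonneg hκ] at e2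
    linarith
  have h2 : N (fun a => if a ∈ C then v a - c0 else 0) ≤
      N fun a => osc G t v a + |v (rep C t a) - c0| := by
    refine hN.mono _ _ fun a ha => le_trans ?_ (le_abs_self _)
    split_ifs with hC
    · have := h.near ha (mem_box_self a t) hC v
      have := abs_add_le (v a - v (rep C t a)) (v (rep C t a) - c0)
      rw [sub_add_sub_cancel] at this
      linarith
    · have := osc_nonneg G t v a
      rw [abs_zero]; positivity
  have h3 := hN.add (osc G t v) fun a => |v (rep C t a) - c0|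
  have h4 : N (fun a => |v (rep C t a) - c0|) ≤ N fun a => v (rep C t a) - c0 :=
    hN.mono _ _ fun a _ => (abs_abs _).le
  have h5 := hc0.trans (sum_le_sum fun i _ => h1 i)
  rw [sum_add_distrib, sum_const, card_univ, Fintype.card_fin, nsmul_eq_mul, ← mul_sum] at h5
  linarith

/-- The constant of the Poincare inequalities. -/
lemma St.final {N : (V d → ℝ) → ℝ} (hN : IsN z r N) (v : V d → ℝ) {S : ℝ}
    (h1 : N (osc G t v) ≤ d * r * S)
    (h2 : ∀ i, N (Ln G z r t v i) ≤ 4 * d * r * (3 * t) ^ (d - 1) * S) :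
    ∃ c0 : ℝ, N (fun a => if a ∈ C then v a - c0 else 0) ≤
      ((2 * d + 1) * d + 4 * d ^ 2 * 3 ^ (d - 1) / c) * r * S := by
  obtain ⟨c0, h0⟩ := h.abstract hN v
  refine ⟨c0, h0.trans ?_⟩
  have hc := h.hc
  have ht : (0 : ℝ) < t := by exact_mod_cast h.ht
  have h3 : ∑ i, N (Ln G z r t v i) ≤ d * (4 * d * r * (3 * t) ^ (d - 1) * S) := by
    refine (sum_le_sum fun i _ => h2 i).trans (le_of_eq ?_)
    rw [sum_const, card_univ, Fintype.card_fin, nsmul_eq_mul]
  refine (add_le_add (mul_le_mul_of_nonneg_left h1 (by positivity))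
    (mul_le_mul_of_nonneg_left h3 (by positivity))).trans (le_of_eq ?_)
  rw [mul_pow]; field_simp

lemma St.vol_le : vol d (8 * t) ≤ r := by
  have : (((16 * t + 1) ^ d : ℕ) : ℝ) ≤ r := by exact_mod_cast h.hr
  rw [vol]; push_cast at this ⊢
  refine le_trans (le_of_eq ?_) this
  congr 1; ring

lemma St.sum_loc {f : E d → ℝ} (hf : ∀ e, 0 ≤ f e) :
    ∑ a ∈ box z r, ∑ e ∈ cap G (boxE a (8 * t)), f e ≤ r * ∑ e ∈ cap G (boxE z (2 * r)), f e := by
  have hb := h.big
  refine (sum_sum_boxE_le G z r (8 * t) hf).trans (mul_le_mul h.vol_le ?_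
    (sum_nonneg fun e _ => hf e) (by positivity))
  exact sum_le_sum_of_subset_of_nonneg (cap_mono _ (boxE_mono _ (by omega))) fun e _ _ => hf e

lemma St.pow_le : (2 * (t : ℝ) + 1) ^ (d - 1) ≤ (3 * t) ^ (d - 1) := by
  have ht : (1 : ℝ) ≤ t := by exact_mod_cast h.ht
  exact pow_le_pow_left₀ (by positivity) (by linarith) _

lemma St.one_le : (1 : ℝ) ≤ r := by
  have := h.big
  exact_mod_cast (by omega : 1 ≤ r)

lemma St.sum_tube (i : Fin d) {f : E d → ℝ} (hf : ∀ e, 0 ≤ f e) :
    ∑ a ∈ box z r, ∑ e ∈ cap G (tube z r t i a), f e ≤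
      3 * r * (3 * t) ^ (d - 1) * ∑ e ∈ cap G (boxE z (2 * r)), f e := by
  have hr := h.one_le
  rw [sum_comm' (t' := cap G (boxE z (2 * r)))
    (s' := fun e => (box z r).filter fun a => ∀ j, j ≠ i → |e.1 j - a j| ≤ t)
    (fun a e => by simp only [mem_cap, tube, mem_filter]; tauto), mul_sum]
  refine sum_le_sum fun e _ => ?_
  rw [sum_const, nsmul_eq_mul]
  refine mul_le_mul_of_nonneg_right ((card_tube_le (i := i) (q := z i) (p := e.1) (ρ := r) (t := t)
    fun a ha => ?_).trans (mul_le_mul (by linarith) h.pow_le (by positivity) (by positivity)))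
    (hf e)
  obtain ⟨h1, h2⟩ := mem_filter.1 ha
  exact ⟨mem_box.1 h1 i, fun j hj => by rw [abs_sub_comm]; exact h2 j hj⟩

lemma St.card_tube (i : Fin d) (a : V d) :
    ((cap G (tube z r t i a)).card : ℝ) ≤ d * (5 * r * (3 * t) ^ (d - 1)) := by
  have hr := h.one_le
  have h1 := sum_edge_fst_le h.hG (tube z r t i a)
    ((box z (2 * r)).filter fun y => ∀ j, j ≠ i → |y j - a j| ≤ t)
    (fun e he _ => mem_filter.2 ⟨mem_boxE'.1 (mem_filter.1 he).1, (mem_filter.1 he).2⟩)
    (f := fun _ => 1) fun _ => zero_le_one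
  simp only [sum_const, nsmul_eq_mul, mul_one] at h1
  refine h1.trans (mul_le_mul_of_nonneg_left ((card_tube_le (i := i) (q := z i) (p := a)
    (ρ := 2 * r) (t := t) fun y hy => ?_).trans (mul_le_mul (by push_cast; linarith) h.pow_le
      (by positivity) (by positivity))) (by positivity))
  obtain ⟨h1, h2⟩ := mem_filter.1 (mem_cap.1 hy).1
  exact ⟨mem_box.1 h1 i, h2⟩

lemma St.one_le_d : (1 : ℝ) ≤ d := by
  have := h.hd
  exact_mod_cast (by omega : 1 ≤ d)

lemma St.poin1 : Poin1 ((2 * d + 1) * d + 4 * d ^ 2 * 3 ^ (d - 1) / c) G C z r := fun v => by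
  have hd := h.one_le_d
  have hr := h.one_le
  have hS : 0 ≤ ∑ e ∈ cap G (boxE z (2 * r)), |grad v e| := sum_nonneg fun _ _ => abs_nonneg _
  obtain ⟨c0, h0⟩ := h.final (isN_one z r) v (S := ∑ e ∈ cap G (boxE z (2 * r)), |grad v e|)
    (by
      simp only [abs_of_nonneg (osc_nonneg G t v _)]
      refine (h.sum_loc fun _ => abs_nonneg _).trans (mul_le_mul_of_nonneg_right ?_ hS)
      nlinarith)
    (fun i => by
      simp only [abs_of_nonneg (Ln_nonneg G z r t v i _)]
      refine (h.sum_tube i fun _ => abs_nonneg _).trans (mul_le_mul_of_nonneg_right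
        (mul_le_mul_of_nonneg_right ?_ (by positivity)) hS)
      nlinarith)
  refine ⟨c0, le_trans (le_of_eq ?_) h0⟩
  rw [cap, sum_filter]
  exact sum_congr rfl fun a _ => by by_cases hC : a ∈ C <;> simp [hC]

lemma St.poin2 : Poin2 ((2 * d + 1) * d + 4 * d ^ 2 * 3 ^ (d - 1) / c) G C z r := fun v => by
  have hd := h.one_le_d
  have hr := h.one_le
  have hS := en_nonneg G z (2 * r) v
  have hS2 : ∑ e ∈ cap G (boxE z (2 * r)), grad v e ^ 2 = en G z (2 * r) v ^ 2 := (l2_sq _ _).symm
  have cs : ∀ T : Finset (E d), (∑ e ∈ T, |grad v e|) ^ 2 ≤ T.card * ∑ e ∈ T, grad v e ^ 2 :=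
    fun T => by simpa only [sq_abs] using
      sq_sum_le_card_mul_sum_sq (s := T) (f := fun e => |grad v e|)
  obtain ⟨c0, h0⟩ := h.final (isN_two z r) v (S := en G z (2 * r) v)
    (by
      refine l2_le_of_sq_le (by positivity) ?_
      have k : ∀ a ∈ box z r, osc G t v a ^ 2 ≤
          d * r * ∑ e ∈ cap G (boxE a (8 * t)), grad v e ^ 2 := fun a _ => by
        refine (cs _).trans (mul_le_mul_of_nonneg_right ?_ (sum_nonneg fun _ _ => sq_nonneg _))
        have : ((cap G (boxE a (8 * t))).card : ℝ) ≤ (boxE a (8 * t)).card := by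
          exact_mod_cast card_le_card (cap_subset _ _)
        rw [card_boxE_vol] at this
        exact this.trans (mul_le_mul_of_nonneg_left h.vol_le (by positivity))
      refine (sum_le_sum k).trans ?_
      rw [← mul_sum]
      refine (mul_le_mul_of_nonneg_left (h.sum_loc fun _ => sq_nonneg _) (by positivity)).trans ?_
      rw [hS2]
      have : 0 ≤ (r * en G z (2 * r) v) ^ 2 * (d * (d - 1)) := by
        have : (0 : ℝ) ≤ d - 1 := by linarith
        positivity
      nlinarith)
    (fun i => by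
      refine l2_le_of_sq_le (by positivity) ?_
      have k : ∀ a ∈ box z r, Ln G z r t v i a ^ 2 ≤ d * (5 * r * (3 * t) ^ (d - 1)) *
          ∑ e ∈ cap G (tube z r t i a), grad v e ^ 2 := fun a _ =>
        (cs _).trans (mul_le_mul_of_nonneg_right (h.card_tube i a)
          (sum_nonneg fun _ _ => sq_nonneg _))
      refine (sum_le_sum k).trans ?_
      rw [← mul_sum]
      refine (mul_le_mul_of_nonneg_left (h.sum_tube i fun _ => sq_nonneg _)
        (by positivity)).trans ?_
      rw [hS2]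
      have : 0 ≤ (r * (3 * t) ^ (d - 1) * en G z (2 * r) v) ^ 2 * (d * (16 * d - 15)) := by
        have : (0 : ℝ) ≤ 16 * d - 15 := by linarith
        positivity
      nlinarith)
  refine ⟨c0, le_trans (le_of_eq ?_) h0⟩
  rw [l2_eq_of_zero (cap_subset C (box z r)) fun a ha ha' => if_neg fun hC =>
    ha' (mem_cap.2 ⟨ha, hC⟩)]
  exact l2_congr fun a ha => by rw [if_pos (mem_cap.1 ha).2]

lemma St.dens_loc {a : V d} (ha : a ∈ box z r) :
    4 * c * (t : ℝ) ^ d ≤ d * ∑ _y ∈ cap C (box a (5 * t)), (1 : ℝ) := by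
  have hb := h.big
  have ht := h.ht
  have hd := h.hd
  set i : Fin d := ⟨0, by omega⟩
  have a1 := abs_le.1 (mem_box.1 ha i)
  have hI : ins (col a i (4 * t) t) ⊆ (boxE a (5 * t) : Set (E d)) := fun e he => by
    obtain ⟨b1, b2, b3⟩ := he.1
    refine mem_coe.2 (mem_boxE.2 fun k => ?_)
    by_cases hk : k = i
    · subst hk; rw [abs_le]; push_cast at b2 ⊢; omega
    · have c1 := abs_le.1 (b3 k hk)
      rw [abs_le]; push_cast; omega
  have k := cross_coarea h.hG h.hc (by omega)
    (h.cross ha i (l := 4 * t) (by omega) (by push_cast; omega)) hI (fun y => (y i : ℝ))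
    (α := a i) (β := a i + 4 * t) (fun y _ _ hy => by exact_mod_cast hy)
    (fun y _ _ hy => by exact_mod_cast hy)
  have e : c * (t : ℝ) ^ (d - 1) * (a i + 4 * t - a i) = 4 * c * (t : ℝ) ^ d := by
    obtain ⟨m, rfl⟩ : ∃ m, d = m + 1 := ⟨d - 1, by omega⟩
    rw [Nat.add_sub_cancel]; ring
  rw [e] at k
  refine k.trans (le_trans (sum_le_sum fun e _ => ?_) (sum_edge_fst_le h.hG (boxE a (5 * t))
    (box a (5 * t)) (fun e he _ => mem_boxE'.1 he) (f := fun _ => 1) fun _ => zero_le_one))
  simp only [grad, ee, Pi.add_apply, Pi.single_apply]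
  split_ifs <;> simp

lemma St.dens : Dens (4 * c / (d * 22 ^ d)) C z r := by
  have hb := h.big
  have hd := h.one_le_d
  have hc := h.hc
  have ht : (1 : ℝ) ≤ t := by exact_mod_cast h.ht
  obtain ⟨m, hm⟩ : ∃ m, r = m + 5 * t := ⟨r - 5 * t, by omega⟩
  have h1 := sum_sum_box_le C z m (5 * t) (f := fun _ => 1) fun _ => zero_le_one
  have h2 := sum_le_sum fun a (ha : a ∈ box z m) => h.dens_loc (box_mono z (by omega) ha)
  rw [sum_const, nsmul_eq_mul, card_box_vol, ← mul_sum] at h2
  rw [← hm, sum_const, nsmul_eq_mul, mul_one] at h1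
  have h3 : vol d (5 * t) ≤ (11 * t) ^ d :=
    pow_le_pow_left₀ (by positivity) (by push_cast; linarith) _
  have h4 : vol d r ≤ 2 ^ d * vol d m := vol_le_mul d (by
    have : 2 * r + 1 ≤ 2 * (2 * m + 1) := by omega
    exact_mod_cast this)
  have h5 := h2.trans (mul_le_mul_of_nonneg_left (h1.trans
    (mul_le_mul_of_nonneg_right h3 (by positivity))) (by positivity))
  rw [Dens, div_mul_eq_mul_div, div_le_iff₀ (by positivity)]
  refine le_of_mul_le_mul_right ?_ (show (0 : ℝ) < (t : ℝ) ^ d by positivity)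
  have h6 := mul_le_mul_of_nonneg_right h4 (show 0 ≤ 4 * c * (t : ℝ) ^ d by positivity)
  have h7 := mul_le_mul_of_nonneg_left h5 (show (0 : ℝ) ≤ 2 ^ d by positivity)
  have h8 : (22 : ℝ) ^ d = 2 ^ d * 11 ^ d := by rw [← mul_pow]; norm_num
  rw [mul_pow] at h7
  rw [h8]
  nlinarith

end

end PoincAux

theorem poincare {d : ℕ} (hd : 2 ≤ d) {c : ℝ} (hc : 0 < c) : ∃ θ K : ℝ, 0 < θ ∧ 0 < K ∧
    ∀ (G : Set (E d)) (C : Set (V d)) (x : V d) (R t : ℕ), G ⊆ ins C → 1 ≤ t → PIC c G C x R t →
    ∀ (z : V d) (r : ℕ), (16 * t + 1) ^ d ≤ r → nd x z + 2 * r ≤ R →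
      Dens θ C z r ∧ Poin1 K G C z r ∧ Poin2 K G C z r := by
  have : (0 : ℝ) < d := by exact_mod_cast (by omega : 0 < d)
  refine ⟨4 * c / (d * 22 ^ d), (2 * d + 1) * d + 4 * d ^ 2 * 3 ^ (d - 1) / c, by positivity,
    by positivity, fun G C x R t hG ht hP z r hr hz => ?_⟩
  have h : PoincAux.St c G C x R t z r := ⟨hd, hc, hG, ht, hP, hr, hz⟩
  exact ⟨h.dens, h.poin1, h.poin2⟩

end Pool.Agent.P.MP_b4265e_pr.R
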