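import Pool.Agent.P.MP_b4265e_pr.R.LiftG
import Pool.Agent.P.MP_b4265e_pr.R.ApprG
import Pool.Agent.P.MP_b4265e_pr.R.Cor
import Pool.Agent.P.MP_b4265e_pr.R.Conc
import Pool.Agent.P.MP_b4265e_pr.R.Poinc
import Pool.Agent.P.MP_b4265e_pr.R.PIdet

/-!
Good boxes are overwhelmingly likely.
-/

namespace Pool.Agent.P.MP_b4265e_pr.R

open Finset MeasureTheory ProbabilityTheory Filter
open scoped Classical

variable {d : ℕ}

/-! ### Scales -/

lemma hom_scales (hd : 1 ≤ d) (T0 : ℕ) (hT : 1 ≤ T0) : ∃ s0 : ℕ, ∀ s ≥ s0, ∃ t ≥ T0,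
    ((16 * t + 1) ^ d) ^ 4 ≤ s ∧ s ≤ (33 * t) ^ (4 * d) := by
  have hf : ∀ t : ℕ, t ≤ ((16 * t + 1) ^ d) ^ 4 := by
    intro t
    calc t ≤ 16 * t + 1 := by omega
      _ ≤ (16 * t + 1) ^ d := Nat.le_self_pow (by omega) _
      _ ≤ _ := Nat.le_self_pow (by omega) _
  refine ⟨((16 * T0 + 1) ^ d) ^ 4, fun s hs => ?_⟩
  have h1 : T0 ≤ Nat.findGreatest (fun t => ((16 * t + 1) ^ d) ^ 4 ≤ s) s :=
    Nat.le_findGreatest ((hf T0).trans hs) hs
  have h2 := Nat.findGreatest_spec (P := fun t => ((16 * t + 1) ^ d) ^ 4 ≤ s)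
    ((hf T0).trans hs) hs
  set t := Nat.findGreatest (fun t => ((16 * t + 1) ^ d) ^ 4 ≤ s) s with ht
  refine ⟨t, h1, h2, ?_⟩
  have h3 : ¬ ((16 * (t + 1) + 1) ^ d) ^ 4 ≤ s := by
    intro h
    exact Nat.findGreatest_is_greatest (P := fun t => ((16 * t + 1) ^ d) ^ 4 ≤ s)
      (Nat.lt_succ_self t) ((hf _).trans h) h
  calc s ≤ ((16 * (t + 1) + 1) ^ d) ^ 4 := by omega
    _ ≤ ((33 * t) ^ d) ^ 4 := Nat.pow_le_pow_left (Nat.pow_le_pow_left (by omega) _) _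
    _ = (33 * t) ^ (4 * d) := by rw [← pow_mul, Nat.mul_comm d 4]

lemma hom_small {ρ : ℝ} (h0 : 0 ≤ ρ) (h1 : ρ < 1) (A : ℝ) (N : ℕ) :
    ∃ T0 : ℕ, ∀ t ≥ T0, A * ((t : ℝ) ^ N * ρ ^ t) ≤ 1 := by
  have h := (tendsto_pow_const_mul_const_pow_of_abs_lt_one N (r := ρ)
    (by rwa [abs_of_nonneg h0])).const_mul A
  rw [mul_zero] at h
  obtain ⟨T0, hT⟩ := eventually_atTop.1 (h.eventually (ge_mem_nhds one_pos))
  exact ⟨T0, hT⟩

/-! ### Monotonicity in the constant -/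

lemma hom_poin1 {K K' : ℝ} {G : Set (E d)} {C : Set (V d)} {z : V d} {r : ℕ}
    (h : Poin1 K G C z r) (hK : K ≤ K') : Poin1 K' G C z r := by
  intro v
  obtain ⟨c, hc⟩ := h v
  refine ⟨c, hc.trans ?_⟩
  have : 0 ≤ ∑ e ∈ cap G (boxE z (2 * r)), |grad v e| := sum_nonneg fun _ _ => abs_nonneg _
  gcongr

lemma hom_poin2 {K K' : ℝ} {G : Set (E d)} {C : Set (V d)} {z : V d} {r : ℕ}
    (h : Poin2 K G C z r) (hK : K ≤ K') : Poin2 K' G C z r := by
  intro v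
  obtain ⟨c, hc⟩ := h v
  refine ⟨c, hc.trans ?_⟩
  have := en_nonneg G z (2 * r) v
  gcongr

lemma hom_appr {K K' δ : ℝ} {G : Set (E d)} {C : Set (V d)} {x : V d} {s : ℕ}
    (h : Appr K δ G C x s) (hK : K ≤ K') : Appr K' δ G C x s := by
  intro v hv
  obtain ⟨H, h1, h2, h3⟩ := h v hv
  refine ⟨H, h1, h2, fun y hy => (h3 y hy).trans ?_⟩
  have := nrm_nonneg C x s v
  gcongr

lemma hom_lift {K K' δ : ℝ} {G : Set (E d)} {C : Set (V d)} {x : V d} {s : ℕ}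
    (h : Lift K δ G C x s) (hK : K ≤ K') : Lift K' δ G C x s := by
  intro ψ M ε hε h1 h2
  obtain ⟨H, h3, h4⟩ := h ψ M ε hε h1 h2
  refine ⟨H, h3, h4.trans ?_⟩
  have hM : 0 ≤ M := by
    have := h1 [] (by simp) x (mem_box_self x _)
    simp only [List.length_nil, pow_zero, div_one] at this
    exact (abs_nonneg _).trans this
  gcongr

/-! ### The deterministic part -/

/-- The flux field of a configuration. -/
noncomputable def homF (t : ℕ) (g : Set (E d) → ℝ) (i : Fin d) (O : Set (E d)) : E d → ℝ :=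
  flx (GLoc t O) (fun y => g (sh y O)) i

lemma hom_flx_congr {G G' : Set (E d)} (φ : V d → ℝ) (i : Fin d) {e : E d}
    (h : e ∈ G ↔ e ∈ G') : flx G φ i e = flx G' φ i e := by
  simp only [flx, wt, h]

lemma hom_gloc {O : Set (E d)} {x : V d} {R t : ℕ}
    (h : ∀ z ∈ box x R, ∀ y ∈ box z (4 * t), Loc O t y → y ∈ Cl O) {e : E d}
    (he : e.1 ∈ box x R) : e ∈ GC O ↔ e ∈ GLoc t O := by
  constructor
  · rintro ⟨h1, h2⟩
    refine ⟨h1, loc_of_mem_Cl h2 t, loc_of_mem_Cl (mem_Cl_of_comp h2 ?_) t⟩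
    exact comp_adj (mem_comp_self O e.1) ⟨e.2, Or.inl ⟨rfl, h1⟩⟩
  · rintro ⟨h1, h2, _⟩
    exact ⟨h1, h e.1 he e.1 (mem_box_self _ _) h2⟩

lemma hom_det {c θ K0 K1 K2 K σ η B δ : ℝ} (hc : 0 ≤ c) {g : Fin d → Set (E d) → ℝ}
    {r0 t m1 m s : ℕ} {x : V d} {O : Set (E d)}
    (hP : ∀ (G : Set (E d)) (C : Set (V d)) (x : V d) (R t : ℕ), G ⊆ ins C → 1 ≤ t →
      PIC c G C x R t → ∀ (z : V d) (r : ℕ), (16 * t + 1) ^ d ≤ r → nd x z + 2 * r ≤ R →
      Dens θ C z r ∧ Poin1 K0 G C z r ∧ Poin2 K0 G C z r)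
    (hL : ∀ {G : Set (E d)} {C : Set (V d)} {φ : Fin d → V d → ℝ},
      Meso θ K0 σ η B G C φ x s m m1 → Lift K1 δ G C x s)
    (hA : ∀ {G : Set (E d)} {C : Set (V d)} {φ : Fin d → V d → ℝ},
      Meso θ K0 σ η B G C φ x s m m1 → Appr K2 δ G C x s)
    (hK0 : K0 ≤ K) (hK1 : K1 ≤ K) (hK2 : K2 ≤ K)
    (hg : ∀ i, Dep (boxE (0 : V d) r0) (g i)) (hgB : ∀ i O, |g i O| ≤ B) (hB : 1 ≤ B)
    (hσ : σ ≤ B) (ht : 1 ≤ t) (hm1 : m1 = (16 * t + 1) ^ d) (hm : m1 ≤ m) (hms : m ≤ s)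
    (hts : 2 * t ≤ s) (hr0 : r0 ≤ s) (hm10 : 1 ≤ m1) (hδ : (m1 : ℝ) ≤ δ * s)
    (sep1 : B * m1 ≤ η * m) (sep2 : B * m ≤ η * s)
    (h1 : PI c x (12 * s) t O)
    (h2 : ∀ i, ∑ y ∈ box x (2 * s), defect (GLoc t O) (homF t (g i) i O) y (2 * m) ≤
      η ^ 2 * vol d (2 * m + 1) * vol d (2 * s))
    (h3 : ∀ i j, ∑ z ∈ box x (2 * s),
      (Av m1 (fun y => homF t (g i) i O (y, j)) z - (if j = i then σ else 0)) ^ 2 ≤
        η ^ 2 * vol d (2 * s)) :
    W θ K δ x s O := by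
  intro O' hag hne
  have h1' : PI c x (12 * s) t O' := by
    rw [← dep_PI c x (12 * s) ht O O' (hag.mono (boxE_mono x (by omega)))]
    exact h1
  obtain ⟨y0, hy0, hy0'⟩ := hne
  obtain ⟨hl, hpic⟩ := link hc ht (by omega) h1' ⟨y0, hy0, box_mono x (by omega) hy0'⟩
  have hw := wf_GC O'
  have hP' := hP (GC O') (Cl O') x (12 * s) t hw.sub ht hpic
  have hfl : ∀ i, ∀ e : E d, e.1 ∈ box x (12 * s) →
      flx (GC O') (fun y => g i (sh y O')) i e = homF t (g i) i O e := by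
    intro i e he
    rw [hom_flx_congr _ i (hom_gloc hl he)]
    have he' := mem_box_nd.1 he
    exact (dep_flx t (hg i) i e O O' (hag.mono (boxE_subset (by omega)))).symm
  have hmeso : Meso θ K0 σ η B (GC O') (Cl O') (fun i y => g i (sh y O')) x s m m1 := by
    refine ⟨hw, fun z hz r a b => ?_, fun z hz r a b => ?_, hB, hσ, fun i y => hgB i _,
      fun i => ?_, fun i j => ?_, hm10, sep1, sep2⟩
    · have := mem_box_nd.1 hz
      exact (hP' z r (by omega) (by omega)).1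
    · have := mem_box_nd.1 hz
      exact (hP' z r (by omega) (by omega)).2.2
    · refine le_of_eq_of_le (sum_congr rfl fun y hy => ?_) (h2 i)
      have hy' := mem_box_nd.1 hy
      have hsub : ∀ e ∈ boxE y (2 * m + 1), e.1 ∈ box x (12 * s) := fun e he =>
        box_subset (by omega) (mem_boxE'.1 he)
      refine defect_congr (fun e he => (hom_gloc hl (hsub e he)).trans ?_)
        fun e he => hfl i e (hsub e he)
      have he' := mem_box_nd.1 (hsub e he)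
      exact Iff.of_eq (dep_gloc t e O O' (hag.mono (boxE_subset (by omega)))).symm
    · refine le_of_eq_of_le (sum_congr rfl fun z hz => ?_) (h3 i j)
      have hz' := mem_box_nd.1 hz
      rw [Av_congr (g := fun y => homF t (g i) i O (y, j)) fun y hy =>
        hfl i (y, j) (box_subset (by omega) hy)]
  have hx := hP' x s (by omega) (by rw [nd_self]; omega)
  refine ⟨⟨fun z hz r a b => ?_, hom_poin1 hx.2.1 hK0, hom_poin2 hx.2.2 hK0,
    hom_appr (hA hmeso) hK2, hom_lift (hL hmeso) hK1⟩, fun b hb y hy hy' => ?_⟩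
  · have := mem_box_nd.1 hz
    have h4 : m1 ≤ r := by exact_mod_cast hδ.trans a
    exact (hP' z r (by omega) (by omega)).1
  · exact hl b (box_mono x (by omega) hb) b (mem_box_self _ _)
      (loc_of_far hy fun h => hy' (box_mono b (by omega) h))

/-! ### The probabilistic estimates -/

variable {p : unitInterval}

lemma hom_conc (hd : 1 ≤ d) {X : Set (E d) → ℝ} {R : ℕ} (hX : Dep (boxE (0 : V d) R) X)
    {B β γ κ : ℝ} (hB : 0 < B) (h0 : ∀ O, 0 ≤ X O) (h1 : ∀ O, X O ≤ B)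
    (hβ : ∫ O, X O ∂μP d p ≤ β) (hγ : 0 < γ) (hκ : γ / B = κ) (x : V d) {s t : ℕ}
    (ht : t * (2 * R + 1) ≤ 4 * s + 1) (hR : R ≤ 20 * s) :
    (μP d p).real {O | (β + γ) * vol d (2 * s) < ∑ y ∈ box x (2 * s), X (sh y O)} ≤
      vol d (20 * s) * Real.exp (-(2 * κ ^ 2)) ^ t := by
  refine (conc hX hB h0 h1 hβ hγ x (2 * s)).trans ?_
  rw [hκ, ← Real.exp_nat_mul]
  have h2 : t ≤ (2 * (2 * s) + 1) / (2 * R + 1) :=
    (Nat.le_div_iff_mul_le (by omega)).2 (by omega)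
  have h3 : t ≤ ((2 * (2 * s) + 1) / (2 * R + 1)) ^ d := h2.trans (Nat.le_self_pow (by omega) _)
  have h4 : (t : ℝ) ≤ (((2 * (2 * s) + 1) / (2 * R + 1) : ℕ) : ℝ) ^ d := by exact_mod_cast h3
  refine mul_le_mul (vol_mono d hR) (Real.exp_le_exp.2 ?_) (Real.exp_pos _).le (vol_pos _ _).le
  nlinarith [sq_nonneg κ]

lemma homF_sh (t : ℕ) (g : Set (E d) → ℝ) (i : Fin d) (z : V d) (O : Set (E d)) :
    homF t g i (sh z O) = fun e => homF t g i O (e.1 + z, e.2) :=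
  funext fun e => flx_sh t g i z O e

lemma hom_div (hd : 1 ≤ d) {g : Set (E d) → ℝ} {r0 t m s : ℕ} {B η : ℝ} (hη : 0 < η)
    (hB : 0 ≤ B) (hg : Dep (boxE (0 : V d) r0) g) (hgB : ∀ O, |g O| ≤ B) (i : Fin d)
    (hI : ∫ O, defect (GLoc t O) (homF t g i O) 0 (2 * m) ∂μP d p ≤
      (η / 2) ^ 2 * vol d (2 * m + 1))
    (ht : t * (2 * (2 * m + t + r0 + 3) + 1) ≤ 4 * s + 1) (hR : 2 * m + t + r0 + 3 ≤ 20 * s)
    (x : V d) :
    (μP d p).real {O | ¬ ∑ y ∈ box x (2 * s), defect (GLoc t O) (homF t g i O) y (2 * m) ≤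
      η ^ 2 * vol d (2 * m + 1) * vol d (2 * s)} ≤
      vol d (20 * s) * Real.exp (-(2 * (3 / 4 * η ^ 2 / ((1 + 2 * B) ^ 2 * d)) ^ 2)) ^ t := by
  have hv := vol_pos d (2 * m + 1)
  have hd' : (0 : ℝ) < d := by exact_mod_cast hd
  have h := hom_conc (p := p) hd (dep_defect t hg i 0 (2 * m))
    (B := (1 + 2 * B) ^ 2 * (d * vol d (2 * m + 1))) (γ := 3 / 4 * η ^ 2 * vol d (2 * m + 1))
    (κ := 3 / 4 * η ^ 2 / ((1 + 2 * B) ^ 2 * d)) (by positivity)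
    (fun O => defect_nonneg (fun e he => flx_of_not_mem _ i he) _ _)
    (fun O => defect_le (fun e he => flx_of_not_mem _ i he)
      (fun e => abs_flx_le (fun y => hgB _) i e) _ _) hI (by positivity)
    (by field_simp) x ht hR
  refine le_of_eq_of_le ?_ h
  congr 1
  ext O
  simp only [Set.mem_ofPred_eq, not_le]
  have h2 : ∀ y, defect (GLoc t (sh y O)) (flx (GLoc t (sh y O)) (fun z => g (sh z (sh y O))) i)
      0 (2 * m) = defect (GLoc t O) (homF t g i O) y (2 * m) := by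
    intro y
    rw [← defect_sh (GLoc t O) (homF t g i O) y (2 * m), ← homF_sh, ← gloc_sh]
    rfl
  simp only [h2]
  rw [show (η / 2) ^ 2 * vol d (2 * m + 1) + 3 / 4 * η ^ 2 * vol d (2 * m + 1) =
    η ^ 2 * vol d (2 * m + 1) by ring]

lemma hom_avg (hd : 1 ≤ d) {g : Set (E d) → ℝ} {r0 t m1 s : ℕ} {B η a : ℝ} (hη : 0 < η)
    (hB : 0 ≤ B) (ha : |a| ≤ B) (hg : Dep (boxE (0 : V d) r0) g) (hgB : ∀ O, |g O| ≤ B)
    (i j : Fin d) (hI : |∫ O, homF t g i O (0, j) ∂μP d p - a| ≤ η / 2)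
    (hvar : 4 * (1 + 2 * B) ^ 2 * vol d (2 * (t + r0 + 2)) / vol d m1 ≤ η ^ 2 / 8)
    (ht : t * (2 * (m1 + t + r0 + 2) + 1) ≤ 4 * s + 1) (hR : m1 + t + r0 + 2 ≤ 20 * s)
    (x : V d) :
    (μP d p).real {O | ¬ ∑ z ∈ box x (2 * s),
      (Av m1 (fun y => homF t g i O (y, j)) z - a) ^ 2 ≤ η ^ 2 * vol d (2 * s)} ≤
      vol d (20 * s) * Real.exp (-(2 * (1 / 4 * η ^ 2 / (1 + 3 * B) ^ 2) ^ 2)) ^ t := by
  have hY : Dep (boxE (0 : V d) (t + r0 + 2)) fun O => homF t g i O (0, j) :=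
    dep_flx t hg i (0, j)
  have hYB : ∀ O e, |homF t g i O e| ≤ 1 + 2 * B := fun O e => abs_flx_le (fun y => hgB _) i e
  have hA : Dep (boxE (0 : V d) (m1 + t + r0 + 2))
      fun O => Av m1 (fun y => homF t g i O (y, j)) 0 := by
    intro O O' hag
    refine Av_congr fun y hy => ?_
    have := mem_box_nd.1 hy
    exact dep_flx t hg i (y, j) O O' (hag.mono (boxE_subset (by simp only; omega)))
  have hdep : ∀ b : ℝ, Dep (boxE (0 : V d) (m1 + t + r0 + 2))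
      fun O => (Av m1 (fun y => homF t g i O (y, j)) 0 - b) ^ 2 := by
    intro b O O' hag
    simp only [hA O O' hag]
  have hvar' := var_Av (p := p) hY (fun O => hYB O _) m1
  simp only [homF_sh, zero_add] at hvar'
  set μ0 := ∫ O, homF t g i O (0, j) ∂μP d p with hμ0
  have hint : ∫ O, (Av m1 (fun y => homF t g i O (y, j)) 0 - a) ^ 2 ∂μP d p ≤ 3 / 4 * η ^ 2 := by
    have h1 : ∫ O, (Av m1 (fun y => homF t g i O (y, j)) 0 - a) ^ 2 ∂μP d p ≤
        ∫ O, (2 * (Av m1 (fun y => homF t g i O (y, j)) 0 - μ0) ^ 2 + 2 * (μ0 - a) ^ 2) ∂μP d p := by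
      refine integral_mono (hdep a).integrable
        (((hdep μ0).integrable.const_mul 2).add (integrable_const _)) fun O => ?_
      simp only
      nlinarith [sq_nonneg (Av m1 (fun y => homF t g i O (y, j)) 0 - μ0 - (μ0 - a))]
    rw [integral_add ((hdep μ0).integrable.const_mul 2) (integrable_const _), integral_const_mul,
      integral_const, probReal_univ, one_smul] at h1
    have h2 : (μ0 - a) ^ 2 ≤ (η / 2) ^ 2 := sq_le_sq' (abs_le.1 hI).1 (abs_le.1 hI).2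
    nlinarith
  have h := hom_conc (p := p) hd (hdep a) (B := (1 + 3 * B) ^ 2) (γ := 1 / 4 * η ^ 2)
    (κ := 1 / 4 * η ^ 2 / (1 + 3 * B) ^ 2) (by positivity) (fun O => sq_nonneg _)
    (fun O => ?_) hint (by positivity) rfl x ht hR
  · refine le_of_eq_of_le ?_ h
    congr 1
    ext O
    simp only [Set.mem_ofPred_eq, not_le]
    have h2 : ∀ z, Av m1 (fun y => homF t g i (sh z O) (y, j)) 0 =
        Av m1 (fun y => homF t g i O (y, j)) z := by
      intro z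
      have := Av_shift m1 (fun y => homF t g i O (y, j)) 0 z
      rw [zero_add] at this
      rw [this, homF_sh]
    simp only [h2]
    rw [show 3 / 4 * η ^ 2 + 1 / 4 * η ^ 2 = η ^ 2 by ring]
  · have h1 : |Av m1 (fun y => homF t g i O (y, j)) 0 - 0| ≤ 1 + 2 * B :=
      abs_Av_sub_le fun z _ => by rw [sub_zero]; exact hYB O _
    rw [sub_zero] at h1
    have h2 := abs_le.1 h1
    have h3 := abs_le.1 ha
    exact sq_le_sq' (by linarith) (by linarith)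

lemma hom_var (hd : 2 ≤ d) {r0 t : ℕ} (ht : r0 + 2 ≤ t) :
    vol d (2 * (t + r0 + 2)) / vol d ((16 * t + 1) ^ d) ≤ 1 / (16 * (t : ℝ) + 1) := by
  have h1 : (2 * (2 * (t + r0 + 2)) + 1) ^ d * (16 * t + 1) ≤ (2 * (16 * t + 1) ^ d + 1) ^ d := by
    calc (2 * (2 * (t + r0 + 2)) + 1) ^ d * (16 * t + 1)
        ≤ (16 * t + 1) ^ d * (16 * t + 1) ^ d :=
          Nat.mul_le_mul (Nat.pow_le_pow_left (by omega) _) (Nat.le_self_pow (by omega) _)
      _ = ((16 * t + 1) ^ d) ^ 2 := by ring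
      _ ≤ ((16 * t + 1) ^ d) ^ d := Nat.pow_le_pow_right (by positivity) hd
      _ ≤ _ := Nat.pow_le_pow_left (by omega) _
  rw [div_le_div_iff₀ (vol_pos _ _) (by positivity), one_mul]
  unfold vol
  exact_mod_cast h1

theorem hom_of_PIprob {d : ℕ} (hd : 2 ≤ d) {p : unitInterval} {c : ℝ} (hc : 0 < c)
    (h : PIprob d p c) : ∃ θ K : ℝ, 0 < θ ∧ 0 < K ∧ Hom d p θ K := by
  have hd1 : 1 ≤ d := by omega
  obtain ⟨θ, K0, hθ, hK0, hP⟩ := poincare hd hc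
  obtain ⟨σ, hσ, hcor⟩ := exists_cor hd1 hc h
  obtain ⟨K1, _, hL⟩ := lift_of_meso hd1 hθ hK0 hσ
  obtain ⟨K2, _, hA⟩ := appr_of_meso hd1 hθ hK0 hσ
  obtain ⟨t1, B1, ρ, hρ0, hρ1, hPI⟩ := h
  refine ⟨θ, max K0 (max K1 K2), hθ, lt_max_of_lt_left hK0, fun δ hδ M => ?_⟩
  obtain ⟨η1, hη1, hL⟩ := hL δ hδ
  obtain ⟨η2, hη2, hA⟩ := hA δ hδ
  obtain ⟨η, hη, hηa, hηb⟩ : ∃ η : ℝ, 0 < η ∧ η ≤ η1 ∧ η ≤ η2 :=
    ⟨min η1 η2, lt_min hη1 hη2, min_le_left _ _, min_le_right _ _⟩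
  obtain ⟨B0, r0, t0, g, hg, hgB0, hC⟩ := hcor (η / 2) (by positivity)
  obtain ⟨B, hB, hσB, hgB⟩ : ∃ B : ℝ, 1 ≤ B ∧ σ ≤ B ∧ ∀ i O, |g i O| ≤ B :=
    ⟨max B0 (max 1 σ), le_max_of_le_right (le_max_left _ _), le_max_of_le_right (le_max_right _ _),
      fun i O => le_max_of_le_left (hgB0 i O)⟩
  have hd' : (0 : ℝ) < d := by exact_mod_cast hd1
  obtain ⟨ρ', hρ'1, hρa, hρb, hρc⟩ : ∃ ρ' : ℝ, ρ' < 1 ∧ ρ ≤ ρ' ∧
      Real.exp (-(2 * (3 / 4 * η ^ 2 / ((1 + 2 * B) ^ 2 * d)) ^ 2)) ≤ ρ' ∧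
      Real.exp (-(2 * (1 / 4 * η ^ 2 / (1 + 3 * B) ^ 2) ^ 2)) ≤ ρ' := by
    refine ⟨max ρ (max _ _), max_lt hρ1 (max_lt ?_ ?_), le_max_left _ _,
      le_max_of_le_right (le_max_left _ _), le_max_of_le_right (le_max_right _ _)⟩
    · exact Real.exp_lt_one_iff.2 (neg_lt_zero.2 (by positivity))
    · exact Real.exp_lt_one_iff.2 (neg_lt_zero.2 (by positivity))
  have hρ'0 : 0 ≤ ρ' := hρ0.le.trans hρa
  obtain ⟨T1, hT1⟩ := hom_small hρ'0 hρ'1
    ((|B1| + d + d * d) * 41 ^ d * 33 ^ (4 * d * (d + M))) (4 * d * (d + M))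
  obtain ⟨T2, hT2⟩ := exists_nat_ge (B / η + 1 / δ + 32 * (1 + 2 * B) ^ 2 / η ^ 2)
  obtain ⟨s0, hs0⟩ := hom_scales hd1 (T1 + T2 + t0 + t1 + r0 + 3) (by omega)
  refine ⟨s0, fun s hs x => ?_⟩
  obtain ⟨t, ht, hts, hst⟩ := hs0 s hs
  obtain ⟨m1, hm1⟩ : ∃ m1, m1 = (16 * t + 1) ^ d := ⟨_, rfl⟩
  rw [← hm1] at hts
  have a1 : 16 * t + 1 ≤ m1 := by rw [hm1]; exact Nat.le_self_pow (by omega) _
  obtain ⟨m, hm⟩ : ∃ m, m = m1 * m1 := ⟨_, rfl⟩
  have a2 : m * m ≤ s := by rw [hm]; exact le_of_eq_of_le (by ring) hts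
  have a3 : m1 ≤ m := by rw [hm]; exact Nat.le_mul_self m1
  have a4 : m ≤ s := (Nat.le_mul_self m).trans a2
  have hT2' : (T2 : ℝ) ≤ m1 := by exact_mod_cast (by omega : T2 ≤ m1)
  have hT2t : (T2 : ℝ) ≤ 16 * t + 1 := by exact_mod_cast (by omega : T2 ≤ 16 * t + 1)
  have p1 : 0 ≤ B / η := by positivity
  have p2 : 0 ≤ 1 / δ := by positivity
  have p3 : 0 ≤ 32 * (1 + 2 * B) ^ 2 / η ^ 2 := by positivity
  have hm1R : (1 : ℝ) ≤ m1 := by exact_mod_cast (by omega : 1 ≤ m1)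
  have a2R : (m : ℝ) * m ≤ s := by exact_mod_cast a2
  have a3R : (m1 : ℝ) ≤ m := by exact_mod_cast a3
  have hmR : (m : ℝ) = m1 * m1 := by exact_mod_cast hm
  have b1 : B ≤ η * m1 := by
    have : B / η ≤ m1 := by linarith
    rwa [div_le_iff₀' hη] at this
  have b2 : 1 ≤ δ * m1 := by
    have : 1 / δ ≤ m1 := by linarith
    rwa [div_le_iff₀' hδ] at this
  have sep1 : B * m1 ≤ η * m := by
    rw [hmR]; linarith [mul_le_mul_of_nonneg_right b1 (zero_le_one.trans hm1R)]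
  have sep2 : B * m ≤ η * s := by
    have : B ≤ η * m := b1.trans (by gcongr)
    calc B * m ≤ η * m * m := by gcongr
      _ = η * (m * m) := by ring
      _ ≤ η * s := by gcongr
  have b3 : (m1 : ℝ) ≤ δ * s := by
    calc (m1 : ℝ) ≤ δ * m1 * m1 := le_mul_of_one_le_left (zero_le_one.trans hm1R) b2
      _ = δ * m := by rw [hmR]; ring
      _ ≤ δ * s := by
        have : (m : ℝ) ≤ s := by exact_mod_cast a4
        gcongr
  have hvar : 4 * (1 + 2 * B) ^ 2 * vol d (2 * (t + r0 + 2)) / vol d m1 ≤ η ^ 2 / 8 := by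
    have h1 := hom_var hd (r0 := r0) (t := t) (by omega)
    rw [← hm1] at h1
    have h2 : 32 * (1 + 2 * B) ^ 2 / η ^ 2 ≤ 16 * t + 1 := by linarith
    rw [div_le_iff₀ (by positivity)] at h2
    calc 4 * (1 + 2 * B) ^ 2 * vol d (2 * (t + r0 + 2)) / vol d m1
        = 4 * (1 + 2 * B) ^ 2 * (vol d (2 * (t + r0 + 2)) / vol d m1) := by ring
      _ ≤ 4 * (1 + 2 * B) ^ 2 * (1 / (16 * (t : ℝ) + 1)) := by gcongr
      _ ≤ η ^ 2 / 8 := by
        rw [mul_one_div, div_le_div_iff₀ (by positivity) (by norm_num)]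
        linarith
  obtain ⟨hC1, hC2⟩ := hC t (by omega)
  have c1 : t * (2 * (2 * m + t + r0 + 3) + 1) ≤ 4 * s + 1 := by
    calc t * (2 * (2 * m + t + r0 + 3) + 1) ≤ t * (16 * m) := Nat.mul_le_mul_left _ (by omega)
      _ = (16 * t) * m := by ring
      _ ≤ m * m := Nat.mul_le_mul_right _ (by omega)
      _ ≤ _ := by omega
  have c2 : t * (2 * (m1 + t + r0 + 2) + 1) ≤ 4 * s + 1 :=
    (Nat.mul_le_mul_left _ (by omega)).trans c1
  have hv := vol_pos d (20 * s)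
  have e1 : (μP d p).real {O | ¬ PI c x (12 * s) t O} ≤ |B1| * (vol d (20 * s) * ρ' ^ t) := by
    refine (hPI t (by omega) x (12 * s)).trans ?_
    have h1 : vol d (12 * s + 8 * t) ≤ vol d (20 * s) := vol_mono d (by omega)
    have h2 := vol_pos d (12 * s + 8 * t)
    rw [mul_assoc]
    refine mul_le_mul (le_abs_self _) ?_ (by positivity) (abs_nonneg _)
    gcongr
  have e2 : ∀ i, (μP d p).real {O | ¬ ∑ y ∈ box x (2 * s),
      defect (GLoc t O) (homF t (g i) i O) y (2 * m) ≤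
      η ^ 2 * vol d (2 * m + 1) * vol d (2 * s)} ≤ vol d (20 * s) * ρ' ^ t := by
    intro i
    refine (hom_div hd1 hη (by linarith) (hg i) (hgB i) i (hC2 i (2 * m)) c1 (by omega) x).trans ?_
    gcongr
  have e3 : ∀ ij : Fin d × Fin d, (μP d p).real {O | ¬ ∑ z ∈ box x (2 * s),
      (Av m1 (fun y => homF t (g ij.1) ij.1 O (y, ij.2)) z - (if ij.2 = ij.1 then σ else 0)) ^ 2 ≤
        η ^ 2 * vol d (2 * s)} ≤ vol d (20 * s) * ρ' ^ t := by
    rintro ⟨i, j⟩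
    have ha : |(if j = i then σ else 0)| ≤ B := by
      split_ifs
      · rwa [abs_of_pos hσ]
      · rw [abs_zero]; linarith
    refine (hom_avg hd1 hη (by linarith) ha (hg i) (hgB i) i j (hC1 i j) hvar c2 (by omega)
      x).trans ?_
    gcongr
  have hsub : {O | ¬ W θ (max K0 (max K1 K2)) δ x s O} ⊆ ({O | ¬ PI c x (12 * s) t O} ∪
      ⋃ i, {O | ¬ ∑ y ∈ box x (2 * s), defect (GLoc t O) (homF t (g i) i O) y (2 * m) ≤
        η ^ 2 * vol d (2 * m + 1) * vol d (2 * s)}) ∪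
      ⋃ ij : Fin d × Fin d, {O | ¬ ∑ z ∈ box x (2 * s),
        (Av m1 (fun y => homF t (g ij.1) ij.1 O (y, ij.2)) z -
          (if ij.2 = ij.1 then σ else 0)) ^ 2 ≤ η ^ 2 * vol d (2 * s)} := by
    intro O hO
    by_contra hn
    simp only [Set.mem_union, Set.mem_iUnion, Set.mem_ofPred_eq, not_or, not_exists, not_not] at hn
    exact hO (hom_det hc.le hP (fun hM => hL η hηa (by omega) hM) (fun hM => hA η hηb (by omega) hM)
      (le_max_left _ _) (le_max_of_le_right (le_max_left _ _))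
      (le_max_of_le_right (le_max_right _ _)) hg hgB hB hσB (by omega) hm1 a3 a4 (by omega)
      (by omega) (by omega) b3 sep1 sep2 hn.1.1 hn.1.2 fun i j => hn.2 (i, j))
  have hs1 : (1 : ℝ) ≤ s := by exact_mod_cast (by omega : 1 ≤ s)
  have hfin : (|B1| + d + d * d) * (vol d (20 * s) * ρ' ^ t) ≤ 1 / (s : ℝ) ^ M := by
    rw [le_div_iff₀ (by positivity)]
    refine le_trans ?_ (hT1 t (by omega))
    have h1 : vol d (20 * s) ≤ 41 ^ d * (s : ℝ) ^ d := by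
      unfold vol
      rw [← mul_pow]
      push_cast
      gcongr
      linarith
    have h2 : (s : ℝ) ^ (d + M) ≤ 33 ^ (4 * d * (d + M)) * (t : ℝ) ^ (4 * d * (d + M)) := by
      rw [← mul_pow, pow_mul]
      have : (s : ℝ) ≤ (33 * (t : ℝ)) ^ (4 * d) := by exact_mod_cast hst
      gcongr
    calc (|B1| + d + d * d) * (vol d (20 * s) * ρ' ^ t) * (s : ℝ) ^ M
        ≤ (|B1| + d + d * d) * (41 ^ d * (s : ℝ) ^ d * ρ' ^ t) * (s : ℝ) ^ M := by gcongr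
      _ = (|B1| + d + d * d) * 41 ^ d * (s : ℝ) ^ (d + M) * ρ' ^ t := by ring
      _ ≤ (|B1| + d + d * d) * 41 ^ d *
          (33 ^ (4 * d * (d + M)) * (t : ℝ) ^ (4 * d * (d + M))) * ρ' ^ t := by gcongr
      _ = _ := by ring
  refine le_trans ?_ hfin
  refine (measureReal_mono hsub).trans ((measureReal_union_le _ _).trans ?_)
  have f1 := (measureReal_iUnion_fintype_le (μ := μP d p) _).trans
    (sum_le_sum fun i (_ : i ∈ (univ : Finset (Fin d))) => e2 i)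
  have f2 := (measureReal_iUnion_fintype_le (μ := μP d p) _).trans
    (sum_le_sum fun i (_ : i ∈ (univ : Finset (Fin d × Fin d))) => e3 i)
  simp only [sum_const, card_univ, Fintype.card_prod, Fintype.card_fin, nsmul_eq_mul,
    Nat.cast_mul] at f1 f2
  have f3 := measureReal_union_le (μ := μP d p) {O | ¬ PI c x (12 * s) t O}
    (⋃ i, {O | ¬ ∑ y ∈ box x (2 * s), defect (GLoc t O) (homF t (g i) i O) y (2 * m) ≤
        η ^ 2 * vol d (2 * m + 1) * vol d (2 * s)})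
  linarith

end Pool.Agent.P.MP_b4265e_pr.R
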