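import Pool.Agent.P.MP_b4265e_pr.R.Chg

/-!
Removing a finite part of the graph.
-/

namespace Pool.Agent.P.MP_b4265e_pr.R

open Finset
open scoped Classical

variable {d : ℕ}

/-- The graph `G0` on `C0` arises from `G` on `C` by removing a part near `x`; the removed edges
are attached to `C0` at the ports `P` through edges of `T`. -/
structure Cut (G G0 : Set (E d)) (C C0 : Set (V d)) (x : V d) (ρ : ℕ) (P : Finset (V d))
    (T : Finset (E d)) : Prop where
  wf : Wf G C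
  wf0 : Wf G0 C0
  subG : G0 ⊆ G
  subC : C0 ⊆ C
  near : ∀ y ∈ C, y ∉ C0 → y ∈ box x ρ
  port : ∀ y ∈ P, y ∈ C0 ∧ y ∈ box x ρ
  edge : ∀ e ∈ G, e ∉ G0 → ¬ (e.1 ∈ C0 ∧ e.1 + ee e.2 ∈ C0) ∧
    (e.1 ∈ C0 → e.1 ∈ P ∧ e ∈ T) ∧ (e.1 + ee e.2 ∈ C0 → e.1 + ee e.2 ∈ P ∧ e ∈ T)

/-- The charge created on the ports. -/
noncomputable def chg (G G0 : Set (E d)) (P : Finset (V d)) (v : V d → ℝ) : V d →₀ ℝ :=
  Finsupp.onFinset P (fun y => if y ∈ P then lapG G0 v y - lapG G v y else 0)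
    (fun _ h => Classical.byContradiction fun hy => h (if_neg hy))

variable {G G0 : Set (E d)} {C C0 : Set (V d)} {x : V d} {ρ : ℕ} {P : Finset (V d)}
  {T : Finset (E d)}

lemma chg_support (G G0 : Set (E d)) (P : Finset (V d)) (v : V d → ℝ) :
    (chg G G0 P v).support ⊆ P := Finsupp.support_onFinset_subset

lemma chg_apply_ins (G G0 : Set (E d)) (P : Finset (V d)) (v : V d → ℝ) (y : V d) :
    chg G G0 P v y = if y ∈ P then lapG G0 v y - lapG G v y else 0 := rfl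

lemma Cut.lap_eq (h : Cut G G0 C C0 x ρ P T) (v : V d → ℝ) {y : V d} (hy : y ∈ C0) :
    lapG G0 v y = lapG G v y + chg G G0 P v y := by
  rw [chg_apply_ins]
  split_ifs with hP
  · ring
  · rw [add_zero]
    refine lapG_congr_edges (fun i => ⟨fun he => h.subG he, fun he => ?_⟩)
      (fun i => ⟨fun he => h.subG he, fun he => ?_⟩) v
    · by_contra h0
      exact hP ((h.edge _ he h0).2.1 hy).1
    · by_contra h0
      have h1 := (h.edge _ he h0).2.2
      simp only [sub_add_cancel] at h1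
      exact hP (h1 hy).1

lemma Cut.mem_box_of (h : Cut G G0 C C0 x ρ P T) {e : E d} (he : e ∈ G \ G0) :
    e.1 ∈ box x ρ ∧ e.1 + ee e.2 ∈ box x ρ := by
  obtain ⟨-, h1, h2⟩ := h.edge e he.1 he.2
  obtain ⟨c1, c2⟩ := h.wf.sub he.1
  constructor
  · by_cases h0 : e.1 ∈ C0
    · exact (h.port _ (h1 h0).1).2
    · exact h.near _ c1 h0
  · by_cases h0 : e.1 + ee e.2 ∈ C0
    · exact (h.port _ (h2 h0).1).2
    · exact h.near _ c2 h0

lemma Cut.mem_boxE_of (h : Cut G G0 C C0 x ρ P T) {e : E d} (he : e ∈ G \ G0) :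
    e ∈ boxE x (ρ + 1) := mem_boxE'.2 (box_mono x (Nat.le_succ ρ) (h.mem_box_of he).1)

lemma Cut.chg_eq (h : Cut G G0 C C0 x ρ P T) (v : V d → ℝ) {y : V d} (hy : y ∈ P) :
    chg G G0 P v y = - lapG (G \ G0) v y := by
  rw [chg_apply_ins, if_pos hy, lapG_sdiff h.subG]; ring

/-- The charge paired with a function is the energy form of the removed edges. -/
lemma Cut.pair_chg (h : Cut G G0 C C0 x ρ P T) {v : V d → ℝ}
    (hv : ∀ y ∈ C, y ∉ C0 → lapG G v y = 0) (w : V d → ℝ) :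
    pair (chg G G0 P v) w = ∑ e ∈ cap (G \ G0) (boxE x (ρ + 1)), grad v e * grad w e := by
  have hs := sbp (G \ G0) w v (box x ρ) (boxE x (ρ + 1))
    (fun e he hn => absurd (h.mem_boxE_of he) hn)
    (fun e he => ⟨fun hn => absurd (h.mem_box_of he).1 hn, fun hn => absurd (h.mem_box_of he).2 hn⟩)
  have hP : P ⊆ box x ρ := fun y hy => (h.port y hy).2
  have h0 : ∀ y ∈ box x ρ, y ∉ P → w y * lapG (G \ G0) v y = 0 := by
    intro y _ hy
    have h1 := lapG_sdiff h.subG v y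
    refine mul_eq_zero_of_right _ ?_
    by_cases hC : y ∈ C
    · by_cases hC0 : y ∈ C0
      · have h2 := h.lap_eq v hC0
        rw [chg_apply_ins, if_neg hy] at h2
        linarith
      · have h2 := hv y hC hC0
        have h3 := lapG_of_not_mem h.wf0.sub v hC0
        linarith
    · exact lapG_of_not_mem (fun e he => h.wf.sub he.1) v hC
  rw [← sum_subset hP h0] at hs
  rw [pair_eq_sum (chg_support G G0 P v), sum_cap_eq_wt]
  calc ∑ y ∈ P, chg G G0 P v y * w y = - ∑ y ∈ P, w y * lapG (G \ G0) v y := by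
        rw [← sum_neg_distrib]
        exact sum_congr rfl fun y hy => by rw [h.chg_eq v hy]; ring
    _ = _ := by rw [hs, neg_neg]; exact sum_congr rfl fun e _ => by ring

lemma Cut.total_chg (h : Cut G G0 C C0 x ρ P T) {v : V d → ℝ}
    (hv : ∀ y ∈ C, y ∉ C0 → lapG G v y = 0) : pair (chg G G0 P v) (fun _ => 1) = 0 := by
  rw [h.pair_chg hv]
  exact sum_eq_zero fun e _ => by simp [grad]

lemma Cut.l1_chg_le (h : Cut G G0 C C0 x ρ P T) (v : V d → ℝ) :
    l1 (chg G G0 P v) ≤ √(T.card) * en (G \ G0) x (ρ + 1) v := by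
  set s : V d → ℝ := fun y => if y ∈ P then (if 0 ≤ chg G G0 P v y then 1 else -1) else 0 with hs
  have hs0 : ∀ y, y ∉ P → s y = 0 := fun y hy => by simp [hs, hy]
  have hs1 : ∀ y, |s y| ≤ 1 := fun y => by
    simp only [hs]; split_ifs <;> simp
  set T' : Finset (E d) := T ∩ boxE x (ρ + 1) with hT'
  have hb := sbp (G \ G0) s v P T'
    (fun e he hn => by
      obtain ⟨-, h1, h2⟩ := h.edge e he.1 he.2
      constructor
      · refine hs0 _ fun hP => hn (mem_inter.2 ⟨(h1 (h.port _ hP).1).2, h.mem_boxE_of he⟩)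
      · refine hs0 _ fun hP => hn (mem_inter.2 ⟨(h2 (h.port _ hP).1).2, h.mem_boxE_of he⟩))
    (fun e _ => ⟨hs0 _, hs0 _⟩)
  have hg : ∀ e ∈ G \ G0, |grad s e| ≤ 1 := by
    intro e he
    have h1 := (h.edge e he.1 he.2).1
    by_cases h2 : e.1 ∈ P
    · have h3 : e.1 + ee e.2 ∉ P := fun h3 => h1 ⟨(h.port _ h2).1, (h.port _ h3).1⟩
      rw [grad, hs0 _ h3, zero_sub, abs_neg]; exact hs1 _
    · rw [grad, hs0 _ h2, sub_zero]; exact hs1 _
  have e1 : l1 (chg G G0 P v) = ∑ e ∈ cap (G \ G0) T', grad s e * grad v e := by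
    rw [l1_eq_sum (chg_support G G0 P v), sum_cap_eq_wt, ← neg_neg (∑ e ∈ T', _), ← hb,
      ← sum_neg_distrib]
    refine sum_congr rfl fun y hy => ?_
    rw [← mul_neg, ← h.chg_eq v hy]
    simp only [hs, if_pos hy]
    split_ifs with h1
    · rw [abs_of_nonneg h1, one_mul]
    · rw [abs_of_neg (not_le.1 h1), neg_one_mul]
  have e2 : ∑ e ∈ cap (G \ G0) T', grad s e * grad v e ≤ ∑ e ∈ cap (G \ G0) T', |grad v e| := by
    refine sum_le_sum fun e he => (le_abs_self _).trans ?_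
    rw [abs_mul]
    exact mul_le_of_le_one_left (abs_nonneg _) (hg e (mem_cap.1 he).2)
  have e3 : ((cap (G \ G0) T').card : ℝ) ≤ T.card := by
    exact_mod_cast card_le_card ((cap_subset _ _).trans inter_subset_left)
  rw [e1]
  refine e2.trans ((sum_abs_le_l2 _ _).trans ?_)
  exact mul_le_mul (Real.sqrt_le_sqrt e3) (l2_mono (cap_mono _ inter_subset_right) _)
    (l2_nonneg _ _) (Real.sqrt_nonneg _)

/-- Values on the removed part lie between the values at the ports. -/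
lemma Cut.between (h : Cut G G0 C C0 x ρ P T) {v : V d → ℝ}
    (hv : ∀ y ∈ C, y ∉ C0 → lapG G v y = 0) {a b : ℝ} (hP : ∀ y ∈ P, a ≤ v y ∧ v y ≤ b) :
    ∀ y ∈ C, y ∉ C0 → a ≤ v y ∧ v y ≤ b := by
  set D : Finset (V d) := (box x ρ).filter fun y => y ∈ C ∧ y ∉ C0 with hD
  have hm : ∀ y, y ∈ D ↔ y ∈ C ∧ y ∉ C0 := fun y => by
    rw [hD, mem_filter]
    exact ⟨fun h1 => h1.2, fun h1 => ⟨h.near y h1.1 h1.2, h1⟩⟩
  have h1 : ∀ y ∈ D, (comp G y).Infinite := fun y hy => h.wf.inf y ((hm y).1 hy).1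
  have h2 : ∀ y ∈ D, lapG G v y = 0 := fun y hy => hv y ((hm y).1 hy).1 ((hm y).1 hy).2
  have h3 : ∀ y ∈ D, ∀ z, adj G y z → z ∉ D → z ∈ P := by
    intro y hy z hyz hz
    have hy0 := ((hm y).1 hy).2
    obtain ⟨i, ⟨rfl, he⟩ | ⟨rfl, he⟩⟩ := hyz
    · have hz0 : y + ee i ∈ C0 := by
        by_contra hn; exact hz ((hm _).2 ⟨(h.wf.sub he).2, hn⟩)
      exact ((h.edge _ he fun h0 => hy0 (h.wf0.sub h0).1).2.2 hz0).1
    · have hz0 : z ∈ C0 := by
        by_contra hn; exact hz ((hm _).2 ⟨(h.wf.sub he).1, hn⟩)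
      exact ((h.edge _ he fun h0 => hy0 (h.wf0.sub h0).2).2.1 hz0).1
  intro y hy hy0
  exact ⟨min_prin D h1 v (fun y hy => (h2 y hy).le) (fun y hy z hyz hz => (hP z (h3 y hy z hyz hz)).1)
      y ((hm y).2 ⟨hy, hy0⟩),
    max_prin D h1 v (fun y hy => (h2 y hy).ge) (fun y hy z hyz hz => (hP z (h3 y hy z hyz hz)).2)
      y ((hm y).2 ⟨hy, hy0⟩)⟩

/-- Everything is controlled by the oscillation on the ports of the corrected function. -/
theorem Cut.inside (h : Cut G G0 C C0 x ρ P T) {v v0 : V d → ℝ} {R : ℕ} (hR : ρ ≤ R) {Q o : ℝ}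
    (hQ0 : 0 ≤ Q) (ho : 0 ≤ o)
    (hQ : ∀ w : V d → ℝ, ∀ a ∈ P, ∀ b ∈ P, |w a - w b| ≤ Q * en G0 x (2 * ρ) w)
    (hv : ∀ y ∈ C, y ∉ C0 → lapG G v y = 0)
    (h1 : ∀ y ∈ cap C0 (box x R), lapG G0 v0 y = chg G G0 P v y)
    (h2 : ∀ y, y ∉ cap C0 (box x R) → v0 y = 0)
    (h3 : ∀ a ∈ P, ∀ b ∈ P, |(v a - v0 a) - (v b - v0 b)| ≤ o) :
    en (G \ G0) x (ρ + 1) v ≤ √(T.card) * o ∧ l1 (chg G G0 P v) ≤ T.card * o ∧
    en G0 x (R + 1) v0 ≤ √(T.card) * o ∧
    (∀ a ∈ P, ∀ b ∈ P, |v a - v b| ≤ (1 + Q * √(T.card)) * o) ∧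
    ∀ a ∈ C, a ∉ C0 → ∀ b ∈ C, b ∉ C0 → |v a - v b| ≤ (1 + Q * √(T.card)) * o := by
  set Ei := en (G \ G0) x (ρ + 1) v with hEi
  set E0 := en G0 x (R + 1) v0 with hE0
  set t : ℝ := √(T.card) with ht
  have ht0 : 0 ≤ t := Real.sqrt_nonneg _
  have htt : t * t = T.card := Real.mul_self_sqrt (Nat.cast_nonneg _)
  have hEi0 : 0 ≤ Ei := en_nonneg _ _ _ _
  have hE00 : 0 ≤ E0 := en_nonneg _ _ _ _
  have hz : ∀ y ∈ C0, y ∉ box x R → v0 y = 0 := fun y _ hy => h2 y fun h4 => hy (mem_cap.1 h4).1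
  have a1 : pair (chg G G0 P v) v = Ei ^ 2 := by
    rw [h.pair_chg hv, hEi, en, l2_sq]
    exact sum_congr rfl fun e _ => (sq _).symm
  have a2 : pair (chg G G0 P v) v0 = - E0 ^ 2 := by
    have hs := sbp_box h.wf0.sub v0 v0 (le_refl (R + 1)) hz
    have hP : (chg G G0 P v).support ⊆ box x R := fun y hy =>
      box_mono x hR (h.port y (chg_support G G0 P v hy)).2
    rw [pair_eq_sum hP, hE0, en_sq]
    calc ∑ y ∈ box x R, chg G G0 P v y * v0 y = ∑ y ∈ box x R, v0 y * lapG G0 v0 y := by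
          refine sum_congr rfl fun y _ => ?_
          by_cases hy : y ∈ cap C0 (box x R)
          · rw [h1 y hy, mul_comm]
          · rw [h2 y hy]; simp
      _ = _ := by rw [hs]; congr 1; exact sum_congr rfl fun e _ => by ring
  have a3 : pair (chg G G0 P v) (fun y => v y - v0 y) ≤ l1 (chg G G0 P v) * o := by
    rcases P.eq_empty_or_nonempty with hP | ⟨b, hb⟩
    · have h4 : (chg G G0 P v).support ⊆ ∅ := hP ▸ chg_support G G0 P v
      rw [pair_eq_sum h4, sum_empty]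
      exact mul_nonneg (l1_nonneg _) ho
    · rw [← pair_sub_const (h.total_chg hv) _ (v b - v0 b)]
      exact (le_abs_self _).trans
        (abs_pair_le_l1 fun y hy => h3 y (chg_support G G0 P v hy) b hb)
  have a4 : l1 (chg G G0 P v) ≤ t * Ei := h.l1_chg_le v
  have a5 : Ei ^ 2 + E0 ^ 2 ≤ t * o * Ei := by
    rw [pair_sub_right, a1, a2] at a3
    nlinarith [mul_le_mul_of_nonneg_right a4 ho]
  have hto : 0 ≤ t * o := mul_nonneg ht0 ho
  have b1 : Ei ≤ t * o := by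
    by_contra hn
    have hn' : t * o < Ei := not_le.1 hn
    nlinarith [sq_nonneg E0]
  have b2 : E0 ≤ t * o := by
    refine (abs_le_of_sq_le_sq' ?_ hto).2
    nlinarith [sq_nonneg (Ei - t * o), mul_le_mul_of_nonneg_left b1 hto]
  have b3 : ∀ a ∈ P, ∀ b ∈ P, |v a - v b| ≤ (1 + Q * t) * o := by
    intro a ha b hb
    have c1 := hQ v0 a ha b hb
    have c2 : en G0 x (2 * ρ) v0 ≤ E0 := en_le_of_supp h.wf0.sub hz x (2 * ρ)
    have c3 := h3 a ha b hb
    have c4 := mul_le_mul_of_nonneg_left (c2.trans b2) hQ0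
    have c5 := abs_add_le ((v a - v0 a) - (v b - v0 b)) (v0 a - v0 b)
    rw [show (v a - v0 a) - (v b - v0 b) + (v0 a - v0 b) = v a - v b by ring] at c5
    linarith
  refine ⟨b1, ?_, b2, b3, fun a ha ha0 b hb hb0 => ?_⟩
  · calc l1 (chg G G0 P v) ≤ t * (t * o) := a4.trans (mul_le_mul_of_nonneg_left b1 ht0)
      _ = T.card * o := by rw [← mul_assoc, htt]
  · rcases P.eq_empty_or_nonempty with hP | hP
    · have c1 := h.between hv (a := 1) (b := 0) (fun y hy => by simp [hP] at hy) a ha ha0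
      linarith [c1.1, c1.2]
    · obtain ⟨m, hm, hm'⟩ := P.exists_min_image v hP
      obtain ⟨M, hM, hM'⟩ := P.exists_max_image v hP
      have c1 := h.between hv (a := v m) (b := v M) fun y hy => ⟨hm' y hy, hM' y hy⟩
      have c2 := c1 a ha ha0
      have c3 := c1 b hb hb0
      have c4 := (abs_le.1 (b3 M hM m hm)).2
      rw [abs_le]; constructor <;> linarith [c2.1, c2.2, c3.1, c3.2]

/-- A potential that is small near the boundary of a box gives a small dual norm. -/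
lemma lam_le_of_small_ins (hw : Wf G C) {u : V d → ℝ} {φ : V d →₀ ℝ}
    (hφ : ∀ y, lapG G u y = φ y) {q : ℕ} (hs : φ.support ⊆ box x q) {ε : ℝ} (hε : 0 ≤ ε)
    (hu : ∀ y ∈ C, q ≤ nd x y → |u y| ≤ ε) :
    lam G C x (q + 1) φ ≤ 2 * d * ε * vol d (q + 1) := by
  have hv := vol_pos d (q + 1)
  refine lam_le (by positivity) fun h H hn => ?_
  set χ : V d → ℝ := fun y => if y ∈ box x q then 1 else 0 with hχ
  have hg := green_cutoff hw.sub χ h u (x := x) (le_refl (q + 1)) fun y hy => if_neg hy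
  have e1 : pair φ h = ∑ y ∈ box x q, χ y * (h y * lapG G u y - u y * lapG G h y) := by
    rw [pair_eq_sum hs]
    refine sum_congr rfl fun y hy => ?_
    rw [H y (box_mono x (Nat.le_succ q) hy), hφ]
    simp only [hχ, if_pos hy]; ring
  set T : Finset (E d) := (boxE x (q + 1)).filter fun e => grad χ e ≠ 0 with hT
  have hTe : ∀ e ∈ T, (q ≤ nd x e.1 ∧ nd x e.1 ≤ q + 1) ∧
      q ≤ nd x (e.1 + ee e.2) ∧ nd x (e.1 + ee e.2) ≤ q + 1 := by
    intro e he
    have h1 := (mem_filter.1 he).2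
    have h2 := nd_triangle x e.1 (e.1 + ee e.2)
    have h3 := nd_triangle x (e.1 + ee e.2) e.1
    rw [nd_comm (e.1 + ee e.2) e.1] at h3
    rw [nd_add_ee] at h2 h3
    simp only [grad, hχ, mem_box_nd] at h1
    split_ifs at h1 with h4 h5 h5
    · simp at h1
    · omega
    · omega
    · simp at h1
  have hχ1 : ∀ e, |grad χ e| ≤ 1 := fun e => by
    simp only [grad, hχ]; split_ifs <;> simp
  have e2 : - ∑ e ∈ boxE x (q + 1), wt G e * (grad χ e * (h e.1 * grad u e - u e.1 * grad h e)) ≤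
      ∑ e ∈ cap G T, (ε * |h e.1| + ε * |h (e.1 + ee e.2)|) := by
    rw [← sum_subset (filter_subset (fun e => grad χ e ≠ 0) _) fun e he hn => ?_, ← hT,
      ← sum_cap_eq_wt, ← sum_neg_distrib]
    · refine sum_le_sum fun e he => (neg_le_abs _).trans ?_
      obtain ⟨heT, heG⟩ := mem_cap.1 he
      obtain ⟨c1, c2⟩ := hw.sub heG
      have u1 := hu _ c1 (hTe e heT).1.1
      have u2 := hu _ c2 (hTe e heT).2.1
      rw [abs_mul]
      refine (mul_le_of_le_one_left (abs_nonneg _) (hχ1 e)).trans ?_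
      rw [show h e.1 * grad u e - u e.1 * grad h e =
        u (e.1 + ee e.2) * h e.1 - u e.1 * h (e.1 + ee e.2) by simp only [grad]; ring]
      refine (abs_sub _ _).trans ?_
      rw [abs_mul, abs_mul]
      exact add_le_add (mul_le_mul_of_nonneg_right u2 (abs_nonneg _))
        (mul_le_mul_of_nonneg_right u1 (abs_nonneg _))
    · have h0 : grad χ e = 0 := by
        by_contra h0; exact hn (mem_filter.2 ⟨he, h0⟩)
      rw [h0]; simp
  have e3 := sum_edge_fst_le hw.sub T (box x (q + 1))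
    (fun e he _ => mem_box_nd.2 (hTe e he).1.2) (f := fun y => |h y|) fun y => abs_nonneg _
  have e4 := sum_edge_snd_le hw.sub T (box x (q + 1))
    (fun e he _ => mem_box_nd.2 (hTe e he).2.2) (f := fun y => |h y|) fun y => abs_nonneg _
  have e5 : ∑ y ∈ cap C (box x (q + 1)), |h y| ≤ vol d (q + 1) := by
    refine (sum_abs_le_l2 _ _).trans ?_
    rw [l2_eq_nrm]
    have c1 : ((cap C (box x (q + 1))).card : ℝ) ≤ vol d (q + 1) := by
      rw [← card_box_vol x]; exact_mod_cast card_le_card (cap_subset _ _)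
    calc _ ≤ √(vol d (q + 1)) * (√(vol d (q + 1)) * 1) :=
          mul_le_mul (Real.sqrt_le_sqrt c1) (mul_le_mul_of_nonneg_left hn (Real.sqrt_nonneg _))
            (mul_nonneg (Real.sqrt_nonneg _) (nrm_nonneg _ _ _ _)) (Real.sqrt_nonneg _)
      _ = _ := by rw [mul_one, Real.mul_self_sqrt hv.le]
  rw [e1, hg]
  refine e2.trans ?_
  rw [sum_add_distrib, ← mul_sum, ← mul_sum]
  have e6 := mul_le_mul_of_nonneg_left e5 (Nat.cast_nonneg (α := ℝ) d)
  nlinarith [mul_le_mul_of_nonneg_left (e3.trans e6) hε, mul_le_mul_of_nonneg_left (e4.trans e6) hε]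

/-- Faster than polynomial decay of the potential gives fast decay of the dual norms. -/
theorem lam_small_of_SD (hw : Wf G C) {u : V d → ℝ} {φ : V d →₀ ℝ}
    (hφ : ∀ y, lapG G u y = φ y) (hu : SD C u) {L A : ℕ} (hL : 1 ≤ L) (hA : 2 ≤ A) {Λ : ℝ}
    (hΛ : 0 < Λ) : ∃ n1 : ℕ, ∀ n ≥ n1, lam G C 0 (sc L A n) φ ≤ 1 / Λ ^ n := by
  obtain ⟨k, hk⟩ := pow_unbounded_of_one_lt Λ (one_lt_two (α := ℝ))
  obtain ⟨R, hR⟩ := hu (d + k + 1)
  obtain ⟨R', hR'⟩ := exists_box φ.support.finite_toSet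
  refine ⟨R + R' + 2 * d * 5 ^ d * 2 ^ k + 1, fun n hn => ?_⟩
  have h1 : 2 ^ n ≤ sc L A n :=
    (Nat.pow_le_pow_left hA n).trans (Nat.le_mul_of_pos_left _ hL)
  have h2 : n < 2 ^ n := Nat.lt_two_pow_self
  obtain ⟨q, hq⟩ : ∃ q, sc L A n = q + 1 := ⟨sc L A n - 1, by omega⟩
  rw [hq] at h1 ⊢
  have hq1 : (1 : ℝ) ≤ q := by exact_mod_cast (by omega : 1 ≤ q)
  have hq0 : (0 : ℝ) < q := by linarith
  have hq2 : (2 * d * 5 ^ d * 2 ^ k : ℝ) ≤ q := by
    exact_mod_cast (by omega : 2 * d * 5 ^ d * 2 ^ k ≤ q)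
  refine (lam_le_of_small_ins hw hφ (q := q) (ε := 1 / (q : ℝ) ^ (d + k + 1))
    (fun y hy => box_mono 0 (by omega) (hR' hy)) (by positivity) fun y hy hy' => ?_).trans ?_
  · have h3 := hR y hy fun h4 => by rw [mem_box_nd] at h4; omega
    rw [le_div_iff₀ (by positivity)]
    refine le_trans (mul_le_mul_of_nonneg_left ?_ (abs_nonneg _)) h3
    exact pow_le_pow_left₀ hq0.le (by exact_mod_cast hy') _
  · have h3 : vol d (q + 1) ≤ 5 ^ d * (q : ℝ) ^ d := by
      rw [vol, ← mul_pow]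
      exact pow_le_pow_left₀ (by positivity) (by push_cast; linarith) _
    have h4 : Λ ^ n ≤ 2 ^ k * (q : ℝ) ^ k := by
      calc Λ ^ n ≤ (2 ^ k) ^ n := pow_le_pow_left₀ hΛ.le hk.le _
        _ = (2 ^ n) ^ k := by rw [← pow_mul, ← pow_mul, mul_comm]
        _ ≤ (2 * q) ^ k := by
            refine pow_le_pow_left₀ (by positivity) ?_ _
            have : ((2 : ℝ)) ^ n ≤ q + 1 := by exact_mod_cast h1
            linarith
        _ = _ := mul_pow _ _ _
    rw [le_div_iff₀ (by positivity)]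
    calc 2 * d * (1 / (q : ℝ) ^ (d + k + 1)) * vol d (q + 1) * Λ ^ n
        ≤ 2 * d * (1 / (q : ℝ) ^ (d + k + 1)) * (5 ^ d * (q : ℝ) ^ d) * (2 ^ k * (q : ℝ) ^ k) := by
          have := (vol_pos d (q + 1)).le
          gcongr
      _ = (2 * d * 5 ^ d * 2 ^ k) / q := by field_simp; ring
      _ ≤ 1 := by rw [div_le_one hq0]; exact hq2

end Pool.Agent.P.MP_b4265e_pr.R
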