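import Pool.Agent.P.MP_b4265e_pr.R.Avg

/-!
Interpolation of gradients by almost harmonic functions of polynomial growth.
-/

namespace Pool.Agent.P.MP_b4265e_pr.R

open Finset
open scoped Classical

namespace Interp

open Polynomial

/-- Degree at most `m` and coefficients bounded by `N`. -/
def Bd (m : ℕ) (N : ℝ) (P : ℂ[X]) : Prop := P.natDegree ≤ m ∧ ∀ j, ‖P.coeff j‖ ≤ N

variable {m : ℕ} {N : ℝ} {P : ℂ[X]}

lemma Bd.nonneg (h : Bd m N P) : 0 ≤ N := (norm_nonneg _).trans (h.2 0)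

lemma Bd.mono (h : Bd m N P) {N' : ℝ} (hN : N ≤ N') : Bd m N' P :=
  ⟨h.1, fun j => (h.2 j).trans hN⟩

lemma Bd.eval_le (h : Bd m N P) {z : ℂ} {R : ℝ} (hR : 1 ≤ R) (hz : ‖z‖ ≤ R) :
    ‖P.eval z‖ ≤ (m + 1) * N * R ^ m := by
  rw [eval_eq_sum_range' (Nat.lt_succ_of_le h.1)]
  refine (norm_sum_le _ _).trans ((sum_le_card_nsmul _ _ (N * R ^ m) fun j hj => ?_).trans ?_)
  · rw [norm_mul, norm_pow]
    exact mul_le_mul (h.2 j) ((pow_le_pow_left₀ (norm_nonneg _) hz j).trans
      (pow_le_pow_right₀ hR (Nat.lt_succ_iff.1 (mem_range.1 hj)))) (by positivity) h.nonneg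
  · simp [mul_assoc]

lemma Bd.tail (h : Bd m N P) (t : ℕ) {z : ℂ} (hz : ‖z‖ ≤ 1) :
    ‖P.eval z - ∑ k ∈ range t, P.coeff k * z ^ k‖ ≤ (m + 1) * N * ‖z‖ ^ t := by
  rw [eval_eq_sum_range' (n := t + (m + 1)) (by have := h.1; omega), sum_range_add,
    add_sub_cancel_left]
  refine (norm_sum_le _ _).trans ((sum_le_card_nsmul _ _ (N * ‖z‖ ^ t) fun j _ => ?_).trans ?_)
  · rw [norm_mul, norm_pow]
    exact mul_le_mul (h.2 _) (pow_le_pow_of_le_one (norm_nonneg _) hz (by omega)) (by positivity)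
      h.nonneg
  · simp [mul_assoc]

lemma Bd.hasse (h : Bd m N P) (k : ℕ) : Bd m (2 ^ m * N) (hasseDeriv k P) := by
  refine ⟨(natDegree_hasseDeriv_le P k).trans (by have := h.1; omega), fun j => ?_⟩
  have h0 := h.nonneg
  rw [hasseDeriv_coeff]
  by_cases hj : j + k ≤ m
  · rw [norm_mul, Complex.norm_natCast]
    refine mul_le_mul ?_ (h.2 _) (norm_nonneg _) (by positivity)
    exact_mod_cast (Nat.choose_le_two_pow _ _).trans (Nat.pow_le_pow_right (by omega) hj)
  · rw [coeff_eq_zero_of_natDegree_lt (by have := h.1; omega), mul_zero, norm_zero]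
    positivity

/-- The constant lost in one Taylor shift. -/
noncomputable def K (m : ℕ) : ℝ := (m + 1) * 2 ^ m

lemma one_le_K (m : ℕ) : 1 ≤ K m :=
  one_le_mul_of_one_le_of_one_le (by simp) (one_le_pow₀ one_le_two)

lemma Bd.taylor (h : Bd m N P) {z : ℂ} {R : ℝ} (hR : 1 ≤ R) (hz : ‖z‖ ≤ R) :
    Bd m (K m * N * R ^ m) (taylor z P) :=
  ⟨by rw [natDegree_taylor]; exact h.1, fun j => by
    rw [taylor_coeff]
    exact ((h.hasse j).eval_le hR hz).trans_eq (by unfold K; ring)⟩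

lemma Bd.diff (h : Bd m N P) {z : ℂ} (hz : ‖z‖ ≤ 1) :
    Bd m (K m * N * ‖z‖) (Polynomial.taylor z P - P) := by
  refine ⟨(natDegree_sub_le _ _).trans (by rw [natDegree_taylor, max_self]; exact h.1),
    fun j => ?_⟩
  have h1 := (h.hasse j).tail 1 hz
  rw [sum_range_one, hasseDeriv_coeff] at h1
  rw [coeff_sub, taylor_coeff]
  simp only [zero_add, Nat.choose_self, Nat.cast_one, one_mul, pow_zero, mul_one, pow_one] at h1
  exact h1.trans_eq (by unfold K; ring)

lemma Bd.mul_lin (h : Bd m N P) {u w : ℂ} {A : ℝ} (hu : ‖u‖ ≤ A) (hw : ‖w‖ ≤ 2) :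
    Bd (m + 1) (3 * A * N) (C u * (X - C w) * P) := by
  have h0 := h.nonneg
  refine ⟨?_, fun j => ?_⟩
  · refine natDegree_mul_le.trans ?_
    have := (natDegree_C_mul_le u (X - C w)).trans (natDegree_X_sub_C_le w)
    have := h.1
    omega
  · have h1 : ‖(X * P).coeff j‖ ≤ N := by
      rcases j with _ | j
      · simpa using h0
      · rw [coeff_X_mul]; exact h.2 j
    have h2 : ‖w * P.coeff j‖ ≤ 2 * N := by
      rw [norm_mul]; exact mul_le_mul hw (h.2 j) (norm_nonneg _) zero_le_two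
    rw [mul_assoc, coeff_C_mul, sub_mul, coeff_sub, coeff_C_mul, norm_mul]
    have h3 := (norm_sub_le ((X * P).coeff j) (w * P.coeff j)).trans (add_le_add h1 h2)
    exact (mul_le_mul hu h3 (norm_nonneg _) ((norm_nonneg _).trans hu)).trans_eq (by ring)

lemma bd_prod {ι : Type*} (s : Finset ι) {u w : ι → ℂ} {A : ℝ} (hu : ∀ l ∈ s, ‖u l‖ ≤ A)
    (hw : ∀ l ∈ s, ‖w l‖ ≤ 2) :
    Bd s.card ((3 * A) ^ s.card) (∏ l ∈ s, C (u l) * (X - C (w l))) := by
  induction s using Finset.induction_on with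
  | empty =>
    refine ⟨by simp, fun j => ?_⟩
    rw [prod_empty, coeff_one]
    split_ifs <;> simp
  | insert a s ha ih =>
    rw [prod_insert ha, card_insert_of_notMem ha, pow_succ']
    exact (ih (fun l hl => hu l (mem_insert_of_mem hl))
      fun l hl => hw l (mem_insert_of_mem hl)).mul_lin (hu a (mem_insert_self _ _))
      (hw a (mem_insert_self _ _))

lemma Bd.prim (h : Bd m N P) : ∃ F, Bd (m + 1) N F ∧ derivative F = P := by
  have h0 := h.nonneg
  let F : ℂ[X] := ∑ j ∈ range (m + 1), monomial (j + 1) (P.coeff j / (j + 1))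
  have hF : ∀ j, F.coeff (j + 1) = P.coeff j / (j + 1) := fun j => by
    simp only [F, finsetSum_coeff, coeff_monomial, Nat.add_right_cancel_iff, sum_ite_eq',
      mem_range]
    split_ifs with hj
    · rfl
    · rw [coeff_eq_zero_of_natDegree_lt (by have := h.1; omega), zero_div]
  have hne : ∀ j : ℕ, (j : ℂ) + 1 ≠ 0 := fun j => by exact_mod_cast Nat.succ_ne_zero j
  refine ⟨F, ⟨natDegree_sum_le_of_forall_le _ _ fun j hj => (natDegree_monomial_le _).trans ?_,
    fun j => ?_⟩, ?_⟩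
  · exact mem_range.1 hj
  · rcases j with _ | j
    · simpa [F, finsetSum_coeff, coeff_monomial] using h0
    · rw [hF, norm_div]
      refine (div_le_self (norm_nonneg _) ?_).trans (h.2 j)
      rw [show (j : ℂ) + 1 = ((j + 1 : ℕ) : ℂ) by push_cast; ring, Complex.norm_natCast]
      simp
  · ext j
    rw [coeff_derivative, hF, div_mul_cancel₀ _ (hne j)]

/-- A polynomial whose derivative interpolates an indicator. -/
lemma exists_poly {A : ℝ} (hA : 1 ≤ A) (ζ : Fin m → ℂ) (b : Fin m) (h1 : ∀ l, ‖ζ l‖ ≤ 2)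
    (h2 : ∀ l, l ≠ b → 1 ≤ A * ‖ζ b - ζ l‖) :
    ∃ F, Bd m ((3 * A) ^ m) F ∧ ∀ l, (derivative F).eval (ζ l) = if l = b then 1 else 0 := by
  have hne : ∀ l, l ≠ b → ζ b - ζ l ≠ 0 := fun l hl e => by
    have := h2 l hl
    rw [e, norm_zero, mul_zero] at this
    linarith
  obtain ⟨F, hF, hd⟩ := (bd_prod (univ.erase b) (u := fun l => (ζ b - ζ l)⁻¹) (w := ζ) (A := A)
    (fun l hl => by
      have hl := ne_of_mem_erase hl
      rw [norm_inv, inv_eq_one_div, div_le_iff₀ (norm_pos_iff.2 (hne l hl))]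
      exact h2 l hl) fun l _ => h1 l).prim
  have hm := b.pos
  rw [card_erase_of_mem (mem_univ _), card_univ, Fintype.card_fin,
    show m - 1 + 1 = m by omega] at hF
  refine ⟨F, hF.mono (pow_le_pow_right₀ (by linarith) (by omega)), fun l => ?_⟩
  rw [hd, eval_prod]
  split_ifs with hl
  · subst hl
    refine prod_eq_one fun k hk => ?_
    simp [inv_mul_cancel₀ (hne k (ne_of_mem_erase hk))]
  · exact prod_eq_zero (mem_erase.2 ⟨hl, mem_univ _⟩) (by simp)

/-- The five-point Laplacian of a polynomial is of fourth order. -/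
lemma Bd.five (h : Bd m N P) {z : ℂ} (hz : ‖z‖ ≤ 1) :
    ‖P.eval z + P.eval (-z) + P.eval (Complex.I * z) + P.eval (-(Complex.I * z)) -
      4 * P.eval 0‖ ≤ 4 * ((m + 1) * N * ‖z‖ ^ 4) := by
  have hI : ‖Complex.I * z‖ = ‖z‖ := by simp
  have h1 := h.tail 4 hz
  have h2 := h.tail 4 (z := -z) (by rwa [norm_neg])
  have h3 := h.tail 4 (z := Complex.I * z) (by rwa [hI])
  have h4 := h.tail 4 (z := -(Complex.I * z)) (by rwa [norm_neg, hI])
  rw [norm_neg] at h2 h4
  rw [hI] at h3 h4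
  refine le_trans (le_of_eq ?_) ((norm_add_le_of_le (norm_add_le_of_le (norm_add_le_of_le h1 h2) h3)
    h4).trans_eq (by ring))
  congr 1
  simp only [sum_range_succ, sum_range_zero, ← coeff_zero_eq_eval_zero]
  linear_combination (2 * P.coeff 2 * z ^ 2) * Complex.I_sq

variable {d : ℕ}

/-- The rescaled projection to the complex plane. -/
noncomputable def lin (α β : Fin d) (r : ℕ) (w : V d) : ℂ :=
  ((w α : ℂ) + Complex.I * w β) / (2 * r)

variable {α β : Fin d} {r : ℕ}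

lemma lin_add (w w' : V d) : lin α β r (w + w') = lin α β r w + lin α β r w' := by
  simp only [lin, Pi.add_apply, Int.cast_add]; ring

lemma lin_sub (w w' : V d) : lin α β r (w - w') = lin α β r w - lin α β r w' := by
  simp only [lin, Pi.sub_apply, Int.cast_sub]; ring

lemma norm_two_r : ‖(2 * r : ℂ)‖ = 2 * r := by simp

lemma norm_lin_le (hr : 1 ≤ r) {w : V d} {ρ : ℕ} (h : ∀ k, |w k| ≤ ρ) :
    ‖lin α β r w‖ ≤ ρ / r := by
  have h0 : (0 : ℝ) < r := by exact_mod_cast hr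
  have h1 : ∀ k, ‖(w k : ℂ)‖ ≤ ρ := fun k => by
    rw [Complex.norm_intCast]; exact_mod_cast h k
  have h2 : ‖(w α : ℂ) + Complex.I * w β‖ ≤ ρ + ρ :=
    norm_add_le_of_le (h1 α) (by simpa using h1 β)
  rw [lin, norm_div, norm_two_r, div_le_div_iff₀ (by positivity) h0]
  nlinarith

lemma re_lin (hr : 1 ≤ r) (w : V d) : 2 * r * (lin α β r w).re = w α := by
  have h0 : (r : ℝ) ≠ 0 := by positivity
  rw [lin, show (2 * r : ℂ) = ((2 * r : ℝ) : ℂ) by push_cast; ring, Complex.div_ofReal_re]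
  simp
  field_simp

lemma im_lin (hr : 1 ≤ r) (w : V d) : 2 * r * (lin α β r w).im = w β := by
  have h0 : (r : ℝ) ≠ 0 := by positivity
  rw [lin, show (2 * r : ℂ) = ((2 * r : ℝ) : ℂ) by push_cast; ring, Complex.div_ofReal_im]
  simp
  field_simp

lemma norm_lin_ee (hr : 1 ≤ r) (j : Fin d) : ‖lin α β r (ee j)‖ ≤ 1 / r := by
  simpa using norm_lin_le (ρ := 1) hr fun k => by
    simp only [ee, Pi.single_apply]; split_ifs <;> simp

/-- The lattice function attached to a polynomial. -/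
noncomputable def fn (α β : Fin d) (r : ℕ) (x : V d) (P : ℂ[X]) (y : V d) : ℝ :=
  2 * r * (P.eval (lin α β r (y - x))).re

lemma difs_fn (hr : 1 ≤ r) (x : V d) (h : Bd m N P) (l : List (Fin d)) :
    ∃ Q, Bd m (K m ^ l.length * N / (r : ℝ) ^ l.length) Q ∧
      difs l (fn α β r x P) = fn α β r x Q := by
  have h0 : (1 : ℝ) ≤ r := by exact_mod_cast hr
  induction l with
  | nil => exact ⟨P, by simpa using h, rfl⟩
  | cons j l ih =>
    obtain ⟨Q, h1, h2⟩ := ih
    have h3 := norm_lin_ee (α := α) (β := β) hr j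
    refine ⟨_, (h1.diff (h3.trans (div_le_one_of_le₀ h0 (by positivity)))).mono ?_, ?_⟩
    · have := h1.nonneg
      have := one_le_K m
      refine (mul_le_mul_of_nonneg_left h3 (by positivity)).trans_eq ?_
      rw [List.length_cons, pow_succ, pow_succ]
      field_simp
    · funext y
      simp only [difs, h2, dif, fn, eval_sub, taylor_eval, Complex.sub_re]
      rw [add_sub_right_comm, lin_add]
      ring

lemma lap_fn (hne : α ≠ β) (x : V d) (P : ℂ[X]) (y : V d) {T : ℂ[X]} {h : ℂ}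
    (hT : T = Polynomial.taylor (lin α β r (y - x)) P) (hh : h = 1 / (2 * r)) :
    lapG Set.univ (fn α β r x P) y = 2 * r * (T.eval h + T.eval (-h) + T.eval (Complex.I * h) +
      T.eval (-(Complex.I * h)) - 4 * T.eval 0).re := by
  have e : ∀ j, wt Set.univ (y, j) * grad (fn α β r x P) (y, j) -
      wt Set.univ (y - ee j, j) * grad (fn α β r x P) (y - ee j, j) =
      2 * r * (T.eval (lin α β r (ee j)) + T.eval (-lin α β r (ee j)) - 2 * T.eval 0).re := by
    intro j
    simp only [wt, Set.mem_univ, if_true, grad, fn, hT, taylor_eval, sub_add_cancel, zero_add]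
    rw [add_sub_right_comm, lin_add, sub_right_comm y (ee j), lin_sub (y - x),
      add_comm (lin α β r (ee j)), neg_add_eq_sub]
    simp only [Complex.sub_re, Complex.add_re, two_mul]
    ring
  have eα : lin α β r (ee α) = h := by simp [lin, ee, hh, hne.symm]
  have eβ : lin α β r (ee β) = Complex.I * h := by simp [lin, ee, hh, hne, div_eq_mul_inv]
  unfold lapG
  simp only [e]
  rw [Fintype.sum_eq_add α β hne fun j hj => ?_, eα, eβ, ← mul_add, ← Complex.add_re]
  · congr 2; ring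
  · have : lin α β r (ee j) = 0 := by simp [lin, ee, hj.1.symm, hj.2.symm]
    rw [this, neg_zero, ← two_mul, sub_self, Complex.zero_re, mul_zero]

end Interp

open Interp in
theorem interp {d : ℕ} (hd : 2 ≤ d) (m B : ℕ) (hB : 1 ≤ B) : ∃ CI : ℝ, 1 ≤ CI ∧
    ∀ (r : ℕ) (x : Fin m → V d) (c i : Fin d) (a b : Fin m), 1 ≤ r →
    (∀ l, x l ∈ box (x a) (2 * r)) → (∀ l l', l ≠ l' → (r : ℤ) ≤ B * |x l c - x l' c|) →
    ∃ ψ : V d → ℝ,
      (∀ l, ∀ ρ : ℕ, ρ ≤ r → ∀ y ∈ box (x l) ρ,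
        |ψ y - ψ (x l) - (if l = b then ((y i - x l i : ℤ) : ℝ) else 0)| ≤ CI * ρ ^ 2 / r) ∧
      ∀ S : ℕ, r ≤ S → Smooth ψ (x a) (2 * S) (CI * r * ((S : ℝ) / r) ^ (m + 3)) S ∧
        ∀ y ∈ box (x a) (2 * S),
          |lapG Set.univ ψ y| ≤ CI * ((S : ℝ) / r) ^ (m + 3) / (r : ℝ) ^ 3 := by
  have hB' : (1 : ℝ) ≤ B := by exact_mod_cast hB
  have hK := one_le_K m
  set N : ℝ := (3 * (2 * B)) ^ m with hN
  have hN1 : 1 ≤ N := one_le_pow₀ (by linarith)
  set C0 : ℝ := (m + 1) * N * 2 ^ m with hC0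
  have hC1 : 1 ≤ C0 := one_le_mul_of_one_le_of_one_le
    (one_le_mul_of_one_le_of_one_le (by simp) hN1) (one_le_pow₀ one_le_two)
  have hK3 : K m ≤ K m ^ 3 := le_self_pow₀ hK (by omega)
  refine ⟨2 * C0 * K m ^ 3, by nlinarith, fun r x c i a b hr hx hs => ?_⟩
  have h1 : (1 : ℝ) ≤ r := by exact_mod_cast hr
  have h0 : (0 : ℝ) < r := by linarith
  obtain ⟨β, hne, hc⟩ : ∃ β, i ≠ β ∧ (c = i ∨ c = β) := by
    by_cases h : c = i
    · have : Nontrivial (Fin d) := Fin.nontrivial_iff_two_le.2 hd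
      obtain ⟨β, hβ⟩ := exists_ne i
      exact ⟨β, hβ.symm, Or.inl h⟩
    · exact ⟨c, Ne.symm h, Or.inr rfl⟩
  have hζ : ∀ l, ‖lin i β r (x l - x a)‖ ≤ 2 := fun l =>
    (norm_lin_le hr (mem_box.1 (hx l))).trans_eq (by push_cast; field_simp)
  obtain ⟨F, hF, hd⟩ := exists_poly (A := 2 * B) (by linarith) (fun l => lin i β r (x l - x a)) b
    hζ fun l hl => by
      have a1 : (r : ℝ) ≤ B * |((x b - x l) c : ℝ)| := by exact_mod_cast hs b l hl.symm
      have a2 : |((x b - x l) c : ℝ)| ≤ 2 * r * ‖lin i β r (x b - x l)‖ := by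
        rcases hc with rfl | rfl
        · rw [← re_lin (β := β) hr, abs_mul, abs_of_pos (by positivity)]
          exact mul_le_mul_of_nonneg_left (Complex.abs_re_le_norm _) (by positivity)
        · rw [← im_lin (α := i) hr, abs_mul, abs_of_pos (by positivity)]
          exact mul_le_mul_of_nonneg_left (Complex.abs_im_le_norm _) (by positivity)
      rw [← lin_sub, sub_sub_sub_cancel_right]
      refine le_of_mul_le_mul_left ?_ h0
      nlinarith [mul_le_mul_of_nonneg_left a2 (show (0 : ℝ) ≤ B by linarith)]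
  have habs : ∀ (z : ℂ) (M : ℝ), ‖z‖ ≤ M → |2 * r * z.re| ≤ 2 * r * M := fun z M h => by
    rw [abs_mul, abs_of_pos (by positivity)]
    exact mul_le_mul_of_nonneg_left ((Complex.abs_re_le_norm _).trans h) (by positivity)
  refine ⟨fn i β r (x a) F, fun l ρ hρ y hy => ?_, fun S hS => ?_⟩
  · have a1 := norm_lin_le (α := i) (β := β) (w := y - x l) hr (mem_box.1 hy)
    have a2 := (hF.taylor one_le_two (hζ l)).tail 2 (a1.trans (div_le_one_of_le₀
      (by exact_mod_cast hρ) h0.le))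
    simp only [sum_range_succ, sum_range_zero, Polynomial.taylor_coeff_zero,
      Polynomial.taylor_coeff_one, Polynomial.taylor_eval, hd l, ← lin_add,
      sub_add_sub_cancel] at a2
    have a3 := habs _ _ (a2.trans (mul_le_mul_of_nonneg_left
      (pow_le_pow_left₀ (norm_nonneg _) a1 2) (by positivity)))
    refine le_trans (le_of_eq ?_) (a3.trans ?_)
    · congr 1
      have := re_lin (α := i) (β := β) hr (y - x l)
      split_ifs <;> simp [fn] at this ⊢ <;> linarith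
    · rw [show 2 * (r : ℝ) * ((m + 1) * (K m * N * 2 ^ m) * ((ρ : ℝ) / r) ^ 2) =
        2 * C0 * K m * ρ ^ 2 / r by rw [hC0]; field_simp]
      gcongr
  have hq : (1 : ℝ) ≤ S / r := (one_le_div h0).2 (by exact_mod_cast hS)
  have hS0 : (0 : ℝ) < S := h0.trans_le (by exact_mod_cast hS)
  have hz : ∀ y ∈ box (x a) (2 * S), ‖lin i β r (y - x a)‖ ≤ 2 * ((S : ℝ) / r) := fun y hy =>
    (norm_lin_le hr (mem_box.1 hy)).trans_eq (by push_cast; ring)
  set q : ℝ := S / r with hqd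
  refine ⟨fun l hl y hy => ?_, fun y hy => ?_⟩
  · obtain ⟨Q, b1, b2⟩ := difs_fn (α := i) (β := β) hr (x a) hF l
    rw [b2]
    refine (habs _ _ (b1.eval_le (by linarith) (hz y hy))).trans ?_
    rw [show 2 * (r : ℝ) * ((m + 1) * (K m ^ l.length * N / r ^ l.length) * (2 * q) ^ m) =
      2 * C0 * K m ^ l.length * r * q ^ (m + l.length) / S ^ l.length by
        rw [hC0, pow_add, mul_pow, hqd, div_pow (S : ℝ) r l.length]; field_simp]
    gcongr
  · rw [lap_fn hne (x a) F y rfl rfl]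
    have a1 : ‖(1 / (2 * r) : ℂ)‖ = 1 / (2 * r) := by rw [norm_div, norm_two_r, norm_one]
    refine (habs _ _ ((hF.taylor (by linarith) (hz y hy)).five
      (a1.trans_le (div_le_one_of_le₀ (by linarith) (by positivity))))).trans ?_
    rw [a1, show 2 * (r : ℝ) * (4 * ((m + 1) * (K m * N * (2 * q) ^ m) * (1 / (2 * r)) ^ 4)) =
      2⁻¹ * C0 * K m * q ^ m / r ^ 3 by rw [hC0, mul_pow]; field_simp; norm_num]
    gcongr
    · norm_num
    · omega

end Pool.Agent.P.MP_b4265e_pr.R
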