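import Pool.Agent.P.MP_b4265e_pr.R.Path

/-!
The graph Laplacian: summation by parts, maximum principle, Dirichlet problem, Caccioppoli
inequality, and the dual norms of charges.
-/

namespace Pool.Agent.P.MP_b4265e_pr.R

open Finset
open scoped Classical

variable {d : ℕ} {G : Set (E d)} {C : Set (V d)}

lemma wt_nonneg (G : Set (E d)) (e : E d) : 0 ≤ wt G e := by
  unfold wt; split_ifs <;> norm_num
lemma wt_le_one (G : Set (E d)) (e : E d) : wt G e ≤ 1 := by
  unfold wt; split_ifs <;> norm_num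
lemma wt_univ (e : E d) : wt Set.univ e = 1 := by simp [wt]
lemma lap_wt_of_mem {e : E d} (h : e ∈ G) : wt G e = 1 := by simp [wt, h]
lemma lap_wt_of_not_mem {e : E d} (h : e ∉ G) : wt G e = 0 := by simp [wt, h]
lemma lapG_add (G : Set (E d)) (u v : V d → ℝ) (y : V d) :
    lapG G (fun z => u z + v z) y = lapG G u y + lapG G v y := by
  simp only [lapG, grad, ← sum_add_distrib]
  exact sum_congr rfl fun i _ => by ring
lemma lapG_sub (G : Set (E d)) (u v : V d → ℝ) (y : V d) :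
    lapG G (fun z => u z - v z) y = lapG G u y - lapG G v y := by
  simp only [lapG, grad, ← sum_sub_distrib]
  exact sum_congr rfl fun i _ => by ring
lemma lapG_mul (G : Set (E d)) (c : ℝ) (u : V d → ℝ) (y : V d) :
    lapG G (fun z => c * u z) y = c * lapG G u y := by
  simp only [lapG, grad, mul_sum]
  exact sum_congr rfl fun i _ => by ring
lemma lapG_neg (G : Set (E d)) (u : V d → ℝ) (y : V d) :
    lapG G (fun z => - u z) y = - lapG G u y := by
  simp only [lapG, grad, ← sum_neg_distrib]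
  exact sum_congr rfl fun i _ => by ring
lemma lapG_const (G : Set (E d)) (c : ℝ) (y : V d) : lapG G (fun _ => c) y = 0 := by
  simp [lapG, grad]
lemma lapG_sum {ι : Type*} (I : Finset ι) (G : Set (E d)) (F : ι → V d → ℝ) (y : V d) :
    lapG G (fun z => ∑ i ∈ I, F i z) y = ∑ i ∈ I, lapG G (F i) y := by
  induction I using Finset.induction_on with
  | empty => simpa using lapG_const G 0 y
  | insert a I ha ih =>
    simp only [sum_insert ha]
    rw [lapG_add, ih]
lemma lap_ee_inj : Function.Injective (ee : Fin d → V d) := by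
  intro i j h
  by_contra hne
  have := congrFun h i
  rw [ee_self, ee_ne hne] at this
  exact one_ne_zero this
lemma lapG_eq_lap (G : Set (E d)) (u : V d → ℝ) (y : V d) : lapG G u y = lap (nbO G) u y := by
  have e : nbO G y = ((univ.filter fun i => (y, i) ∈ G).image fun i => y + ee i) ∪
      ((univ.filter fun i => (y - ee i, i) ∈ G).image fun i => y - ee i) := by
    ext z
    simp only [mem_nbO, adj, mem_union, mem_image, mem_filter, mem_univ, true_and]
    constructor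
    · rintro ⟨i, ⟨rfl, h⟩ | ⟨rfl, h⟩⟩
      · exact Or.inl ⟨i, h, rfl⟩
      · exact Or.inr ⟨i, by simpa using h, by simp⟩
    · rintro (⟨i, h, rfl⟩ | ⟨i, h, rfl⟩)
      · exact ⟨i, Or.inl ⟨rfl, h⟩⟩
      · exact ⟨i, Or.inr ⟨by simp, h⟩⟩
  have hd : Disjoint ((univ.filter fun i => (y, i) ∈ G).image fun i => y + ee i)
      ((univ.filter fun i => (y - ee i, i) ∈ G).image fun i => y - ee i) := by
    rw [disjoint_left]
    intro z hz hz'
    obtain ⟨i, _, rfl⟩ := mem_image.1 hz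
    obtain ⟨j, _, hj⟩ := mem_image.1 hz'
    have := congrFun hj i
    simp only [Pi.add_apply, Pi.sub_apply, ee_apply] at this
    split_ifs at this <;> omega
  rw [lap, e, sum_union hd, sum_image (fun i _ j _ h => lap_ee_inj (add_left_cancel h)),
    sum_image (fun i _ j _ h => lap_ee_inj (sub_right_injective h)), sum_filter, sum_filter,
    ← sum_add_distrib, lapG]
  refine sum_congr rfl fun i _ => ?_
  simp only [wt, grad, sub_add_cancel]
  split_ifs <;> ring
lemma lapG_of_not_mem (hG : G ⊆ ins C) (u : V d → ℝ) {y : V d} (hy : y ∉ C) :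
    lapG G u y = 0 := by
  refine sum_eq_zero fun i _ => ?_
  rw [lap_wt_of_not_mem (fun h => hy (hG h).1),
    lap_wt_of_not_mem (fun h => hy (by simpa using (hG h).2))]
  ring
/-- The Laplacian at `y` only sees the values at `y` and at its neighbours. -/
lemma lapG_congr {u v : V d → ℝ} {y : V d} (h0 : u y = v y) (h : ∀ z, adj G y z → u z = v z) :
    lapG G u y = lapG G v y := by
  rw [lapG_eq_lap, lapG_eq_lap]
  exact sum_congr rfl fun z hz => by rw [h0, h z (mem_nbO.1 hz)]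
lemma lap_adj_mem (hG : G ⊆ ins C) {y z : V d} (h : adj G y z) : y ∈ C ∧ z ∈ C := by
  obtain ⟨i, ⟨rfl, h⟩ | ⟨rfl, h⟩⟩ := h
  · exact hG h
  · exact ⟨(hG h).2, (hG h).1⟩
lemma lapG_congr_C (hG : G ⊆ ins C) {u v : V d → ℝ} (h : ∀ z ∈ C, u z = v z) (y : V d) :
    lapG G u y = lapG G v y := by
  by_cases hy : y ∈ C
  · exact lapG_congr (h y hy) fun z hz => h z (lap_adj_mem hG hz).2
  · rw [lapG_of_not_mem hG u hy, lapG_of_not_mem hG v hy]
/-- The Laplacian at `y` only sees the edges at `y`. -/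
lemma lapG_congr_edges {G' : Set (E d)} {y : V d} (h1 : ∀ i, (y, i) ∈ G ↔ (y, i) ∈ G')
    (h2 : ∀ i, (y - ee i, i) ∈ G ↔ (y - ee i, i) ∈ G') (u : V d → ℝ) :
    lapG G u y = lapG G' u y := by
  refine sum_congr rfl fun i _ => ?_
  simp only [wt, h1 i, h2 i]
lemma lap_wt_sdiff {G0 : Set (E d)} (h : G0 ⊆ G) (e : E d) :
    wt G e = wt G0 e + wt (G \ G0) e := by
  by_cases h0 : e ∈ G0
  · rw [lap_wt_of_mem h0, lap_wt_of_mem (h h0), lap_wt_of_not_mem (fun hh => hh.2 h0), add_zero]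
  · by_cases h1 : e ∈ G
    · rw [lap_wt_of_mem h1, lap_wt_of_not_mem h0, lap_wt_of_mem (G := G \ G0) ⟨h1, h0⟩, zero_add]
    · rw [lap_wt_of_not_mem h1, lap_wt_of_not_mem h0, lap_wt_of_not_mem (fun hh => h1 hh.1),
        add_zero]
lemma lapG_sdiff {G0 : Set (E d)} (h : G0 ⊆ G) (u : V d → ℝ) (y : V d) :
    lapG G u y = lapG G0 u y + lapG (G \ G0) u y := by
  simp only [lapG, ← sum_add_distrib]
  refine sum_congr rfl fun i _ => ?_
  rw [lap_wt_sdiff h (y, i), lap_wt_sdiff h (y - ee i, i)]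
  ring
lemma lapG_univ (u : V d → ℝ) (y : V d) :
    lapG Set.univ u y = ∑ i, (u (y + ee i) - 2 * u y + u (y - ee i)) := by
  refine sum_congr rfl fun i _ => ?_
  simp only [wt_univ, grad, sub_add_cancel]
  ring
lemma Harm.mono {x x' : V d} {r r' : ℕ} {h : V d → ℝ} (H : Harm G x' r' h)
    (hb : box x r ⊆ box x' r') : Harm G x r h := fun y hy => H y (hb hy)
lemma Harm.add {x : V d} {r : ℕ} {h h' : V d → ℝ} (H : Harm G x r h) (H' : Harm G x r h') :
    Harm G x r (fun y => h y + h' y) := fun y hy => by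
  rw [lapG_add, H y hy, H' y hy, add_zero]
lemma Harm.sub {x : V d} {r : ℕ} {h h' : V d → ℝ} (H : Harm G x r h) (H' : Harm G x r h') :
    Harm G x r (fun y => h y - h' y) := fun y hy => by
  rw [lapG_sub, H y hy, H' y hy, sub_zero]
lemma Harm.mul {x : V d} {r : ℕ} {h : V d → ℝ} (H : Harm G x r h) (c : ℝ) :
    Harm G x r (fun y => c * h y) := fun y hy => by
  rw [lapG_mul, H y hy, mul_zero]
lemma harm_const (G : Set (E d)) (x : V d) (r : ℕ) (c : ℝ) : Harm G x r (fun _ => c) :=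
  fun y _ => lapG_const G c y
lemma harm_sum {ι : Type*} (I : Finset ι) {x : V d} {r : ℕ} {F : ι → V d → ℝ}
    (H : ∀ i ∈ I, Harm G x r (F i)) : Harm G x r (fun y => ∑ i ∈ I, F i y) := fun y hy => by
  rw [lapG_sum]
  exact sum_eq_zero fun i hi => H i hi y hy

/-- Summation by parts. -/
lemma sbp (G : Set (E d)) (v w : V d → ℝ) (S : Finset (V d)) (T : Finset (E d))
    (hT : ∀ e ∈ G, e ∉ T → v e.1 = 0 ∧ v (e.1 + ee e.2) = 0)
    (hS : ∀ e ∈ G, (e.1 ∉ S → v e.1 = 0) ∧ (e.1 + ee e.2 ∉ S → v (e.1 + ee e.2) = 0)) :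
    ∑ y ∈ S, v y * lapG G w y = - ∑ e ∈ T, wt G e * (grad v e * grad w e) := by
  have hz : ∀ (e : E d) (a : ℝ), (e ∈ G → a = 0) → a * (wt G e * grad w e) = 0 := by
    intro e a ha
    by_cases he : e ∈ G
    · rw [ha he, zero_mul]
    · rw [lap_wt_of_not_mem he, zero_mul, mul_zero]
  have e1 : ∑ y ∈ S, ∑ i, v y * (wt G (y, i) * grad w (y, i)) =
      ∑ e ∈ T, v e.1 * (wt G e * grad w e) := by
    rw [← sum_product' S univ (fun y i => v y * (wt G (y, i) * grad w (y, i)))]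
    refine sum_congr_of_eq_on_inter ?_ ?_ (fun _ _ _ => rfl)
    · intro e _ he
      exact hz e _ fun hG => (hT e hG he).1
    · intro e _ he
      exact hz e _ fun hG => (hS e hG).1 (by simpa using he)
  have e2 : ∑ y ∈ S, ∑ i, v y * (wt G (y - ee i, i) * grad w (y - ee i, i)) =
      ∑ e ∈ T, v (e.1 + ee e.2) * (wt G e * grad w e) := by
    rw [← sum_product' S univ (fun y i => v y * (wt G (y - ee i, i) * grad w (y - ee i, i)))]
    have hinj : Function.Injective (fun e : E d => ((e.1 - ee e.2, e.2) : E d)) := by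
      rintro ⟨a, i⟩ ⟨b, j⟩ h
      simp only [Prod.mk.injEq] at h
      obtain ⟨h1, rfl⟩ := h
      rw [sub_left_injective h1]
    have e3 : ∑ e ∈ S ×ˢ (univ : Finset (Fin d)),
        v e.1 * (wt G (e.1 - ee e.2, e.2) * grad w (e.1 - ee e.2, e.2)) =
        ∑ e ∈ (S ×ˢ (univ : Finset (Fin d))).image (fun e : E d => ((e.1 - ee e.2, e.2) : E d)),
          v (e.1 + ee e.2) * (wt G e * grad w e) := by
      rw [sum_image (fun a _ b _ h => hinj h)]
      simp only [sub_add_cancel]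
    rw [e3]
    refine sum_congr_of_eq_on_inter ?_ ?_ (fun _ _ _ => rfl)
    · intro e _ he
      exact hz e _ fun hG => (hT e hG he).2
    · intro e _ he
      refine hz e _ fun hG => (hS e hG).2 fun hh => he ?_
      exact mem_image.2 ⟨(e.1 + ee e.2, e.2), by simpa using hh, by simp⟩
  have e4 : ∑ y ∈ S, v y * lapG G w y = ∑ y ∈ S, ∑ i, v y * (wt G (y, i) * grad w (y, i)) -
      ∑ y ∈ S, ∑ i, v y * (wt G (y - ee i, i) * grad w (y - ee i, i)) := by
    rw [← sum_sub_distrib]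
    refine sum_congr rfl fun y _ => ?_
    rw [lapG, mul_sum, ← sum_sub_distrib]
    exact sum_congr rfl fun i _ => by ring
  rw [e4, e1, e2, ← sum_sub_distrib, ← sum_neg_distrib]
  refine sum_congr rfl fun e _ => ?_
  simp only [grad]
  ring
lemma lap_nd_add (x y : V d) (i : Fin d) :
    nd x (y + ee i) ≤ nd x y + 1 ∧ nd x y ≤ nd x (y + ee i) + 1 := by
  have h1 := nd_triangle x y (y + ee i)
  have h2 := nd_triangle x (y + ee i) y
  rw [nd_comm (y + ee i) y] at h2
  rw [nd_add_ee] at h1 h2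
  exact ⟨h1, h2⟩
lemma lap_nd_sub (x y : V d) (i : Fin d) :
    nd x (y - ee i) ≤ nd x y + 1 ∧ nd x y ≤ nd x (y - ee i) + 1 := by
  have := lap_nd_add x (y - ee i) i
  rw [sub_add_cancel] at this
  exact ⟨this.2, this.1⟩
lemma lap_vanish (hG : G ⊆ ins C) {v : V d → ℝ} {x : V d} {r R : ℕ} (hR : r + 1 ≤ R)
    (hv : ∀ y ∈ C, y ∉ box x r → v y = 0) {e : E d} (he : e ∈ G) (he' : e ∉ boxE x R) :
    v e.1 = 0 ∧ v (e.1 + ee e.2) = 0 := by
  rw [mem_boxE', mem_box_nd] at he'
  have := lap_nd_add x e.1 e.2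
  exact ⟨hv _ (hG he).1 (by rw [mem_box_nd]; omega), hv _ (hG he).2 (by rw [mem_box_nd]; omega)⟩
/-- Summation by parts for a function vanishing on `C` off a box. -/
lemma sbp_box (hG : G ⊆ ins C) (v w : V d → ℝ) {x : V d} {r R : ℕ} (hR : r + 1 ≤ R)
    (hv : ∀ y ∈ C, y ∉ box x r → v y = 0) :
    ∑ y ∈ box x r, v y * lapG G w y = - ∑ e ∈ boxE x R, wt G e * (grad v e * grad w e) :=
  sbp G v w _ _ (fun _ he he' => lap_vanish hG hR hv he he')
    (fun _ he => ⟨hv _ (hG he).1, hv _ (hG he).2⟩)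
lemma green_symm (hG : G ⊆ ins C) (v w : V d → ℝ) {x : V d} {r : ℕ}
    (hv : ∀ y ∈ C, y ∉ box x r → v y = 0) (hw : ∀ y ∈ C, y ∉ box x r → w y = 0) :
    ∑ y ∈ box x r, v y * lapG G w y = ∑ y ∈ box x r, w y * lapG G v y := by
  rw [sbp_box hG v w le_rfl hv, sbp_box hG w v le_rfl hw]
  congr 1
  exact sum_congr rfl fun e _ => by ring
/-- Green identity with a cutoff. -/
lemma green_cutoff (hG : G ⊆ ins C) (χ h u : V d → ℝ) {x : V d} {r R : ℕ} (hR : r + 1 ≤ R)
    (hχ : ∀ y, y ∉ box x r → χ y = 0) :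
    ∑ y ∈ box x r, χ y * (h y * lapG G u y - u y * lapG G h y) =
      - ∑ e ∈ boxE x R, wt G e * (grad χ e * (h e.1 * grad u e - u e.1 * grad h e)) := by
  have h1 := sbp_box hG (fun y => χ y * h y) u hR (fun y _ hy => by rw [hχ y hy, zero_mul])
  have h2 := sbp_box hG (fun y => χ y * u y) h hR (fun y _ hy => by rw [hχ y hy, zero_mul])
  have e1 : ∑ y ∈ box x r, χ y * (h y * lapG G u y - u y * lapG G h y) =
      ∑ y ∈ box x r, χ y * h y * lapG G u y - ∑ y ∈ box x r, χ y * u y * lapG G h y := by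
    rw [← sum_sub_distrib]
    exact sum_congr rfl fun y _ => by ring
  rw [e1, h1, h2, ← neg_sub', ← sum_sub_distrib]
  congr 1
  refine sum_congr rfl fun e _ => ?_
  simp only [grad]
  ring
/-- Summation by parts in one direction on the lattice. -/
lemma sum_dif_mul (f g : V d → ℝ) (i : Fin d) {x : V d} {r R : ℕ} (hR : r + 1 ≤ R)
    (h : ∀ y, y ∉ box x r → f y * g y = 0) :
    ∑ y ∈ box x R, f (y + ee i) * dif i g y = - ∑ y ∈ box x R, dif i f y * g y := by
  have e1 := sum_box_shift x (ee i) R (fun y => f y * g y)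
  have e2 : ∑ y ∈ box x r, f y * g y = ∑ y ∈ box (x + ee i) R, f y * g y :=
    sum_subset (box_subset (by rw [nd_comm, nd_add_ee]; omega)) fun y _ hy => h y hy
  have e3 : ∑ y ∈ box x r, f y * g y = ∑ y ∈ box x R, f y * g y :=
    sum_subset (box_mono x (by omega)) fun y _ hy => h y hy
  rw [eq_neg_iff_add_eq_zero, ← sum_add_distrib]
  have e4 : ∑ y ∈ box x R, (f (y + ee i) * dif i g y + dif i f y * g y) =
      ∑ y ∈ box x R, f (y + ee i) * g (y + ee i) - ∑ y ∈ box x R, f y * g y := by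
    rw [← sum_sub_distrib]
    refine sum_congr rfl fun y _ => ?_
    simp only [dif]
    ring
  rw [e4, ← e1, ← e2, ← e3, sub_self]
lemma en_eq_of_supp (hG : G ⊆ ins C) {v : V d → ℝ} {x : V d} {r R : ℕ} (hR : r + 1 ≤ R)
    (hv : ∀ y ∈ C, y ∉ box x r → v y = 0) : en G x R v = en G x (r + 1) v := by
  refine l2_eq_of_zero (cap_mono G (boxE_mono x hR)) fun e he he' => ?_
  have hG' := (mem_cap.1 he).2
  have := lap_vanish hG le_rfl hv hG' (fun hh => he' (mem_cap.2 ⟨hh, hG'⟩))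
  rw [grad, this.1, this.2, sub_zero]
lemma en_le_of_supp (hG : G ⊆ ins C) {v : V d → ℝ} {x : V d} {r : ℕ}
    (hv : ∀ y ∈ C, y ∉ box x r → v y = 0) (x' : V d) (R : ℕ) :
    en G x' R v ≤ en G x (r + 1) v := by
  refine (en_mono G (x' := x) (r' := nd x x' + R + (r + 1)) (by omega) v).trans ?_
  exact (en_eq_of_supp hG (by omega) hv).le

/-- Maximum principle on a finite set of points with infinite components. -/
lemma max_prin (D : Finset (V d)) (hD : ∀ y ∈ D, (comp G y).Infinite) (u : V d → ℝ) {b : ℝ}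
    (h1 : ∀ y ∈ D, 0 ≤ lapG G u y) (h2 : ∀ y ∈ D, ∀ z, adj G y z → z ∉ D → u z ≤ b) :
    ∀ y ∈ D, u y ≤ b := by
  have key := max_principle (nb := nbO G) D (fun y hy => by rw [reach_nbO]; exact hD y hy)
    (fun y => if y ∈ D then u y - b else min (u y - b) 0)
    (fun y hy => by simp only [hy, if_false]; exact min_le_right _ _) (fun y hy => by
      have e : lapG G (fun y => if y ∈ D then u y - b else min (u y - b) 0) y =
          lapG G (fun y => u y - b) y := by
        refine lapG_congr (by simp only [hy, if_true]) fun z hz => ?_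
        by_cases hzD : z ∈ D
        · simp only [hzD, if_true]
        · simp only [hzD, if_false]
          exact min_eq_left (by linarith [h2 y hy z hz hzD])
      rw [← lapG_eq_lap, e, lapG_sub, lapG_const, sub_zero]
      exact h1 y hy)
  intro y hy
  have := key y
  simp only [hy, if_true] at this
  linarith
lemma min_prin (D : Finset (V d)) (hD : ∀ y ∈ D, (comp G y).Infinite) (u : V d → ℝ) {b : ℝ}
    (h1 : ∀ y ∈ D, lapG G u y ≤ 0) (h2 : ∀ y ∈ D, ∀ z, adj G y z → z ∉ D → b ≤ u z) :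
    ∀ y ∈ D, b ≤ u y := by
  have key := max_prin D hD (fun y => - u y) (b := -b)
    (fun y hy => by rw [lapG_neg]; linarith [h1 y hy])
    (fun y hy z hz hzD => neg_le_neg (h2 y hy z hz hzD))
  exact fun y hy => neg_le_neg_iff.1 (key y hy)
lemma abs_max_prin (hw : Wf G C) (S : Finset (V d)) (u : V d → ℝ) {b : ℝ}
    (h1 : ∀ y ∈ S, lapG G u y = 0) (h2 : ∀ z ∈ C, z ∉ S → |u z| ≤ b) :
    ∀ y ∈ C, |u y| ≤ b := by
  have hD : ∀ y ∈ cap C S, (comp G y).Infinite := fun y hy => hw.inf y (mem_cap.1 hy).2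
  have hb : ∀ y ∈ cap C S, ∀ z, adj G y z → z ∉ cap C S → |u z| ≤ b := fun y _ z hz hzD =>
    h2 z (lap_adj_mem hw.sub hz).2 fun hzS => hzD (mem_cap.2 ⟨hzS, (lap_adj_mem hw.sub hz).2⟩)
  have k1 := max_prin (cap C S) hD u (b := b) (fun y hy => (h1 y (mem_cap.1 hy).1).ge)
    (fun y hy z hz hzD => (abs_le.1 (hb y hy z hz hzD)).2)
  have k2 := min_prin (cap C S) hD u (b := -b) (fun y hy => (h1 y (mem_cap.1 hy).1).le)
    (fun y hy z hz hzD => (abs_le.1 (hb y hy z hz hzD)).1)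
  intro y hy
  by_cases hyS : y ∈ S
  · exact abs_le.2 ⟨k2 y (mem_cap.2 ⟨hyS, hy⟩), k1 y (mem_cap.2 ⟨hyS, hy⟩)⟩
  · exact h2 y hy hyS
/-- The Dirichlet problem. -/
lemma exists_dirichlet (hw : Wf G C) (S : Finset (V d)) (f Ψ : V d → ℝ) :
    ∃ h : V d → ℝ, (∀ y ∈ cap C S, lapG G h y = f y) ∧ ∀ y, y ∉ cap C S → h y = Ψ y := by
  obtain ⟨g, hg0, hg1⟩ := exists_killed (nb := nbO G) (cap C S)
    (fun y hy => by rw [reach_nbO]; exact hw.inf y (mem_cap.1 hy).2)
    (fun y => f y - lapG G Ψ y)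
  refine ⟨fun y => Ψ y + g y, fun y hy => ?_, fun y hy => by simp only [hg0 y hy, add_zero]⟩
  rw [lapG_add, lapG_eq_lap G g, hg1 y hy]
  ring

/-- Caccioppoli inequality with a cutoff. -/
lemma cacc (hG : G ⊆ ins C) (χ h : V d → ℝ) {γ : ℝ} (hγ : 0 ≤ γ) (S : Finset (V d))
    (T : Finset (E d)) (hχ : ∀ e, |grad χ e| ≤ γ)
    (hS : ∀ y, χ y ≠ 0 → y ∈ S ∧ lapG G h y = 0 ∧ ∀ i, y + ee i ∈ S ∧ y - ee i ∈ S)
    (hT : ∀ e ∈ T, χ e.1 = 1 ∧ χ (e.1 + ee e.2) = 1) :
    l2 (cap G T) (grad h) ≤ √d * γ * l2 (cap C S) h := by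
  have h0 : ∀ y, y ∉ S → χ y = 0 := fun y hy => by
    by_contra hne
    exact hy (hS y hne).1
  have h0' : ∀ e : E d, e.1 ∉ S → χ (e.1 + ee e.2) = 0 := fun e he => by
    by_contra hne
    exact he (by simpa using ((hS _ hne).2.2 e.2).2)
  have key := sbp G (fun y => χ y ^ 2 * h y) h S (S ×ˢ univ)
    (fun e _ he => by
      have he' : e.1 ∉ S := by simpa using he
      simp [h0 _ he', h0' e he'])
    (fun e _ => ⟨fun he => by simp [h0 _ he], fun he => by simp [h0 _ he]⟩)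
  have hz : ∑ y ∈ S, χ y ^ 2 * h y * lapG G h y = 0 := by
    refine sum_eq_zero fun y _ => ?_
    by_cases hy : χ y = 0
    · simp [hy]
    · rw [(hS y hy).2.1, mul_zero]
  rw [hz, ← sum_cap_eq_wt, eq_comm, neg_eq_zero] at key
  set T' : Finset (E d) := (S ×ˢ univ).filter fun e => grad χ e ≠ 0 with hT'
  have hT'1 : ∀ e ∈ T', e ∈ G → e.1 ∈ S := fun e he _ => by
    simpa using (mem_filter.1 he).1
  have hT'2 : ∀ e ∈ T', e ∈ G → e.1 + ee e.2 ∈ S := fun e he _ => by
    by_contra hn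
    have h1 := h0 _ hn
    have h2 : χ e.1 ≠ 0 := fun hh => (mem_filter.1 he).2 (by rw [grad, h1, hh, sub_zero])
    exact hn ((hS _ h2).2.2 e.2).1
  have b1 := sum_edge_fst_le hG T' S hT'1 (f := fun y => h y ^ 2) fun y => sq_nonneg _
  have b2 := sum_edge_snd_le hG T' S hT'2 (f := fun y => h y ^ 2) fun y => sq_nonneg _
  refine l2_le_of_sq_le (mul_nonneg (mul_nonneg (Real.sqrt_nonneg _) hγ) (l2_nonneg _ _)) ?_
  rw [mul_pow, mul_pow, Real.sq_sqrt (Nat.cast_nonneg d), l2_sq]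
  calc ∑ e ∈ cap G T, grad h e ^ 2 = ∑ e ∈ cap G T, grad (fun y => χ y * h y) e ^ 2 := by
        refine sum_congr rfl fun e he => ?_
        have := hT e (mem_cap.1 he).1
        simp only [grad, this.1, this.2, one_mul]
    _ ≤ ∑ e ∈ cap G (S ×ˢ univ), grad (fun y => χ y * h y) e ^ 2 := by
        refine sum_le_sum_of_subset_of_nonneg (cap_mono G fun e he => ?_) fun _ _ _ => sq_nonneg _
        have : χ e.1 ≠ 0 := by rw [(hT e he).1]; exact one_ne_zero
        simpa using (hS _ this).1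
    _ = ∑ e ∈ cap G (S ×ˢ univ), (grad (fun y => χ y ^ 2 * h y) e * grad h e +
          h e.1 * h (e.1 + ee e.2) * grad χ e ^ 2) := by
        refine sum_congr rfl fun e _ => ?_
        simp only [grad]
        ring
    _ = ∑ e ∈ cap G (S ×ˢ univ), h e.1 * h (e.1 + ee e.2) * grad χ e ^ 2 := by
        rw [sum_add_distrib, key, zero_add]
    _ = ∑ e ∈ cap G T', h e.1 * h (e.1 + ee e.2) * grad χ e ^ 2 := by
        refine (sum_subset (cap_mono G (filter_subset _ _)) fun e he he' => ?_).symm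
        have : grad χ e = 0 := by
          by_contra hne
          exact he' (mem_cap.2 ⟨mem_filter.2 ⟨(mem_cap.1 he).1, hne⟩, (mem_cap.1 he).2⟩)
        rw [this]; ring
    _ ≤ ∑ e ∈ cap G T', γ ^ 2 / 2 * (h e.1 ^ 2 + h (e.1 + ee e.2) ^ 2) := by
        refine sum_le_sum fun e _ => ?_
        have a1 : grad χ e ^ 2 ≤ γ ^ 2 := sq_le_sq' (abs_le.1 (hχ e)).1 (abs_le.1 (hχ e)).2
        have a2 : h e.1 * h (e.1 + ee e.2) ≤ (h e.1 ^ 2 + h (e.1 + ee e.2) ^ 2) / 2 := by
          nlinarith [sq_nonneg (h e.1 - h (e.1 + ee e.2))]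
        calc h e.1 * h (e.1 + ee e.2) * grad χ e ^ 2
            ≤ (h e.1 ^ 2 + h (e.1 + ee e.2) ^ 2) / 2 * grad χ e ^ 2 :=
              mul_le_mul_of_nonneg_right a2 (sq_nonneg _)
          _ ≤ (h e.1 ^ 2 + h (e.1 + ee e.2) ^ 2) / 2 * γ ^ 2 :=
              mul_le_mul_of_nonneg_left a1 (by positivity)
          _ = _ := by ring
    _ ≤ d * γ ^ 2 * ∑ y ∈ cap C S, h y ^ 2 := by
        rw [← mul_sum, sum_add_distrib]
        have : 0 ≤ γ ^ 2 / 2 := by positivity
        calc γ ^ 2 / 2 * (∑ e ∈ cap G T', h e.1 ^ 2 + ∑ e ∈ cap G T', h (e.1 + ee e.2) ^ 2)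
            ≤ γ ^ 2 / 2 * (d * ∑ y ∈ cap C S, h y ^ 2 + d * ∑ y ∈ cap C S, h y ^ 2) :=
              mul_le_mul_of_nonneg_left (add_le_add b1 b2) this
          _ = _ := by ring
/-- Radial cutoffs. -/
lemma exists_cutoff (x : V d) {a b : ℕ} (hab : a < b) : ∃ χ : V d → ℝ,
    (∀ y, nd x y ≤ a → χ y = 1) ∧ (∀ y, b ≤ nd x y → χ y = 0) ∧ (∀ y, 0 ≤ χ y ∧ χ y ≤ 1) ∧
    (∀ e, |grad χ e| ≤ 1 / ((b : ℝ) - a)) ∧
    ∀ e, grad χ e ≠ 0 → (a ≤ nd x e.1 ∧ nd x e.1 ≤ b) ∧
      a ≤ nd x (e.1 + ee e.2) ∧ nd x (e.1 + ee e.2) ≤ b := by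
  have hpos : (0 : ℝ) < (b : ℝ) - a := sub_pos.2 (by exact_mod_cast hab)
  have p1 : ∀ y, nd x y ≤ a → max (min 1 (((b : ℝ) - nd x y) / ((b : ℝ) - a))) 0 = 1 := by
    intro y hy
    have : (nd x y : ℝ) ≤ a := by exact_mod_cast hy
    rw [min_eq_left ((one_le_div hpos).2 (by linarith)), max_eq_left zero_le_one]
  have p2 : ∀ y, b ≤ nd x y → max (min 1 (((b : ℝ) - nd x y) / ((b : ℝ) - a))) 0 = 0 := by
    intro y hy
    have : (b : ℝ) ≤ nd x y := by exact_mod_cast hy
    exact max_eq_right ((min_le_right _ _).trans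
      (div_nonpos_of_nonpos_of_nonneg (by linarith) hpos.le))
  refine ⟨fun y => max (min 1 (((b : ℝ) - nd x y) / ((b : ℝ) - a))) 0, p1, p2,
    fun y => ⟨le_max_right _ _, max_le (min_le_left _ _) zero_le_one⟩, fun e => ?_, fun e he => ?_⟩
  · refine (abs_max_sub_max_le_abs _ _ _).trans ((abs_min_sub_min_le_max _ _ _ _).trans ?_)
    refine max_le (by rw [sub_self, abs_zero]; positivity) ?_
    rw [← sub_div, abs_div, abs_of_pos hpos]
    refine div_le_div_of_nonneg_right ?_ hpos.le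
    obtain ⟨q1, q2⟩ := lap_nd_add x e.1 e.2
    have q1' : (nd x (e.1 + ee e.2) : ℝ) ≤ nd x e.1 + 1 := by exact_mod_cast q1
    have q2' : (nd x e.1 : ℝ) ≤ nd x (e.1 + ee e.2) + 1 := by exact_mod_cast q2
    rw [abs_le]
    constructor <;> linarith
  · obtain ⟨q1, q2⟩ := lap_nd_add x e.1 e.2
    have r1 : ¬ (nd x e.1 ≤ a ∧ nd x (e.1 + ee e.2) ≤ a) := fun hh =>
      he (by simp only [grad]; rw [p1 _ hh.1, p1 _ hh.2, sub_self])
    have r2 : ¬ (b ≤ nd x e.1 ∧ b ≤ nd x (e.1 + ee e.2)) := fun hh =>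
      he (by simp only [grad]; rw [p2 _ hh.1, p2 _ hh.2, sub_self])
    omega
lemma cacc_box (hG : G ⊆ ins C) {h : V d → ℝ} {x : V d} {r R : ℕ} (hr : r + 1 < R)
    (H : Harm G x R h) :
    en G x r h ≤ √d / ((R : ℝ) - r - 1) * l2 (cap C (box x R)) h := by
  obtain ⟨χ, c1, c2, _, c4, _⟩ := exists_cutoff x hr
  have hpos : (0 : ℝ) < (R : ℝ) - (r + 1 : ℕ) := sub_pos.2 (by exact_mod_cast hr)
  have key := cacc hG χ h (one_div_pos.2 hpos).le (box x R) (boxE x r) c4
    (fun y hy => by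
      have hy' : nd x y < R := by
        by_contra hn
        exact hy (c2 y (by omega))
      refine ⟨mem_box_nd.2 hy'.le, H y (mem_box_nd.2 hy'.le), fun i => ⟨?_, ?_⟩⟩
      · have := lap_nd_add x y i
        rw [mem_box_nd]; omega
      · have := lap_nd_sub x y i
        rw [mem_box_nd]; omega)
    (fun e he => by
      rw [mem_boxE', mem_box_nd] at he
      have := lap_nd_add x e.1 e.2
      exact ⟨c1 _ (by omega), c1 _ (by omega)⟩)
  refine key.trans (le_of_eq ?_)
  push_cast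
  rw [mul_one_div, sub_add_eq_sub_sub]
lemma cacc_ann (hG : G ⊆ ins C) {h : V d → ℝ} {x : V d} {a b w : ℕ} (hw : 1 ≤ w) (hwa : w ≤ a)
    (H : ∀ y ∈ ann x (a - w) (b + w), lapG G h y = 0) (T : Finset (E d))
    (hT : ∀ e ∈ T, e.1 ∈ ann x a b ∧ e.1 + ee e.2 ∈ ann x a b) :
    l2 (cap G T) (grad h) ≤ √d / w * l2 (cap C (ann x (a - w) (b + w))) h := by
  have hpos : (0 : ℝ) < w := by exact_mod_cast hw
  by_cases hab : a ≤ b
  · obtain ⟨χ, c1, c2, _, c4, c5⟩ := exists_cutoff x (a := b) (b := b + w) (by omega)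
    obtain ⟨ψ, d1, d2, _, d4, d5⟩ := exists_cutoff x (a := a - w) (b := a) (by omega)
    have e1 : ((b + w : ℕ) : ℝ) - b = w := by push_cast; ring
    have e2 : (a : ℝ) - (a - w : ℕ) = w := by rw [Nat.cast_sub hwa]; ring
    rw [e1] at c4
    rw [e2] at d4
    have key := cacc hG (fun y => χ y - ψ y) h (one_div_pos.2 hpos).le (ann x (a - w) (b + w)) T
      (fun e => by
        have e3 : grad (fun y => χ y - ψ y) e = grad χ e - grad ψ e := by
          simp only [grad]; ring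
        rw [e3]
        by_cases g1 : grad χ e = 0
        · rw [g1, zero_sub, abs_neg]; exact d4 e
        · by_cases g2 : grad ψ e = 0
          · rw [g2, sub_zero]; exact c4 e
          · exfalso
            have a1 := c5 e g1
            have a2 := d5 e g2
            exact g1 (by rw [grad, c1 _ (by omega), c1 _ (by omega), sub_self]))
      (fun y hy => by
        have y1 : a - w < nd x y := by
          by_contra hn
          exact hy (by rw [c1 y (by omega), d1 y (by omega), sub_self])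
        have y2 : nd x y < b + w := by
          by_contra hn
          exact hy (by rw [c2 y (by omega), d2 y (by omega), sub_self])
        have y3 : y ∈ ann x (a - w) (b + w) := mem_ann.2 ⟨y1.le, y2.le⟩
        refine ⟨y3, H y y3, fun i => ⟨?_, ?_⟩⟩
        · have := lap_nd_add x y i
          rw [mem_ann]; omega
        · have := lap_nd_sub x y i
          rw [mem_ann]; omega)
      (fun e he => by
        obtain ⟨t1, t2⟩ := hT e he
        rw [mem_ann] at t1 t2
        rw [c1 _ t1.2, c1 _ t2.2, d2 _ t1.1, d2 _ t2.1, sub_zero]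
        exact ⟨rfl, rfl⟩)
    rwa [mul_one_div] at key
  · refine l2_le_of_sq_le (mul_nonneg (by positivity) (l2_nonneg _ _)) ?_
    rw [sum_eq_zero]
    · positivity
    · intro e he
      have := mem_ann.1 (hT e (mem_cap.1 he).1).1
      omega

end Pool.Agent.P.MP_b4265e_pr.R
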