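import Pool.Agent.P.MP_b4265e_pr.R.TwoScale

/-!
Smooth almost harmonic functions are close to harmonic functions of the graph.
-/

namespace Pool.Agent.P.MP_b4265e_pr.R

open Finset
open scoped Classical

section
variable {d : ℕ} {θ K σ η B : ℝ} {G : Set (E d)} {C : Set (V d)} {φ : Fin d → V d → ℝ}
  {x : V d} {s m m1 : ℕ}

lemma LG_scales (hm : 1 ≤ m) (hη : η ≤ 1 / 100) (H : Meso θ K σ η B G C φ x s m m1) :
    0 < η ∧ 100 ≤ m ∧ 100 * m ≤ s ∧ B ≤ η * s := by
  have h1 := H.one_le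
  have h2 : (1 : ℝ) ≤ m1 := by exact_mod_cast H.m1_pos
  have h3 := H.sep1
  have h4 := H.sep2
  have h5 : (1 : ℝ) ≤ m := by exact_mod_cast hm
  have h6 : (0 : ℝ) ≤ s := Nat.cast_nonneg s
  have h7 : 1 ≤ η * m := by nlinarith
  have h8 : (m : ℝ) ≤ η * s := by nlinarith
  refine ⟨by nlinarith, ?_, ?_, by nlinarith⟩
  · have : (100 : ℝ) ≤ m := by nlinarith
    exact_mod_cast this
  · have : (100 : ℝ) * m ≤ s := by nlinarith
    exact_mod_cast this

lemma LG_nd (x : V d) (i : Fin d) (n : ℕ) : nd x (x + Pi.single i (n : ℤ)) = n := by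
  apply le_antisymm
  · rw [← mem_box_nd, mem_box]
    intro k
    by_cases hk : k = i
    · subst hk; simp
    · simp [Pi.single_eq_of_ne hk]
  · have := abs_le_nd x (x + Pi.single i (n : ℤ)) i
    simp only [Pi.add_apply, Pi.single_eq_same, add_sub_cancel_left, Nat.abs_cast] at this
    exact_mod_cast this

lemma LG_far {x y z : V d} {a b : ℕ} (hy : y ∉ box x (a + b)) (hz : z ∈ box y b) :
    z ∉ box x a := by
  rw [mem_box_nd] at hy hz ⊢
  have := nd_triangle x z y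
  rw [nd_comm z y] at this
  omega

/-- The Poincare inequality for functions supported in the middle box. -/
lemma LG_poin (hd : 1 ≤ d) (hθ : 0 < θ) (hK : 0 < K) (hm : 100 ≤ m) (hs : 100 * m ≤ s)
    (H : Meso θ K σ η B G C φ x s m m1) {w : V d → ℝ} (hw : ∀ y ∈ C, y ∉ box x s → w y = 0) :
    l2 (cap C (box x (2 * s))) w ≤
      (1 + √(10 ^ d / θ)) * (2 * K) * s * en G x (s + 1) w := by
  have i0 : Fin d := ⟨0, hd⟩
  have hz := LG_nd x i0 (s + s / 4 + 1)
  set z := x + Pi.single i0 ((s + s / 4 + 1 : ℕ) : ℤ) with hzd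
  have h1 := poin_dirichlet (G := G) (C := C) hθ hK.le (x := x) (z := z) (r := s) (R := 2 * s)
    (ρ := s / 4) (H.poin x (mem_box_self _ _) _ (by omega) le_rfl)
    (H.dens z (mem_box_nd.2 (by omega)) _ (by omega) (by omega)) (box_subset (by omega))
    (by omega) hw
  rw [en_eq_of_supp H.wf.sub (by omega) hw] at h1
  have h2 : vol d (2 * s) ≤ 10 ^ d * vol d (s / 4) := vol_le_of_le_mul d (by norm_num) (by
    have : 2 * s ≤ 10 * (s / 4) := by omega
    exact_mod_cast this)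
  have h3 : √(vol d (2 * s) / (θ * vol d (s / 4))) ≤ √(10 ^ d / θ) := by
    apply Real.sqrt_le_sqrt
    have := vol_pos d (s / 4)
    rw [div_le_div_iff₀ (by positivity) hθ]
    nlinarith
  have h4 := en_nonneg G x (s + 1) w
  refine h1.trans ?_
  push_cast
  have h5 : 0 ≤ K * (2 * s) * en G x (s + 1) w := by positivity
  nlinarith

lemma LG_grad (G : Set (E d)) (φ : Fin d → V d → ℝ) (ψ : V d → ℝ) (e : E d) :
    wt G e * grad (fun y => ψ y + ∑ i, φ i y * dif i ψ y) e =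
      ∑ i, flx G (φ i) i e * dif i ψ e.1 +
        wt G e * ∑ i, φ i (e.1 + ee e.2) * dif e.2 (dif i ψ) e.1 := by
  have h1 : ∑ i, (if e.2 = i then (1 : ℝ) else 0) * dif i ψ e.1 = dif e.2 ψ e.1 := by simp
  have h2 : ∑ i, flx G (φ i) i e * dif i ψ e.1 =
      wt G e * (dif e.2 ψ e.1 + ∑ i, grad (φ i) e * dif i ψ e.1) := by
    rw [← h1, ← sum_add_distrib, mul_sum]
    refine sum_congr rfl fun i _ => ?_
    unfold flx
    ring
  rw [h2, ← mul_add]
  congr 1
  have h3 : ∑ i, φ i (e.1 + ee e.2) * dif i ψ (e.1 + ee e.2) - ∑ i, φ i e.1 * dif i ψ e.1 =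
      ∑ i, grad (φ i) e * dif i ψ e.1 + ∑ i, φ i (e.1 + ee e.2) * dif e.2 (dif i ψ) e.1 := by
    rw [← sum_sub_distrib, ← sum_add_distrib]
    refine sum_congr rfl fun i _ => ?_
    rw [show dif e.2 (dif i ψ) e.1 = dif i ψ (e.1 + ee e.2) - dif i ψ e.1 from rfl, grad]
    ring
  have h4 : dif e.2 ψ e.1 = ψ (e.1 + ee e.2) - ψ e.1 := rfl
  unfold grad at h3 ⊢
  linarith

/-- The remainder of the two-scale expansion. -/
lemma LG_rem (hB : 0 ≤ B) (hφ : ∀ i y, |φ i y| ≤ B) {ψ w : V d → ℝ} {r R : ℕ} (hr : r ≤ R) {M : ℝ}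
    (hM : 0 ≤ M) (hψ : ∀ y ∈ box x R, ∀ i j, |dif j (dif i ψ) y| ≤ M) :
    |∑ e ∈ boxE x r, wt G e * (grad w e * ∑ i, φ i (e.1 + ee e.2) * dif e.2 (dif i ψ) e.1)| ≤
      en G x r w * (√(d * vol d R) * (d * (B * M))) := by
  rw [← sum_cap_eq_wt]
  refine (abs_sum_mul_le _ _ _).trans (mul_le_mul_of_nonneg_left ?_ (l2_nonneg _ _))
  refine (l2_le_sup (M := d * (B * M)) (by positivity) fun e he => ?_).trans
    (mul_le_mul_of_nonneg_right (Real.sqrt_le_sqrt ?_) (by positivity))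
  · have he1 : e.1 ∈ box x R := box_mono x hr (mem_boxE'.1 (mem_cap.1 he).1)
    refine (abs_sum_le_sum_abs _ _).trans ?_
    refine (sum_le_card_nsmul _ _ (B * M) fun i _ => ?_).trans (by simp)
    rw [abs_mul]
    exact mul_le_mul (hφ _ _) (hψ _ he1 _ _) (abs_nonneg _) hB
  · rw [← card_boxE_vol x R]
    exact_mod_cast card_le_card ((cap_subset _ _).trans (boxE_mono x hr))

/-- The homogenised term. -/
lemma LG_hom {u ψ : V d → ℝ} {r R R' : ℕ} (hR : r + 1 ≤ R) (hR' : r ≤ R')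
    (hu : ∀ y, y ∉ box x r → u y = 0) {M : ℝ} (hM : 0 ≤ M)
    (hψ : ∀ y ∈ box x R', |lapG Set.univ ψ y| ≤ M) :
    |∑ i, ∑ y ∈ box x R, dif i u y * dif i ψ y| ≤ l2 (box x r) u * (√(vol d R') * M) := by
  have h1 := sbp_box (G := Set.univ) (C := Set.univ) (fun _ _ => ⟨trivial, trivial⟩) u ψ
    (x := x) hR fun y _ hy => hu y hy
  rw [sum_boxE] at h1
  simp only [wt_univ, one_mul, grad_eq_dif] at h1
  rw [sum_comm, ← abs_neg, ← h1]
  refine (abs_sum_mul_le _ _ _).trans (mul_le_mul_of_nonneg_left ?_ (l2_nonneg _ _))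
  refine (l2_le_sup hM fun y hy => hψ y (box_mono x hR' hy)).trans
    (mul_le_mul_of_nonneg_right (Real.sqrt_le_sqrt ?_) hM)
  rw [card_box_vol]
  exact vol_mono d hR'

/-- The energy of the error as a sum against the corrected function. -/
lemma LG_energy (hG : G ⊆ ins C) {h Ψ : V d → ℝ} (hh : Harm G x s h)
    (hw : ∀ y ∈ C, y ∉ box x s → Ψ y - h y = 0) {R : ℕ} (hR : s + 1 ≤ R) :
    en G x (s + 1) (fun y => Ψ y - h y) ^ 2 =
      ∑ e ∈ boxE x R, grad (fun y => Ψ y - h y) e * (wt G e * grad Ψ e) := by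
  have h1 := sbp_box hG (fun y => Ψ y - h y) h hR hw
  rw [sum_eq_zero fun y hy => by rw [hh y hy, mul_zero]] at h1
  rw [← en_eq_of_supp hG hR hw, en_sq, ← sub_eq_zero, ← sum_sub_distrib, h1, ← sum_neg_distrib]
  refine sum_congr rfl fun e _ => ?_
  simp only [grad]
  ring

end

theorem lift_of_meso {d : ℕ} (hd : 1 ≤ d) {θ K σ : ℝ} (hθ : 0 < θ) (hK : 0 < K) (hσ : 0 < σ) :
    ∃ K' : ℝ, 0 < K' ∧ ∀ δ : ℝ, 0 < δ → ∃ η0 : ℝ, 0 < η0 ∧ ∀ η ≤ η0,
    ∀ {B : ℝ} {G : Set (E d)} {C : Set (V d)} {φ : Fin d → V d → ℝ} {x : V d} {s m m1 : ℕ},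
    1 ≤ m → Meso θ K σ η B G C φ x s m m1 → Lift K' δ G C x s := by
  obtain ⟨Ct, hCt, hT⟩ := two_scale d hθ hK
  obtain ⟨Cs, hCs, hS⟩ := smoothing d hθ hK
  obtain ⟨P, hP⟩ : ∃ P, P = (1 + √(10 ^ d / θ)) * (2 * K) := ⟨_, rfl⟩
  have hP0 : 0 < P := by rw [hP]; positivity
  obtain ⟨A, hA⟩ : ∃ A, A = d * (Ct * (1 + P)) + √d * d := ⟨_, rfl⟩
  have hA0 : 0 ≤ A := by rw [hA]; positivity
  have hd0 : (0 : ℝ) < d := by exact_mod_cast hd
  refine ⟨P * √(2 ^ d) * (σ * Cs * P), by positivity, fun δ hδ =>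
    ⟨min (1 / 100) (δ / (d + P * √(2 ^ d) * A)), by positivity, ?_⟩⟩
  intro η hη B G C φ x s m m1 hm H ψ M ε hε hψ hlap
  have hη1 : η ≤ 1 / 100 := hη.trans (min_le_left _ _)
  have hη2 : η * (d + P * √(2 ^ d) * A) ≤ δ :=
    (le_div_iff₀ (by positivity)).1 (hη.trans (min_le_right _ _))
  obtain ⟨hη0, hm', hs, hB⟩ := LG_scales hm hη1 H
  have hB0 : 0 ≤ B := zero_le_one.trans H.one_le
  have hs0 : (0 : ℝ) < s := by exact_mod_cast (by omega : 0 < s)
  have hM : 0 ≤ M := by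
    have := hψ [] (by simp) x (mem_box_self _ _)
    simp only [List.length_nil, pow_zero, div_one] at this
    exact (abs_nonneg _).trans this
  have hψ1 : ∀ y ∈ box x (2 * s), ∀ i, |dif i ψ y| ≤ M / s := fun y hy i => by
    simpa [difs] using hψ [i] (by simp) y hy
  have hψ2 : ∀ y ∈ box x (2 * s), ∀ i j, |dif j (dif i ψ) y| ≤ M / s / s := fun y hy i j => by
    have := hψ [j, i] (by simp) y hy
    rw [div_div, ← sq]
    simpa [difs] using this
  have hψ3 : ∀ y ∈ box x (2 * s), ∀ i j k, |dif k (dif j (dif i ψ)) y| ≤ M / s / s ^ 2 :=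
    fun y hy i j k => by
      have := hψ [k, j, i] (by simp) y hy
      rw [div_div, ← pow_succ']
      simpa [difs] using this
  obtain ⟨Ψ, hΨ⟩ : ∃ Ψ : V d → ℝ, Ψ = fun y => ψ y + ∑ i, φ i y * dif i ψ y := ⟨_, rfl⟩
  obtain ⟨h, h1, h2⟩ := exists_dirichlet H.wf (box x s) (fun _ => 0) Ψ
  have hh : Harm G x s h := fun y hy => by
    by_cases hC : y ∈ C
    · exact h1 y (mem_cap.2 ⟨hy, hC⟩)
    · exact lapG_of_not_mem H.wf.sub h hC
  refine ⟨h, hh, ?_⟩
  have hw0 : ∀ y, y ∉ box x s → Ψ y - h y = 0 := fun y hy => by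
    rw [h2 y fun hc => hy (mem_cap.1 hc).1, sub_self]
  have hE := LG_energy H.wf.sub hh (fun y _ hy => hw0 y hy) (R := s + 6 * m) (by omega)
  obtain ⟨w, hw⟩ : ∃ w : V d → ℝ, w = fun y => Ψ y - h y := ⟨_, rfl⟩
  rw [← hw] at hE
  replace hw0 : ∀ y, y ∉ box x s → w y = 0 := fun y hy => by rw [hw]; exact hw0 y hy
  have hwC : ∀ y ∈ C, y ∉ box x s → w y = 0 := fun y _ hy => hw0 y hy
  have hL := LG_poin hd hθ hK hm' hs H hwC
  rw [← hP] at hL
  have hE0 := en_nonneg G x (s + 1) w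
  have hen : ∀ R, s + 1 ≤ R → en G x R w = en G x (s + 1) w := fun R hR =>
    en_eq_of_supp H.wf.sub hR hwC
  have hl2 : ∀ R, R ≤ 2 * s → l2 (cap C (box x R)) w ≤ P * s * en G x (s + 1) w := fun R hR =>
    (l2_mono (cap_mono C (box_mono x hR)) w).trans hL
  obtain ⟨En, hEn⟩ : ∃ En, En = en G x (s + 1) w := ⟨_, rfl⟩
  rw [← hEn] at hE hE0 hen hl2
  obtain ⟨Vl, hVl⟩ : ∃ Vl, Vl = √(vol d (2 * s)) := ⟨_, rfl⟩
  have hV0 : 0 ≤ Vl := by rw [hVl]; positivity
  have t1 : ∀ i, |∑ e ∈ boxE x (s + 6 * m), flx G (φ i) i e * grad w e * dif i ψ e.1 -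
      σ * ∑ y ∈ box x (s + 6 * m), dif i (sm C m w) y * dif i ψ y| ≤
      Ct * (1 + P) * (η * (M / s * Vl * En)) := by
    intro i
    have := hT hσ.le hη1 H (s + 6 * m) (by omega) w (dif i ψ) (M / s) s hs0 le_rfl
      (fun y hy => ⟨hψ1 y hy i, fun j => ⟨hψ2 y hy i j, fun k => hψ3 y hy i j k⟩⟩)
      (fun y hy => Or.inr fun z hz _ => hw0 z (LG_far hy hz)) i
    rw [hen _ (by omega), ← hVl, div_self hs0.ne'] at this
    refine this.trans ?_
    have h3 : l2 (cap C (box x (s + 6 * m + 20 * m))) w / s ≤ P * En := by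
      rw [div_le_iff₀ hs0]
      have := hl2 (s + 6 * m + 20 * m) (by omega)
      linarith
    have h4 : 0 ≤ Ct * η * 1 * (M / s) * Vl := by positivity
    calc _ ≤ Ct * η * 1 * (M / s) * Vl * (En + P * En) :=
          mul_le_mul_of_nonneg_left (by linarith) h4
      _ = _ := by ring
  have t2 : |∑ i, ∑ y ∈ box x (s + 6 * m), dif i (sm C m w) y * dif i ψ y| ≤
      Cs * P * (ε * (M / s * Vl * En)) := by
    have h3 := LG_hom (x := x) (u := sm C m w) (ψ := ψ) (r := s + 5 * m) (R := s + 6 * m)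
      (R' := 2 * s) (by omega) (by omega)
      (fun y hy => sm_eq_zero fun z hz _ => hw0 z (LG_far hy hz)) (by positivity) hlap
    have h4 := (hS G C x (s + 5 * m) m (by omega) (fun z hz r h1 h2 =>
      ⟨H.dens z (box_mono x (by omega) hz) r h1 (by omega),
        H.poin z (box_mono x (by omega) hz) r h1 (by omega)⟩) w).2.2.2.2
    have h5 := h4.trans (mul_le_mul_of_nonneg_left (hl2 _ (by omega)) (by positivity))
    rw [← hVl] at h3
    refine h3.trans ((mul_le_mul_of_nonneg_right h5 (by positivity)).trans (le_of_eq ?_))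
    field_simp
  have t3 : |∑ e ∈ boxE x (s + 6 * m), wt G e * (grad w e *
      ∑ i, φ i (e.1 + ee e.2) * dif e.2 (dif i ψ) e.1)| ≤ √d * d * (η * (M / s * Vl * En)) := by
    have h3 := LG_rem (G := G) (w := w) hB0 H.bdd (r := s + 6 * m) (R := 2 * s) (by omega)
      (by positivity) hψ2
    rw [hen _ (by omega), Real.sqrt_mul hd0.le, ← hVl] at h3
    refine h3.trans ?_
    have h4 : B * (M / s / s) ≤ η * (M / s) := by
      calc B * (M / s / s) ≤ η * s * (M / s / s) := mul_le_mul_of_nonneg_right hB (by positivity)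
        _ = _ := by field_simp
    calc _ ≤ En * (√d * Vl * (d * (η * (M / s)))) := by gcongr
      _ = _ := by ring
  have t4 : En ^ 2 = ∑ i, (∑ e ∈ boxE x (s + 6 * m), flx G (φ i) i e * grad w e * dif i ψ e.1 -
        σ * ∑ y ∈ box x (s + 6 * m), dif i (sm C m w) y * dif i ψ y) +
      σ * ∑ i, ∑ y ∈ box x (s + 6 * m), dif i (sm C m w) y * dif i ψ y +
      ∑ e ∈ boxE x (s + 6 * m), wt G e * (grad w e *
        ∑ i, φ i (e.1 + ee e.2) * dif e.2 (dif i ψ) e.1) := by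
    rw [sum_sub_distrib, ← mul_sum, sub_add_cancel, sum_comm, ← sum_add_distrib, hE]
    refine sum_congr rfl fun e _ => ?_
    rw [hΨ, LG_grad, mul_add, mul_sum]
    congr 1
    · exact sum_congr rfl fun i _ => by ring
    · ring
  have t5 : En ^ 2 ≤ (η * A + ε * (σ * Cs * P)) * (M / s * Vl) * En := by
    have h3 := sum_le_card_nsmul univ _ _ fun i _ => (le_abs_self _).trans (t1 i)
    rw [card_univ, Fintype.card_fin, nsmul_eq_mul] at h3
    have h4 := mul_le_mul_of_nonneg_left ((le_abs_self _).trans t2) hσ.le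
    have h5 := (le_abs_self _).trans t3
    rw [t4, hA]
    refine (add_le_add (add_le_add h3 h4) h5).trans (le_of_eq ?_)
    ring
  have t6 : En ≤ (η * A + ε * (σ * Cs * P)) * (M / s * Vl) := by
    rcases hE0.eq_or_lt with h3 | h3
    · rw [← h3]; positivity
    · rw [sq] at t5
      exact le_of_mul_le_mul_right t5 h3
  have t7 : nrm C x s w ≤ P * √(2 ^ d) * (η * A + ε * (σ * Cs * P)) * M := by
    have h3 : 0 < √(vol d s) := Real.sqrt_pos.2 (vol_pos d s)
    have h4 : Vl ≤ √(2 ^ d) * √(vol d s) := by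
      rw [hVl, ← Real.sqrt_mul (by positivity)]
      exact Real.sqrt_le_sqrt (vol_le_of_le_mul d (by norm_num) (by push_cast; exact le_rfl))
    rw [nrm, div_le_iff₀ h3]
    calc _ ≤ P * s * En := hl2 s (by omega)
      _ ≤ P * s * ((η * A + ε * (σ * Cs * P)) * (M / s * (√(2 ^ d) * √(vol d s)))) := by
          refine mul_le_mul_of_nonneg_left (t6.trans ?_) (by positivity)
          gcongr
      _ = _ := by field_simp
  have t8 : nrm C x s (fun y => ∑ i, φ i y * dif i ψ y) ≤ d * (η * M) := by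
    refine nrm_le_sup (by positivity) fun y hy _ => (abs_sum_le_sum_abs _ _).trans ?_
    refine (sum_le_card_nsmul _ _ (η * M) fun i _ => ?_).trans (by simp)
    rw [abs_mul]
    calc _ ≤ η * s * (M / s) := mul_le_mul ((H.bdd i y).trans hB)
          (hψ1 y (box_mono x (by omega) hy) i) (abs_nonneg _) (by positivity)
      _ = _ := by field_simp
  have t9 : (fun y => h y - ψ y) = fun y => (∑ i, φ i y * dif i ψ y) - w y := by
    funext y
    rw [hw, hΨ]
    ring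
  rw [t9]
  refine (nrm_sub_le C x s _ w).trans ((add_le_add t8 t7).trans ?_)
  calc _ = η * (d + P * √(2 ^ d) * A) * M + P * √(2 ^ d) * (σ * Cs * P) * ε * M := by ring
    _ ≤ δ * M + P * √(2 ^ d) * (σ * Cs * P) * ε * M :=
        add_le_add_left (mul_le_mul_of_nonneg_right hη2 hM) _
    _ = _ := by ring

end Pool.Agent.P.MP_b4265e_pr.R
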