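import Pool.Agent.P.MP_b4265e_pr.R.PIdet
import Pool.Agent.P.MP_b4265e_pr.R.PShift

/-!
Peierls estimate for the renormalised configuration; existence and uniqueness of the infinite
cluster.
-/

namespace Pool.Agent.P.MP_b4265e_pr.R

open Finset MeasureTheory ProbabilityTheory Filter
open scoped Classical

variable {d : ℕ} {p : unitInterval}

namespace PIprobAux

lemma real_bad (n : ℕ) (z : V d) :
    (μP d p).real {O | ¬ GoodN n z O} = (μP d p).real {O | ¬ GoodN n (0 : V d) O} := by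
  rw [← real_sh z fun O => ¬ GoodN n (0 : V d) O]
  simp only [goodN_sh, zero_add]

lemma nd_smul_ee (n : ℕ) (a : V d) (i : Fin d) :
    nd ((n : ℤ) • a) ((n : ℤ) • (a + ee i)) ≤ n := by
  refine mem_box_nd.1 (mem_box.2 fun k => ?_)
  simp only [Pi.smul_apply, Pi.add_apply, smul_eq_mul, ee_apply]
  split_ifs
  · rw [show (n : ℤ) * (a k + 1) - n * a k = n by ring]; simp
  · simp

lemma dep_coarse (n : ℕ) (a : E d) :
    Dep (boxE ((n : ℤ) • a.1) (5 * n + 1)) fun O => a ∉ coarse n O := by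
  have h1 : Dep (boxE ((n : ℤ) • a.1) (5 * n + 1)) (GoodN n ((n : ℤ) • a.1)) :=
    (dep_goodN n _).mono (boxE_mono _ (by omega))
  have h2 : Dep (boxE ((n : ℤ) • a.1) (5 * n + 1)) (GoodN n ((n : ℤ) • (a.1 + ee a.2))) :=
    (dep_goodN n _).mono (boxE_subset (by have := nd_smul_ee n a.1 a.2; omega))
  intro O O' h
  simp only [coarse, Set.mem_ofPred_eq, h1 O O' h, h2 O O' h]

lemma real_closed {n : ℕ} {ε : ℝ} (h : (μP d p).real {O | ¬ GoodN n (0 : V d) O} ≤ ε) (a : E d) :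
    (μP d p).real {O | a ∉ coarse n O} ≤ 2 * ε := by
  have hs : {O : Set (E d) | a ∉ coarse n O} ⊆ {O | ¬ GoodN n ((n : ℤ) • a.1) O} ∪
      {O | ¬ GoodN n ((n : ℤ) • (a.1 + ee a.2)) O} := fun O hO => not_and_or.1 hO
  refine ((measureReal_mono hs).trans (measureReal_union_le _ _)).trans ?_
  rw [real_bad, real_bad n ((n : ℤ) • (a.1 + ee a.2))]
  linarith

lemma real_all_closed {n : ℕ} (hn : 1 ≤ n) {q : ℝ} (hq0 : 0 ≤ q) (hq1 : q ≤ 1)
    (h : (μP d p).real {O | ¬ GoodN n (0 : V d) O} ≤ q ^ (13 ^ d * d) / 2) (U : Finset (E d)) :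
    (μP d p).real {O | ∀ a ∈ U, a ∉ coarse n O} ≤ q ^ U.card := by
  let f : E d → (Fin d → ZMod 13) × Fin d := fun a => (fun k => (a.1 k : ZMod 13), a.2)
  rcases U.eq_empty_or_nonempty with rfl | ⟨a₀, -⟩
  · simp
  obtain ⟨c, -, hc⟩ := exists_max_image (univ : Finset ((Fin d → ZMod 13) × Fin d))
    (fun c => (U.filter fun a => f a = c).card) ⟨f a₀, mem_univ _⟩
  set W := U.filter fun a => f a = c with hW
  have hcard : U.card ≤ 13 ^ d * d * W.card := by
    rw [card_eq_sum_card_fiberwise (f := f) (t := univ) fun _ _ => mem_coe.2 (mem_univ _)]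
    refine (sum_le_card_nsmul _ _ _ hc).trans_eq ?_
    simp
  have hsub : {O : Set (E d) | ∀ a ∈ U, a ∉ coarse n O} ⊆ {O | ∀ a ∈ W, a ∉ coarse n O} :=
    fun O hO a ha => hO a (mem_filter.1 ha).1
  refine (measureReal_mono hsub).trans ?_
  rw [real_forall_of_dep W (fun a _ => dep_coarse n a)]
  · calc _ ≤ ∏ _a ∈ W, q ^ (13 ^ d * d) :=
          prod_le_prod (fun _ _ => measureReal_nonneg) fun a _ =>
            (real_closed h a).trans_eq (by ring)
      _ = q ^ (13 ^ d * d * W.card) := by rw [prod_const, ← pow_mul]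
      _ ≤ _ := pow_le_pow_of_le_one hq0 hq1 hcard
  · intro a ha b hb hab
    have e := (mem_filter.1 ha).2.trans (mem_filter.1 hb).2.symm
    obtain ⟨k, hk⟩ : ∃ k, a.1 k ≠ b.1 k := by
      by_contra h0
      push Not at h0
      have e0 := congrArg Prod.snd e
      exact hab (Prod.ext (funext h0) e0)
    have e1 : ((a.1 k : ℤ) : ZMod 13) = (b.1 k : ℤ) := congrFun (congrArg Prod.fst e) k
    have e2 : (13 : ℤ) ∣ b.1 k - a.1 k := (ZMod.intCast_eq_intCast_iff_dvd_sub _ _ 13).1 e1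
    have e3 : (13 : ℤ) ≤ |b.1 k - a.1 k| :=
      Int.le_of_dvd (abs_pos.2 (sub_ne_zero.2 hk.symm)) ((dvd_abs _ _).2 e2)
    refine disjoint_boxE ?_
    have e4 := abs_le_nd ((n : ℤ) • a.1) ((n : ℤ) • b.1) k
    simp only [Pi.smul_apply, smul_eq_mul] at e4
    rw [← mul_sub, abs_mul, Nat.abs_cast] at e4
    have e5 : (n : ℤ) * 13 ≤ n * |b.1 k - a.1 k| := mul_le_mul_of_nonneg_left e3 (by positivity)
    omega

end PIprobAux

open PIprobAux

theorem half_prob (d : ℕ) : ∃ ε0 B : ℝ, 0 < ε0 ∧ ∀ (p : unitInterval) (n : ℕ), 1 ≤ n →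
    (μP d p).real {O | ¬ GoodN n (0 : V d) O} ≤ ε0 → ∀ (x : V d) (R τ : ℕ),
      (μP d p).real {O | ¬ Half x R τ (coarse n O)} ≤ B * vol d R * (1 / 2) ^ τ := by
  set A : ℝ := Ac d + 1 with hA
  have hA1 : 1 ≤ A := by rw [hA]; linarith [Nat.cast_nonneg (α := ℝ) (Ac d)]
  set q : ℝ := 1 / (4 * A) ^ 2 with hq
  have hq0 : 0 < q := by positivity
  have hq1 : q ≤ 1 := by
    rw [hq, div_le_one (by positivity)]; exact one_le_pow₀ (by linarith)
  refine ⟨q ^ (13 ^ d * d) / 2, 2 * d, by positivity, fun p n hn h x R τ => ?_⟩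
  let S : ℕ → Set (Set (E d)) := fun k => ⋃ a ∈ boxE x R, ⋃ Q ∈ animals k a,
    ⋃ U ∈ powersetCard ((k + 2) / 2) Q, {O | ∀ e ∈ U, e ∉ coarse n O}
  have hS : ∀ k, (μP d p).real (S k) ≤ d * vol d R * (1 / 2) ^ (k + 1) := by
    intro k
    refine (measureReal_biUnion_finset_le _ _).trans ?_
    rw [← card_boxE_vol x R, ← nsmul_eq_mul]
    refine sum_le_card_nsmul _ _ _ fun a _ => ?_
    refine (measureReal_biUnion_finset_le _ _).trans ?_
    have h1 : ∀ Q ∈ animals k a, (μP d p).real (⋃ U ∈ powersetCard ((k + 2) / 2) Q,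
        {O | ∀ e ∈ U, e ∉ coarse n O}) ≤ 2 ^ (k + 1) * q ^ ((k + 2) / 2) := by
      intro Q hQ
      refine (measureReal_biUnion_finset_le _ _).trans ?_
      refine (sum_le_card_nsmul _ _ (q ^ ((k + 2) / 2)) fun U hU => ?_).trans ?_
      · rw [← (mem_powersetCard.1 hU).2]
        exact real_all_closed hn hq0.le hq1 h U
      · rw [nsmul_eq_mul, card_powersetCard, card_of_mem_animals hQ]
        refine mul_le_mul_of_nonneg_right ?_ (by positivity)
        exact_mod_cast Nat.choose_le_two_pow _ _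
    refine (sum_le_card_nsmul _ _ _ h1).trans ?_
    rw [nsmul_eq_mul]
    have h2 : ((animals k a).card : ℝ) ≤ A ^ (k + 1) := by
      have : ((animals k a).card : ℝ) ≤ (Ac d : ℝ) ^ (k + 1) := by
        exact_mod_cast card_animals_le a k
      exact this.trans (pow_le_pow_left₀ (by positivity) (by rw [hA]; linarith) _)
    have h3 : q ^ ((k + 2) / 2) ≤ (1 / (4 * A)) ^ (k + 1) := by
      rw [hq, ← one_pow 2, ← div_pow, ← pow_mul, one_pow]
      refine pow_le_pow_of_le_one (by positivity) ?_ (by omega)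
      rw [div_le_one (by positivity)]; linarith
    calc _ ≤ A ^ (k + 1) * (2 ^ (k + 1) * (1 / (4 * A)) ^ (k + 1)) := by gcongr
      _ = (1 / 2) ^ (k + 1) := by
          rw [← mul_pow, ← mul_pow]; congr 1; field_simp; norm_num
  have hsub : {O : Set (E d) | ¬ Half x R τ (coarse n O)} ⊆ ⋃ i, S (τ - 1 + i) := by
    intro O hO
    simp only [Half, Set.mem_ofPred_eq, not_forall, not_le] at hO
    obtain ⟨T, hT, hc, hτ, hlt⟩ := hO
    obtain ⟨a, ha⟩ : T.Nonempty := card_pos.1 (by omega)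
    obtain ⟨k, hk⟩ : ∃ k, T.card = k + 1 := ⟨T.card - 1, by omega⟩
    obtain ⟨Q, hQ, hQT⟩ := exists_animal hc (mem_coe.2 ha) k
      (by rw [Set.encard_coe_eq_coe_finsetCard, hk])
    have e : Q = T := eq_of_subset_of_card_le (coe_subset.1 hQT)
      (by rw [hk, card_of_mem_animals hQ])
    subst e
    have h1 := card_filter_add_card_filter_not (s := Q) (· ∈ coarse n O)
    obtain ⟨U, hU, hUc⟩ := exists_subset_card_eq (s := Q.filter fun a => ¬ a ∈ coarse n O)
      (n := (k + 2) / 2) (by unfold cap at hlt; omega)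
    refine Set.mem_iUnion.2 ⟨k - (τ - 1), ?_⟩
    rw [show τ - 1 + (k - (τ - 1)) = k by omega]
    simp only [S, Set.mem_iUnion]
    exact ⟨a, mem_boxE'.2 (hT ha).1, Q, hQ, U,
      mem_powersetCard.2 ⟨hU.trans (filter_subset _ _), hUc⟩, fun e he => (mem_filter.1 (hU he)).2⟩
  refine (measureReal_mono hsub).trans ?_
  have hv := vol_pos d R
  refine (real_iUnion_le (f := fun i => d * vol d R * (1 / 2) ^ τ * (1 / 2) ^ i)
    (summable_geometric_two.mul_left _) fun i => (hS _).trans ?_).trans ?_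
  · rw [mul_assoc (d * vol d R), ← pow_add]
    exact mul_le_mul_of_nonneg_left
      (pow_le_pow_of_le_one (by norm_num) (by norm_num) (by omega)) (by positivity)
  · rw [tsum_mul_left, tsum_geometric_two]
    exact le_of_eq (by ring)

/-- A single scale with small failure probability is enough. -/
theorem PIprob_of_small (hd : 2 ≤ d) : ∃ ε0 : ℝ, 0 < ε0 ∧ ∀ (p : unitInterval) (n : ℕ), 1 ≤ n →
    (μP d p).real {O | ¬ GoodN n (0 : V d) O} ≤ ε0 → ∃ c : ℝ, 0 < c ∧ PIprob d p c := by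
  obtain ⟨ε0, B, h0, h⟩ := half_prob d
  refine ⟨ε0, h0, fun p n hn hp => ?_⟩
  obtain ⟨c, t0, hc, hP⟩ := PI_of_half hd n hn
  have hn4 : 4 * n ≠ 0 := by omega
  set ρ : ℝ := (1 / 2 : ℝ) ^ (((4 * n : ℕ) : ℝ)⁻¹) with hρ
  have hρ0 : 0 < ρ := Real.rpow_pos_of_pos (by norm_num) _
  have hρ1 : ρ < 1 := Real.rpow_lt_one (by norm_num) (by norm_num) (by positivity)
  have hρn : ρ ^ (4 * n) = 1 / 2 := Real.rpow_inv_natCast_pow (by norm_num) hn4
  refine ⟨c, hc, t0, 2 * B, ρ, hρ0, hρ1, fun t ht x R => ?_⟩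
  have h1 := h p n hn hp (fun j => x j / n) (R + 8 * t) (t / (4 * n))
  have h2 : {O : Set (E d) | ¬ PI c x R t O} ⊆
      {O | ¬ Half (fun j => x j / n) (R + 8 * t) (t / (4 * n)) (coarse n O)} :=
    fun O hO hH => hO (hP t ht x R O hH)
  refine ((measureReal_mono h2).trans h1).trans ?_
  have h3 : 0 ≤ B * vol d (R + 8 * t) :=
    nonneg_of_mul_nonneg_left (measureReal_nonneg.trans h1) (by positivity)
  have h4 : (1 / 2 : ℝ) ^ (t / (4 * n)) ≤ 2 * ρ ^ t := by
    have h5 : t ≤ 4 * n * (t / (4 * n) + 1) := (Nat.lt_mul_div_succ t (by omega)).le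
    have h6 := pow_le_pow_of_le_one hρ0.le hρ1.le h5
    rw [pow_mul, hρn, pow_succ] at h6
    linarith
  calc _ ≤ B * vol d (R + 8 * t) * (2 * ρ ^ t) := mul_le_mul_of_nonneg_left h4 h3
    _ = _ := by ring

theorem PIprob_of_RH (hd : 2 ≤ d) (h : RH d p) : ∃ c : ℝ, 0 < c ∧ PIprob d p c := by
  obtain ⟨ε0, h0, h1⟩ := PIprob_of_small hd
  obtain ⟨n, hn, h2⟩ := h ε0 h0
  exact h1 p n hn h2

theorem ae_exists_unique (hd : 1 ≤ d) {c : ℝ} (hc : 0 < c) (h : PIprob d p c) :
    ∀ᵐ O ∂μP d p, (Cl O).Nonempty ∧ ∀ y ∈ Cl O, ∀ z ∈ Cl O, z ∈ comp O y := by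
  obtain ⟨t0, B, ρ, hρ0, hρ1, h⟩ := h
  have hs : Summable fun t : ℕ => |B| * 37 ^ d * ((t + t0 + 1 : ℕ) ^ d * ρ ^ (t + t0 + 1)) := by
    refine Summable.mul_left _ ?_
    exact (summable_nat_add_iff (f := fun k : ℕ => (k : ℝ) ^ d * ρ ^ k) (t0 + 1)).2
      (summable_pow_mul_geometric_of_norm_lt_one d (by rwa [Real.norm_of_nonneg hρ0.le]))
  have hae := ae_eventually_of_summable (μ := μP d p)
    (s := fun t => {O | ¬ PI c 0 (10 * (t + t0 + 1)) (t + t0 + 1) O}) hs fun t => by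
      refine (h _ (by omega) 0 _).trans ?_
      rw [← mul_assoc, mul_assoc |B|, ← mul_pow]
      refine mul_le_mul_of_nonneg_right ?_ (by positivity)
      refine mul_le_mul (le_abs_self B) ?_ (vol_pos _ _).le (abs_nonneg B)
      refine pow_le_pow_left₀ (by positivity) ?_ d
      push_cast
      linarith [Nat.cast_nonneg (α := ℝ) t, Nat.cast_nonneg (α := ℝ) t0]
  filter_upwards [hae] with O hO
  obtain ⟨T0, hT0⟩ := eventually_atTop.1 hO
  obtain ⟨T, hT1, hT⟩ : ∃ T, 1 ≤ T ∧ ∀ t ≥ T, PI c 0 (10 * t) t O :=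
    ⟨T0 + t0 + 1, by omega, fun t ht => by
      have := not_not.1 (hT0 (t - t0 - 1) (by omega))
      rwa [show t - t0 - 1 + t0 + 1 = t by omega] at this⟩
  let i : Fin d := ⟨0, hd⟩
  have hy : ∀ t, ∃ y : V d, T ≤ t → y ∈ box (0 : V d) t ∧ Loc O (t + 1) y ∧
      ∃ y' ∈ comp O y, (t : ℤ) < y' i := by
    intro t
    by_cases ht : T ≤ t
    swap
    · exact ⟨0, fun h => absurd h ht⟩
    obtain ⟨y, h1, y', -, h3, h4, h5⟩ := (hT t ht).2 0 (mem_box_self _ _) i (2 * t + 2) le_rfl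
      (by simp only [Pi.zero_apply]; push_cast; omega) ∅ (by simp; positivity)
    have h6 : y' ∈ comp O y := comp_mono (fun e he => he.1.1) _ h5
    simp only [Pi.zero_apply] at h3 h4
    push_cast at h4
    refine ⟨y, fun _ => ⟨mem_box.2 fun k => ?_, loc_of_far h6 fun h7 => ?_, y', h6, by omega⟩⟩
    · by_cases hk : k = i
      · subst hk
        have := h1.1
        simp only [Pi.zero_apply] at this ⊢
        rw [abs_le]; constructor <;> omega
      · exact h1.2.2 k hk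
    · have := abs_le.1 (mem_box.1 h7 i)
      push_cast at this
      omega
  choose y hy using hy
  have hstep : ∀ t, T ≤ t → y t ∈ comp O (y T) := by
    intro t ht
    induction t, ht using Nat.le_induction with
    | base => exact mem_comp_self _ _
    | succ t ht ih =>
      obtain ⟨h1, h2, -⟩ := hy t ht
      obtain ⟨h3, h4, -⟩ := hy (t + 1) (by omega)
      exact comp_trans ih (comp_mono Set.inter_subset_left _
        ((hT (t + 1) (by omega)).1 0 (mem_box_self _ _) _ (box_mono _ (by omega) h1) _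
          (box_mono _ (by omega) h3) h2 (h4.anti (by omega))))
  refine ⟨⟨y T, fun hf => ?_⟩, fun a ha b hb => ?_⟩
  · obtain ⟨R, hR⟩ := exists_box hf
    obtain ⟨-, -, y', h1, h2⟩ := hy (T + R) (by omega)
    have := abs_le.1 (mem_box.1 (hR (comp_trans (hstep _ (by omega)) h1)) i)
    simp only [Pi.zero_apply] at this
    push_cast at h2
    omega
  · exact comp_mono Set.inter_subset_left _
      ((hT (T + nd 0 a + nd 0 b) (by omega)).1 0 (mem_box_self _ _) a (mem_box_nd.2 (by omega)) b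
        (mem_box_nd.2 (by omega)) (loc_of_mem_Cl ha _) (loc_of_mem_Cl hb _))

/-- The renormalisation event for `p` close to one. -/
theorem goodN_near_one (hd : 1 ≤ d) {ε : ℝ} (hε : 0 < ε) : ∃ p0 : ℝ, p0 < 1 ∧
    ∀ p : unitInterval, p0 < p → (μP d p).real {O | ¬ GoodN 1 (0 : V d) O} ≤ ε := by
  set N : ℝ := ((boxE (0 : V d) 5).card : ℝ) with hN
  have hN0 : 0 ≤ N := Nat.cast_nonneg _
  refine ⟨1 - ε / (N + 1), by linarith [div_pos hε (by linarith : 0 < N + 1)], fun p hp => ?_⟩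
  have hsub : {O : Set (E d) | ¬ GoodN 1 (0 : V d) O} ⊆ ⋃ e ∈ boxE (0 : V d) 5, {O | e ∉ O} := by
    intro O hO
    by_contra hn
    simp only [Set.mem_iUnion, Set.mem_ofPred_eq, not_exists, not_not] at hn
    have hi : ∀ r ≤ 5, O ∩ ins (box (0 : V d) r : Set (V d)) = ins (box (0 : V d) r : Set (V d)) :=
      fun r hr => Set.inter_eq_right.2 fun e he => hn e (boxE_mono _ hr (ins_box_subset _ _ he))
    refine hO ⟨⟨0, mem_box_self _ _, fun _ => 5, fun h => ?_, ?_⟩, fun y hy y' hy' _ _ => ?_⟩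
    · have := mem_box.1 h ⟨0, hd⟩
      norm_num at this
    · rw [hi _ le_rfl]
      exact comp_ins_box (mem_box_self _ _) (mem_box.2 fun k => by norm_num)
    · rw [hi _ (by norm_num)]
      exact comp_ins_box (box_mono _ (by norm_num) hy) (box_mono _ (by norm_num) hy')
  refine ((measureReal_mono hsub (measure_ne_top _ _)).trans
    (measureReal_biUnion_finset_le _ _)).trans ?_
  have h1 : ∀ e ∈ boxE (0 : V d) 5, (μP d p).real {O | e ∉ O} ≤ ε / (N + 1) := by
    intro e _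
    have := (bern_μP d p).closed {e}
    simp only [coe_singleton, Set.disjoint_singleton_left, opn, Set.mem_ofPred_eq, card_singleton,
      pow_one] at this
    rw [this]; linarith
  refine (sum_le_card_nsmul _ _ _ h1).trans ?_
  rw [nsmul_eq_mul, ← hN, mul_div_assoc', div_le_iff₀ (by linarith)]
  nlinarith

end Pool.Agent.P.MP_b4265e_pr.R
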