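import Pool.Agent.P.MP_b4265e_pr.R.Avg

/-!
The full lattice: faster than polynomial decay forces finite support.
-/

namespace Pool.Agent.P.MP_b4265e_pr.R

open Finset Filter
open scoped Classical

namespace POne

variable {d : ℕ}

/-- The lattice Laplacian. -/
noncomputable def LL (u : V d → ℝ) (y : V d) : ℝ :=
  ∑ i, (u (y + ee i) - 2 * u y + u (y - ee i))

/-- Polynomial growth. -/
def PG (p : V d → ℝ) : Prop := ∃ (C : ℝ) (M : ℕ), ∀ y, |p y| ≤ C * (1 + (nd 0 y : ℝ)) ^ M

/-- Summability against every function of polynomial growth. -/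
def RD (u : V d → ℝ) : Prop := ∀ p, PG p → Summable fun y => u y * p y

/-- All differences of order `k` vanish. -/
def Nil : ℕ → (V d → ℝ) → Prop
  | 0, p => ∀ y, p y = 0
  | k + 1, p => ∀ j, Nil k fun y => p (y + ee j) - p y

/-- Restriction to a hyperplane. -/
noncomputable def ind (i0 : Fin d) (n : ℤ) (p : V d → ℝ) (y : V d) : ℝ :=
  if y i0 = n then p y else 0

lemma one_le_w (y : V d) : (1 : ℝ) ≤ 1 + (nd 0 y : ℝ) := by
  have : (0 : ℝ) ≤ (nd 0 y : ℝ) := Nat.cast_nonneg _
  linarith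

lemma PG.nonneg {p : V d → ℝ} (h : PG p) :
    ∃ (C : ℝ) (M : ℕ), 0 ≤ C ∧ ∀ y, |p y| ≤ C * (1 + (nd 0 y : ℝ)) ^ M := by
  obtain ⟨C, M, h⟩ := h
  refine ⟨max C 0, M, le_max_right _ _, fun y => (h y).trans ?_⟩
  have := one_le_w y
  gcongr
  exact le_max_left _ _

lemma PG.of_le {p q : V d → ℝ} (h : PG p) (hq : ∀ y, |q y| ≤ |p y|) : PG q := by
  obtain ⟨C, M, h⟩ := h
  exact ⟨C, M, fun y => (hq y).trans (h y)⟩

lemma pg_const (c : ℝ) : PG (fun _ : V d => c) := ⟨|c|, 0, fun y => by simp⟩

lemma PG.add {p q : V d → ℝ} (hp : PG p) (hq : PG q) : PG fun y => p y + q y := by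
  obtain ⟨C, M, hC, h⟩ := hp.nonneg
  obtain ⟨C', M', hC', h'⟩ := hq.nonneg
  refine ⟨C + C', M + M', fun y => ?_⟩
  have h1 := one_le_w y
  have e1 : (1 + (nd 0 y : ℝ)) ^ M ≤ (1 + (nd 0 y : ℝ)) ^ (M + M') :=
    pow_le_pow_right₀ h1 (by omega)
  have e2 : (1 + (nd 0 y : ℝ)) ^ M' ≤ (1 + (nd 0 y : ℝ)) ^ (M + M') :=
    pow_le_pow_right₀ h1 (by omega)
  have := abs_add_le (p y) (q y)
  have a1 := mul_le_mul_of_nonneg_left e1 hC
  have a2 := mul_le_mul_of_nonneg_left e2 hC'
  have := h y
  have := h' y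
  linarith

lemma PG.mul {p q : V d → ℝ} (hp : PG p) (hq : PG q) : PG fun y => p y * q y := by
  obtain ⟨C, M, hC, h⟩ := hp.nonneg
  obtain ⟨C', M', hC', h'⟩ := hq.nonneg
  refine ⟨C * C', M + M', fun y => ?_⟩
  have h1 := one_le_w y
  rw [abs_mul, pow_add]
  calc |p y| * |q y| ≤ (C * (1 + (nd 0 y : ℝ)) ^ M) * (C' * (1 + (nd 0 y : ℝ)) ^ M') :=
        mul_le_mul (h y) (h' y) (abs_nonneg _) (by positivity)
    _ = _ := by ring

lemma PG.sub {p q : V d → ℝ} (hp : PG p) (hq : PG q) : PG fun y => p y - q y := by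
  have := hp.add ((pg_const (-1)).mul hq)
  refine this.of_le fun y => le_of_eq ?_
  congr 1; ring

lemma PG.shift {p : V d → ℝ} (hp : PG p) (z : V d) : PG fun y => p (y + z) := by
  obtain ⟨C, M, hC, h⟩ := hp.nonneg
  refine ⟨C * (1 + (nd 0 z : ℝ)) ^ M, M, fun y => (h _).trans ?_⟩
  have h1 : nd 0 (y + z) ≤ nd 0 y + nd 0 z := by
    have a := nd_triangle 0 y (y + z)
    have b := nd_add_right 0 z y
    rw [zero_add, add_comm z y] at b
    omega
  have h2 : (1 + (nd 0 (y + z) : ℝ)) ≤ (1 + (nd 0 z : ℝ)) * (1 + (nd 0 y : ℝ)) := by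
    have a : (nd 0 (y + z) : ℝ) ≤ nd 0 y + nd 0 z := by exact_mod_cast h1
    have b : (0 : ℝ) ≤ (nd 0 y : ℝ) := Nat.cast_nonneg _
    have c : (0 : ℝ) ≤ (nd 0 z : ℝ) := Nat.cast_nonneg _
    nlinarith [mul_nonneg b c]
  rw [mul_assoc, ← mul_pow]
  have := one_le_w (y + z)
  gcongr

lemma PG.shift' {p : V d → ℝ} (hp : PG p) (z : V d) : PG fun y => p (y - z) := by
  simpa only [sub_eq_add_neg] using hp.shift (-z)

lemma pg_sum {ι : Type*} (I : Finset ι) {F : ι → V d → ℝ} (h : ∀ i ∈ I, PG (F i)) :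
    PG fun y => ∑ i ∈ I, F i y := by
  induction I using Finset.induction_on with
  | empty => simpa using pg_const (d := d) 0
  | insert a I ha ih =>
    simp only [Finset.sum_insert ha]
    exact (h a (mem_insert_self _ _)).add (ih fun i hi => h i (mem_insert_of_mem hi))

lemma PG.D {p : V d → ℝ} (hp : PG p) (i : Fin d) :
    PG fun y => p (y + ee i) - 2 * p y + p (y - ee i) :=
  ((hp.shift _).sub ((pg_const 2).mul hp)).add (hp.shift' _)

lemma PG.LL {p : V d → ℝ} (hp : PG p) : PG (LL p) := pg_sum _ fun i _ => hp.D i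

lemma PG.ind {p : V d → ℝ} (hp : PG p) (i0 : Fin d) (n : ℤ) : PG (ind i0 n p) :=
  hp.of_le fun y => by
    unfold POne.ind
    split_ifs <;> simp

lemma pg_coord (j : Fin d) : PG fun y : V d => (y j : ℝ) := by
  refine ⟨1, 1, fun y => ?_⟩
  have := abs_le_nd 0 y j
  simp only [Pi.zero_apply, sub_zero] at this
  have h : |(y j : ℝ)| ≤ (nd 0 y : ℝ) := by exact_mod_cast this
  simp only [pow_one, one_mul]
  linarith

/-! ### Nilpotency -/

lemma Nil.shift : ∀ {k : ℕ} {p : V d → ℝ}, Nil k p → ∀ z : V d, Nil k fun y => p (y + z)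
  | 0, _, h, _ => fun _ => h _
  | k + 1, p, h, z => fun j => by
    have := Nil.shift (h j) z
    simpa only [add_right_comm _ z (ee j)] using this

lemma Nil.add : ∀ {k : ℕ} {p q : V d → ℝ}, Nil k p → Nil k q → Nil k fun y => p y + q y
  | 0, _, _, h, h' => fun y => by simp [h y, h' y]
  | k + 1, p, q, h, h' => fun j => by
    have := Nil.add (h j) (h' j)
    convert this using 2
    ring

lemma Nil.smul : ∀ {k : ℕ} {p : V d → ℝ}, Nil k p → ∀ c : ℝ, Nil k fun y => c * p y
  | 0, _, h, _ => fun y => by simp [h y]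
  | k + 1, p, h, c => fun j => by
    have := Nil.smul (h j) c
    convert this using 2
    ring

lemma nil_zero : ∀ k : ℕ, Nil k fun _ : V d => (0 : ℝ)
  | 0 => fun _ => rfl
  | k + 1 => fun j => by simpa using nil_zero k

lemma nil_sum {ι : Type*} (I : Finset ι) {k : ℕ} {F : ι → V d → ℝ} (h : ∀ i ∈ I, Nil k (F i)) :
    Nil k fun y => ∑ i ∈ I, F i y := by
  induction I using Finset.induction_on with
  | empty => simpa using nil_zero (d := d) k
  | insert a I ha ih =>
    simp only [Finset.sum_insert ha]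
    exact (h a (mem_insert_self _ _)).add (ih fun i hi => h i (mem_insert_of_mem hi))

lemma Nil.LL {k : ℕ} {p : V d → ℝ} (h : Nil (k + 1) p) : Nil k (LL p) := by
  refine nil_sum _ fun j _ => ?_
  have := (h j).add (((h j).shift (-ee j)).smul (-1))
  convert this using 2 with y
  simp only [← sub_eq_add_neg, sub_add_cancel]
  ring

lemma Nil.mul_coord (j : Fin d) (c : ℝ) : ∀ {k : ℕ} {p : V d → ℝ}, Nil k p →
    Nil (k + 1) fun y => ((y j : ℝ) - c) * p y
  | 0, _, h => fun i y => by simp [h _]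
  | k + 1, p, h => fun i => by
    have a := Nil.mul_coord j c (h i)
    have b := (h.shift (ee i)).smul ((ee i : V d) j : ℝ)
    convert a.add b using 2 with y
    simp only [Pi.add_apply, Int.cast_add]
    ring

/-- Transverse polynomials. -/
def Tp (i0 : Fin d) (p : V d → ℝ) : Prop :=
  PG p ∧ (∃ k, Nil k p) ∧ ∀ y, p (y + ee i0) = p y

lemma exists_sep (i0 : Fin d) (y0 : V d) (S : Finset (V d)) :
    ∃ p, Tp i0 p ∧ p y0 ≠ 0 ∧ ∀ y ∈ S, y ≠ y0 → y i0 = y0 i0 → p y = 0 := by
  induction S using Finset.induction_on with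
  | empty =>
    refine ⟨fun _ => 1, ⟨pg_const 1, ⟨1, fun j y => by simp⟩, fun _ => rfl⟩, one_ne_zero, ?_⟩
    simp
  | insert a S ha ih =>
    obtain ⟨p, ⟨h1, ⟨k, h2⟩, h3⟩, h4, h5⟩ := ih
    by_cases hc : a ≠ y0 ∧ a i0 = y0 i0
    · obtain ⟨j, hj⟩ := Function.ne_iff.mp hc.1
      have hji : j ≠ i0 := fun h => hj (h ▸ hc.2)
      refine ⟨fun y => ((y j : ℝ) - a j) * p y, ⟨((pg_coord j).sub (pg_const _)).mul h1,
        ⟨k + 1, h2.mul_coord j _⟩, fun y => ?_⟩, ?_, ?_⟩
      · have : (y + ee i0 : V d) j = y j := by simp [ee, hji]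
        simp only [h3, this]
      · refine mul_ne_zero (sub_ne_zero.mpr ?_) h4
        exact_mod_cast hj.symm
      · intro y hy hy0 hyi
        rcases mem_insert.mp hy with rfl | hy
        · simp
        · simp [h5 y hy hy0 hyi]
    · refine ⟨p, ⟨h1, ⟨k, h2⟩, h3⟩, h4, fun y hy hy0 hyi => ?_⟩
      rcases mem_insert.mp hy with rfl | hy
      · exact absurd ⟨hy0, hyi⟩ hc
      · exact h5 y hy hy0 hyi

/-! ### Summation by parts on the whole lattice -/

lemma hasSum_congr {f g : V d → ℝ} {a : ℝ} (h : HasSum f a) (e : ∀ y, g y = f y) :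
    HasSum g a := by
  rw [show g = f from funext e]
  exact h

lemma RD.hasSum_shift {u : V d → ℝ} (hu : RD u) {g : V d → ℝ} (hg : PG g) (z : V d) :
    HasSum (fun y => u (y + z) * g y) (∑' y, u y * g (y - z)) := by
  have h := (hu _ (hg.shift' z)).hasSum
  have := (Equiv.addRight z).hasSum_iff.mpr h
  simpa [Function.comp_def] using this

lemma RD.green {u : V d → ℝ} (hu : RD u) {g : V d → ℝ} (hg : PG g) :
    ∑' y, LL u y * g y = ∑' y, u y * LL g y := by
  have h1 : HasSum (fun y => LL u y * g y) (∑ i, ((∑' y, u y * g (y - ee i)) -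
      2 * (∑' y, u y * g y) + ∑' y, u y * g (y + ee i))) := by
    have := hasSum_sum (s := univ) fun (i : Fin d) _ =>
      ((hu.hasSum_shift hg (ee i)).sub ((hu g hg).hasSum.mul_left 2)).add
        (hu.hasSum_shift hg (-ee i))
    simp only [sub_neg_eq_add, ← sub_eq_add_neg] at this
    refine hasSum_congr this fun y => ?_
    rw [LL, Finset.sum_mul]
    exact Finset.sum_congr rfl fun i _ => by ring
  have h2 : HasSum (fun y => u y * LL g y) (∑ i, ((∑' y, u y * g (y - ee i)) -
      2 * (∑' y, u y * g y) + ∑' y, u y * g (y + ee i))) := by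
    have := hasSum_sum (s := univ) fun (i : Fin d) _ =>
      (((hu _ (hg.shift' (ee i))).hasSum).sub ((hu g hg).hasSum.mul_left 2)).add
        (hu _ (hg.shift (ee i))).hasSum
    refine hasSum_congr this fun y => ?_
    rw [LL, Finset.mul_sum]
    exact Finset.sum_congr rfl fun i _ => by ring
  rw [h1.tsum_eq, h2.tsum_eq]

lemma LL_ind (i0 : Fin d) (n : ℤ) {p : V d → ℝ} (hp : ∀ y, p (y + ee i0) = p y) (y : V d) :
    LL (ind i0 n p) y =
      ind i0 (n - 1) p y - 2 * ind i0 n p y + ind i0 (n + 1) p y + ind i0 n (LL p) y := by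
  have hp' : p (y - ee i0) = p y := by
    have := hp (y - ee i0)
    rw [sub_add_cancel] at this
    exact this.symm
  have e1 : ind i0 n (LL p) y = ∑ i ∈ univ.erase i0,
      (ind i0 n p (y + ee i) - 2 * ind i0 n p y + ind i0 n p (y - ee i)) := by
    have : ∀ i ∈ univ.erase i0,
        (ind i0 n p (y + ee i) - 2 * ind i0 n p y + ind i0 n p (y - ee i)) =
        if y i0 = n then (p (y + ee i) - 2 * p y + p (y - ee i)) else 0 := by
      intro i hi
      have hi' : i0 ≠ i := (Finset.ne_of_mem_erase hi).symm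
      simp only [ind, Pi.add_apply, Pi.sub_apply, ee, Pi.single_eq_of_ne hi', add_zero, sub_zero]
      split_ifs <;> simp
    rw [Finset.sum_congr rfl this]
    unfold ind
    split_ifs with h
    · rw [LL, ← Finset.add_sum_erase _ _ (mem_univ i0), hp, hp']
      ring
    · simp
  have e2 : ind i0 n p (y + ee i0) = ind i0 (n - 1) p y := by
    have : (y + ee i0 : V d) i0 = n ↔ y i0 = n - 1 := by
      simp only [Pi.add_apply, ee, Pi.single_eq_same]; omega
    simp only [ind, this, hp]
  have e3 : ind i0 n p (y - ee i0) = ind i0 (n + 1) p y := by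
    have : (y - ee i0 : V d) i0 = n ↔ y i0 = n + 1 := by
      simp only [Pi.sub_apply, ee, Pi.single_eq_same]; omega
    simp only [ind, this, hp']
  rw [e1, LL, ← Finset.add_sum_erase _ _ (mem_univ i0), e2, e3]

/-- The moments of a slice. -/
noncomputable def mom (u : V d → ℝ) (i0 : Fin d) (p : V d → ℝ) (n : ℤ) : ℝ :=
  ∑' y, u y * ind i0 n p y

lemma RD.mom_rec {u : V d → ℝ} (hu : RD u) (i0 : Fin d) {p : V d → ℝ} (hg : PG p)
    (hp : ∀ y, p (y + ee i0) = p y) (n : ℤ) :
    mom (LL u) i0 p n =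
      mom u i0 p (n - 1) - 2 * mom u i0 p n + mom u i0 p (n + 1) + mom u i0 (LL p) n := by
  unfold mom
  rw [hu.green (hg.ind i0 n)]
  refine HasSum.tsum_eq ?_
  have := ((((hu _ (hg.ind i0 (n - 1))).hasSum).sub
    ((hu _ (hg.ind i0 n)).hasSum.mul_left 2)).add (hu _ (hg.ind i0 (n + 1))).hasSum).add
    (hu _ (hg.LL.ind i0 n)).hasSum
  refine hasSum_congr this fun y => ?_
  rw [LL_ind i0 n hp]
  ring

lemma RD.mom_tendsto {u : V d → ℝ} (hu : RD u) (i0 : Fin d) {p : V d → ℝ} (hg : PG p)
    {s : ℕ → ℤ} (hs : ∀ c, ∀ᶠ m in atTop, s m ≠ c) :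
    Tendsto (fun m => mom u i0 p (s m)) atTop (nhds 0) := by
  have := tendsto_tsum_of_dominated_convergence (𝓕 := atTop)
    (f := fun m y => u y * ind i0 (s m) p y) (g := fun _ => (0 : ℝ))
    (bound := fun y => |u y * p y|) (hu p hg).abs (fun y => ?_)
    (Eventually.of_forall fun m y => ?_)
  · simpa [mom] using this
  · refine tendsto_const_nhds.congr' ?_
    filter_upwards [hs (y i0)] with m hm
    simp [ind, hm.symm]
  · unfold ind
    split_ifs
    · exact le_of_eq (Real.norm_eq_abs _)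
    · rw [mul_zero, norm_zero]; exact abs_nonneg _

lemma affine_zero {b : ℕ → ℝ} (h : ∀ m, b m - 2 * b (m + 1) + b (m + 2) = 0)
    (ht : Tendsto b atTop (nhds 0)) (m : ℕ) : b m = 0 := by
  have h1 : ∀ m, b (m + 1) - b m = b 1 - b 0 := by
    intro m
    induction m with
    | zero => rfl
    | succ m ih => have := h m; linarith
  have h2 : Tendsto (fun m => b (m + 1) - b m) atTop (nhds (0 - 0)) :=
    ((tendsto_add_atTop_iff_nat 1).mpr ht).sub ht
  simp only [h1, sub_zero] at h2
  have h3 : b 1 - b 0 = 0 := tendsto_nhds_unique tendsto_const_nhds h2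
  have h4 : ∀ m, b m = b 0 := by
    intro m
    induction m with
    | zero => rfl
    | succ m ih => have := h1 m; linarith
  have h5 : b = fun _ => b 0 := funext h4
  rw [h5] at ht
  rw [h4 m]
  exact tendsto_nhds_unique tendsto_const_nhds ht

lemma RD.mom_zero {u : V d → ℝ} (hu : RD u) (i0 : Fin d) (a : ℤ)
    (ha : ∀ y, LL u y ≠ 0 → y i0 = a ∨ y i0 = a + 1) :
    ∀ (k : ℕ) (p : V d → ℝ), PG p → Nil k p → (∀ y, p (y + ee i0) = p y) →
      ∀ n, mom u i0 p n = 0 := by
  intro k
  induction k with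
  | zero =>
    intro p _ h _ n
    have : ∀ y, p y = 0 := h
    simp [mom, ind, this]
  | succ k ih =>
    intro p hg h hp
    have hL : ∀ y, LL p (y + ee i0) = LL p y := by
      intro y
      unfold LL
      refine Finset.sum_congr rfl fun i _ => ?_
      rw [add_right_comm y, hp, hp, add_sub_right_comm, hp]
    have h0 := ih _ hg.LL h.LL hL
    have hrec : ∀ n, n ≠ a → n ≠ a + 1 →
        mom u i0 p (n - 1) - 2 * mom u i0 p n + mom u i0 p (n + 1) = 0 := by
      intro n h1 h2
      have e := hu.mom_rec i0 hg hp n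
      rw [h0, add_zero] at e
      rw [← e]
      have : ∀ y, LL u y * ind i0 n p y = 0 := by
        intro y
        by_cases hy : LL u y = 0
        · simp [hy]
        · have : y i0 ≠ n := by rcases ha y hy with h | h <;> omega
          simp [ind, this]
      simp [mom, this]
    have up : ∀ m : ℕ, mom u i0 p (a + 1 + m) = 0 := by
      refine affine_zero (fun m => ?_) (hu.mom_tendsto i0 hg fun c => ?_)
      · have := hrec (a + 1 + (m + 1 : ℕ)) (by omega) (by omega)
        rw [show a + 1 + ((m + 1 : ℕ) : ℤ) - 1 = a + 1 + m by omega,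
          show a + 1 + ((m + 1 : ℕ) : ℤ) + 1 = a + 1 + (m + 2 : ℕ) by omega] at this
        exact this
      · filter_upwards [eventually_ge_atTop (c - a).toNat] with m hm
        omega
    have down : ∀ m : ℕ, mom u i0 p (a - m) = 0 := by
      refine affine_zero (fun m => ?_) (hu.mom_tendsto i0 hg fun c => ?_)
      · have := hrec (a - (m + 1 : ℕ)) (by omega) (by omega)
        rw [show a - ((m + 1 : ℕ) : ℤ) - 1 = a - (m + 2 : ℕ) by omega,
          show a - ((m + 1 : ℕ) : ℤ) + 1 = a - m by omega] at this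
        linarith
      · filter_upwards [eventually_gt_atTop (a - c).toNat] with m hm
        omega
    intro n
    by_cases hn : n ≤ a
    · have := down (a - n).toNat
      rwa [show a - ((a - n).toNat : ℤ) = n by omega] at this
    · have := up (n - (a + 1)).toNat
      rwa [show a + 1 + ((n - (a + 1)).toNat : ℤ) = n by omega] at this

lemma RD.LL_zero {u : V d → ℝ} (hu : RD u) (i0 : Fin d) (a : ℤ)
    (ha : ∀ y, LL u y ≠ 0 → y i0 = a ∨ y i0 = a + 1) (hf : {y | LL u y ≠ 0}.Finite) (y0 : V d) :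
    LL u y0 = 0 := by
  obtain ⟨p, ⟨h1, ⟨k, h2⟩, h3⟩, h4, h5⟩ := exists_sep i0 y0 hf.toFinset
  have z := hu.mom_zero i0 a ha
  have hL : ∀ y, LL p (y + ee i0) = LL p y := by
    intro y
    unfold LL
    refine Finset.sum_congr rfl fun i _ => ?_
    rw [add_right_comm y, h3, h3, add_sub_right_comm, h3]
  have hk : ∃ k', Nil k' (LL p) := by
    cases k with
    | zero => exact absurd (h2 y0) h4
    | succ k => exact ⟨k, h2.LL⟩
  obtain ⟨k', hk'⟩ := hk
  have e := hu.mom_rec i0 h1 h3 (y0 i0)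
  rw [z k p h1 h2 h3, z k p h1 h2 h3, z k p h1 h2 h3, z k' _ h1.LL hk' hL] at e
  have e2 : mom (LL u) i0 p (y0 i0) = LL u y0 * p y0 := by
    unfold mom
    rw [tsum_eq_single y0]
    · simp [ind]
    · intro y hy
      by_cases h0 : LL u y = 0
      · simp [h0]
      · unfold ind
        split_ifs with hi
        · rw [h5 y (hf.mem_toFinset.mpr h0) hy hi, mul_zero]
        · simp
  rw [e2] at e
  have : LL u y0 * p y0 = 0 := by linarith
  exact (mul_eq_zero.mp this).resolve_right h4

/-! ### The maximum principle at infinity -/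

lemma nonpos_of_harm (i0 : Fin d) {u : V d → ℝ} (hu : Tendsto u cofinite (nhds 0))
    (h : ∀ y, LL u y = 0) (y0 : V d) : u y0 ≤ 0 := by
  by_contra hc
  push Not at hc
  have hS : {y | u y0 ≤ u y}.Finite := by
    have := hu.eventually (gt_mem_nhds hc)
    rw [eventually_cofinite] at this
    simpa using this
  obtain ⟨y1, hy1, hmax⟩ := hS.toFinset.exists_max_image u ⟨y0, by simp⟩
  have hy1' : u y0 ≤ u y1 := by simpa using hy1
  have hall : ∀ y, u y ≤ u y1 := by
    intro y
    by_cases hy : u y0 ≤ u y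
    · exact hmax y (by simpa using hy)
    · linarith [not_le.mp hy]
  obtain ⟨y2, hy2, hmax2⟩ := (hS.toFinset.filter fun y => u y = u y1).exists_max_image
    (fun y => y i0) ⟨y1, by simp [hy1']⟩
  have hy2' : u y2 = u y1 := (mem_filter.mp hy2).2
  have hz := (Finset.sum_eq_zero_iff_of_nonpos (s := univ)
    (f := fun i => u (y2 + ee i) - 2 * u y2 + u (y2 - ee i)) fun i _ => by
      have a := hall (y2 + ee i)
      have b := hall (y2 - ee i)
      linarith).mp (h y2) i0 (mem_univ _)
  have a := hall (y2 + ee i0)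
  have b := hall (y2 - ee i0)
  have c : u (y2 + ee i0) = u y1 := by linarith
  have := hmax2 (y2 + ee i0) (by simp [c, hy1'])
  simp [ee] at this

lemma RD.eq_zero {u : V d → ℝ} (hu : RD u) (i0 : Fin d) (h : ∀ y, LL u y = 0) (y : V d) :
    u y = 0 := by
  have h1 : Tendsto u cofinite (nhds 0) := by
    simpa using (hu _ (pg_const 1)).tendsto_cofinite_zero
  have a := nonpos_of_harm i0 h1 h y
  have b := nonpos_of_harm i0 (u := fun y => - u y) (by simpa using h1.neg) (fun y => by
    have := h y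
    unfold LL at this ⊢
    rw [← neg_eq_zero, ← Finset.sum_neg_distrib, ← this]
    exact Finset.sum_congr rfl fun i _ => by ring) y
  linarith

/-! ### Reduction to two hyperplanes -/

lemma finite_LL {w : V d → ℝ} (hw : {y | w y ≠ 0}.Finite) : {y | LL w y ≠ 0}.Finite := by
  have h1 : ∀ z : V d, {y | w (y + z) ≠ 0}.Finite := fun z =>
    hw.preimage (f := fun y => y + z) (add_left_injective z).injOn
  refine ((hw.union (Set.finite_iUnion fun i => h1 (ee i))).union
    (Set.finite_iUnion fun i => h1 (-ee i))).subset fun y hy => ?_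
  by_contra hc
  simp only [Set.mem_union, Set.mem_ofPred_eq, Set.mem_iUnion, not_or, not_exists, not_not,
    ← sub_eq_add_neg] at hc
  exact hy (by simp [LL, hc.1.1, hc.1.2, hc.2])

lemma LL_off (i0 : Fin d) {w : V d → ℝ} {c : ℤ} (hw : ∀ y, y i0 ≠ c → w y = 0) {y : V d}
    (hy : y i0 ≠ c) : LL w y = w (y + ee i0) + w (y - ee i0) := by
  unfold LL
  rw [Finset.sum_eq_single i0]
  · rw [hw y hy]; ring
  · intro i _ hi
    rw [hw y hy, hw (y + ee i) (by simpa [ee, Pi.single_eq_of_ne hi.symm] using hy),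
      hw (y - ee i) (by simpa [ee, Pi.single_eq_of_ne hi.symm] using hy)]
    ring
  · simp

lemma finite_of_slab (i0 : Fin d) (a : ℤ) : ∀ (k : ℕ) (u : V d → ℝ), RD u →
    {y | LL u y ≠ 0}.Finite → (∀ y, LL u y ≠ 0 → a ≤ y i0 ∧ y i0 ≤ a + 1 + k) →
    {y | u y ≠ 0}.Finite := by
  intro k
  induction k with
  | zero =>
    intro u hu hf ha
    have := hu.eq_zero i0 (hu.LL_zero i0 a (fun y hy => by have := ha y hy; omega) hf)
    simp [this]
  | succ k ih =>
    intro u hu hf ha
    set w : V d → ℝ := fun y => if y i0 = a + 1 + k then LL u (y + ee i0) else 0 with hw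
    have hw0 : ∀ y, y i0 ≠ a + 1 + k → w y = 0 := fun y hy => by simp [hw, hy]
    have hwf : {y | w y ≠ 0}.Finite := by
      refine (hf.preimage (f := fun y => y + ee i0) (add_left_injective _).injOn).subset ?_
      intro y hy h0
      exact hy (by simp only [hw]; rw [h0]; simp)
    have hL : ∀ y, LL (fun y => u y - w y) y = LL u y - LL w y := by
      intro y
      unfold LL
      rw [← Finset.sum_sub_distrib]
      exact Finset.sum_congr rfl fun i _ => by ring
    have := ih (fun y => u y - w y) (fun p hp => ?_) ?_ ?_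
    · refine (this.union hwf).subset fun y hy => ?_
      by_contra hc
      simp only [Set.mem_union, Set.mem_ofPred_eq, not_or, not_not] at hc
      exact hy (by linarith [hc.1, hc.2])
    · have h2 : Summable fun y => w y * p y :=
        summable_of_hasFiniteSupport (hwf.subset fun y hy h0 => hy (by simp [h0]))
      simpa only [sub_mul] using (hu p hp).sub h2
    · refine (hf.union (finite_LL hwf)).subset fun y hy => ?_
      by_contra hc
      simp only [Set.mem_union, Set.mem_ofPred_eq, not_or, not_not] at hc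
      exact hy (by rw [hL, hc.1, hc.2, sub_zero])
    · intro y hy
      rw [hL] at hy
      have hp : (y + ee i0 : V d) i0 = y i0 + 1 := by simp [ee]
      have hm : (y - ee i0 : V d) i0 = y i0 - 1 := by simp [ee]
      by_contra hc
      apply hy
      have hne : y i0 ≠ a + 1 + k := by omega
      rw [LL_off i0 hw0 hne, hw0 (y + ee i0) (by omega), zero_add]
      by_cases h1 : y i0 = a + 1 + k + 1
      · have : (y - ee i0 : V d) i0 = a + 1 + k := by omega
        simp only [hw, this, if_true, sub_add_cancel, sub_self]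
      · rw [hw0 _ (by omega), sub_zero]
        by_contra h2
        have := ha y h2
        push_cast at this
        omega

/-! ### Summability -/

lemma summable_prod {g : ℤ → ℝ} (h0 : ∀ t, 0 ≤ g t) (hg : Summable g) :
    Summable fun y : V d => ∏ j, g (y j) := by
  refine summable_of_sum_le (c := (∑' t, g t) ^ d) (fun y => Finset.prod_nonneg fun j _ => h0 _)
    fun s => ?_
  calc ∑ y ∈ s, ∏ j, g (y j)
      ≤ ∑ y ∈ Fintype.piFinset fun j => s.image fun y => y j, ∏ j, g (y j) := by
        refine Finset.sum_le_sum_of_subset_of_nonneg (fun y hy => ?_)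
          fun y _ _ => Finset.prod_nonneg fun j _ => h0 _
        exact Fintype.mem_piFinset.mpr fun j => mem_image_of_mem _ hy
    _ = ∏ j : Fin d, ∑ t ∈ s.image fun y => y j, g t := (Finset.prod_univ_sum _ _).symm
    _ ≤ ∏ _j : Fin d, ∑' t, g t :=
        Finset.prod_le_prod (fun j _ => Finset.sum_nonneg fun t _ => h0 t)
          fun j _ => hg.sum_le_tsum _ fun t _ => h0 t
    _ = _ := by simp

lemma summable_inv_sq : Summable fun t : ℤ => 1 / (1 + |(t : ℝ)|) ^ 2 := by
  have h : Summable fun n : ℕ => 1 / (1 + (n : ℝ)) ^ 2 := by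
    have := (summable_nat_add_iff 1).mpr (Real.summable_one_div_nat_pow.mpr one_lt_two)
    simpa [add_comm] using this
  refine Summable.of_nat_of_neg ?_ ?_ <;> simpa using h

lemma rd_of_SD {u : V d → ℝ} (h : SD Set.univ u) : RD u := by
  intro p hp
  obtain ⟨C, M, hC, hp⟩ := hp.nonneg
  obtain ⟨R, hR⟩ := h (M + 2 * d)
  have hs := (summable_prod (d := d) (fun t => by positivity) summable_inv_sq).mul_left
    (C * 2 ^ (M + 2 * d))
  refine Summable.of_norm_bounded_eventually hs ?_
  rw [eventually_cofinite]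
  refine (box (0 : V d) R).finite_toSet.subset fun y hy => ?_
  by_contra hc
  apply hy
  have h1 := hR y trivial hc
  have h2 : 1 ≤ nd 0 y := by
    have : ¬ nd 0 y ≤ R := fun h => hc (mem_box_nd.mpr h)
    omega
  have h3 : (1 : ℝ) ≤ (nd 0 y : ℝ) := by exact_mod_cast h2
  set t : ℝ := ((nd 0 y : ℕ) : ℝ) with ht
  have h4 : 1 / (1 + t) ^ (2 * d) ≤ ∏ j, 1 / (1 + |(y j : ℝ)|) ^ 2 := by
    calc 1 / (1 + t) ^ (2 * d) = ∏ _j : Fin d, 1 / (1 + t) ^ 2 := by
          simp [pow_mul]
      _ ≤ _ := by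
          refine Finset.prod_le_prod (fun j _ => by positivity) fun j _ => ?_
          have := abs_le_nd 0 y j
          simp only [Pi.zero_apply, sub_zero] at this
          have h : |(y j : ℝ)| ≤ t := by rw [ht]; exact_mod_cast this
          gcongr
  have h5 : (1 + t) ^ (M + 2 * d) ≤ 2 ^ (M + 2 * d) * t ^ (M + 2 * d) := by
    rw [← mul_pow]
    gcongr
    linarith
  have h6 : |u y| * (1 + t) ^ (M + 2 * d) ≤ 2 ^ (M + 2 * d) := by
    calc |u y| * (1 + t) ^ (M + 2 * d) ≤ |u y| * (2 ^ (M + 2 * d) * t ^ (M + 2 * d)) := by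
          gcongr
      _ = 2 ^ (M + 2 * d) * (|u y| * t ^ (M + 2 * d)) := by ring
      _ ≤ 2 ^ (M + 2 * d) * 1 := by gcongr
      _ = _ := mul_one _
  rw [Real.norm_eq_abs, abs_mul]
  calc |u y| * |p y| ≤ |u y| * (C * (1 + t) ^ M) := by gcongr; exact hp y
    _ = C * (|u y| * (1 + t) ^ (M + 2 * d)) * (1 / (1 + t) ^ (2 * d)) := by
        have : (0 : ℝ) < 1 + t := by linarith
        field_simp
        ring
    _ ≤ C * 2 ^ (M + 2 * d) * ∏ j, 1 / (1 + |(y j : ℝ)|) ^ 2 := by gcongr

end POne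

theorem finite_of_SD_univ {d : ℕ} (hd : 1 ≤ d) {u : V d → ℝ} {R0 : ℕ}
    (h1 : HarmOff Set.univ R0 u) (h2 : SD Set.univ u) : {y | u y ≠ 0}.Finite := by
  have hb : ∀ y, POne.LL u y ≠ 0 → y ∈ box (0 : V d) R0 := by
    intro y hy
    by_contra hc
    exact hy ((lapG_univ u y).symm.trans (h1 y hc))
  refine POne.finite_of_slab ⟨0, hd⟩ (-R0) (2 * R0) u (POne.rd_of_SD h2)
    ((box (0 : V d) R0).finite_toSet.subset fun y hy => hb y hy) fun y hy => ?_
  have := mem_box.mp (hb y hy) ⟨0, hd⟩
  simp only [Pi.zero_apply, sub_zero, abs_le] at this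
  push_cast
  omega

end Pool.Agent.P.MP_b4265e_pr.R
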