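import Pool.Agent.P.MP_b4265e_pr.R.Near

/-!
If the function varies along few edges, the dual norm of its charge drops.
-/

namespace Pool.Agent.P.MP_b4265e_pr.R

open Finset
open scoped Classical

section aux
variable {d : ℕ} {G : Set (E d)} {C : Set (V d)}

lemma small_l2_fst (hG : G ⊆ ins C) (T : Finset (E d)) (S : Finset (V d))
    (hS : ∀ e ∈ T, e.1 ∈ S) (h : V d → ℝ) :
    l2 (cap G T) (fun e => h e.1) ≤ √d * l2 (cap C S) h := by
  refine l2_le_of_sq_le (mul_nonneg (Real.sqrt_nonneg _) (l2_nonneg _ _)) ?_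
  rw [mul_pow, Real.sq_sqrt (Nat.cast_nonneg d), l2_sq]
  exact sum_edge_fst_le hG T S (fun e he _ => hS e he) (f := fun y => h y ^ 2)
    (fun y => sq_nonneg _)

/-- The Green identity on an annulus. -/
lemma small_green (hG : G ⊆ ins C) {s ρ b : ℕ} (hb : 1 ≤ b) (hρ : s + 2 * b < ρ)
    (h v : V d → ℝ) (f : V d →₀ ℝ) (hv : ∀ y, lapG G v y = f y) (hf : Supp C 0 s f)
    (H : Harm G 0 (ρ + 2 * b) h) :
    |pair f h| ≤ d / (b : ℝ) ^ 2 * (l2 (cap C (ann 0 (ρ - 2 * b) (ρ + 2 * b))) h *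
      l2 (cap C (ann 0 (ρ - 2 * b) (ρ + 2 * b))) v) := by
  obtain ⟨χ, h1, h0, -, hgr, hsupp⟩ := exists_cutoff (0 : V d) (a := ρ - b) (b := ρ + b) (by omega)
  have hb0 : (0 : ℝ) < b := by exact_mod_cast hb
  have hden : (((ρ + b : ℕ) : ℝ) - ((ρ - b : ℕ) : ℝ)) = 2 * b := by
    rw [Nat.cast_sub (by omega)]; push_cast; ring
  rw [hden] at hgr
  have hfz : ∀ y, s < nd 0 y → f y = 0 := by
    intro y hy
    by_contra hne
    have := mem_box_nd.1 (hf y (Finsupp.mem_support_iff.2 hne)).2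
    omega
  have hgreen := green_cutoff hG χ h v (x := 0) (r := ρ + b) (R := ρ + b + 1) le_rfl
    (fun y hy => h0 y (by rw [mem_box_nd] at hy; omega))
  have hL : ∑ y ∈ box (0 : V d) (ρ + b), χ y * (h y * lapG G v y - v y * lapG G h y) =
      pair f h := by
    rw [pair_eq_sum (S := box 0 (ρ + b))
      (fun y hy => box_mono _ (by omega) (hf y hy).2)]
    refine sum_congr rfl fun y hy => ?_
    rw [H y (box_mono _ (by omega) hy), hv y]
    by_cases hy' : nd 0 y ≤ ρ - b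
    · rw [h1 y hy']; ring
    · rw [hfz y (by omega)]; ring
  set T : Finset (E d) := (boxE (0 : V d) (ρ + b + 1)).filter fun e => grad χ e ≠ 0 with hT
  have hTa : ∀ e ∈ T, e.1 ∈ ann (0 : V d) (ρ - b) (ρ + b) ∧
      e.1 + ee e.2 ∈ ann (0 : V d) (ρ - b) (ρ + b) := by
    intro e he
    have := hsupp e (mem_filter.1 he).2
    exact ⟨mem_ann.2 this.1, mem_ann.2 this.2⟩
  have hR : ∑ e ∈ boxE (0 : V d) (ρ + b + 1),
      wt G e * (grad χ e * (h e.1 * grad v e - v e.1 * grad h e)) =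
      ∑ e ∈ cap G T, grad χ e * (h e.1 * grad v e - v e.1 * grad h e) := by
    rw [sum_cap_eq_wt, hT, sum_filter]
    refine sum_congr rfl fun e _ => ?_
    by_cases he : grad χ e = 0
    · simp [he]
    · simp [he]
  have e1 : ρ - b - b = ρ - 2 * b := by omega
  have e2 : ρ + b + b = ρ + 2 * b := by omega
  have ch := cacc_ann hG (h := h) (x := 0) (a := ρ - b) (b := ρ + b) (w := b) hb (by omega)
    (fun y hy => H y (mem_box_nd.2 (by have := (mem_ann.1 hy).2; omega))) T hTa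
  have cv := cacc_ann hG (h := v) (x := 0) (a := ρ - b) (b := ρ + b) (w := b) hb (by omega)
    (fun y hy => by rw [hv y]; exact hfz y (by have := (mem_ann.1 hy).1; omega)) T hTa
  rw [e1, e2] at ch cv
  have hTs : ∀ e ∈ T, e.1 ∈ ann (0 : V d) (ρ - 2 * b) (ρ + 2 * b) := by
    intro e he
    have := mem_ann.1 (hTa e he).1
    exact mem_ann.2 ⟨by omega, by omega⟩
  have fh := small_l2_fst hG T _ hTs h
  have fv := small_l2_fst hG T _ hTs v
  set X := l2 (cap C (ann 0 (ρ - 2 * b) (ρ + 2 * b))) h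
  set Y := l2 (cap C (ann 0 (ρ - 2 * b) (ρ + 2 * b))) v
  have hX : 0 ≤ X := l2_nonneg _ _
  have hY : 0 ≤ Y := l2_nonneg _ _
  have hsq : √(d : ℝ) * √d = d := Real.mul_self_sqrt (Nat.cast_nonneg d)
  have hs0 : 0 ≤ √(d : ℝ) := Real.sqrt_nonneg _
  have a1 : ∑ e ∈ cap G T, |h e.1| * |grad v e| ≤ d / b * (X * Y) := by
    refine (sum_abs_mul_le _ (fun e : E d => h e.1) _).trans ?_
    calc _ ≤ (√d * X) * (√d / b * Y) :=
          mul_le_mul fh cv (l2_nonneg _ _) (mul_nonneg hs0 hX)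
      _ = (√d * √d) / b * (X * Y) := by ring
      _ = _ := by rw [hsq]
  have a2 : ∑ e ∈ cap G T, |v e.1| * |grad h e| ≤ d / b * (X * Y) := by
    refine (sum_abs_mul_le _ (fun e : E d => v e.1) _).trans ?_
    calc _ ≤ (√d * Y) * (√d / b * X) :=
          mul_le_mul fv ch (l2_nonneg _ _) (mul_nonneg hs0 hY)
      _ = (√d * √d) / b * (X * Y) := by ring
      _ = _ := by rw [hsq]
  rw [← hL, hgreen, hR, abs_neg]
  refine (abs_sum_le_sum_abs _ _).trans ?_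
  calc ∑ e ∈ cap G T, |grad χ e * (h e.1 * grad v e - v e.1 * grad h e)|
      ≤ ∑ e ∈ cap G T, 1 / (2 * b) * (|h e.1| * |grad v e| + |v e.1| * |grad h e|) := by
        refine sum_le_sum fun e _ => ?_
        rw [abs_mul]
        refine mul_le_mul (hgr e) ?_ (abs_nonneg _) (by positivity)
        rw [← abs_mul, ← abs_mul]
        exact abs_sub _ _
    _ = 1 / (2 * b) * (∑ e ∈ cap G T, |h e.1| * |grad v e| +
          ∑ e ∈ cap G T, |v e.1| * |grad h e|) := by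
        rw [← mul_sum, sum_add_distrib]
    _ ≤ 1 / (2 * b) * (d / b * (X * Y) + d / b * (X * Y)) := by
        gcongr
    _ = _ := by field_simp; ring

/-- Local constants on an annulus glue to one constant. -/
lemma small_glue (hd : 2 ≤ d) {θ η : ℝ} (hθ : 0 < θ) (hη : 0 ≤ η) {ρ b : ℕ} (hb : 1 ≤ b)
    (hρ : 3 * b ≤ ρ) (u : V d → ℝ)
    (hD : ∀ z ∈ ann (0 : V d) (ρ - 3 * b) (ρ + 3 * b), Dens θ C z b)
    (hc : ∀ z ∈ ann (0 : V d) (ρ - 3 * b) (ρ + 3 * b), ∃ c : ℝ,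
      l2 (cap C (box z (2 * b))) (fun y => u y - c) ≤ η) :
    ∃ c : ℝ, vol d b * l2 (cap C (ann 0 (ρ - 2 * b) (ρ + 2 * b))) (fun y => u y - c) ^ 2 ≤
      vol d (ρ + 3 * b) *
        ((1 + 4 * d * (2 * ((ρ + 3 * b : ℕ) : ℝ) / b + 1) / √θ) * η) ^ 2 := by
  choose! c hc using hc
  have hv := vol_pos d b
  have hsθ : 0 < √θ := Real.sqrt_pos.2 hθ
  have hsv : 0 < √(vol d b) := Real.sqrt_pos.2 hv
  have hov : ∀ z ∈ ann (0 : V d) (ρ - 3 * b) (ρ + 3 * b),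
      ∀ z' ∈ ann (0 : V d) (ρ - 3 * b) (ρ + 3 * b), nd z z' ≤ b →
      |c z - c z'| ≤ 2 * η / (√θ * √(vol d b)) := by
    intro z hz z' hz' hzz
    have t1 : l2 (cap C (box z b)) (fun y => u y - c z') ≤ η :=
      (l2_mono (cap_mono C (box_subset (by rw [nd_comm]; omega))) _).trans (hc z' hz')
    have t2 : l2 (cap C (box z b)) (fun y => u y - c z) ≤ η :=
      (l2_mono (cap_mono C (box_mono _ (by omega))) _).trans (hc z hz)
    have t3 := l2_sub_le (cap C (box z b)) (fun y => u y - c z') (fun y => u y - c z)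
    have t4 : (fun y => (u y - c z') - (u y - c z)) = fun _ => c z - c z' := by
      funext y; ring
    rw [t4, l2_const] at t3
    have t5 : √θ * √(vol d b) ≤ √((cap C (box z b)).card) := by
      rw [← Real.sqrt_mul hθ.le]
      exact Real.sqrt_le_sqrt (hD z hz)
    rw [le_div_iff₀ (mul_pos hsθ hsv)]
    have := mul_le_mul_of_nonneg_left t5 (abs_nonneg (c z - c z'))
    nlinarith
  have hch := ann_chain hd (0 : V d) hb c (by positivity) hov
  have hne : Nonempty (Fin d) := ⟨⟨0, by omega⟩⟩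
  have hz0 : (fun _ => (ρ : ℤ) : V d) ∈ ann (0 : V d) (ρ - 3 * b) (ρ + 3 * b) := by
    have : nd (0 : V d) (fun _ => (ρ : ℤ)) = ρ := by
      simp only [nd, Pi.zero_apply, sub_zero, Int.natAbs_natCast]
      exact sup_const univ_nonempty _
    rw [mem_ann, this]
    omega
  set z0 : V d := fun _ => (ρ : ℤ)
  set P : ℝ := 2 * ((ρ + 3 * b : ℕ) : ℝ) / b + 1 with hP
  have hP0 : 0 ≤ P := by positivity
  refine ⟨c z0, ?_⟩
  have hloc : ∀ z ∈ ann (0 : V d) (ρ - 3 * b) (ρ + 3 * b),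
      l2 (cap C (box z b)) (fun y => u y - c z0) ≤ (1 + 4 * d * P / √θ) * η := by
    intro z hz
    have t2 : l2 (cap C (box z b)) (fun y => u y - c z) ≤ η :=
      (l2_mono (cap_mono C (box_mono _ (by omega))) _).trans (hc z hz)
    have t3 := l2_add_le (cap C (box z b)) (fun y => u y - c z) (fun _ => c z - c z0)
    have t4 : (fun y => (u y - c z) + (c z - c z0)) = fun y => u y - c z0 := by
      funext y; ring
    rw [t4, l2_const] at t3
    have t5 : √((cap C (box z b)).card) ≤ √(vol d b) := by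
      refine Real.sqrt_le_sqrt ?_
      rw [← card_box_vol z b]
      exact_mod_cast card_le_card (cap_subset _ _)
    have t6 : √((cap C (box z b)).card) * |c z - c z0| ≤
        √(vol d b) * (2 * d * P * (2 * η / (√θ * √(vol d b)))) :=
      mul_le_mul t5 (hch z hz z0 hz0) (abs_nonneg _) hsv.le
    have t7 : √(vol d b) * (2 * d * P * (2 * η / (√θ * √(vol d b)))) = 4 * d * P / √θ * η := by
      field_simp; ring
    linarith
  rw [l2_sq]
  refine (vol_mul_sum_le C (ann 0 (ρ - 2 * b) (ρ + 2 * b)) (ann 0 (ρ - 3 * b) (ρ + 3 * b)) b ?_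
    (f := fun y => (u y - c z0) ^ 2) (fun y => sq_nonneg _)).trans ?_
  · intro z hz y hy
    have a1 := mem_ann.1 hz
    have a2 := mem_box_nd.1 hy
    have a3 := nd_triangle 0 z y
    have a4 := nd_triangle 0 y z
    rw [nd_comm y z] at a4
    exact mem_ann.2 ⟨by omega, by omega⟩
  · refine (sum_le_card_nsmul _ _ (((1 + 4 * d * P / √θ) * η) ^ 2) ?_).trans ?_
    · intro z hz
      rw [← l2_sq]
      exact pow_le_pow_left₀ (l2_nonneg _ _) (hloc z hz) 2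
    · rw [nsmul_eq_mul]
      refine mul_le_mul_of_nonneg_right ?_ (sq_nonneg _)
      rw [← card_box_vol (0 : V d)]
      exact_mod_cast card_le_card (filter_subset _ _)

/-- The glued estimate with explicit constants. -/
lemma small_glue' (hd : 2 ≤ d) {θ η a : ℝ} (hθ : 0 < θ) (hη : 0 ≤ η) {ρ b : ℕ} (hb : 1 ≤ b)
    (hρ : 3 * b ≤ ρ) (ha : 1 ≤ a) (hρa : ((ρ + 3 * b : ℕ) : ℝ) ≤ a * b) (u : V d → ℝ)
    (hD : ∀ z ∈ ann (0 : V d) (ρ - 3 * b) (ρ + 3 * b), Dens θ C z b)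
    (hc : ∀ z ∈ ann (0 : V d) (ρ - 3 * b) (ρ + 3 * b), ∃ c : ℝ,
      l2 (cap C (box z (2 * b))) (fun y => u y - c) ≤ η) :
    ∃ c : ℝ, l2 (cap C (ann 0 (ρ - 2 * b) (ρ + 2 * b))) (fun y => u y - c) ≤
      a ^ d * ((1 + 4 * d * (2 * a + 1) / √θ) * η) := by
  obtain ⟨c, hc⟩ := small_glue hd hθ hη hb hρ u hD hc
  refine ⟨c, ?_⟩
  have hb0 : (0 : ℝ) < b := by exact_mod_cast hb
  have hsθ : 0 < √θ := Real.sqrt_pos.2 hθ
  have hY0 : 0 ≤ l2 (cap C (ann 0 (ρ - 2 * b) (ρ + 2 * b))) (fun y => u y - c) := l2_nonneg _ _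
  generalize l2 (cap C (ann 0 (ρ - 2 * b) (ρ + 2 * b))) (fun y => u y - c) = Y at *
  have v1 : vol d (ρ + 3 * b) ≤ a ^ d * vol d b := vol_le_of_le_mul d ha hρa
  have v0 : 2 * ((ρ + 3 * b : ℕ) : ℝ) / b ≤ 2 * a := by
    rw [div_le_iff₀ hb0]; linarith
  have v0' : 0 ≤ 2 * ((ρ + 3 * b : ℕ) : ℝ) / b := by positivity
  generalize 2 * ((ρ + 3 * b : ℕ) : ℝ) / b = P at *
  have v3 : ((1 + 4 * d * (P + 1) / √θ) * η) ^ 2 ≤ ((1 + 4 * d * (2 * a + 1) / √θ) * η) ^ 2 := by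
    gcongr
  have hQ : 0 ≤ (1 + 4 * d * (2 * a + 1) / √θ) * η := by positivity
  generalize (1 + 4 * d * (2 * a + 1) / √θ) * η = Q at *
  have v4 : (1 : ℝ) ≤ a ^ d := one_le_pow₀ ha
  have hv := vol_pos d b
  have v5 : vol d b * Y ^ 2 ≤ vol d b * (a ^ d * Q ^ 2) := by
    refine hc.trans ?_
    calc _ ≤ (a ^ d * vol d b) * Q ^ 2 := mul_le_mul v1 v3 (sq_nonneg _) (by positivity)
      _ = _ := by ring
  have v6 := le_of_mul_le_mul_left v5 hv
  refine (pow_le_pow_iff_left₀ hY0 (by positivity) two_ne_zero).1 (v6.trans ?_)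
  rw [mul_pow (a ^ d)]
  refine mul_le_mul_of_nonneg_right ?_ (sq_nonneg _)
  nlinarith

lemma small_sqrt_vol {s R : ℕ} {a : ℝ} (ha : 1 ≤ a) (h : (R : ℝ) ≤ a * s) :
    √(vol d R) ≤ a ^ d * √(vol d s) := by
  have x2 : vol d R ≤ a ^ d * vol d s := vol_le_of_le_mul d ha h
  have x3 : (1 : ℝ) ≤ a ^ d := one_le_pow₀ ha
  have hvs := vol_pos d s
  rw [Real.sqrt_le_iff]
  refine ⟨by positivity, x2.trans ?_⟩
  rw [mul_pow, Real.sq_sqrt hvs.le]
  refine mul_le_mul_of_nonneg_right ?_ hvs.le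
  nlinarith

/-- The dual norm in terms of the oscillation on an annulus. -/
lemma small_lam (hG : G ⊆ ins C) {s ρ b R : ℕ} (hb : 1 ≤ b) (hρ : s + 2 * b < ρ)
    (hR : ρ + 2 * b ≤ R) (u : V d → ℝ) (f : V d →₀ ℝ) (hu : ∀ y, lapG G u y = f y)
    (hf : Supp C 0 s f) (c : ℝ) :
    lam G C 0 R f ≤ d / (b : ℝ) ^ 2 * (√(vol d R) *
      l2 (cap C (ann 0 (ρ - 2 * b) (ρ + 2 * b))) (fun y => u y - c)) := by
  have hY0 : 0 ≤ l2 (cap C (ann 0 (ρ - 2 * b) (ρ + 2 * b))) (fun y => u y - c) := l2_nonneg _ _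
  refine lam_le (by positivity) fun h H hn => ?_
  have hg := small_green hG hb hρ h (fun y => u y - c) f
    (fun y => by rw [lapG_sub G u (fun _ => c), lapG_const, hu y, sub_zero]) hf
    (H.mono (box_mono _ hR))
  refine (le_abs_self _).trans (hg.trans ?_)
  refine mul_le_mul_of_nonneg_left (mul_le_mul_of_nonneg_right ?_ hY0) (by positivity)
  have x1 : l2 (cap C (ann 0 (ρ - 2 * b) (ρ + 2 * b))) h ≤ l2 (cap C (box 0 R)) h :=
    l2_mono (cap_mono C fun y hy => mem_box_nd.2 ((mem_ann.1 hy).2.trans hR)) _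
  rw [l2_eq_nrm] at x1
  exact x1.trans (mul_le_of_le_one_right (Real.sqrt_nonneg _) hn)

lemma small_act {z : V d} {s R' : ℕ} (h : nd 0 z + 2 * s + 1 ≤ R') (u : V d → ℝ) :
    ((cap G (boxE z (2 * s))).filter fun e => grad u e ≠ 0) ⊆ act G u R' := by
  intro e he
  obtain ⟨he1, he2⟩ := mem_filter.1 he
  obtain ⟨he3, he4⟩ := mem_cap.1 he1
  have a2 := mem_box_nd.1 (mem_boxE'.1 he3)
  have a3 := nd_triangle 0 e.1 (e.1 + ee e.2)
  have a4 := nd_triangle 0 z e.1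
  rw [nd_add_ee] at a3
  exact mem_filter.2 ⟨mem_boxE'.2 (mem_box_nd.2 (by omega)), he4, mem_box_nd.2 (by omega), he2⟩

end aux

theorem lam_drop {d : ℕ} (hd : 2 ≤ d) {θ K : ℝ} (hθ : 0 < θ) (hK : 0 < K) {A : ℕ} (hA : 16 ≤ A)
    {β : ℝ} (hβ : 0 < β) :
    ∃ δ0 ε0 : ℝ, 0 < δ0 ∧ 0 < ε0 ∧ ∀ {δ : ℝ} {G : Set (E d)} {C : Set (V d)} {s : ℕ},
    δ ≤ δ0 → 16 ≤ s → G ⊆ ins C → (∀ z ∈ box (0 : V d) (s * A), HGood θ K δ G C z s) →
    ∀ (u : V d → ℝ) (f : V d →₀ ℝ), (∀ y, lapG G u y = f y) → Supp C 0 s f →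
    ((act G u (s * A * A)).card : ℝ) ≤ ε0 * vol d s →
    lam G C 0 (s * A) f ≤
      β * (√(vol d s) / (s : ℝ) ^ 2) * l2 (cap C (ann 0 (s + 1) (s * A * A))) u := by
  have hA0 : (16 : ℝ) ≤ A := by exact_mod_cast hA
  have hd0 : (2 : ℝ) ≤ d := by exact_mod_cast hd
  have hsθ : 0 < √θ := Real.sqrt_pos.2 hθ
  obtain ⟨Q, hQ⟩ : ∃ Q : ℝ, Q = 1 + 4 * d * (2 * (16 * A) + 1) / √θ := ⟨_, rfl⟩
  have hQ0 : 0 < Q := by rw [hQ]; positivity
  obtain ⟨Z, hZ⟩ : ∃ Z : ℝ, Z = 256 * d * (A : ℝ) ^ d * (16 * A) ^ d * Q := ⟨_, rfl⟩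
  have hZ0 : 0 < Z := by rw [hZ]; positivity
  obtain ⟨δ1, ε0, hδ1, hε0, hnear⟩ := near_const d hθ hK (β := β / Z) (div_pos hβ hZ0)
  refine ⟨min δ1 (1 / 16), ε0, lt_min hδ1 (by norm_num), hε0, ?_⟩
  intro δ G C s hδ hs hG hgood u f hu hf hact
  have hδa : δ ≤ δ1 := hδ.trans (min_le_left _ _)
  have hδb : δ ≤ 1 / 16 := hδ.trans (min_le_right _ _)
  have hs0 : (16 : ℝ) ≤ s := by exact_mod_cast hs
  have hsA : 16 * s ≤ s * A := by rw [mul_comm 16 s]; exact Nat.mul_le_mul_left _ hA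
  have hsAA : 16 * (s * A) ≤ s * A * A := by
    rw [mul_comm 16]; exact Nat.mul_le_mul_left _ hA
  have hRr : ((s * A : ℕ) : ℝ) = A * s := by push_cast; ring
  generalize s * A * A = R' at *
  generalize s * A = R at *
  obtain ⟨ℓ, hℓ⟩ : ∃ ℓ, ℓ = l2 (cap C (ann 0 (s + 1) R')) u := ⟨_, rfl⟩
  rw [← hℓ]
  have hℓ0 : 0 ≤ ℓ := hℓ ▸ l2_nonneg _ _
  obtain ⟨b, hb⟩ : ∃ b, b = s / 8 := ⟨_, rfl⟩
  obtain ⟨ρ, hρ⟩ : ∃ ρ, ρ = R / 2 := ⟨_, rfl⟩
  have hb1 : 1 ≤ b := by omega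
  have hb0 : (0 : ℝ) < b := by exact_mod_cast hb1
  have hbs : (s : ℝ) ≤ 16 * b := by exact_mod_cast (by omega : s ≤ 16 * b)
  have hfz : ∀ y, s < nd 0 y → f y = 0 := by
    intro y hy
    by_contra hne
    have := mem_box_nd.1 (hf y (Finsupp.mem_support_iff.2 hne)).2
    omega
  have hann : ∀ z ∈ ann (0 : V d) (ρ - 3 * b) (ρ + 3 * b), z ∈ box (0 : V d) R := by
    intro z hz
    have := mem_ann.1 hz
    exact mem_box_nd.2 (by omega)
  have hδs : δ * s ≤ b := by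
    have := mul_le_mul_of_nonneg_right hδb (by positivity : (0 : ℝ) ≤ s)
    linarith
  have hη : 0 ≤ β / Z * ℓ := mul_nonneg (div_pos hβ hZ0).le hℓ0
  have hρR : ((ρ + 3 * b : ℕ) : ℝ) ≤ 16 * A * b := by
    have h1 : ((ρ + 3 * b : ℕ) : ℝ) ≤ R := by exact_mod_cast (by omega : ρ + 3 * b ≤ R)
    have h2 : (A : ℝ) * s ≤ A * (16 * b) := mul_le_mul_of_nonneg_left hbs (by linarith)
    linarith
  obtain ⟨c, hc⟩ := small_glue' (C := C) hd hθ hη (ρ := ρ) hb1 (by omega) (by linarith) hρR u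
    (fun z hz => (hgood z (hann z hz)).dens z (mem_box_self _ _) b hδs (by omega))
    (by
      intro z hz
      have a1 := mem_ann.1 hz
      have hin : ∀ y ∈ box z (3 * s), s + 1 ≤ nd 0 y ∧ nd 0 y ≤ R' := by
        intro y hy
        have a2 := mem_box_nd.1 hy
        have a3 := nd_triangle 0 z y
        have a4 := nd_triangle 0 y z
        rw [nd_comm y z] at a4
        omega
      obtain ⟨c, hc⟩ := hnear hδa hs hG (hgood z (hann z hz)) u
        (fun y hy => by rw [hu y]; exact hfz y (hin y hy).1)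
        (le_trans (Nat.cast_le.2 (card_le_card (small_act (by omega) u))) hact)
      refine ⟨c, (l2_mono (cap_mono C (box_mono _ (by omega))) _).trans (hc.trans ?_)⟩
      rw [hℓ]
      refine mul_le_mul_of_nonneg_left (l2_mono (cap_mono C fun y hy => ?_) _)
        (div_pos hβ hZ0).le
      exact mem_ann.2 (hin y hy))
  rw [← hQ] at hc
  have hX : √(vol d R) ≤ (A : ℝ) ^ d * √(vol d s) := small_sqrt_vol (by linarith) hRr.le
  have hbb : (d : ℝ) / (b : ℝ) ^ 2 ≤ 256 * d / (s : ℝ) ^ 2 := by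
    rw [div_le_div_iff₀ (by positivity) (by positivity)]
    have h1 : (s : ℝ) ^ 2 ≤ (16 * b) ^ 2 := pow_le_pow_left₀ (by positivity) hbs 2
    have h2 := mul_le_mul_of_nonneg_left h1 (by positivity : (0 : ℝ) ≤ d)
    linarith
  refine (small_lam hG (ρ := ρ) hb1 (by omega) (by omega) u f hu hf c).trans ?_
  calc _ ≤ 256 * d / (s : ℝ) ^ 2 * (((A : ℝ) ^ d * √(vol d s)) *
        ((16 * A) ^ d * (Q * (β / Z * ℓ)))) :=
        mul_le_mul hbb (mul_le_mul hX hc (l2_nonneg _ _) (by positivity))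
          (mul_nonneg (Real.sqrt_nonneg _) (l2_nonneg _ _)) (by positivity)
    _ = (256 * d * (A : ℝ) ^ d * (16 * A) ^ d * Q) * (β / Z) * (√(vol d s) / (s : ℝ) ^ 2) * ℓ := by
        ring
    _ = _ := by rw [← hZ, mul_div_cancel₀ _ hZ0.ne']

end Pool.Agent.P.MP_b4265e_pr.R
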