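import Pool.Agent.P.MP_b4265e_pr.R.Star
import Pool.Agent.P.MP_b4265e_pr.R.Hardy
import Pool.Agent.P.MP_b4265e_pr.R.Small
import Pool.Agent.P.MP_b4265e_pr.R.PShift

/-!
Without fast decay the function varies along a positive density of edges.
-/

namespace Pool.Agent.P.MP_b4265e_pr.R

open Finset MeasureTheory ProbabilityTheory Filter
open scoped Classical

variable {d : ℕ}

/-- Every large number lies between two consecutive powers. -/
lemma thmB_between {A : ℕ} (hA : 2 ≤ A) (m N : ℕ) (h : A ^ m ≤ N) :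
    ∃ n ≥ m, A ^ n ≤ N ∧ N < A ^ (n + 1) := by
  have hN : N ≠ 0 := by
    have : 0 < A ^ m := pow_pos (by omega) m
    omega
  exact ⟨Nat.log A N, Nat.le_log_of_pow_le (by omega) h, Nat.pow_log_le_self A hN,
    Nat.lt_pow_succ_log_self (by omega) N⟩

/-- Fast decay of the dual norms gives polynomial decay of the function. -/
lemma thmB_decay {C : Set (V d)} {u : V d → ℝ} {A M n1 : ℕ} (hA : 2 ≤ A) {a : ℕ → ℝ} {B : ℝ}
    (hB : 0 ≤ B) (ha : ∀ n ≥ n1, 0 ≤ a n)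
    (h1 : ∀ n ≥ n1, 2 * (A : ℝ) ^ (M + 2) * a (n + 1) ≤ a n)
    (h2 : ∀ n ≥ n1, l2 (cap C (ann 0 (A ^ n + 1) (A ^ (n + 2)))) u ≤
      B * (A : ℝ) ^ (2 * n + 4) * a n) :
    ∃ R : ℕ, ∀ y ∈ C, y ∉ box (0 : V d) R → |u y| * (nd 0 y : ℝ) ^ M ≤ 1 := by
  have hA0 : (0 : ℝ) < A := by exact_mod_cast (by omega : 0 < A)
  have key : ∀ j : ℕ, a (n1 + j) * ((A : ℝ) ^ (M + 2)) ^ (n1 + j) ≤
      a n1 * ((A : ℝ) ^ (M + 2)) ^ n1 * (1 / 2) ^ j := by
    intro j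
    induction j with
    | zero => simp
    | succ j ih =>
      have t := mul_le_mul_of_nonneg_right (h1 (n1 + j) (by omega))
        (by positivity : (0 : ℝ) ≤ ((A : ℝ) ^ (M + 2)) ^ (n1 + j))
      rw [← add_assoc, pow_succ _ (n1 + j), pow_succ (1 / 2 : ℝ)]
      nlinarith
  have lim : Tendsto (fun j : ℕ => B * (A : ℝ) ^ (M + 4) * (a n1 * ((A : ℝ) ^ (M + 2)) ^ n1 *
      (1 / 2) ^ j)) atTop (nhds 0) := by
    have := ((tendsto_pow_atTop_nhds_zero_of_lt_one (r := (1 / 2 : ℝ)) (by norm_num)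
      (by norm_num)).const_mul (a n1 * ((A : ℝ) ^ (M + 2)) ^ n1)).const_mul
        (B * (A : ℝ) ^ (M + 4))
    simpa using this
  obtain ⟨j0, hj0⟩ := eventually_atTop.1 (lim.eventually (ge_mem_nhds one_pos))
  refine ⟨A ^ (n1 + j0), fun y hy hy' => ?_⟩
  rw [mem_box_nd, not_le] at hy'
  obtain ⟨n, hn, hn1, hn2⟩ := thmB_between hA (n1 + j0) (nd 0 y - 1) (by omega)
  obtain ⟨j, rfl⟩ : ∃ j, n = n1 + j := ⟨n - n1, by omega⟩
  have hle : nd 0 y ≤ A ^ (n1 + j + 1) := by omega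
  have hmem : y ∈ cap C (ann (0 : V d) (A ^ (n1 + j) + 1) (A ^ (n1 + j + 2))) := by
    refine mem_cap.2 ⟨mem_ann.2 ⟨by omega, hle.trans ?_⟩, hy⟩
    exact Nat.pow_le_pow_right (by omega) (by omega)
  have t1 := (abs_le_l2 hmem u).trans (h2 _ (by omega))
  have t2 : (nd 0 y : ℝ) ^ M ≤ ((A : ℝ) ^ (n1 + j + 1)) ^ M :=
    pow_le_pow_left₀ (Nat.cast_nonneg _) (by exact_mod_cast hle) M
  have t3 := ha (n1 + j) (by omega)
  calc |u y| * (nd 0 y : ℝ) ^ M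
      ≤ (B * (A : ℝ) ^ (2 * (n1 + j) + 4) * a (n1 + j)) * ((A : ℝ) ^ (n1 + j + 1)) ^ M :=
        mul_le_mul t1 t2 (by positivity) (by positivity)
    _ = B * (A : ℝ) ^ (M + 4) * (a (n1 + j) * ((A : ℝ) ^ (M + 2)) ^ (n1 + j)) := by ring
    _ ≤ B * (A : ℝ) ^ (M + 4) * (a n1 * ((A : ℝ) ^ (M + 2)) ^ n1 * (1 / 2) ^ j) :=
        mul_le_mul_of_nonneg_left (key j) (by positivity)
    _ ≤ 1 := hj0 j (by omega)

lemma thmB_act_mono (G : Set (E d)) (u : V d → ℝ) {N N' : ℕ} (h : N ≤ N') :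
    act G u N ⊆ act G u N' := by
  intro e he
  obtain ⟨h1, h2, h3, h4⟩ := mem_filter.1 he
  exact mem_filter.2 ⟨boxE_mono _ h h1, h2, box_mono _ h h3, h4⟩

theorem thmB (hd : 3 ≤ d) {θ K : ℝ} (hθ : 0 < θ) (hK : 0 < K) {G : Set (E d)} {C : Set (V d)}
    (hw : Wf G C) (hg : AllGood θ K G C) {u : V d → ℝ} {R0 : ℕ} (h1 : HarmOff G R0 u)
    (h2 : Dec C u) (h3 : ¬ SD C u) :
    ∃ ε : ℝ, 0 < ε ∧ ∀ᶠ N : ℕ in atTop, ε * vol d N ≤ (act G u N).card := by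
  obtain ⟨f, hf, hfs⟩ : ∃ f : V d →₀ ℝ, (∀ y, lapG G u y = f y) ∧ Supp C 0 R0 f := by
    refine ⟨Finsupp.onFinset (box 0 R0) (lapG G u) fun y hy => ?_, fun y => rfl, fun y hy => ?_⟩
    · by_contra hn
      exact hy (h1 y hn)
    · have hy' : lapG G u y ≠ 0 := Finsupp.mem_support_iff.1 hy
      refine ⟨?_, Finsupp.support_onFinset_subset hy⟩
      by_contra hn
      exact hy' (lapG_of_not_mem hw.sub u hn)
  obtain ⟨M, hM⟩ := not_forall.1 h3
  obtain ⟨Ck, hCk, hstar⟩ := star d hK (M + 2)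
  obtain ⟨CH, hCH, A0, hshell⟩ := shell_le_lam hd hθ hK
  obtain ⟨A, hA16, hAA0, hAC⟩ : ∃ A : ℕ, 16 ≤ A ∧ A0 ≤ A ∧ 4 * Ck ^ 2 ≤ A := by
    refine ⟨max (max 16 A0) ⌈4 * Ck ^ 2⌉₊, (le_max_left _ _).trans (le_max_left _ _),
      (le_max_right _ _).trans (le_max_left _ _), (Nat.le_ceil _).trans ?_⟩
    exact_mod_cast le_max_right _ _
  have hA0 : (0 : ℝ) < A := by exact_mod_cast (by omega : 0 < A)
  have hA1 : (1 : ℝ) ≤ A := by exact_mod_cast (by omega : 1 ≤ A)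
  obtain ⟨δ1, s0, hδ1, hstar⟩ := hstar A hA16
  obtain ⟨Λ, hΛ⟩ : ∃ Λ : ℝ, Λ = 2 * (Ck * (A : ℝ) ^ (M + 2)) := ⟨_, rfl⟩
  have hΛ0 : 0 < Λ := by rw [hΛ]; positivity
  obtain ⟨δ2, ε0, hδ2, hε0, hdrop⟩ := lam_drop (d := d) (by omega) hθ hK hA16
    (β := 1 / (2 * Λ * CH * (A : ℝ) ^ 4)) (by positivity)
  obtain ⟨n0, hn0⟩ := hg A (by omega) (min (min δ1 δ2) 1) (by positivity)
  have hδa : min (min δ1 δ2) 1 ≤ δ1 := (min_le_left _ _).trans (min_le_left _ _)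
  have hδb : min (min δ1 δ2) 1 ≤ δ2 := (min_le_left _ _).trans (min_le_right _ _)
  have hδc : min (min δ1 δ2) 1 ≤ 1 := min_le_right _ _
  generalize min (min δ1 δ2) 1 = δ at *
  obtain ⟨n1, hn1a, hn1b, hn1c, hn1d⟩ : ∃ n1, n0 ≤ n1 ∧ s0 ≤ n1 ∧ R0 ≤ n1 ∧ 16 ≤ n1 :=
    ⟨n0 + s0 + R0 + 16, by omega, by omega, by omega, by omega⟩
  have hpow : ∀ n, n < A ^ n := fun n => Nat.lt_pow_self (by omega)
  have hsupp : ∀ n ≥ n1, Supp C 0 (A ^ n) f := fun n hn =>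
    hfs.mono (box_mono _ (by have := hpow n; omega))
  have hg0 : ∀ n ≥ n1, HGood θ K δ G C 0 (A ^ n) := fun n hn =>
    hn0 n (by omega) 0 (mem_box_self _ _)
  obtain ⟨a, ha⟩ : ∃ a : ℕ → ℝ, ∀ n, a n = lam G C 0 (A ^ n) f := ⟨_, fun _ => rfl⟩
  have ha0 : ∀ n ≥ n1, 0 ≤ a n := fun n hn => by rw [ha]; exact lam_nonneg (hsupp n hn)
  have hsh : ∀ n ≥ n1, l2 (cap C (ann 0 (A ^ n + 1) (A ^ (n + 2)))) u ≤
      CH * (A : ℝ) ^ (2 * n + 4) * a n / √(vol d (A ^ n)) := by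
    intro n hn
    rw [ha]
    refine hshell A hAA0 G C n hw (fun j hj => ⟨?_, (hg0 j (by omega)).poin2⟩) u f hf
      (hsupp n hn) h2
    exact (hg0 j (by omega)).dens 0 (mem_box_self _ _) _
      (mul_le_of_le_one_left (Nat.cast_nonneg _) hδc) le_rfl
  have hst : ∀ n ≥ n1, a (n + 1) ≤ Ck * (A : ℝ) ^ (M + 2) * a (n + 2) +
      Ck / (A : ℝ) ^ (M + 2 + 1) * a n := by
    intro n hn
    rw [ha, ha, ha, pow_succ A (n + 1), pow_succ A n]
    refine hstar (θ := θ) hδa (by have := hpow n; omega) ?_ ?_ f (hsupp n hn)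
    · rw [← pow_succ]; exact hg0 _ (by omega)
    · rw [← pow_succ, ← pow_succ]; exact hg0 _ (by omega)
  obtain ⟨n2, hn2, hslow⟩ : ∃ n ≥ n1, a n < Λ * a (n + 1) := by
    by_contra hcon
    push Not at hcon
    refine hM (thmB_decay (A := A) (n1 := n1) (a := a) (B := CH) (by omega) (by linarith) ha0
      (fun n hn => le_trans ?_ (hcon n hn)) (fun n hn => (hsh n hn).trans ?_))
    · refine mul_le_mul_of_nonneg_right ?_ (ha0 _ (by omega))
      rw [hΛ]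
      have : (0 : ℝ) < (A : ℝ) ^ (M + 2) := by positivity
      nlinarith
    · have := ha0 n hn
      refine div_le_self (by positivity) ?_
      rw [Real.one_le_sqrt]
      exact one_le_vol _ _
  have hεΛ : Ck / (A : ℝ) ^ (M + 2 + 1) * Λ ≤ 1 / 2 := by
    have : Ck / (A : ℝ) ^ (M + 2 + 1) * Λ = 2 * Ck ^ 2 / A := by
      rw [hΛ]; field_simp; ring
    rw [this, div_le_iff₀ hA0]
    linarith
  have hper : ∀ n ≥ n2, a n ≤ Λ * a (n + 1) := fun n hn =>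
    (persist (a := a) (n0 := n2) (n1 := n + 2) (Γ := Ck * (A : ℝ) ^ (M + 2))
      (fun m hm => ha0 m (by omega)) (by positivity) hεΛ hΛ.ge
      (fun m hm _ => hst m (by omega)) hslow.le n hn le_rfl).1
  have hpos : ∀ n ≥ n2, 0 < a (n + 1) := by
    intro n hn
    induction n, hn using Nat.le_induction with
    | base => exact (mul_pos_iff_of_pos_left hΛ0).1 ((ha0 _ hn2).trans_lt hslow)
    | succ n hn ih => exact (mul_pos_iff_of_pos_left hΛ0).1 (ih.trans_le (hper (n + 1) (by omega)))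
  have hbig : ∀ n ≥ n2, ε0 * vol d (A ^ n) < (act G u (A ^ (n + 2))).card := by
    intro n hn
    by_contra hcon
    rw [not_lt, pow_succ, pow_succ] at hcon
    have t1 := hdrop hδb (by have := hpow n; omega) hw.sub (fun z hz => hn0 n (by omega) z
      (box_mono _ (by rw [← pow_succ]; exact Nat.pow_le_pow_right (by omega) (by omega)) hz))
      u f hf (hsupp n (by omega)) hcon
    rw [← pow_succ, ← pow_succ, ← ha] at t1
    have hv : 0 < √(vol d (A ^ n)) := Real.sqrt_pos.2 (vol_pos _ _)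
    have t2 := mul_le_mul_of_nonneg_left (hsh n (by omega))
      (by positivity : 0 ≤ 1 / (2 * Λ * CH * (A : ℝ) ^ 4) *
        (√(vol d (A ^ n)) / ((A ^ n : ℕ) : ℝ) ^ 2))
    have t3 : 1 / (2 * Λ * CH * (A : ℝ) ^ 4) * (√(vol d (A ^ n)) / ((A ^ n : ℕ) : ℝ) ^ 2) *
        (CH * (A : ℝ) ^ (2 * n + 4) * a n / √(vol d (A ^ n))) = a n / (2 * Λ) := by
      have : CH ≠ 0 := by positivity
      push_cast
      field_simp
      ring
    have t4 : a n / (2 * Λ) ≤ a (n + 1) / 2 := by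
      rw [div_le_div_iff₀ (by positivity) (by norm_num)]
      have := hper n hn
      linarith
    have t5 := hpos n hn
    have t6 := t1.trans (t2.trans (t3.le.trans t4))
    linarith
  refine ⟨ε0 / ((A : ℝ) ^ 3) ^ d, by positivity, eventually_atTop.2 ⟨A ^ (n2 + 2), ?_⟩⟩
  intro N hN
  obtain ⟨n, hn, hn1, hn2⟩ := thmB_between (A := A) (by omega) (n2 + 2) N hN
  obtain ⟨n, rfl⟩ : ∃ m, n = m + 2 := ⟨n - 2, by omega⟩
  have v1 : vol d N ≤ ((A : ℝ) ^ 3) ^ d * vol d (A ^ n) := by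
    refine vol_le_of_le_mul d (one_le_pow₀ hA1) ?_
    have : (N : ℝ) ≤ ((A ^ (n + 2 + 1) : ℕ) : ℝ) := by exact_mod_cast hn2.le
    refine this.trans (le_of_eq ?_)
    push_cast
    ring
  calc ε0 / ((A : ℝ) ^ 3) ^ d * vol d N
      ≤ ε0 / ((A : ℝ) ^ 3) ^ d * (((A : ℝ) ^ 3) ^ d * vol d (A ^ n)) :=
        mul_le_mul_of_nonneg_left v1 (by positivity)
    _ = ε0 * vol d (A ^ n) := by field_simp
    _ ≤ (act G u (A ^ (n + 2))).card := (hbig n (by omega)).le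
    _ ≤ _ := by exact_mod_cast card_le_card (thmB_act_mono G u hn1)

/-- Borel-Cantelli for the local events at the scales `A ^ n`. -/
lemma thmB_ae_W {p : unitInterval} {θ K : ℝ} (h : Hom d p θ K) {A : ℕ} (hA : 2 ≤ A) {δ : ℝ}
    (hδ : 0 < δ) :
    ∀ᵐ O ∂μP d p, ∀ᶠ n in atTop, ∀ z ∈ box (0 : V d) (A ^ (n + 3)), W θ K δ z (A ^ n) O := by
  obtain ⟨s0, hs0⟩ := h δ hδ (d + 1)
  have hA2 : (2 : ℝ) ≤ A := by exact_mod_cast hA
  have hsum : Summable fun n : ℕ => (3 * (A : ℝ) ^ 3) ^ d * (1 / 2) ^ n :=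
    summable_geometric_two.mul_left _
  have := ae_eventually_of_summable (μ := μP d p) (s := fun n => {O | s0 ≤ n ∧
      ∃ z ∈ box (0 : V d) (A ^ (n + 3)), ¬ W θ K δ z (A ^ n) O}) hsum (by
    intro n
    by_cases hn : s0 ≤ n
    · have e : {O : Set (E d) | s0 ≤ n ∧ ∃ z ∈ box (0 : V d) (A ^ (n + 3)), ¬ W θ K δ z (A ^ n) O} =
          ⋃ z ∈ box (0 : V d) (A ^ (n + 3)), {O | ¬ W θ K δ z (A ^ n) O} := by
        ext O; simp [hn]
      rw [e]
      refine (measureReal_biUnion_finset_le _ _).trans ?_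
      have hlt : n < A ^ n := Nat.lt_pow_self (by omega)
      refine (sum_le_card_nsmul _ _ _ fun z _ => hs0 (A ^ n) (by omega) z).trans ?_
      rw [nsmul_eq_mul, card_box_vol]
      have hAn : (0 : ℝ) < (A : ℝ) ^ n := by positivity
      have v1 : vol d (A ^ (n + 3)) ≤ (3 * (A : ℝ) ^ 3 * (A : ℝ) ^ n) ^ d := by
        unfold vol
        refine pow_le_pow_left₀ (by positivity) ?_ d
        have : (1 : ℝ) ≤ (A : ℝ) ^ (n + 3) := one_le_pow₀ (by linarith)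
        push_cast
        rw [mul_assoc, ← pow_add, add_comm 3 n]
        linarith
      have v2 : 1 / (A : ℝ) ^ n ≤ (1 / 2) ^ n := by
        rw [← one_div_pow]
        exact pow_le_pow_left₀ (by positivity) (one_div_le_one_div_of_le two_pos hA2) n
      calc vol d (A ^ (n + 3)) * (1 / ((A ^ n : ℕ) : ℝ) ^ (d + 1))
          ≤ (3 * (A : ℝ) ^ 3 * (A : ℝ) ^ n) ^ d * (1 / ((A ^ n : ℕ) : ℝ) ^ (d + 1)) :=
            mul_le_mul_of_nonneg_right v1 (by positivity)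
        _ = (3 * (A : ℝ) ^ 3) ^ d * (1 / (A : ℝ) ^ n) := by
            push_cast
            rw [mul_pow _ ((A : ℝ) ^ n), pow_succ ((A : ℝ) ^ n)]
            field_simp
        _ ≤ _ := mul_le_mul_of_nonneg_left v2 (by positivity)
    · simp only [hn, false_and, Set.ofPred_false, measureReal_empty]
      positivity)
  filter_upwards [this] with O hO
  filter_upwards [hO, eventually_ge_atTop s0] with n hn hn' z hz
  by_contra hc
  exact hn ⟨hn', z, hz, hc⟩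

theorem ae_allGood {p : unitInterval} {θ K : ℝ} (hθ : 0 < θ) (h : Hom d p θ K) :
    ∀ᵐ O ∂μP d p, (Cl O).Nonempty → AllGood θ K (GC O) (Cl O) := by
  have H : ∀ᵐ O ∂μP d p, ∀ A k : ℕ, ∀ᶠ n in atTop, ∀ z ∈ box (0 : V d) ((A + 2) ^ (n + 3)),
      W θ K (1 / ((k : ℝ) + 1)) z ((A + 2) ^ n) O := by
    rw [ae_all_iff]
    intro A
    rw [ae_all_iff]
    intro k
    exact thmB_ae_W h (by omega) (by positivity)
  filter_upwards [H] with O hO
  rintro ⟨y0, hy0⟩ A hA δ hδ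
  obtain ⟨A', rfl⟩ : ∃ A', A = A' + 2 := ⟨A - 2, by omega⟩
  have hO' := hO A'
  generalize A' + 2 = A at *
  have hA0 : (0 : ℝ) < A := by exact_mod_cast (by omega : 0 < A)
  obtain ⟨k, hk⟩ := exists_nat_one_div_lt (lt_min hδ (by positivity : 0 < 1 / (A : ℝ) ^ 3))
  obtain ⟨n0, hn0⟩ := eventually_atTop.1 (hO' k)
  refine ⟨n0 + nd 0 y0, fun n hn z hz => ?_⟩
  have hlt : n + 3 < A ^ (n + 3) := Nat.lt_pow_self (by omega)
  have g0 := (hn0 (n + 3) (by omega) 0 (mem_box_self _ _) O (agree_refl _ _)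
    ⟨y0, hy0, mem_box_nd.2 (by omega)⟩).1
  have hD := g0.dens z (box_mono _ (by omega) hz) (A ^ n) (by
    have := mul_le_mul_of_nonneg_right (hk.le.trans (min_le_right _ _))
      (Nat.cast_nonneg (α := ℝ) (A ^ (n + 3)))
    refine this.trans (le_of_eq ?_)
    push_cast
    field_simp
    ring) (Nat.pow_le_pow_right (by omega) (by omega))
  have hne : (cap (Cl O) (box z (A ^ n))).Nonempty := by
    rw [← card_pos]
    have : (0 : ℝ) < (cap (Cl O) (box z (A ^ n))).card :=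
      (mul_pos hθ (vol_pos _ _)).trans_le hD
    exact_mod_cast this
  obtain ⟨y, hy⟩ := hne
  obtain ⟨hy1, hy2⟩ := mem_cap.1 hy
  exact (hn0 n (by omega) z hz O (agree_refl _ _)
    ⟨y, hy2, box_mono _ (by omega) hy1⟩).1.mono (hk.le.trans (min_le_left _ _))

end Pool.Agent.P.MP_b4265e_pr.R
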