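import Pool.Agent.P.MP_b4265e_pr.R.ThmA
import Pool.Agent.P.MP_b4265e_pr.R.ThmB
import Pool.Agent.P.MP_b4265e_pr.R.POne
import Pool.Agent.P.MP_b4265e_pr.R.Hom
import Pool.Agent.P.MP_b4265e_pr.R.PIprob

/-!
The theorem on the coded lattice, from the percolation input.
-/

namespace Pool.Agent.P.MP_b4265e_pr.R

open Finset MeasureTheory ProbabilityTheory Filter
open scoped Classical

theorem main_of_PIprob {d : ℕ} (hd : 3 ≤ d) {p : unitInterval} (hp : 0 < (p : ℝ)) {c : ℝ}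
    (hc : 0 < c) (h : PIprob d p c) :
    ∀ᵐ O ∂μP d p, (Cl O).Nonempty ∧ (∀ y ∈ Cl O, ∀ z ∈ Cl O, z ∈ comp O y) ∧
      ∀ (R0 : ℕ) (u : V d → ℝ), HarmOff (GC O) R0 u → Dec (Cl O) u →
        {y ∈ Cl O | u y ≠ 0}.Infinite →
        ∃ ε : ℝ, 0 < ε ∧ ∀ᶠ N : ℕ in atTop, ε * vol d N ≤ (act (GC O) u N).card := by
  obtain ⟨θ, K, hθ, hK, hH⟩ := hom_of_PIprob (by omega) hc h
  have hA : ∀ᵐ O ∂μP d p, ∀ (R0 : ℕ) (u : V d → ℝ), HarmOff (GC O) R0 u → SD (Cl O) u →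
      {y ∈ Cl O | u y ≠ 0}.Finite := by
    rcases lt_or_eq_of_le p.2.2 with h1 | h1
    · exact thmA (by omega) hp h1 hθ hK hH
    · have h2 : p = 1 := Subtype.ext h1
      have h3 : ∀ᵐ O ∂μP d p, O = Set.univ := by
        have h4 : ∀ e : E d, ∀ᵐ O ∂μP d p, e ∈ O := by
          intro e
          rw [h2, μP, setBernoulli_one]
          exact (ae_dirac_iff (measurableSet_mem e)).2 (Set.mem_univ e)
        filter_upwards [ae_all_iff.2 h4] with O hO using Set.eq_univ_of_forall hO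
      filter_upwards [h3] with O hO R0 u k1 k2
      subst hO
      rw [GC_univ (by omega)] at k1
      rw [Cl_univ (by omega)] at k2 ⊢
      exact (finite_of_SD_univ (by omega) k1 k2).subset fun y hy => hy.2
  filter_upwards [ae_exists_unique (by omega) hc h, ae_allGood hθ hH, hA] with O h1 h2 h3
  refine ⟨h1.1, h1.2, fun R0 u k1 k2 k3 => ?_⟩
  exact thmB hd hθ hK (wf_GC O) (h2 h1.1) k1 k2 fun k4 => k3 (h3 R0 u k1 k4)

end Pool.Agent.P.MP_b4265e_pr.R
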