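import Pool.Agent.P.MP_b4265e_pr.R.Star

/-!
A slowly growing harmonic function.
-/

namespace Pool.Agent.P.MP_b4265e_pr.R

open Finset
open scoped Classical

/-- The uniform charge on a finite set. -/
noncomputable def slowU {d : ℕ} (S : Finset (V d)) : V d →₀ ℝ :=
  ∑ y ∈ S, Finsupp.single y (1 / (S.card : ℝ))

lemma slow_pair {d : ℕ} (S : Finset (V d)) (v : V d → ℝ) :
    pair (slowU S) v = (∑ y ∈ S, v y) / S.card := by
  unfold slowU
  rw [pair_sum_left, sum_div]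
  refine sum_congr rfl fun y _ => ?_
  rw [pair_single]
  ring

lemma slow_supp {d : ℕ} {C : Set (V d)} {x z : V d} {L ρ : ℕ} (hz : box z ρ ⊆ box x L) :
    Supp C x L (slowU (cap C (box z ρ))) := by
  refine supp_sum _ fun y hy w hw => ?_
  obtain rfl := mem_singleton.1 (Finsupp.support_single_subset hw)
  exact ⟨(mem_cap.1 hy).2, hz (mem_cap.1 hy).1⟩

lemma slow_nonempty {d : ℕ} {θ : ℝ} (hθ : 0 < θ) {C : Set (V d)} {z : V d} {ρ : ℕ}
    (hD : Dens θ C z ρ) : (cap C (box z ρ)).Nonempty := by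
  have h1 := vol_pos d ρ
  have h2 : (0 : ℝ) < (cap C (box z ρ)).card := lt_of_lt_of_le (by positivity) hD
  exact card_pos.1 (by exact_mod_cast h2)

lemma slow_abs_le {d : ℕ} {θ : ℝ} (hθ : 0 < θ) {C : Set (V d)} {x z : V d} {L ρ : ℕ}
    (hz : box z ρ ⊆ box x L) (hL : L ≤ 8 * ρ) (hD : Dens θ C z ρ) (v : V d → ℝ) :
    |pair (slowU (cap C (box z ρ))) v| ≤ √(8 ^ d / θ) * nrm C x L v := by
  have hne := slow_nonempty hθ hD
  have h0 : (0 : ℝ) < (cap C (box z ρ)).card := by exact_mod_cast card_pos.2 hne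
  have h1 := abs_mean_sub_le hne v 0
  simp only [sub_zero] at h1
  rw [slow_pair]
  refine h1.trans ?_
  have h2 : l2 (cap C (box z ρ)) v ≤ √(vol d L) * nrm C x L v := by
    rw [← l2_eq_nrm]
    exact l2_mono (cap_mono C hz) v
  have h3 : √(vol d L) ≤ √(8 ^ d / θ) * √((cap C (box z ρ)).card) := by
    rw [← Real.sqrt_mul (by positivity)]
    refine Real.sqrt_le_sqrt ?_
    have a1 := vol_le_of_le_mul d (r := ρ) (R := L) (c := 8) (by norm_num) (by exact_mod_cast hL)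
    have a2 : 8 ^ d / θ * (θ * vol d ρ) ≤ 8 ^ d / θ * (cap C (box z ρ)).card :=
      mul_le_mul_of_nonneg_left hD (by positivity)
    have a3 : 8 ^ d / θ * (θ * vol d ρ) = 8 ^ d * vol d ρ := by field_simp
    linarith
  rw [div_le_iff₀ (Real.sqrt_pos.2 h0)]
  have h4 := mul_le_mul_of_nonneg_right h3 (nrm_nonneg C x L v)
  have h5 : l2 (cap C (box z ρ)) (fun a => v a) = l2 (cap C (box z ρ)) v := rfl
  linarith

lemma slow_le_mean {d : ℕ} {S : Finset (V d)} (hS : S.Nonempty) {v : V d → ℝ} {c : ℝ}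
    (h : ∀ y ∈ S, c ≤ v y) : c ≤ pair (slowU S) v := by
  have h0 : (0 : ℝ) < S.card := by exact_mod_cast card_pos.2 hS
  rw [slow_pair, le_div_iff₀ h0, mul_comm, ← nsmul_eq_mul]
  exact card_nsmul_le_sum S v c h

lemma slow_mean_le {d : ℕ} {S : Finset (V d)} (hS : S.Nonempty) {v : V d → ℝ} {c : ℝ}
    (h : ∀ y ∈ S, v y ≤ c) : pair (slowU S) v ≤ c := by
  have h0 : (0 : ℝ) < S.card := by exact_mod_cast card_pos.2 hS
  rw [slow_pair, div_le_iff₀ h0, mul_comm, ← nsmul_eq_mul]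
  exact sum_le_card_nsmul S v c h

/-- A harmonic function that oscillates at the first scale and grows almost linearly. -/
theorem slow_harm {d : ℕ} (hd : 1 ≤ d) {θ K : ℝ} (hθ : 0 < θ) (hK : 0 < K) : ∃ Cs : ℝ, 1 ≤ Cs ∧
    ∃ A0 : ℕ, ∀ A ≥ A0, ∃ (δ0 : ℝ) (L0 : ℕ), 0 < δ0 ∧
    ∀ {δ : ℝ} {G : Set (E d)} {C : Set (V d)} {x : V d} {L N : ℕ}, δ ≤ δ0 → L0 ≤ L → 1 ≤ N →
    (∀ j ≤ N, HGood θ K δ G C x (sc L A j)) →
    ∃ a : V d → ℝ, Harm G x (sc L A N) a ∧ nrm C x (sc L A N) a ≤ 1 ∧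
      ∃ y ∈ box x L, ∃ y' ∈ box x L, y ∈ C ∧ y' ∈ C ∧ 1 / (Cs * A) ^ N ≤ a y - a y' := by
  obtain ⟨C1, hC1, hstar⟩ := star d hK 1
  obtain ⟨B, hB⟩ : ∃ B : ℝ, B = √(8 ^ d / θ) := ⟨_, rfl⟩
  have hB0 : 0 < B := by rw [hB]; exact Real.sqrt_pos.2 (by positivity)
  refine ⟨2 * C1 + 32, by linarith, ?_⟩
  obtain ⟨A1, hA1'⟩ := exists_nat_ge (2 * C1 * (2 * C1 + 32 * B))
  refine ⟨max 16 A1, fun A hA' => ?_⟩
  have hA : 16 ≤ A := (le_max_left _ _).trans hA'
  have hA2 : (A1 : ℝ) ≤ A := by exact_mod_cast (le_max_right _ _).trans hA'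
  have hA0 : (0 : ℝ) < A := by exact_mod_cast (by omega : 0 < A)
  have hA1 : (1 : ℝ) ≤ A := by exact_mod_cast (by omega : 1 ≤ A)
  obtain ⟨δ1, s1, hδ1, hst⟩ := hstar A hA
  obtain ⟨δ0, hδ0, b1, b2, b3⟩ : ∃ δ0 : ℝ, 0 < δ0 ∧ δ0 ≤ δ1 ∧ δ0 ≤ 1 / 8 ∧
      4 * B * (A : ℝ) ^ d * δ0 ≤ 1 / (8 * A) := by
    refine ⟨min δ1 (min (1 / 8) (1 / (8 * A) / (4 * B * (A : ℝ) ^ d))), by positivity,
      min_le_left _ _, (min_le_right _ _).trans (min_le_left _ _), ?_⟩
    rw [← le_div_iff₀' (by positivity)]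
    exact (min_le_right _ _).trans (min_le_right _ _)
  refine ⟨δ0, max 8 s1, hδ0, ?_⟩
  intro δ G C x L N hδ hL' hN hg
  replace hg : ∀ j ≤ N, HGood θ K δ0 G C x (sc L A j) := fun j hj => (hg j hj).mono hδ
  have hL : 8 ≤ L := (le_max_left _ _).trans hL'
  have hL1 : s1 ≤ L := (le_max_right _ _).trans hL'
  have hL0 : (0 : ℝ) < L := by exact_mod_cast (by omega : 0 < L)
  have s0 : sc L A 0 = L := by simp [sc]
  have ss : ∀ n, sc L A (n + 1) = sc L A n * A := fun n => by simp [sc, pow_succ, mul_assoc]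
  have sL : ∀ n, L ≤ sc L A n := fun n =>
    Nat.le_mul_of_pos_right L (Nat.pow_pos (by omega))
  obtain ⟨i, -⟩ : ∃ _ : Fin d, True := ⟨⟨0, hd⟩, trivial⟩
  -- the two boxes
  have hbox : ∀ e : ℤ, |e| ≤ (L / 2 : ℕ) → x + Pi.single i e ∈ box x (2 * L) ∧
      box (x + Pi.single i e) (L / 4) ⊆ box x L := by
    intro e he
    have a1 : x + Pi.single i e ∈ box x (L / 2) := by
      rw [mem_box]
      intro k
      by_cases hk : k = i
      · subst hk; simpa using he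
      · simp only [Pi.add_apply, Pi.single_eq_of_ne hk, add_zero, sub_self, abs_zero]
        positivity
    refine ⟨box_mono x (by omega) a1, box_subset ?_⟩
    have := mem_box_nd.1 a1
    omega
  have hdens : ∀ z ∈ box x (2 * L), Dens θ C z (L / 4) := by
    intro z hz
    have a1 := (hg 0 (Nat.zero_le _)).dens
    rw [s0] at a1
    refine a1 z hz (L / 4) ?_ (by omega)
    have a2 : (L : ℝ) ≤ 8 * (L / 4 : ℕ) := by exact_mod_cast (by omega : L ≤ 8 * (L / 4))
    have a3 := mul_le_mul_of_nonneg_right b2 hL0.le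
    linarith
  obtain ⟨m1, n1⟩ := hbox ((L / 2 : ℕ) : ℤ) (by rw [Nat.abs_cast])
  obtain ⟨m2, n2⟩ := hbox (-((L / 2 : ℕ) : ℤ)) (by rw [abs_neg, Nat.abs_cast])
  have d1 := hdens _ m1
  have d2 := hdens _ m2
  have c1 : ∀ y ∈ cap C (box (x + Pi.single i ((L / 2 : ℕ) : ℤ)) (L / 4)),
      (L : ℝ) / 8 ≤ ((y i - x i : ℤ) : ℝ) := by
    intro y hy
    have a1 := mem_box.1 (mem_cap.1 hy).1 i
    simp only [Pi.add_apply, Pi.single_eq_same] at a1
    have a2 : (L : ℤ) ≤ 8 * (y i - x i) := by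
      have := abs_le.1 a1
      omega
    rw [div_le_iff₀' (by norm_num)]
    exact_mod_cast a2
  have c2 : ∀ y ∈ cap C (box (x + Pi.single i (-((L / 2 : ℕ) : ℤ))) (L / 4)),
      ((y i - x i : ℤ) : ℝ) ≤ -((L : ℝ) / 8) := by
    intro y hy
    have a1 := mem_box.1 (mem_cap.1 hy).1 i
    simp only [Pi.add_apply, Pi.single_eq_same] at a1
    have a2 : 8 * (y i - x i) ≤ -(L : ℤ) := by
      have := abs_le.1 a1
      omega
    have a3 : 8 * ((y i - x i : ℤ) : ℝ) ≤ -(L : ℝ) := by exact_mod_cast a2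
    linarith
  have w1 := slow_abs_le hθ n1 (by omega) d1
  have w2 := slow_abs_le hθ n2 (by omega) d2
  have p1 := slow_supp (C := C) n1
  have p2 := slow_supp (C := C) n2
  have ne1 := slow_nonempty hθ d1
  have ne2 := slow_nonempty hθ d2
  have i1 : ∀ y ∈ cap C (box (x + Pi.single i ((L / 2 : ℕ) : ℤ)) (L / 4)), y ∈ box x L ∧ y ∈ C :=
    fun y hy => ⟨n1 (mem_cap.1 hy).1, (mem_cap.1 hy).2⟩
  have i2 : ∀ y ∈ cap C (box (x + Pi.single i (-((L / 2 : ℕ) : ℤ))) (L / 4)),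
      y ∈ box x L ∧ y ∈ C := fun y hy => ⟨n2 (mem_cap.1 hy).1, (mem_cap.1 hy).2⟩
  rw [← hB] at w1 w2
  generalize cap C (box (x + Pi.single i ((L / 2 : ℕ) : ℤ)) (L / 4)) = S1 at c1 w1 p1 ne1 i1
  generalize cap C (box (x + Pi.single i (-((L / 2 : ℕ) : ℤ))) (L / 4)) = S2 at c2 w2 p2 ne2 i2
  have hφ : Supp C x L (slowU S1 - slowU S2) := p1.sub p2
  have hφn : ∀ n, Supp C x (sc L A n) (slowU S1 - slowU S2) := fun n =>
    hφ.mono (box_mono x (sL n))
  have hw : ∀ v, |pair (slowU S1 - slowU S2) v| ≤ 2 * B * nrm C x L v := by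
    intro v
    rw [pair_sub_left]
    refine (abs_sub _ _).trans ?_
    linarith [w1 v, w2 v]
  have up0 : lam G C x (sc L A 0) (slowU S1 - slowU S2) ≤ 2 * B := by
    rw [s0]
    refine lam_le (by positivity) fun h _ hn => (le_abs_self _).trans ((hw h).trans ?_)
    exact mul_le_of_le_one_right (by positivity) hn
  have lo1 : 1 / (16 * A : ℝ) ≤ lam G C x (sc L A 1) (slowU S1 - slowU S2) := by
    have a0 := hφn 1
    have a1 := (hg 1 hN).lift
    have e : sc L A 1 = L * A := by simp [sc]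
    rw [e] at a0 a1 ⊢
    have e1 : L * 16 ≤ L * A := Nat.mul_le_mul_left L hA
    have hS0 : (0 : ℝ) < (L * A : ℕ) := by exact_mod_cast (by omega : 0 < L * A)
    obtain ⟨h, h1, h2⟩ := a1 _ 2 0 le_rfl (smooth_coord x i (by omega))
      (fun y _ => by rw [lapG_coord]; simp)
    have a2 : (L : ℝ) / 8 / (L * A : ℕ) ≤
        pair (slowU S1) (fun y => ((y i - x i : ℤ) : ℝ) / (L * A : ℕ)) :=
      slow_le_mean ne1 fun y hy => div_le_div_of_nonneg_right (c1 y hy) hS0.le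
    have a3 : pair (slowU S2) (fun y => ((y i - x i : ℤ) : ℝ) / (L * A : ℕ)) ≤
        -((L : ℝ) / 8) / (L * A : ℕ) :=
      slow_mean_le ne2 fun y hy => div_le_div_of_nonneg_right (c2 y hy) hS0.le
    have a4 : (L : ℝ) / 8 / (L * A : ℕ) = 1 / (8 * A) := by push_cast; field_simp
    rw [neg_div, a4] at a3
    rw [a4] at a2
    have a5 := hw (fun y => h y - ((y i - x i : ℤ) : ℝ) / (L * A : ℕ))
    have a6 := nrm_le_of_subset' C (box_mono x (by omega : L ≤ L * A)) hA1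
      (le_of_eq (by push_cast; ring)) (fun y => h y - ((y i - x i : ℤ) : ℝ) / (L * A : ℕ))
    have a7 := mul_le_mul_of_nonneg_left h2 (show (0 : ℝ) ≤ (A : ℝ) ^ d by positivity)
    have a8 := mul_le_mul_of_nonneg_left (a6.trans a7) (show (0 : ℝ) ≤ 2 * B by positivity)
    rw [pair_sub_right, pair_sub_left _ _ (fun y => ((y i - x i : ℤ) : ℝ) / (L * A : ℕ))] at a5
    have a9 := (abs_le.1 a5).1
    have a10 : 1 / (8 * A : ℝ) ≤ pair (slowU S1 - slowU S2) h := by linarith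
    have a11 : nrm C x (L * A) h ≤ 2 := by
      have q1 := nrm_add_le C x (L * A) (fun y => h y - ((y i - x i : ℤ) : ℝ) / (L * A : ℕ))
        (fun y => ((y i - x i : ℤ) : ℝ) / (L * A : ℕ))
      simp only [sub_add_cancel] at q1
      have q2 : nrm C x (L * A) (fun y => ((y i - x i : ℤ) : ℝ) / (L * A : ℕ)) ≤ 1 := by
        refine nrm_le_sup zero_le_one fun y hy _ => ?_
        rw [abs_div, abs_of_pos hS0, div_le_one hS0]
        exact_mod_cast mem_box.1 hy i
      have q3 : nrm C x (L * A) (fun y => h y) = nrm C x (L * A) h := rfl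
      linarith
    have a12 := abs_pair_le a0 h1
    have a13 := mul_le_mul_of_nonneg_left a11 (lam_nonneg (G := G) a0)
    have a14 := le_abs_self (pair (slowU S1 - slowU S2) h)
    have a15 : 1 / (8 * A : ℝ) = 2 * (1 / (16 * A)) := by field_simp; norm_num
    linarith
  have hper := persist (a := fun n => lam G C x (sc L A n) (slowU S1 - slowU S2)) (n0 := 0)
    (n1 := N) (Γ := C1 * (A : ℝ) ^ 1) (ε := C1 / (A : ℝ) ^ (1 + 1))
    (Λ := (2 * C1 + 32 * B) * A) (fun n _ => lam_nonneg (hφn n)) (by positivity)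
    (by
      have a1 : C1 / (A : ℝ) ^ (1 + 1) * ((2 * C1 + 32 * B) * A) =
          C1 * (2 * C1 + 32 * B) / A := by field_simp
      rw [a1, div_le_iff₀ hA0]
      linarith)
    (by
      have : 0 ≤ B * A := by positivity
      rw [pow_one]
      linarith)
    (fun n _ hn => by
      have a1 := hg (n + 1) (by omega)
      have a2 := hg (n + 1 + 1) (by omega)
      rw [ss, ss] at a2
      rw [ss] at a1
      have a3 := hst b1 (hL1.trans (sL n)) a1 a2 _ (hφn n)
      rwa [← ss, ← ss] at a3)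
    (by
      have a1 := mul_le_mul_of_nonneg_left lo1 (show (0 : ℝ) ≤ 32 * B * A by positivity)
      have a2 : 32 * B * A * (1 / (16 * A : ℝ)) = 2 * B := by field_simp; norm_num
      have a3 : 0 ≤ 2 * C1 * A * lam G C x (sc L A 1) (slowU S1 - slowU S2) :=
        mul_nonneg (by positivity) (lam_nonneg (hφn 1))
      simp only [zero_add]
      linarith)
  have hlow : ∀ n, n + 1 ≤ N →
      1 / ((2 * C1 + 32) * A) ^ (n + 1) < lam G C x (sc L A (n + 1)) (slowU S1 - slowU S2) := by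
    intro n
    induction n with
    | zero =>
      intro _
      refine lt_of_lt_of_le ?_ lo1
      rw [zero_add, pow_one]
      refine one_div_lt_one_div_of_lt (by positivity) ?_
      exact mul_lt_mul_of_pos_right (by linarith) hA0
    | succ n ih =>
      intro hn
      have a1 := ih (by omega)
      have a2 := (hper n (Nat.zero_le _) (by omega)).2
      have a3 : 0 ≤ A * lam G C x (sc L A (n + 2)) (slowU S1 - slowU S2) :=
        mul_nonneg hA0.le (lam_nonneg (hφn _))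
      have a4 : (0 : ℝ) < (2 * C1 + 32) * A := by positivity
      rw [pow_succ _ (n + 1), ← div_div, div_lt_iff₀ a4]
      simp only [pow_one] at a2
      have a5 : lam G C x (sc L A (n + 1 + 1)) (slowU S1 - slowU S2) =
          lam G C x (sc L A (n + 2)) (slowU S1 - slowU S2) := rfl
      rw [a5]
      linarith
  obtain ⟨n, rfl⟩ : ∃ n, N = n + 1 := ⟨N - 1, by omega⟩
  obtain ⟨a, h1, h2, h3⟩ := exists_of_lt_lam (hlow n le_rfl)
  obtain ⟨y, hy, hy'⟩ := exists_max_image S1 a ne1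
  obtain ⟨y', hz, hz'⟩ := exists_min_image S2 a ne2
  refine ⟨a, h1, h2, y, (i1 y hy).1, y', (i2 y' hz).1, (i1 y hy).2, (i2 y' hz).2, ?_⟩
  rw [pair_sub_left] at h3
  have a1 := slow_mean_le ne1 hy'
  have a2 := slow_le_mean ne2 hz'
  linarith

end Pool.Agent.P.MP_b4265e_pr.R
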