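import Pool.Agent.P.MP_b4265e_pr.R.ModWire
import Pool.Agent.P.MP_b4265e_pr.R.Slow

/-!
A good box where the function is not constant can be rewired into a screened box.
-/

namespace Pool.Agent.P.MP_b4265e_pr.R

open Finset
open scoped Classical

attribute [local irreducible] l2 en nrm lam vol pair l1 lapG chg

lemma mod_three {α : Type*} {P : Finset α} {a w : α → ℝ} {p q : α} (hp : p ∈ P) (hq : q ∈ P)
    {γ k : ℝ} (hγ : 0 < γ) (hk : 0 ≤ k) (hpq : 2 * γ ≤ |a p - a q|)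
    (h : ∀ y ∈ P, ∀ z ∈ P, γ ≤ |a y - a z| → |w y - w z| ≤ k) :
    ∀ y ∈ P, ∀ z ∈ P, |w y - w z| ≤ 3 * k := by
  have h0 : |w p - w q| ≤ k := h p hp q hq (by linarith)
  have h1 : ∀ y ∈ P, |w y - w p| ≤ k ∨ |w y - w q| ≤ k := by
    intro y hy
    by_cases h1 : γ ≤ |a y - a p|
    · exact Or.inl (h y hy p hp h1)
    · refine Or.inr (h y hy q hq ?_)
      have := abs_sub_le (a p) (a y) (a q)
      rw [abs_sub_comm (a p) (a y)] at this
      linarith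
  intro y hy z hz
  rw [abs_le] at h0 ⊢
  rcases h1 y hy with h2 | h2 <;> rcases h1 z hz with h3 | h3 <;> rw [abs_le] at h2 h3 <;>
    constructor <;> linarith [h0.1, h0.2, h2.1, h2.2, h3.1, h3.2]

lemma mod_osc {d : ℕ} {K : ℝ} {G : Set (E d)} {C : Set (V d)} {x : V d} {ρ : ℕ}
    (h : Poin2 K G C x ρ) (w : V d → ℝ) {a b : V d} (ha : a ∈ C ∧ a ∈ box x ρ)
    (hb : b ∈ C ∧ b ∈ box x ρ) : |w a - w b| ≤ 2 * K * ρ * en G x (2 * ρ) w := by
  obtain ⟨c, hc⟩ := h w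
  have h1 := (abs_le_l2 (mem_cap.2 ⟨ha.2, ha.1⟩) fun y => w y - c).trans hc
  have h2 := (abs_le_l2 (mem_cap.2 ⟨hb.2, hb.1⟩) fun y => w y - c).trans hc
  rw [abs_le] at h1 h2 ⊢
  constructor <;> linarith [h1.1, h1.2, h2.1, h2.2]

lemma mod_SD {d : ℕ} {C Cw : Set (V d)} {u uw : V d → ℝ} {x : V d} {L : ℕ} (hu : SD C u)
    (hC : ∀ y ∈ Cw, y ∉ box x L → y ∈ C) (h : ∀ y, y ∉ box x L → uw y = u y) : SD Cw uw := by
  intro M
  obtain ⟨R, hR⟩ := hu M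
  refine ⟨max R (nd 0 x + L), fun y hy hy' => ?_⟩
  have h1 : y ∉ box x L := fun hc => hy' (box_subset (le_max_right _ _) hc)
  rw [h y h1]
  exact hR y (hC y hy h1) fun hc => hy' (box_mono _ (le_max_left _ _) hc)

theorem exists_rew_scr {d : ℕ} (hd : 2 ≤ d) {θ K : ℝ} (hθ : 0 < θ) (hK : 0 < K) :
    ∃ C0 : ℝ, ∀ C1 ≥ C0, ∃ A0 : ℕ, ∀ A ≥ A0, ∃ δ0 : ℝ, 0 < δ0 ∧
    ∀ δ : ℝ, 0 < δ → δ ≤ δ0 → ∃ L0 : ℕ, ∀ L ≥ L0, ∀ κ : ℕ, 1 ≤ κ → ∃ N : ℕ,
    ∀ (Λs : ℝ) (R0 : ℕ) (O : Set (E d)) (u : V d → ℝ) (x : V d), 0 < Λs →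
      HarmOff (GC O) R0 u → SD (Cl O) u →
      (∃ y ∈ box x L, ∃ y' ∈ box x L, y ∈ Cl O ∧ y' ∈ Cl O ∧ u y ≠ u y') →
      R0 + sc L A N + 1 < nd 0 x → (∀ j, W θ K δ x (sc L A j) O) →
      (∀ η ⊆ EB x L, ∀ j ≥ κ, W θ K δ x (sc L A j) (rew (EB x L) η O)) →
      ∃ η ⊆ EB x L, Scr θ K δ (C1 * A) Λs L A κ N R0 x (rew (EB x L) η O) := by
  obtain ⟨Cs, hCs, A1, hA1⟩ := slow_harm (d := d) (by omega) hθ hK
  refine ⟨2 * Cs, fun C1 hC1 => ⟨max A1 8, fun A hA => ?_⟩⟩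
  have hA8 : 8 ≤ A := le_trans (le_max_right _ _) hA
  obtain ⟨δ1, L1, hδ1, hslow⟩ := hA1 A (le_trans (le_max_left _ _) hA)
  refine ⟨min δ1 (1 / 8), by positivity, fun δ hδ hδ' => ⟨max L1 1, fun L hL κ hκ => ?_⟩⟩
  have hL1 : 1 ≤ L := le_trans (le_max_right _ _) hL
  have hAr : (8 : ℝ) ≤ A := by exact_mod_cast hA8
  obtain ⟨ρ, hρ⟩ : ∃ ρ, ρ = sc L A κ := ⟨_, rfl⟩
  obtain ⟨t, ht⟩ : ∃ t, t = √(d * vol d (L + 1)) := ⟨_, rfl⟩
  obtain ⟨Q, hQ⟩ : ∃ Q : ℝ, Q = 2 * K * ρ := ⟨_, rfl⟩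
  obtain ⟨D, hD⟩ : ∃ D : ℝ, D = (1 + √(8 ^ d / θ)) * K * A := ⟨_, rfl⟩
  have ht0 : 0 ≤ t := by rw [ht]; positivity
  have hQ0 : 0 ≤ Q := by rw [hQ]; positivity
  have hD0 : 0 ≤ D := by rw [hD]; positivity
  obtain ⟨Cw, hCw⟩ : ∃ Cw : ℝ, Cw = (t ^ 2 + Q ^ 2) *
    (t ^ 2 * (1 + (2 + Q * t) * ((1 + √(vol d L)) * (1 + D * t)))) := ⟨_, rfl⟩
  have hCw0 : 0 ≤ Cw := by rw [hCw]; positivity
  have hCA : 1 ≤ Cs * A := one_le_mul_of_one_le_of_one_le hCs (by linarith)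
  obtain ⟨c, hc⟩ : ∃ c : ℝ, c = 1 / (Cs * A) ^ κ / ((1 + Q * t) * (1 + D * t)) / 2 := ⟨_, rfl⟩
  have hc0 : 0 < c := by rw [hc]; positivity
  obtain ⟨n, hn⟩ := exists_pow_lt_of_lt_one
    (show 0 < c / (3 * Cw * √(vol d ρ) + 1) by positivity) (show (1 / 2 : ℝ) < 1 by norm_num)
  refine ⟨κ + n, fun Λs R0 O u x hΛs hH hSD hy hfar hW hW' => ?_⟩
  obtain ⟨τ, hτ⟩ : ∃ τ : ℝ, τ = (1 / (C1 * A)) ^ n * √(vol d ρ) := ⟨_, rfl⟩
  obtain ⟨γ, hγ⟩ : ∃ γ : ℝ, γ = c * (1 / (Cs * A)) ^ n := ⟨_, rfl⟩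
  have hC1' : 0 < C1 := by linarith
  have hτ0 : 0 ≤ τ := by rw [hτ]; positivity
  have hγ0 : 0 < γ := by rw [hγ]; positivity
  have hγ2 : 1 / (Cs * A) ^ (κ + n) / ((1 + Q * t) * (1 + D * t)) = 2 * γ := by
    rw [hγ, hc, pow_add, one_div_pow]; field_simp
  have hγ3 : 1 / (Cs * A) ^ (κ + n) ≤ 1 :=
    (div_le_one (by positivity)).2 (one_le_pow₀ hCA)
  have hγ1 : γ ≤ 1 := by
    have h1 : 1 ≤ (1 + Q * t) * (1 + D * t) :=
      one_le_mul_of_one_le_of_one_le (le_add_of_nonneg_right (mul_nonneg hQ0 ht0))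
        (le_add_of_nonneg_right (mul_nonneg hD0 ht0))
    have h2 := div_le_self (show 0 ≤ 1 / (Cs * A) ^ (κ + n) by positivity) h1
    linarith
  have hτγ : 3 * (Cw * τ) < γ := by
    have h1 : (1 / (C1 * A)) ^ n ≤ (1 / 2) ^ n * (1 / (Cs * A)) ^ n := by
      rw [← mul_pow]
      refine pow_le_pow_left₀ (by positivity) ?_ n
      rw [div_mul_div_comm, one_mul]
      refine one_div_le_one_div_of_le (by positivity) ?_
      rw [← mul_assoc]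
      exact mul_le_mul_of_nonneg_right hC1 (by positivity)
    rw [lt_div_iff₀ (by positivity)] at hn
    have h2 : (0 : ℝ) < (1 / (Cs * A)) ^ n := by positivity
    have h3 : (0 : ℝ) < (1 / 2) ^ n := by positivity
    have h4 : 0 ≤ √(vol d ρ) := Real.sqrt_nonneg _
    calc 3 * (Cw * τ) ≤ 3 * (Cw * ((1 / 2) ^ n * (1 / (Cs * A)) ^ n * √(vol d ρ))) := by
          rw [hτ]; gcongr
      _ = (1 / 2) ^ n * (3 * Cw * √(vol d ρ)) * (1 / (Cs * A)) ^ n := by ring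
      _ < _ := by
          rw [hγ]
          refine mul_lt_mul_of_pos_right ?_ h2
          exact lt_of_le_of_lt
            (mul_le_mul_of_nonneg_left (le_add_of_nonneg_right zero_le_one) h3.le) hn
  by_contra hcon
  push Not at hcon
  obtain ⟨y, hy, y', hy', hyC, hyC', hne⟩ := hy
  obtain ⟨R, hR⟩ : ∃ R, R = sc L A (κ + n) := ⟨_, rfl⟩
  have hρR : ρ ≤ R := by rw [hρ, hR]; exact mod_sc_mono (by omega) (by omega)
  have hLρ : 2 * L + 2 ≤ ρ := by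
    have h1 : sc L A 1 ≤ ρ := by rw [hρ]; exact mod_sc_mono (by omega) hκ
    have h2 : sc L A 1 = L * A := by simp [sc]
    have h3 := Nat.mul_le_mul_left L hA8
    omega
  have hsc : ∀ j, L ≤ sc L A j := fun j => by
    have := mod_sc_mono (L := L) (A := A) (by omega) (Nat.zero_le j)
    simpa [sc] using this
  have hPne := ports_nonempty ⟨y, hy, hyC⟩
  set O0 := rew (EB x L) ∅ O with hO0
  set P := ports (Cl O0) x L with hP
  have good0 : ∀ j ≥ κ, Good θ K δ O0 x (sc L A j) := by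
    intro j hj
    obtain ⟨p, hp⟩ := hPne
    refine hW' ∅ (empty_subset _) j hj O0 (fun _ _ => Iff.rfl)
      ⟨p, (mem_ports_rw.1 hp).1, box_mono x ?_ (mem_box_of_ports_rw hp)⟩
    have := hsc j
    omega
  have good : ∀ j, Good θ K δ O x (sc L A j) := by
    intro j
    refine hW j O (fun _ _ => Iff.rfl) ⟨y, hyC, box_mono x ?_ hy⟩
    have := hsc j
    omega
  have h : Cut (GC O) (GC O0) (Cl O) (Cl O0) x ρ P (EB x L) :=
    cut_closed hLρ (by rw [hρ]; exact (good0 κ le_rfl).2)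
  have htT : √((EB x L).card) ≤ t := by rw [ht]; exact Real.sqrt_le_sqrt (card_EB_le x L)
  have hQP : ∀ w : V d → ℝ, ∀ a ∈ P, ∀ b ∈ P, |w a - w b| ≤ Q * en (GC O0) x (2 * ρ) w := by
    intro w a ha b hb
    rw [hQ]
    exact mod_osc (by rw [hρ]; exact (good0 κ le_rfl).1.poin2) w (h.port a ha) (h.port b hb)
  have hDP : ∀ v : V d → ℝ, (∀ y ∈ Cl O0, y ∉ box x R → v y = 0) →
      nrm (Cl O0) x R v ≤ D * en (GC O0) x (R + 1) v := by
    intro v hv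
    rw [hD]
    refine mod_poin hd hθ hK (hδ'.trans (min_le_right _ _)) h.wf0.sub (by omega) hA8 ?_ hv
    rw [hR, ← mod_sc_succ]
    exact (good0 _ (by omega)).1
  have hL0 : ∀ z ∈ box x L, z ∉ Cl O0 := fun z hz => not_mem_Cl_rew hz
  obtain ⟨a, ha, ha1, z, hz, z', hz', hzC, hzC', hzz⟩ := hslow (N := κ + n)
    (hδ'.trans (min_le_left _ _)) (le_trans (le_max_left _ _) hL) (by omega)
    fun j _ => (good j).1
  rw [← hR] at ha ha1
  obtain ⟨a0, ha0, ha01, p0, hp0, q0, hq0, hpq0⟩ := mod_exists_a0 h hPne hρR hQ0 htT hD0 hγ3 hQP hDP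
    ha ha1 hzC (hL0 z hz) hzC' (hL0 z' hz') hzz
  rw [hγ2] at hpq0
  -- the charge near the origin
  set f : V d →₀ ℝ := Finsupp.onFinset (box 0 R0) (lapG (GC O) u)
    (fun w hw => by by_contra hn; exact hw (hH w hn)) with hf
  have hu : ∀ w, lapG (GC O) u w = f w := fun _ => rfl
  have hf0 : ∀ w, w ∉ Cl O0 → f w = 0 := by
    intro w hw
    rw [← hu]
    by_cases hc : w ∈ Cl O
    · refine hH w fun hb => ?_
      have h1 := mem_box_nd.1 hb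
      have h2 := mem_box_nd.1 (h.near w hc hw)
      have h3 := nd_triangle 0 w x
      rw [nd_comm w x] at h3
      omega
    · exact lapG_of_not_mem h.wf.sub _ hc
  have hfs : Supp (Cl O0) 0 R0 f := fun w hw =>
    ⟨by_contra fun hc => Finsupp.mem_support_iff.1 hw (hf0 w hc),
      Finsupp.support_onFinset_subset hw⟩
  have hv : ∀ w ∈ Cl O, w ∉ Cl O0 → lapG (GC O) u w = 0 := fun w _ hw => by rw [hu, hf0 w hw]
  obtain ⟨v0, h1, h2⟩ := exists_dirichlet h.wf0 (box x R) (chg (GC O) (GC O0) P u) (fun _ => 0)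
  obtain ⟨pq, hpq, hmax⟩ := (P ×ˢ P).exists_max_image
    (fun pq => |(u pq.1 - v0 pq.1) - (u pq.2 - v0 pq.2)|) (hPne.product hPne)
  obtain ⟨o, ho⟩ : ∃ o, o = |(u pq.1 - v0 pq.1) - (u pq.2 - v0 pq.2)| := ⟨_, rfl⟩
  have ho0 : 0 ≤ o := by rw [ho]; exact abs_nonneg _
  have h3 : ∀ a ∈ P, ∀ b ∈ P, |(u a - v0 a) - (u b - v0 b)| ≤ o := fun a ha b hb => by
    rw [ho]; exact hmax (a, b) (mem_product.2 ⟨ha, hb⟩)
  have hΛ1 : 0 < C1 * A := by positivity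
  have fast0 : lam (GC O0) (Cl O0) x R (chg (GC O) (GC O0) P u) ≤
      τ * l1 (chg (GC O) (GC O0) P u) := by
    rw [hR, hτ, hρ]
    refine fast_of_not_scr hL1 (by omega) hκ hΛ1 hΛs (hW' ∅ (empty_subset _))
      (hcon ∅ (empty_subset _)) (u := u) (f := f) (fun w => ?_)
      (mod_SD (x := x) (L := L) hSD (fun w hw _ => h.subC hw) fun _ _ => rfl)
      (fun w hw => ⟨(h.supp_chg u hw).1, mem_box_of_ports_rw (chg_support _ _ _ _ hw)⟩)
      (h.total_chg hv) hfs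
    rw [Finsupp.add_apply]
    by_cases hc : w ∈ Cl O0
    · rw [h.lap_eq u hc, hu]
    · have k1 : chg (GC O) (GC O0) P u w = 0 := by
        by_contra hne; exact hc (h.supp_chg u (Finsupp.mem_support_iff.2 hne)).1
      rw [k1, hf0 w hc, add_zero]
      exact lapG_of_not_mem h.wf0.sub _ hc
  have key : ∀ p ∈ P, ∀ q ∈ P, γ ≤ |a0 p - a0 q| →
      |(u p - v0 p) - (u q - v0 q)| ≤ Cw * τ / γ * o := by
    intro p hp q hq hpq
    obtain ⟨η, hη, hCl, hw, hwire⟩ := exists_wire (ρ := ρ) (by omega) hp hq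
    have hb0 : 0 < |a0 p - a0 q| := hγ0.trans_le hpq
    have hb1 : 0 ≤ γ / |a0 p - a0 q| := by positivity
    have := mod_wire_bound h hw hp hq hρR (L := L) (by omega)
      (fun w h1 h2 => by rw [hCl] at h1; exact h1.resolve_left h2) hL0
      (fun w hw => mem_box_of_ports_rw hw) hQ0 htT hD0 hγ0 hγ1 hτ0 ho0
      (fun v => (hwire v).trans (mul_le_mul_of_nonneg_right htT (en_nonneg _ _ _ _))) hQP hDP
      (ha0.mul (γ / |a0 p - a0 q|)) (by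
        rw [nrm_mul, abs_of_nonneg hb1]
        exact mul_le_one₀ ((div_le_one hb0).2 hpq) (nrm_nonneg _ _ _ _) ha01)
      (by rw [← mul_sub, abs_mul, abs_of_nonneg hb1, div_mul_cancel₀ _ hb0.ne'])
      hu hf0 h1 h2 h3 fast0 (fun uw g k1 k2 k3 k4 => by
        rw [hR, hτ, hρ]
        refine fast_of_not_scr hL1 (by omega) hκ hΛ1 hΛs (hW' η hη) (hcon η hη) k1
          (mod_SD hSD (fun w hw1 hw2 => ?_) k2) k3 k4 fun w hw1 => ⟨hw.subC (hfs w hw1).1,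
            (hfs w hw1).2⟩
        rw [hCl] at hw1
        exact h.subC (hw1.resolve_right hw2))
    rw [div_mul_eq_mul_div, le_div_iff₀ hγ0, mul_comm, hCw]
    exact this.trans (le_of_eq (by ring))
  have k3 := mod_three (w := fun p => u p - v0 p) hp0 hq0 hγ0 (by positivity) hpq0 key pq.1
    (mem_product.1 hpq).1 pq.2 (mem_product.1 hpq).2
  rw [← ho] at k3
  have k4 : 3 * (Cw * τ / γ) < 1 := by
    rw [← mul_div_assoc, div_lt_one hγ0]; exact hτγ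
  have k5 : o = 0 := by
    by_contra hne
    have := mul_lt_mul_of_pos_right k4 (lt_of_le_of_ne ho0 (Ne.symm hne))
    rw [mul_assoc, one_mul] at this
    exact absurd k3 (not_le.2 this)
  obtain ⟨-, -, -, -, i5⟩ := h.inside hρR hQ0 ho0 hQP hv h1 h2 h3
  have := i5 y hyC (hL0 y hy) y' hyC' (hL0 y' hy')
  rw [k5, mul_zero] at this
  exact hne (sub_eq_zero.1 (abs_nonpos_iff.1 this))

end Pool.Agent.P.MP_b4265e_pr.R
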