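import Pool.Agent.P.MP_b4265e_pr.R.Rewire

/-!
Auxiliary lemmas for the rewiring argument.
-/

namespace Pool.Agent.P.MP_b4265e_pr.R

open Finset
open scoped Classical

variable {d : ℕ}

attribute [local irreducible] l2 en nrm lam vol pair l1 lapG chg

lemma mod_l2_union {α : Type*} [DecidableEq α] (S S' : Finset α) (f : α → ℝ) :
    l2 (S ∪ S') f ≤ l2 S f + l2 S' f := by
  refine l2_le_of_sq_le (add_nonneg (l2_nonneg _ _) (l2_nonneg _ _)) ?_
  have h1 : ∑ a ∈ S ∪ S', f a ^ 2 ≤ ∑ a ∈ S, f a ^ 2 + ∑ a ∈ S', f a ^ 2 := by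
    rw [← sum_union_inter]
    have : 0 ≤ ∑ a ∈ S ∩ S', f a ^ 2 := sum_nonneg fun a _ => sq_nonneg _
    linarith
  rw [← l2_sq S, ← l2_sq S'] at h1
  nlinarith [l2_nonneg S f, l2_nonneg S' f]

lemma mod_le_sc {L A : ℕ} (hL : 1 ≤ L) (hA : 2 ≤ A) (n : ℕ) : n < sc L A n := by
  unfold sc
  have h1 : n < 2 ^ n := Nat.lt_two_pow_self
  have h2 : 2 ^ n ≤ A ^ n := Nat.pow_le_pow_left hA n
  nlinarith

lemma mod_sc_mono {L A : ℕ} (hA : 1 ≤ A) {n n' : ℕ} (h : n ≤ n') : sc L A n ≤ sc L A n' :=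
  Nat.mul_le_mul_left _ (Nat.pow_le_pow_right hA h)

lemma mod_sc_succ (L A n : ℕ) : sc L A (n + 1) = sc L A n * A := by
  unfold sc; ring

lemma mod_nd_axis (x : V d) (i : Fin d) (c : ℕ) : nd x (x + (c : ℤ) • ee i) = c := by
  refine le_antisymm (mem_box_nd.1 (mem_box.2 fun k => ?_)) ?_
  · simp only [Pi.add_apply, Pi.smul_apply, smul_eq_mul, add_sub_cancel_left, ee_apply]
    split_ifs <;> simp
  · have := abs_le_nd x (x + (c : ℤ) • ee i) i
    simp only [Pi.add_apply, Pi.smul_apply, smul_eq_mul, add_sub_cancel_left, ee_self,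
      mul_one, Nat.abs_cast] at this
    exact_mod_cast this

/-- Without screening the dual norms decay fast. -/
lemma fast_of_not_scr {θ K δ Λ1 Λs : ℝ} {L A κ n R0 : ℕ} {x : V d} {O : Set (E d)}
    (hL : 1 ≤ L) (hA : 2 ≤ A) (hκ : 1 ≤ κ) (hΛ1 : 0 < Λ1) (hΛs : 0 < Λs)
    (hW : ∀ j ≥ κ, W θ K δ x (sc L A j) O)
    (hn : ¬ Scr θ K δ Λ1 Λs L A κ (κ + n) R0 x O) {u : V d → ℝ} {f g : V d →₀ ℝ}
    (hu : ∀ y, lapG (GC O) u y = (f + g) y) (hSD : SD (Cl O) u)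
    (hg : Supp (Cl O) x (L + 1) g) (hg0 : pair g (fun _ => 1) = 0) (hf : Supp (Cl O) 0 R0 f) :
    lam (GC O) (Cl O) x (sc L A (κ + n)) g ≤ (1 / Λ1) ^ n * √(vol d (sc L A κ)) * l1 g := by
  have hsup : ∀ j, κ ≤ j → Supp (Cl O) x (sc L A j) g := by
    intro j hj
    refine hg.mono (box_mono x ?_)
    have h1 : sc L A 1 ≤ sc L A j := mod_sc_mono (by omega) (by omega)
    have h2 : sc L A 1 = L * A := by simp [sc]
    nlinarith
  have step : ∀ j, κ ≤ j → j < κ + n → lam (GC O) (Cl O) x (sc L A (j + 1)) g ≤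
      1 / Λ1 * lam (GC O) (Cl O) x (sc L A j) g := by
    intro j hj1 hj2
    by_contra hcon
    push Not at hcon
    set a := lam (GC O) (Cl O) x (sc L A j) g with ha
    set b := lam (GC O) (Cl O) x (sc L A (j + 1)) g with hb
    have ha0 : 0 ≤ a := lam_nonneg (hsup j hj1)
    have hab : a < Λ1 * b := by
      rw [one_div, inv_mul_lt_iff₀ hΛ1] at hcon; exact hcon
    have hb0 : 0 < b := by
      by_contra h; push Not at h; nlinarith
    apply hn
    refine ⟨hW, j, hj1, hj2, ?_⟩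
    obtain ⟨n1, hn1⟩ := lam_small_of_SD (wf_GC O) hu hSD hL hA (Λ := 2 * Λs) (by positivity)
    obtain ⟨n2, hn2⟩ := exists_pow_lt_of_lt_one hb0 (show (1 / 2 : ℝ) < 1 by norm_num)
    refine ⟨max n1 (max n2 (nd 0 x + (L + 1) + R0)), fun m hm => ?_⟩
    have m1 : n1 ≤ m := le_trans (le_max_left _ _) hm
    have m2 : n2 ≤ m := le_trans ((le_max_left _ _).trans (le_max_right _ _)) hm
    have m3 : nd 0 x + (L + 1) + R0 ≤ m := le_trans ((le_max_right _ _).trans (le_max_right _ _)) hm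
    have m4 := mod_le_sc hL hA m
    have hs : Supp (Cl O) 0 (sc L A m) (f + g) :=
      (hf.mono (box_mono _ (by omega))).add (hg.mono (box_subset (by omega)))
    have hbi : |b⁻¹| = b⁻¹ := abs_of_pos (inv_pos.2 hb0)
    refine ⟨b⁻¹ • g, b⁻¹ • f, hg.smul _, by rw [pair_smul_left, hg0, mul_zero], ?_, ?_,
      hf.smul _, ?_⟩
    · rw [lam_smul (hsup j hj1), lam_smul (hsup (j + 1) (by omega)), hbi, ← ha, ← hb]
      rw [inv_mul_cancel₀ hb0.ne', mul_one, inv_mul_le_iff₀ hb0]; linarith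
    · rw [lam_smul (hsup (j + 1) (by omega)), hbi, ← hb, inv_mul_cancel₀ hb0.ne']
    · rw [← smul_add, lam_smul hs, hbi, inv_mul_le_iff₀ hb0]
      refine (hn1 m m1).trans ?_
      have h1 : (1 / 2 : ℝ) ^ m ≤ b :=
        (pow_le_pow_of_le_one (by norm_num) (by norm_num) m2).trans hn2.le
      calc 1 / (2 * Λs) ^ m = (1 / 2 : ℝ) ^ m * (1 / Λs ^ m) := by
            rw [mul_pow, one_div_pow]; field_simp
        _ ≤ b * (1 / Λs ^ m) := by gcongr
  have key : ∀ k, k ≤ n → lam (GC O) (Cl O) x (sc L A (κ + k)) g ≤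
      (1 / Λ1) ^ k * lam (GC O) (Cl O) x (sc L A κ) g := by
    intro k
    induction k with
    | zero => intro _; simp
    | succ k ih =>
      intro hk
      refine (step (κ + k) (by omega) (by omega)).trans ?_
      rw [pow_succ', mul_assoc]
      exact mul_le_mul_of_nonneg_left (ih (by omega)) (by positivity)
  refine (key n le_rfl).trans ?_
  rw [mul_assoc]
  refine mul_le_mul_of_nonneg_left ?_ (by positivity)
  rw [mul_comm]; exact lam_le_l1 (hsup κ le_rfl)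

/-- Dirichlet-Poincare inequality with a constant that does not depend on the scale. -/
lemma mod_poin (hd : 2 ≤ d) {θ K δ : ℝ} (hθ : 0 < θ) (hK : 0 < K) (hδ : δ ≤ 1 / 8)
    {G : Set (E d)} {C : Set (V d)} (hG : G ⊆ ins C) {x : V d} {r A : ℕ} (hr : 1 ≤ r) (hA : 8 ≤ A)
    (h : HGood θ K δ G C x (r * A)) {v : V d → ℝ} (hv : ∀ y ∈ C, y ∉ box x r → v y = 0) :
    nrm C x r v ≤ (1 + √(8 ^ d / θ)) * K * A * en G x (r + 1) v := by
  set R := r * A with hR
  have hR8 : 8 * r ≤ R := by rw [hR]; nlinarith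
  set i0 : Fin d := ⟨0, by omega⟩
  set z := x + ((R / 2 : ℕ) : ℤ) • ee i0 with hz
  have hnd : nd x z = R / 2 := mod_nd_axis x i0 _
  have h8 : (R : ℝ) ≤ 8 * (R / 4 : ℕ) := by
    have : R ≤ 8 * (R / 4) := by omega
    exact_mod_cast this
  have hD : Dens θ C z (R / 4) := by
    refine h.dens z (mem_box_nd.2 (by omega)) _ ?_ (by omega)
    have : (0 : ℝ) ≤ R := by positivity
    nlinarith
  have h1 := poin_dirichlet hθ hK.le h.poin2 hD (box_subset (by omega)) (r := r) (by omega) hv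
  have h2 : en G x (2 * R) v ≤ en G x (r + 1) v := en_le_of_supp hG hv _ _
  have h3 : √(vol d R / (θ * vol d (R / 4))) ≤ √(8 ^ d / θ) := by
    refine Real.sqrt_le_sqrt ?_
    have := vol_le_of_le_mul d (by norm_num) h8
    rw [div_le_div_iff₀ (by have := vol_pos d (R / 4); positivity) hθ]
    nlinarith
  have h4 : (r : ℝ) ≤ √(vol d r) := by
    refine Real.le_sqrt_of_sq_le ?_
    unfold vol
    have h5 : (1 : ℝ) ≤ 2 * r + 1 := by have : (0 : ℝ) ≤ r := by positivity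
                                        linarith
    calc (r : ℝ) ^ 2 ≤ (2 * r + 1) ^ 2 := by gcongr; linarith
      _ ≤ _ := pow_le_pow_right₀ h5 hd
  have h5 : l2 (cap C (box x r)) v ≤ l2 (cap C (box x R)) v :=
    l2_mono (cap_mono C (box_mono x (by omega))) v
  have hv0 : 0 < √(vol d r) := Real.sqrt_pos.2 (vol_pos d r)
  have he := en_nonneg G x (r + 1) v
  have he2 := en_nonneg G x (2 * R) v
  unfold nrm
  rw [div_le_iff₀ hv0]
  have hRr : (R : ℝ) = r * A := by rw [hR]; push_cast; ring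
  calc l2 (cap C (box x r)) v ≤ (1 + √(vol d R / (θ * vol d (R / 4)))) *
        (K * R * en G x (2 * R) v) := h5.trans h1
    _ ≤ (1 + √(8 ^ d / θ)) * (K * R * en G x (r + 1) v) := by gcongr
    _ = (1 + √(8 ^ d / θ)) * K * A * en G x (r + 1) v * r := by rw [hRr]; ring
    _ ≤ _ := by gcongr

variable {G G0 Gw : Set (E d)} {C C0 Cw : Set (V d)} {x : V d} {ρ : ℕ} {P : Finset (V d)}
  {T : Finset (E d)}

lemma Cut.supp_chg (h : Cut G G0 C C0 x ρ P T) (v : V d → ℝ) {y : V d}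
    (hy : y ∈ (chg G G0 P v).support) : y ∈ C0 ∧ y ∈ box x ρ := h.port y (chg_support _ _ _ _ hy)

/-- The pairing of a charge with a Dirichlet potential. -/
lemma mod_pair_pot (hw : Wf G0 C0) {R : ℕ} {φ : V d →₀ ℝ} (hφ : Supp C0 x R φ) {v w : V d → ℝ}
    (h1 : ∀ y ∈ cap C0 (box x R), lapG G0 v y = φ y) :
    pair φ w = ∑ y ∈ box x R, w y * lapG G0 v y := by
  rw [pair_eq_sum (S := box x R) fun y hy => (hφ y hy).2]
  refine sum_congr rfl fun y hy => ?_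
  by_cases hc : y ∈ C0
  · rw [h1 y (mem_cap.2 ⟨hy, hc⟩), mul_comm]
  · have : φ y = 0 := by
      by_contra hne; exact hc (hφ y (Finsupp.mem_support_iff.2 hne)).1
    rw [this, lapG_of_not_mem hw.sub v hc]; simp

/-- A slowly growing harmonic function of the cut graph that oscillates on the ports. -/
lemma mod_exists_a0 (h : Cut G G0 C C0 x ρ P T) (hP : P.Nonempty) {R : ℕ} (hR : ρ ≤ R)
    {Q t D γ0 : ℝ} (hQ0 : 0 ≤ Q) (ht : √(T.card) ≤ t) (hD0 : 0 ≤ D) (hγ1 : γ0 ≤ 1)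
    (hQ : ∀ w : V d → ℝ, ∀ a ∈ P, ∀ b ∈ P, |w a - w b| ≤ Q * en G0 x (2 * ρ) w)
    (hD : ∀ v : V d → ℝ, (∀ y ∈ C0, y ∉ box x R → v y = 0) → nrm C0 x R v ≤ D * en G0 x (R + 1) v)
    {a : V d → ℝ} (ha : Harm G x R a) (ha1 : nrm C x R a ≤ 1) {y y' : V d} (hy : y ∈ C)
    (hy0 : y ∉ C0) (hy' : y' ∈ C) (hy0' : y' ∉ C0) (hγ : γ0 ≤ a y - a y') :
    ∃ a0 : V d → ℝ, Harm G0 x R a0 ∧ nrm C0 x R a0 ≤ 1 ∧ ∃ p ∈ P, ∃ q ∈ P,
      γ0 / ((1 + Q * t) * (1 + D * t)) ≤ |a0 p - a0 q| := by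
  have ht0 : 0 ≤ t := (Real.sqrt_nonneg _).trans ht
  obtain ⟨v0, hv1, hv2⟩ := exists_dirichlet h.wf0 (box x R) (chg G G0 P a) (fun _ => 0)
  obtain ⟨pq, hpq, hmax⟩ := (P ×ˢ P).exists_max_image
    (fun pq => |(a pq.1 - v0 pq.1) - (a pq.2 - v0 pq.2)|) (hP.product hP)
  set o := |(a pq.1 - v0 pq.1) - (a pq.2 - v0 pq.2)| with ho
  have ho0 : 0 ≤ o := abs_nonneg _
  have hv : ∀ y ∈ C, y ∉ C0 → lapG G a y = 0 := fun y h1 h2 =>
    ha y (box_mono x hR (h.near y h1 h2))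
  obtain ⟨-, -, i3, -, i5⟩ := h.inside hR hQ0 ho0 hQ hv hv1 hv2
    (fun p hp q hq => hmax (p, q) (mem_product.2 ⟨hp, hq⟩))
  have j1 : γ0 ≤ (1 + Q * t) * o := by
    refine hγ.trans ((le_abs_self _).trans ((i5 y hy hy0 y' hy' hy0').trans ?_))
    gcongr
  have j2 : nrm C0 x R v0 ≤ D * t * o := by
    refine (hD v0 fun z _ hz => hv2 z fun hc => hz (mem_cap.1 hc).1).trans ?_
    rw [mul_assoc]
    exact mul_le_mul_of_nonneg_left (i3.trans (by gcongr)) hD0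
  have j3 : nrm C0 x R a ≤ 1 := by
    refine le_trans ?_ ha1
    unfold nrm
    refine div_le_div_of_nonneg_right (l2_mono (fun z hz => ?_) a) (Real.sqrt_nonneg _)
    exact mem_cap.2 ⟨(mem_cap.1 hz).1, h.subC (mem_cap.1 hz).2⟩
  have hN : 0 < 1 + D * t * o := by positivity
  have hH : Harm G0 x R fun z => a z - v0 z := by
    intro z hz
    rw [lapG_sub]
    by_cases hc : z ∈ C0
    · rw [h.lap_eq a hc, ha z hz, hv1 z (mem_cap.2 ⟨hz, hc⟩)]; ring
    · rw [lapG_of_not_mem h.wf0.sub _ hc, lapG_of_not_mem h.wf0.sub _ hc, sub_zero]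
  refine ⟨fun z => (1 + D * t * o)⁻¹ * (a z - v0 z), hH.mul _, ?_, pq.1, (mem_product.1 hpq).1,
    pq.2, (mem_product.1 hpq).2, ?_⟩
  · rw [nrm_mul, abs_of_pos (inv_pos.2 hN), inv_mul_le_iff₀ hN, mul_one]
    exact (nrm_sub_le _ _ _ _ _).trans (by linarith)
  · rw [← mul_sub, abs_mul, abs_of_pos (inv_pos.2 hN), ← ho, ← div_eq_inv_mul]
    have hq : 0 < 1 + Q * t := by positivity
    have hd' : 0 < 1 + D * t := by positivity
    rw [div_le_div_iff₀ (by positivity) hN]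
    have k1 : 0 ≤ D * t * o := by positivity
    have k2 : γ0 * (D * t * o) ≤ D * t * o := by nlinarith
    have k3 : D * t * o ≤ (1 + Q * t) * (D * t * o) := by nlinarith [mul_nonneg hQ0 ht0]
    nlinarith

end Pool.Agent.P.MP_b4265e_pr.R
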