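import Pool.Agent.P.MP_b4265e_pr.R.ModAux

/-!
The effect of a wire between two ports.
-/

namespace Pool.Agent.P.MP_b4265e_pr.R

open Finset
open scoped Classical

variable {d : ℕ} {G G0 Gw : Set (E d)} {C C0 Cw : Set (V d)} {x : V d} {ρ : ℕ}
  {P : Finset (V d)} {T : Finset (E d)}

attribute [local irreducible] l2 en nrm lam vol pair l1 lapG chg

lemma mod_le_of_sq {e c : ℝ} (hc : 0 ≤ c) (h : e ^ 2 ≤ c * e) : e ≤ c := by
  by_contra hn
  push Not at hn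
  nlinarith

lemma Cut.pair_self (h : Cut G G0 C C0 x ρ P T) {v : V d → ℝ}
    (hv : ∀ y ∈ C, y ∉ C0 → lapG G v y = 0) :
    pair (chg G G0 P v) v = en (G \ G0) x (ρ + 1) v ^ 2 := by
  rw [h.pair_chg hv, en, l2_sq]
  exact sum_congr rfl fun e _ => by ring

lemma Cut.l1_le_osc (h : Cut G G0 C C0 x ρ P T) {v : V d → ℝ}
    (hv : ∀ y ∈ C, y ∉ C0 → lapG G v y = 0) {t o : ℝ} (ht : √(T.card) ≤ t) (ho : 0 ≤ o) {p : V d}
    (hp : ∀ a ∈ P, |v a - v p| ≤ o) : l1 (chg G G0 P v) ≤ t ^ 2 * o := by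
  have ht0 : 0 ≤ t := (Real.sqrt_nonneg _).trans ht
  have he := en_nonneg (G \ G0) x (ρ + 1) v
  have h1 : l1 (chg G G0 P v) ≤ t * en (G \ G0) x (ρ + 1) v :=
    (h.l1_chg_le v).trans (by gcongr)
  have h2 : en (G \ G0) x (ρ + 1) v ^ 2 ≤ l1 (chg G G0 P v) * o := by
    rw [← h.pair_self hv, ← pair_sub_const (h.total_chg hv) v (v p)]
    exact (le_abs_self _).trans (abs_pair_le_l1 fun y hy => hp y (chg_support _ _ _ _ hy))
  have h3 : en (G \ G0) x (ρ + 1) v ≤ t * o := by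
    refine mod_le_of_sq (by positivity) (h2.trans ?_)
    nlinarith
  calc l1 (chg G G0 P v) ≤ t * (t * o) := h1.trans (by gcongr)
    _ = _ := by ring

lemma Cut.pair_two {p q : V d} (h : Cut G G0 C C0 x ρ {p, q} T) (hpq : p ≠ q) {v : V d → ℝ}
    (hv : ∀ y ∈ C, y ∉ C0 → lapG G v y = 0) (w : V d → ℝ) :
    pair (chg G G0 {p, q} v) w = chg G G0 {p, q} v p * (w p - w q) := by
  have h0 := h.total_chg hv
  rw [pair_eq_sum (chg_support _ _ _ _), sum_pair hpq] at h0 ⊢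
  have : chg G G0 {p, q} v q = - chg G G0 {p, q} v p := by linarith
  rw [this]; ring

/-- The energy of a Dirichlet potential. -/
lemma mod_en_pot (hw : Wf G0 C0) {R : ℕ} {φ : V d →₀ ℝ} (hφ : Supp C0 x R φ) {v : V d → ℝ}
    (h1 : ∀ y ∈ cap C0 (box x R), lapG G0 v y = φ y) (h2 : ∀ y, y ∉ cap C0 (box x R) → v y = 0) :
    en G0 x (R + 1) v ^ 2 = - pair φ v := by
  rw [mod_pair_pot hw hφ h1,
    sbp_box hw.sub v v le_rfl fun y _ hy => h2 y fun hc => hy (mem_cap.1 hc).1, neg_neg, en_sq]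
  exact sum_congr rfl fun e _ => by ring

/-- The harmonic function of the wired graph attached to a harmonic function of the cut graph. -/
lemma mod_wire {p q : V d} (h : Cut Gw G0 Cw C0 x ρ {p, q} T) {L R : ℕ} (hR : ρ ≤ R)
    (hCw : ∀ y ∈ Cw, y ∉ C0 → y ∈ box x L) {Q t D γ : ℝ} (hQ0 : 0 ≤ Q) (ht : √(T.card) ≤ t)
    (hD0 : 0 ≤ D) (hγ0 : 0 < γ) (hγ1 : γ ≤ 1)
    (hwire : ∀ v : V d → ℝ, |v p - v q| ≤ t * en (Gw \ G0) x (ρ + 1) v)
    (hQ : ∀ w : V d → ℝ, |w p - w q| ≤ Q * en G0 x (2 * ρ) w)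
    (hD : ∀ v : V d → ℝ, (∀ y ∈ C0, y ∉ box x R → v y = 0) → nrm C0 x R v ≤ D * en G0 x (R + 1) v)
    {a0 : V d → ℝ} (ha : Harm G0 x R a0) (ha1 : nrm C0 x R a0 ≤ 1) (hγ : |a0 p - a0 q| = γ) :
    ∃ (aw vw : V d → ℝ) (J : ℝ), Harm Gw x R aw ∧
      nrm Cw x R aw ≤ (1 + √(vol d L)) * (1 + D * t) ∧ γ ≤ (t ^ 2 + Q ^ 2) * |J| ∧
      (∀ w, pair (chg Gw G0 {p, q} aw) w = J * (w p - w q)) ∧ (∀ y ∈ C0, aw y = a0 y + vw y) ∧
      (∀ y ∈ cap C0 (box x R), lapG G0 vw y = chg Gw G0 {p, q} aw y) ∧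
      ∀ y, y ∉ cap C0 (box x R) → vw y = 0 := by
  have ht0 : 0 ≤ t := (Real.sqrt_nonneg _).trans ht
  have hpq : p ≠ q := by
    rintro rfl
    rw [sub_self, abs_zero] at hγ; linarith
  have hp := h.port p (by simp)
  have hq := h.port q (by simp)
  obtain ⟨aw, hw1, hw2⟩ := exists_dirichlet h.wf (box x R) (fun _ => 0) a0
  obtain ⟨vw, hv1, hv2⟩ := exists_dirichlet h.wf0 (box x R) (chg Gw G0 {p, q} aw) (fun _ => 0)
  have hH : Harm Gw x R aw := by
    intro y hy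
    by_cases hc : y ∈ Cw
    · exact hw1 y (mem_cap.2 ⟨hy, hc⟩)
    · exact lapG_of_not_mem h.wf.sub _ hc
  have hv : ∀ y ∈ Cw, y ∉ C0 → lapG Gw aw y = 0 := fun y h1 h2 =>
    hH y (box_mono x hR (h.near y h1 h2))
  have heq : ∀ y ∈ C0, aw y = a0 y + vw y := by
    intro y hy
    have := abs_max_prin h.wf0 (box x R) (fun z => aw z - vw z - a0 z) (b := 0) ?_ ?_ y hy
    · have := abs_nonpos_iff.1 this
      linarith
    · intro z hz
      by_cases hc : z ∈ C0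
      · rw [lapG_sub G0 (fun z => aw z - vw z) a0, lapG_sub, h.lap_eq aw hc, hH z hz,
          hv1 z (mem_cap.2 ⟨hz, hc⟩), ha z hz]
        ring
      · exact lapG_of_not_mem h.wf0.sub _ hc
    · intro z _ hz
      rw [hw2 z fun hc => hz (mem_cap.1 hc).1, hv2 z fun hc => hz (mem_cap.1 hc).1]
      simp
  have hvz : ∀ y ∈ C0, y ∉ box x R → vw y = 0 := fun y _ hy => hv2 y fun hc => hy (mem_cap.1 hc).1
  set J := chg Gw G0 {p, q} aw p with hJ
  have hpair : ∀ w, pair (chg Gw G0 {p, q} aw) w = J * (w p - w q) := h.pair_two hpq hv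
  have hsupp : Supp C0 x R (chg Gw G0 {p, q} aw) := fun y hy =>
    ⟨(h.supp_chg aw hy).1, box_mono x hR (h.supp_chg aw hy).2⟩
  have hJ0 := abs_nonneg J
  -- the two contributions to the potential difference
  have e1 : en (Gw \ G0) x (ρ + 1) aw ≤ |J| * t := by
    refine mod_le_of_sq (by positivity) ?_
    rw [← h.pair_self hv, hpair]
    refine (le_abs_self _).trans ?_
    rw [abs_mul, mul_assoc]
    exact mul_le_mul_of_nonneg_left (hwire aw) hJ0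
  have q1 : |vw p - vw q| ≤ Q * en G0 x (R + 1) vw :=
    (hQ vw).trans (mul_le_mul_of_nonneg_left (en_le_of_supp h.wf0.sub hvz _ _) hQ0)
  have e2 : en G0 x (R + 1) vw ≤ |J| * Q := by
    refine mod_le_of_sq (by positivity) ?_
    rw [mod_en_pot h.wf0 hsupp hv1 hv2, hpair]
    refine (neg_le_abs _).trans ?_
    rw [abs_mul, mul_assoc]
    exact mul_le_mul_of_nonneg_left q1 hJ0
  have hγJ : γ ≤ (t ^ 2 + Q ^ 2) * |J| := by
    have k1 : |aw p - aw q| ≤ t * (|J| * t) := (hwire aw).trans (by gcongr)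
    have k2 : |vw p - vw q| ≤ Q * (|J| * Q) := q1.trans (by gcongr)
    have k3 : a0 p - a0 q = (aw p - aw q) - (vw p - vw q) := by
      rw [heq p hp.1, heq q hq.1]; ring
    rw [← hγ, k3]
    refine (abs_sub _ _).trans ?_
    nlinarith
  -- the norm
  have hQ' : ∀ w : V d → ℝ, ∀ a ∈ ({p, q} : Finset (V d)), ∀ b ∈ ({p, q} : Finset (V d)),
      |w a - w b| ≤ Q * en G0 x (2 * ρ) w := by
    intro w a ha b hb
    have := en_nonneg G0 x (2 * ρ) w
    simp only [mem_insert, mem_singleton] at ha hb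
    rcases ha with rfl | rfl <;> rcases hb with rfl | rfl
    · rw [sub_self, abs_zero]; positivity
    · exact hQ w
    · rw [abs_sub_comm]; exact hQ w
    · rw [sub_self, abs_zero]; positivity
  obtain ⟨-, -, i3, -, -⟩ := h.inside hR hQ0 hγ0.le hQ' hv hv1 hv2 (by
    intro a ha b hb
    simp only [mem_insert, mem_singleton] at ha hb
    rcases ha with rfl | rfl <;> rcases hb with rfl | rfl
    · rw [sub_self, abs_zero]; exact hγ0.le
    · rw [heq _ hp.1, heq _ hq.1, ← hγ]; exact le_of_eq (by congr 1; ring)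
    · rw [abs_sub_comm, heq _ hp.1, heq _ hq.1, ← hγ]; exact le_of_eq (by congr 1; ring)
    · rw [sub_self, abs_zero]; exact hγ0.le)
  have n1 : nrm C0 x R aw ≤ 1 + D * t := by
    rw [nrm_congr (w := fun y => a0 y + vw y) fun y _ hy => heq y hy]
    refine (nrm_add_le _ _ _ _ _).trans (add_le_add ha1 ((hD vw hvz).trans ?_))
    refine mul_le_mul_of_nonneg_left (i3.trans ?_) hD0
    calc √(T.card) * γ ≤ t * 1 := by gcongr
      _ = t := mul_one t
  set M := l2 (cap C0 (box x R)) aw with hM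
  have hM0 : 0 ≤ M := l2_nonneg _ _
  have n2 : ∀ y ∈ Cw, y ∉ C0 → -M ≤ aw y ∧ aw y ≤ M := by
    refine h.between hv fun y hy => abs_le.1 (abs_le_l2 (mem_cap.2 ?_) aw)
    exact ⟨box_mono x hR (h.port y hy).2, (h.port y hy).1⟩
  have n3 : l2 (cap Cw (box x R)) aw ≤ (1 + √(vol d L)) * M := by
    have s1 : cap Cw (box x R) ⊆ cap C0 (box x R) ∪ (box x L).filter (fun y => y ∈ Cw ∧ y ∉ C0) := by
      intro y hy
      by_cases hc : y ∈ C0
      · exact mem_union_left _ (mem_cap.2 ⟨(mem_cap.1 hy).1, hc⟩)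
      · exact mem_union_right _ (mem_filter.2 ⟨hCw y (mem_cap.1 hy).2 hc, (mem_cap.1 hy).2, hc⟩)
    refine (l2_mono s1 aw).trans ((mod_l2_union _ _ _).trans ?_)
    have s2 := l2_le_sup (S := (box x L).filter (fun y => y ∈ Cw ∧ y ∉ C0)) (f := aw) hM0
      fun y hy => abs_le.2 (n2 y (mem_filter.1 hy).2.1 (mem_filter.1 hy).2.2)
    have s3 : √(((box x L).filter (fun y => y ∈ Cw ∧ y ∉ C0)).card : ℝ) ≤ √(vol d L) := by
      refine Real.sqrt_le_sqrt ?_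
      rw [← card_box_vol x L]
      exact_mod_cast card_filter_le _ _
    have s4 : √(((box x L).filter (fun y => y ∈ Cw ∧ y ∉ C0)).card : ℝ) * M ≤ √(vol d L) * M := by
      gcongr
    rw [← hM]; linarith
  refine ⟨aw, vw, J, hH, ?_, hγJ, hpair, heq, hv1, hv2⟩
  have hv0 : 0 < √(vol d R) := Real.sqrt_pos.2 (vol_pos d R)
  calc nrm Cw x R aw ≤ (1 + √(vol d L)) * M / √(vol d R) := by
        rw [nrm]; exact div_le_div_of_nonneg_right n3 hv0.le
    _ = (1 + √(vol d L)) * nrm C0 x R aw := by rw [mul_div_assoc, nrm]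
    _ ≤ _ := by gcongr

/-- Without screening, the regular part of the function is nearly equal at the two ends of the
wire. -/
lemma mod_wire_bound {p q : V d} (h : Cut G G0 C C0 x ρ P T) (hw : Cut Gw G0 Cw C0 x ρ {p, q} T)
    (hp : p ∈ P) (hq : q ∈ P) {L R : ℕ} (hR : ρ ≤ R) (hLρ : L + 1 ≤ ρ)
    (hCw : ∀ y ∈ Cw, y ∉ C0 → y ∈ box x L) (hL0 : ∀ y ∈ box x L, y ∉ C0)
    (hP : ∀ y ∈ P, y ∈ box x (L + 1)) {Q t D γ τ o : ℝ} (hQ0 : 0 ≤ Q) (ht : √(T.card) ≤ t)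
    (hD0 : 0 ≤ D) (hγ0 : 0 < γ) (hγ1 : γ ≤ 1) (hτ : 0 ≤ τ) (ho : 0 ≤ o)
    (hwire : ∀ v : V d → ℝ, |v p - v q| ≤ t * en (Gw \ G0) x (ρ + 1) v)
    (hQ : ∀ w : V d → ℝ, ∀ a ∈ P, ∀ b ∈ P, |w a - w b| ≤ Q * en G0 x (2 * ρ) w)
    (hD : ∀ v : V d → ℝ, (∀ y ∈ C0, y ∉ box x R → v y = 0) → nrm C0 x R v ≤ D * en G0 x (R + 1) v)
    {a0 : V d → ℝ} (ha : Harm G0 x R a0) (ha1 : nrm C0 x R a0 ≤ 1) (hγ : |a0 p - a0 q| = γ)
    {u v0 : V d → ℝ} {f : V d →₀ ℝ} (hu : ∀ y, lapG G u y = f y) (hf : ∀ y, y ∉ C0 → f y = 0)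
    (h1 : ∀ y ∈ cap C0 (box x R), lapG G0 v0 y = chg G G0 P u y)
    (h2 : ∀ y, y ∉ cap C0 (box x R) → v0 y = 0)
    (h3 : ∀ a ∈ P, ∀ b ∈ P, |(u a - v0 a) - (u b - v0 b)| ≤ o)
    (fast0 : lam G0 C0 x R (chg G G0 P u) ≤ τ * l1 (chg G G0 P u))
    (fastw : ∀ (uw : V d → ℝ) (g : V d →₀ ℝ), (∀ y, lapG Gw uw y = (f + g) y) →
      (∀ y, y ∉ box x L → uw y = u y) → Supp Cw x (L + 1) g → pair g (fun _ => 1) = 0 →
      lam Gw Cw x R g ≤ τ * l1 g) :
    γ * |(u p - v0 p) - (u q - v0 q)| ≤ (t ^ 2 + Q ^ 2) *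
      (τ * t ^ 2 * (1 + (2 + Q * t) * ((1 + √(vol d L)) * (1 + D * t))) * o) := by
  have ht0 : 0 ≤ t := (Real.sqrt_nonneg _).trans ht
  obtain ⟨aw, vw, J, hH, hN, hJ, hpair, heq, hv1, hv2⟩ := mod_wire hw hR hCw hQ0 ht hD0 hγ0 hγ1
    hwire (fun w => hQ w p hp q hq) hD ha ha1 hγ
  set Nw := (1 + √(vol d L)) * (1 + D * t) with hNw
  have hNw0 : 0 ≤ Nw := by positivity
  have hv : ∀ y ∈ C, y ∉ C0 → lapG G u y = 0 := fun y _ hy => by rw [hu, hf y hy]
  obtain ⟨-, i2, -, i4, -⟩ := h.inside hR hQ0 ho hQ hv h1 h2 h3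
  have hT : (T.card : ℝ) ≤ t ^ 2 := by
    rw [← Real.sq_sqrt (Nat.cast_nonneg T.card)]; gcongr
  have l0 : l1 (chg G G0 P u) ≤ t ^ 2 * o := i2.trans (by gcongr)
  -- the function on the wired graph
  obtain ⟨uw, hu1, hu2⟩ := exists_dirichlet hw.wf (box x L) (fun _ => 0) u
  have huo : ∀ y, y ∉ box x L → uw y = u y := fun y hy => hu2 y fun hc => hy (mem_cap.1 hc).1
  have hu0 : ∀ y ∈ C0, uw y = u y := fun y hy => huo y fun hc => hL0 y hc hy
  have hvw : ∀ y ∈ Cw, y ∉ C0 → lapG Gw uw y = 0 := fun y h1 h2 =>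
    hu1 y (mem_cap.2 ⟨hCw y h1 h2, h1⟩)
  have haw : ∀ y ∈ Cw, y ∉ C0 → lapG Gw aw y = 0 := fun y h1 h2 =>
    hH y (box_mono x hR (hw.near y h1 h2))
  have hpq : ∀ y ∈ ({p, q} : Finset (V d)), y ∈ P := by
    intro y hy
    simp only [mem_insert, mem_singleton] at hy
    rcases hy with rfl | rfl <;> assumption
  set ρu := chg G G0 P u with hρu
  set cw := chg Gw G0 {p, q} uw with hcw
  have s1 : Supp C0 x (L + 1) ρu := fun y hy =>
    ⟨(h.supp_chg u hy).1, hP y (chg_support _ _ _ _ hy)⟩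
  have s2 : Supp C0 x (L + 1) cw := fun y hy =>
    ⟨(hw.supp_chg uw hy).1, hP y (hpq y (chg_support _ _ _ _ hy))⟩
  have s3 : Supp Cw x (L + 1) (ρu - cw) := fun y hy =>
    ⟨hw.subC ((s1.sub s2) y hy).1, ((s1.sub s2) y hy).2⟩
  have hlap : ∀ y, lapG Gw uw y = (f + (ρu - cw)) y := by
    intro y
    by_cases hc : y ∈ C0
    · have k1 := hw.lap_eq uw hc
      have k2 := h.lap_eq u hc
      rw [lapG_congr_C h.wf0.sub hu0, k2, hu] at k1
      simp only [Finsupp.add_apply, Finsupp.sub_apply]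
      linarith
    · have k1 : (ρu - cw) y = 0 := by
        by_contra hne; exact hc ((s1.sub s2) y (Finsupp.mem_support_iff.2 hne)).1
      rw [Finsupp.add_apply, k1, hf y hc, add_zero]
      by_cases hc' : y ∈ Cw
      · exact hvw y hc' hc
      · exact lapG_of_not_mem hw.wf.sub _ hc'
  have tot : pair (ρu - cw) (fun _ => 1) = 0 := by
    rw [pair_sub_left, h.total_chg hv, hw.total_chg hvw, sub_zero]
  have lw : l1 cw ≤ t ^ 2 * ((1 + Q * t) * o) := by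
    refine hw.l1_le_osc hvw ht (by positivity) (p := p) fun a ha => ?_
    rw [hu0 a (h.port a (hpq a ha)).1, hu0 p (h.port p hp).1]
    exact (i4 a (hpq a ha) p hp).trans (by gcongr)
  have lg : l1 (ρu - cw) ≤ t ^ 2 * ((2 + Q * t) * o) := by
    refine (l1_sub_le _ _).trans ?_
    nlinarith
  have hb : box x (L + 1) ⊆ box x R := box_mono x (by omega)
  have b1 : |pair (ρu - cw) aw| ≤ τ * (t ^ 2 * ((2 + Q * t) * o)) * Nw := by
    refine (abs_pair_le (s3.mono hb) hH).trans ?_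
    have := (fastw uw _ hlap huo s3 tot).trans (mul_le_mul_of_nonneg_left lg hτ)
    exact mul_le_mul this hN (nrm_nonneg _ _ _ _) (by positivity)
  have b2 : |pair ρu a0| ≤ τ * (t ^ 2 * o) * 1 := by
    refine (abs_pair_le (s1.mono hb) ha).trans ?_
    have := fast0.trans (mul_le_mul_of_nonneg_left l0 hτ)
    exact mul_le_mul this ha1 (nrm_nonneg _ _ _ _) (by positivity)
  -- the reciprocity identity
  have r1 : pair cw aw = J * (u p - u q) := by
    rw [hcw, hw.pair_chg hvw, ← hu0 p (h.port p hp).1, ← hu0 q (h.port q hq).1, ← hpair,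
      hw.pair_chg haw]
    exact sum_congr rfl fun e _ => mul_comm _ _
  have s4 : Supp C0 x R (chg Gw G0 {p, q} aw) := fun y hy =>
    ⟨(hw.supp_chg aw hy).1, box_mono x hR (hw.supp_chg aw hy).2⟩
  have r2 : pair ρu vw = J * (v0 p - v0 q) := by
    rw [← hpair, mod_pair_pot h.wf0 (s1.mono hb) h1, mod_pair_pot h.wf0 s4 hv1]
    exact green_symm h.wf0.sub _ _ (fun y _ hy => hv2 y fun hc => hy (mem_cap.1 hc).1)
      fun y _ hy => h2 y fun hc => hy (mem_cap.1 hc).1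
  have r3 : pair ρu aw = pair ρu a0 + pair ρu vw := by
    rw [← pair_add_right]
    exact pair_congr fun y hy => heq y (s1 y hy).1
  have r4 : J * ((u p - v0 p) - (u q - v0 q)) = pair ρu a0 - pair (ρu - cw) aw := by
    rw [pair_sub_left, r1, r3, r2]; ring
  have b3 : |J| * |(u p - v0 p) - (u q - v0 q)| ≤ τ * t ^ 2 * (1 + (2 + Q * t) * Nw) * o := by
    rw [← abs_mul, r4]
    refine (abs_sub _ _).trans ((add_le_add b2 b1).trans (le_of_eq ?_))
    ring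
  calc γ * |(u p - v0 p) - (u q - v0 q)|
      ≤ (t ^ 2 + Q ^ 2) * |J| * |(u p - v0 p) - (u q - v0 q)| := by gcongr
    _ = (t ^ 2 + Q ^ 2) * (|J| * |(u p - v0 p) - (u q - v0 q)|) := by ring
    _ ≤ _ := by gcongr

end Pool.Agent.P.MP_b4265e_pr.R
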