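import Pool.Agent.P.MP_b4265e_pr.R.Chg

/-!
The multiscale argument: many fully good boxes see both sides of a level set.
-/

namespace Pool.Agent.P.MP_b4265e_pr.R

open Finset MeasureTheory ProbabilityTheory Filter
open scoped Classical

variable {d : ℕ}

/-- Upper level sets reach every sphere that does not enclose the charges. -/
lemma arm_of_upper {G : Set (E d)} {C S : Set (V d)} (hw : Wf G C) {u : V d → ℝ} {R0 : ℕ}
    (hu : HarmOff G R0 u) (hS : ∀ a ∈ S, ∀ b, b ∉ S → u b < u a) {y z : V d} {ρ : ℕ}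
    (hy : y ∈ C) (hyS : y ∈ S) (h1 : nd z y ≤ ρ) (h2 : R0 + ρ < nd 0 z) :
    ∃ y' ∈ C, y' ∈ S ∧ nd z y' = ρ := by
  have hC : ∀ w ∈ comp (G ∩ ins S) y, w ∈ C := fun w hw' =>
    mem_of_comp (fun e he => hw.sub he.1) hy hw'
  have hS' : ∀ w ∈ comp (G ∩ ins S) y, w ∈ S := fun w hw' =>
    mem_of_comp (fun e he => he.2) hyS hw'
  by_cases hfar : ∃ w ∈ comp (G ∩ ins S) y, ρ ≤ nd z w
  · obtain ⟨w, hw1, hw2⟩ := hfar
    obtain ⟨a, ha1, ha2⟩ := exists_sph_of_comp hw1 h1 hw2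
    exact ⟨a, hC a ha1, hS' a ha1, ha2⟩
  exfalso
  push Not at hfar
  obtain ⟨b, hb1, hb2⟩ : ∃ b : ℝ, b < u y ∧ ∀ w ∈ box z ρ, w ∉ S → u w ≤ b := by
    by_cases hne : ((box z ρ).filter (· ∉ S)).Nonempty
    · obtain ⟨w0, hw0, hmax⟩ := exists_max_image _ u hne
      exact ⟨u w0, hS y hyS w0 (mem_filter.1 hw0).2,
        fun w h3 h4 => hmax w (mem_filter.2 ⟨h3, h4⟩)⟩
    · exact ⟨u y - 1, by linarith, fun w h3 h4 => absurd ⟨w, mem_filter.2 ⟨h3, h4⟩⟩ hne⟩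
  have hD : ∀ w, w ∈ (box z ρ).filter (· ∈ comp (G ∩ ins S) y) ↔ w ∈ comp (G ∩ ins S) y :=
    fun w => ⟨fun h => (mem_filter.1 h).2,
      fun h => mem_filter.2 ⟨mem_box_nd.2 (hfar w h).le, h⟩⟩
  have key := max_prin (G := G) ((box z ρ).filter (· ∈ comp (G ∩ ins S) y))
    (fun w h => hw.inf w (hC w ((hD w).1 h))) u (b := b) ?_ ?_ y
    ((hD y).2 (mem_comp_self _ _))
  · linarith
  · intro w h
    have h3 := hfar w ((hD w).1 h)
    have h4 := nd_triangle 0 w z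
    rw [nd_comm w z] at h4
    refine (hu w fun h5 => ?_).ge
    have := mem_box_nd.1 h5
    omega
  · intro w h w' hadj hw'
    have hwc := (hD w).1 h
    have h3 := hfar w hwc
    have h4 := nd_triangle z w w'
    rw [nd_of_adj hadj] at h4
    refine hb2 w' (mem_box_nd.2 (by omega)) fun h5 => hw' ((hD w').2 (comp_adj hwc ?_))
    have h6 := hS' w hwc
    obtain ⟨i, ⟨e, he⟩ | ⟨e, he⟩⟩ := hadj
    · exact ⟨i, Or.inl ⟨e, he, h6, e ▸ h5⟩⟩
    · exact ⟨i, Or.inr ⟨e, he, h5, e ▸ h6⟩⟩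

/-- A sphere that meets the level set and has a point far from it contains a point seeing both
sides. -/
lemma multi_shell (hd : 2 ≤ d) {C S : Set (V d)} {z y1 z2 : V d} {ρ s : ℕ} (hs : 1 ≤ s)
    (hB : ∀ b ∈ sph z ρ, (∃ y ∈ C, y ∈ box b s) → ∃ y ∈ C, y ∈ box b (s - 1))
    (h1 : y1 ∈ sph z ρ) (h1C : y1 ∈ C) (h1S : y1 ∈ S) (h2 : z2 ∈ sph z ρ)
    (h2S : ¬ ∃ y ∈ box z2 (s - 1), y ∈ C ∧ y ∈ S) : ∃ b ∈ sph z ρ, Two C S b s := by
  obtain ⟨a, -, b, hb, hab, ⟨y, hy, hyC, hyS⟩, hbS⟩ :=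
    sph_conn hd z ρ {w | ∃ y ∈ box w (s - 1), y ∈ C ∧ y ∈ S} h1 h2
      ⟨y1, mem_box_self _ _, h1C, h1S⟩ h2S
  have hyb : y ∈ box b s := by
    have h3 := mem_box_nd.1 hy
    have h4 := nd_triangle b a y
    rw [nd_comm b a] at h4
    exact mem_box_nd.2 (by omega)
  obtain ⟨y', hy'C, hy'⟩ := hB b hb ⟨y, hyC, hyb⟩
  exact ⟨b, hb, ⟨y, hyb, hyC, hyS⟩,
    y', box_mono b (Nat.sub_le s 1) hy', hy'C, fun h => hbS ⟨y', hy', hy'C, h⟩⟩

lemma multi_shell' (hd : 2 ≤ d) {C S : Set (V d)} {z y1 y2 : V d} {ρ s : ℕ} (hs : 1 ≤ s)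
    (hB : ∀ b ∈ sph z ρ, (∃ y ∈ C, y ∈ box b s) → ∃ y ∈ C, y ∈ box b (s - 1))
    (h1 : y1 ∈ sph z ρ) (h1C : y1 ∈ C) (h1S : y1 ∈ S) (h2 : y2 ∈ sph z ρ) (h2C : y2 ∈ C)
    (h2S : y2 ∉ S) : ∃ b ∈ sph z ρ, Two C S b s := by
  by_cases h : ∃ y ∈ box y2 (s - 1), y ∈ C ∧ y ∈ S
  · obtain ⟨y, hy, hyC, hyS⟩ := h
    exact ⟨y2, h2, ⟨y, box_mono y2 (Nat.sub_le s 1) hy, hyC, hyS⟩,
      y2, mem_box_self _ _, h2C, h2S⟩
  · exact multi_shell hd hs hB h1 h1C h1S h2 h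

lemma multi_sc_succ (L A i : ℕ) : sc L A (i + 1) = A * sc L A i := by
  simp only [sc]; ring

lemma multi_sc_pos {L A : ℕ} (hL : 1 ≤ L) (hA : 16 ≤ A) (i : ℕ) : 1 ≤ sc L A i :=
  Nat.mul_pos hL (Nat.pow_pos (by omega))

lemma multi_sc_le (L : ℕ) {A : ℕ} (hA : 16 ≤ A) (i : ℕ) : 16 * sc L A i ≤ sc L A (i + 1) := by
  rw [multi_sc_succ]
  exact Nat.mul_le_mul_right _ hA

lemma multi_hB {C : Set (V d)} {L A : ℕ} (hA : 16 ≤ A) {Bad : ℕ → V d → Prop}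
    (hB : ∀ i z, ¬ Bad (i + 1) z → (∃ y ∈ C, y ∈ box z (10 * sc L A (i + 1))) →
      ∃ y ∈ C, y ∈ box z (sc L A i - 1)) {i : ℕ} {b : V d} (hb : ¬ Bad (i + 1) b)
    (h : ∃ y ∈ C, y ∈ box b (sc L A i)) : ∃ y ∈ C, y ∈ box b (sc L A i - 1) := by
  obtain ⟨y, hyC, hy⟩ := h
  have := multi_sc_le L hA i
  exact hB i b hb ⟨y, hyC, box_mono b (by omega) hy⟩

/-- Descending through the scales. -/
lemma multi_rec (hd : 2 ≤ d) {G : Set (E d)} {C : Set (V d)} (hw : Wf G C) {u : V d → ℝ}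
    {R0 : ℕ} (hu : HarmOff G R0 u) {t : ℝ} {L A : ℕ} (hL : 1 ≤ L) (hA : 16 ≤ A)
    {Bad : ℕ → V d → Prop}
    (hB : ∀ i z, ¬ Bad (i + 1) z → (∃ y ∈ C, y ∈ box z (10 * sc L A (i + 1))) →
      ∃ y ∈ C, y ∈ box z (sc L A i - 1)) (i : ℕ) :
    ∀ z : V d, Two C {y | t < u y} z (sc L A i) → ¬ MB L A Bad i z →
      R0 + 20 * sc L A i < nd 0 z →
      ∃ x ∈ box z (9 * sc L A i), Two C {y | t < u y} x L ∧ ∀ i' ≤ i, ¬ Bad i' x := by
  induction i with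
  | zero =>
    intro z hT hM _
    refine ⟨z, mem_box_self _ _, by simpa [sc] using hT, fun i' hi' => ?_⟩
    obtain rfl : i' = 0 := by omega
    exact hM
  | succ i ih =>
    intro z hT hM hz
    have hle := multi_sc_le L hA i
    have hpos := multi_sc_pos hL hA i
    simp only [MB, not_or, not_and_or] at hM
    obtain ⟨hM1, hM2⟩ := hM
    have hM1' : ∀ x, nd z x ≤ 9 * sc L A (i + 1) → ¬ Bad (i + 1) x := fun x hx hb =>
      hM1 ⟨x, mem_box_nd.2 hx, hb⟩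
    obtain ⟨ρ, hρ1, hρ2, hρ⟩ : ∃ ρ, sc L A (i + 1) ≤ ρ ∧ ρ ≤ 7 * sc L A (i + 1) ∧
        ∀ z' ∈ sph z ρ, ¬ MB L A Bad i z' := by
      rcases hM2 with h | h
      · exact ⟨3 * sc L A (i + 1), by omega, by omega, fun z' h1 h2 => h ⟨z', h1, h2⟩⟩
      · exact ⟨7 * sc L A (i + 1), by omega, by omega, fun z' h1 h2 => h ⟨z', h1, h2⟩⟩
    obtain ⟨⟨y1, hy1, hy1C, hy1S⟩, y2, hy2, hy2C, hy2S⟩ := hT
    have hy1' := mem_box_nd.1 hy1
    have hy2' := mem_box_nd.1 hy2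
    obtain ⟨w1, hw1C, hw1S, hw1⟩ := arm_of_upper (S := {y | t < u y}) (z := z) (ρ := ρ) hw hu
      (fun a ha b hb => lt_of_le_of_lt (not_lt.1 hb) ha) hy1C hy1S (by omega) (by omega)
    obtain ⟨w2, hw2C, hw2S, hw2⟩ := arm_of_upper (S := {y | t < u y}ᶜ) (u := fun y => - u y)
      (z := z) (ρ := ρ) (R0 := R0) hw (fun y hy => by rw [lapG_neg, hu y hy, neg_zero])
      (fun a ha b hb => neg_lt_neg (lt_of_le_of_lt (not_lt.1 ha) (not_not.1 hb))) hy2C hy2S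
      (by omega) (by omega)
    obtain ⟨b, hb, hTb⟩ := multi_shell' (C := C) (S := {y | t < u y}) hd hpos
      (fun b hb => multi_hB hA hB (hM1' b (by have := mem_sph.1 hb; omega)))
      (mem_sph.2 hw1) hw1C hw1S (mem_sph.2 hw2) hw2C hw2S
    have hb' := mem_sph.1 hb
    have h3 := nd_triangle 0 b z
    rw [nd_comm b z] at h3
    obtain ⟨x, hx, hTx, hbad⟩ := ih b hTb (hρ b hb) (by omega)
    have hx' := mem_box_nd.1 hx
    have h4 := nd_triangle z b x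
    refine ⟨x, mem_box_nd.2 (by omega), hTx, fun i' hi' => ?_⟩
    rcases Nat.lt_or_ge i' (i + 1) with h5 | h5
    · exact hbad i' (by omega)
    · obtain rfl : i' = i + 1 := by omega
      exact hM1' x (by omega)

/-- The outermost point of a sphere. -/
lemma multi_out (hd : 1 ≤ d) (a : V d) (ρ : ℕ) :
    ∃ z ∈ sph a ρ, nd 0 a + ρ ≤ nd 0 z := by
  obtain ⟨k, hk⟩ := exists_nd_eq hd 0 a
  simp only [Pi.zero_apply, sub_zero] at hk
  obtain ⟨c, hc1, hc2⟩ : ∃ c : ℤ, |c| = ρ ∧ |a k + c| = |a k| + ρ := by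
    rcases le_total 0 (a k) with h | h
    · exact ⟨ρ, by simp, by rw [abs_of_nonneg h, abs_of_nonneg (by positivity)]⟩
    · refine ⟨-ρ, by simp, ?_⟩
      rw [abs_of_nonpos h, abs_of_nonpos (by omega)]
      ring
  refine ⟨Function.update a k (a k + c), mem_sph.2 (le_antisymm ?_ ?_), ?_⟩
  · refine mem_box_nd.1 (mem_box.2 fun j => ?_)
    by_cases hj : j = k
    · subst hj
      simp [hc1]
    · simp [Function.update_of_ne hj]
  · have := abs_le_nd a (Function.update a k (a k + c)) k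
    simp only [Function.update_self, add_sub_cancel_left, hc1] at this
    exact_mod_cast this
  · have := abs_le_nd 0 (Function.update a k (a k + c)) k
    simp only [Function.update_self, Pi.zero_apply, sub_zero, hc2, hk] at this
    exact_mod_cast this

/-- Many fully good points. -/
theorem many_good (hd : 2 ≤ d) {G : Set (E d)} {C : Set (V d)} (hw : Wf G C) {u : V d → ℝ}
    {R0 : ℕ} (hu : HarmOff G R0 u) {t : ℝ} {L A j : ℕ} (hL : 1 ≤ L) (hA : 16 ≤ A)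
    {Bad : ℕ → V d → Prop}
    (hB : ∀ i z, ¬ Bad (i + 1) z → (∃ y ∈ C, y ∈ box z (10 * sc L A (i + 1))) →
      ∃ y ∈ C, y ∈ box z (sc L A i - 1))
    {a : V d} (ha : a ∈ C) (hat : t < u a) (hfar : ∀ y ∈ C, t < u y → nd 0 y ≤ nd 0 a)
    (h1 : sc L A j ^ 2 ≤ nd 0 a) (h2 : nd 0 a ≤ sc L A (j + 1) ^ 2) (h3 : 100 + R0 ≤ sc L A j)
    (h4 : ∀ z ∈ box (0 : V d) (3 * sc L A (j + 1) ^ 2), ¬ MB L A Bad j z ∧ ∀ i > j, ¬ Bad i z) :
    ∃ X : Finset (V d), sc L A j ≤ 80 * X.card ∧ ∀ x ∈ X,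
      x ∈ box (0 : V d) (3 * sc L A (j + 1) ^ 2) ∧ Two C {y | t < u y} x L ∧ (∀ i, ¬ Bad i x) ∧
        R0 + sc L A j + 1 < nd 0 x := by
  have hle := multi_sc_le L hA j
  have hpos := multi_sc_pos hL hA j
  have hQ1 : 100 * sc L A j ≤ sc L A j ^ 2 := by
    rw [sq]
    exact Nat.mul_le_mul_right _ (by omega)
  have hQ2 : sc L A j ^ 2 ≤ sc L A (j + 1) ^ 2 := Nat.pow_le_pow_left (by omega) 2
  have key : ∀ m : ℕ, ∃ x : V d, 1 ≤ m → 40 * m ≤ sc L A j →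
      (x ∈ box (0 : V d) (3 * sc L A (j + 1) ^ 2) ∧ Two C {y | t < u y} x L ∧
        (∀ i, ¬ Bad i x) ∧ R0 + sc L A j + 1 < nd 0 x) ∧
      30 * (sc L A j * m) ≤ nd a x + 9 * sc L A j ∧
        nd a x ≤ 30 * (sc L A j * m) + 9 * sc L A j := by
    intro m
    by_cases hm : 1 ≤ m ∧ 40 * m ≤ sc L A j
    swap
    · exact ⟨0, fun h h' => absurd ⟨h, h'⟩ hm⟩
    obtain ⟨hm1, hm2⟩ := hm
    have hq1 : sc L A j ≤ sc L A j * m := Nat.le_mul_of_pos_right _ hm1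
    have hq2 : 40 * (sc L A j * m) ≤ sc L A j ^ 2 := by
      have := Nat.mul_le_mul_left (sc L A j) hm2
      rw [sq]
      linarith
    set q := sc L A j * m with hq
    have hin : ∀ x, nd a x ≤ 30 * q + 9 * sc L A j →
        x ∈ box (0 : V d) (3 * sc L A (j + 1) ^ 2) := by
      intro x hx
      have := nd_triangle 0 a x
      exact mem_box_nd.2 (by omega)
    obtain ⟨w1, hw1C, hw1S, hw1⟩ := arm_of_upper (S := {y | t < u y}) (z := a) (ρ := 30 * q) hw hu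
      (fun a ha b hb => lt_of_le_of_lt (not_lt.1 hb) ha) ha hat (by rw [nd_self]; omega)
      (by omega)
    obtain ⟨z2, hz2, hz2'⟩ := multi_out (by omega : 1 ≤ d) a (30 * q)
    obtain ⟨b, hb, hTb⟩ := multi_shell (C := C) (S := {y | t < u y}) hd hpos
      (fun b hb => multi_hB hA hB
        ((h4 b (hin b (by have := mem_sph.1 hb; omega))).2 (j + 1) (by omega)))
      (mem_sph.2 hw1) hw1C hw1S hz2 (by
        rintro ⟨y, hy, hyC, hyS⟩
        have h5 := hfar y hyC hyS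
        have h6 := mem_box_nd.1 hy
        have h7 := nd_triangle 0 y z2
        rw [nd_comm y z2] at h7
        omega)
    have hb' := mem_sph.1 hb
    have h5 := nd_triangle 0 b a
    rw [nd_comm b a] at h5
    obtain ⟨x, hx, hTx, hbad⟩ := multi_rec hd hw hu hL hA hB j b hTb
      (h4 b (hin b (by omega))).1 (by omega)
    have hx' := mem_box_nd.1 hx
    have h6 := nd_triangle a b x
    have h7 := nd_triangle a x b
    have h8 := nd_triangle 0 x b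
    rw [nd_comm x b] at h7 h8
    have hxin := hin x (by omega)
    refine ⟨x, fun _ _ => ⟨⟨hxin, hTx, fun i => ?_, by omega⟩, by omega, by omega⟩⟩
    rcases Nat.lt_or_ge j i with h9 | h9
    · exact (h4 x hxin).2 i h9
    · exact hbad i h9
  choose x hx using key
  have hmem : ∀ m ∈ Icc 1 (sc L A j / 40), 1 ≤ m ∧ 40 * m ≤ sc L A j := fun m hm => by
    have := mem_Icc.1 hm
    omega
  refine ⟨(Icc 1 (sc L A j / 40)).image x, ?_, ?_⟩
  · rw [card_image_of_injOn, Nat.card_Icc]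
    · omega
    · have aux : ∀ m ∈ Icc 1 (sc L A j / 40), ∀ m' ∈ Icc 1 (sc L A j / 40), x m = x m' →
          ¬ m < m' := by
        intro m hm m' hm' he hlt
        have e1 := (hx m (hmem m hm).1 (hmem m hm).2).2.2
        have e2 := (hx m' (hmem m' hm').1 (hmem m' hm').2).2.1
        have e3 : sc L A j * (m + 1) ≤ sc L A j * m' := Nat.mul_le_mul_left _ hlt
        rw [Nat.mul_succ] at e3
        rw [he] at e1
        omega
      intro m hm m' hm' he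
      have e1 := aux m hm m' hm' he
      have e2 := aux m' hm' m hm he.symm
      omega
  · intro y hy
    obtain ⟨m, hm, rfl⟩ := mem_image.1 hy
    exact (hx m (hmem m hm).1 (hmem m hm).2).1

end Pool.Agent.P.MP_b4265e_pr.R
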