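import Pool.Agent.P.MP_b4265e_pr.R.PShift

/-!
The multiscale bad events are rare.
-/

namespace Pool.Agent.P.MP_b4265e_pr.R

open Finset MeasureTheory ProbabilityTheory Filter
open scoped Classical

lemma MultiP_sc_succ (L A j : ℕ) : sc L A (j + 1) = A * sc L A j := by
  unfold sc; ring

lemma MultiP_le_sc {A : ℕ} (hA : 16 ≤ A) (L j : ℕ) : L * 2 ^ j ≤ sc L A j :=
  Nat.mul_le_mul_left _ (Nat.pow_le_pow_left (by omega) _)

lemma MultiP_dep {d L A : ℕ} (hA : 16 ≤ A) {Bad : ℕ → V d → Set (E d) → Prop}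
    (h : ∀ j x, Dep (boxE x (20 * sc L A j)) (Bad j x)) (j : ℕ) : ∀ z : V d,
    Dep (boxE z (29 * sc L A j)) fun O => MB L A (fun i x => Bad i x O) j z := by
  induction j with
  | zero => exact fun z => (h 0 z).mono (boxE_mono z (by omega))
  | succ j ih =>
    intro z O O' hO
    have hs : 16 * sc L A j ≤ sc L A (j + 1) := by
      rw [MultiP_sc_succ]; exact Nat.mul_le_mul_right _ hA
    have k : ∀ ρ, ρ ≤ 7 * sc L A (j + 1) → ∀ z' ∈ sph z ρ,
        (MB L A (fun i x => Bad i x O) j z' ↔ MB L A (fun i x => Bad i x O') j z') :=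
      fun ρ hρ z' hz' => (ih z' O O' (hO.mono (boxE_subset (by
        rw [mem_sph.1 hz']; omega)))).to_iff
    simp only [MB]
    refine propext (or_congr (exists_congr fun x => and_congr_right fun hx => ?_)
      (and_congr (exists_congr fun x => and_congr_right (k _ (by omega) x))
        (exists_congr fun x => and_congr_right (k _ le_rfl x))))
    exact (h (j + 1) x O O' (hO.mono (boxE_subset (by
      have := mem_box_nd.1 hx; omega)))).to_iff

lemma MultiP_card {d : ℕ} (z : V d) {c s : ℕ} (hs : 1 ≤ s) :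
    ((box z (c * s)).card : ℝ) ≤ (2 * c + 1 : ℝ) ^ d * (s : ℝ) ^ d := by
  rw [card_box, ← mul_pow]
  push_cast
  have : (1 : ℝ) ≤ s := by exact_mod_cast hs
  exact pow_le_pow_left₀ (by positivity) (by nlinarith) _

lemma MultiP_prob {d L A : ℕ} (hA : 16 ≤ A) (hL : 2 * 105 ^ d * A ^ (4 * d + 4) ≤ L)
    {p : unitInterval} {Bad : ℕ → V d → Set (E d) → Prop}
    (h : ∀ j x, Dep (boxE x (20 * sc L A j)) (Bad j x))
    (hp : ∀ j x, (μP d p).real {O | Bad j x O} ≤ 1 / (sc L A j : ℝ) ^ (3 * d + 3)) (j : ℕ) :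
    ∀ z : V d, (μP d p).real {O | MB L A (fun i x => Bad i x O) j z}
      ≤ 1 / (sc L A j : ℝ) ^ (2 * d + 2) := by
  have hA1 : 1 ≤ A ^ (4 * d + 4) := Nat.one_le_pow _ _ (by omega)
  have h105 : 1 ≤ 105 ^ d := Nat.one_le_pow _ _ (by omega)
  have hL1 : 1 ≤ L := le_trans (by nlinarith) hL
  have hsL : ∀ j, L ≤ sc L A j := fun j =>
    le_trans (Nat.le_mul_of_pos_right _ (by positivity)) (MultiP_le_sc hA L j)
  induction j with
  | zero =>
    intro z
    have : (1 : ℝ) ≤ sc L A 0 := by exact_mod_cast hL1.trans (hsL 0)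
    exact (hp 0 z).trans (one_div_le_one_div_of_le (by positivity)
      (pow_le_pow_right₀ this (by omega)))
  | succ j ih =>
    intro z
    have hs : 16 * sc L A j ≤ sc L A (j + 1) := by
      rw [MultiP_sc_succ]; exact Nat.mul_le_mul_right _ hA
    have hs1 := hL1.trans (hsL j)
    have hs2 := hL1.trans (hsL (j + 1))
    set s : ℝ := (sc L A j : ℝ) with hsd
    set s' : ℝ := (sc L A (j + 1) : ℝ) with hsd'
    have e : s' = A * s := by rw [hsd, hsd', MultiP_sc_succ]; push_cast; ring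
    have r1 : (1 : ℝ) ≤ s := by rw [hsd]; exact_mod_cast hs1
    have r2 : (1 : ℝ) ≤ s' := by rw [hsd']; exact_mod_cast hs2
    have r3 : 2 * 105 ^ d * (A : ℝ) ^ (4 * d + 4) ≤ s' := by
      rw [hsd']; exact_mod_cast hL.trans (hsL (j + 1))
    have r4 : (1 : ℝ) ≤ (A : ℝ) ^ (4 * d + 4) := by exact_mod_cast hA1
    have hsub : {O | MB L A (fun i x => Bad i x O) (j + 1) z} ⊆
        (⋃ x ∈ box z (9 * sc L A (j + 1)), {O | Bad (j + 1) x O}) ∪
        ⋃ q ∈ sph z (3 * sc L A (j + 1)) ×ˢ sph z (7 * sc L A (j + 1)),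
          {O | MB L A (fun i x => Bad i x O) j q.1 ∧ MB L A (fun i x => Bad i x O) j q.2} := by
      rintro O (⟨x, h1, h2⟩ | ⟨⟨x, h1, h2⟩, y, h3, h4⟩)
      · exact Or.inl (Set.mem_biUnion h1 h2)
      · exact Or.inr (Set.mem_biUnion (mem_coe.2 (mem_product.2 (⟨h1, h3⟩ : (x, y).1 ∈ _ ∧ _)))
          ⟨h2, h4⟩)
    have b1 : (μP d p).real (⋃ x ∈ box z (9 * sc L A (j + 1)), {O | Bad (j + 1) x O})
        ≤ 1 / 2 * (1 / s' ^ (2 * d + 2)) := by
      refine (measureReal_biUnion_finset_le _ _).trans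
        ((sum_le_card_nsmul _ _ _ fun x _ => hp (j + 1) x).trans ?_)
      rw [nsmul_eq_mul]
      refine (mul_le_mul_of_nonneg_right (MultiP_card z hs2) (by positivity)).trans ?_
      rw [← hsd', mul_one_div, one_div_mul_one_div, div_le_div_iff₀ (by positivity) (by positivity)]
      have t1 : (2 * (9 : ℕ) + 1 : ℝ) ^ d ≤ 105 ^ d := pow_le_pow_left₀ (by positivity) (by norm_num) _
      have t2 : 2 * (2 * (9 : ℕ) + 1 : ℝ) ^ d ≤ s' := by
        have : (0 : ℝ) ≤ 105 ^ d := by positivity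
        nlinarith
      calc (2 * (9 : ℕ) + 1 : ℝ) ^ d * s' ^ d * (2 * s' ^ (2 * d + 2))
          = 2 * (2 * (9 : ℕ) + 1 : ℝ) ^ d * s' ^ (3 * d + 2) := by ring
        _ ≤ s' * s' ^ (3 * d + 2) := mul_le_mul_of_nonneg_right t2 (by positivity)
        _ = 1 * s' ^ (3 * d + 3) := by ring
    have b2 : (μP d p).real (⋃ q ∈ sph z (3 * sc L A (j + 1)) ×ˢ sph z (7 * sc L A (j + 1)),
        {O | MB L A (fun i x => Bad i x O) j q.1 ∧ MB L A (fun i x => Bad i x O) j q.2})
        ≤ 1 / 2 * (1 / s' ^ (2 * d + 2)) := by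
      refine (measureReal_biUnion_finset_le _ _).trans
        ((sum_le_card_nsmul _ _ (1 / s ^ (2 * d + 2) * (1 / s ^ (2 * d + 2))) fun q hq => ?_).trans ?_)
      · rw [(MultiP_dep hA h j q.1).real_inter (MultiP_dep hA h j q.2) (disjoint_boxE ?_)]
        · exact mul_le_mul (ih _) (ih _) measureReal_nonneg (by positivity)
        · have t1 := mem_sph.1 (mem_product.1 hq).1
          have t2 := mem_sph.1 (mem_product.1 hq).2
          have t3 := nd_triangle z q.1 q.2
          omega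
      rw [nsmul_eq_mul, card_product]
      push_cast
      have c1 : ((sph z (3 * sc L A (j + 1))).card : ℝ) ≤ (2 * (3 : ℕ) + 1 : ℝ) ^ d * s' ^ d :=
        le_trans (by exact_mod_cast card_filter_le _ _) (MultiP_card z hs2)
      have c2 : ((sph z (7 * sc L A (j + 1))).card : ℝ) ≤ (2 * (7 : ℕ) + 1 : ℝ) ^ d * s' ^ d :=
        le_trans (by exact_mod_cast card_filter_le _ _) (MultiP_card z hs2)
      refine (mul_le_mul_of_nonneg_right (mul_le_mul c1 c2 (by positivity) (by positivity))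
        (by positivity)).trans ?_
      rw [one_div_mul_one_div, mul_one_div, one_div_mul_one_div,
        div_le_div_iff₀ (by positivity) (by positivity)]
      have hA0 : (0 : ℝ) < (A : ℝ) ^ (4 * d + 4) := by linarith
      refine le_of_mul_le_mul_left ?_ hA0
      have t1 : (2 * (3 : ℕ) + 1 : ℝ) ^ d * (2 * (7 : ℕ) + 1 : ℝ) ^ d = 105 ^ d := by
        rw [← mul_pow]; norm_num
      calc (A : ℝ) ^ (4 * d + 4) * ((2 * (3 : ℕ) + 1 : ℝ) ^ d * s' ^ d *
            ((2 * (7 : ℕ) + 1 : ℝ) ^ d * s' ^ d) * (2 * s' ^ (2 * d + 2)))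
          = 2 * ((2 * (3 : ℕ) + 1 : ℝ) ^ d * (2 * (7 : ℕ) + 1 : ℝ) ^ d) * (A : ℝ) ^ (4 * d + 4)
            * s' ^ (4 * d + 2) := by ring
        _ ≤ s' * s' ^ (4 * d + 2) := by
          rw [t1]; exact mul_le_mul_of_nonneg_right r3 (by positivity)
        _ ≤ s' ^ (4 * d + 4) := by
          rw [← pow_succ']; exact pow_le_pow_right₀ r2 (by omega)
        _ = (A : ℝ) ^ (4 * d + 4) * (1 * (s ^ (2 * d + 2) * s ^ (2 * d + 2))) := by
          rw [e]; ring
    refine (measureReal_mono hsub).trans ((measureReal_union_le _ _).trans ?_)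
    linarith

/-- The multiscale bad events are eventually absent. -/
theorem multi_prob (d : ℕ) {A : ℕ} (hA : 16 ≤ A) : ∃ L0 : ℕ, ∀ L ≥ L0,
    ∀ (p : unitInterval) (Bad : ℕ → V d → Set (E d) → Prop),
    (∀ j x, Dep (boxE x (20 * sc L A j)) (Bad j x)) →
    (∀ j x, (μP d p).real {O | Bad j x O} ≤ 1 / (sc L A j : ℝ) ^ (3 * d + 3)) →
    ∀ᵐ O ∂μP d p, ∀ᶠ j in atTop, ∀ z ∈ box (0 : V d) (3 * sc L A (j + 1) ^ 2),
      ¬ MB L A (fun i x => Bad i x O) j z ∧ ∀ i > j, ¬ Bad i z O := by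
  refine ⟨2 * 105 ^ d * A ^ (4 * d + 4), fun L hL p Bad h hp => ?_⟩
  have hA1 : 1 ≤ A ^ (4 * d + 4) := Nat.one_le_pow _ _ (by omega)
  have h105 : 1 ≤ 105 ^ d := Nat.one_le_pow _ _ (by omega)
  have hL1 : 1 ≤ L := le_trans (by nlinarith) hL
  have h2 : ∀ j, 2 ^ j ≤ sc L A j := fun j =>
    le_trans (Nat.le_mul_of_pos_left _ hL1) (MultiP_le_sc hA L j)
  have := ae_eventually_of_summable (μ := μP d p)
    (s := fun j => ⋃ z ∈ box (0 : V d) (3 * sc L A (j + 1) ^ 2),
      ({O | MB L A (fun i x => Bad i x O) j z} ∪ ⋃ n : ℕ, {O | Bad (j + 1 + n) z O}))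
    (summable_geometric_two.mul_left (3 * (7 * (A : ℝ) ^ 2) ^ d)) fun j => by
      have hs1 : 1 ≤ sc L A j := (Nat.one_le_pow _ _ two_pos).trans (h2 j)
      set s : ℝ := (sc L A j : ℝ) with hsd
      have r1 : (1 : ℝ) ≤ s := by rw [hsd]; exact_mod_cast hs1
      have r2 : (2 : ℝ) ^ j ≤ s := by rw [hsd]; exact_mod_cast h2 j
      refine (measureReal_biUnion_finset_le _ _).trans
        ((sum_le_card_nsmul _ _ (3 * (1 / s ^ (2 * d + 2))) fun z _ => ?_).trans ?_)
      · refine (measureReal_union_le _ _).trans ?_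
        have b1 := MultiP_prob hA hL h hp j z
        have b2 := real_iUnion_le (μ := μP d p) (s := fun n : ℕ => {O | Bad (j + 1 + n) z O})
          (summable_geometric_two.mul_left (1 / s ^ (2 * d + 2))) fun n => by
            refine (hp _ z).trans ?_
            rw [one_div_pow, one_div_mul_one_div]
            refine one_div_le_one_div_of_le (by positivity) ?_
            have t1 : sc L A j ≤ sc L A (j + 1 + n) :=
              Nat.mul_le_mul_left _ (Nat.pow_le_pow_right (by omega) (by omega))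
            have t2 : 2 ^ n ≤ sc L A (j + 1 + n) :=
              (Nat.pow_le_pow_right two_pos (by omega)).trans (h2 _)
            have t3 : sc L A j ^ (2 * d + 2) * 2 ^ n ≤ sc L A (j + 1 + n) ^ (3 * d + 3) := by
              refine (Nat.mul_le_mul (Nat.pow_le_pow_left t1 _) t2).trans ?_
              rw [← pow_succ]
              exact Nat.pow_le_pow_right (hs1.trans t1) (by omega)
            rw [hsd]
            exact_mod_cast t3
        rw [tsum_mul_left, tsum_geometric_two] at b2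
        linarith
      · rw [nsmul_eq_mul]
        have c1 := MultiP_card (d := d) 0 (c := 3) (s := sc L A (j + 1) ^ 2)
          (Nat.one_le_pow _ _ ((Nat.one_le_pow _ _ two_pos).trans (h2 (j + 1))))
        refine (mul_le_mul_of_nonneg_right c1 (by positivity)).trans ?_
        rw [MultiP_sc_succ]
        push_cast
        rw [← hsd, one_div_pow]
        have t1 : 1 / s ^ 2 ≤ 1 / 2 ^ j :=
          one_div_le_one_div_of_le (by positivity) (by nlinarith)
        calc (2 * 3 + 1 : ℝ) ^ d * ((A * s) ^ 2) ^ d * (3 * (1 / s ^ (2 * d + 2)))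
            = 3 * (7 * (A : ℝ) ^ 2) ^ d * (1 / s ^ 2) := by
              rw [show (2 * 3 + 1 : ℝ) = 7 by norm_num]
              field_simp
              ring
          _ ≤ _ := mul_le_mul_of_nonneg_left t1 (by positivity)
  filter_upwards [this] with O hO
  filter_upwards [hO] with j hj z hz
  refine ⟨fun hc => hj (Set.mem_biUnion hz (Or.inl hc)), fun i hi hc => hj (Set.mem_biUnion hz
    (Or.inr (Set.mem_iUnion.2 ⟨i - (j + 1), ?_⟩)))⟩
  rw [show j + 1 + (i - (j + 1)) = i by omega]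
  exact hc

end Pool.Agent.P.MP_b4265e_pr.R
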