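import Pool.Agent.P.MP_b4265e_pr.R.Chg

/-!
Harmonic functions that vary along few edges are almost constant.
-/

namespace Pool.Agent.P.MP_b4265e_pr.R

open Finset
open scoped Classical

lemma near_sqrt_card {d : ℕ} (C : Set (V d)) (z : V d) {r s : ℕ} (h : r ≤ s) :
    √((cap C (box z r)).card) ≤ √(vol d s) := by
  refine Real.sqrt_le_sqrt (le_trans ?_ (vol_mono d h))
  rw [← card_box_vol z]
  exact_mod_cast card_le_card (cap_subset _ _)

/-- On a good box a harmonic function that varies along few edges is almost constant. -/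
theorem near_const (d : ℕ) {θ K : ℝ} (hθ : 0 < θ) (hK : 0 < K) {β : ℝ} (hβ : 0 < β) :
    ∃ δ0 ε0 : ℝ, 0 < δ0 ∧ 0 < ε0 ∧ ∀ {δ : ℝ} {G : Set (E d)} {C : Set (V d)} {z : V d} {s : ℕ},
    δ ≤ δ0 → 16 ≤ s → G ⊆ ins C → HGood θ K δ G C z s → ∀ u : V d → ℝ, Harm G z (3 * s) u →
    (((cap G (boxE z (2 * s))).filter fun e => grad u e ≠ 0).card : ℝ) ≤ ε0 * vol d s →
    ∃ c : ℝ, l2 (cap C (box z (s / 4))) (fun y => u y - c) ≤ β * l2 (cap C (box z (3 * s))) u := by
  set Q := K + 2 / θ with hQ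
  have Q0 : 0 < Q := by positivity
  set t := min 1 (β ^ 2 / (4 * (1 + Q))) with ht
  have t0 : 0 < t := by positivity
  have t1 : t ≤ 1 := min_le_left _ _
  have t2 : t * (4 * (1 + Q)) ≤ β ^ 2 := (le_div_iff₀ (by positivity)).1 (min_le_right _ _)
  have d0 : 0 ≤ √(d : ℝ) := Real.sqrt_nonneg _
  refine ⟨t, (t / (2 * K * (√d + 1))) ^ 2, t0, by positivity,
    fun {δ G C z s} hδ hs hG hg u hu hε => ?_⟩
  have hs' : (16 : ℝ) ≤ s := by exact_mod_cast hs
  set l := l2 (cap C (box z (3 * s))) u with hl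
  have l0 : 0 ≤ l := l2_nonneg _ _
  set ρ := √(vol d s) with hρ
  have ρ0 : 0 < ρ := Real.sqrt_pos.2 (vol_pos _ _)
  have ρ2 : ρ * ρ = vol d s := Real.mul_self_sqrt (vol_pos _ _).le
  have e1 : s * en G z (2 * s) u ≤ 2 * √d * l := by
    have a := cacc_box hG (r := 2 * s) (by omega) hu
    push_cast at a
    refine (mul_le_mul_of_nonneg_left a (by positivity)).trans ?_
    rw [← mul_assoc]
    refine mul_le_mul_of_nonneg_right ?_ l0
    rw [← mul_div_assoc, div_le_iff₀ (by linarith)]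
    linarith [mul_nonneg d0 (show (0 : ℝ) ≤ s - 2 by linarith)]
  obtain ⟨c, hc⟩ := hg.poin1 u
  have e2 : ∑ e ∈ cap G (boxE z (2 * s)), |grad u e| ≤
      t / (2 * K * (√d + 1)) * ρ * en G z (2 * s) u := by
    rw [← sum_filter_of_ne (p := fun e => grad u e ≠ 0) fun e _ he => abs_ne_zero.1 he]
    refine (sum_abs_le_l2 _ _).trans (mul_le_mul ?_ (l2_mono (filter_subset _ _) _)
      (l2_nonneg _ _) (by positivity))
    refine (Real.sqrt_le_sqrt hε).trans (le_of_eq ?_)
    rw [Real.sqrt_mul (sq_nonneg _), Real.sqrt_sq (by positivity)]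
  have e3 : ∑ y ∈ cap C (box z s), |u y - c| ≤ t * ρ * l := by
    refine hc.trans ((mul_le_mul_of_nonneg_left e2 (by positivity)).trans ?_)
    calc _ = K * (t / (2 * K * (√d + 1)) * ρ) * (s * en G z (2 * s) u) := by ring
      _ ≤ K * (t / (2 * K * (√d + 1)) * ρ) * (2 * (√d + 1) * l) :=
          mul_le_mul_of_nonneg_left (by linarith) (by positivity)
      _ = _ := by field_simp
  have ls : l2 (cap C (box z s)) u ≤ l := l2_mono (cap_mono C (box_mono z (by omega))) u
  have ns : nrm C z s u ≤ l / ρ := div_le_div_of_nonneg_right ls ρ0.le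
  have e4 : |c| ≤ 2 / θ * (l / ρ) := by
    have a := hg.dens z (mem_box_self _ _) s
      (mul_le_of_le_one_left (by linarith) (hδ.trans t1)) le_rfl
    have b : ((cap C (box z s)).card : ℝ) * |c| ≤
        ∑ y ∈ cap C (box z s), |u y - c| + ∑ y ∈ cap C (box z s), |u y| := by
      rw [← sum_add_distrib, ← nsmul_eq_mul]
      refine card_nsmul_le_sum _ _ _ fun y _ => ?_
      linarith [abs_sub_abs_le_abs_sub c (u y), abs_sub_comm c (u y)]
    have b' := (sum_abs_le_l2 (cap C (box z s)) u).trans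
      (mul_le_mul (near_sqrt_card C z le_rfl) ls (l2_nonneg _ _) ρ0.le)
    have b'' := mul_le_mul_of_nonneg_right a (abs_nonneg c)
    have b3 : t * ρ * l ≤ ρ * l := by
      rw [mul_assoc]
      exact mul_le_of_le_one_left (by positivity) t1
    rw [div_mul_div_comm, le_div_iff₀ (by positivity)]
    refine le_of_mul_le_mul_left ?_ ρ0
    rw [← ρ2] at b''
    linarith
  obtain ⟨H, -, H1, H2⟩ := hg.appr u (hu.mono (box_mono z (by omega)))
  have e5 : l2 (cap C (box z (s / 4))) (fun y => u y - H y) ≤ t * l := by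
    refine (l2_mono (cap_mono C (box_mono z (show s / 4 ≤ s / 2 by omega))) _).trans ?_
    rw [l2_eq_nrm]
    have a : nrm C z (s / 2) (fun y => u y - H y) ≤ t * (l / ρ) :=
      H1.trans (mul_le_mul hδ ns (nrm_nonneg _ _ _ _) t0.le)
    refine (mul_le_mul (Real.sqrt_le_sqrt (vol_mono d (show s / 2 ≤ s by omega))) a
      (nrm_nonneg _ _ _ _) ρ0.le).trans (le_of_eq ?_)
    rw [← hρ]
    field_simp
  have e6 : ∑ y ∈ cap C (box z (s / 4)), |u y - H y| ≤ ρ * (t * l) :=
    (sum_abs_le_l2 _ _).trans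
      (mul_le_mul (near_sqrt_card C z (by omega)) e5 (l2_nonneg _ _) ρ0.le)
  have e7 : ∑ y ∈ cap C (box z (s / 4)), |u y - c| ≤ t * ρ * l :=
    (sum_le_sum_of_subset_of_nonneg (cap_mono C (box_mono z (by omega)))
      fun _ _ _ => abs_nonneg _).trans e3
  have e8 : ∑ y ∈ cap C (box z (s / 4)), (u y - H y) ^ 2 ≤ t * l ^ 2 := by
    rw [← l2_sq]
    refine (pow_le_pow_left₀ (l2_nonneg _ _) e5 2).trans ?_
    rw [mul_pow]
    exact mul_le_mul_of_nonneg_right (pow_le_of_le_one t0.le t1 two_ne_zero) (sq_nonneg _)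
  refine ⟨c, l2_le_of_sq_le (by positivity) ?_⟩
  have M0 : 0 ≤ Q * (l / ρ) := by positivity
  calc _ ≤ ∑ y ∈ cap C (box z (s / 4)),
        (2 * (u y - H y) ^ 2 + 2 * (Q * (l / ρ)) * (|u y - H y| + |u y - c|)) := by
        refine sum_le_sum fun y hy => ?_
        have a : |H y - c| ≤ Q * (l / ρ) := by
          have := (H2 y (mem_cap.1 hy).1).trans (mul_le_mul_of_nonneg_left ns hK.le)
          rw [hQ, add_mul]
          exact (abs_sub _ _).trans (add_le_add this e4)
        have b : |H y - c| ≤ |u y - H y| + |u y - c| := by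
          rw [abs_sub_comm (u y) (H y)]
          exact abs_sub_le _ _ _
        have := mul_le_mul a b (abs_nonneg _) M0
        rw [abs_mul_abs_self] at this
        linarith [sq_nonneg (u y - H y - (H y - c))]
    _ ≤ 2 * (t * l ^ 2) + 2 * (Q * (l / ρ)) * (ρ * (t * l) + t * ρ * l) := by
        rw [sum_add_distrib, ← mul_sum, ← mul_sum, sum_add_distrib]
        exact add_le_add (mul_le_mul_of_nonneg_left e8 zero_le_two)
          (mul_le_mul_of_nonneg_left (add_le_add e6 e7) (mul_nonneg zero_le_two M0))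
    _ = t * (2 + 4 * Q) * l ^ 2 := by field_simp; ring
    _ ≤ β ^ 2 * l ^ 2 := mul_le_mul_of_nonneg_right (by linarith) (sq_nonneg _)
    _ = _ := by ring

end Pool.Agent.P.MP_b4265e_pr.R
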