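import Pool.Agent.P.MP_b4265e_pr.R.Geo

/-!
Paths, the co-area inequality, chains in annuli.
-/

namespace Pool.Agent.P.MP_b4265e_pr.R

open Finset
open scoped Classical

variable {d : ℕ}

lemma path_adj_mem {G : Set (E d)} {C : Set (V d)} (hG : G ⊆ ins C) {a b : V d}
    (h : adj G a b) : a ∈ C ∧ b ∈ C := by
  obtain ⟨i, h | h⟩ := h
  · have := hG h.2
    exact ⟨this.1, h.1 ▸ this.2⟩
  · have := hG h.2
    exact ⟨h.1 ▸ this.2, this.1⟩

lemma path_adj_inter {O : Set (E d)} {S : Set (V d)} {a b : V d} (h : adj O a b) (ha : a ∈ S)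
    (hb : b ∈ S) : adj (O ∩ ins S) a b := by
  obtain ⟨i, h | h⟩ := h
  · exact ⟨i, Or.inl ⟨h.1, h.2, ha, h.1 ▸ hb⟩⟩
  · exact ⟨i, Or.inr ⟨h.1, h.2, hb, h.1 ▸ ha⟩⟩

lemma mem_of_comp {G : Set (E d)} {C : Set (V d)} (hG : G ⊆ ins C) {y z : V d} (hy : y ∈ C)
    (hz : z ∈ comp G y) : z ∈ C := by
  induction hz with
  | refl => exact hy
  | tail _ hbc _ => exact (path_adj_mem hG hbc).2

lemma mem_of_comp_ne {G : Set (E d)} {C : Set (V d)} (hG : G ⊆ ins C) {y z : V d}
    (hz : z ∈ comp G y) (hne : z ≠ y) : y ∈ C := by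
  rcases Relation.ReflTransGen.cases_head hz with h | ⟨c, h, _⟩
  · exact absurd h.symm hne
  · exact (path_adj_mem hG h).1

/-- A path from `S` to the complement of `S` crosses the boundary of `S`. -/
lemma exists_bd_of_comp {O : Set (E d)} {S : Set (V d)} {y z : V d} (hz : z ∈ comp O y)
    (hy : y ∈ S) (hzS : z ∉ S) :
    ∃ a b, a ∈ comp (O ∩ ins S) y ∧ a ∈ S ∧ b ∉ S ∧ adj O a b := by
  have key : ∀ w, Relation.ReflTransGen (adj O) y w → (w ∈ S ∧ w ∈ comp (O ∩ ins S) y) ∨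
      ∃ a b, a ∈ comp (O ∩ ins S) y ∧ a ∈ S ∧ b ∉ S ∧ adj O a b := by
    intro w hw
    induction hw with
    | refl => exact Or.inl ⟨hy, mem_comp_self _ _⟩
    | @tail b c _ hbc ih =>
      rcases ih with ⟨h1, h2⟩ | h
      · by_cases hc : c ∈ S
        · exact Or.inl ⟨hc, comp_adj h2 (path_adj_inter hbc h1 hc)⟩
        · exact Or.inr ⟨b, c, h2, h1, hc, hbc⟩
      · exact Or.inr h
  rcases key z hz with h | h
  · exact absurd h.1 hzS
  · exact h

lemma path_ins_mono {A B : Set (V d)} (h : A ⊆ B) : ins A ⊆ ins B :=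
  fun _ ha => ⟨h ha.1, h ha.2⟩

/-- First exit from a box. -/
lemma arm_of_far {O : Set (E d)} {z y w : V d} {r : ℕ} (hy : y ∈ box z r) (hw : w ∈ comp O y)
    (hw' : w ∉ box z r) : Arm O z r y := by
  obtain ⟨a, b, h1, h2, h3, h4⟩ := exists_bd_of_comp (S := (box z r : Set (V d))) hw hy hw'
  have hsub : (box z r : Set (V d)) ⊆ (box z (r + 1) : Set (V d)) :=
    coe_subset.2 (box_mono z (Nat.le_succ r))
  refine ⟨b, h3, comp_adj (comp_mono (Set.inter_subset_inter_right _ (path_ins_mono hsub)) y h1)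
    (path_adj_inter h4 (hsub h2) ?_)⟩
  have ha : nd z a ≤ r := mem_box_nd.1 h2
  have hb := nd_triangle z a b
  rw [nd_of_adj h4] at hb
  exact mem_coe.2 (mem_box_nd.2 (by omega))

lemma loc_of_far {O : Set (E d)} {y w : V d} {t : ℕ} (hw : w ∈ comp O y) (hw' : w ∉ box y t) :
    Loc O t y := arm_of_far (mem_box_self y t) hw hw'

lemma loc_of_mem_Cl {O : Set (E d)} {y : V d} (hy : y ∈ Cl O) (t : ℕ) : Loc O t y := by
  obtain ⟨w, h1, h2⟩ := Set.Infinite.exists_notMem_finset hy (box y t)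
  exact loc_of_far h1 h2

lemma Loc.anti {O : Set (E d)} {y : V d} {t t' : ℕ} (h : t ≤ t') (hy : Loc O t' y) :
    Loc O t y := by
  obtain ⟨w, h1, h2⟩ := hy
  exact loc_of_far (comp_mono Set.inter_subset_left y h2) fun hw => h1 (box_mono y h hw)

/-- A path passes through every intermediate sphere. -/
lemma exists_sph_of_comp {O : Set (E d)} {z y w : V d} {ρ : ℕ} (hw : w ∈ comp O y)
    (hy : nd z y ≤ ρ) (hw' : ρ ≤ nd z w) : ∃ a ∈ comp O y, nd z a = ρ := by
  by_cases h : nd z y = ρ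
  · exact ⟨y, mem_comp_self _ _, h⟩
  obtain ⟨a, b, h1, h2, h3, h4⟩ := exists_bd_of_comp (S := {a | nd z a < ρ}) hw
    (show nd z y < ρ by omega) (show ¬ nd z w < ρ by omega)
  have h2' : nd z a < ρ := h2
  have h3' : ¬ nd z b < ρ := h3
  have hb := nd_triangle z a b
  rw [nd_of_adj h4] at hb
  exact ⟨b, comp_adj (comp_mono Set.inter_subset_left y h1) h4, by omega⟩

open MeasureTheory in
/-- Points of an interval covered many times by a finite family of intervals. -/
lemma coarea {ι : Type*} (I : Finset ι) (a b : ι → ℝ) {α β N : ℝ} (hαβ : α ≤ β)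
    (h : ∀ τ, α < τ → τ < β →
      N ≤ ((I.filter fun i => min (a i) (b i) ≤ τ ∧ τ < max (a i) (b i)).card : ℝ)) :
    N * (β - α) ≤ ∑ i ∈ I, |b i - a i| := by
  set J : ι → Set ℝ := fun i => Set.Ico (min (a i) (b i)) (max (a i) (b i)) with hJ
  have hint : ∀ i, Integrable ((J i).indicator fun _ => (1 : ℝ)) := fun i =>
    (integrable_indicator_iff measurableSet_Ico).2 (integrableOn_const (by simp))
  have h1 : ∫ _ in Set.Ioo α β, N = N * (β - α) := by
    simp [Measure.real, ENNReal.toReal_ofReal (sub_nonneg.2 hαβ), mul_comm]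
  have h2 : ∫ _ in Set.Ioo α β, N ≤
      ∫ τ in Set.Ioo α β, ∑ i ∈ I, (J i).indicator (fun _ => (1 : ℝ)) τ := by
    refine setIntegral_mono_on (integrableOn_const (by simp))
      (integrable_finsetSum I fun i _ => hint i).integrableOn measurableSet_Ioo ?_
    intro τ hτ
    refine (h τ hτ.1 hτ.2).trans (le_of_eq ?_)
    rw [card_filter]
    push_cast
    refine sum_congr rfl fun i _ => ?_
    simp [hJ, Set.indicator_apply]
  have h3 : ∫ τ in Set.Ioo α β, ∑ i ∈ I, (J i).indicator (fun _ => (1 : ℝ)) τ ≤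
      ∫ τ, ∑ i ∈ I, (J i).indicator (fun _ => (1 : ℝ)) τ :=
    setIntegral_le_integral (integrable_finsetSum I fun i _ => hint i)
      (Filter.Eventually.of_forall fun τ => sum_nonneg fun i _ =>
        Set.indicator_nonneg (fun _ _ => zero_le_one) τ)
  rw [integral_finsetSum I fun i _ => hint i] at h3
  refine h1 ▸ (h2.trans (h3.trans (le_of_eq (sum_congr rfl fun i _ => ?_))))
  rw [integral_indicator measurableSet_Ico]
  simp only [integral_const, MeasurableSet.univ, Set.univ_inter,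
    smul_eq_mul, mul_one, Measure.real, Measure.restrict_apply, Real.volume_Ico]
  rw [ENNReal.toReal_ofReal (sub_nonneg.2 min_le_max), max_sub_min_eq_abs]

lemma path_sub_le_of_comp {O : Set (E d)} (T : Finset (E d)) (hT : O ⊆ T) {y z : V d}
    (hz : z ∈ comp O y) (v : V d → ℝ) (hv : v y ≤ v z) :
    v z - v y ≤ ∑ e ∈ cap O T, |grad v e| := by
  have := coarea (cap O T) (fun e => v e.1) (fun e => v (e.1 + ee e.2)) (N := 1) hv ?_
  · simpa [grad] using this
  intro τ h1 h2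
  obtain ⟨a, b, _, ha, hb, hab⟩ := exists_bd_of_comp (S := {w | v w ≤ τ}) hz
    (show v y ≤ τ from h1.le) (show ¬ v z ≤ τ from not_le.2 h2)
  have ha' : v a ≤ τ := ha
  have hb' : τ < v b := not_le.1 hb
  rw [Nat.one_le_cast, one_le_card]
  obtain ⟨i, h | h⟩ := hab
  · refine ⟨(a, i), mem_filter.2 ⟨mem_cap.2 ⟨hT h.2, h.2⟩, ?_⟩⟩
    rw [← h.1]
    exact ⟨(min_le_left _ _).trans ha', hb'.trans_le (le_max_right _ _)⟩
  · refine ⟨(b, i), mem_filter.2 ⟨mem_cap.2 ⟨hT h.2, h.2⟩, ?_⟩⟩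
    rw [← h.1]
    exact ⟨(min_le_right _ _).trans ha', hb'.trans_le (le_max_left _ _)⟩

/-- The oscillation along a path is at most the total variation. -/
lemma abs_sub_le_of_comp {O : Set (E d)} (T : Finset (E d)) (hT : O ⊆ T) {y z : V d}
    (hz : z ∈ comp O y) (v : V d → ℝ) : |v z - v y| ≤ ∑ e ∈ cap O T, |grad v e| := by
  rcases le_total (v y) (v z) with h | h
  · rw [abs_of_nonneg (sub_nonneg.2 h)]
    exact path_sub_le_of_comp T hT hz v h
  · rw [abs_sub_comm, abs_of_nonneg (sub_nonneg.2 h)]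
    exact path_sub_le_of_comp T hT (comp_symm hz) v h

lemma path_conn_box (x : V d) (r : ℕ) : Conn (box x r : Set (V d)) := by
  have := conn_pi (d := d) (fun k => Set.Icc (x k - r) (x k + r)) fun _ => Set.ordConnected_Icc
  convert this using 1
  ext y
  simp only [box, mem_coe, Fintype.mem_piFinset, mem_Icc, Set.mem_Icc, Set.mem_ofPred_eq]

lemma comp_ins_box {x y z : V d} {r : ℕ} (hy : y ∈ box x r) (hz : z ∈ box x r) :
    z ∈ comp (ins (box x r : Set (V d))) y :=
  subset_comp_of_conn (path_conn_box x r) subset_rfl (mem_coe.2 hy) (mem_comp_self _ _)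
    (mem_coe.2 hz)

lemma ins_box_subset (x : V d) (r : ℕ) : ins (box x r : Set (V d)) ⊆ boxE x r :=
  fun _ he => mem_coe.2 (mem_boxE'.2 (mem_coe.1 he.1))

lemma inter_congr {S : Finset (E d)} {O O' : Set (E d)} (h : Agree S O O') {U : Set (E d)}
    (hU : U ⊆ S) : O ∩ U = O' ∩ U := by
  ext e
  exact ⟨fun he => ⟨(h e (hU he.2)).1 he.1, he.2⟩, fun he => ⟨(h e (hU he.2)).2 he.1, he.2⟩⟩

lemma mem_Cl_of_comp {O : Set (E d)} {y z : V d} (hy : y ∈ Cl O) (hz : z ∈ comp O y) :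
    z ∈ Cl O := by
  show (comp O z).Infinite
  rw [comp_eq_of_mem hz]
  exact hy

lemma comp_GC {O U : Set (E d)} {y z : V d} (hy : y ∈ Cl O) (hz : z ∈ comp (O ∩ U) y) :
    z ∈ comp (GC O ∩ U) y := by
  induction hz with
  | refl => exact mem_comp_self _ _
  | @tail b c hb hbc ih =>
    have hb' : b ∈ Cl O := mem_Cl_of_comp hy (comp_mono Set.inter_subset_left y hb)
    have hc' : c ∈ Cl O :=
      mem_Cl_of_comp hy (comp_mono Set.inter_subset_left y (comp_adj hb hbc))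
    refine comp_adj ih ?_
    obtain ⟨i, h | h⟩ := hbc
    · exact ⟨i, Or.inl ⟨h.1, ⟨h.2.1, hb'⟩, h.2.2⟩⟩
    · exact ⟨i, Or.inr ⟨h.1, ⟨h.2.1, hc'⟩, h.2.2⟩⟩

lemma wf_GC (O : Set (E d)) : Wf (GC O) (Cl O) := by
  refine ⟨fun e he => ⟨he.2, mem_Cl_of_comp he.2
    (comp_adj (mem_comp_self _ _) ⟨e.2, Or.inl ⟨rfl, he.1⟩⟩)⟩, fun y hy => ?_⟩
  refine Set.Infinite.mono (fun z hz => ?_) hy
  have := comp_GC (U := Set.univ) hy (by simpa using hz)
  simpa using this

lemma Cl_mono {O O' : Set (E d)} (h : O ⊆ O') : Cl O ⊆ Cl O' :=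
  fun y hy => Set.Infinite.mono (comp_mono h y) hy

lemma Cl_univ (hd : 1 ≤ d) : Cl (Set.univ : Set (E d)) = Set.univ := by
  have : Nonempty (Fin d) := ⟨⟨0, hd⟩⟩
  refine Set.eq_univ_of_forall fun y => ?_
  have h := subset_comp_of_conn (conn_univ (d := d)) subset_rfl (Set.mem_univ y)
    (mem_comp_self _ y)
  exact Set.Infinite.mono (h.trans (comp_mono (Set.subset_univ _) y)) Set.infinite_univ

lemma GC_univ (hd : 1 ≤ d) : GC (Set.univ : Set (E d)) = Set.univ := by
  refine Set.eq_univ_of_forall fun e => ⟨Set.mem_univ _, ?_⟩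
  rw [Cl_univ hd]
  exact Set.mem_univ _

lemma wf_univ (hd : 1 ≤ d) : Wf (Set.univ : Set (E d)) Set.univ := by
  have := wf_GC (Set.univ : Set (E d))
  rwa [GC_univ hd, Cl_univ hd] at this

lemma path_nd_le {x y : V d} {r : ℕ} : nd x y ≤ r ↔ ∀ k, |y k - x k| ≤ r := by
  rw [← mem_box_nd, mem_box]

lemma path_mem_ann {x w : V d} {ρ1 ρ2 : ℕ} (h2 : ∀ k, |w k - x k| ≤ ρ2) {i : Fin d}
    (h1 : (ρ1 : ℤ) ≤ |w i - x i|) : w ∈ ann x ρ1 ρ2 := by
  refine mem_ann.2 ⟨?_, path_nd_le.2 h2⟩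
  have := h1.trans (abs_le_nd x w i)
  exact_mod_cast this

/-- Moving one coordinate to the top of the annulus. -/
lemma path_move (x : V d) {ρ1 ρ2 b : ℕ} (hb : 1 ≤ b) (c : V d → ℝ) {β : ℝ} (hβ : 0 ≤ β)
    (h : ∀ z ∈ ann x ρ1 ρ2, ∀ z' ∈ ann x ρ1 ρ2, nd z z' ≤ b → |c z - c z'| ≤ β)
    (w : V d) (hw : ∀ k, |w k - x k| ≤ ρ2) {i j : Fin d} (hij : i ≠ j)
    (hi : (ρ1 : ℤ) ≤ |w i - x i|) :
    |c w - c (Function.update w j (x j + ρ2))| ≤ (2 * (ρ2 : ℝ) / b + 1) * β := by
  have hmem : ∀ s : ℤ, x j - ρ2 ≤ s → s ≤ x j + ρ2 → Function.update w j s ∈ ann x ρ1 ρ2 := by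
    intro s h1 h2
    refine path_mem_ann (i := i) (fun k => ?_) (by simpa [Function.update_of_ne hij] using hi)
    by_cases hk : k = j
    · subst hk
      rw [Function.update_self, abs_le]
      omega
    · rw [Function.update_of_ne hk]
      exact hw k
  have key : ∀ (n : ℕ) (s : ℤ), x j - ρ2 ≤ s → s ≤ x j + ρ2 → x j + ρ2 - s ≤ n * b →
      |c (Function.update w j s) - c (Function.update w j (x j + ρ2))| ≤ n * β := by
    intro n
    induction n with
    | zero =>
      intro s _ h2 h3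
      have : s = x j + ρ2 := by
        simp only [Nat.cast_zero, zero_mul] at h3
        omega
      simp [this]
    | succ n ih =>
      intro s h1 h2 h3
      have hn : (0 : ℤ) ≤ n * b := by positivity
      have h3' : x j + ρ2 - s ≤ n * b + b := by
        push_cast at h3
        linarith
      have e1 := ih (min (s + b) (x j + ρ2)) (by omega) (by omega) (by omega)
      have e2 := h _ (hmem s h1 h2) _ (hmem (min (s + b) (x j + ρ2)) (by omega) (by omega)) (by
        refine path_nd_le.2 fun k => ?_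
        by_cases hk : k = j
        · subst hk
          rw [Function.update_self, Function.update_self, abs_le]
          omega
        · rw [Function.update_of_ne hk, Function.update_of_ne hk]
          simp)
      have e3 := abs_sub_le (c (Function.update w j s))
        (c (Function.update w j (min (s + b) (x j + ρ2)))) (c (Function.update w j (x j + ρ2)))
      push_cast
      linarith
  have hj := abs_le.1 (hw j)
  have hdiv : 2 * ρ2 < (2 * ρ2 / b + 1) * b := by
    have := Nat.lt_div_mul_add (a := 2 * ρ2) (b := b) hb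
    nlinarith
  have e := key (2 * ρ2 / b + 1) (w j) (by omega) (by omega) (by
    have : ((2 * ρ2 : ℕ) : ℤ) < (((2 * ρ2 / b + 1) * b : ℕ) : ℤ) := by exact_mod_cast hdiv
    rw [Nat.cast_mul, Nat.cast_mul] at this
    have h2 : ((2 : ℕ) : ℤ) = 2 := rfl
    rw [h2] at this
    omega)
  rw [Function.update_eq_self] at e
  refine e.trans (mul_le_mul_of_nonneg_right ?_ hβ)
  have := Nat.cast_div_le (α := ℝ) (m := 2 * ρ2) (n := b)
  push_cast at this ⊢
  linarith

lemma path_corner (hd : 2 ≤ d) (x : V d) {ρ1 ρ2 b : ℕ} (hb : 1 ≤ b) (c : V d → ℝ) {β : ℝ}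
    (hβ : 0 ≤ β)
    (h : ∀ z ∈ ann x ρ1 ρ2, ∀ z' ∈ ann x ρ1 ρ2, nd z z' ≤ b → |c z - c z'| ≤ β)
    (z : V d) (hz : z ∈ ann x ρ1 ρ2) :
    |c z - c fun k => x k + ρ2| ≤ d * ((2 * (ρ2 : ℝ) / b + 1) * β) := by
  obtain ⟨hz1, hz2⟩ := mem_ann.1 hz
  obtain ⟨i, hi⟩ := exists_nd_eq (by omega) x z
  have hi' : (ρ1 : ℤ) ≤ |z i - x i| := by
    rw [hi]
    exact_mod_cast hz1
  set K := (2 * (ρ2 : ℝ) / b + 1) * β with hK
  set top : V d := fun k => x k + ρ2 with htop
  have hbox : ∀ s : Finset (Fin d), ∀ k, |s.piecewise top z k - x k| ≤ ρ2 := by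
    intro s k
    by_cases hk : k ∈ s
    · simp [hk, htop]
    · rw [piecewise_eq_of_notMem _ _ _ hk]
      exact path_nd_le.1 hz2 k
  have main : ∀ s : Finset (Fin d), i ∉ s → |c z - c (s.piecewise top z)| ≤ s.card * K := by
    intro s
    induction s using Finset.induction_on with
    | empty => simp
    | insert j s hj ih =>
      intro hi2
      rw [mem_insert, not_or] at hi2
      have e1 := ih hi2.2
      have e2 := path_move x hb c hβ h (s.piecewise top z) (hbox s) hi2.1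
        (by rwa [piecewise_eq_of_notMem _ _ _ hi2.2])
      rw [piecewise_insert, card_insert_of_notMem hj]
      have e3 := abs_sub_le (c z) (c (s.piecewise top z))
        (c (Function.update (s.piecewise top z) j (top j)))
      push_cast
      have e4 : top j = x j + ρ2 := rfl
      rw [e4] at e3 ⊢
      linarith
  obtain ⟨j, hj⟩ : ∃ j : Fin d, j ≠ i := by
    have : Nontrivial (Fin d) := Fin.nontrivial_iff_two_le.2 hd
    exact exists_ne i
  have e1 := main (univ.erase i) (notMem_erase i _)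
  have e2 := path_move x hb c hβ h ((univ.erase i).piecewise top z) (hbox _) hj (by
    rw [piecewise_eq_of_mem _ _ _ (mem_erase.2 ⟨hj, mem_univ j⟩)]
    have : ρ1 ≤ ρ2 := hz1.trans hz2
    simpa [htop] using this)
  have e4 : Function.update ((univ.erase i).piecewise top z) i (x i + ρ2) = top := by
    funext k
    by_cases hk : k = i
    · subst hk
      simp [htop]
    · rw [Function.update_of_ne hk, piecewise_eq_of_mem _ _ _ (mem_erase.2 ⟨hk, mem_univ k⟩)]
  rw [e4] at e2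
  have e3 := abs_sub_le (c z) (c ((univ.erase i).piecewise top z)) (c top)
  rw [card_erase_of_mem (mem_univ i), card_univ, Fintype.card_fin,
    Nat.cast_sub (by omega : 1 ≤ d)] at e1
  push_cast at e1
  linarith

/-- Chains in an annulus. -/
lemma ann_chain (hd : 2 ≤ d) (x : V d) {ρ1 ρ2 b : ℕ} (hb : 1 ≤ b) (c : V d → ℝ) {β : ℝ}
    (hβ : 0 ≤ β)
    (h : ∀ z ∈ ann x ρ1 ρ2, ∀ z' ∈ ann x ρ1 ρ2, nd z z' ≤ b → |c z - c z'| ≤ β) :
    ∀ z ∈ ann x ρ1 ρ2, ∀ z' ∈ ann x ρ1 ρ2,
      |c z - c z'| ≤ 2 * d * (2 * (ρ2 : ℝ) / b + 1) * β := by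
  intro z hz z' hz'
  have e1 := path_corner hd x hb c hβ h z hz
  have e2 := path_corner hd x hb c hβ h z' hz'
  have e3 := abs_sub_le (c z) (c fun k => x k + ρ2) (c z')
  rw [abs_sub_comm] at e2
  linarith

/-- Spheres are connected. -/
lemma sph_conn (hd : 2 ≤ d) (x : V d) (ρ : ℕ) (S : Set (V d)) {z z' : V d} (hz : z ∈ sph x ρ)
    (hz' : z' ∈ sph x ρ) (h1 : z ∈ S) (h2 : z' ∉ S) :
    ∃ a ∈ sph x ρ, ∃ b ∈ sph x ρ, nd a b ≤ 1 ∧ a ∈ S ∧ b ∉ S := by
  by_contra hcon
  push Not at hcon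
  have hs : ∀ a, a ∈ ann x ρ ρ ↔ a ∈ sph x ρ := fun a => by
    rw [mem_ann, mem_sph]
    omega
  have := ann_chain hd x (ρ1 := ρ) (ρ2 := ρ) (b := 1) le_rfl
    (fun a => if a ∈ S then (1 : ℝ) else 0) (β := 0) le_rfl (fun a ha b hb hab => by
      have e1 := hcon a ((hs a).1 ha) b ((hs b).1 hb) hab
      have e2 := hcon b ((hs b).1 hb) a ((hs a).1 ha) (by rwa [nd_comm])
      by_cases haS : a ∈ S
      · simp [haS, e1 haS]
      · have hbS : b ∉ S := fun hb' => haS (e2 hb')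
        simp [haS, hbS]) z ((hs z).2 hz) z' ((hs z').2 hz')
  simp [h1, h2] at this
  linarith

end Pool.Agent.P.MP_b4265e_pr.R
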