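import Pool.Agent.P.MP_b4265e_pr.R.Chg

/-!
Auxiliary lemmas for the separation theorem.
-/

namespace Pool.Agent.P.MP_b4265e_pr.R

open Finset
open scoped Classical

variable {d : ℕ}

lemma sep_sc_succ (L A n : ℕ) : sc L A (n + 1) = sc L A n * A := by
  unfold sc; ring

lemma sep_sc_mono {L A : ℕ} (hA : 1 ≤ A) {n n' : ℕ} (h : n ≤ n') : sc L A n ≤ sc L A n' :=
  Nat.mul_le_mul_left _ (Nat.pow_le_pow_right hA h)

lemma sep_le_sc {L A : ℕ} (hA : 1 ≤ A) (n : ℕ) : L ≤ sc L A n := by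
  have := sep_sc_mono (L := L) hA (Nat.zero_le n)
  simpa [sc] using this

lemma sep_lt_sc {L A : ℕ} (hL : 1 ≤ L) (hA : 2 ≤ A) (n : ℕ) : n < sc L A n := by
  have h1 : n < A ^ n := Nat.lt_pow_self (by omega)
  have h2 : A ^ n ≤ L * A ^ n := Nat.le_mul_of_pos_left _ hL
  unfold sc; omega

lemma sep_succ_le_sc {L A : ℕ} (hL : 1 ≤ L) (hA : 2 ≤ A) {n : ℕ} (hn : 1 ≤ n) :
    L + 1 ≤ sc L A n := by
  have h1 : sc L A 1 ≤ sc L A n := sep_sc_mono (by omega) hn
  have h2 : sc L A 1 = L * A := by simp [sc]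
  have h3 : L * 2 ≤ L * A := Nat.mul_le_mul_left _ hA
  omega

lemma sep_scale {L A P N T : ℕ} (hL : 1 ≤ L) (hA : 2 ≤ A) (hP : 1 ≤ P) (h : sc L A N * P ≤ T) :
    ∃ n, N ≤ n ∧ sc L A n * P ≤ T ∧ T < sc L A (n + 1) * P := by
  have hex : ∃ t, T < sc L A (N + t + 1) * P := by
    refine ⟨T, ?_⟩
    have h1 := sep_lt_sc hL hA (N + T + 1)
    have h2 : sc L A (N + T + 1) ≤ sc L A (N + T + 1) * P := Nat.le_mul_of_pos_right _ hP
    omega
  refine ⟨N + Nat.find hex, by omega, ?_, Nat.find_spec hex⟩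
  rcases h0 : Nat.find hex with _ | t
  · simpa using h
  · have := Nat.find_min hex (m := t) (by omega)
    have e : N + (t + 1) = N + t + 1 := by ring
    rw [e]; omega

/-- More charges than points of a box are linearly dependent. -/
lemma sep_dep {m : ℕ} (S : Finset (V d)) (hm : S.card < m) (f : Fin m → V d →₀ ℝ)
    (hf : ∀ l, (f l).support ⊆ S) : ∃ c : Fin m → ℝ, (∃ l, c l ≠ 0) ∧ ∑ l, c l • f l = 0 := by
  set v : Fin m → (S → ℝ) := fun l y => f l y with hv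
  have hli : ¬ LinearIndependent ℝ v := by
    intro h
    have := h.fintype_card_le_finrank
    simp at this
    omega
  obtain ⟨c, hc, hne⟩ := Fintype.not_linearIndependent_iff.1 hli
  refine ⟨c, hne, ?_⟩
  ext y
  by_cases hy : y ∈ S
  · have := congrFun hc ⟨y, hy⟩
    simpa [hv, Finset.sum_apply, Finsupp.finsetSum_apply] using this
  · have : ∀ l, f l y = 0 := fun l => by
      by_contra hn
      exact hy (hf l (Finsupp.mem_support_iff.2 hn))
    simp [Finsupp.finsetSum_apply, this]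

lemma sep_persist {a : ℕ → ℝ} {n0 : ℕ} {Γ ε Λ : ℝ} (ha : ∀ n, n0 ≤ n → 0 ≤ a n) (hε : 0 ≤ ε)
    (hΛ : 0 ≤ Λ) (h1 : ε * Λ ≤ 1 / 2) (h2 : 2 * Γ ≤ Λ)
    (h : ∀ n, n0 ≤ n → a (n + 1) ≤ Γ * a (n + 2) + ε * a n)
    (h0 : a n0 ≤ Λ * a (n0 + 1)) : ∀ n, n0 ≤ n → ∀ t, a n ≤ Λ ^ t * a (n + t) := by
  have step : ∀ n, n0 ≤ n → a n ≤ Λ * a (n + 1) := fun n hn =>
    (persist (n1 := n + 2) ha hε h1 h2 (fun k hk _ => h k hk) h0 n hn le_rfl).1
  intro n hn t
  induction t with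
  | zero => simp
  | succ t ih =>
    calc a n ≤ Λ ^ t * a (n + t) := ih
      _ ≤ Λ ^ t * (Λ * a (n + t + 1)) :=
        mul_le_mul_of_nonneg_left (step _ (by omega)) (pow_nonneg hΛ _)
      _ = Λ ^ (t + 1) * a (n + (t + 1)) := by rw [pow_succ, mul_assoc, add_assoc]

lemma sep_chain {θ K δ Γ ε Λ : ℝ} {G : Set (E d)} {C : Set (V d)} {x : V d} {L A s0 n0 : ℕ}
    {φ : V d →₀ ℝ}
    (hstar : ∀ r, s0 ≤ r → HGood θ K δ G C x (r * A) → HGood θ K δ G C x (r * A * A) →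
      ∀ φ : V d →₀ ℝ, Supp C x r φ →
        lam G C x (r * A) φ ≤ Γ * lam G C x (r * A * A) φ + ε * lam G C x r φ)
    (hA : 1 ≤ A) (hL : s0 ≤ L) (hgood : ∀ j, n0 ≤ j → HGood θ K δ G C x (sc L A j))
    (hφ : Supp C x (sc L A n0) φ) (hε : 0 ≤ ε) (hΛ : 0 ≤ Λ) (h1 : ε * Λ ≤ 1 / 2)
    (h2 : 2 * Γ ≤ Λ) (h0 : lam G C x (sc L A n0) φ ≤ Λ * lam G C x (sc L A (n0 + 1)) φ) :
    ∀ n, n0 ≤ n → ∀ t, lam G C x (sc L A n) φ ≤ Λ ^ t * lam G C x (sc L A (n + t)) φ := by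
  have hS : ∀ n, n0 ≤ n → Supp C x (sc L A n) φ := fun n hn =>
    hφ.mono (box_mono _ (sep_sc_mono hA hn))
  refine sep_persist (a := fun n => lam G C x (sc L A n) φ) (Γ := Γ)
    (fun n hn => lam_nonneg (hS n hn)) hε hΛ h1 h2 ?_ h0
  intro n hn
  have e1 := sep_sc_succ L A n
  have e2 : sc L A (n + 2) = sc L A n * A * A := by rw [sep_sc_succ L A (n + 1), e1]
  have := hstar (sc L A n) (hL.trans (sep_le_sc hA n)) (e1 ▸ hgood (n + 1) (by omega))
    (e2 ▸ hgood (n + 2) (by omega)) φ (hS n hn)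
  simpa only [e1, e2] using this

/-- Testing a combination of dipoles against a function that only sees one of them. -/
lemma sep_core {m : ℕ} {G : Set (E d)} {C : Set (V d)} {x : Fin m → V d} {g : Fin m → V d →₀ ℝ}
    {c : Fin m → ℝ} {bb : Fin m} {b : ℕ} {h hi : V d → ℝ} {k : Fin m → ℝ} {η Cd μ : ℝ}
    (hCd : 0 < Cd) (hη0 : 0 ≤ η)
    (hsupp : ∀ l, Supp C (x l) b (g l)) (htot : ∀ l, pair (g l) (fun _ => 1) = 0)
    (hμ : ∀ l, |c l| * lam G C (x l) b (g l) ≤ μ) (hμb : μ = |c bb| * lam G C (x bb) b (g bb))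
    (hh : ∀ l, Harm G (x l) b h) (hhi : Harm G (x bb) b hi)
    (herr : ∀ l, nrm C (x l) b (fun y => h y - k l - (if l = bb then b * hi y else 0)) ≤ η * b)
    (hdir : lam G C (x bb) b (g bb) ≤ Cd * |pair (g bb) hi|)
    (hη : m * η * Cd ≤ 1 / 2) :
    μ * b ≤ 2 * Cd * |pair (∑ l, c l • g l) h| := by
  set w : Fin m → V d → ℝ := fun l y => h y - k l - (if l = bb then b * hi y else 0) with hw
  have hwH : ∀ l, Harm G (x l) b (w l) := by
    intro l
    refine ((hh l).sub (harm_const G _ _ (k l))).sub ?_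
    by_cases hl : l = bb
    · subst hl; simpa using hhi.mul (b : ℝ)
    · simpa [hl] using harm_const G (x l) b 0
  have hpair : ∀ l, pair (g l) h =
      pair (g l) (w l) + (if l = bb then b * pair (g bb) hi else 0) := by
    intro l
    have e1 : pair (g l) (w l) = pair (g l) (fun y => h y - k l) -
        pair (g l) (fun y => if l = bb then b * hi y else 0) := pair_sub_right _ _ _
    rw [e1, pair_sub_const (htot l)]
    by_cases hl : l = bb
    · subst hl; simp only [if_true, pair_mul_right]; ring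
    · have : pair (g l) (fun _ => (0 : ℝ)) = 0 := by
        have := pair_mul_right (g l) 0 (fun _ => (1 : ℝ))
        simpa using this
      simp [hl, this]
  have hsum : pair (∑ l, c l • g l) h =
      ∑ l, c l * pair (g l) (w l) + c bb * (b * pair (g bb) hi) := by
    rw [pair_sum_left]
    simp only [pair_smul_left, hpair, mul_add, Finset.sum_add_distrib, mul_ite, mul_zero,
      Finset.sum_ite_eq', Finset.mem_univ, if_true]
  have hb0 : (0 : ℝ) ≤ b := Nat.cast_nonneg _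
  have hterm : ∀ l, |c l * pair (g l) (w l)| ≤ μ * (η * b) := by
    intro l
    rw [abs_mul]
    have h1 := abs_pair_le (G := G) (hsupp l) (hwH l)
    have h2 := lam_nonneg (G := G) (hsupp l)
    calc |c l| * |pair (g l) (w l)| ≤ |c l| * (lam G C (x l) b (g l) * (η * b)) :=
          mul_le_mul_of_nonneg_left (h1.trans (mul_le_mul_of_nonneg_left (herr l) h2))
            (abs_nonneg _)
      _ = |c l| * lam G C (x l) b (g l) * (η * b) := by ring
      _ ≤ μ * (η * b) := mul_le_mul_of_nonneg_right (hμ l) (mul_nonneg hη0 hb0)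
  have hE : |∑ l, c l * pair (g l) (w l)| ≤ m * (μ * (η * b)) := by
    refine (Finset.abs_sum_le_sum_abs _ _).trans ?_
    refine (Finset.sum_le_sum fun l _ => hterm l).trans ?_
    simp
  have hμ0 : 0 ≤ μ := by
    rw [hμb]; exact mul_nonneg (abs_nonneg _) (lam_nonneg (hsupp bb))
  have hmain : μ * b ≤ Cd * |c bb * (b * pair (g bb) hi)| := by
    rw [abs_mul, abs_mul, abs_of_nonneg hb0, hμb]
    have := mul_le_mul_of_nonneg_left hdir (mul_nonneg (abs_nonneg (c bb)) hb0)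
    linarith
  have htri : |c bb * (b * pair (g bb) hi)| ≤
      |pair (∑ l, c l • g l) h| + |∑ l, c l * pair (g l) (w l)| := by
    rw [hsum]
    have := abs_sub (∑ l, c l * pair (g l) (w l) + c bb * (b * pair (g bb) hi))
      (∑ l, c l * pair (g l) (w l))
    simpa using this
  have h3 : Cd * (m * (μ * (η * b))) ≤ μ * b / 2 := by
    have := mul_le_mul_of_nonneg_left hη (mul_nonneg hμ0 hb0)
    linarith
  have h4 := mul_le_mul_of_nonneg_left (htri.trans (add_le_add le_rfl hE)) hCd.le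
  linarith

/-- The lower bound for a combination of separated dipoles at a scale that sees all of them. -/
lemma sep_lower {m : ℕ} {K δ CI Cd μ : ℝ} {G : Set (E d)} {C : Set (V d)} {x : Fin m → V d}
    {g : Fin m → V d →₀ ℝ} {c : Fin m → ℝ} {bb : Fin m} {A P b r S : ℕ} {i : Fin d}
    {hi ψ : V d → ℝ} (hK : 0 < K) (hδ0 : 0 < δ) (hCI : 1 ≤ CI) (hCd : 1 ≤ Cd) (hA : 1 ≤ A)
    (hP1 : 1 ≤ P) (hb : 1 ≤ b)
    (hlift : Lift K δ G C (x bb) S) (hx : ∀ l, x l ∈ box (x bb) (2 * r))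
    (hbr : b * P ≤ r) (hrb : r ≤ b * A * P) (hS1 : 3 * r ≤ S) (hS2 : S ≤ 3 * r * A ^ 2)
    (hψ1 : ∀ l, ∀ y ∈ box (x l) b,
      |ψ y - ψ (x l) - (if l = bb then ((y i - x l i : ℤ) : ℝ) else 0)| ≤ CI * b ^ 2 / r)
    (hψ2 : Smooth ψ (x bb) (2 * S) (CI * r * ((S : ℝ) / r) ^ (m + 3)) S)
    (hψ3 : ∀ y ∈ box (x bb) (2 * S),
      |lapG Set.univ ψ y| ≤ CI * ((S : ℝ) / r) ^ (m + 3) / (r : ℝ) ^ 3)
    (hhi : Harm G (x bb) b hi)
    (hhi2 : nrm C (x bb) b (fun y => hi y - ((y i - x bb i : ℤ) : ℝ) / b) ≤ 2 * δ)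
    (hdir : lam G C (x bb) b (g bb) ≤ Cd * |pair (g bb) hi|)
    (hsupp : ∀ l, Supp C (x l) b (g l)) (htot : ∀ l, pair (g l) (fun _ => 1) = 0)
    (hμ : ∀ l, |c l| * lam G C (x l) b (g l) ≤ μ) (hμb : μ = |c bb| * lam G C (x bb) b (g bb))
    (hP : 8 * m * Cd * CI ≤ P)
    (hδ : 16 * m * Cd * ((3 * (A : ℝ) ^ 3 * P) ^ d * (CI * A * P * (3 * (A : ℝ) ^ 2) ^ (m + 3))) * δ
      ≤ 1)
    (hr : 144 * K * (A : ℝ) ^ 4 * m * Cd *
      ((3 * (A : ℝ) ^ 3 * P) ^ d * (CI * A * P * (3 * (A : ℝ) ^ 2) ^ (m + 3))) ≤ r) :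
    μ ≤ 4 * Cd * (CI * A * P * (3 * (A : ℝ) ^ 2) ^ (m + 3)) *
      lam G C (x bb) S (∑ l, c l • g l) := by
  have hm : (1 : ℝ) ≤ m := by
    have : 1 ≤ m := Nat.succ_le_of_lt (Fin.pos bb)
    exact_mod_cast this
  have ha : (1 : ℝ) ≤ A := by exact_mod_cast hA
  have hp : (1 : ℝ) ≤ P := by exact_mod_cast hP1
  have hb' : (1 : ℝ) ≤ b := by exact_mod_cast hb
  have hble : b ≤ r := (Nat.le_mul_of_pos_right _ hP1).trans hbr
  have hr1 : (1 : ℝ) ≤ r := by exact_mod_cast hb.trans hble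
  have hbr' : (b : ℝ) * P ≤ r := by exact_mod_cast hbr
  have hrb' : (r : ℝ) ≤ b * A * P := by exact_mod_cast hrb
  have hS1' : 3 * (r : ℝ) ≤ S := by exact_mod_cast hS1
  have hS2' : (S : ℝ) ≤ 3 * r * (A : ℝ) ^ 2 := by exact_mod_cast hS2
  have hr0 : (0 : ℝ) < r := by linarith
  have hS0 : (0 : ℝ) < S := by linarith
  set W0 : ℝ := CI * A * P * (3 * (A : ℝ) ^ 2) ^ (m + 3) with hW0
  set Y : ℝ := (3 * (A : ℝ) ^ 3 * P) ^ d with hY
  set M0 : ℝ := CI * r * ((S : ℝ) / r) ^ (m + 3) with hM0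
  set ε : ℝ := (S : ℝ) ^ 2 / (r : ℝ) ^ 4 with hε
  have hc1 : (1 : ℝ) ≤ 3 * (A : ℝ) ^ 3 * P := by
    have := one_le_pow₀ (n := 3) ha
    exact one_le_mul_of_one_le_of_one_le (by linarith) hp
  have hY1 : 1 ≤ Y := one_le_pow₀ hc1
  have h3a : (1 : ℝ) ≤ 3 * (A : ℝ) ^ 2 := by linarith [one_le_pow₀ (n := 2) ha]
  have hW1 : 1 ≤ W0 := by
    have h1 := one_le_pow₀ (n := m + 3) h3a
    have h2 : 1 ≤ CI * A := one_le_mul_of_one_le_of_one_le hCI ha
    have h3 : 1 ≤ CI * A * P := one_le_mul_of_one_le_of_one_le h2 hp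
    exact one_le_mul_of_one_le_of_one_le h3 h1
  have hZ1 : 1 ≤ Y * W0 := one_le_mul_of_one_le_of_one_le hY1 hW1
  have hM00 : 0 ≤ M0 := by positivity
  have hε0 : 0 ≤ ε := by positivity
  have hMW : M0 ≤ W0 * b := by
    have h1 : (S : ℝ) / r ≤ 3 * (A : ℝ) ^ 2 := by
      rw [div_le_iff₀ hr0]; linarith
    have h2 : ((S : ℝ) / r) ^ (m + 3) ≤ (3 * (A : ℝ) ^ 2) ^ (m + 3) :=
      pow_le_pow_left₀ (by positivity) h1 _
    calc M0 ≤ CI * (b * A * P) * (3 * (A : ℝ) ^ 2) ^ (m + 3) := by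
          rw [hM0]; gcongr
      _ = W0 * b := by rw [hW0]; ring
  have hεr : ε ≤ 9 * (A : ℝ) ^ 4 / r := by
    rw [hε, div_le_div_iff₀ (by positivity) hr0]
    have h1 : (S : ℝ) ^ 2 ≤ (3 * r * (A : ℝ) ^ 2) ^ 2 := pow_le_pow_left₀ hS0.le hS2' 2
    have h2 : (r : ℝ) ^ 3 ≤ (r : ℝ) ^ 4 := pow_le_pow_right₀ hr1 (by norm_num)
    calc (S : ℝ) ^ 2 * r ≤ (3 * r * (A : ℝ) ^ 2) ^ 2 * r := by gcongr
      _ = 9 * (A : ℝ) ^ 4 * (r : ℝ) ^ 3 := by ring
      _ ≤ 9 * (A : ℝ) ^ 4 * (r : ℝ) ^ 4 := by gcongr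
  have hKε : 16 * m * Cd * (Y * W0) * (K * ε) ≤ 1 := by
    calc 16 * m * Cd * (Y * W0) * (K * ε)
        ≤ 16 * m * Cd * (Y * W0) * (K * (9 * (A : ℝ) ^ 4 / r)) := by gcongr
      _ = 144 * K * (A : ℝ) ^ 4 * m * Cd * (Y * W0) / r := by ring
      _ ≤ 1 := by rw [div_le_one hr0]; exact hr
  have hmC : 1 ≤ m * Cd := one_le_mul_of_one_le_of_one_le hm hCd
  have hmCZ : 1 ≤ m * Cd * (Y * W0) := one_le_mul_of_one_le_of_one_le hmC hZ1
  have hKε0 : 0 ≤ K * ε := by positivity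
  have hδ1 : δ + K * ε ≤ 1 := by
    linarith [le_mul_of_one_le_left hKε0 hmCZ, le_mul_of_one_le_left hδ0.le hmCZ]
  obtain ⟨h, hH, hh⟩ := hlift ψ M0 ε hε0 hψ2 (by
    intro y hy
    refine (hψ3 y hy).trans (le_of_eq ?_)
    rw [hε, hM0]; field_simp)
  have hsub : ∀ l, box (x l) b ⊆ box (x bb) S := by
    intro l
    have := mem_box_nd.1 (hx l)
    exact box_subset (by omega)
  set η : ℝ := Y * W0 * (δ + K * ε) + CI / P + 2 * δ with hη
  have hη0 : 0 ≤ η := by positivity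
  have herr : ∀ l, nrm C (x l) b
      (fun y => h y - ψ (x l) - (if l = bb then b * hi y else 0)) ≤ η * b := by
    intro l
    have e1 : nrm C (x l) b (fun y => h y - ψ y) ≤ Y * W0 * (δ + K * ε) * b := by
      have h1 := nrm_le_of_subset' C (hsub l) hc1 (by
        calc (S : ℝ) ≤ 3 * r * (A : ℝ) ^ 2 := hS2'
          _ ≤ 3 * (b * A * P) * (A : ℝ) ^ 2 := by gcongr
          _ = 3 * (A : ℝ) ^ 3 * P * b := by ring) (fun y => h y - ψ y)
      calc _ ≤ Y * nrm C (x bb) S (fun y => h y - ψ y) := h1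
        _ ≤ Y * ((δ + K * ε) * M0) := by gcongr
        _ ≤ Y * ((δ + K * ε) * (W0 * b)) := by gcongr
        _ = _ := by ring
    have e2 : nrm C (x l) b (fun y => ψ y - ψ (x l) -
        (if l = bb then ((y i - x l i : ℤ) : ℝ) else 0)) ≤ CI / P * b := by
      refine (nrm_le_sup (by positivity) fun y hy _ => hψ1 l y hy).trans ?_
      rw [div_le_iff₀ hr0]
      have : CI * (b : ℝ) ^ 2 = CI / P * b * (b * P) := by field_simp
      rw [this]; gcongr
    have e3 : nrm C (x l) b (fun y => if l = bb then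
        (b : ℝ) * (hi y - ((y i - x bb i : ℤ) : ℝ) / b) else 0) ≤ 2 * δ * b := by
      by_cases hl : l = bb
      · subst hl
        simp only [if_true]
        rw [nrm_mul, abs_of_nonneg (by positivity), mul_comm]
        gcongr
      · simp only [hl, if_false]
        exact nrm_le_sup (by positivity) fun y _ _ => by simp; positivity
    have e4 : nrm C (x l) b (fun y => h y - ψ (x l) - (if l = bb then b * hi y else 0)) =
        nrm C (x l) b (fun y => ((h y - ψ y) + (ψ y - ψ (x l) -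
          (if l = bb then ((y i - x l i : ℤ) : ℝ) else 0))) - (if l = bb then
          (b : ℝ) * (hi y - ((y i - x bb i : ℤ) : ℝ) / b) else 0)) := by
      refine nrm_congr fun y _ _ => ?_
      by_cases hl : l = bb
      · subst hl
        simp only [if_true]
        field_simp
        ring
      · simp only [hl, if_false]; ring
    rw [e4]
    refine (nrm_sub_le _ _ _ _ _).trans ?_
    have e5 := nrm_add_le C (x l) b (fun y => h y - ψ y) (fun y => ψ y - ψ (x l) -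
      (if l = bb then ((y i - x l i : ℤ) : ℝ) else 0))
    rw [hη]; linarith
  have hηm : m * η * Cd ≤ 1 / 2 := by
    have e1 : m * Cd * (CI / P) ≤ 1 / 8 := by
      rw [← mul_div_assoc, div_le_iff₀ (by linarith)]; linarith
    have e2 : m * Cd * δ ≤ m * Cd * (Y * W0) * δ := by
      have : m * Cd * 1 ≤ m * Cd * (Y * W0) := by gcongr
      linarith [mul_le_mul_of_nonneg_right this hδ0.le]
    have e3 : m * η * Cd = m * Cd * (Y * W0) * δ + m * Cd * (Y * W0) * (K * ε) +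
        m * Cd * (CI / P) + 2 * (m * Cd * δ) := by rw [hη]; ring
    rw [e3]; linarith
  have hcore := sep_core (c := c) (k := fun l => ψ (x l)) (by linarith : 0 < Cd) hη0 hsupp htot hμ
    hμb (fun l => hH.mono (hsub l)) hhi herr hdir hηm
  have hφ : Supp C (x bb) S (∑ l, c l • g l) :=
    supp_sum _ fun l _ => ((hsupp l).mono (hsub l)).smul _
  have hnh : nrm C (x bb) S h ≤ 2 * (W0 * b) := by
    have e1 : nrm C (x bb) S h = nrm C (x bb) S (fun y => (h y - ψ y) + ψ y) :=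
      nrm_congr fun y _ _ => by ring
    have e2 := nrm_add_le C (x bb) S (fun y => h y - ψ y) ψ
    have e3 : nrm C (x bb) S ψ ≤ M0 := nrm_le_sup hM00 fun y hy _ => by
      have := hψ2 [] (by simp) y (box_mono _ (by omega) hy)
      simpa [difs] using this
    have e4 : (δ + K * ε) * M0 ≤ 1 * M0 := by gcongr
    linarith
  have hl0 := lam_nonneg (G := G) hφ
  have hp2 := (abs_pair_le (G := G) hφ hH).trans (mul_le_mul_of_nonneg_left hnh hl0)
  have hfin : μ * b ≤ 4 * Cd * W0 * lam G C (x bb) S (∑ l, c l • g l) * b := by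
    calc μ * b ≤ 2 * Cd * |pair (∑ l, c l • g l) h| := hcore
      _ ≤ 2 * Cd * (lam G C (x bb) S (∑ l, c l • g l) * (2 * (W0 * b))) := by gcongr
      _ = _ := by ring
  exact le_of_mul_le_mul_right hfin (by linarith)

lemma sep_upper {m : ℕ} {G : Set (E d)} {C : Set (V d)} {x : Fin m → V d} {x' : V d}
    {g : Fin m → V d →₀ ℝ} (c : Fin m → ℝ) {b r' : ℕ} {cc : ℝ} (hsupp : ∀ l, Supp C (x l) b (g l))
    (hsub : ∀ l, box (x l) b ⊆ box x' r') (hcc : 1 ≤ cc) (hr : (r' : ℝ) ≤ cc * b) :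
    lam G C x' r' (∑ l, c l • g l) ≤ cc ^ d * ∑ l, |c l| * lam G C (x l) b (g l) := by
  refine (lam_sum_le _ fun l _ => ((hsupp l).mono (hsub l)).smul _).trans ?_
  rw [Finset.mul_sum]
  refine Finset.sum_le_sum fun l _ => ?_
  rw [lam_smul ((hsupp l).mono (hsub l))]
  have := lam_le_of_subset (G := G) (hsupp l) (hsub l) hcc hr
  calc _ ≤ |c l| * (cc ^ d * lam G C (x l) b (g l)) :=
        mul_le_mul_of_nonneg_left this (abs_nonneg _)
    _ = _ := by ring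

lemma sep_num {m d : ℕ} {Cd CI a p : ℝ} (ha : 1 ≤ a)
    (h : 4 * m * Cd * CI * p ^ (d + 1) * 3 ^ (d + m + 3) ≤ a) :
    (3 * a ^ 2 * p) ^ d * m * (4 * Cd * (CI * a * p * (3 * a ^ 2) ^ (m + 3))) ≤
      a ^ (2 * d + 2 * m + 8) := by
  calc _ = 4 * m * Cd * CI * p ^ (d + 1) * 3 ^ (d + m + 3) * a ^ (2 * d + 2 * m + 7) := by
        simp only [mul_pow, ← pow_mul]; ring
    _ ≤ a * a ^ (2 * d + 2 * m + 7) := by gcongr
    _ = _ := by ring

end Pool.Agent.P.MP_b4265e_pr.R
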