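import Pool.Agent.P.MP_b4265e_pr.R.Star
import Pool.Agent.P.MP_b4265e_pr.R.Interp
import Pool.Agent.P.MP_b4265e_pr.R.SepAux

/-!
Well separated points are not all screened.
-/

namespace Pool.Agent.P.MP_b4265e_pr.R

open Finset
open scoped Classical

attribute [local irreducible] l2 en nrm lam vol pair l1 lapG


/-- No `m` well separated points are screened. -/
theorem not_scr_sep {d : ℕ} (hd : 2 ≤ d) {θ K : ℝ} (hθ : 0 < θ) (hK : 0 < K) (R0 : ℕ)
    (B : ℕ) (hB : 1 ≤ B) :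
    ∃ C0 : ℝ, ∀ C1 ≥ C0, ∃ A0 : ℕ, ∀ A ≥ A0, ∃ Λs δ0 : ℝ, 0 < Λs ∧ 0 < δ0 ∧
    ∀ δ : ℝ, 0 < δ → δ ≤ δ0 → ∃ L0 : ℕ, ∀ L ≥ L0, ∀ κ N : ℕ, 1 ≤ κ → ∃ r0 : ℕ, 1 ≤ r0 ∧
    ∀ (O : Set (E d)), ∀ r ≥ r0, ∀ (z : V d) (x : Fin ((2 * R0 + 1) ^ d + 1) → V d) (c : Fin d),
      (∀ l, Scr θ K δ (C1 * A) Λs L A κ N R0 (x l) O ∧ x l ∈ box z r) →
      ¬ ∀ l l', l ≠ l' → (r : ℤ) ≤ B * |x l c - x l' c| := by
  have hmcard : (box (0 : V d) R0).card < (2 * R0 + 1) ^ d + 1 := by rw [card_box]; omega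
  generalize (2 * R0 + 1) ^ d + 1 = m at hmcard ⊢
  have hm1 : 1 ≤ m := by omega
  have hm : (1 : ℝ) ≤ m := by exact_mod_cast hm1
  obtain ⟨CI, hCI, hI⟩ := interp hd m B hB
  obtain ⟨Cd, hCd, hD⟩ := direction (by omega : 1 ≤ d) hK
  obtain ⟨Ca, hCa, hSa⟩ := star d hK 1
  obtain ⟨Ck, hCk, hSk⟩ := star d hK (2 * d + 2 * m + 8)
  obtain ⟨P, hP⟩ := exists_nat_ge (8 * m * Cd * CI)
  have hp : (1 : ℝ) ≤ P := by
    have h1 : 1 ≤ m * Cd := one_le_mul_of_one_le_of_one_le hm hCd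
    have h2 : 1 ≤ m * Cd * CI := one_le_mul_of_one_le_of_one_le h1 hCI
    linarith
  have hP1 : 1 ≤ P := by exact_mod_cast hp
  refine ⟨2 * Ca, fun C1 hC1 => ?_⟩
  have hC1' : 1 ≤ C1 := by linarith
  obtain ⟨Ad, hAd⟩ := hD C1 (by linarith)
  obtain ⟨A1, hA1⟩ := exists_nat_ge (max (2 * Ca * C1) (max (4 * Ck ^ 2)
    (4 * m * Cd * CI * (P : ℝ) ^ (d + 1) * 3 ^ (d + m + 3))))
  refine ⟨max 16 (max Ad A1), fun A hA => ?_⟩
  have hA16 : 16 ≤ A := le_of_max_le_left hA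
  have hAA : (A1 : ℝ) ≤ A := by exact_mod_cast le_of_max_le_right (le_of_max_le_right hA)
  have hAa : 2 * Ca * C1 ≤ A := (le_max_left _ _).trans (hA1.trans hAA)
  have hAk : 4 * Ck ^ 2 ≤ A := ((le_max_left _ _).trans (le_max_right _ _)).trans (hA1.trans hAA)
  have hAc : 4 * m * Cd * CI * (P : ℝ) ^ (d + 1) * 3 ^ (d + m + 3) ≤ A :=
    ((le_max_right _ _).trans (le_max_right _ _)).trans (hA1.trans hAA)
  have ha : (1 : ℝ) ≤ A := by exact_mod_cast (by omega : 1 ≤ A)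
  have ha0 : (0 : ℝ) < A := by linarith
  obtain ⟨δa, sa, hδa, hSa⟩ := hSa A hA16
  obtain ⟨δk, sk, hδk, hSk⟩ := hSk A hA16
  obtain ⟨δd, sd, hδd, hD⟩ := hAd A (le_of_max_le_left (le_of_max_le_right hA))
  have hnum := sep_num (m := m) (d := d) (Cd := Cd) (CI := CI) ha hAc
  set k := 2 * d + 2 * m + 8 with hk
  set W0 : ℝ := CI * A * P * (3 * (A : ℝ) ^ 2) ^ (m + 3) with hW0
  set Z : ℝ := (3 * (A : ℝ) ^ 3 * P) ^ d * W0 with hZ
  set Λ : ℝ := 2 * (Ck * (A : ℝ) ^ k) with hΛ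
  have hW00 : 0 < W0 := by positivity
  have hZ0 : 0 < Z := by positivity
  have hAk1 : 1 ≤ (A : ℝ) ^ k := one_le_pow₀ ha
  have hΛ1 : (A : ℝ) ^ k ≤ Λ := by
    rw [hΛ]; linarith [le_mul_of_one_le_left (zero_le_one.trans hAk1) hCk]
  have hΛ0 : 0 < Λ := by linarith
  refine ⟨2 * Λ, min (min δa δk) (min δd (1 / (16 * m * Cd * Z))), by positivity, by positivity,
    fun δ hδ0 hδ => ?_⟩
  have hδa' : δ ≤ δa := hδ.trans ((min_le_left _ _).trans (min_le_left _ _))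
  have hδk' : δ ≤ δk := hδ.trans ((min_le_left _ _).trans (min_le_right _ _))
  have hδd' : δ ≤ δd := hδ.trans ((min_le_right _ _).trans (min_le_left _ _))
  have hδZ : 16 * m * Cd * Z * δ ≤ 1 := by
    have := hδ.trans ((min_le_right _ _).trans (min_le_right _ _))
    rw [le_div_iff₀ (by positivity)] at this
    linarith
  refine ⟨max 1 (max sa (max sk sd)), fun L hL κ N hκ => ?_⟩
  have hL1 : 1 ≤ L := le_of_max_le_left hL
  have hLa : sa ≤ L := le_of_max_le_left (le_of_max_le_right hL)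
  have hLk : sk ≤ L := le_of_max_le_left (le_of_max_le_right (le_of_max_le_right hL))
  have hLd : sd ≤ L := le_of_max_le_right (le_of_max_le_right (le_of_max_le_right hL))
  obtain ⟨r1, hr1⟩ := exists_nat_ge (144 * K * (A : ℝ) ^ 4 * m * Cd * Z)
  refine ⟨max 1 (max (sc L A N * P) r1), le_max_left _ _, fun O r hr z x c hx hsep => ?_⟩
  have hr0 : 1 ≤ r := le_of_max_le_left hr
  have hrN : sc L A N * P ≤ r := le_of_max_le_left (le_of_max_le_right hr)
  have hrZ : 144 * K * (A : ℝ) ^ 4 * m * Cd * Z ≤ r :=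
    hr1.trans (by exact_mod_cast le_of_max_le_right (le_of_max_le_right hr))
  have hA2 : 2 ≤ A := by omega
  have hA1' : 1 ≤ A := by omega
  choose n0 hn0κ hn0N n1 hn1 using fun l => (hx l).1.2
  obtain ⟨ns, hnsN, hb1, hb2⟩ := sep_scale hL1 hA2 hP1 hrN
  obtain ⟨n', rfl⟩ : ∃ n', ns = n' + 1 := ⟨ns - 1, by have := hn0N ⟨0, hm1⟩; omega⟩
  have hbr : sc L A (n' + 1) ≤ r := (Nat.le_mul_of_pos_right _ hP1).trans hb1
  obtain ⟨j, hj, hj1, hj2⟩ := sep_scale (P := 1) (N := n' + 1) (T := 3 * r) hL1 hA2 le_rfl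
    (by omega)
  rw [mul_one] at hj1 hj2
  set Λ1 : ℝ := C1 * A with hΛ1d
  have hΛ11 : 1 ≤ Λ1 := one_le_mul_of_one_le_of_one_le hC1' ha
  obtain ⟨n2, hn2⟩ := pow_unbounded_of_one_lt
    ((A : ℝ) ^ k * (A : ℝ) ^ d * (m * Λ1 ^ (n' + 1))) (one_lt_two (α := ℝ))
  obtain ⟨n, hnn2, hnj, hnR, hnl⟩ : ∃ n, n2 ≤ n ∧ j + 1 ≤ n ∧ R0 ≤ n ∧
      ∀ l, n1 l ≤ n ∧ nd 0 (x l) + (L + 1) ≤ n := by
    refine ⟨n2 + (j + 1) + R0 + (L + 1) + ∑ l, (n1 l + nd 0 (x l)), by omega, by omega, by omega,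
      fun l => ?_⟩
    have := Finset.single_le_sum (f := fun l => n1 l + nd 0 (x l)) (fun _ _ => Nat.zero_le _)
      (Finset.mem_univ l)
    constructor <;> omega
  have hnsc := sep_lt_sc hL1 hA2 n
  choose g f hg htot hslow0 hone hf hscr using fun l => hn1 l n (hnl l).1
  set G := GC O with hG
  set C := Cl O with hC
  have hgood : ∀ l j, κ ≤ j → HGood θ K δ G C (x l) (sc L A j) := by
    intro l j hj
    have hne : (g l).support.Nonempty := by
      rw [Finsupp.support_nonempty_iff]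
      intro h0
      have := hone l
      rw [h0, lam_zero] at this
      linarith
    obtain ⟨y, hy⟩ := hne
    have h1 := sep_succ_le_sc hL1 hA2 (hκ.trans hj)
    exact ((hx l).1.1 j hj O (fun _ _ => Iff.rfl)
      ⟨y, (hg l y hy).1, box_mono _ (by omega) (hg l y hy).2⟩).1
  have hgs : ∀ l j, 1 ≤ j → Supp C (x l) (sc L A j) (g l) := fun l j hj =>
    (hg l).mono (box_mono _ (sep_succ_le_sc hL1 hA2 hj))
  have hslow : ∀ l j, n0 l ≤ j → ∀ t, lam G C (x l) (sc L A j) (g l) ≤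
      Λ1 ^ t * lam G C (x l) (sc L A (j + t)) (g l) := by
    intro l
    refine sep_chain (fun r h1 h2 h3 => hSa hδa' h1 h2 h3) hA1' hLa
      (fun j hj => hgood l j ((hn0κ l).trans hj)) (hgs l _ (hκ.trans (hn0κ l))) (by positivity)
      (by linarith) ?_ ?_ (hslow0 l)
    · rw [hΛ1d, div_mul_eq_mul_div, div_le_iff₀ (by positivity), pow_succ, pow_one]
      linarith [mul_le_mul_of_nonneg_right hAa ha0.le]
    · rw [hΛ1d, pow_one]; linarith [mul_le_mul_of_nonneg_right hC1 ha0.le]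
  set b := sc L A (n' + 1) with hb
  have hn' : ∀ l, n0 l ≤ n' := fun l => by have := hn0N l; omega
  have hn'1 : 1 ≤ n' := hκ.trans ((hn0κ ⟨0, hm1⟩).trans (hn' _))
  have hgb : ∀ l, Supp C (x l) b (g l) := fun l => hgs l _ (by omega)
  have hlow : ∀ l, 1 ≤ Λ1 ^ (n' + 1) * lam G C (x l) b (g l) := by
    intro l
    have h1 := hslow l (n0 l + 1) (by omega) (n' - n0 l)
    have e : n0 l + 1 + (n' - n0 l) = n' + 1 := by have := hn' l; omega
    rw [e] at h1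
    refine (hone l).trans (h1.trans ?_)
    exact mul_le_mul_of_nonneg_right (pow_le_pow_right₀ hΛ11 (by omega)) (lam_nonneg (hgb l))
  obtain ⟨cf, ⟨l0, hl0⟩, hcf⟩ := sep_dep (box 0 R0) hmcard f fun l y hy => (hf l y hy).2
  obtain ⟨bb, -, hbb⟩ := Finset.exists_max_image Finset.univ
    (fun l => |cf l| * lam G C (x l) b (g l)) ⟨l0, Finset.mem_univ _⟩
  set μ := |cf bb| * lam G C (x bb) b (g bb) with hμ
  have hμl : ∀ l, |cf l| * lam G C (x l) b (g l) ≤ μ := fun l => hbb l (Finset.mem_univ _)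
  have hcμ : ∀ l, |cf l| ≤ Λ1 ^ (n' + 1) * μ := by
    intro l
    calc |cf l| = |cf l| * 1 := (mul_one _).symm
      _ ≤ |cf l| * (Λ1 ^ (n' + 1) * lam G C (x l) b (g l)) :=
          mul_le_mul_of_nonneg_left (hlow l) (abs_nonneg _)
      _ = Λ1 ^ (n' + 1) * (|cf l| * lam G C (x l) b (g l)) := by ring
      _ ≤ Λ1 ^ (n' + 1) * μ := mul_le_mul_of_nonneg_left (hμl l) (by positivity)
  have hμ0 : 0 < μ := by
    have h1 := (abs_pos.2 hl0).trans_le (hcμ l0)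
    exact (mul_pos_iff_of_pos_left (by positivity)).1 h1
  have hbA : b = sc L A n' * A := sep_sc_succ L A n'
  obtain ⟨i, hi, hhi, hhi2, hdir⟩ := hD hδ0 hδd' (hLd.trans (sep_le_sc hA1' n'))
    (by rw [← hbA]; exact hgood bb (n' + 1) (by have := hn0κ bb; have := hn' bb; omega)) (g bb) (hgs bb n' hn'1)
    (htot bb) (by have := hslow bb n' (hn' bb) 1; rwa [pow_one, sep_sc_succ] at this)
  rw [← hbA] at hhi hhi2 hdir
  have hx2 : ∀ l, x l ∈ box (x bb) (2 * r) := by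
    intro l
    have h1 := mem_box_nd.1 (hx l).2
    have h2 := mem_box_nd.1 (hx bb).2
    have h3 := nd_triangle (x bb) z (x l)
    rw [nd_comm (x bb) z] at h3
    exact mem_box_nd.2 (by omega)
  obtain ⟨ψ, hψ1, hψ2⟩ := hI r x c i bb bb hr0 hx2 hsep
  have e1 : sc L A (j + 1) = sc L A j * A := sep_sc_succ L A j
  have e2 : sc L A (j + 1 + 1) = sc L A (j + 1) * A := sep_sc_succ L A (j + 1)
  have e3 : sc L A (n' + 1 + 1) = b * A := sep_sc_succ L A (n' + 1)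
  have hS1 : 3 * r ≤ sc L A (j + 1 + 1) := hj2.le.trans (sep_sc_mono hA1' (by omega))
  have hS2 : sc L A (j + 1 + 1) ≤ 3 * r * A ^ 2 := by
    rw [e2, e1, pow_two, ← mul_assoc]
    exact Nat.mul_le_mul_right _ (Nat.mul_le_mul_right _ hj1)
  have hjκ : κ ≤ j := by have := hn0κ bb; have := hn' bb; omega
  have hb1' : 1 ≤ b := hL1.trans (sep_le_sc hA1' _)
  have hlower := sep_lower (c := cf) (μ := μ) hK hδ0 hCI hCd hA1' hP1 hb1'
    (hgood bb (j + 1 + 1) (by omega)).lift hx2 hb1 (by rw [e3] at hb2; exact hb2.le) hS1 hS2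
    (fun l => hψ1 l b hbr) (hψ2 _ (by omega)).1 (hψ2 _ (by omega)).2 hhi hhi2 hdir hgb htot hμl
    rfl hP hδZ hrZ
  set φ := ∑ l, cf l • g l with hφ
  have hsub : ∀ l, box (x l) b ⊆ box (x bb) (sc L A (j + 1)) := by
    intro l
    have := mem_box_nd.1 (hx2 l)
    exact box_subset (by omega)
  have hφS : Supp C (x bb) (sc L A (j + 1)) φ :=
    supp_sum _ fun l _ => ((hgb l).mono (hsub l)).smul _
  have hl0' : 0 ≤ lam G C (x bb) (sc L A (j + 1 + 1)) φ :=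
    lam_nonneg (hφS.mono (box_mono _ (sep_sc_mono hA1' (by omega))))
  have hc3 : (1 : ℝ) ≤ 3 * (A : ℝ) ^ 2 * P := by
    have := one_le_pow₀ (n := 2) ha
    exact one_le_mul_of_one_le_of_one_le (by linarith) hp
  have hup1 := sep_upper (G := G) cf hgb hsub hc3 (by
    have h1 : sc L A (j + 1) ≤ 3 * A ^ 2 * P * b := by
      rw [e3] at hb2
      calc sc L A (j + 1) = sc L A j * A := e1
        _ ≤ 3 * (b * A * P) * A := Nat.mul_le_mul_right _ (by omega)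
        _ = 3 * A ^ 2 * P * b := by ring
    exact_mod_cast h1)
  have hsumμ : ∑ l, |cf l| * lam G C (x l) b (g l) ≤ m * μ :=
    (Finset.sum_le_sum fun l _ => hμl l).trans (by simp)
  have hY1 : 1 ≤ (3 * (A : ℝ) ^ 2 * P) ^ d * m :=
    one_le_mul_of_one_le_of_one_le (one_le_pow₀ hc3) hm
  have hstart : lam G C (x bb) (sc L A (j + 1)) φ ≤ Λ * lam G C (x bb) (sc L A (j + 1 + 1)) φ := by
    calc lam G C (x bb) (sc L A (j + 1)) φ ≤ (3 * (A : ℝ) ^ 2 * P) ^ d * (m * μ) :=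
          hup1.trans (mul_le_mul_of_nonneg_left hsumμ (by positivity))
      _ ≤ (3 * (A : ℝ) ^ 2 * P) ^ d *
          (m * (4 * Cd * W0 * lam G C (x bb) (sc L A (j + 1 + 1)) φ)) := by gcongr
      _ = (3 * (A : ℝ) ^ 2 * P) ^ d * m * (4 * Cd * W0) *
          lam G C (x bb) (sc L A (j + 1 + 1)) φ := by ring
      _ ≤ Λ * lam G C (x bb) (sc L A (j + 1 + 1)) φ :=
          mul_le_mul_of_nonneg_right (hnum.trans hΛ1) hl0'
  have hchain := sep_chain (Λ := Λ) (fun r h1 h2 h3 => hSk hδk' h1 h2 h3) hA1' hLk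
    (fun i hi => hgood bb i (by omega)) hφS (by positivity) hΛ0.le (by
      rw [hΛ, div_mul_eq_mul_div, div_le_iff₀ (by positivity), pow_succ (A : ℝ) k]
      have := mul_le_mul_of_nonneg_left hAk (by positivity : (0 : ℝ) ≤ (A : ℝ) ^ k)
      linarith) le_rfl hstart (j + 1 + 1) (by omega) (n - (j + 1))
  have e4 : j + 1 + 1 + (n - (j + 1)) = n + 1 := by omega
  rw [e4] at hchain
  have hφ2 : φ = ∑ l, cf l • (f l + g l) := by
    simp only [smul_add, Finset.sum_add_distrib, hcf, zero_add, hφ]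
  have hup2 := sep_upper (G := G) (x := fun _ => (0 : V d)) (x' := x bb)
    (g := fun l => f l + g l) cf (b := sc L A n) (r' := sc L A (n + 1)) (cc := A)
    (fun l => ((hf l).mono (box_mono _ (by omega))).add
      ((hg l).mono (box_subset (by have := (hnl l).2; omega))))
    (fun _ => box_subset (by
      have h1 := (hnl bb).2
      have h2 : sc L A n * 2 ≤ sc L A n * A := Nat.mul_le_mul_left _ hA2
      rw [sep_sc_succ, nd_comm]; omega)) ha (by rw [sep_sc_succ]; push_cast; linarith)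
  rw [← hφ2] at hup2
  have hsum2 : ∑ l, |cf l| * lam G C 0 (sc L A n) (f l + g l) ≤
      m * (Λ1 ^ (n' + 1) * μ * (1 / (2 * Λ) ^ n)) := by
    refine (Finset.sum_le_sum (g := fun _ => Λ1 ^ (n' + 1) * μ * (1 / (2 * Λ) ^ n))
      fun l _ => ?_).trans (by simp)
    calc |cf l| * lam G C 0 (sc L A n) (f l + g l) ≤ |cf l| * (1 / (2 * Λ) ^ n) :=
          mul_le_mul_of_nonneg_left (hscr l) (abs_nonneg _)
      _ ≤ _ := mul_le_mul_of_nonneg_right (hcμ l) (by positivity)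
  have hDk : 4 * Cd * W0 ≤ (A : ℝ) ^ k := by
    refine le_trans ?_ hnum
    exact le_mul_of_one_le_left (by positivity) hY1
  have hΛt : Λ ^ (n - (j + 1)) ≤ Λ ^ n := pow_le_pow_right₀ (hAk1.trans hΛ1) (by omega)
  have hfin : μ ≤ (A : ℝ) ^ k * (A : ℝ) ^ d * (m * Λ1 ^ (n' + 1)) / 2 ^ n * μ := by
    calc μ ≤ 4 * Cd * W0 * lam G C (x bb) (sc L A (j + 1 + 1)) φ := hlower
      _ ≤ (A : ℝ) ^ k * (Λ ^ (n - (j + 1)) * ((A : ℝ) ^ d *
          (m * (Λ1 ^ (n' + 1) * μ * (1 / (2 * Λ) ^ n))))) := by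
          refine mul_le_mul hDk (hchain.trans ?_) hl0' (by positivity)
          exact mul_le_mul_of_nonneg_left
            (hup2.trans (mul_le_mul_of_nonneg_left hsum2 (by positivity))) (by positivity)
      _ ≤ (A : ℝ) ^ k * (Λ ^ n * ((A : ℝ) ^ d *
          (m * (Λ1 ^ (n' + 1) * μ * (1 / (2 * Λ) ^ n))))) := by gcongr
      _ = _ := by
          clear_value Λ
          rw [mul_pow 2 Λ n]; field_simp
  have h2n : (2 : ℝ) ^ n2 ≤ 2 ^ n := pow_le_pow_right₀ one_le_two hnn2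
  have hlt : (A : ℝ) ^ k * (A : ℝ) ^ d * (m * Λ1 ^ (n' + 1)) / 2 ^ n < 1 := by
    rw [div_lt_one (by positivity)]; linarith
  have := mul_lt_mul_of_pos_right hlt hμ0
  rw [one_mul] at this
  exact absurd hfin (not_le.2 this)

end Pool.Agent.P.MP_b4265e_pr.R
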