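import Pool.Agent.P.MP_b4265e_pr.R.Avg

/-!
The smoothing operator.
-/

namespace Pool.Agent.P.MP_b4265e_pr.R

open Finset
open scoped Classical

variable {d : ℕ}

lemma smo_mean {θ : ℝ} (hθ : 0 < θ) {C : Set (V d)} {z : V d} {ρ : ℕ} (hD : Dens θ C z ρ)
    (v : V d → ℝ) (c : ℝ) :
    |avC C ρ v z - c| ≤ l2 (cap C (box z ρ)) (fun w => v w - c) / √(θ * vol d ρ) := by
  have hp : 0 < θ * vol d ρ := mul_pos hθ (vol_pos _ _)
  have hc : (0 : ℝ) < (cap C (box z ρ)).card := hp.trans_le hD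
  have hne : (cap C (box z ρ)).Nonempty := Finset.card_pos.1 (by exact_mod_cast hc)
  refine (abs_mean_sub_le hne v c).trans ?_
  exact div_le_div_of_nonneg_left (l2_nonneg _ _) (Real.sqrt_pos.2 hp) (Real.sqrt_le_sqrt hD)

lemma smo_zero {K : ℝ} {G : Set (E d)} {C : Set (V d)} {y : V d} {m : ℕ}
    (h : Poin2 K G C y (3 * m)) (v : V d → ℝ) :
    l2 (cap C (box y (3 * m))) (fun z => v z - avC C (3 * m) v y) ≤
      3 * K * m * en G y (6 * m) v := by
  obtain ⟨c, hc⟩ := h v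
  have e : 2 * (3 * m) = 6 * m := by ring
  rw [e] at hc
  refine (l2_sub_mean_le _ v c).trans (hc.trans (le_of_eq ?_))
  push_cast
  ring

lemma smo_jensen (m : ℕ) (a : V d → ℝ) (y : V d) (c : ℝ) :
    (c - Av m (Av m a) y) ^ 2 ≤ (∑ w ∈ box y (2 * m), (c - a w) ^ 2) / vol d m := by
  have e : (c - Av m (Av m a) y) ^ 2 = (Av m (Av m a) y - c) ^ 2 := by ring
  rw [e]
  refine (Av_sub_sq_le m _ y c).trans ?_
  rw [← Av_const m ((∑ w ∈ box y (2 * m), (c - a w) ^ 2) / vol d m) y]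
  refine Av_mono fun z hz => (Av_sub_sq_le m a z c).trans ?_
  unfold Av
  refine div_le_div_of_nonneg_right ?_ (vol_pos _ _).le
  have hz' := mem_box_nd.1 hz
  calc ∑ w ∈ box z m, (a w - c) ^ 2 = ∑ w ∈ box z m, (c - a w) ^ 2 :=
        Finset.sum_congr rfl fun w _ => by ring
    _ ≤ _ := Finset.sum_le_sum_of_subset_of_nonneg (box_subset (by omega))
        fun _ _ _ => sq_nonneg _

lemma smo_swap (C : Set (V d)) (x : V d) (r m : ℕ) {F : V d → V d → ℝ} (hF : ∀ y w, 0 ≤ F y w) :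
    ∑ y ∈ cap C (box x r), ∑ w ∈ box y (2 * m), F y w ≤
      ∑ w ∈ box x (r + 2 * m), ∑ y ∈ cap C (box w (3 * m)), F y w := by
  calc ∑ y ∈ cap C (box x r), ∑ w ∈ box y (2 * m), F y w
      = ∑ y ∈ cap C (box x r), ∑ w ∈ box x (r + 2 * m),
          if w ∈ box y (2 * m) then F y w else 0 := by
        refine Finset.sum_congr rfl fun y hy => ?_
        have hy' := mem_box_nd.1 (mem_cap.1 hy).1
        rw [← Finset.sum_filter]
        refine Finset.sum_congr ?_ fun _ _ => rfl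
        ext w
        rw [Finset.mem_filter]
        exact ⟨fun h => ⟨box_subset (by omega) h, h⟩, fun h => h.2⟩
    _ = ∑ w ∈ box x (r + 2 * m), ∑ y ∈ cap C (box x r),
          if w ∈ box y (2 * m) then F y w else 0 := Finset.sum_comm
    _ ≤ _ := by
        refine Finset.sum_le_sum fun w _ => ?_
        rw [← Finset.sum_filter]
        refine Finset.sum_le_sum_of_subset_of_nonneg (fun y hy => ?_) fun _ _ _ => hF _ _
        rw [Finset.mem_filter] at hy
        exact mem_cap.2 ⟨box_mono _ (by omega) (mem_box_comm.1 hy.2), (mem_cap.1 hy.1).2⟩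

lemma smo_one {θ K : ℝ} (hK : 0 < K) {G : Set (E d)} {C : Set (V d)} {x : V d} {r m : ℕ}
    (h : LocP θ K G C x (r + 3 * m) m) (v : V d → ℝ) :
    l2 (cap C (box x r)) (fun y => v y - sm C m v y) ≤
      3 * K * 6 ^ d * m * en G x (r + 12 * m) v := by
  have hv := vol_pos d m
  have hen := en_nonneg G x (r + 12 * m) v
  refine l2_le_of_sq_le (by positivity) ?_
  have h6 : vol d (6 * m) ≤ 6 ^ d * vol d m :=
    vol_le_of_le_mul d (by norm_num) (by push_cast; exact le_rfl)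
  have h1 : (1 : ℝ) ≤ 6 ^ d := one_le_pow₀ (by norm_num)
  have hmono : en G x (r + 2 * m + 6 * m) v ^ 2 ≤ en G x (r + 12 * m) v ^ 2 :=
    pow_le_pow_left₀ (en_nonneg _ _ _ _) (en_mono G (by rw [nd_self]; omega) v) 2
  calc ∑ y ∈ cap C (box x r), (v y - sm C m v y) ^ 2
      ≤ ∑ y ∈ cap C (box x r),
          (∑ w ∈ box y (2 * m), (v y - avC C (3 * m) v w) ^ 2) / vol d m :=
        Finset.sum_le_sum fun y _ => smo_jensen m _ y (v y)
    _ = (∑ y ∈ cap C (box x r), ∑ w ∈ box y (2 * m), (v y - avC C (3 * m) v w) ^ 2) / vol d m :=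
        (Finset.sum_div _ _ _).symm
    _ ≤ (∑ w ∈ box x (r + 2 * m), ∑ y ∈ cap C (box w (3 * m)),
          (v y - avC C (3 * m) v w) ^ 2) / vol d m :=
        div_le_div_of_nonneg_right (smo_swap C x r m fun _ _ => sq_nonneg _) hv.le
    _ ≤ (∑ w ∈ box x (r + 2 * m), (3 * K * m) ^ 2 * en G w (6 * m) v ^ 2) / vol d m := by
        refine div_le_div_of_nonneg_right (Finset.sum_le_sum fun w hw => ?_) hv.le
        have hw' : w ∈ box x (r + 3 * m) := box_mono _ (by omega) hw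
        have h0 := smo_zero (h w hw' (3 * m) (by omega) (by omega)).2 v
        rw [← l2_sq, ← mul_pow]
        exact pow_le_pow_left₀ (l2_nonneg _ _) h0 2
    _ ≤ ((3 * K * m) ^ 2 * (vol d (6 * m) * en G x (r + 2 * m + 6 * m) v ^ 2)) / vol d m := by
        rw [← Finset.mul_sum]
        exact div_le_div_of_nonneg_right
          (mul_le_mul_of_nonneg_left (sum_en_sq_le G x _ _ v) (sq_nonneg _)) hv.le
    _ ≤ ((3 * K * m) ^ 2 * ((6 ^ d * vol d m) * en G x (r + 12 * m) v ^ 2)) / vol d m := by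
        refine div_le_div_of_nonneg_right (mul_le_mul_of_nonneg_left ?_ (sq_nonneg _)) hv.le
        exact mul_le_mul h6 hmono (sq_nonneg _) (by positivity)
    _ = 6 ^ d * (3 * K * m * en G x (r + 12 * m) v) ^ 2 := by
        field_simp
    _ ≤ (6 ^ d) ^ 2 * (3 * K * m * en G x (r + 12 * m) v) ^ 2 :=
        mul_le_mul_of_nonneg_right (by nlinarith) (sq_nonneg _)
    _ = _ := by ring

lemma smo_osc {θ K : ℝ} (hθ : 0 < θ) {G : Set (E d)} {C : Set (V d)} {x : V d} {r m : ℕ}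
    (hm : 2 ≤ m) (h : LocP θ K G C x (r + 3 * m) m) (v : V d → ℝ) {y : V d} (hy : y ∈ box x r) :
    ∃ c : ℝ, ∀ z ∈ box y (2 * m + 2), |avC C (3 * m) v z - c| ≤
      6 * K * m * (en G y (12 * m) v / √(θ * vol d (3 * m))) := by
  have hy' := mem_box_nd.1 hy
  obtain ⟨c, hc⟩ := (h y (box_mono _ (by omega) hy) (6 * m) (by omega) le_rfl).2 v
  have e : 2 * (6 * m) = 12 * m := by ring
  rw [e] at hc
  refine ⟨c, fun z hz => ?_⟩
  have hz' := mem_box_nd.1 hz
  have ht := nd_triangle x y z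
  have hD := (h z (mem_box_nd.2 (by omega)) (3 * m) (by omega) (by omega)).1
  refine (smo_mean hθ hD v c).trans ?_
  rw [← mul_div_assoc]
  refine div_le_div_of_nonneg_right ?_ (Real.sqrt_nonneg _)
  refine (l2_mono (cap_mono C (box_subset (x' := y) (r' := 6 * m) (by omega))) _).trans
    (hc.trans (le_of_eq ?_))
  push_cast
  ring

lemma smo_sum {θ : ℝ} (hθ : 0 < θ) (G : Set (E d)) (x : V d) (r m : ℕ) (v : V d → ℝ)
    {F : V d → ℝ} {A : ℝ} (hA : 0 ≤ A)
    (hF : ∀ y ∈ box x r, |F y| ≤ A * (en G y (12 * m) v / √(θ * vol d (3 * m)))) :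
    l2 (box x r) F ≤ A * (2 ^ d / √θ) * en G x (r + 12 * m) v := by
  have hv := vol_pos d (3 * m)
  have hp : 0 < θ * vol d (3 * m) := mul_pos hθ hv
  have hen := en_nonneg G x (r + 12 * m) v
  refine l2_le_of_sq_le (by positivity) ?_
  have h4 : vol d (12 * m) ≤ 4 ^ d * vol d (3 * m) :=
    vol_le_of_le_mul d (by norm_num) (by push_cast; linarith)
  have e4 : (4 : ℝ) ^ d = (2 ^ d) ^ 2 := by
    rw [← pow_mul, mul_comm, pow_mul]
    norm_num
  calc ∑ y ∈ box x r, F y ^ 2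
      ≤ ∑ y ∈ box x r, A ^ 2 / (θ * vol d (3 * m)) * en G y (12 * m) v ^ 2 := by
        refine Finset.sum_le_sum fun y hy => ?_
        have h1 := pow_le_pow_left₀ (abs_nonneg _) (hF y hy) 2
        rw [sq_abs, mul_pow, div_pow, Real.sq_sqrt hp.le] at h1
        refine h1.trans (le_of_eq ?_)
        ring
    _ ≤ A ^ 2 / (θ * vol d (3 * m)) * (vol d (12 * m) * en G x (r + 12 * m) v ^ 2) := by
        rw [← Finset.mul_sum]
        exact mul_le_mul_of_nonneg_left (sum_en_sq_le G x _ _ v) (by positivity)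
    _ ≤ A ^ 2 / (θ * vol d (3 * m)) * ((4 ^ d * vol d (3 * m)) * en G x (r + 12 * m) v ^ 2) :=
        mul_le_mul_of_nonneg_left (mul_le_mul_of_nonneg_right h4 (sq_nonneg _)) (by positivity)
    _ = _ := by
        rw [mul_pow, mul_pow, div_pow, Real.sq_sqrt hθ.le, e4]
        field_simp

lemma smo_frac {m : ℕ} (hm : 2 ≤ m) : (2 : ℝ) / (2 * m + 1) * m ≤ 1 := by
  have : (0 : ℝ) < m := by exact_mod_cast (by omega : 0 < m)
  rw [div_mul_eq_mul_div, div_le_one (by positivity)]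
  linarith

lemma smo_two {θ K : ℝ} (hθ : 0 < θ) (hK : 0 < K) {G : Set (E d)} {C : Set (V d)} {x : V d}
    {r m : ℕ} (hm : 2 ≤ m) (h : LocP θ K G C x (r + 3 * m) m) (v : V d → ℝ) (j : Fin d) :
    l2 (box x r) (dif j (sm C m v)) ≤ 6 * K * (2 ^ d / √θ) * en G x (r + 12 * m) v := by
  refine smo_sum hθ G x r m v (by positivity) fun y hy => ?_
  obtain ⟨c, hc⟩ := smo_osc hθ hm h v hy
  have h1 := abs_dif_Av_le (m := m) (f := Av m (avC C (3 * m) v)) (y := y) (c := c) j
    fun z hz => abs_Av_sub_le fun w hw => hc w (by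
      have := mem_box_nd.1 hz
      exact box_subset (by omega) hw)
  refine h1.trans ?_
  have hf := smo_frac hm
  have hE : 0 ≤ 6 * K * (en G y (12 * m) v / √(θ * vol d (3 * m))) :=
    mul_nonneg (by positivity) (div_nonneg (en_nonneg _ _ _ _) (Real.sqrt_nonneg _))
  calc 2 / (2 * (m : ℝ) + 1) * (6 * K * m * (en G y (12 * m) v / √(θ * vol d (3 * m))))
      = (2 / (2 * (m : ℝ) + 1) * m) * (6 * K * (en G y (12 * m) v / √(θ * vol d (3 * m)))) := by
        ring
    _ ≤ 1 * (6 * K * (en G y (12 * m) v / √(θ * vol d (3 * m)))) :=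
        mul_le_mul_of_nonneg_right hf hE
    _ = _ := one_mul _

lemma smo_three {θ K : ℝ} (hθ : 0 < θ) (hK : 0 < K) {G : Set (E d)} {C : Set (V d)} {x : V d}
    {r m : ℕ} (hm : 2 ≤ m) (h : LocP θ K G C x (r + 3 * m) m) (v : V d → ℝ) (j l : Fin d) :
    l2 (box x r) (dif j (dif l (sm C m v))) ≤
      6 * K / m * (2 ^ d / √θ) * en G x (r + 12 * m) v := by
  have hm0 : (0 : ℝ) < m := by exact_mod_cast (by omega : 0 < m)
  refine smo_sum hθ G x r m v (by positivity) fun y hy => ?_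
  obtain ⟨c, hc⟩ := smo_osc hθ hm h v hy
  have h1 := abs_dif_Av_le (m := m) (f := dif l (Av m (avC C (3 * m) v))) (y := y) (c := 0) j
    fun z hz => by
      rw [sub_zero]
      exact abs_dif_Av_le (c := c) l fun w hw => hc w (by
        have := mem_box_nd.1 hz
        exact box_subset (by omega) hw)
  rw [← dif_Av] at h1
  refine h1.trans ?_
  have hf := smo_frac hm
  have hf0 : 0 ≤ (2 : ℝ) / (2 * m + 1) * m := by positivity
  have hE : 0 ≤ 6 * K / m * (en G y (12 * m) v / √(θ * vol d (3 * m))) :=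
    mul_nonneg (by positivity) (div_nonneg (en_nonneg _ _ _ _) (Real.sqrt_nonneg _))
  calc 2 / (2 * (m : ℝ) + 1) * (2 / (2 * (m : ℝ) + 1) *
        (6 * K * m * (en G y (12 * m) v / √(θ * vol d (3 * m)))))
      = (2 / (2 * (m : ℝ) + 1) * m) ^ 2 *
          (6 * K / m * (en G y (12 * m) v / √(θ * vol d (3 * m)))) := by
        field_simp
    _ ≤ 1 * (6 * K / m * (en G y (12 * m) v / √(θ * vol d (3 * m)))) :=
        mul_le_mul_of_nonneg_right (pow_le_one₀ hf0 hf) hE
    _ = _ := one_mul _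

lemma smo_four {θ K : ℝ} (hθ : 0 < θ) {G : Set (E d)} {C : Set (V d)} {x : V d}
    {r m : ℕ} (h : LocP θ K G C x (r + 3 * m) m) (v : V d → ℝ) :
    l2 (box x r) (sm C m v) ≤ 1 / √θ * l2 (cap C (box x (r + 5 * m))) v := by
  have hv := vol_pos d (3 * m)
  have hp : 0 < θ * vol d (3 * m) := mul_pos hθ hv
  have hl := l2_nonneg (cap C (box x (r + 5 * m))) v
  refine (l2_Av_le m r _ x).trans ((l2_Av_le m (r + m) _ x).trans ?_)
  refine l2_le_of_sq_le (by positivity) ?_
  have e : r + m + m + 3 * m = r + 5 * m := by ring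
  have hs := sum_sum_box_le C x (r + m + m) (3 * m) (f := fun z => v z ^ 2) fun _ => sq_nonneg _
  rw [e] at hs
  calc ∑ z ∈ box x (r + m + m), avC C (3 * m) v z ^ 2
      ≤ ∑ z ∈ box x (r + m + m),
          1 / (θ * vol d (3 * m)) * ∑ w ∈ cap C (box z (3 * m)), v w ^ 2 := by
        refine Finset.sum_le_sum fun z hz => ?_
        have hD := (h z (box_mono _ (by omega) hz) (3 * m) (by omega) (by omega)).1
        have h1 := pow_le_pow_left₀ (abs_nonneg _) (smo_mean hθ hD v 0) 2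
        rw [sq_abs, div_pow, Real.sq_sqrt hp.le, l2_sq] at h1
        simp only [sub_zero] at h1
        refine h1.trans (le_of_eq ?_)
        ring
    _ ≤ 1 / (θ * vol d (3 * m)) * (vol d (3 * m) * ∑ z ∈ cap C (box x (r + 5 * m)), v z ^ 2) := by
        rw [← Finset.mul_sum]
        exact mul_le_mul_of_nonneg_left hs (by positivity)
    _ = _ := by
        rw [mul_pow, div_pow, Real.sq_sqrt hθ.le, l2_sq]
        field_simp

/-- Properties of the smoothing operator. -/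
theorem smoothing (d : ℕ) {θ K : ℝ} (hθ : 0 < θ) (hK : 0 < K) : ∃ Cs : ℝ, 1 ≤ Cs ∧
    ∀ (G : Set (E d)) (C : Set (V d)) (x : V d) (r m : ℕ), 2 ≤ m → LocP θ K G C x (r + 3 * m) m →
    ∀ v : V d → ℝ,
      (∀ y ∈ box x (r + 3 * m), l2 (cap C (box y (3 * m))) (fun z => v z - avC C (3 * m) v y) ≤
        Cs * m * en G y (6 * m) v) ∧
      l2 (cap C (box x r)) (fun y => v y - sm C m v y) ≤ Cs * m * en G x (r + 12 * m) v ∧
      (∀ j, l2 (box x r) (dif j (sm C m v)) ≤ Cs * en G x (r + 12 * m) v) ∧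
      (∀ j l, l2 (box x r) (dif j (dif l (sm C m v))) ≤ Cs / m * en G x (r + 12 * m) v) ∧
      l2 (box x r) (sm C m v) ≤ Cs * l2 (cap C (box x (r + 5 * m))) v := by
  have a0 : 0 ≤ 3 * K := by positivity
  have a1 : 0 ≤ 3 * K * 6 ^ d := by positivity
  have a2 : 0 ≤ 6 * K * (2 ^ d / √θ) := by positivity
  have a3 : 0 ≤ 1 / √θ := by positivity
  refine ⟨1 + 3 * K + 3 * K * 6 ^ d + 6 * K * (2 ^ d / √θ) + 1 / √θ, by linarith,
    fun G C x r m hm h v => ⟨fun y hy => ?_, ?_, fun j => ?_, fun j l => ?_, ?_⟩⟩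
  · refine (smo_zero (h y hy (3 * m) (by omega) (by omega)).2 v).trans ?_
    exact mul_le_mul_of_nonneg_right
      (mul_le_mul_of_nonneg_right (by linarith) (Nat.cast_nonneg _)) (en_nonneg _ _ _ _)
  · refine (smo_one hK h v).trans ?_
    exact mul_le_mul_of_nonneg_right
      (mul_le_mul_of_nonneg_right (by linarith) (Nat.cast_nonneg _)) (en_nonneg _ _ _ _)
  · refine (smo_two hθ hK hm h v j).trans ?_
    exact mul_le_mul_of_nonneg_right (by linarith) (en_nonneg _ _ _ _)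
  · refine (smo_three hθ hK hm h v j l).trans ?_
    refine mul_le_mul_of_nonneg_right ?_ (en_nonneg _ _ _ _)
    rw [div_mul_eq_mul_div]
    exact div_le_div_of_nonneg_right (by linarith) (Nat.cast_nonneg _)
  · refine (smo_four hθ h v).trans ?_
    exact mul_le_mul_of_nonneg_right (by linarith) (l2_nonneg _ _)

lemma sm_eq_zero {C : Set (V d)} {m : ℕ} {v : V d → ℝ} {y : V d}
    (h : ∀ z ∈ box y (5 * m), z ∈ C → v z = 0) : sm C m v y = 0 := by
  refine Av_eq_zero fun z hz => Av_eq_zero fun w hw => ?_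
  have hz' := mem_box_nd.1 hz
  have hw' := mem_box_nd.1 hw
  have ht := nd_triangle y z w
  unfold avC
  rw [Finset.sum_eq_zero, zero_div]
  intro u hu
  exact h u (box_subset (by omega) (mem_cap.1 hu).1) (mem_cap.1 hu).2

end Pool.Agent.P.MP_b4265e_pr.R
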