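import Pool.Agent.P.MP_b4265e_pr.R.Taylor

/-!
The three-scale inequality for the dual norms, and the direction of a slowly decaying dipole.
-/

namespace Pool.Agent.P.MP_b4265e_pr.R

open Finset
open scoped Classical

/-- Normalised form of the approximation property. -/
lemma star_appr {d : ℕ} {K δ : ℝ} {G : Set (E d)} {C : Set (V d)} {x : V d} {r A : ℕ}
    (hK : 0 ≤ K) (hδ : 0 ≤ δ) (hA : 16 ≤ A) (ha : Appr K δ G C x (r * A)) {h : V d → ℝ}
    (hh : Harm G x (r * A) h) (hn : nrm C x (r * A) h ≤ 1) :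
    ∃ H : V d → ℝ, Harm Set.univ x (r * A / 4) H ∧
      nrm C x r (fun y => h y - H y) ≤ (A : ℝ) ^ d * δ ∧ ∀ y ∈ box x (r * A / 4), |H y| ≤ K := by
  obtain ⟨H, h1, h2, h3⟩ := ha h hh
  have hr : r * 16 ≤ r * A := Nat.mul_le_mul_left r hA
  have hA1 : (1 : ℝ) ≤ A := by exact_mod_cast (by omega : 1 ≤ A)
  refine ⟨H, h1.mono (box_mono x (by omega)), ?_, fun y hy => (h3 y hy).trans ?_⟩
  · have e1 : ((r * A / 2 : ℕ) : ℝ) ≤ A * r := by
      have : r * A / 2 ≤ A * r := by rw [Nat.mul_comm A r]; omega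
      exact_mod_cast this
    refine (nrm_le_of_subset' C (box_mono x (by omega : r ≤ r * A / 2)) hA1 e1 _).trans ?_
    refine mul_le_mul_of_nonneg_left (h2.trans ?_) (by positivity)
    exact mul_le_of_le_one_right hδ hn
  · exact mul_le_of_le_one_right hK hn

/-- Arithmetic of the scale `r * A / 4`. -/
lemma star_scale {r A : ℕ} (hr : 1 ≤ r) (hA : 16 ≤ A) :
    (0 : ℝ) < (r * A / 4 : ℕ) ∧ ((r * A : ℕ) : ℝ) / (r * A / 4 : ℕ) ≤ 8 ∧
      (r : ℝ) / (r * A / 4 : ℕ) ≤ 8 / A := by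
  have h1 : r * 16 ≤ r * A := Nat.mul_le_mul_left r hA
  have h2 : (0 : ℝ) < (r * A / 4 : ℕ) := by exact_mod_cast (by omega : 0 < r * A / 4)
  have h3 : ((r * A : ℕ) : ℝ) ≤ 8 * (r * A / 4 : ℕ) := by
    exact_mod_cast (by omega : r * A ≤ 8 * (r * A / 4))
  have h4 : (0 : ℝ) < A := by exact_mod_cast (by omega : 0 < A)
  refine ⟨h2, (div_le_iff₀ h2).2 h3, ?_⟩
  rw [div_le_div_iff₀ h2 h4]
  rwa [Nat.cast_mul] at h3

theorem star (d : ℕ) {K : ℝ} (hK : 0 < K) (k : ℕ) : ∃ Ck : ℝ, 1 ≤ Ck ∧ ∀ A : ℕ, 16 ≤ A →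
    ∃ (δ0 : ℝ) (s0 : ℕ), 0 < δ0 ∧ ∀ {θ δ : ℝ} {G : Set (E d)} {C : Set (V d)} {x : V d} {r : ℕ},
    δ ≤ δ0 → s0 ≤ r → HGood θ K δ G C x (r * A) → HGood θ K δ G C x (r * A * A) →
    ∀ φ : V d →₀ ℝ, Supp C x r φ →
      lam G C x (r * A) φ ≤ Ck * (A : ℝ) ^ k * lam G C x (r * A * A) φ +
        Ck / (A : ℝ) ^ (k + 1) * lam G C x r φ := by
  obtain ⟨Ct, st, hCt, hst, hT⟩ := taylor d k
  have hCK : 0 < Ct * K := by positivity
  refine ⟨Ct * K * 8 ^ (k + 1) + 1, by linarith [show 0 ≤ Ct * K * 8 ^ (k + 1) by positivity],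
    fun A hA => ?_⟩
  have hA0 : (0 : ℝ) < A := by exact_mod_cast (by omega : 0 < A)
  have hA1 : (1 : ℝ) ≤ A := by exact_mod_cast (by omega : 1 ≤ A)
  obtain ⟨M, hM⟩ : ∃ M : ℝ, M = Ct * K * (8 * A) ^ k := ⟨_, rfl⟩
  have hM0 : 0 < M := by rw [hM]; positivity
  obtain ⟨W, hW⟩ : ∃ W : ℝ, W = (A : ℝ) ^ d + (A * A) ^ d * (2 * M) := ⟨_, rfl⟩
  have hW0 : 0 < W := by rw [hW]; positivity
  obtain ⟨δ0, hδ0, hδ1, hδ2⟩ : ∃ δ0 : ℝ, 0 < δ0 ∧ δ0 ≤ 1 / 2 ∧ W * δ0 ≤ 1 / (A : ℝ) ^ (k + 1) := by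
    refine ⟨min (1 / 2) (1 / (A : ℝ) ^ (k + 1) / W), by positivity, min_le_left _ _, ?_⟩
    rw [← le_div_iff₀' hW0]
    exact min_le_right _ _
  obtain ⟨s1, hs1⟩ := exists_nat_ge (K * (512 * A) / δ0)
  refine ⟨δ0, max st s1, hδ0, ?_⟩
  intro θ δ G C x r hδ hr g1 g2 φ hφ
  replace g1 := g1.mono hδ
  replace g2 := g2.mono hδ
  have hr1 : st ≤ r := (le_max_left _ _).trans hr
  have hr2 : (s1 : ℝ) ≤ r := by exact_mod_cast (le_max_right _ _).trans hr
  have hr0 : (0 : ℝ) < r := by exact_mod_cast (by omega : 0 < r)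
  have e1 : r * 16 ≤ r * A := Nat.mul_le_mul_left r hA
  have e2 : r * A * 16 ≤ r * A * A := Nat.mul_le_mul_left _ hA
  obtain ⟨p0, p1, p2⟩ := star_scale (by omega : 1 ≤ r) hA
  have hφ2 : Supp C x (r * A * A) φ := hφ.mono (box_mono x (by omega))
  have l0 := lam_nonneg (G := G) hφ
  have l2 := lam_nonneg (G := G) hφ2
  refine lam_le (by positivity) fun h hh hn => ?_
  obtain ⟨H, h1, h2, h3⟩ := star_appr hK.le hδ0.le hA g1.appr hh hn
  obtain ⟨T, t1, t2⟩ := hT H x (r * A / 4) K (by omega) h1 h3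
  obtain ⟨t3, t4⟩ := t2 (r * A * A) (by omega)
  replace t1 := t1 r (by omega)
  generalize r * A / 4 = s at p0 p1 p2 t1 t3 t4
  have hS0 : (0 : ℝ) < (r * A * A : ℕ) := by exact_mod_cast (by omega : 0 < r * A * A)
  have q1 : ((r * A * A : ℕ) : ℝ) / s ≤ 8 * A := by
    rw [Nat.cast_mul (r * A) A, mul_div_right_comm]
    exact mul_le_mul_of_nonneg_right p1 hA0.le
  obtain ⟨M0, hM0'⟩ : ∃ M0 : ℝ, M0 = Ct * K * (((r * A * A : ℕ) : ℝ) / s) ^ k := ⟨_, rfl⟩
  rw [← hM0'] at t3 t4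
  have q2 : 0 ≤ M0 := by rw [hM0']; positivity
  have q3 : M0 ≤ M := by
    rw [hM0', hM]
    exact mul_le_mul_of_nonneg_left (pow_le_pow_left₀ (by positivity) q1 k) hCK.le
  have q4 : K * (((r * A * A : ℕ) : ℝ) ^ 2 / (s : ℝ) ^ 3) ≤ δ0 := by
    have a1 : ((r * A * A : ℕ) : ℝ) ^ 2 / (s : ℝ) ^ 3 =
        (((r * A * A : ℕ) : ℝ) / s) ^ 2 * ((r : ℝ) / s) / r := by
      field_simp
    have a2 : (((r * A * A : ℕ) : ℝ) / s) ^ 2 * ((r : ℝ) / s) ≤ (8 * A) ^ 2 * (8 / A) :=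
      mul_le_mul (pow_le_pow_left₀ (by positivity) q1 2) p2 (by positivity) (by positivity)
    have a3 : (8 * A : ℝ) ^ 2 * (8 / A) = 512 * A := by field_simp; norm_num
    rw [a1, ← mul_div_assoc, div_le_iff₀ hr0]
    rw [div_le_iff₀ hδ0] at hs1
    have a4 := mul_le_mul_of_nonneg_left (a2.trans a3.le) hK.le
    have a5 := mul_le_mul_of_nonneg_right hr2 hδ0.le
    linarith
  obtain ⟨h', u1, u2⟩ := g2.lift T M0 (((r * A * A : ℕ) : ℝ) ^ 2 / (s : ℝ) ^ 3) (by positivity) t3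
    (fun y hy => (t4 y hy).trans (le_of_eq (by field_simp)))
  have u3 : nrm C x (r * A * A) (fun y => h' y - T y) ≤ 2 * M * δ0 := by
    refine u2.trans ?_
    have := mul_le_mul (show δ0 + K * (((r * A * A : ℕ) : ℝ) ^ 2 / (s : ℝ) ^ 3) ≤ 2 * δ0 by
      linarith) q3 q2 (by positivity)
    linarith
  have u4 : nrm C x (r * A * A) T ≤ M := by
    refine nrm_le_sup hM0.le fun y hy _ => ?_
    have := t3 [] (by simp) y (box_mono x (by omega) hy)
    simp only [difs, List.length_nil, pow_zero, div_one] at this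
    exact this.trans q3
  have u5 : nrm C x (r * A * A) h' ≤ 2 * M := by
    have := nrm_add_le C x (r * A * A) (fun y => h' y - T y) T
    simp only [sub_add_cancel] at this
    have a1 := mul_le_mul_of_nonneg_left hδ1 (show 0 ≤ 2 * M by positivity)
    have a2 : nrm C x (r * A * A) (fun y => h' y) = nrm C x (r * A * A) h' := rfl
    linarith
  have u6 : nrm C x r (fun y => h y - h' y) ≤ (Ct * K * 8 ^ (k + 1) + 1) / (A : ℝ) ^ (k + 1) := by
    have a1 := nrm_add_le C x r (fun y => h y - H y) (fun y => H y - T y)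
    have a2 := nrm_sub_le C x r (fun y => h y - H y + (H y - T y)) (fun y => h' y - T y)
    have a3 : nrm C x r (fun y => h y - H y + (H y - T y) - (h' y - T y)) =
        nrm C x r (fun y => h y - h' y) := nrm_congr fun y _ _ => by ring
    have a4 : nrm C x r (fun y => H y - T y) ≤ Ct * K * (8 / A) ^ (k + 1) :=
      nrm_le_sup (by positivity) fun y hy _ => (t1 y hy).trans
        (mul_le_mul_of_nonneg_left (pow_le_pow_left₀ (by positivity) p2 _) hCK.le)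
    have a5 := nrm_le_of_subset' C (box_mono x (by omega : r ≤ r * A * A))
      (one_le_mul_of_one_le_of_one_le hA1 hA1) (le_of_eq (by push_cast; ring))
      (fun y => h' y - T y)
    have a6 := mul_le_mul_of_nonneg_left u3 (show (0 : ℝ) ≤ (A * A) ^ d by positivity)
    rw [div_pow, ← mul_div_assoc] at a4
    rw [hW] at hδ2
    rw [add_div]
    linarith
  have v1 := abs_pair_le hφ2 u1
  have v2 := abs_pair_le hφ ((hh.mono (box_mono x (by omega))).sub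
    (u1.mono (box_mono x (by omega : r ≤ r * A * A))))
  rw [pair_sub_right] at v2
  have v3 := mul_le_mul_of_nonneg_left u6 l0
  have v4 : 2 * M ≤ (Ct * K * 8 ^ (k + 1) + 1) * (A : ℝ) ^ k := by
    rw [hM, mul_pow, pow_succ]
    have : 0 ≤ Ct * K * 8 ^ k * (A : ℝ) ^ k := by positivity
    have : 0 ≤ (A : ℝ) ^ k := by positivity
    linarith
  have v5 := mul_le_mul_of_nonneg_left (u5.trans v4) l2
  have v6 := le_abs_self (pair φ h')
  have v7 := le_abs_self (pair φ h - pair φ h')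
  linarith

theorem direction {d : ℕ} (hd : 1 ≤ d) {K : ℝ} (hK : 0 < K) : ∃ Cd : ℝ, 1 ≤ Cd ∧
    ∀ C1 : ℝ, 0 < C1 → ∃ A0 : ℕ, ∀ A ≥ A0,
    ∃ (δ0 : ℝ) (s0 : ℕ), 0 < δ0 ∧ ∀ {θ δ : ℝ} {G : Set (E d)} {C : Set (V d)} {x : V d} {r : ℕ},
    0 < δ → δ ≤ δ0 → s0 ≤ r → HGood θ K δ G C x (r * A) →
    ∀ g : V d →₀ ℝ, Supp C x r g → pair g (fun _ => 1) = 0 →
      lam G C x r g ≤ C1 * A * lam G C x (r * A) g →
      ∃ (i : Fin d) (h : V d → ℝ), Harm G x (r * A) h ∧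
        nrm C x (r * A) (fun y => h y - ((y i - x i : ℤ) : ℝ) / (r * A : ℕ)) ≤ 2 * δ ∧
        lam G C x (r * A) g ≤ Cd * |pair g h| := by
  obtain ⟨Ct, st, hCt, hst, hT⟩ := taylor_one d
  have hCK : 0 < Ct * K := by positivity
  obtain ⟨D, hD⟩ : ∃ D : ℝ, D = d * (8 * (Ct * K)) := ⟨_, rfl⟩
  have hD0 : 0 ≤ D := by rw [hD]; positivity
  refine ⟨2 * D + 1, by linarith, fun C1 hC1 => ?_⟩
  obtain ⟨A1, hA1'⟩ := exists_nat_ge (256 * C1 * (Ct * K))
  refine ⟨max 16 A1, fun A hA' => ?_⟩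
  have hA : 16 ≤ A := (le_max_left _ _).trans hA'
  have hA2 : (A1 : ℝ) ≤ A := by exact_mod_cast (le_max_right _ _).trans hA'
  have hA0 : (0 : ℝ) < A := by exact_mod_cast (by omega : 0 < A)
  have hA1 : (1 : ℝ) ≤ A := by exact_mod_cast (by omega : 1 ≤ A)
  obtain ⟨W, hW⟩ : ∃ W : ℝ, W = C1 * A * ((A : ℝ) ^ d * (1 + 2 * D)) := ⟨_, rfl⟩
  have hW0 : 0 < W := by rw [hW]; positivity
  refine ⟨1 / 4 / W, st, by positivity, ?_⟩
  intro θ δ G C x r hδ0 hδ hr g1 g hg hg0 hl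
  rw [le_div_iff₀' hW0] at hδ
  have e1 : r * 16 ≤ r * A := Nat.mul_le_mul_left r hA
  obtain ⟨p0, p1, p2⟩ := star_scale (by omega : 1 ≤ r) hA
  have hS0 : (0 : ℝ) < (r * A : ℕ) := by exact_mod_cast (by omega : 0 < r * A)
  have hex : ∀ i : Fin d, ∃ h : V d → ℝ, Harm G x (r * A) h ∧
      nrm C x (r * A) (fun y => h y - ((y i - x i : ℤ) : ℝ) / (r * A : ℕ)) ≤ 2 * δ := by
    intro i
    obtain ⟨h, h1, h2⟩ := g1.lift _ 2 0 le_rfl (smooth_coord x i (by omega))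
      (fun y _ => by rw [lapG_coord]; simp)
    exact ⟨h, h1, h2.trans (le_of_eq (by ring))⟩
  choose F hF1 hF2 using hex
  obtain ⟨i0, -, hi0⟩ := exists_max_image univ (fun i => |pair g (F i)|) ⟨⟨0, hd⟩, mem_univ _⟩
  refine ⟨i0, F i0, hF1 i0, hF2 i0, ?_⟩
  have l0 := lam_nonneg (G := G) hg
  have l1 := lam_nonneg (G := G) (hg.mono (box_mono x (by omega : r ≤ r * A)))
  have hP := abs_nonneg (pair g (F i0))
  have hDP := mul_nonneg hD0 hP
  suffices hs : lam G C x (r * A) g ≤ lam G C x (r * A) g / 2 + D * |pair g (F i0)| by linarith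
  refine lam_le (by positivity) fun h hh hn => ?_
  obtain ⟨H, h1, h2, h3⟩ := star_appr hK.le hδ0.le hA g1.appr hh hn
  obtain ⟨t, t1, t2⟩ := hT H x (r * A / 4) K (by omega) h1 h3
  replace t2 := t2 r (by omega)
  generalize r * A / 4 = s at p0 p1 p2 t2
  obtain ⟨t', ht'⟩ : ∃ t' : Fin d → ℝ, t' = fun i => t i * (((r * A : ℕ) : ℝ) / s) := ⟨_, rfl⟩
  have t3 : ∀ i, |t' i| ≤ 8 * (Ct * K) := by
    intro i
    rw [ht', abs_mul, abs_of_nonneg (show (0 : ℝ) ≤ ((r * A : ℕ) : ℝ) / s by positivity),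
      mul_comm (8 : ℝ)]
    exact mul_le_mul (t1 i) p1 (by positivity) hCK.le
  have hb : box x r ⊆ box x (r * A) := box_mono x (by omega)
  have u1 : Harm G x r (fun y => h y - H x - ∑ i, t' i * F i y) :=
    ((hh.mono hb).sub (harm_const G x r (H x))).sub
      (harm_sum univ fun i _ => ((hF1 i).mono hb).mul (t' i))
  have u2 : nrm C x r (fun y => h y - H x - ∑ i, t' i * F i y) ≤
      (A : ℝ) ^ d * (1 + 2 * D) * δ + Ct * K * (8 / A) ^ 2 := by
    have a1 := nrm_add_le C x r (fun y => h y - H y)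
      (fun y => H y - H x - ∑ i, t i * (((y i - x i : ℤ) : ℝ) / s))
    have a2 := nrm_sub_le C x r
      (fun y => h y - H y + (H y - H x - ∑ i, t i * (((y i - x i : ℤ) : ℝ) / s)))
      (fun y => ∑ i, t' i * (F i y - ((y i - x i : ℤ) : ℝ) / (r * A : ℕ)))
    have a3 : nrm C x r (fun y => h y - H y +
        (H y - H x - ∑ i, t i * (((y i - x i : ℤ) : ℝ) / s)) -
        ∑ i, t' i * (F i y - ((y i - x i : ℤ) : ℝ) / (r * A : ℕ))) =
        nrm C x r (fun y => h y - H x - ∑ i, t' i * F i y) := by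
      refine nrm_congr fun y _ _ => ?_
      have : ∑ i, t' i * (F i y - ((y i - x i : ℤ) : ℝ) / (r * A : ℕ)) =
          ∑ i, t' i * F i y - ∑ i, t i * (((y i - x i : ℤ) : ℝ) / s) := by
        rw [← sum_sub_distrib]
        refine sum_congr rfl fun i _ => ?_
        rw [ht']
        field_simp
      rw [this]
      ring
    have a4 : nrm C x r (fun y => H y - H x - ∑ i, t i * (((y i - x i : ℤ) : ℝ) / s)) ≤
        Ct * K * (8 / A) ^ 2 :=
      nrm_le_sup (by positivity) fun y hy _ => (t2 y hy).trans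
        (mul_le_mul_of_nonneg_left (pow_le_pow_left₀ (by positivity) p2 _) hCK.le)
    have a5 := nrm_sum_le univ C x r
      (fun i y => t' i * (F i y - ((y i - x i : ℤ) : ℝ) / (r * A : ℕ)))
    have a6 : ∑ i, nrm C x r (fun y => t' i * (F i y - ((y i - x i : ℤ) : ℝ) / (r * A : ℕ))) ≤
        ∑ _i : Fin d, 8 * (Ct * K) * ((A : ℝ) ^ d * (2 * δ)) := by
      refine sum_le_sum fun i _ => ?_
      rw [nrm_mul]
      refine mul_le_mul (t3 i) ?_ (nrm_nonneg _ _ _ _) (by positivity)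
      refine (nrm_le_of_subset' C hb hA1 (le_of_eq (by push_cast; ring)) _).trans ?_
      exact mul_le_mul_of_nonneg_left (hF2 i) (by positivity)
    rw [sum_const, card_univ, Fintype.card_fin, nsmul_eq_mul] at a6
    rw [hD]
    linarith
  have u3 : C1 * A * ((A : ℝ) ^ d * (1 + 2 * D) * δ + Ct * K * (8 / A) ^ 2) ≤ 1 / 2 := by
    have a1 : C1 * A * (Ct * K * (8 / A) ^ 2) = 64 * C1 * (Ct * K) / A := by
      field_simp; norm_num
    have a2 : 64 * C1 * (Ct * K) / A ≤ 1 / 4 := by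
      rw [div_le_iff₀ hA0]; linarith
    rw [hW] at hδ
    rw [mul_add, a1]
    linarith
  have v1 := abs_pair_le hg u1
  rw [pair_sub_right g (fun y => h y - H x), pair_sub_const hg0, pair_sum_right] at v1
  have v2 : ∑ i, pair g (fun y => t' i * F i y) ≤ ∑ _i : Fin d, 8 * (Ct * K) * |pair g (F i0)| := by
    refine sum_le_sum fun i _ => ?_
    rw [pair_mul_right]
    refine (le_abs_self _).trans ?_
    rw [abs_mul]
    exact mul_le_mul (t3 i) (hi0 i (mem_univ _)) (abs_nonneg _) (by positivity)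
  rw [sum_const, card_univ, Fintype.card_fin, nsmul_eq_mul, ← mul_assoc, ← hD] at v2
  have v3 := mul_le_mul hl u2 (nrm_nonneg _ _ _ _) (by positivity)
  have v4 := mul_le_mul_of_nonneg_left u3 l1
  have v5 := le_abs_self (pair g h - ∑ i, pair g (fun y => t' i * F i y))
  linarith

end Pool.Agent.P.MP_b4265e_pr.R
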