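import Pool.Agent.P.MP_b4265e_pr.R.ZHarm

/-!
Taylor approximation of lattice harmonic functions.
-/

namespace Pool.Agent.P.MP_b4265e_pr.R

open Finset
open scoped Classical

variable {d : ℕ}

lemma tay_difs_dif (l : List (Fin d)) (i : Fin d) (f : V d → ℝ) :
    difs l (dif i f) = difs (i :: l) f := by
  induction l with
  | nil => rfl
  | cons j l ih =>
    show dif j (difs l (dif i f)) = dif i (dif j (difs l f))
    rw [ih, dif_comm]
    rfl

lemma tay_difs_sub (l : List (Fin d)) (f g : V d → ℝ) (y : V d) :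
    difs l (fun z => f z - g z) y = difs l f y - difs l g y := by
  induction l generalizing y with
  | nil => rfl
  | cons j l ih =>
    show difs l _ (y + ee j) - difs l _ y =
      (difs l f (y + ee j) - difs l f y) - (difs l g (y + ee j) - difs l g y)
    rw [ih, ih]; ring

lemma tay_difs_lap (l : List (Fin d)) (f : V d → ℝ) :
    difs l (lapG Set.univ f) = lapG Set.univ (difs l f) := by
  induction l with
  | nil => rfl
  | cons j l ih =>
    funext y
    show dif j (difs l (lapG Set.univ f)) y = lapG Set.univ (dif j (difs l f)) y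
    rw [ih, lapG_univ_dif_comm]

lemma tay_add_mem {x y : V d} {r : ℕ} (hy : y ∈ box x r) (i : Fin d) :
    y + ee i ∈ box x (r + 1) := by
  rw [mem_box_nd] at hy ⊢
  have h1 := nd_triangle x y (y + ee i)
  rw [nd_add_ee] at h1
  omega

lemma tay_difs_zero {f : V d → ℝ} {x : V d} {R : ℕ} (hf : ∀ y ∈ box x R, f y = 0)
    (l : List (Fin d)) : ∀ r : ℕ, r + l.length ≤ R → ∀ y ∈ box x r, difs l f y = 0 := by
  induction l with
  | nil => intro r hr y hy; exact hf y (box_mono x (by simpa using hr) hy)
  | cons j l ih =>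
    intro r hr y hy
    simp only [List.length_cons] at hr
    show difs l f (y + ee j) - difs l f y = 0
    rw [ih (r + 1) (by omega) _ (tay_add_mem hy j), ih r (by omega) _ hy, sub_zero]

/-- All differences of order `n` vanish. -/
def Van (n : ℕ) (f : V d → ℝ) : Prop :=
  ∀ l : List (Fin d), l.length = n → ∀ y, difs l f y = 0

lemma Van.ge {n : ℕ} {f : V d → ℝ} (h : Van n f) :
    ∀ l : List (Fin d), n ≤ l.length → ∀ y, difs l f y = 0 := by
  intro l
  induction l with
  | nil => intro hl y; exact h [] (by simp only [List.length_nil] at hl ⊢; omega) y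
  | cons j l ih =>
    intro hl y
    rcases hl.eq_or_lt with h1 | h1
    · exact h _ h1.symm y
    · simp only [List.length_cons] at h1
      show difs l f (y + ee j) - difs l f y = 0
      rw [ih (by omega), ih (by omega), sub_zero]

/-- Growth of differences from their values at the centre. -/
lemma tay_growth {f : V d → ℝ} {x : V d} {R n : ℕ} (a b : ℕ → ℝ)
    (ha : ∀ l : List (Fin d), l.length < n → |difs l f x| ≤ a l.length)
    (hb : ∀ l : List (Fin d), l.length = n → ∀ y ∈ box x R, |difs l f y| ≤ b n)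
    (hab : ∀ j < n, a j + d * R * b (j + 1) ≤ b j) :
    ∀ l : List (Fin d), l.length ≤ n → ∀ y ∈ box x R, |difs l f y| ≤ b l.length := by
  have main : ∀ m : ℕ, ∀ l : List (Fin d), l.length + m = n →
      ∀ y ∈ box x R, |difs l f y| ≤ b l.length := by
    intro m
    induction m with
    | zero =>
      intro l hl y hy
      simp only [Nat.add_zero] at hl
      rw [hl]
      exact hb l hl y hy
    | succ m ih =>
      intro l hl y hy
      have h1 : |difs l f y - difs l f x| ≤ d * R * b (l.length + 1) :=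
        abs_sub_le_of_dif (f := difs l f) (fun i z hz _ => by
          exact ih (i :: l) (by simp only [List.length_cons]; omega) z hz) y hy
      have h2 := ha l (by omega)
      have h3 := hab l.length (by omega)
      have h4 := abs_sub_abs_le_abs_sub (difs l f y) (difs l f x)
      linarith
  intro l hl
  exact main (n - l.length) l (by omega)

lemma tay_unique {f : V d → ℝ} {x : V d} {n : ℕ} (hv : Van n f)
    (h0 : ∀ l : List (Fin d), l.length < n → difs l f x = 0) (y : V d) : f y = 0 := by
  have := tay_growth (f := f) (x := x) (R := nd x y) (n := n) (fun _ => 0) (fun _ => 0)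
    (fun l hl => by simp [h0 l hl]) (fun l hl z _ => by simp [hv l hl z]) (fun j _ => by simp)
    [] (Nat.zero_le _) y (mem_box_nd.2 le_rfl)
  simpa [difs] using this

lemma tay_exists (x : V d) (k : ℕ) : ∀ H : V d → ℝ, ∃ T : V d → ℝ, Van (k + 1) T ∧
    ∀ l : List (Fin d), l.length < k + 1 → difs l T x = difs l H x := by
  induction k with
  | zero =>
    intro H
    refine ⟨fun _ => H x, ?_, ?_⟩
    · intro l hl y
      match l, hl with
      | [i], _ => simp [difs, dif]
    · intro l hl
      match l, hl with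
      | [], _ => rfl
      | _ :: _, h => simp at h
  | succ k ih =>
    intro H
    choose T hT1 hT2 using fun i : Fin d => ih (dif i H)
    have hcl : ∀ i j y, dif j (T i) y - dif i (T j) y = 0 := by
      intro i j
      refine tay_unique (f := fun y => dif j (T i) y - dif i (T j) y) (x := x) (n := k) ?_ ?_
      · intro l hl y
        rw [tay_difs_sub, tay_difs_dif, tay_difs_dif, hT1 i _ (by simp [hl]),
          hT1 j _ (by simp [hl]), sub_zero]
      · intro l hl
        rw [tay_difs_sub, tay_difs_dif, tay_difs_dif, hT2 i _ (by simpa using hl),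
          hT2 j _ (by simpa using hl), tay_difs_dif, tay_difs_dif]
        show dif i (dif j (difs l H)) x - dif j (dif i (difs l H)) x = 0
        rw [dif_comm, sub_self]
    obtain ⟨F, hF⟩ := exact_of_closed (fun y i => T i y) (fun y i j => by
      have := hcl i j y
      simp only [dif] at this
      linarith)
    have hd : ∀ i, dif i (fun y => F y - F x + H x) = T i := by
      intro i
      funext y
      simp only [dif]
      rw [← hF y i]
      ring
    refine ⟨fun y => F y - F x + H x, ?_, ?_⟩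
    · intro l hl y
      match l, hl with
      | i :: l, hl =>
        rw [← tay_difs_dif, hd]
        exact hT1 i l (by simpa using hl) y
    · intro l hl
      match l, hl with
      | [], _ => simp [difs]
      | i :: l, hl =>
        rw [← tay_difs_dif, hd, ← tay_difs_dif]
        exact hT2 i l (by simpa using hl)

/-- The remainder of a Taylor expansion. -/
lemma tay_rem {H T : V d → ℝ} {x : V d} {r n : ℕ} {B : ℝ} (hv : Van n T)
    (h0 : ∀ l : List (Fin d), l.length < n → difs l T x = difs l H x)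
    (hB : ∀ l : List (Fin d), l.length = n → ∀ y ∈ box x r, |difs l H y| ≤ B) :
    ∀ l : List (Fin d), l.length ≤ n → ∀ y ∈ box x r,
      |difs l (fun z => H z - T z) y| ≤ ((d : ℝ) * r) ^ (n - l.length) * B := by
  refine tay_growth (fun _ => 0) (fun j => ((d : ℝ) * r) ^ (n - j) * B) ?_ ?_ ?_
  · intro l hl
    rw [tay_difs_sub, h0 l hl]
    simp
  · intro l hl y hy
    rw [tay_difs_sub, hv l hl y]
    simpa using hB l hl y hy
  · intro j hj
    have : n - j = n - (j + 1) + 1 := by omega
    rw [this, pow_succ]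
    apply le_of_eq
    ring

/-- Polynomial growth. -/
lemma tay_poly {f : V d → ℝ} {x : V d} {S n : ℕ} {A : ℝ} (hS : 1 ≤ S) (hA : 0 ≤ A) (hv : Van n f)
    (h0 : ∀ l : List (Fin d), l.length < n → |difs l f x| ≤ A / (S : ℝ) ^ l.length) :
    ∀ l : List (Fin d), ∀ y ∈ box x (2 * S),
      |difs l f y| ≤ (2 * (d : ℝ) + 1) ^ n * A / (S : ℝ) ^ l.length := by
  have hS0 : (0 : ℝ) < S := by exact_mod_cast hS
  have hd0 : (0 : ℝ) ≤ d := Nat.cast_nonneg d
  have hd1 : (1 : ℝ) ≤ 2 * (d : ℝ) + 1 := by linarith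
  intro l y hy
  by_cases hl : l.length ≤ n
  · have := tay_growth (f := f) (x := x) (R := 2 * S) (n := n) (fun j => A / (S : ℝ) ^ j)
      (fun j => (2 * (d : ℝ) + 1) ^ (n - j) * A / (S : ℝ) ^ j) h0
      (fun l hl y _ => by rw [hv l hl y, abs_zero]; positivity) (fun j hj => by
        have h1 : n - j = n - (j + 1) + 1 := by omega
        have h2 : (1 : ℝ) ≤ (2 * (d : ℝ) + 1) ^ (n - (j + 1)) := one_le_pow₀ hd1
        rw [h1, pow_succ (2 * (d : ℝ) + 1), pow_succ (S : ℝ)]
        set c := (2 * (d : ℝ) + 1) ^ (n - (j + 1))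
        have h3 : A / (S : ℝ) ^ j + d * ((2 * S : ℕ) : ℝ) * (c * A / ((S : ℝ) ^ j * S)) =
            (1 + 2 * d * c) * (A / (S : ℝ) ^ j) := by
          push_cast
          field_simp
        have h4 : c * (2 * (d : ℝ) + 1) * A / (S : ℝ) ^ j =
            (c + 2 * d * c) * (A / (S : ℝ) ^ j) := by
          field_simp
          ring
        rw [h3, h4]
        exact mul_le_mul_of_nonneg_right (by linarith) (by positivity)) l hl y hy
    refine this.trans ?_
    gcongr
    omega
  · rw [hv.ge l (by omega) y, abs_zero]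
    positivity

/-- Taylor polynomials of harmonic functions are almost harmonic and grow like polynomials. -/
theorem taylor (d k : ℕ) : ∃ (Ck : ℝ) (s0 : ℕ), 1 ≤ Ck ∧ 1 ≤ s0 ∧
    ∀ (H : V d → ℝ) (x : V d) (s : ℕ) (M : ℝ), s0 ≤ s → Harm Set.univ x s H →
    (∀ y ∈ box x s, |H y| ≤ M) → ∃ T : V d → ℝ,
      (∀ r : ℕ, 2 * r ≤ s → ∀ y ∈ box x r, |H y - T y| ≤ Ck * M * ((r : ℝ) / s) ^ (k + 1)) ∧
      ∀ S : ℕ, s ≤ S → Smooth T x (2 * S) (Ck * M * ((S : ℝ) / s) ^ k) S ∧
        ∀ y ∈ box x (2 * S), |lapG Set.univ T y| ≤ Ck * M * ((S : ℝ) / s) ^ k / (s : ℝ) ^ 3 := by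
  obtain ⟨C, s1, hC, hest⟩ := difs_est d (k + 1)
  have hd0 : (0 : ℝ) ≤ d := Nat.cast_nonneg d
  set D : ℝ := 2 * (d : ℝ) + 1 with hD
  have hD1 : 1 ≤ D := by linarith
  have hdD : (d : ℝ) ≤ D := by linarith
  have hP1 : 1 ≤ D ^ (k + 1) := one_le_pow₀ hD1
  have hQ1 : 1 ≤ D ^ (k + 2) := one_le_pow₀ hD1
  refine ⟨D ^ (k + 1) * D ^ (k + 2) * C, max s1 (k + 2), ?_, by omega, ?_⟩
  · exact one_le_mul_of_one_le_of_one_le (one_le_mul_of_one_le_of_one_le hP1 hQ1) hC
  intro H x s M hs hH hM
  have hs1 : s1 ≤ s := le_trans (le_max_left _ _) hs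
  have hs2 : k + 2 ≤ s := le_trans (le_max_right _ _) hs
  have hs0 : (0 : ℝ) < s := by exact_mod_cast (by omega : 0 < s)
  have hM0 : 0 ≤ M := (abs_nonneg _).trans (hM x (mem_box_self x s))
  have hC0 : 0 ≤ C := by linarith
  obtain ⟨T, hT1, hT2⟩ := tay_exists x k H
  have hrem : ∀ r : ℕ, 2 * r ≤ s → ∀ l : List (Fin d), l.length ≤ k + 1 → ∀ y ∈ box x r,
      |difs l (fun z => H z - T z) y| ≤
        ((d : ℝ) * r) ^ (k + 1 - l.length) * (C * M / (s : ℝ) ^ (k + 1)) := by
    intro r hr
    refine tay_rem hT1 hT2 ?_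
    intro l hl y hy
    have := hest H x s M hs1 hH hM l hl.le y (box_mono x (by omega) hy)
    rwa [hl] at this
  refine ⟨T, ?_, ?_⟩
  · intro r hr y hy
    have h1 := hrem r hr [] (by simp) y hy
    simp only [difs, List.length_nil, Nat.sub_zero] at h1
    refine h1.trans ?_
    have h2 : ((d : ℝ) * r) ^ (k + 1) * (C * M / (s : ℝ) ^ (k + 1)) =
        (d : ℝ) ^ (k + 1) * 1 * C * M * ((r : ℝ) / s) ^ (k + 1) := by
      rw [mul_pow, div_pow]
      field_simp
    rw [h2]
    gcongr
  intro S hS
  have hS1 : 1 ≤ S := by omega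
  have hS0 : (0 : ℝ) < S := by exact_mod_cast hS1
  have hsS : (s : ℝ) ≤ S := by exact_mod_cast hS
  have hq : (1 : ℝ) ≤ (S : ℝ) / s := by rw [le_div_iff₀ hs0]; linarith
  constructor
  · intro l _ y hy
    have := tay_poly (f := T) (x := x) (S := S) (n := k + 1) (A := C * M * ((S : ℝ) / s) ^ k) hS1
      (by positivity) hT1 (fun l hl => by
        rw [hT2 l hl]
        refine (hest H x s M hs1 hH hM l hl.le x (mem_box_self x _)).trans ?_
        have h1 : ((S : ℝ) / s) ^ l.length ≤ ((S : ℝ) / s) ^ k :=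
          pow_le_pow_right₀ hq (by omega)
        have h2 : C * M / (s : ℝ) ^ l.length =
            C * M * ((S : ℝ) / s) ^ l.length / (S : ℝ) ^ l.length := by
          rw [div_pow]
          field_simp
        rw [h2]
        gcongr) l y hy
    refine this.trans ?_
    have h3 : D ^ (k + 1) * (C * M * ((S : ℝ) / s) ^ k) =
        D ^ (k + 1) * 1 * C * M * ((S : ℝ) / s) ^ k := by ring
    rw [← hD, h3]
    gcongr
  · intro y hy
    have hlap : ∀ (l : List (Fin d)) (f : V d → ℝ) (z : V d), difs l (lapG Set.univ f) z =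
        ∑ i, difs (i :: i :: l) f (z - ee i) := by
      intro l f z
      rw [tay_difs_lap, lapG_univ_dif]
      rfl
    have hvan : Van (k - 1) (lapG Set.univ T) := by
      intro l hl z
      rw [hlap]
      exact Finset.sum_eq_zero fun i _ => hT1.ge _ (by simp only [List.length_cons]; omega) _
    rcases Nat.lt_or_ge k 2 with hk | hk
    · have h0 : lapG Set.univ T y = 0 := hvan.ge [] (by simp; omega) y
      rw [h0, abs_zero]
      positivity
    obtain ⟨m, rfl⟩ := Nat.exists_eq_add_of_le' hk
    have hm : m + 2 - 1 = m + 1 := by omega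
    rw [hm] at hvan
    set A : ℝ := D ^ (m + 2 + 2) * (C * M / (s : ℝ) ^ (m + 2 + 1)) with hA
    have hA0 : 0 ≤ A := by positivity
    have hS1' : (1 : ℝ) ≤ S := by exact_mod_cast hS1
    have := tay_poly (f := lapG Set.univ T) (x := x) (S := S) (n := m + 1) (A := A * (S : ℝ) ^ m)
      hS1 (by positivity) hvan (fun l hl => by
        have h1 : difs l (lapG Set.univ H) x = 0 :=
          tay_difs_zero (R := s) hH l 0 (by omega) x (mem_box_self x 0)
        have h2 : difs l (lapG Set.univ T) x =
            - ∑ i, difs (i :: i :: l) (fun z => H z - T z) (x - ee i) := by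
          simp only [tay_difs_sub, Finset.sum_sub_distrib]
          rw [← hlap, ← hlap, h1]
          ring
        have h3 : ∀ i : Fin d, |difs (i :: i :: l) (fun z => H z - T z) (x - ee i)| ≤
            D ^ (m + 2 + 1) * (C * M / (s : ℝ) ^ (m + 2 + 1)) := by
          intro i
          have h4 := hrem 1 (by omega) (i :: i :: l) (by simp only [List.length_cons]; omega)
            (x - ee i) (mem_box_nd.2 (nd_sub_ee x i).le)
          refine h4.trans ?_
          have h5 : ((d : ℝ) * (1 : ℕ)) ^ (m + 2 + 1 - (i :: i :: l).length) ≤ D ^ (m + 2 + 1) := by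
            rw [Nat.cast_one, mul_one]
            calc (d : ℝ) ^ (m + 2 + 1 - (i :: i :: l).length)
                ≤ D ^ (m + 2 + 1 - (i :: i :: l).length) := by gcongr
              _ ≤ D ^ (m + 2 + 1) := pow_le_pow_right₀ hD1 (Nat.sub_le _ _)
          gcongr
        have h6 : |difs l (lapG Set.univ T) x| ≤ A := by
          rw [h2, abs_neg]
          refine (Finset.abs_sum_le_sum_abs _ _).trans ?_
          refine (Finset.sum_le_sum fun i _ => h3 i).trans ?_
          rw [Finset.sum_const, Finset.card_univ, Fintype.card_fin, nsmul_eq_mul, hA,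
            pow_succ D (m + 2 + 1)]
          have h7 : 0 ≤ D ^ (m + 2 + 1) * (C * M / (s : ℝ) ^ (m + 2 + 1)) := by positivity
          nlinarith
        refine h6.trans ?_
        rw [le_div_iff₀ (by positivity)]
        exact mul_le_mul_of_nonneg_left (pow_le_pow_right₀ hS1' (by omega)) hA0) [] y hy
    simp only [difs, List.length_nil, pow_zero, div_one] at this
    refine this.trans ?_
    have h8 : D ^ (m + 1) * (A * (S : ℝ) ^ m) =
        D ^ (m + 1) * D ^ (m + 2 + 2) * C * M * ((S : ℝ) / s) ^ m / (s : ℝ) ^ 3 := by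
      rw [hA, div_pow]
      field_simp
      ring
    rw [← hD, h8]
    have h9 : D ^ (m + 1) ≤ D ^ (m + 2 + 1) := pow_le_pow_right₀ hD1 (by omega)
    have h10 : ((S : ℝ) / s) ^ m ≤ ((S : ℝ) / s) ^ (m + 2) := pow_le_pow_right₀ hq (by omega)
    gcongr

lemma tay_dif_coord (x : V d) (i j : Fin d) (s : ℝ) (y : V d) :
    dif j (fun y => ((y i - x i : ℤ) : ℝ) / s) y = (if i = j then 1 else 0) / s := by
  simp only [dif, ee, Pi.add_apply, Pi.single_apply]
  split_ifs <;> push_cast <;> ring

/-- First order expansion. -/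
theorem taylor_one (d : ℕ) : ∃ (C1 : ℝ) (s0 : ℕ), 1 ≤ C1 ∧ 1 ≤ s0 ∧
    ∀ (H : V d → ℝ) (x : V d) (s : ℕ) (M : ℝ), s0 ≤ s → Harm Set.univ x s H →
    (∀ y ∈ box x s, |H y| ≤ M) → ∃ t : Fin d → ℝ, (∀ i, |t i| ≤ C1 * M) ∧
      ∀ r : ℕ, 2 * r ≤ s → ∀ y ∈ box x r,
        |H y - H x - ∑ i, t i * (((y i - x i : ℤ) : ℝ) / s)| ≤ C1 * M * ((r : ℝ) / s) ^ 2 := by
  obtain ⟨C, s1, hC, hest⟩ := difs_est d 2
  have hd0 : (0 : ℝ) ≤ d := Nat.cast_nonneg d
  have hP1 : (1 : ℝ) ≤ ((d : ℝ) + 1) ^ 2 := one_le_pow₀ (by linarith)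
  refine ⟨((d : ℝ) + 1) ^ 2 * C, max s1 1, one_le_mul_of_one_le_of_one_le hP1 hC, by omega, ?_⟩
  intro H x s M hs hH hM
  have hs1 : s1 ≤ s := le_trans (le_max_left _ _) hs
  have hs2 : 1 ≤ s := le_trans (le_max_right _ _) hs
  have hs0 : (0 : ℝ) < s := by exact_mod_cast hs2
  have hM0 : 0 ≤ M := (abs_nonneg _).trans (hM x (mem_box_self x s))
  have hC0 : 0 ≤ C := by linarith
  refine ⟨fun i => s * dif i H x, ?_, ?_⟩
  · intro i
    have h1 := hest H x s M hs1 hH hM [i] (by simp) x (mem_box_self x _)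
    simp only [difs, List.length_cons, List.length_nil, zero_add, pow_one] at h1
    rw [le_div_iff₀ hs0] at h1
    rw [abs_mul, abs_of_pos hs0]
    have h2 : C * M ≤ ((d : ℝ) + 1) ^ 2 * C * M := by
      have := mul_nonneg hC0 hM0
      nlinarith
    linarith
  intro r hr y hy
  set T : V d → ℝ := fun y => H x + ∑ i, s * dif i H x * (((y i - x i : ℤ) : ℝ) / s) with hT
  have hdT : ∀ j, dif j T = fun _ => dif j H x := by
    intro j
    funext z
    have h1 : dif j T z = ∑ i, s * dif i H x *
        dif j (fun y => ((y i - x i : ℤ) : ℝ) / (s : ℝ)) z := by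
      simp only [hT, dif, mul_sub, Finset.sum_sub_distrib]
      ring
    rw [h1]
    simp only [tay_dif_coord]
    rw [Finset.sum_eq_single j (fun i _ hi => by simp [hi]) (by simp)]
    simp only [if_true]
    field_simp
  have hv : Van 2 T := by
    intro l hl z
    match l, hl with
    | [i, j], _ =>
      show dif i (dif j T) z = 0
      rw [hdT]
      simp [dif]
  have h0 : ∀ l : List (Fin d), l.length < 2 → difs l T x = difs l H x := by
    intro l hl
    match l, hl with
    | [], _ => simp [difs, hT]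
    | [i], _ =>
      show dif i T x = dif i H x
      rw [hdT]
    | _ :: _ :: _, h => simp at h
  have h1 := tay_rem (r := r) (B := C * M / (s : ℝ) ^ 2) hv h0 (fun l hl z hz => by
    have := hest H x s M hs1 hH hM l hl.le z (box_mono x (by omega) hz)
    rwa [hl] at this) [] (by simp) y hy
  simp only [difs, List.length_nil, Nat.sub_zero, hT] at h1
  rw [sub_sub]
  refine h1.trans ?_
  have h2 : ((d : ℝ) * r) ^ 2 * (C * M / (s : ℝ) ^ 2) =
      (d : ℝ) ^ 2 * C * M * ((r : ℝ) / s) ^ 2 := by
    rw [mul_pow, div_pow]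
    field_simp
  rw [h2]
  gcongr
  linarith

/-- The rescaled coordinate functions are smooth and harmonic. -/
lemma smooth_coord (x : V d) (i : Fin d) {s : ℕ} (hs : 1 ≤ s) :
    Smooth (fun y => ((y i - x i : ℤ) : ℝ) / s) x (2 * s) 2 s := by
  have hs0 : (0 : ℝ) < s := by exact_mod_cast hs
  have hv : Van 2 (fun y : V d => ((y i - x i : ℤ) : ℝ) / (s : ℝ)) := by
    intro l hl z
    match l, hl with
    | [a, b], _ =>
      show dif b _ (z + ee a) - dif b _ z = 0
      simp only [difs]
      rw [tay_dif_coord, tay_dif_coord, sub_self]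
  intro l _ y hy
  match l with
  | [] =>
    simp only [difs, List.length_nil, pow_zero, div_one]
    have h1 := mem_box.1 hy i
    have h2 : |((y i - x i : ℤ) : ℝ)| ≤ ((2 * s : ℕ) : ℝ) := by exact_mod_cast h1
    rw [abs_div, abs_of_pos hs0, div_le_iff₀ hs0]
    push_cast at h2 ⊢
    exact h2
  | [a] =>
    simp only [difs, List.length_cons, List.length_nil, zero_add, pow_one]
    rw [tay_dif_coord, abs_div, abs_of_pos hs0]
    gcongr
    split_ifs <;> norm_num
  | a :: b :: l =>
    rw [hv.ge _ (by simp) y, abs_zero]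
    positivity

lemma lapG_coord (x : V d) (i : Fin d) (s : ℝ) (y : V d) :
    lapG Set.univ (fun y => ((y i - x i : ℤ) : ℝ) / s) y = 0 := by
  rw [lapG_univ_dif]
  refine Finset.sum_eq_zero fun j _ => ?_
  show dif j _ (y - ee j + ee j) - dif j _ (y - ee j) = 0
  rw [tay_dif_coord, tay_dif_coord, sub_self]

end Pool.Agent.P.MP_b4265e_pr.R
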