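import Pool.Agent.P.MP_b4265e_pr.R.Multi
import Pool.Agent.P.MP_b4265e_pr.R.MultiP
import Pool.Agent.P.MP_b4265e_pr.R.Mod
import Pool.Agent.P.MP_b4265e_pr.R.Count

/-!
Faster than polynomial decay forces finite support when `p < 1`.
-/

namespace Pool.Agent.P.MP_b4265e_pr.R

open Finset MeasureTheory ProbabilityTheory Filter
open scoped Classical

variable {d : ℕ}

lemma thmA_supp_congr {C C' : Set (V d)} {x : V d} {r : ℕ} {φ : V d →₀ ℝ}
    (h : ∀ y ∈ box x r, (y ∈ C ↔ y ∈ C')) (hφ : Supp C x r φ) : Supp C' x r φ :=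
  fun y hy => ⟨(h y (hφ y hy).2).1 (hφ y hy).1, (hφ y hy).2⟩

lemma measurableSet_Scr (θ K δ Λ1 Λs : ℝ) (L A κ N R0 : ℕ) (x : V d) :
    MeasurableSet {O : Set (E d) | Scr θ K δ Λ1 Λs L A κ N R0 x O} := by
  unfold Scr
  refine measurableSet_setOfPred.2 (Measurable.and ?_ ?_)
  · refine Measurable.forall fun j => Measurable.imp measurable_const ?_
    exact (dep_W θ K δ x (sc L A j)).measurable
  · refine Measurable.exists fun n0 => Measurable.and measurable_const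
      (Measurable.and measurable_const (Measurable.exists fun n1 => Measurable.forall fun n =>
        Measurable.imp measurable_const ?_))
    refine measurableSet_setOfPred.1 (measurableSet_of_fin
      (box x (L + 1) ∪ box x (sc L A n0) ∪ box x (sc L A (n0 + 1)) ∪ box 0 R0 ∪ box 0 (sc L A n))
      (boxE x (sc L A n0 + 1) ∪ boxE x (sc L A (n0 + 1) + 1) ∪ boxE 0 (sc L A n + 1))
      (fun G C => ∃ g f : V d →₀ ℝ, Supp C x (L + 1) g ∧ pair g (fun _ => 1) = 0 ∧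
        lam G C x (sc L A n0) g ≤ Λ1 * lam G C x (sc L A (n0 + 1)) g ∧
        1 ≤ lam G C x (sc L A (n0 + 1)) g ∧
        Supp C 0 R0 f ∧ lam G C 0 (sc L A n) (f + g) ≤ 1 / Λs ^ n) ?_)
    rintro G G' C C' hG hC ⟨g, f, h1, h2, h3, h4, h5, h6⟩
    have e1 : ∀ φ, lam G C x (sc L A n0) φ = lam G' C' x (sc L A n0) φ :=
      lam_congr (fun e he => hG e (by simp [he])) (fun y hy => hC y (by simp [hy]))
    have e2 : ∀ φ, lam G C x (sc L A (n0 + 1)) φ = lam G' C' x (sc L A (n0 + 1)) φ :=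
      lam_congr (fun e he => hG e (by simp [he])) (fun y hy => hC y (by simp [hy]))
    have e3 : ∀ φ, lam G C 0 (sc L A n) φ = lam G' C' 0 (sc L A n) φ :=
      lam_congr (fun e he => hG e (by simp [he])) (fun y hy => hC y (by simp [hy]))
    refine ⟨g, f, thmA_supp_congr (fun y hy => hC y (by simp [hy])) h1, h2, ?_, ?_,
      thmA_supp_congr (fun y hy => hC y (by simp [hy])) h5, ?_⟩
    · rw [← e1, ← e2]; exact h3
    · rw [← e2]; exact h4
    · rw [← e3]; exact h6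

/-- The expected number of events that occur. -/
lemma thmA_integral_card {Ω ι : Type*} [MeasurableSpace Ω] (μ : Measure Ω)
    [IsProbabilityMeasure μ] (X : Finset ι) (B : ι → Set Ω) (hB : ∀ x, MeasurableSet (B x)) :
    Integrable (fun ω => ((X.filter fun x => ω ∈ B x).card : ℝ)) μ ∧
      ∫ ω, ((X.filter fun x => ω ∈ B x).card : ℝ) ∂μ = ∑ x ∈ X, μ.real (B x) := by
  have e : (fun ω => ((X.filter fun x => ω ∈ B x).card : ℝ)) =
      fun ω => ∑ x ∈ X, (B x).indicator (1 : Ω → ℝ) ω := by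
    funext ω
    rw [Finset.card_filter]
    push_cast
    refine Finset.sum_congr rfl fun x _ => ?_
    by_cases h : ω ∈ B x <;> simp [h]
  have hi : ∀ x ∈ X, Integrable ((B x).indicator (1 : Ω → ℝ)) μ := fun x _ =>
    (integrable_const (1 : ℝ)).indicator (hB x)
  rw [e]
  refine ⟨integrable_finsetSum X hi, ?_⟩
  rw [integral_finsetSum X hi]
  exact Finset.sum_congr rfl fun x _ => integral_indicator_one (hB x)

/-- Markov's inequality for the number of events dominated by rare events. -/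
lemma thmA_markov {Ω ι : Type*} [MeasurableSpace Ω] (μ : Measure Ω) [IsProbabilityMeasure μ]
    (X : Finset ι) (A B : ι → Set Ω) (hA : ∀ x, MeasurableSet (A x))
    (hB : ∀ x, MeasurableSet (B x)) {c M a : ℝ} (hc : 0 ≤ c)
    (h1 : ∀ x, μ.real (B x) ≤ c * μ.real (A x))
    (h2 : ∀ ω, ((X.filter fun x => ω ∈ A x).card : ℝ) ≤ M) :
    a * μ.real {ω | a ≤ ((X.filter fun x => ω ∈ B x).card : ℝ)} ≤ c * M := by
  obtain ⟨iA, eA⟩ := thmA_integral_card μ X A hA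
  obtain ⟨iB, eB⟩ := thmA_integral_card μ X B hB
  refine (mul_meas_ge_le_integral_of_nonneg (ae_of_all _ fun ω => Nat.cast_nonneg _) iB a).trans ?_
  rw [eB]
  refine (Finset.sum_le_sum fun x _ => h1 x).trans ?_
  rw [← Finset.mul_sum, ← eA]
  refine mul_le_mul_of_nonneg_left ?_ hc
  calc ∫ ω, ((X.filter fun x => ω ∈ A x).card : ℝ) ∂μ ≤ ∫ _, M ∂μ :=
        integral_mono iA (integrable_const M) h2
    _ = M := by simp

lemma thmA_finite_energy {p : unitInterval} (hp0 : 0 < (p : ℝ)) (hp1 : (p : ℝ) < 1) (L : ℕ) :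
    ∃ c : ℝ, 0 ≤ c ∧ ∀ (x : V d) (A : Set (Set (E d))), MeasurableSet A →
      (μP d p).real {O | ∃ η ⊆ EB x L, rew (EB x L) η O ∈ A} ≤ c * (μP d p).real A := by
  set m : ℝ := min (p : ℝ) (1 - p) with hm
  have hm0 : 0 < m := lt_min hp0 (by linarith)
  have hm1 : m ≤ 1 := (min_le_left _ _).trans hp1.le
  refine ⟨(2 / m) ^ (d * (2 * (L + 1) + 1) ^ d), by positivity, fun x A hA => ?_⟩
  have h1 := finite_energy_exists (p := p) (EB x L) hA
  have h2 : (EB x L).card ≤ d * (2 * (L + 1) + 1) ^ d := by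
    have h3 := card_EB_le x L
    unfold vol at h3
    exact_mod_cast h3
  have h3 : (2 / m) ^ (EB x L).card ≤ (2 / m) ^ (d * (2 * (L + 1) + 1) ^ d) :=
    pow_le_pow_right₀ (by rw [le_div_iff₀ hm0]; linarith) h2
  refine le_trans ?_ (mul_le_mul_of_nonneg_right h3 measureReal_nonneg)
  rw [div_pow, div_mul_eq_mul_div, le_div_iff₀ (by positivity), mul_comm]
  exact h1

lemma thmA_meas_rew (S : Finset (E d)) {A : Set (Set (E d))} (hA : MeasurableSet A) :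
    MeasurableSet {O | ∃ η ⊆ S, rew S η O ∈ A} :=
  measurableSet_setOfPred.2 (Measurable.exists fun η => Measurable.and measurable_const
    (measurableSet_setOfPred.1 (measurable_rew S η hA)))

lemma thmA_sc_mono {L A : ℕ} (hA : 1 ≤ A) {i j : ℕ} (h : i ≤ j) : sc L A i ≤ sc L A j :=
  Nat.mul_le_mul_left _ (Nat.pow_le_pow_right hA h)

lemma thmA_pow_le_sc {L A : ℕ} (hL : 1 ≤ L) (hA : 4 ≤ A) (j : ℕ) : 4 ^ j ≤ sc L A j :=
  (Nat.pow_le_pow_left hA j).trans (Nat.le_mul_of_pos_left _ hL)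

lemma thmA_lt_sc {L A : ℕ} (hL : 1 ≤ L) (hA : 4 ≤ A) (j : ℕ) : j < sc L A j :=
  (Nat.lt_pow_self (by norm_num)).trans_le (thmA_pow_le_sc hL hA j)

lemma thmA_le_sc {L A : ℕ} (hA : 1 ≤ A) (j : ℕ) : L ≤ sc L A j :=
  Nat.le_mul_of_pos_right _ (Nat.pow_pos hA)

lemma thmA_exists_scale (f : ℕ → ℕ) (hf : ∀ j, j < f j) {j0 n : ℕ} (h : f j0 ≤ n) :
    ∃ j ≥ j0, f j ≤ n ∧ n < f (j + 1) := by
  by_contra hc
  push Not at hc
  have key : ∀ k, f (j0 + k) ≤ n := by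
    intro k
    induction k with
    | zero => exact h
    | succ k ih => exact hc (j0 + k) (by omega) ih
  have h1 := key n
  have h2 := hf (j0 + n)
  omega

/-- The deterministic part: the positive set of `u` is finite. -/
lemma thmA_det (hd : 2 ≤ d) {O : Set (E d)} {R0 L A N : ℕ} (hL : 1 ≤ L) (hA : 16 ≤ A)
    {Bad : ℕ → V d → Prop} {P : V d → Prop}
    (hB : ∀ i z, ¬ Bad (i + 1) z → (∃ y ∈ Cl O, y ∈ box z (10 * sc L A (i + 1))) →
      ∃ y ∈ Cl O, y ∈ box z (sc L A i - 1))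
    (h1 : ∀ᶠ j in atTop, ∀ z ∈ box (0 : V d) (3 * sc L A (j + 1) ^ 2),
      ¬ MB L A Bad j z ∧ ∀ i > j, ¬ Bad i z)
    (h2 : ∀ᶠ j in atTop,
      80 * ((box (0 : V d) (3 * sc L A (j + 1) ^ 2)).filter P).card < sc L A j)
    {u : V d → ℝ} (hu : HarmOff (GC O) R0 u) (hs : SD (Cl O) u)
    (hP : ∀ x, (∃ y ∈ box x L, ∃ y' ∈ box x L, y ∈ Cl O ∧ y' ∈ Cl O ∧ u y ≠ u y') →
      R0 + sc L A N + 1 < nd 0 x → (∀ i, ¬ Bad i x) → P x) :
    {y ∈ Cl O | 0 < u y}.Finite := by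
  by_contra hinf
  obtain ⟨j0, hj0⟩ := eventually_atTop.1
    (h1.and (h2.and ((eventually_ge_atTop N).and (eventually_ge_atTop (100 + R0)))))
  obtain ⟨y0, hy0, hy1⟩ := Set.Infinite.exists_notMem_finset hinf (box 0 (sc L A j0 ^ 2))
  set t : ℝ := u y0 / 2 with ht
  have ht0 : 0 < t := half_pos hy0.2
  have hfin : {y ∈ Cl O | t < u y}.Finite := by
    obtain ⟨R, hR⟩ := hs 1
    refine (box (0 : V d) (max R ⌈1 / t⌉₊)).finite_toSet.subset fun y hy => ?_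
    rw [Finset.mem_coe, mem_box_nd]
    by_contra hc
    have h3 : R < nd 0 y := by omega
    have h4 : ⌈1 / t⌉₊ < nd 0 y := by omega
    have h5 := hR y hy.1 (by rw [mem_box_nd]; omega)
    have h6 : 1 / t < (nd 0 y : ℝ) := (Nat.le_ceil _).trans_lt (by exact_mod_cast h4)
    rw [div_lt_iff₀ ht0] at h6
    have h7 : t < |u y| := hy.2.trans_le (le_abs_self _)
    have h8 : (0 : ℝ) ≤ (nd 0 y : ℝ) := Nat.cast_nonneg _
    rw [pow_one] at h5
    nlinarith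
  have hy2 : y0 ∈ {y ∈ Cl O | t < u y} := ⟨hy0.1, half_lt_self hy0.2⟩
  obtain ⟨a, ha, hmax⟩ := Set.exists_max_image _ (nd 0) hfin ⟨y0, hy2⟩
  have h3 : sc L A j0 ^ 2 ≤ nd 0 a := by
    have := hmax y0 hy2
    rw [mem_box_nd] at hy1
    omega
  obtain ⟨j, hj, h4, h5⟩ := thmA_exists_scale (fun j => sc L A j ^ 2)
    (fun j => (thmA_lt_sc hL (by omega) j).trans_le (Nat.le_self_pow (by norm_num) _)) h3
  obtain ⟨k1, k2, k3, k4⟩ := hj0 j hj
  obtain ⟨X, hX, hX'⟩ := many_good hd (wf_GC O) hu hL hA hB ha.1 ha.2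
    (fun y hy hty => hmax y ⟨hy, hty⟩) h4 h5.le
    (k4.trans (thmA_lt_sc hL (by omega) j).le) k1
  have h6 : X ⊆ (box (0 : V d) (3 * sc L A (j + 1) ^ 2)).filter P := by
    intro x hx
    obtain ⟨b1, ⟨⟨y, c1, c2, c3⟩, y', c4, c5, c6⟩, b3, b4⟩ := hX' x hx
    refine Finset.mem_filter.2 ⟨b1, hP x ⟨y, c1, y', c4, c2, c5, fun e => c6 ?_⟩ ?_ b3⟩
    · have c7 : t < u y := c3
      show t < u y'
      rwa [← e]
    · have := thmA_sc_mono (L := L) (A := A) (by omega) k3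
      omega
  have h7 := Finset.card_le_card h6
  omega

lemma thmA_neg {G : Set (E d)} {C : Set (V d)} {R0 : ℕ} {u : V d → ℝ} (hu : HarmOff G R0 u)
    (hs : SD C u) : HarmOff G R0 (fun y => - u y) ∧ SD C (fun y => - u y) := by
  refine ⟨fun y hy => by rw [lapG_neg, hu y hy, neg_zero], fun M => ?_⟩
  obtain ⟨R, hR⟩ := hs M
  exact ⟨R, fun y hy hy' => by rw [abs_neg]; exact hR y hy hy'⟩

lemma thmA_card_le {Bc n : ℝ} {L A j : ℕ} (hL : 1 ≤ L) (hA : 4 ≤ A)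
    (h : n ^ 4 ≤ Bc * (((3 * sc L A (j + 1) ^ 2 : ℕ) : ℝ) + 1)) :
    n ≤ 2 * max Bc 1 * A * sc L A j / 2 ^ j := by
  set b : ℝ := max Bc 1 with hb
  have hb1 : 1 ≤ b := le_max_right _ _
  have hb2 : Bc ≤ b := le_max_left _ _
  set s : ℝ := (sc L A j : ℝ) with hs
  have hs1 : (4 : ℝ) ^ j ≤ s := by rw [hs]; exact_mod_cast thmA_pow_le_sc hL hA j
  have h4 : (1 : ℝ) ≤ 4 ^ j := one_le_pow₀ (by norm_num)
  have hA' : (4 : ℝ) ≤ A := by exact_mod_cast hA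
  have e : ((3 * sc L A (j + 1) ^ 2 : ℕ) : ℝ) = 3 * (A * s) ^ 2 := by
    rw [hs]; unfold sc; push_cast; ring
  rw [e] at h
  have hAs : 1 ≤ (A : ℝ) * s := by nlinarith
  set q : ℝ := (A : ℝ) * s with hq
  have h5 : (n ^ 2) ^ 2 ≤ (2 * b * q) ^ 2 := by
    have h6 : 1 ≤ q ^ 2 := one_le_pow₀ hAs
    have h7 : Bc * (3 * q ^ 2 + 1) ≤ b * (4 * q ^ 2) :=
      mul_le_mul hb2 (by linarith) (by positivity) (by linarith)
    have h8 : b * (4 * q ^ 2) ≤ b * b * (4 * q ^ 2) :=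
      mul_le_mul_of_nonneg_right (by nlinarith) (by positivity)
    calc (n ^ 2) ^ 2 = n ^ 4 := by ring
      _ ≤ b * b * (4 * q ^ 2) := by linarith
      _ = (2 * b * q) ^ 2 := by ring
  have h6 : n ^ 2 ≤ 2 * b * q := (abs_le_of_sq_le_sq' h5 (by positivity)).2
  have h7 : (4 : ℝ) ^ j ≤ 2 * b * q := by
    have : s ≤ q := by rw [hq]; nlinarith
    nlinarith
  have h8 : n ^ 2 ≤ (2 * b * q / 2 ^ j) ^ 2 := by
    have e2 : ((2 : ℝ) ^ j) ^ 2 = 4 ^ j := by rw [← pow_mul, mul_comm, pow_mul]; norm_num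
    rw [div_pow, e2, le_div_iff₀ (by positivity)]
    calc n ^ 2 * 4 ^ j ≤ (2 * b * q) * (2 * b * q) :=
          mul_le_mul h6 h7 (by positivity) (by positivity)
      _ = (2 * b * q) ^ 2 := by ring
  have h9 := (abs_le_of_sq_le_sq' h8 (by positivity)).2
  calc n ≤ 2 * b * q / 2 ^ j := h9
    _ = 2 * b * A * s / 2 ^ j := by rw [hq]; ring

lemma thmA_bad_le {s c x y : ℝ} {k : ℕ} (hs : 2 ≤ s) (hc : c ≤ s) (hy : 0 ≤ y)
    (hx : x ≤ 1 / s ^ (k + 2)) (hy' : y ≤ 1 / s ^ (k + 2)) : x + c * y ≤ 1 / s ^ k := by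
  have h0 : 0 < s ^ (k + 2) := by positivity
  have h1 : c * y ≤ s * (1 / s ^ (k + 2)) := mul_le_mul hc hy' hy (by linarith)
  have h2 : 1 / s ^ k = s ^ 2 * (1 / s ^ (k + 2)) := by field_simp; ring
  have h3 : 0 < 1 / s ^ (k + 2) := by positivity
  have h4 : 1 + s ≤ s ^ 2 := by nlinarith
  rw [h2]
  nlinarith

/-- Few rare events occur in the large boxes. -/
lemma thmA_rare {Ω : Type*} [MeasurableSpace Ω] (μ : Measure Ω) [IsProbabilityMeasure μ]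
    {L A : ℕ} (hL : 1 ≤ L) (hA : 4 ≤ A) (SA SB : V d → Set Ω) (hSA : ∀ x, MeasurableSet (SA x))
    (hSB : ∀ x, MeasurableSet (SB x)) {c Bc : ℝ} (hc0 : 0 ≤ c)
    (hc : ∀ x, μ.real (SB x) ≤ c * μ.real (SA x))
    (hBc : ∀ (ω : Ω) (R : ℕ),
      ((cap {x | ω ∈ SA x} (box (0 : V d) R)).card : ℝ) ^ 4 ≤ Bc * (R + 1)) :
    ∀ᵐ ω ∂μ, ∀ᶠ j in atTop, 80 * ((box (0 : V d) (3 * sc L A (j + 1) ^ 2)).filter
      fun x => ω ∈ SB x).card < sc L A j := by
  have e2 := ae_eventually_of_summable (μ := μ)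
    (s := fun j => {ω | (sc L A j : ℝ) / 80 ≤
      (((box (0 : V d) (3 * sc L A (j + 1) ^ 2)).filter fun x => ω ∈ SB x).card : ℝ)})
    (summable_geometric_two.mul_left (160 * c * max Bc 1 * A)) (by
      intro j
      have h1 := thmA_markov μ (box (0 : V d) (3 * sc L A (j + 1) ^ 2)) SA SB hSA hSB
        (a := (sc L A j : ℝ) / 80) (M := 2 * max Bc 1 * A * sc L A j / 2 ^ j) hc0 hc
        (fun ω => thmA_card_le hL hA (hBc ω _))
      have h2 : (0 : ℝ) < sc L A j := by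
        exact_mod_cast (Nat.zero_le j).trans_lt (thmA_lt_sc hL hA j)
      rw [← le_div_iff₀' (by positivity)] at h1
      refine h1.trans (le_of_eq ?_)
      rw [one_div, inv_pow]
      field_simp
      ring)
  filter_upwards [e2] with ω hω
  filter_upwards [hω] with j hj
  have h3 := not_le.1 hj
  rw [lt_div_iff₀ (by norm_num), mul_comm] at h3
  exact_mod_cast h3

lemma thmA_near {θ K δ : ℝ} (hθ : 0 < θ) {L A i : ℕ} (hL : 2 ≤ L) (hA : 1 ≤ A)
    (hδ : δ ≤ 1 / (2 * A)) {O : Set (E d)} {z : V d} (h1 : W θ K δ z (sc L A (i + 1)) O)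
    (hy : ∃ y ∈ Cl O, y ∈ box z (10 * sc L A (i + 1))) :
    ∃ y ∈ Cl O, y ∈ box z (sc L A i - 1) := by
  have hA' : (1 : ℝ) ≤ A := by exact_mod_cast hA
  have h3 : 2 ≤ sc L A i := hL.trans (thmA_le_sc hA i)
  have h7 : δ * (sc L A (i + 1) : ℕ) ≤ (sc L A i - 1 : ℕ) := by
    have h4 : (2 : ℝ) ≤ sc L A i := by exact_mod_cast h3
    have h5 : ((sc L A (i + 1) : ℕ) : ℝ) = A * sc L A i := by unfold sc; push_cast; ring
    rw [Nat.cast_sub (by omega), h5]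
    have h6 : δ * A ≤ 1 / 2 := by
      rw [le_div_iff₀ (by positivity)] at hδ
      linarith
    push_cast
    nlinarith
  have h8 : sc L A i - 1 ≤ sc L A (i + 1) :=
    (Nat.sub_le _ _).trans (thmA_sc_mono hA (Nat.le_succ i))
  have h2 := (h1 O (agree_refl _ _) hy).1.dens z (mem_box_self _ _) (sc L A i - 1) h7 h8
  have h9 : 0 < (cap (Cl O) (box z (sc L A i - 1))).card := by
    have h4 := (mul_pos hθ (vol_pos d (sc L A i - 1))).trans_le h2
    exact_mod_cast h4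
  obtain ⟨y, hy⟩ := Finset.card_pos.1 h9
  exact ⟨y, (mem_cap.1 hy).2, (mem_cap.1 hy).1⟩

/-- The bad events of the multiscale argument. -/
def thmABad (θ K δ : ℝ) (L A κ j : ℕ) (x : V d) (O : Set (E d)) : Prop :=
  ¬ W θ K δ x (sc L A j) O ∨
    (κ ≤ j ∧ ∃ η ⊆ EB x L, ¬ W θ K δ x (sc L A j) (rew (EB x L) η O))

lemma thmA_dep (θ K δ : ℝ) (L A κ j : ℕ) (x : V d) :
    Dep (boxE x (20 * sc L A j)) (thmABad θ K δ L A κ j x) := by
  intro O O' hO
  have e1 := dep_W θ K δ x (sc L A j) O O' hO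
  have e2 : ∀ η, W θ K δ x (sc L A j) (rew (EB x L) η O) =
      W θ K δ x (sc L A j) (rew (EB x L) η O') := fun η =>
    dep_W θ K δ x (sc L A j) _ _ (hO.rew _ η)
  simp only [thmABad, e1, e2]

lemma thmA_prob {p : unitInterval} {θ K δ c : ℝ} {L A κ j k : ℕ} {x : V d} (hL : 2 ≤ L)
    (hA : 4 ≤ A) (hκc : c ≤ κ)
    (hc : ∀ A : Set (Set (E d)), MeasurableSet A →
      (μP d p).real {O | ∃ η ⊆ EB x L, rew (EB x L) η O ∈ A} ≤ c * (μP d p).real A)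
    (h1 : (μP d p).real {O | ¬ W θ K δ x (sc L A j) O} ≤ 1 / (sc L A j : ℝ) ^ (k + 2)) :
    (μP d p).real {O | thmABad θ K δ L A κ j x O} ≤ 1 / (sc L A j : ℝ) ^ k := by
  have h2 : (2 : ℝ) ≤ sc L A j := by exact_mod_cast hL.trans (thmA_le_sc (by omega) j)
  have hm : MeasurableSet {O | ¬ W θ K δ x (sc L A j) O} :=
    (dep_W θ K δ x (sc L A j)).not.measurableSet
  by_cases hj : κ ≤ j
  · have h3 : c ≤ sc L A j := hκc.trans (by
      exact_mod_cast hj.trans (thmA_lt_sc (by omega) hA j).le)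
    have h4 : {O | thmABad θ K δ L A κ j x O} ⊆ {O | ¬ W θ K δ x (sc L A j) O} ∪
        {O | ∃ η ⊆ EB x L, rew (EB x L) η O ∈ {O | ¬ W θ K δ x (sc L A j) O}} := by
      rintro O (h5 | ⟨-, h5⟩)
      · exact Or.inl h5
      · exact Or.inr h5
    refine ((measureReal_mono h4).trans (measureReal_union_le _ _)).trans ?_
    exact (add_le_add le_rfl (hc _ hm)).trans (thmA_bad_le h2 h3 measureReal_nonneg h1 h1)
  · have h4 : {O | thmABad θ K δ L A κ j x O} ⊆ {O | ¬ W θ K δ x (sc L A j) O} := by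
      rintro O (h5 | ⟨h5, -⟩)
      · exact h5
      · exact absurd h5 hj
    have h5 := thmA_bad_le (c := 0) h2 (by linarith) measureReal_nonneg h1 h1
    refine (measureReal_mono h4).trans ?_
    linarith

theorem thmA (hd : 2 ≤ d) {p : unitInterval} (hp0 : 0 < (p : ℝ)) (hp1 : (p : ℝ) < 1) {θ K : ℝ}
    (hθ : 0 < θ) (hK : 0 < K) (h : Hom d p θ K) :
    ∀ᵐ O ∂μP d p, ∀ (R0 : ℕ) (u : V d → ℝ), HarmOff (GC O) R0 u → SD (Cl O) u →
      {y ∈ Cl O | u y ≠ 0}.Finite := by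
  refine ae_all_iff.2 fun R0 => ?_
  obtain ⟨Ca, hCa⟩ := exists_rew_scr hd hθ hK
  obtain ⟨Cb, hCb⟩ := count_scr hd hθ hK R0
  obtain ⟨Aa, hAa⟩ := hCa (max Ca Cb) (le_max_left _ _)
  obtain ⟨Ab, hAb⟩ := hCb (max Ca Cb) (le_max_right _ _)
  set C1 : ℝ := max Ca Cb
  obtain ⟨A, hA, hA1, hA2⟩ : ∃ A : ℕ, 16 ≤ A ∧ Aa ≤ A ∧ Ab ≤ A :=
    ⟨16 + Aa + Ab, by omega, by omega, by omega⟩
  obtain ⟨δa, hδa, ha⟩ := hAa A hA1
  obtain ⟨Λs, δb, hΛs, hδb, hb⟩ := hAb A hA2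
  have hA' : (16 : ℝ) ≤ A := by exact_mod_cast hA
  obtain ⟨δ, hδ, hδ1, hδ2, hδ3⟩ : ∃ δ : ℝ, 0 < δ ∧ δ ≤ δa ∧ δ ≤ δb ∧ δ ≤ 1 / (2 * A) :=
    ⟨min δa (min δb (1 / (2 * A))), lt_min hδa (lt_min hδb (by positivity)), min_le_left _ _,
      (min_le_right _ _).trans (min_le_left _ _), (min_le_right _ _).trans (min_le_right _ _)⟩
  obtain ⟨La, hLa⟩ := ha δ hδ hδ1
  obtain ⟨Lb, hLb⟩ := hb δ hδ hδ2
  obtain ⟨Lc, hLc⟩ := multi_prob d hA
  obtain ⟨s0, hs0⟩ := h δ hδ (3 * d + 3 + 2)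
  obtain ⟨L, hL, hL1, hL2, hL3, hL4⟩ : ∃ L : ℕ, 2 ≤ L ∧ La ≤ L ∧ Lb ≤ L ∧ Lc ≤ L ∧ s0 ≤ L :=
    ⟨2 + La + Lb + Lc + s0, by omega, by omega, by omega, by omega, by omega⟩
  obtain ⟨c, hc0, hc⟩ := thmA_finite_energy (d := d) hp0 hp1 L
  obtain ⟨κ, hκ, hκc⟩ : ∃ κ : ℕ, 1 ≤ κ ∧ c ≤ κ :=
    ⟨⌈c⌉₊ + 1, by omega, (Nat.le_ceil c).trans (by push_cast; linarith)⟩
  obtain ⟨N, hN⟩ := hLa L hL1 κ hκ
  obtain ⟨Bc, hBc⟩ := hLb L hL2 κ N hκ
  have hLs : ∀ j, L ≤ sc L A j := thmA_le_sc (by omega)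
  have e1 := hLc L hL3 p (thmABad θ K δ L A κ) (thmA_dep θ K δ L A κ) fun j x =>
    thmA_prob hL (by omega) hκc (hc x) (hs0 (sc L A j) (hL4.trans (hLs j)) x)
  have hSA : ∀ x : V d, MeasurableSet {O | Scr θ K δ (C1 * A) Λs L A κ N R0 x O} :=
    fun x => measurableSet_Scr _ _ _ _ _ _ _ _ _ _ x
  have e2 := thmA_rare (μP d p) (L := L) (A := A) (by omega) (by omega) _ _ hSA
    (fun x => thmA_meas_rew (EB x L) (hSA x)) hc0 (fun x => hc x _ (hSA x))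
    (fun O R => hBc O 0 R)
  filter_upwards [e1, e2] with O hO1 hO2
  have key : ∀ u : V d → ℝ, HarmOff (GC O) R0 u → SD (Cl O) u → {y ∈ Cl O | 0 < u y}.Finite := by
    intro u hu hs
    refine thmA_det (N := N) hd (by omega) hA (fun i z hz hy => ?_) hO1 hO2 hu hs
      fun x hx1 hx2 hx3 => ?_
    · refine thmA_near (K := K) hθ hL (by omega) hδ3 ?_ hy
      by_contra h2
      exact hz (Or.inl h2)
    · refine hN Λs R0 O u x hΛs hu hs hx1 hx2 (fun j => ?_) fun η hη j hj => ?_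
      · by_contra h3
        exact hx3 j (Or.inl h3)
      · by_contra h3
        exact hx3 j (Or.inr ⟨hj, η, hη, h3⟩)
  intro u hu hs
  obtain ⟨hu', hs'⟩ := thmA_neg hu hs
  refine ((key u hu hs).union (key _ hu' hs')).subset fun y hy => ?_
  rcases lt_or_gt_of_ne hy.2 with h3 | h3
  · exact Or.inr ⟨hy.1, neg_pos.2 h3⟩
  · exact Or.inl ⟨hy.1, h3⟩

end Pool.Agent.P.MP_b4265e_pr.R
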