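import Pool.Agent.P.MP_b4265e_pr.R.Div

/-!
Two-scale testing.
-/

namespace Pool.Agent.P.MP_b4265e_pr.R

open Finset
open scoped Classical

section aux
variable {d : ℕ}

lemma ts_l2_shift (x : V d) (a : ℕ) (j : Fin d) (f : V d → ℝ) :
    l2 (box x a) (fun z => f (z + ee j)) ≤ l2 (box x (a + 1)) f := by
  have h1 : l2 (box x a) (fun z => f (z + ee j)) = l2 (box (x + ee j) a) f := by
    unfold l2
    rw [sum_box_shift x (ee j) a (fun y => f y ^ 2)]
  rw [h1]
  exact l2_mono (box_subset (by rw [nd_add_ee]; omega)) f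

lemma ts_l2_le_mul {α : Type*} {S : Finset α} {f g : α → ℝ} {c : ℝ} (hc : 0 ≤ c)
    (h : ∀ a ∈ S, |f a| ≤ c * |g a|) : l2 S f ≤ c * l2 S g := by
  have h1 : l2 S f ≤ l2 S (fun a => c * g a) :=
    l2_le_of_abs_le fun a ha => by rw [abs_mul, abs_of_nonneg hc]; exact h a ha
  rwa [l2_mul, abs_of_nonneg hc] at h1

lemma ts_mem_box_add {x y : V d} {r : ℕ} (j : Fin d) (hy : y ∈ box x r) :
    y + ee j ∈ box x (r + 1) := by
  rw [mem_box_nd] at *
  have := nd_triangle x y (y + ee j)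
  rw [nd_add_ee] at this
  omega

lemma ts_not_mem_box_add {x y : V d} {r : ℕ} (j : Fin d) (hy : y ∉ box x (r + 1)) :
    y + ee j ∉ box x r := by
  rw [mem_box_nd] at *
  have := nd_triangle x (y + ee j) y
  rw [nd_comm (y + ee j) y, nd_add_ee] at this
  omega

/-- The Euclidean norm over edges of a function of the upper endpoint. -/
lemma ts_l2_snd {G : Set (E d)} {C : Set (V d)} (hG : G ⊆ ins C) (x : V d) (r : ℕ)
    (f : V d → ℝ) :
    l2 (cap G (boxE x r)) (fun e => f (e.1 + ee e.2)) ≤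
      (d + 1) * l2 (cap C (box x (r + 1))) f := by
  apply l2_le_of_sq_le (mul_nonneg (by positivity) (l2_nonneg _ _))
  have h1 := sum_edge_snd_le hG (boxE x r) (box x (r + 1))
    (fun e he _ => ts_mem_box_add e.2 (mem_boxE'.1 he)) (f := fun y => f y ^ 2)
    (fun y => sq_nonneg _)
  rw [mul_pow, l2_sq]
  refine h1.trans (mul_le_mul_of_nonneg_right ?_ (sum_nonneg fun y _ => sq_nonneg _))
  have : (0 : ℝ) ≤ d := Nat.cast_nonneg d
  nlinarith

/-- The energy of a product. -/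
lemma ts_en_mul {G : Set (E d)} {C : Set (V d)} (hG : G ⊆ ins C) (x : V d) (r : ℕ)
    (ψ v : V d → ℝ) {M N : ℝ} (hM : 0 ≤ M) (hN : 0 ≤ N)
    (h : ∀ y ∈ box x r, |ψ y| ≤ M ∧ ∀ j, |dif j ψ y| ≤ N) :
    en G x r (fun y => ψ y * v y) ≤
      M * en G x r v + N * ((d + 1) * l2 (cap C (box x (r + 1))) v) := by
  have h1 : en G x r (fun y => ψ y * v y) = l2 (cap G (boxE x r))
      (fun e => ψ e.1 * grad v e + dif e.2 ψ e.1 * v (e.1 + ee e.2)) := by
    unfold en
    refine l2_congr fun e _ => ?_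
    simp only [grad, dif]
    ring
  rw [h1]
  refine (l2_add_le _ _ _).trans (add_le_add ?_ ?_)
  · refine ts_l2_le_mul hM fun e he => ?_
    rw [abs_mul]
    exact mul_le_mul_of_nonneg_right (h _ (mem_boxE'.1 (mem_cap.1 he).1)).1 (abs_nonneg _)
  · have h2 := mul_le_mul_of_nonneg_left (ts_l2_snd hG x r v) hN
    refine le_trans (ts_l2_le_mul (g := fun e : E d => v (e.1 + ee e.2)) hN fun e he => ?_) h2
    rw [abs_mul]
    exact mul_le_mul_of_nonneg_right ((h _ (mem_boxE'.1 (mem_cap.1 he).1)).2 _) (abs_nonneg _)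

/-- Replacing the function at the upper endpoint. -/
lemma ts_replace {G : Set (E d)} {C : Set (V d)} (hG : G ⊆ ins C) (x : V d) (r : ℕ)
    (q : E d → ℝ) (ψ u : V d → ℝ) {B N : ℝ} (hB : 0 ≤ B) (hN : 0 ≤ N)
    (hq0 : ∀ e, e ∉ G → q e = 0) (hq : ∀ e, |q e| ≤ B)
    (h : ∀ y ∈ box x r, ∀ j, |dif j ψ y| ≤ N) :
    |∑ e ∈ boxE x r, q e * (u (e.1 + ee e.2) * dif e.2 ψ e.1)| ≤
      B * N * (d * (√(vol d (r + 1)) * l2 (cap C (box x (r + 1))) u)) := by
  have h1 : ∑ e ∈ boxE x r, q e * (u (e.1 + ee e.2) * dif e.2 ψ e.1) =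
      ∑ e ∈ cap G (boxE x r), q e * (u (e.1 + ee e.2) * dif e.2 ψ e.1) := by
    symm
    refine sum_subset (cap_subset _ _) fun e he hne => ?_
    rw [hq0 e fun h => hne (mem_cap.2 ⟨he, h⟩), zero_mul]
  rw [h1]
  refine (abs_sum_le_sum_abs _ _).trans ?_
  have h2 : ∑ e ∈ cap G (boxE x r), |q e * (u (e.1 + ee e.2) * dif e.2 ψ e.1)| ≤
      ∑ e ∈ cap G (boxE x r), B * N * |u (e.1 + ee e.2)| := by
    refine sum_le_sum fun e he => ?_
    rw [abs_mul, abs_mul]
    have h3 := h _ (mem_boxE'.1 (mem_cap.1 he).1) e.2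
    calc |q e| * (|u (e.1 + ee e.2)| * |dif e.2 ψ e.1|) ≤ B * (|u (e.1 + ee e.2)| * N) := by
          gcongr
          exact hq e
      _ = B * N * |u (e.1 + ee e.2)| := by ring
  refine h2.trans ?_
  rw [← mul_sum]
  refine mul_le_mul_of_nonneg_left ?_ (mul_nonneg hB hN)
  refine (sum_edge_snd_le hG (boxE x r) (box x (r + 1))
    (fun e he _ => ts_mem_box_add e.2 (mem_boxE'.1 he)) (f := fun y => |u y|)
    (fun y => abs_nonneg _)).trans ?_
  refine mul_le_mul_of_nonneg_left ?_ (Nat.cast_nonneg d)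
  refine (sum_abs_le_l2 _ _).trans (mul_le_mul_of_nonneg_right ?_ (l2_nonneg _ _))
  rw [← card_box_vol x (r + 1)]
  exact Real.sqrt_le_sqrt (by exact_mod_cast card_le_card (cap_subset _ _))

/-- Norms of the slowly varying test field and of its differences. -/
lemma ts_l2_F (x : V d) (r : ℕ) (ψ u : V d → ℝ) (j : Fin d) {N : ℝ} (hN : 0 ≤ N)
    (h : ∀ y ∈ box x r, |dif j ψ y| ≤ N) :
    l2 (box x r) (fun z => u (z + ee j) * dif j ψ z) ≤ N * l2 (box x (r + 1)) u := by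
  refine le_trans (ts_l2_le_mul (g := fun z => u (z + ee j)) hN fun z hz => ?_)
    (mul_le_mul_of_nonneg_left (ts_l2_shift x r j u) hN)
  rw [abs_mul, mul_comm]
  exact mul_le_mul_of_nonneg_right (h z hz) (abs_nonneg _)

lemma ts_l2_dif_F (x : V d) (r : ℕ) (ψ u : V d → ℝ) (j k : Fin d) {N N' : ℝ} (hN : 0 ≤ N)
    (hN' : 0 ≤ N') (h : ∀ y ∈ box x r, |dif j ψ y| ≤ N ∧ |dif k (dif j ψ) y| ≤ N') :
    l2 (box x r) (dif k fun z => u (z + ee j) * dif j ψ z) ≤
      N * l2 (box x (r + 1)) (dif k u) + N' * l2 (box x (r + 2)) u := by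
  have h1 : l2 (box x r) (dif k fun z => u (z + ee j) * dif j ψ z) = l2 (box x r)
      (fun z => dif k u (z + ee j) * dif j ψ z + u (z + ee k + ee j) * dif k (dif j ψ) z) := by
    refine l2_congr fun z _ => ?_
    have : z + ee j + ee k = z + ee k + ee j := by abel
    simp only [dif, this]
    ring
  rw [h1]
  refine (l2_add_le _ _ _).trans (add_le_add ?_ ?_)
  · exact ts_l2_F x r ψ (dif k u) j hN fun y hy => (h y hy).1
  · refine (ts_l2_F x r (dif j ψ) (fun z => u (z + ee j)) k hN' fun y hy => (h y hy).2).trans ?_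
    exact mul_le_mul_of_nonneg_left (ts_l2_shift x (r + 1) j u) hN'

end aux

theorem two_scale (d : ℕ) {θ K : ℝ} (hθ : 0 < θ) (hK : 0 < K) : ∃ Ct : ℝ, 1 ≤ Ct ∧
    ∀ {σ η B : ℝ} {G : Set (E d)} {C : Set (V d)} {φ : Fin d → V d → ℝ} {x : V d} {s m m1 : ℕ},
    0 ≤ σ → η ≤ 1 / 100 → Meso θ K σ η B G C φ x s m m1 → ∀ (r : ℕ), r + 20 * m ≤ 2 * s →
    ∀ (v ψ : V d → ℝ) (M l : ℝ), 0 < l → l ≤ s →
    (∀ y ∈ box x (2 * s), |ψ y| ≤ M ∧ ∀ j, |dif j ψ y| ≤ M / l ∧
      ∀ k, |dif k (dif j ψ) y| ≤ M / l ^ 2) →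
    (∀ y, y ∉ box x r → ψ y = 0 ∨ ∀ z ∈ box y (6 * m), z ∈ C → v z = 0) → ∀ i,
      |∑ e ∈ boxE x r, flx G (φ i) i e * grad v e * ψ e.1 -
        σ * ∑ y ∈ box x r, dif i (sm C m v) y * ψ y| ≤
        Ct * η * (s / l) * M * √(vol d (2 * s)) *
          (en G x (r + 20 * m) v + l2 (cap C (box x (r + 20 * m))) v / l) := by
  obtain ⟨Cd, hCd, Hd⟩ := div_small d hθ hK
  obtain ⟨Cs, hCs, Hs⟩ := smoothing d hθ hK
  have hd0 : (0 : ℝ) ≤ d := Nat.cast_nonneg d
  have hCd0 : 0 ≤ Cd := by linarith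
  have hCs0 : 0 ≤ Cs := by linarith
  refine ⟨Cd * (d + 1) + 3 * d * Cs + d * (Cs + 4 * d * Cs), ?_, ?_⟩
  · have h1 : 0 ≤ 3 * d * Cs + d * (Cs + 4 * d * Cs) := by positivity
    nlinarith
  intro σ η B G C φ x s m m1 hσ hη H r hr v ψ M l hl hls hψ hsupp i
  -- sizes
  have hB := H.one_le
  have hm1 : (1 : ℝ) ≤ m1 := by exact_mod_cast H.m1_pos
  have hηm : 1 ≤ η * m := le_trans (by nlinarith) H.sep1
  have hm0 : (0 : ℝ) ≤ m := Nat.cast_nonneg m
  have hη0 : 0 < η := by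
    by_contra hc
    push Not at hc
    nlinarith
  have hm100 : (100 : ℝ) ≤ m := by nlinarith
  have hm : 100 ≤ m := by exact_mod_cast hm100
  have hm1m : m1 ≤ m := by
    have h1 : (m1 : ℝ) ≤ m := by
      have := H.sep1
      nlinarith
    exact_mod_cast h1
  have hms : (m : ℝ) ≤ s := by exact_mod_cast (by omega : m ≤ s)
  have hG := H.wf.sub
  have hM : 0 ≤ M := (abs_nonneg _).trans (hψ x (mem_box_self _ _)).1
  have hMl : 0 ≤ M / l := div_nonneg hM hl.le
  have hMl2 : 0 ≤ M / l ^ 2 := div_nonneg hM (by positivity)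
  have hsl : 1 ≤ (s : ℝ) / l := (one_le_div hl).2 hls
  set q : E d → ℝ := flx G (φ i) i with hq
  set u : V d → ℝ := sm C m v with hu
  set Ee := en G x (r + 20 * m) v with hEe
  set L := l2 (cap C (box x (r + 20 * m))) v with hL
  set Vs := √(vol d (2 * s)) with hVs
  have hEe0 : 0 ≤ Ee := en_nonneg _ _ _ _
  have hL0 : 0 ≤ L := l2_nonneg _ _
  have hVs0 : 0 ≤ Vs := Real.sqrt_nonneg _
  have hLl : 0 ≤ L / l := div_nonneg hL0 hl.le
  have hq0 : ∀ e, e ∉ G → q e = 0 := fun e he => flx_of_not_mem _ _ he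
  have hqB : ∀ e, |q e| ≤ 3 * B := fun e => (abs_flx_le (H.bdd i) i e).trans (by linarith)
  have hsub : ∀ a : ℕ, a ≤ 2 * s → ∀ y ∈ box x a, y ∈ box x (2 * s) :=
    fun a ha y hy => box_mono x ha hy
  have hen : ∀ a : ℕ, a ≤ r + 20 * m → en G x a v ≤ Ee := fun a ha =>
    en_mono G (by rw [nd_self]; omega) v
  have hl2 : ∀ a : ℕ, a ≤ r + 20 * m → l2 (cap C (box x a)) v ≤ L := fun a ha =>
    l2_mono (cap_mono C (box_mono x ha)) v
  have hvol : ∀ a : ℕ, a ≤ 2 * s → √(vol d a) ≤ Vs := fun a ha =>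
    Real.sqrt_le_sqrt (vol_mono d ha)
  -- the smoothing estimates
  have hloc : LocP θ K G C x (r + 4 + 3 * m) m := fun z hz ρ h1 h2 =>
    ⟨H.dens z (box_mono x (by omega) hz) ρ h1 (by omega),
      H.poin z (box_mono x (by omega) hz) ρ h1 (by omega)⟩
  obtain ⟨-, S1, S2, -, S4⟩ := Hs G C x (r + 4) m (by omega) hloc v
  have S1' : ∀ a : ℕ, a ≤ r + 4 →
      l2 (cap C (box x a)) (fun y => v y - u y) ≤ Cs * m * Ee := fun a ha =>
    (l2_mono (cap_mono C (box_mono x ha)) _).trans (S1.trans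
      (mul_le_mul_of_nonneg_left (hen _ (by omega)) (by positivity)))
  have S2' : ∀ a : ℕ, a ≤ r + 4 → ∀ j, l2 (box x a) (dif j u) ≤ Cs * Ee := fun a ha j =>
    (l2_mono (box_mono x ha) _).trans ((S2 j).trans
      (mul_le_mul_of_nonneg_left (hen _ (by omega)) hCs0))
  have S4' : ∀ a : ℕ, a ≤ r + 4 → l2 (box x a) u ≤ Cs * L := fun a ha =>
    (l2_mono (box_mono x ha) _).trans (S4.trans
      (mul_le_mul_of_nonneg_left (hl2 _ (by omega)) hCs0))
  -- vanishing of the smoothed function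
  have hu0 : ∀ y y' : V d, nd y y' ≤ 1 → (∀ z ∈ box y (6 * m), z ∈ C → v z = 0) → u y' = 0 :=
    fun y y' hyy h => sm_eq_zero fun z hz hC => h z (box_subset (by omega) hz) hC
  -- the test fields
  set F : Fin d → V d → ℝ := fun j z => u (z + ee j) * dif j ψ z with hF
  have hFsupp : ∀ j z, z ∉ box x (r + 1) → F j z = 0 := by
    intro j z hz
    have hz1 : z ∉ box x r := fun h => hz (box_mono x (by omega) h)
    rcases hsupp z hz1 with h1 | h1
    · rcases hsupp (z + ee j) (ts_not_mem_box_add j hz) with h2 | h2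
      · simp [hF, dif, h1, h2]
      · simp only [hF]
        rw [hu0 (z + ee j) (z + ee j) (by rw [nd_self]; omega) h2, zero_mul]
    · simp only [hF]
      rw [hu0 z (z + ee j) (by rw [nd_add_ee]) h1, zero_mul]
  -- the divergence term
  have hD := Hd hσ hη H r (by omega) (fun y => ψ y * v y) (fun y hyC hy => by
    rcases hsupp y hy with h | h
    · simp [h]
    · simp [h y (mem_box_self _ _) hyC]) i
  have hDen : en G x (r + 1) (fun y => ψ y * v y) ≤ (d + 1) * M * (Ee + L / l) := by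
    refine (ts_en_mul hG x (r + 1) ψ v hM hMl fun y hy =>
      ⟨(hψ y (hsub _ (by omega) y hy)).1,
        fun j => ((hψ y (hsub _ (by omega) y hy)).2 j).1⟩).trans ?_
    have h1 := hen (r + 1) (by omega)
    have h2 := hl2 (r + 1 + 1) (by omega)
    calc M * en G x (r + 1) v + M / l * ((d + 1) * l2 (cap C (box x (r + 1 + 1))) v)
        ≤ M * Ee + M / l * ((d + 1) * L) := by gcongr
      _ = M * Ee + (d + 1) * M * (L / l) := by ring
      _ ≤ (d + 1) * M * (Ee + L / l) := by nlinarith [mul_nonneg hM hEe0]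
  set Z := η * (s / l) * M * Vs * (Ee + L / l) with hZ
  have hX0 : 0 ≤ Ee + L / l := add_nonneg hEe0 hLl
  have hZ1 : η * Vs * (M * (Ee + L / l)) ≤ Z := by
    have h1 : 0 ≤ η * Vs * (M * (Ee + L / l)) := by positivity
    calc η * Vs * (M * (Ee + L / l)) = 1 * (η * Vs * (M * (Ee + L / l))) := by ring
      _ ≤ (s / l) * (η * Vs * (M * (Ee + L / l))) := by gcongr
      _ = Z := by rw [hZ]; ring
  have hT1 : |∑ e ∈ boxE x (r + 1), q e * grad (fun y => ψ y * v y) e| ≤ Cd * (d + 1) * Z := by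
    refine hD.trans ?_
    calc Cd * η * Vs * en G x (r + 1) (fun y => ψ y * v y)
        ≤ Cd * η * Vs * ((d + 1) * M * (Ee + L / l)) := by gcongr
      _ = Cd * (d + 1) * (η * Vs * (M * (Ee + L / l))) := by ring
      _ ≤ Cd * (d + 1) * Z := by gcongr
  -- replacing v by its smoothing
  have hT2 : |∑ e ∈ boxE x (r + 1), q e * ((fun y => v y - u y) (e.1 + ee e.2) *
      dif e.2 ψ e.1)| ≤ 3 * d * Cs * Z := by
    refine (ts_replace hG x (r + 1) q ψ (fun y => v y - u y) (by linarith) hMl hq0 hqB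
      fun y hy j => ((hψ y (hsub _ (by omega) y hy)).2 j).1).trans ?_
    have h1 := hvol (r + 1 + 1) (by omega)
    have h2 := S1' (r + 1 + 1) (by omega)
    have h3 := H.sep2
    have h4 : 0 ≤ l2 (cap C (box x (r + 1 + 1))) (fun y => v y - u y) := l2_nonneg _ _
    have hB0 : 0 ≤ B := by linarith
    calc 3 * B * (M / l) * (d * (√(vol d (r + 1 + 1)) *
          l2 (cap C (box x (r + 1 + 1))) (fun y => v y - u y)))
        ≤ 3 * B * (M / l) * (d * (Vs * (Cs * m * Ee))) := by gcongr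
      _ = 3 * d * Cs * ((B * m) * (M / l * Vs * Ee)) := by ring
      _ ≤ 3 * d * Cs * ((η * s) * (M / l * Vs * (Ee + L / l))) := by
          gcongr
          linarith
      _ = 3 * d * Cs * Z := by rw [hZ]; ring
  -- testing against the averaged flux
  have hT3 : ∀ j, |∑ z ∈ box x (r + 1), (q (z, j) - (if j = i then σ else 0)) * F j z| ≤
      (Cs + 4 * d * Cs) * Z := by
    intro j
    have hb : ∀ z, |q (z, j) - (if j = i then σ else 0)| ≤ 4 * B := by
      intro z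
      have h1 := hqB (z, j)
      have h2 := H.sig_le
      rw [abs_le] at h1 ⊢
      split_ifs <;> constructor <;> linarith
    refine (abs_sum_mul_le_avg (m := m1) hb (hFsupp j)).trans ?_
    have hA : l2 (box x (r + 1)) (Av m1 fun z => q (z, j) - (if j = i then σ else 0)) ≤
        η * Vs := by
      refine (l2_mono (box_mono x (by omega : r + 1 ≤ 2 * s)) _).trans ?_
      apply l2_le_of_sq_le (by positivity)
      rw [mul_pow, hVs, Real.sq_sqrt (vol_pos _ _).le]
      refine le_trans (le_of_eq (sum_congr rfl fun z _ => ?_)) (H.avg i j)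
      rw [Av_sub, Av_const]
    have hF1 : l2 (box x (r + 1)) (F j) ≤ M / l * (Cs * L) :=
      (ts_l2_F x (r + 1) ψ u j hMl fun y hy => ((hψ y (hsub _ (by omega) y hy)).2 j).1).trans
        (mul_le_mul_of_nonneg_left (S4' _ (by omega)) hMl)
    have hF2 : ∀ k, l2 (box x (r + 1 + 1)) (dif k (F j)) ≤ M / l * Cs * (Ee + L / l) := by
      intro k
      refine (ts_l2_dif_F x (r + 1 + 1) ψ u j k hMl hMl2 fun y hy =>
        ⟨((hψ y (hsub _ (by omega) y hy)).2 j).1,
          ((hψ y (hsub _ (by omega) y hy)).2 j).2 k⟩).trans ?_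
      have h1 := S2' (r + 1 + 1 + 1) (by omega) k
      have h2 := S4' (r + 1 + 1 + 2) (by omega)
      calc M / l * l2 (box x (r + 1 + 1 + 1)) (dif k u) + M / l ^ 2 * l2 (box x (r + 1 + 1 + 2)) u
          ≤ M / l * (Cs * Ee) + M / l ^ 2 * (Cs * L) := by gcongr
        _ = M / l * Cs * (Ee + L / l) := by field_simp
    have hF3 : ∑ k, l2 (box x (r + 1 + 1)) (dif k (F j)) ≤ d * (M / l * Cs * (Ee + L / l)) := by
      refine (sum_le_sum fun k _ => hF2 k).trans ?_
      simp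
    have h1 := hvol (r + 1 + m1) (by omega)
    have h2 := H.sep1
    have hB0 : 0 ≤ B := by linarith
    have h3 : 0 ≤ l2 (box x (r + 1)) (F j) := l2_nonneg _ _
    have h4 : 0 ≤ ∑ k, l2 (box x (r + 1 + 1)) (dif k (F j)) :=
      sum_nonneg fun k _ => l2_nonneg _ _
    have h5 : B * m1 ≤ η * s := h2.trans (mul_le_mul_of_nonneg_left hms hη0.le)
    calc l2 (box x (r + 1)) (Av m1 fun z => q (z, j) - (if j = i then σ else 0)) *
          l2 (box x (r + 1)) (F j) + 4 * B * √(vol d (r + 1 + m1)) *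
          (m1 * ∑ k, l2 (box x (r + 1 + 1)) (dif k (F j)))
        ≤ η * Vs * (M / l * (Cs * L)) +
          4 * B * Vs * (m1 * (d * (M / l * Cs * (Ee + L / l)))) := by gcongr
      _ = Cs * (η * Vs * (M * (L / l))) +
          4 * d * Cs * ((B * m1) * (M / l * Vs * (Ee + L / l))) := by ring
      _ ≤ Cs * (η * Vs * (M * (Ee + L / l))) +
          4 * d * Cs * ((η * s) * (M / l * Vs * (Ee + L / l))) := by
          gcongr
          linarith
      _ = Cs * (η * Vs * (M * (Ee + L / l))) + 4 * d * Cs * Z := by rw [hZ]; ring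
      _ ≤ Cs * Z + 4 * d * Cs * Z := by gcongr
      _ = (Cs + 4 * d * Cs) * Z := by ring
  have hT4 : |∑ j, ∑ z ∈ box x (r + 1), (q (z, j) - (if j = i then σ else 0)) * F j z| ≤
      d * ((Cs + 4 * d * Cs) * Z) := by
    refine (abs_sum_le_sum_abs _ _).trans ((sum_le_sum fun j _ => hT3 j).trans ?_)
    simp
  -- the identities
  have hI1 : ∑ e ∈ boxE x r, q e * grad v e * ψ e.1 =
      ∑ e ∈ boxE x (r + 1), q e * grad v e * ψ e.1 := by
    refine sum_subset (boxE_mono x (by omega)) fun e _ hne => ?_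
    by_cases heG : e ∈ G
    · rcases hsupp e.1 (fun h => hne (mem_boxE'.2 h)) with h | h
      · rw [h, mul_zero]
      · have h1 := h e.1 (mem_box_self _ _) (hG heG).1
        have h2 := h (e.1 + ee e.2) (mem_box_nd.2 (by rw [nd_add_ee]; omega)) (hG heG).2
        simp [grad, h1, h2]
    · rw [hq0 e heG, zero_mul, zero_mul]
  have hI2 : ∑ y ∈ box x r, dif i u y * ψ y = ∑ y ∈ box x (r + 1), dif i u y * ψ y := by
    refine sum_subset (box_mono x (by omega)) fun y _ hne => ?_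
    rcases hsupp y hne with h | h
    · rw [h, mul_zero]
    · simp [dif, hu0 y y (by rw [nd_self]; omega) h, hu0 y (y + ee i) (by rw [nd_add_ee]) h]
  have hI3 : ∑ z ∈ box x (r + 1), F i z = - ∑ y ∈ box x (r + 1), dif i u y * ψ y :=
    sum_dif_mul u ψ i le_rfl fun y hy => by
      rcases hsupp y hy with h | h
      · rw [h, mul_zero]
      · rw [hu0 y y (by rw [nd_self]; omega) h, zero_mul]
  have hI4 : ∑ j, ∑ z ∈ box x (r + 1), (q (z, j) - (if j = i then σ else 0)) * F j z =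
      ∑ e ∈ boxE x (r + 1), q e * (u (e.1 + ee e.2) * dif e.2 ψ e.1) -
        σ * ∑ z ∈ box x (r + 1), F i z := by
    rw [sum_boxE, sum_comm, mul_sum, ← sum_sub_distrib]
    refine sum_congr rfl fun z _ => ?_
    simp only [sub_mul, sum_sub_distrib, ite_mul, zero_mul, sum_ite_eq', mem_univ, if_true, hF]
  have hI5 : ∑ e ∈ boxE x (r + 1), q e * grad (fun y => ψ y * v y) e =
      ∑ e ∈ boxE x (r + 1), q e * grad v e * ψ e.1 +
      ∑ e ∈ boxE x (r + 1), q e * ((fun y => v y - u y) (e.1 + ee e.2) * dif e.2 ψ e.1) +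
      ∑ e ∈ boxE x (r + 1), q e * (u (e.1 + ee e.2) * dif e.2 ψ e.1) := by
    rw [← sum_add_distrib, ← sum_add_distrib]
    refine sum_congr rfl fun e _ => ?_
    simp only [grad, dif]
    ring
  have hfin : (Cd * (d + 1) + 3 * d * Cs + d * (Cs + 4 * d * Cs)) * η * (s / l) * M * Vs *
      (Ee + L / l) = Cd * (d + 1) * Z + 3 * d * Cs * Z + d * ((Cs + 4 * d * Cs) * Z) := by
    rw [hZ]; ring
  rw [hfin, hI1, hI2]
  rw [hI4, hI3] at hT4
  rw [hI5] at hT1
  rw [abs_le] at hT1 hT2 hT4 ⊢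
  constructor <;> linarith [hT1.1, hT1.2, hT2.1, hT2.2, hT4.1, hT4.2]

end Pool.Agent.P.MP_b4265e_pr.R
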