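import Pool.Agent.P.MP_b4265e_pr.R.ZLine
import Pool.Agent.P.MP_b4265e_pr.R.Poinc

/-!
Propagation of smallness in a box and in an annulus for lattice harmonic functions.
-/

namespace Pool.Agent.P.MP_b4265e_pr.R

open Finset
open scoped Classical

lemma zbox_card {d : ℕ} (z : V d) (l : ℕ) (i : Fin d) (S : Finset (V d)) (hS : S ⊆ box z l)
    {e : ℝ} (he : 0 ≤ e) :
    (S.card : ℝ) ≤ ((box z l).filter fun y => e * (2 * l + 1) ≤
      (((Icc (z i - l) (z i + l)).filter fun t => Function.update y i t ∈ S).card : ℝ)).card +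
      e * vol d l := by
  have h0 : (0 : ℝ) < 2 * l + 1 := by positivity
  have h1 := PoincAux.sum_update z l i fun a => if a ∈ S then (1 : ℝ) else 0
  have h2 : ∑ a ∈ box z l, (if a ∈ S then (1 : ℝ) else 0) = S.card := by
    rw [sum_boole, filter_mem_eq_inter, inter_eq_right.2 hS]
  rw [h2] at h1
  refine le_of_mul_le_mul_left ?_ h0
  rw [← h1, ← card_box_vol z l, card_filter]
  push_cast
  rw [card_eq_sum_ones (box z l)]
  push_cast
  rw [mul_sum, ← sum_add_distrib, mul_sum]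
  refine sum_le_sum fun a _ => ?_
  rw [sum_boole]
  split_ifs with h
  · have h3 := card_filter_le (Icc (z i - l) (z i + l)) fun t => Function.update a i t ∈ S
    rw [PoincAux.card_Icc'] at h3
    have h4 : (((Icc (z i - l) (z i + l)).filter fun t => Function.update a i t ∈ S).card : ℝ) ≤
        2 * l + 1 := by exact_mod_cast h3
    have h5 : 0 ≤ (2 * (l : ℝ) + 1) * e := by positivity
    linarith
  · have := not_le.1 h
    linarith

lemma zbox_full {d : ℕ} {z : V d} {l : ℕ} {S : Finset (V d)} {y0 : V d} (h0 : y0 ∈ S)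
    (hS : ∀ y ∈ S, ∀ i ∈ (univ : Finset (Fin d)), ∀ t ∈ Icc (z i - l) (z i + l),
      Function.update y i t ∈ S) {y : V d} (hy : y ∈ box z l) : y ∈ S := by
  have key : ∀ K : Finset (Fin d), K.piecewise y y0 ∈ S := by
    intro K
    induction K using Finset.induction_on with
    | empty => simpa using h0
    | insert i K hi ih =>
      rw [Finset.piecewise_insert]
      exact hS _ ih i (mem_univ i) _ (PoincAux.mem_Icc_of_box hy i)
  simpa using key univ

/-- A harmonic function that is very small on a fraction of a box is small on the box. -/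
theorem small_box (d : ℕ) : ∃ J : ℕ, 1 ≤ J ∧ ∀ ε β : ℝ, 0 < ε → 0 < β → ∃ (δ : ℝ) (l0 : ℕ), 0 < δ ∧
    ∀ l ≥ l0, ∀ (z : V d) (H : V d → ℝ) (M : ℝ), Harm Set.univ z (J * l) H →
    (∀ y ∈ box z (J * l), |H y| ≤ M) →
    ε * vol d l ≤ ((box z l).filter fun y => |H y| ≤ δ * M).card →
    ∀ y ∈ box z l, |H y| ≤ β * M := by
  obtain ⟨J, hJ, hl⟩ := small_line d
  refine ⟨J, hJ, fun ε β hε hβ => ?_⟩
  have key : ∀ I : Finset (Fin d), ∀ β : ℝ, 0 < β → ∃ (δ : ℝ) (l0 : ℕ), 0 < δ ∧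
      ∀ l ≥ l0, ∀ (z : V d) (H : V d → ℝ) (M : ℝ), Harm Set.univ z (J * l) H →
      (∀ y ∈ box z (J * l), |H y| ≤ M) →
      ε * vol d l ≤ ((box z l).filter fun y => |H y| ≤ δ * M).card →
      ∃ S : Finset (V d), S ⊆ box z l ∧ ε / 2 ^ I.card * vol d l ≤ S.card ∧
        (∀ y ∈ S, ∀ i ∈ I, ∀ t ∈ Icc (z i - l) (z i + l), Function.update y i t ∈ S) ∧
        ∀ y ∈ S, |H y| ≤ β * M := by
    intro I
    induction I using Finset.induction_on with
    | empty =>
      intro β hβ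
      refine ⟨β, 0, hβ, fun l _ z H M _ _ hc => ⟨_, filter_subset _ _, by simpa using hc,
        fun _ _ i hi => absurd hi (notMem_empty i), fun y hy => (mem_filter.1 hy).2⟩⟩
    | insert i I hi ih =>
      intro β hβ
      have he : 0 < ε / 2 ^ (I.card + 1) := by positivity
      obtain ⟨δ', l1, hδ', h1⟩ := hl _ β he hβ
      obtain ⟨δ, l0, hδ, h2⟩ := ih δ' hδ'
      refine ⟨δ, max l0 l1, hδ, fun l hl' z H M hH hM hc => ?_⟩
      obtain ⟨S, hS1, hS2, hS3, hS4⟩ := h2 l (le_of_max_le_left hl') z H M hH hM hc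
      refine ⟨(box z l).filter fun y => ε / 2 ^ (I.card + 1) * (2 * l + 1) ≤
        (((Icc (z i - l) (z i + l)).filter fun t => Function.update y i t ∈ S).card : ℝ),
        filter_subset _ _, ?_, ?_, ?_⟩
      · have h3 := zbox_card z l i S hS1 he.le
        rw [card_insert_of_notMem hi]
        have h4 : ε / 2 ^ I.card * vol d l = 2 * (ε / 2 ^ (I.card + 1) * vol d l) := by
          rw [pow_succ]; field_simp
        linarith
      · intro y hy j hj t ht
        obtain ⟨hy1, hy2⟩ := mem_filter.1 hy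
        refine mem_filter.2 ⟨PoincAux.update_mem_box hy1 j ht, hy2.trans ?_⟩
        refine Nat.cast_le.2 (card_le_card fun s hs => ?_)
        obtain ⟨hs1, hs2⟩ := mem_filter.1 hs
        refine mem_filter.2 ⟨hs1, ?_⟩
        by_cases hji : j = i
        · subst hji
          rwa [Function.update_idem]
        · rw [Function.update_comm hji]
          exact hS3 _ hs2 j ((mem_insert.1 hj).resolve_left hji) t ht
      · intro y hy
        obtain ⟨hy1, hy2⟩ := mem_filter.1 hy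
        refine h1 l (le_of_max_le_right hl') z H M hH hM y hy1 i (hy2.trans ?_)
        refine Nat.cast_le.2 (card_le_card fun s hs => ?_)
        obtain ⟨hs1, hs2⟩ := mem_filter.1 hs
        exact mem_filter.2 ⟨hs1, hS4 _ hs2⟩
  obtain ⟨δ, l0, hδ, h⟩ := key univ β hβ
  refine ⟨δ, l0, hδ, fun l hl' z H M hH hM hc y hy => ?_⟩
  obtain ⟨S, _, hS2, hS3, hS4⟩ := h l hl' z H M hH hM hc
  have hv := vol_pos d l
  have hpos : (0 : ℝ) < S.card := lt_of_lt_of_le (by positivity) hS2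
  obtain ⟨y0, hy0⟩ := card_pos.1 (Nat.cast_pos.1 hpos)
  exact hS4 y (zbox_full hy0 hS3 hy)

/-- Propagation of smallness through an annulus of bounded aspect ratio. -/
theorem small_ann {d : ℕ} (hd : 2 ≤ d) : ∃ J : ℕ, 1 ≤ J ∧ ∀ (ε β : ℝ) (T : ℕ), 0 < ε → 0 < β →
    ∃ l0 : ℕ, ∀ l ≥ l0, ∀ (ρ1 ρ2 : ℕ) (H : V d → ℝ) (M : ℝ), ρ2 ≤ T * l →
    (∀ z ∈ ann (0 : V d) ρ1 ρ2, Harm Set.univ z (J * l) H ∧ ∀ y ∈ box z (J * l), |H y| ≤ M) →
    (∃ z ∈ ann (0 : V d) ρ1 ρ2, ε * vol d l ≤ ((box z l).filter fun y => H y = 0).card) →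
    ∀ y ∈ ann (0 : V d) ρ1 ρ2, |H y| ≤ β * M := by
  obtain ⟨J, hJ, hb⟩ := small_box d
  refine ⟨J, hJ, fun ε β T hε hβ => ?_⟩
  have hε2 : (0 : ℝ) < 1 / 4 ^ d := by positivity
  choose! δf lf hpos hf using fun β hβ => hb (1 / 4 ^ d) β hε2 hβ
  obtain ⟨γ, hγ0, hγ⟩ : ∃ γ : ℕ → ℝ, γ 0 = β ∧ ∀ m, γ (m + 1) = δf (γ m) :=
    ⟨fun m => δf^[m] β, rfl, fun m => Function.iterate_succ_apply' δf m β⟩
  have hγp : ∀ m, 0 < γ m := by
    intro m
    induction m with
    | zero => rwa [hγ0]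
    | succ m ih => rw [hγ]; exact hpos _ ih
  obtain ⟨T', hT'⟩ : ∃ T' : ℕ, T' = 2 * d * (6 * T + 1) := ⟨_, rfl⟩
  obtain ⟨δ0, l1, hδ0, h1⟩ := hb ε (γ T') hε (hγp T')
  refine ⟨max (max 2 l1) ((range T').sup fun m => lf (γ m)),
    fun l hl ρ1 ρ2 H M hρ hH hz0 y hy => ?_⟩
  obtain ⟨z0, hz0, hc0⟩ := hz0
  have hl2 : 2 ≤ l := le_of_max_le_left (le_of_max_le_left hl)
  have hl1 : l1 ≤ l := le_of_max_le_right (le_of_max_le_left hl)
  have hlm : ∀ m < T', lf (γ m) ≤ l := fun m hm =>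
    (le_sup (f := fun m => lf (γ m)) (mem_range.2 hm)).trans (le_of_max_le_right hl)
  have hM : 0 ≤ M := (abs_nonneg _).trans ((hH z0 hz0).2 z0 (mem_box_self _ _))
  obtain ⟨b, hbl⟩ : ∃ b, b = l / 2 := ⟨_, rfl⟩
  have hb1 : 1 ≤ b := by omega
  obtain ⟨G, hG⟩ : ∃ G : ℕ → V d → Prop, ∀ m z, G m z ↔ ∀ y ∈ box z l, |H y| ≤ γ m * M :=
    ⟨_, fun _ _ => Iff.rfl⟩
  have step : ∀ m < T', ∀ z, ∀ z' ∈ ann (0 : V d) ρ1 ρ2, nd z z' ≤ b → G (m + 1) z → G m z' := by
    intro m hm z z' hz' hn hz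
    rw [hG] at hz ⊢
    refine hf (γ m) (hγp m) l (hlm m hm) z' H M (hH z' hz').1 (hH z' hz').2 ?_
    have e1 : vol d l ≤ 4 ^ d * vol d b := by
      refine vol_le_mul d ?_
      have : 2 * l + 1 ≤ 4 * (2 * b + 1) := by omega
      exact_mod_cast this
    have e2 : 1 / 4 ^ d * vol d l ≤ vol d b := by
      rw [one_div, inv_mul_le_iff₀ (by positivity)]
      exact e1
    refine e2.trans ?_
    rw [← card_box_vol z' b]
    refine Nat.cast_le.2 (card_le_card fun w hw => mem_filter.2 ⟨box_mono z' (by omega) hw, ?_⟩)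
    rw [← hγ]
    exact hz w (box_subset (by omega) hw)
  have start : G T' z0 := by
    rw [hG]
    refine h1 l hl1 z0 H M (hH z0 hz0).1 (hH z0 hz0).2 (hc0.trans ?_)
    refine Nat.cast_le.2 (card_le_card fun w hw => mem_filter.2 ⟨(mem_filter.1 hw).1, ?_⟩)
    rw [(mem_filter.1 hw).2, abs_zero]
    positivity
  have down : ∀ m ≤ T', G m y → G 0 y := by
    intro m
    induction m with
    | zero => exact fun _ h => h
    | succ m ih =>
      intro hm h
      exact ih (by omega) (step m (by omega) y y hy (by rw [nd_self]; omega) h)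
  have hex : ∀ z, ∃ k, T' < k ∨ G (T' - k) z := fun z => ⟨T' + 1, Or.inl (by omega)⟩
  have hlip : ∀ z, ∀ z' ∈ ann (0 : V d) ρ1 ρ2, nd z z' ≤ b →
      Nat.find (hex z') ≤ Nat.find (hex z) + 1 := by
    intro z z' hz' hn
    refine Nat.find_min' _ ?_
    by_cases hk : T' < Nat.find (hex z) + 1
    · exact Or.inl hk
    · have h2 := (Nat.find_spec (hex z)).resolve_left (by omega)
      refine Or.inr (step _ (by omega) z z' hz' hn ?_)
      rwa [show T' - (Nat.find (hex z) + 1) + 1 = T' - Nat.find (hex z) by omega]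
  have hch := ann_chain hd (0 : V d) (ρ1 := ρ1) (ρ2 := ρ2) hb1
    (fun z => (Nat.find (hex z) : ℝ)) (β := 1) zero_le_one (fun z hz z' hz' hn => by
      have e1 : (Nat.find (hex z') : ℝ) ≤ Nat.find (hex z) + 1 := by
        exact_mod_cast hlip z z' hz' hn
      have e2 : (Nat.find (hex z) : ℝ) ≤ Nat.find (hex z') + 1 := by
        exact_mod_cast hlip z' z hz (by rwa [nd_comm])
      rw [abs_le]
      constructor <;> linarith) y hy z0 hz0
  have hz00 : Nat.find (hex z0) = 0 := (Nat.find_eq_zero _).2 (Or.inr start)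
  simp only [hz00, Nat.cast_zero, sub_zero, mul_one, Nat.abs_cast] at hch
  have e3 : 2 * (ρ2 : ℝ) / b ≤ 6 * T := by
    rw [div_le_iff₀ (by exact_mod_cast hb1)]
    have e4 : T * l ≤ T * (3 * b) := Nat.mul_le_mul_left T (by omega)
    have e5 : 2 * ρ2 ≤ 6 * T * b := by nlinarith
    exact_mod_cast e5
  have e6 : (Nat.find (hex y) : ℝ) ≤ T' := by
    refine hch.trans ?_
    rw [hT']
    push_cast
    exact mul_le_mul_of_nonneg_left (by linarith) (by positivity)
  have e7 : Nat.find (hex y) ≤ T' := by exact_mod_cast e6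
  have e8 := down _ (Nat.sub_le _ _) ((Nat.find_spec (hex y)).resolve_left (by omega))
  rw [hG, hγ0] at e8
  exact e8 y (mem_box_self _ _)

end Pool.Agent.P.MP_b4265e_pr.R
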