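import Pool.Agent.P.MP_b4265e_pr.R.ZBox
import Pool.Agent.P.MP_b4265e_pr.R.ThmB
import Pool.Agent.P.MP_b4265e_pr.R.POne

/-!
On the full lattice the zeros of a decaying function, harmonic off a finite set and not finitely
supported, have density zero.
-/

namespace Pool.Agent.P.MP_b4265e_pr.R

open Finset Filter
open scoped Classical

attribute [local irreducible] l2 en nrm lam vol pair l1 lapG

variable {d : ℕ}

/-- Without fast decay the dual norms never drop by a large factor. -/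
theorem slow_core (hd : 3 ≤ d) {θ K : ℝ} (hθ : 0 < θ) (hK : 0 < K) {G : Set (E d)} {C : Set (V d)}
    (hw : Wf G C) (hg : AllGood θ K G C) {u : V d → ℝ} {R0 : ℕ} (h1 : HarmOff G R0 u)
    (h2 : Dec C u) (h3 : ¬ SD C u) (A1 : ℕ) :
    ∃ A : ℕ, 16 ≤ A ∧ A1 ≤ A ∧ ∃ (β : ℝ) (f : V d →₀ ℝ) (n2 : ℕ), 0 < β ∧ (∀ y, lapG G u y = f y) ∧
      ∀ n ≥ n2, Supp C 0 (A ^ n) f ∧ ¬ lam G C 0 (A ^ n * A) f ≤
        β * (√(vol d (A ^ n)) / ((A ^ n : ℕ) : ℝ) ^ 2) *
          l2 (cap C (ann 0 (A ^ n + 1) (A ^ n * A * A))) u := by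
  obtain ⟨f, hf, hfs⟩ : ∃ f : V d →₀ ℝ, (∀ y, lapG G u y = f y) ∧ Supp C 0 R0 f := by
    refine ⟨Finsupp.onFinset (box 0 R0) (lapG G u) fun y hy => ?_, fun y => rfl, fun y hy => ?_⟩
    · by_contra hn
      exact hy (h1 y hn)
    · have hy' : lapG G u y ≠ 0 := Finsupp.mem_support_iff.1 hy
      refine ⟨?_, Finsupp.support_onFinset_subset hy⟩
      by_contra hn
      exact hy' (lapG_of_not_mem hw.sub u hn)
  obtain ⟨M, hM⟩ := not_forall.1 h3
  obtain ⟨Ck, hCk, hstar⟩ := star d hK (M + 2)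
  obtain ⟨CH, hCH, A0, hshell⟩ := shell_le_lam hd hθ hK
  obtain ⟨A, hA16, hAA0, hAA1, hAC⟩ : ∃ A : ℕ, 16 ≤ A ∧ A0 ≤ A ∧ A1 ≤ A ∧ 4 * Ck ^ 2 ≤ A := by
    refine ⟨16 + A0 + A1 + ⌈4 * Ck ^ 2⌉₊, by omega, by omega, by omega, (Nat.le_ceil _).trans ?_⟩
    exact_mod_cast Nat.le_add_left _ _
  have hA0 : (0 : ℝ) < A := by exact_mod_cast (by omega : 0 < A)
  have hA1 : (1 : ℝ) ≤ A := by exact_mod_cast (by omega : 1 ≤ A)
  obtain ⟨δ1, s0, hδ1, hstar⟩ := hstar A hA16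
  obtain ⟨Λ, hΛ⟩ : ∃ Λ : ℝ, Λ = 2 * (Ck * (A : ℝ) ^ (M + 2)) := ⟨_, rfl⟩
  have hΛ0 : 0 < Λ := by rw [hΛ]; positivity
  obtain ⟨n0, hn0⟩ := hg A (by omega) (min δ1 1) (by positivity)
  have hδa : min δ1 1 ≤ δ1 := min_le_left _ _
  have hδc : min δ1 1 ≤ 1 := min_le_right _ _
  generalize min δ1 1 = δ at *
  obtain ⟨n1, hn1a, hn1b, hn1c, hn1d⟩ : ∃ n1, n0 ≤ n1 ∧ s0 ≤ n1 ∧ R0 ≤ n1 ∧ 16 ≤ n1 :=
    ⟨n0 + s0 + R0 + 16, by omega, by omega, by omega, by omega⟩
  have hpow : ∀ n, n < A ^ n := fun n => Nat.lt_pow_self (by omega)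
  have hsupp : ∀ n ≥ n1, Supp C 0 (A ^ n) f := fun n hn =>
    hfs.mono (box_mono _ (by have := hpow n; omega))
  have hg0 : ∀ n ≥ n1, HGood θ K δ G C 0 (A ^ n) := fun n hn =>
    hn0 n (by omega) 0 (mem_box_self _ _)
  obtain ⟨a, ha⟩ : ∃ a : ℕ → ℝ, ∀ n, a n = lam G C 0 (A ^ n) f := ⟨_, fun _ => rfl⟩
  have ha0 : ∀ n ≥ n1, 0 ≤ a n := fun n hn => by rw [ha]; exact lam_nonneg (hsupp n hn)
  have hsh : ∀ n ≥ n1, l2 (cap C (ann 0 (A ^ n + 1) (A ^ (n + 2)))) u ≤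
      CH * (A : ℝ) ^ (2 * n + 4) * a n / √(vol d (A ^ n)) := by
    intro n hn
    rw [ha]
    refine hshell A hAA0 G C n hw (fun j hj => ⟨?_, (hg0 j (by omega)).poin2⟩) u f hf
      (hsupp n hn) h2
    exact (hg0 j (by omega)).dens 0 (mem_box_self _ _) _
      (mul_le_of_le_one_left (Nat.cast_nonneg _) hδc) le_rfl
  have hst : ∀ n ≥ n1, a (n + 1) ≤ Ck * (A : ℝ) ^ (M + 2) * a (n + 2) +
      Ck / (A : ℝ) ^ (M + 2 + 1) * a n := by
    intro n hn
    rw [ha, ha, ha, pow_succ A (n + 1), pow_succ A n]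
    refine hstar (θ := θ) hδa (by have := hpow n; omega) ?_ ?_ f (hsupp n hn)
    · rw [← pow_succ]; exact hg0 _ (by omega)
    · rw [← pow_succ, ← pow_succ]; exact hg0 _ (by omega)
  obtain ⟨n2, hn2, hslow⟩ : ∃ n ≥ n1, a n < Λ * a (n + 1) := by
    by_contra hcon
    push Not at hcon
    refine hM (thmB_decay (A := A) (n1 := n1) (a := a) (B := CH) (by omega) (by linarith) ha0
      (fun n hn => le_trans ?_ (hcon n hn)) (fun n hn => (hsh n hn).trans ?_))
    · refine mul_le_mul_of_nonneg_right ?_ (ha0 _ (by omega))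
      rw [hΛ]
      have : (0 : ℝ) < (A : ℝ) ^ (M + 2) := by positivity
      nlinarith
    · have := ha0 n hn
      refine div_le_self (by positivity) ?_
      rw [Real.one_le_sqrt]
      exact one_le_vol _ _
  have hεΛ : Ck / (A : ℝ) ^ (M + 2 + 1) * Λ ≤ 1 / 2 := by
    have : Ck / (A : ℝ) ^ (M + 2 + 1) * Λ = 2 * Ck ^ 2 / A := by
      rw [hΛ]; field_simp; ring
    rw [this, div_le_iff₀ hA0]
    linarith
  have hper : ∀ n ≥ n2, a n ≤ Λ * a (n + 1) := fun n hn =>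
    (persist (a := a) (n0 := n2) (n1 := n + 2) (Γ := Ck * (A : ℝ) ^ (M + 2))
      (fun m hm => ha0 m (by omega)) (by positivity) hεΛ hΛ.ge
      (fun m hm _ => hst m (by omega)) hslow.le n hn le_rfl).1
  have hpos : ∀ n ≥ n2, 0 < a (n + 1) := by
    intro n hn
    induction n, hn using Nat.le_induction with
    | base => exact (mul_pos_iff_of_pos_left hΛ0).1 ((ha0 _ hn2).trans_lt hslow)
    | succ n hn ih => exact (mul_pos_iff_of_pos_left hΛ0).1 (ih.trans_le (hper (n + 1) (by omega)))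
  refine ⟨A, hA16, hAA1, 1 / (2 * Λ * CH * (A : ℝ) ^ 4), f, n2, by positivity, hf,
    fun n hn => ⟨hsupp n (by omega), fun t1 => ?_⟩⟩
  rw [← pow_succ, ← pow_succ, ← ha] at t1
  have hv : 0 < √(vol d (A ^ n)) := Real.sqrt_pos.2 (vol_pos _ _)
  have t2 := mul_le_mul_of_nonneg_left (hsh n (by omega))
    (by positivity : 0 ≤ 1 / (2 * Λ * CH * (A : ℝ) ^ 4) *
      (√(vol d (A ^ n)) / ((A ^ n : ℕ) : ℝ) ^ 2))
  have t3 : 1 / (2 * Λ * CH * (A : ℝ) ^ 4) * (√(vol d (A ^ n)) / ((A ^ n : ℕ) : ℝ) ^ 2) *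
      (CH * (A : ℝ) ^ (2 * n + 4) * a n / √(vol d (A ^ n))) = a n / (2 * Λ) := by
    have : CH ≠ 0 := by positivity
    push_cast
    field_simp
    ring
  have t4 : a n / (2 * Λ) ≤ a (n + 1) / 2 := by
    rw [div_le_div_iff₀ (by positivity) (by norm_num)]
    have := hper n hn
    linarith
  have t5 := hpos n hn
  have t6 := t1.trans (t2.trans (t3.le.trans t4))
  linarith

/-- Many zeros force a drop of the dual norm. -/
theorem zero_drop (hd : 2 ≤ d) {ε : ℝ} (hε : 0 < ε) : ∃ A1 : ℕ, ∀ A : ℕ, 16 ≤ A → A1 ≤ A →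
    ∀ β : ℝ, 0 < β → ∃ s0 : ℕ, ∀ s ≥ s0, ∀ (u : V d → ℝ) (f : V d →₀ ℝ),
    (∀ y, lapG Set.univ u y = f y) → Supp Set.univ 0 s f → ∀ N : ℕ, s * A ≤ 2 * N →
    2 * N ≤ s * A * A → ε * vol d N ≤ ((box (0 : V d) N).filter fun y => u y = 0).card →
    lam Set.univ Set.univ 0 (s * A) f ≤
      β * (√(vol d s) / (s : ℝ) ^ 2) * l2 (cap Set.univ (ann 0 (s + 1) (s * A * A))) u := by
  obtain ⟨J, hJ, hann⟩ := small_ann hd
  obtain ⟨Cb, hCb, hsup⟩ := sup_le_l2 d
  obtain ⟨A1, hA1⟩ := exists_nat_ge (2 * 24 ^ d / ε + 24)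
  refine ⟨A1, fun A hA hA' β hβ => ?_⟩
  have hAr : (16 : ℝ) ≤ A := by exact_mod_cast hA
  have hA1r : 2 * 24 ^ d / ε + 24 ≤ (A : ℝ) := hA1.trans (by exact_mod_cast hA')
  have hd0 : (0 : ℝ) < d := by exact_mod_cast (by omega : 0 < d)
  obtain ⟨l0, hl0⟩ := hann (ε / 2 / (2 * A) ^ d) (β / (d * (A : ℝ) ^ d * Cb)) (2 * J * A * A)
    (by positivity) (by positivity)
  refine ⟨J * (l0 + 1), fun s hs u f hu hf N hN1 hN2 hZ => ?_⟩
  obtain ⟨l, hl⟩ : ∃ l, l = s / J := ⟨_, rfl⟩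
  have l1' : l0 + 1 ≤ l := by rw [hl, Nat.le_div_iff_mul_le hJ, mul_comm]; exact hs
  have l2' : J * l ≤ s := by rw [hl]; exact Nat.mul_div_le s J
  have l3 : s ≤ 2 * J * l := by
    have h1 : s < J * (s / J + 1) := Nat.lt_mul_div_succ s hJ
    rw [← hl] at h1
    nlinarith
  have l4 : l ≤ s := le_trans (Nat.le_mul_of_pos_left l hJ) l2'
  have hs1 : 1 ≤ s := by omega
  have hsA : 16 * s ≤ s * A := by rw [mul_comm 16 s]; exact Nat.mul_le_mul_left _ hA
  have hsAA : 16 * (s * A) ≤ s * A * A := by rw [mul_comm 16]; exact Nat.mul_le_mul_left _ hA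
  have hT : s * A * A ≤ 2 * J * A * A * l := by
    calc s * A * A ≤ 2 * J * l * A * A := by gcongr
      _ = _ := by ring
  have hR1 : ((s * A : ℕ) : ℝ) = A * s := by push_cast; ring
  have hR2 : ((s * A * A : ℕ) : ℝ) ≤ 2 * A * N := by
    have : s * A * A ≤ 2 * N * A := Nat.mul_le_mul_right _ hN1
    have h2 : ((s * A * A : ℕ) : ℝ) ≤ ((2 * N * A : ℕ) : ℝ) := by exact_mod_cast this
    refine h2.trans (le_of_eq ?_)
    push_cast; ring
  have hsN : (s : ℝ) * A ≤ 2 * N := by exact_mod_cast hN1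
  generalize s * A * A = R' at *
  generalize s * A = R at *
  obtain ⟨ℓ, hℓ⟩ : ∃ ℓ, ℓ = l2 (cap Set.univ (ann 0 (s + 1) R')) u := ⟨_, rfl⟩
  rw [← hℓ]
  have hℓ0 : 0 ≤ ℓ := hℓ ▸ l2_nonneg _ _
  have hv : 0 < √(vol d s) := Real.sqrt_pos.2 (vol_pos _ _)
  have hfz : ∀ y, s < nd 0 y → lapG Set.univ u y = 0 := by
    intro y hy
    rw [hu]
    by_contra hne
    have := mem_box_nd.1 (hf y (Finsupp.mem_support_iff.2 hne)).2
    omega
  have hM : ∀ y : V d, 4 * s ≤ nd 0 y → nd 0 y + 2 * s ≤ R' → |u y| ≤ Cb * (ℓ / √(vol d s)) := by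
    intro y h1 h2
    have hin : ∀ w ∈ box y (2 * s), s + 1 ≤ nd 0 w ∧ nd 0 w ≤ R' := by
      intro w hw
      have a2 := mem_box_nd.1 hw
      have a3 := nd_triangle 0 y w
      have a4 := nd_triangle 0 w y
      rw [nd_comm w y] at a4
      omega
    refine (hsup u y s (fun w hw => hfz w (hin w hw).1) y (mem_box_self _ _)).trans ?_
    refine mul_le_mul_of_nonneg_left ?_ (by linarith)
    rw [nrm, hℓ]
    exact div_le_div₀ (l2_nonneg _ _) (l2_mono (cap_mono _ fun w hw => mem_ann.2 (hin w hw)) _) hv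
      (Real.sqrt_le_sqrt (vol_mono d (by omega)))
  -- a box with many zeros
  set Z : Set (V d) := {y | u y = 0} with hZdef
  have z1 : vol d (6 * s) ≤ ε / 2 * vol d N := by
    have hA0 : (0 : ℝ) < A := by linarith
    have hs' : (1 : ℝ) ≤ s := by exact_mod_cast hs1
    have h1 : vol d (6 * s) ≤ (24 / A) ^ d * vol d N := by
      refine vol_le_mul d ?_
      rw [div_mul_eq_mul_div, le_div_iff₀ hA0]
      push_cast
      nlinarith
    refine h1.trans (mul_le_mul_of_nonneg_right ?_ (vol_pos _ _).le)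
    have h2 : (A : ℝ) ≤ A ^ d := le_self_pow₀ (by linarith) (by omega)
    have h3 : 2 * 24 ^ d / ε ≤ (A : ℝ) ^ d := by linarith
    rw [div_le_iff₀ hε] at h3
    rw [div_pow, div_le_iff₀ (by positivity)]
    linarith
  have z2 : ε / 2 * vol d N ≤ (cap Z (ann 0 (6 * s) N)).card := by
    have h1 : (box (0 : V d) N).filter (fun y => u y = 0) ⊆
        cap Z (ann 0 (6 * s) N) ∪ box 0 (6 * s) := by
      intro y hy
      obtain ⟨y1, y2⟩ := mem_filter.1 hy
      by_cases hc : 6 * s ≤ nd 0 y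
      · exact mem_union_left _ (mem_cap.2 ⟨mem_ann.2 ⟨hc, mem_box_nd.1 y1⟩, y2⟩)
      · exact mem_union_right _ (mem_box_nd.2 (by omega))
    have h2 : (((box (0 : V d) N).filter fun y => u y = 0).card : ℝ) ≤
        (cap Z (ann 0 (6 * s) N)).card + (box (0 : V d) (6 * s)).card := by
      exact_mod_cast (card_le_card h1).trans (card_union_le _ _)
    rw [card_box_vol] at h2
    linarith
  have z3 : ∃ z ∈ ann (0 : V d) (5 * s) (R' - 3 * s),
      ε / 2 / (2 * A) ^ d * vol d l ≤ ((box z l).filter fun y => u y = 0).card := by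
    by_contra hcon
    push Not at hcon
    have h1 := vol_mul_sum_le Z (ann 0 (6 * s) N) (ann (0 : V d) (5 * s) (R' - 3 * s)) l
      (fun z hz w hw => by
        have a1 := mem_ann.1 hz
        have a2 := mem_box_nd.1 hw
        have a3 := nd_triangle 0 z w
        have a4 := nd_triangle 0 w z
        rw [nd_comm w z] at a4
        exact mem_ann.2 (by omega)) (f := fun _ => 1) fun _ => zero_le_one
    simp only [sum_const, nsmul_eq_mul, mul_one] at h1
    have hne : (ann (0 : V d) (5 * s) (R' - 3 * s)).Nonempty := by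
      by_contra he
      rw [not_nonempty_iff_eq_empty.1 he, sum_empty] at h1
      have := mul_pos (vol_pos d l) ((mul_pos (half_pos hε) (vol_pos d N)).trans_le z2)
      linarith
    have h2 := sum_lt_sum_of_nonempty hne (f := fun z => ((cap Z (box z l)).card : ℝ))
      fun z hz => hcon z hz
    rw [sum_const, nsmul_eq_mul] at h2
    have h3 : ((ann (0 : V d) (5 * s) (R' - 3 * s)).card : ℝ) ≤ (2 * A) ^ d * vol d N := by
      refine le_trans ?_ (vol_le_of_le_mul d (by linarith) hR2)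
      rw [← card_box_vol (0 : V d) R']
      exact_mod_cast card_le_card fun w hw => mem_box_nd.2 (by have := mem_ann.1 hw; omega)
    have hvl := vol_pos d l
    have h4 : ((ann (0 : V d) (5 * s) (R' - 3 * s)).card : ℝ) * (ε / 2 / (2 * A) ^ d * vol d l) ≤
        vol d l * (ε / 2 * vol d N) := by
      refine (mul_le_mul_of_nonneg_right h3 (by positivity)).trans (le_of_eq ?_)
      field_simp
    have h5 := mul_le_mul_of_nonneg_left z2 hvl.le
    linarith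
  have hsm := hl0 l (by omega) (5 * s) (R' - 3 * s) u (Cb * (ℓ / √(vol d s))) (by omega)
    (fun z hz => by
      have a1 := mem_ann.1 hz
      have hin : ∀ w ∈ box z (J * l), 4 * s ≤ nd 0 w ∧ nd 0 w + 2 * s ≤ R' := by
        intro w hw
        have a2 := mem_box_nd.1 hw
        have a3 := nd_triangle 0 z w
        have a4 := nd_triangle 0 w z
        rw [nd_comm w z] at a4
        omega
      exact ⟨fun w hw => hfz w (by have := (hin w hw).1; omega),
        fun w hw => hM w (hin w hw).1 (hin w hw).2⟩) z3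
  have hX : √(vol d R) ≤ √((A : ℝ) ^ d) * √(vol d s) := by
    rw [← Real.sqrt_mul (by positivity)]
    exact Real.sqrt_le_sqrt (vol_le_of_le_mul d (by linarith) hR1.le)
  have hq : 0 ≤ β / (d * (A : ℝ) ^ d * Cb) * (Cb * (ℓ / √(vol d s))) := by positivity
  have hY : l2 (cap Set.univ (ann (0 : V d) (R / 2 - 2 * s) (R / 2 + 2 * s))) (fun y => u y - 0) ≤
      √(vol d R) * (β / (d * (A : ℝ) ^ d * Cb) * (Cb * (ℓ / √(vol d s)))) := by
    refine (l2_le_sup hq fun y hy => ?_).trans (mul_le_mul_of_nonneg_right ?_ hq)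
    · have := mem_ann.1 (mem_cap.1 hy).1
      rw [sub_zero]
      exact hsm y (mem_ann.2 (by omega))
    · refine Real.sqrt_le_sqrt ?_
      rw [← card_box_vol (0 : V d) R]
      exact_mod_cast card_le_card fun w hw =>
        mem_box_nd.2 (by have := mem_ann.1 (mem_cap.1 hw).1; omega)
  refine (small_lam (C := Set.univ) (fun e _ => ⟨trivial, trivial⟩) (ρ := R / 2) hs1 (by omega)
    (by omega) u f hu hf 0).trans ?_
  have hs0 : (0 : ℝ) < s := by exact_mod_cast hs1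
  have hAd : √((A : ℝ) ^ d) * √((A : ℝ) ^ d) = (A : ℝ) ^ d := Real.mul_self_sqrt (by positivity)
  calc _ ≤ d / (s : ℝ) ^ 2 * ((√((A : ℝ) ^ d) * √(vol d s)) * ((√((A : ℝ) ^ d) * √(vol d s)) *
        (β / (d * (A : ℝ) ^ d * Cb) * (Cb * (ℓ / √(vol d s)))))) := by
        refine mul_le_mul_of_nonneg_left (mul_le_mul hX (hY.trans ?_) (l2_nonneg _ _)
          (by positivity)) (by positivity)
        exact mul_le_mul_of_nonneg_right hX hq
    _ = d / (s : ℝ) ^ 2 * ((√((A : ℝ) ^ d) * √((A : ℝ) ^ d)) * (√(vol d s) * √(vol d s) *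
        (β / (d * (A : ℝ) ^ d * Cb) * (Cb * (ℓ / √(vol d s)))))) := by ring
    _ = _ := by rw [hAd]; field_simp

theorem zero_density (hd : 3 ≤ d) {θ K : ℝ} (hθ : 0 < θ) (hK : 0 < K)
    (hg : AllGood θ K (Set.univ : Set (E d)) Set.univ) {u : V d → ℝ} {R0 : ℕ}
    (h1 : HarmOff Set.univ R0 u) (h2 : Dec Set.univ u) (h3 : {y | u y ≠ 0}.Infinite) {ε : ℝ}
    (hε : 0 < ε) :
    ∀ᶠ N : ℕ in atTop, (((box (0 : V d) N).filter fun y => u y = 0).card : ℝ) < ε * vol d N := by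
  obtain ⟨A1, hA1⟩ := zero_drop (d := d) (by omega) hε
  obtain ⟨A, hA, hA', β, f, n2, hβ, hf, hslow⟩ := slow_core hd hθ hK (wf_univ (by omega)) hg h1 h2
    (fun h => h3 (finite_of_SD_univ (by omega) h1 h)) A1
  obtain ⟨s0, hs0⟩ := hA1 A hA hA' β hβ
  refine eventually_atTop.2 ⟨A ^ (n2 + s0 + 1), fun N hN => ?_⟩
  obtain ⟨n, hn, hn1, hn2⟩ := thmB_between (A := A) (by omega) (n2 + s0 + 1) (2 * N) (by omega)
  obtain ⟨n, rfl⟩ : ∃ m, n = m + 1 := ⟨n - 1, by omega⟩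
  by_contra hcon
  have hpow : n < A ^ n := Nat.lt_pow_self (by omega)
  exact (hslow n (by omega)).2 (hs0 (A ^ n) (by omega) u f hf (hslow n (by omega)).1 N
    (by rwa [← pow_succ]) (by rw [← pow_succ, ← pow_succ]; exact hn2.le) (not_lt.1 hcon))

end Pool.Agent.P.MP_b4265e_pr.R
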