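import Pool.Agent.P.MP_b4265e_pr.R.ZHarm

/-!
Propagation of smallness along a line for lattice harmonic functions.
-/

namespace Pool.Agent.P.MP_b4265e_pr.R

open Finset
open scoped Classical

lemma ZLine_step (f : ℤ → ℝ) {p q : ℤ} (hpq : p < q) (hf : f q ≤ f p) :
    ∃ x, p ≤ x ∧ x < q ∧ f (x + 1) ≤ f x := by
  by_contra hc
  push Not at hc
  have key : ∀ n : ℤ, p + 1 ≤ n → n ≤ q → f p < f n := by
    intro n hn
    induction n, hn using Int.leInduction with
    | base => intro h; exact hc p le_rfl hpq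
    | succ n hn ih =>
      intro h
      exact (ih (by omega)).trans (hc n (by omega) (by omega))
  exact absurd (key q hpq le_rfl) (not_lt.2 hf)

lemma ZLine_alt {a b : ℤ} (m : ℕ) : ∀ (φ : ℤ → ℝ) (s : ℕ → ℤ), (∀ i < m, s i < s (i + 1)) →
    (∀ i ≤ m, a ≤ s i ∧ s i ≤ b ∧ 0 ≤ (-1) ^ i * φ (s i)) →
    ∃ x, a ≤ x ∧ x ≤ b ∧ 0 ≤ (-1) ^ m * (fwdDiff (1 : ℤ))^[m] φ x := by
  induction m with
  | zero =>
    intro φ s _ h2
    exact ⟨s 0, (h2 0 le_rfl).1, (h2 0 le_rfl).2.1, by simpa using (h2 0 le_rfl).2.2⟩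
  | succ m ih =>
    intro φ s h1 h2
    have h3 : ∀ i, ∃ x, i ≤ m → s i ≤ x ∧ x < s (i + 1) ∧
        (-1) ^ i * φ (x + 1) ≤ (-1) ^ i * φ x := by
      intro i
      by_cases hi : i ≤ m
      · obtain ⟨x, hx⟩ := ZLine_step (fun x => (-1) ^ i * φ x) (h1 i (by omega)) (by
          have a1 := (h2 i (by omega)).2.2
          have a2 := (h2 (i + 1) (by omega)).2.2
          rw [pow_succ] at a2
          show (-1) ^ i * φ (s (i + 1)) ≤ (-1) ^ i * φ (s i)
          linarith)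
        exact ⟨x, fun _ => hx⟩
      · exact ⟨0, fun h => absurd h hi⟩
    choose x hx using h3
    obtain ⟨y, hy1, hy2, hy3⟩ := ih ((-1 : ℝ) • fwdDiff (1 : ℤ) φ) x (fun i hi => by
        have a1 := (hx i hi.le).2.1
        have a2 := (hx (i + 1) hi).1
        omega) (fun i hi => by
        have a1 := hx i hi
        have a2 := (h2 i (by omega)).1
        have a3 := (h2 (i + 1) (by omega)).2.1
        refine ⟨by omega, by omega, ?_⟩
        have a4 := a1.2.2
        simp only [Pi.smul_apply, fwdDiff, smul_eq_mul]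
        linarith)
    refine ⟨y, hy1, hy2, ?_⟩
    rw [fwdDiff_iter_const_smul, Pi.smul_apply, smul_eq_mul] at hy3
    rw [Function.iterate_succ_apply, pow_succ]
    linarith

lemma ZLine_rolle {a b : ℤ} (m : ℕ) (φ : ℤ → ℝ) (S : Finset ℤ) (hS : S.card = m + 1)
    (h : ∀ s ∈ S, a ≤ s ∧ s ≤ b ∧ φ s = 0) :
    ∃ x, a ≤ x ∧ x ≤ b ∧ 0 ≤ (-1) ^ m * (fwdDiff (1 : ℤ))^[m] φ x := by
  let e := S.orderEmbOfFin hS
  refine ZLine_alt m φ (fun i => if hi : i < m + 1 then e ⟨i, hi⟩ else 0) (fun i hi => ?_)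
    (fun i hi => ?_)
  · simp only [dif_pos (show i < m + 1 by omega), dif_pos (show i + 1 < m + 1 by omega)]
    exact e.strictMono (by simp [Fin.lt_def])
  · simp only [dif_pos (show i < m + 1 by omega)]
    obtain ⟨a1, a2, a3⟩ := h _ (S.orderEmbOfFin_mem hS ⟨i, by omega⟩)
    exact ⟨a1, a2, by rw [a3, mul_zero]⟩

lemma ZLine_cast (F : ℝ → ℝ) (n : ℕ) (x : ℤ) :
    (fwdDiff (1 : ℤ))^[n] (fun s : ℤ => F s) x = (fwdDiff (1 : ℝ))^[n] F x := by
  simp [fwdDiff_iter_eq_sum_shift]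

lemma ZLine_lagr (k : ℕ) (g : ℤ → ℝ) {a b : ℤ} {δ h : ℝ} (hh : 0 < h) (hδ : 0 ≤ δ)
    (T : Finset ℤ) (hT : T.card = k + 1) (hT1 : ∀ s ∈ T, a ≤ s ∧ s ≤ b ∧ |g s| ≤ δ)
    (hT2 : ∀ s ∈ T, ∀ s' ∈ T, s ≠ s' → h ≤ |(s : ℝ) - s'|) {t : ℤ} (ht1 : a ≤ t) (ht2 : t ≤ b) :
    |(Lagrange.interpolate T (fun s : ℤ => (s : ℝ)) g).eval (t : ℝ)| ≤
      (k + 1) * δ * (((b : ℝ) - a) / h) ^ k := by
  rw [Lagrange.interpolate_apply, Polynomial.eval_finsetSum]
  refine (abs_sum_le_sum_abs _ _).trans ?_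
  have hb : ∀ s ∈ T, |Polynomial.eval (t : ℝ) (Polynomial.C (g s) *
      Lagrange.basis T (fun s : ℤ => (s : ℝ)) s)| ≤ δ * (((b : ℝ) - a) / h) ^ k := by
    intro s hs
    rw [Polynomial.eval_mul, Polynomial.eval_C, abs_mul, Lagrange.basis, Polynomial.eval_prod,
      abs_prod]
    refine mul_le_mul (hT1 s hs).2.2 ?_ (prod_nonneg fun _ _ => abs_nonneg _) hδ
    have hc : (T.erase s).card = k := by rw [card_erase_of_mem hs, hT]; rfl
    rw [← hc, ← prod_const]
    refine prod_le_prod (fun _ _ => abs_nonneg _) fun j hj => ?_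
    obtain ⟨hjs, hjT⟩ := mem_erase.1 hj
    simp only [Lagrange.basisDivisor, Polynomial.eval_mul, Polynomial.eval_C,
      Polynomial.eval_sub, Polynomial.eval_X]
    rw [abs_mul, abs_inv, mul_comm, ← div_eq_mul_inv]
    have h1 := hT2 s hs j hjT (Ne.symm hjs)
    have h2 : |(t : ℝ) - j| ≤ (b : ℝ) - a := by
      have a1 : (a : ℝ) ≤ t := by exact_mod_cast ht1
      have a2 : (t : ℝ) ≤ b := by exact_mod_cast ht2
      have a3 : (a : ℝ) ≤ j := by exact_mod_cast (hT1 j hjT).1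
      have a4 : (j : ℝ) ≤ b := by exact_mod_cast (hT1 j hjT).2.1
      rw [abs_le]; constructor <;> linarith
    exact div_le_div₀ ((abs_nonneg _).trans h2) h2 hh h1
  refine (sum_le_sum hb).trans (le_of_eq ?_)
  rw [sum_const, hT, nsmul_eq_mul]; push_cast; ring

/-- Interpolation bound for a function on an interval of integers. -/
theorem interp_line (k : ℕ) (g : ℤ → ℝ) {a b : ℤ} {B δ h : ℝ} (hh : 0 < h) (hδ : 0 ≤ δ)
    (hB : ∀ s, a ≤ s → s ≤ b → |(fwdDiff (1 : ℤ))^[k + 1] g s| ≤ B)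
    (T : Finset ℤ) (hT : T.card = k + 1) (hT1 : ∀ s ∈ T, a ≤ s ∧ s ≤ b ∧ |g s| ≤ δ)
    (hT2 : ∀ s ∈ T, ∀ s' ∈ T, s ≠ s' → h ≤ |(s : ℝ) - s'|) {t : ℤ} (ht1 : a ≤ t) (ht2 : t ≤ b) :
    |g t| ≤ (k + 1) * δ * (((b : ℝ) - a) / h) ^ k + B * ((b : ℝ) - a) ^ (k + 1) / (k + 1).factorial := by
  have hL := ZLine_lagr k g hh hδ T hT hT1 hT2 ht1 ht2
  have hinj : Set.InjOn (fun s : ℤ => (s : ℝ)) T := fun x _ y _ hxy => Int.cast_injective hxy
  have hB0 : 0 ≤ B := (abs_nonneg _).trans (hB t ht1 ht2)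
  have hab : (0 : ℝ) ≤ (b : ℝ) - a := by
    have : (a : ℝ) ≤ b := by exact_mod_cast ht1.trans ht2
    linarith
  have hfac : (0 : ℝ) < (k + 1).factorial := by exact_mod_cast Nat.factorial_pos _
  set L := Lagrange.interpolate T (fun s : ℤ => (s : ℝ)) g with hLdef
  have hnode : ∀ s ∈ T, L.eval (s : ℝ) = g s := fun s hs =>
    Lagrange.eval_interpolate_at_node g hinj hs
  by_cases htT : t ∈ T
  · rw [hnode t htT] at hL
    have : 0 ≤ B * ((b : ℝ) - a) ^ (k + 1) / (k + 1).factorial := by positivity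
    linarith
  set N := Lagrange.nodal T (fun s : ℤ => (s : ℝ)) with hN
  have hNt : N.eval (t : ℝ) ≠ 0 :=
    Lagrange.eval_nodal_not_at_node fun i hi h => htT (by
      have : t = i := Int.cast_injective h
      rw [this]; exact hi)
  set lam := (g t - L.eval (t : ℝ)) / N.eval (t : ℝ) with hlam
  set φ : ℤ → ℝ := fun s => g s - L.eval (s : ℝ) - lam * N.eval (s : ℝ) with hφ
  have hzero : ∀ s ∈ insert t T, a ≤ s ∧ s ≤ b ∧ φ s = 0 := by
    intro s hs
    rcases mem_insert.1 hs with rfl | hs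
    · refine ⟨ht1, ht2, ?_⟩
      simp only [hφ, hlam]
      rw [div_mul_cancel₀ _ hNt, sub_self]
    · refine ⟨(hT1 s hs).1, (hT1 s hs).2.1, ?_⟩
      have : N.eval (s : ℝ) = 0 := Lagrange.eval_nodal_at_node (v := fun s : ℤ => (s : ℝ)) hs
      simp only [hφ]
      rw [this, hnode s hs]; ring
  have hcard : (insert t T).card = k + 1 + 1 := by rw [card_insert_of_notMem htT, hT]
  have hD : ∀ x, (fwdDiff (1 : ℤ))^[k + 1] φ x =
      (fwdDiff (1 : ℤ))^[k + 1] g x - lam * (k + 1).factorial := by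
    intro x
    have e : φ = g + ((-1 : ℝ) • (fun s : ℤ => L.eval (s : ℝ)) +
        (-lam) • (fun s : ℤ => N.eval (s : ℝ))) := by
      funext s; simp only [hφ, Pi.add_apply, Pi.smul_apply, smul_eq_mul]; ring
    have d1 : L.natDegree < k + 1 := by
      have := Lagrange.degree_interpolate_lt (r := g) hinj
      rw [hT] at this
      by_cases h0 : L = 0
      · rw [h0]; simp
      · exact (Polynomial.natDegree_lt_iff_degree_lt h0).2 this
    have d2 : N.natDegree = k + 1 := by rw [hN, Lagrange.natDegree_nodal, hT]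
    have d3 := N.fwdDiff_iter_degree_eq_factorial
    rw [d2, (Lagrange.nodal_monic (s := T) (v := fun s : ℤ => (s : ℝ))).leadingCoeff] at d3
    rw [e, fwdDiff_iter_add, fwdDiff_iter_add, fwdDiff_iter_const_smul, fwdDiff_iter_const_smul]
    simp only [Pi.add_apply, Pi.smul_apply, smul_eq_mul]
    rw [ZLine_cast L.eval, ZLine_cast N.eval, Polynomial.fwdDiff_iter_eq_zero_of_degree_lt d1, d3]
    simp only [Pi.zero_apply, one_smul, Pi.natCast_apply]
    ring
  obtain ⟨x, hx1, hx2, hx3⟩ := ZLine_rolle (k + 1) φ _ hcard hzero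
  obtain ⟨y, hy1, hy2, hy3⟩ := ZLine_rolle (k + 1) ((-1 : ℝ) • φ) _ hcard fun s hs =>
    ⟨(hzero s hs).1, (hzero s hs).2.1, by rw [Pi.smul_apply, (hzero s hs).2.2, smul_zero]⟩
  rw [fwdDiff_iter_const_smul, Pi.smul_apply, smul_eq_mul, hD] at hy3
  rw [hD] at hx3
  have bx := abs_le.1 (hB x hx1 hx2)
  have b_y := abs_le.1 (hB y hy1 hy2)
  have hl : |lam * (k + 1).factorial| ≤ B := by
    rw [abs_le]
    rcases neg_one_pow_eq_or ℝ (k + 1) with h1 | h1 <;> rw [h1] at hx3 hy3 <;>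
      constructor <;> linarith [bx.1, bx.2, b_y.1, b_y.2]
  have hl2 : |lam| ≤ B / (k + 1).factorial := by
    rw [abs_mul, abs_of_pos hfac] at hl
    rwa [le_div_iff₀ hfac]
  have hNb : |N.eval (t : ℝ)| ≤ ((b : ℝ) - a) ^ (k + 1) := by
    rw [hN, Lagrange.eval_nodal, abs_prod, ← hT, ← prod_const]
    refine prod_le_prod (fun _ _ => abs_nonneg _) fun j hj => ?_
    have a1 : (a : ℝ) ≤ t := by exact_mod_cast ht1
    have a2 : (t : ℝ) ≤ b := by exact_mod_cast ht2
    have a3 : (a : ℝ) ≤ j := by exact_mod_cast (hT1 j hj).1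
    have a4 : (j : ℝ) ≤ b := by exact_mod_cast (hT1 j hj).2.1
    rw [abs_le]; constructor <;> linarith
  have e : g t = L.eval (t : ℝ) + lam * N.eval (t : ℝ) := by
    rw [hlam, div_mul_cancel₀ _ hNt]; ring
  have h5 : |lam * N.eval (t : ℝ)| ≤ B / (k + 1).factorial * ((b : ℝ) - a) ^ (k + 1) := by
    rw [abs_mul]; exact mul_le_mul hl2 hNb (abs_nonneg _) (by positivity)
  rw [e]
  refine (abs_add_le _ _).trans ?_
  have : B / (k + 1).factorial * ((b : ℝ) - a) ^ (k + 1) =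
      B * ((b : ℝ) - a) ^ (k + 1) / (k + 1).factorial := by ring
  linarith

/-- Well separated nodes. -/
lemma ZLine_nodes (h : ℕ) (hh : 1 ≤ h) (k : ℕ) : ∀ S : Finset ℤ, k * h < S.card →
    ∃ T ⊆ S, T.card = k + 1 ∧ ∀ s ∈ T, ∀ s' ∈ T, s ≠ s' → (h : ℤ) ≤ |s - s'| := by
  induction k with
  | zero =>
    intro S hS
    obtain ⟨x, hx⟩ := card_pos.1 (by omega : 0 < S.card)
    exact ⟨{x}, singleton_subset_iff.2 hx, by simp, by simp⟩
  | succ k ih =>
    intro S hS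
    have hne : S.Nonempty := card_pos.1 (by omega)
    set x := S.max' hne with hx
    have hc : S.card ≤ (S.filter fun s => s ≤ x - h).card + h := by
      have : S ⊆ (S.filter fun s => s ≤ x - h) ∪ Ioc (x - h) x := by
        intro s hs
        by_cases h1 : s ≤ x - h
        · exact mem_union_left _ (mem_filter.2 ⟨hs, h1⟩)
        · exact mem_union_right _ (mem_Ioc.2 ⟨not_le.1 h1, S.le_max' s hs⟩)
      have h2 := (card_le_card this).trans (card_union_le _ _)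
      rw [Int.card_Ioc] at h2
      omega
    obtain ⟨T, hT1, hT2, hT3⟩ := ih (S.filter fun s => s ≤ x - h) (by
      rw [add_mul, one_mul] at hS; omega)
    have hle : ∀ s ∈ T, s ≤ x - h := fun s hs => (mem_filter.1 (hT1 hs)).2
    have hxT : x ∉ T := fun hx => by have := hle x hx; omega
    refine ⟨insert x T, insert_subset (S.max'_mem hne) (hT1.trans (filter_subset _ _)),
      by rw [card_insert_of_notMem hxT, hT2], ?_⟩
    intro s hs s' hs' hss
    rcases mem_insert.1 hs with rfl | hs <;> rcases mem_insert.1 hs' with h' | hs'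
    · exact absurd h'.symm hss
    · have := hle s' hs'
      exact le_abs.2 (Or.inl (by omega))
    · have := hle s hs
      exact le_abs.2 (Or.inr (by omega))
    · exact hT3 s hs s' hs' hss

lemma ZLine_difs {d : ℕ} (H : V d → ℝ) (y : V d) (i : Fin d) (n : ℕ) :
    (fwdDiff (1 : ℤ))^[n] (fun t => H (Function.update y i t)) =
      fun t => difs (List.replicate n i) H (Function.update y i t) := by
  induction n with
  | zero => rfl
  | succ n ih =>
    rw [Function.iterate_succ_apply', ih]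
    funext t
    have e : Function.update y i (t + 1) = Function.update y i t + ee i := by
      funext j
      by_cases hj : j = i
      · subst hj; simp [ee]
      · simp [ee, hj]
    simp only [fwdDiff, List.replicate_succ, difs, dif, e]

lemma ZLine_fact (n : ℕ) {x : ℝ} (hx0 : 0 ≤ x) (hx : x ≤ n / 8) :
    x ^ n / n.factorial ≤ (1 / 2) ^ n := by
  have hfac : (0 : ℝ) < n.factorial := by exact_mod_cast Nat.factorial_pos _
  have h1 : x ^ n ≤ ((n : ℝ) / 8) ^ n := pow_le_pow_left₀ hx0 hx n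
  have h2 := Real.pow_div_factorial_le_exp (n : ℝ) (Nat.cast_nonneg n) n
  have h3 : Real.exp n ≤ 4 ^ n := by
    rw [← mul_one (n : ℝ), Real.exp_nat_mul]
    exact pow_le_pow_left₀ (Real.exp_pos 1).le (by linarith [Real.exp_one_lt_d9]) n
  calc x ^ n / n.factorial ≤ ((n : ℝ) / 8) ^ n / n.factorial :=
        div_le_div_of_nonneg_right h1 hfac.le
    _ = (n : ℝ) ^ n / n.factorial / 8 ^ n := by rw [div_pow]; ring
    _ ≤ 4 ^ n / 8 ^ n := div_le_div_of_nonneg_right (h2.trans h3) (by positivity)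
    _ = (1 / 2) ^ n := by rw [← div_pow]; norm_num

/-- A harmonic function that is very small on a fraction of a segment is small on the segment. -/
theorem small_line (d : ℕ) : ∃ J : ℕ, 1 ≤ J ∧ ∀ ε β : ℝ, 0 < ε → 0 < β → ∃ (δ : ℝ) (l0 : ℕ), 0 < δ ∧
    ∀ l ≥ l0, ∀ (z : V d) (H : V d → ℝ) (M : ℝ), Harm Set.univ z (J * l) H →
    (∀ y ∈ box z (J * l), |H y| ≤ M) → ∀ y ∈ box z l, ∀ i : Fin d,
    ε * (2 * l + 1) ≤ ((Icc (z i - l) (z i + l)).filter fun t =>
      |H (Function.update y i t)| ≤ δ * M).card → |H y| ≤ β * M := by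
  obtain ⟨Cg, hCg, hg⟩ := grad_est d
  obtain ⟨c, hc⟩ := exists_nat_ge Cg
  have hc1 : (1 : ℝ) ≤ c := hCg.trans hc
  have hc1' : 1 ≤ c := by exact_mod_cast hc1
  refine ⟨32 * c + 1, by omega, fun ε β hε hβ => ?_⟩
  obtain ⟨k, hk⟩ := exists_pow_lt_of_lt_one (half_pos hβ) (by norm_num : (1 / 2 : ℝ) < 1)
  have hk' : (1 / 2 : ℝ) ^ (k + 1) ≤ β / 2 := by
    rw [pow_succ]
    have : (0 : ℝ) < (1 / 2) ^ k := by positivity
    linarith
  obtain ⟨l1, hl1⟩ := exists_nat_ge (((k : ℝ) + 1) / ε)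
  have hn0 : (0 : ℝ) < (k : ℝ) + 1 := by positivity
  refine ⟨β / (2 * ((k : ℝ) + 1) * (2 * ((k : ℝ) + 1) / ε) ^ k), l1 + (k + 1), by positivity, ?_⟩
  set δ := β / (2 * ((k : ℝ) + 1) * (2 * ((k : ℝ) + 1) / ε) ^ k) with hδ
  have hδ0 : 0 < δ := by positivity
  intro l hl z H M hH hM y hy i hcard
  have hM0 : 0 ≤ M := (abs_nonneg _).trans (hM z (mem_box_self z _))
  have hl0 : (k : ℝ) + 1 ≤ l := by exact_mod_cast (by omega : k + 1 ≤ l)
  have hl1' : (l1 : ℝ) ≤ l := by exact_mod_cast (by omega : l1 ≤ l)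
  have hlpos : (0 : ℝ) < l := by linarith
  obtain ⟨q, hq⟩ : ∃ q, q = 32 * c * l / (k + 1) := ⟨_, rfl⟩
  have q1 : (k + 1) * q ≤ 32 * c * l := hq ▸ Nat.mul_div_le _ _
  have q2 : 32 * c * l < (k + 1) * (q + 1) := hq ▸ Nat.lt_mul_div_succ _ (by omega)
  have q2' : 32 * (c : ℝ) * l ≤ ((k : ℝ) + 1) * (q + 1) := by exact_mod_cast q2.le
  have q3 : ((k : ℝ) + 1) ≤ c * l := by
    linarith [mul_le_mul_of_nonneg_right hc1 hlpos.le]
  have q4 : 16 * (c : ℝ) * l ≤ ((k : ℝ) + 1) * (q - 1) := by linarith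
  have q5 : (2 : ℝ) ≤ q := by
    by_contra hcon
    have : ((k : ℝ) + 1) * (q - 1) ≤ ((k : ℝ) + 1) * 1 :=
      mul_le_mul_of_nonneg_left (by linarith [not_le.1 hcon]) hn0.le
    linarith
  have q6 : 2 ≤ q := by exact_mod_cast q5
  obtain ⟨ρ, rfl⟩ : ∃ ρ, q = ρ + 1 := ⟨q - 1, by omega⟩
  have hρ1 : 1 ≤ ρ := by omega
  have hρ0 : (0 : ℝ) < ρ := by exact_mod_cast hρ1
  have q7 : 16 * (c : ℝ) * l ≤ ((k : ℝ) + 1) * ρ := by
    push_cast at q4; linarith
  have hrad : l + (List.replicate (k + 1) i).length * (ρ + 1) ≤ (32 * c + 1) * l := by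
    rw [List.length_replicate, add_mul (32 * c), one_mul]; omega
  have hdif := (zh_difs_aux hg hρ1 (List.replicate (k + 1) i) l (hH.mono (box_mono z hrad))
    (fun w hw => hM w (box_mono z hrad hw))).2
  rw [List.length_replicate] at hdif
  have hupd : ∀ s, z i - l ≤ s → s ≤ z i + l → Function.update y i s ∈ box z l := by
    intro s h1 h2
    rw [mem_box] at hy ⊢
    intro j
    by_cases h : j = i
    · subst h
      rw [Function.update_self, abs_le]
      omega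
    · rw [Function.update_of_ne h]; exact hy j
  set S := (Icc (z i - l) (z i + l)).filter fun t => |H (Function.update y i t)| ≤ δ * M with hS
  set h : ℕ := ⌊ε * (2 * l + 1) / ((k : ℝ) + 1)⌋₊ with hh
  have r0 : 1 ≤ ε * (2 * l + 1) / ((k : ℝ) + 1) := by
    rw [le_div_iff₀ hn0]
    rw [div_le_iff₀ hε] at hl1
    linarith [mul_le_mul_of_nonneg_right hl1' hε.le, mul_pos hlpos hε]
  have r1 : 1 ≤ h := Nat.le_floor (by exact_mod_cast r0)
  have r1' : (1 : ℝ) ≤ h := by exact_mod_cast r1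
  have r2 : (h : ℝ) ≤ ε * (2 * l + 1) / ((k : ℝ) + 1) := Nat.floor_le (by linarith)
  have r3 : ε * (2 * l + 1) / ((k : ℝ) + 1) < h + 1 := Nat.lt_floor_add_one _
  rw [le_div_iff₀ hn0] at r2
  rw [div_lt_iff₀ hn0] at r3
  have r4 : k * h < S.card := by
    have : (k : ℝ) * h < S.card := by linarith
    exact_mod_cast this
  obtain ⟨T, hT1, hT2, hT3⟩ := ZLine_nodes h r1 k S r4
  have hyi := abs_le.1 (mem_box.1 hy i)
  have main := interp_line k (fun t => H (Function.update y i t)) (a := z i - l) (b := z i + l)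
    (B := (Cg / ρ) ^ (k + 1) * M) (δ := δ * M) (h := h) (by linarith) (by positivity)
    (fun s h1 h2 => by rw [ZLine_difs]; exact hdif _ (hupd s h1 h2)) T hT2
    (fun s hs => by
      obtain ⟨a1, a2⟩ := mem_filter.1 (hT1 hs)
      exact ⟨(mem_Icc.1 a1).1, (mem_Icc.1 a1).2, a2⟩)
    (fun s hs s' hs' hss => by exact_mod_cast hT3 s hs s' hs' hss) (t := y i) (by omega) (by omega)
  have e0 : ((z i + l : ℤ) : ℝ) - ((z i - l : ℤ) : ℝ) = 2 * l := by push_cast; ring
  rw [e0, Function.update_eq_self] at main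
  have t1 : (2 * (l : ℝ) / h) ^ k ≤ (2 * ((k : ℝ) + 1) / ε) ^ k := by
    refine pow_le_pow_left₀ (by positivity) ?_ k
    rw [div_le_div_iff₀ (by linarith) hε]
    linarith [mul_le_mul_of_nonneg_right r1' hn0.le]
  have t2 : ((k : ℝ) + 1) * (δ * M) * (2 * (l : ℝ) / h) ^ k ≤ β / 2 * M := by
    refine (mul_le_mul_of_nonneg_left t1 (by positivity)).trans (le_of_eq ?_)
    rw [hδ]; field_simp
  have t3 : 2 * (l : ℝ) * (Cg / ρ) ≤ ((k + 1 : ℕ) : ℝ) / 8 := by
    rw [← mul_div_assoc, div_le_div_iff₀ hρ0 (by norm_num)]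
    push_cast
    linarith [mul_le_mul_of_nonneg_right hc hlpos.le]
  have t4 := ZLine_fact (k + 1) (by positivity) t3
  have t5 : (Cg / ρ) ^ (k + 1) * M * (2 * (l : ℝ)) ^ (k + 1) / (k + 1).factorial =
      (2 * (l : ℝ) * (Cg / ρ)) ^ (k + 1) / (k + 1).factorial * M := by
    rw [mul_pow (2 * (l : ℝ))]; ring
  have t6 := mul_le_mul_of_nonneg_right (t4.trans hk') hM0
  rw [t5] at main
  linarith

end Pool.Agent.P.MP_b4265e_pr.R
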