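import Pool.Agent.P.MP_b4265e_pr.R.ZDrop
import Pool.Agent.P.MP_b4265e_pr.R.GrDang
import Pool.Agent.P.MP_b4265e_pr.R.Hom
import Pool.Agent.P.MP_b4265e_pr.R.PIprob

/-!
The edges with vanishing gradient: density zero on the full lattice, positive density otherwise.
-/

namespace Pool.Agent.P.MP_b4265e_pr.R

open Finset MeasureTheory ProbabilityTheory Filter
open scoped Classical

variable {d : ℕ}

lemma zone_finite {u : V d → ℝ} (h2 : Dec Set.univ u) (i : Fin d)
    (h : {y | dif i u y ≠ 0}.Finite) : {y | u y ≠ 0}.Finite := by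
  obtain ⟨R, hR⟩ := exists_box h
  have h0 : ∀ y, y ∉ box (0 : V d) R → u (y + ee i) = u y := fun y hy => by
    by_contra hne
    exact hy (hR (sub_ne_zero.2 hne))
  refine (box (0 : V d) R).finite_toSet.subset fun y hy => ?_
  by_contra hb
  apply hy
  obtain ⟨σ, hσ, hall⟩ : ∃ σ : ℤ, (σ = 1 ∨ σ = -1) ∧
      ∀ n : ℕ, y + (σ * n) • ee i ∉ box (0 : V d) R := by
    have hb' : ¬ ∀ k, |y k - (0 : V d) k| ≤ R := fun hc => hb (mem_coe.2 (mem_box.2 hc))
    push Not at hb'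
    obtain ⟨k, hk⟩ := hb'
    refine ⟨if 0 ≤ y i then 1 else -1, by split_ifs <;> simp, fun n hn => ?_⟩
    have := mem_box.1 hn k
    simp only [Pi.add_apply, Pi.smul_apply, smul_eq_mul, Pi.zero_apply, sub_zero, ee_apply] at this hk
    rw [abs_le] at this
    rw [lt_abs] at hk
    by_cases hki : k = i
    · subst hki
      split_ifs at this <;> omega
    · rw [if_neg hki] at this
      omega
  have hconst : ∀ n : ℕ, u (y + (σ * n) • ee i) = u y := by
    intro n
    induction n with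
    | zero => simp
    | succ n ih =>
      rw [← ih]
      rcases hσ with rfl | rfl
      · rw [← h0 _ (hall n)]
        congr 1
        push_cast
        rw [mul_add, add_smul, add_assoc]; simp
      · rw [← h0 _ (hall (n + 1))]
        congr 1
        push_cast
        rw [mul_add, add_smul, add_assoc, add_assoc]; simp
  refine abs_nonpos_iff.1 (le_of_forall_pos_le_add fun ε hε => ?_)
  obtain ⟨R', hR'⟩ := h2 ε hε
  rw [zero_add, ← hconst (R' + 1 + (y i).natAbs)]
  refine hR' _ trivial fun hn => ?_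
  have := mem_box.1 hn i
  simp only [Pi.add_apply, Pi.smul_apply, smul_eq_mul, Pi.zero_apply, sub_zero, ee_self] at this
  rw [abs_le] at this
  rcases hσ with rfl | rfl <;> omega

theorem flat_density (hd : 3 ≤ d) {θ K : ℝ} (hθ : 0 < θ) (hK : 0 < K)
    (hg : AllGood θ K (Set.univ : Set (E d)) Set.univ) {u : V d → ℝ} {R0 : ℕ}
    (h1 : HarmOff Set.univ R0 u) (h2 : Dec Set.univ u) (h3 : {y | u y ≠ 0}.Infinite) {ε : ℝ}
    (hε : 0 < ε) :
    ∀ᶠ N : ℕ in atTop, (((boxE (0 : V d) N).filter fun e => grad u e = 0).card : ℝ) ≤ ε * vol d N := by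
  have hd0 : (0 : ℝ) < d := by exact_mod_cast (by omega : 0 < d)
  have hout : ∀ (R : ℕ) (y : V d) (i : Fin d), y ∉ box (0 : V d) (R + 1) →
      y ∉ box (0 : V d) R ∧ y + ee i ∉ box (0 : V d) R := by
    intro R y i hy
    have := lap_nd_add 0 y i
    simp only [mem_box_nd] at hy ⊢
    omega
  have key : ∀ i : Fin d, ∀ᶠ N : ℕ in atTop,
      (((box (0 : V d) N).filter fun y => dif i u y = 0).card : ℝ) < ε / d * vol d N := by
    intro i
    refine zero_density hd hθ hK hg (R0 := R0 + 1) (fun y hy => ?_) (fun η hη => ?_)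
      (fun h => h3 (zone_finite h2 i h)) (by positivity)
    · rw [lapG_univ_dif_comm, dif, h1 _ (hout _ y i hy).1, h1 _ (hout _ y i hy).2, sub_zero]
    · obtain ⟨R, hR⟩ := h2 (η / 2) (half_pos hη)
      refine ⟨R + 1, fun y _ hy => (abs_sub _ _).trans ?_⟩
      linarith [hR _ trivial (hout _ y i hy).1, hR _ trivial (hout _ y i hy).2]
  filter_upwards [eventually_all.2 key] with N hN
  have e : (((boxE (0 : V d) N).filter fun e => grad u e = 0).card : ℝ) =
      ∑ i, (((box (0 : V d) N).filter fun y => dif i u y = 0).card : ℝ) := by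
    simp only [card_filter, Nat.cast_sum, Nat.cast_ite, Nat.cast_one, Nat.cast_zero]
    rw [sum_boxE, sum_comm]
    rfl
  rw [e]
  refine (sum_le_sum fun i _ => (hN i).le).trans (le_of_eq ?_)
  rw [sum_const, card_univ, Fintype.card_fin, nsmul_eq_mul]
  field_simp

lemma ae_eq_univ : ∀ᵐ O ∂μP d 1, O = Set.univ := by
  have h4 : ∀ e : E d, ∀ᵐ O ∂μP d 1, e ∈ O := by
    intro e
    rw [μP, setBernoulli_one]
    exact (ae_dirac_iff (measurableSet_mem e)).2 (Set.mem_univ e)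
  filter_upwards [ae_all_iff.2 h4] with O hO using Set.eq_univ_of_forall hO

theorem flat_one (hd : 3 ≤ d) {c : ℝ} (hc : 0 < c) (h : PIprob d 1 c) {u : V d → ℝ} {R0 : ℕ}
    (h1 : HarmOff Set.univ R0 u) (h2 : Dec Set.univ u) (h3 : {y | u y ≠ 0}.Infinite) {ε : ℝ}
    (hε : 0 < ε) :
    ∀ᶠ N : ℕ in atTop, (((boxE (0 : V d) N).filter fun e => grad u e = 0).card : ℝ) ≤ ε * vol d N := by
  obtain ⟨θ, K, hθ, hK, hH⟩ := hom_of_PIprob (by omega) hc h
  obtain ⟨O, rfl, hO⟩ := ((ae_eq_univ (d := d)).and (ae_allGood hθ hH)).exists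
  rw [GC_univ (by omega), Cl_univ (by omega)] at hO
  exact flat_density hd hθ hK (hO Set.univ_nonempty) h1 h2 h3 hε

/-- The counterexample on the coded lattice. -/
theorem green_main (hd : 3 ≤ d) {p : unitInterval} (hp0 : 0 < (p : ℝ)) (hp1 : (p : ℝ) < 1) {c : ℝ}
    (hc : 0 < c) (h : PIprob d p c) :
    ∀ᵐ O ∂μP d p, ∃ o ∈ Cl O, (∀ y ∈ Cl O, ∀ z ∈ Cl O, z ∈ comp O y) ∧
      ∃ g : V d → ℝ, (∀ x ∈ Cl O, x ≠ o → lap (nbO O) g x = 0) ∧ (∀ x ∈ Cl O, 0 < g x) ∧
        (∀ t : ℝ, 0 < t → {x | t ≤ |g x|}.Finite) ∧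
        ∃ ε : ℝ, 0 < ε ∧ ∀ᶠ N : ℕ in atTop, ε * vol d N ≤
          ((boxE (0 : V d) N).filter fun e =>
            e ∈ GC O ∧ e.1 + ee e.2 ∈ box (0 : V d) N ∧ grad g e = 0).card := by
  obtain ⟨θ, K, hθ, hK, hH⟩ := hom_of_PIprob (by omega) hc h
  have hU := ae_exists_unique (by omega) hc h
  obtain ⟨a, ha, hL⟩ := ae_leaves (by omega) hp0 hp1 hθ hH (hU.mono fun O hO => hO.1)
  filter_upwards [hU, hL, ae_W_poly hH] with O ⟨⟨o, ho⟩, h1⟩ h2 h3
  obtain ⟨g, g1, g2, g3⟩ := green_of_W hd hθ hK h3 ho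
  refine ⟨o, ho, h1, g, fun x hx => g1 x (h1 o ho x hx), fun x hx => g2 x (h1 o ho x hx), g3,
    a / (4 * 3 ^ d), by positivity, ?_⟩
  obtain ⟨N0, hN0⟩ := eventually_atTop.1 h2
  obtain ⟨N1, hN1⟩ := exists_nat_ge (2 / a)
  refine eventually_atTop.2 ⟨N0 + N1 + 1, fun N hN => ?_⟩
  obtain ⟨N, rfl⟩ : ∃ M, N = M + 1 := ⟨N - 1, by omega⟩
  have k1 := hN0 N (by omega)
  set T := (box (0 : V d) N).filter fun x => x ∈ Cl O ∧ (nbO O x).card = 1 with hT
  set F := (boxE (0 : V d) (N + 1)).filter fun e =>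
    e ∈ GC O ∧ e.1 + ee e.2 ∈ box (0 : V d) (N + 1) ∧ grad g e = 0 with hF
  have k2 : T.erase o ⊆ F.image (fun e => e.1) ∪ F.image (fun e => e.1 + ee e.2) := by
    intro x hx
    obtain ⟨x1, x2⟩ := mem_erase.1 hx
    obtain ⟨x3, x4, x5⟩ := mem_filter.1 x2
    obtain ⟨y, hy⟩ := card_eq_one.1 x5
    have hadj : adj O x y := mem_nbO.1 (by rw [hy]; exact mem_singleton_self y)
    have hg : g y - g x = 0 := by
      have := g1 x (h1 o ho x x4) x1
      rwa [lap, hy, sum_singleton] at this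
    have hyC : y ∈ Cl O := mem_Cl_of_comp x4 (comp_adj (mem_comp_self _ _) hadj)
    have hxb : x ∈ box (0 : V d) (N + 1) := box_mono _ (Nat.le_succ N) x3
    have hyb : y ∈ box (0 : V d) (N + 1) := by
      have t1 := nd_triangle 0 x y
      have t2 := mem_box_nd.1 x3
      rw [nd_of_adj hadj] at t1
      exact mem_box_nd.2 (by omega)
    obtain ⟨i, ⟨rfl, he⟩ | ⟨rfl, he⟩⟩ := hadj
    · exact mem_union_left _ (mem_image.2 ⟨(x, i),
        mem_filter.2 ⟨mem_boxE'.2 hxb, ⟨he, x4⟩, hyb, hg⟩, rfl⟩)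
    · exact mem_union_right _ (mem_image.2 ⟨(y, i),
        mem_filter.2 ⟨mem_boxE'.2 hyb, ⟨he, hyC⟩, hxb, by rw [grad]; linarith⟩, rfl⟩)
  have k3 : T.card ≤ 2 * F.card + 1 := by
    have t1 := (card_le_card k2).trans (card_union_le _ _)
    have t2 := card_image_le (s := F) (f := fun e => e.1)
    have t3 := card_image_le (s := F) (f := fun e => e.1 + ee e.2)
    have t4 := pred_card_le_card_erase (s := T) (a := o)
    omega
  have k4 : (T.card : ℝ) ≤ 2 * F.card + 1 := by exact_mod_cast k3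
  have k5 : vol d (N + 1) ≤ 3 ^ d * vol d N := by
    refine vol_le_mul d ?_
    have : (0 : ℝ) ≤ N := by positivity
    push_cast; linarith
  have k6 : 2 ≤ a * vol d N := by
    have t1 : (N1 : ℝ) ≤ N := by exact_mod_cast (by omega : N1 ≤ N)
    have t2 : (2 * (N : ℝ) + 1) ≤ vol d N := by
      have : (0 : ℝ) ≤ N := by positivity
      exact le_self_pow₀ (by linarith) (by omega)
    rw [div_le_iff₀' ha] at hN1
    refine hN1.trans (mul_le_mul_of_nonneg_left ?_ ha.le)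
    have : (0 : ℝ) ≤ N := by positivity
    linarith
  calc a / (4 * 3 ^ d) * vol d (N + 1) ≤ a / (4 * 3 ^ d) * (3 ^ d * vol d N) := by gcongr
    _ = a * vol d N / 4 := by field_simp
    _ ≤ _ := by linarith

end Pool.Agent.P.MP_b4265e_pr.R
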